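import Mathlib

/-! Row LIM: convergence of one normalised mixing time gives cutoff along all indices, abstract
form. -/

set_option autoImplicit false

namespace Pool.Agent.CutSeq

open Filter Topology

/-- the upper half -/
theorem limit_upper (T : ℕ → ℝ → ℝ) (hmono : ∀ ε : ℝ, 0 < ε → Monotone fun n => T n ε)
    (hB : ∀ δ ε η : ℝ, 0 < δ → 0 < ε → 0 < η → η < 1 → ∀ᶠ N : ℕ in atTop, ∃ n' : ℕ,
      (n' : ℝ) ≤ (1 + δ) * N ∧ T N ε ≤ T n' (1 - η) + 16 / 3 * ((N : ℝ) - n') + δ * N)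
    (ε₀ lam : ℝ) (h0 : 0 < ε₀) (h1 : ε₀ < 1) (hlam : 7 ≤ lam)
    (h : ∀ δ : ℝ, 0 < δ → ∀ᶠ n : ℕ in atTop, T n ε₀ ≤ (lam + δ) * n) (ε : ℝ) (hε : 0 < ε)
    (η : ℝ) (hη : 0 < η) : ∀ᶠ N : ℕ in atTop, T N ε ≤ (lam + η) * N := by
  -- choice of δ
  obtain ⟨δ, hδ, hδη⟩ : ∃ δ : ℝ, 0 < δ ∧ (lam + δ - 16 / 3) * (1 + δ) + 16 / 3 + δ ≤ lam + η / 2 := by
    refine ⟨min 1 (η / (4 * (lam + 3))), lt_min one_pos (by positivity), ?_⟩
    have e1 : min 1 (η / (4 * (lam + 3))) ≤ 1 := min_le_left _ _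
    have e2 : min 1 (η / (4 * (lam + 3))) ≤ η / (4 * (lam + 3)) := min_le_right _ _
    have e3 : 0 < min 1 (η / (4 * (lam + 3))) := lt_min one_pos (by positivity)
    set δ := min 1 (η / (4 * (lam + 3))) with hδ
    rw [le_div_iff₀ (by positivity)] at e2
    nlinarith
  obtain ⟨n₀, hn₀⟩ := eventually_atTop.1 (h δ hδ)
  have hall : ∀ n : ℕ, T n ε₀ ≤ (lam + δ) * n + |T n₀ ε₀| := by
    intro n
    by_cases hn : n₀ ≤ n
    · have := hn₀ n hn
      have := abs_nonneg (T n₀ ε₀)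
      linarith
    · have e1 : T n ε₀ ≤ T n₀ ε₀ := hmono ε₀ h0 (by omega)
      have e2 := le_abs_self (T n₀ ε₀)
      have e3 : 0 ≤ (lam + δ) * (n : ℝ) := by positivity
      linarith
  have hev := hB δ ε (1 - ε₀) hδ hε (by linarith) (by linarith)
  have hbig : ∀ᶠ N : ℕ in atTop, |T n₀ ε₀| * 2 / η ≤ (N : ℝ) :=
    tendsto_natCast_atTop_atTop.eventually_ge_atTop _
  filter_upwards [hev, hbig] with N hN hN2
  obtain ⟨n', hn', hT⟩ := hN
  rw [sub_sub_cancel] at hT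
  have e1 := hall n'
  rw [div_le_iff₀ hη] at hN2
  have hN0 : (0 : ℝ) ≤ N := Nat.cast_nonneg N
  have e2 : (lam + δ - 16 / 3) * (n' : ℝ) ≤ (lam + δ - 16 / 3) * ((1 + δ) * N) :=
    mul_le_mul_of_nonneg_left hn' (by linarith)
  have e3 : ((lam + δ - 16 / 3) * (1 + δ) + 16 / 3 + δ) * (N : ℝ) ≤ (lam + η / 2) * N :=
    mul_le_mul_of_nonneg_right hδη hN0
  nlinarith

theorem limit_abs (T : ℕ → ℝ → ℝ) (hmono : ∀ ε : ℝ, 0 < ε → Monotone fun n => T n ε)
    (hlow : ∀ ε : ℝ, 0 < ε → ε < 1 → ∀ᶠ n : ℕ in atTop, 7 * (n : ℝ) ≤ T n ε)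
    (hB : ∀ δ ε η : ℝ, 0 < δ → 0 < ε → 0 < η → η < 1 → ∀ᶠ N : ℕ in atTop, ∃ n' : ℕ,
      (n' : ℝ) ≤ (1 + δ) * N ∧ T N ε ≤ T n' (1 - η) + 16 / 3 * ((N : ℝ) - n') + δ * N)
    (ε₀ lam : ℝ) (h0 : 0 < ε₀) (h1 : ε₀ < 1)
    (h : Tendsto (fun n : ℕ => T n ε₀ / n) atTop (𝓝 lam)) :
    ∀ ε : ℝ, 0 < ε → ε < 1 → Tendsto (fun n : ℕ => T n ε / n) atTop (𝓝 lam) ∧
      Tendsto (fun n : ℕ => T n ε / T n (1 - ε)) atTop (𝓝 1) := by
  have hpos : ∀ᶠ n : ℕ in atTop, (0 : ℝ) < n := tendsto_natCast_atTop_atTop.eventually_gt_atTop 0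
  have hlam : 7 ≤ lam := by
    apply ge_of_tendsto h
    filter_upwards [hlow ε₀ h0 h1, hpos] with n hn hn0
    rw [le_div_iff₀ hn0]
    exact hn
  have hup0 : ∀ δ : ℝ, 0 < δ → ∀ᶠ n : ℕ in atTop, T n ε₀ ≤ (lam + δ) * n := by
    intro δ hδ
    filter_upwards [h.eventually_le_const (show lam < lam + δ by linarith), hpos] with n hn hn0
    rwa [div_le_iff₀ hn0] at hn
  have hdn0 : ∀ δ : ℝ, 0 < δ → ∀ᶠ n : ℕ in atTop, (lam - δ) * n ≤ T n ε₀ := by
    intro δ hδ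
    filter_upwards [h.eventually_const_le (show lam - δ < lam by linarith), hpos] with n hn hn0
    rwa [le_div_iff₀ hn0] at hn
  have hup : ∀ ε : ℝ, 0 < ε → ∀ η : ℝ, 0 < η → ∀ᶠ N : ℕ in atTop, T N ε ≤ (lam + η) * N :=
    fun ε hε η hη => limit_upper T hmono hB ε₀ lam h0 h1 hlam hup0 ε hε η hη
  have hdn : ∀ ε : ℝ, 0 < ε → ε < 1 → ∀ η : ℝ, 0 < η → ∀ᶠ N : ℕ in atTop,
      (lam - η) * N ≤ T N ε := by
    intro ε hε hε1 η hη
    set κ : ℝ := lam - 16 / 3 with hκ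
    have hκ0 : 0 < κ := by rw [hκ]; linarith
    -- choice of δ
    have hF : Tendsto (fun δ : ℝ => (κ - 2 * δ) * (1 + 16 / 3 / (κ + δ)) / (1 + δ)) (𝓝 0)
        (𝓝 ((κ - 2 * 0) * (1 + 16 / 3 / (κ + 0)) / (1 + 0))) := by
      have hc : ContinuousAt (fun δ : ℝ => (κ - 2 * δ) * (1 + 16 / 3 / (κ + δ)) / (1 + δ)) 0 := by
        apply ContinuousAt.div
        · apply ContinuousAt.mul
          · fun_prop
          · apply ContinuousAt.add continuousAt_const
            apply ContinuousAt.div continuousAt_const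
            · fun_prop
            · simpa using hκ0.ne'
        · fun_prop
        · norm_num
      exact hc.tendsto
    have hF0 : (κ - 2 * 0) * (1 + 16 / 3 / (κ + 0)) / (1 + 0) = lam := by
      have : κ + 16 / 3 = lam := by rw [hκ]; ring
      field_simp
      rw [← this]
      ring
    rw [hF0] at hF
    have hF1 := hF.eventually_const_le (show lam - η / 2 < lam by linarith)
    obtain ⟨r, hr, hrF⟩ := Metric.eventually_nhds_iff.1 hF1
    obtain ⟨δ, hδ, hδr, hδκ⟩ : ∃ δ : ℝ, 0 < δ ∧ δ < r ∧ 2 * δ < κ := by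
      refine ⟨min (r / 2) (κ / 4), lt_min (by positivity) (by positivity), ?_, ?_⟩
      · have := min_le_left (r / 2) (κ / 4)
        linarith
      · have := min_le_right (r / 2) (κ / 4)
        linarith
    have hFδ : lam - η / 2 ≤ (κ - 2 * δ) * (1 + 16 / 3 / (κ + δ)) / (1 + δ) := by
      apply hrF
      rw [Real.dist_eq, sub_zero, abs_of_pos hδ]
      exact hδr
    set A : ℝ := (κ - 2 * δ) * (1 + 16 / 3 / (κ + δ)) with hA
    have hA0 : 0 < A := by
      rw [hA]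
      have : 0 < κ - 2 * δ := by linarith
      positivity
    -- the upper bound for all indices
    obtain ⟨n₀, hn₀⟩ := eventually_atTop.1 (hup ε hε δ hδ)
    set C : ℝ := |T n₀ ε| with hC
    have hall : ∀ n : ℕ, T n ε ≤ (lam + δ) * n + C := by
      intro n
      by_cases hn : n₀ ≤ n
      · have := hn₀ n hn
        have := abs_nonneg (T n₀ ε)
        linarith
      · have e1 : T n ε ≤ T n₀ ε := hmono ε hε (by omega)
        have e2 := le_abs_self (T n₀ ε)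
        have e3 : 0 ≤ (lam + δ) * (n : ℝ) := by positivity
        linarith
    have hev := hB δ ε₀ (1 - ε) hδ h0 (by linarith) (by linarith)
    obtain ⟨N₁, hN₁⟩ := eventually_atTop.1 (hev.and (hdn0 δ hδ))
    -- from N to M
    have hbig : ∀ᶠ M : ℕ in atTop, (A + 16 / 3 * C / (κ + δ)) * 2 / η ≤ (M : ℝ) :=
      tendsto_natCast_atTop_atTop.eventually_ge_atTop _
    have hbig2 : ∀ᶠ M : ℕ in atTop, ((N₁ : ℝ) + 1) * (1 + δ) ≤ (M : ℝ) :=
      tendsto_natCast_atTop_atTop.eventually_ge_atTop _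
    filter_upwards [hbig, hbig2] with M hM hM2
    set N : ℕ := ⌊(M : ℝ) / (1 + δ)⌋₊ with hN
    have hδ1 : (0 : ℝ) < 1 + δ := by linarith
    have hNle : (N : ℝ) ≤ M / (1 + δ) := Nat.floor_le (by positivity)
    have hNgt : (M : ℝ) / (1 + δ) < N + 1 := Nat.lt_floor_add_one _
    have hNN : N₁ ≤ N := by
      apply Nat.le_floor
      rw [le_div_iff₀ hδ1]
      nlinarith
    obtain ⟨⟨n', hn', hT⟩, hT0⟩ := hN₁ N hNN
    rw [sub_sub_cancel] at hT
    have hn'M : n' ≤ M := by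
      have : (n' : ℝ) ≤ M := by
        refine hn'.trans ?_
        rw [le_div_iff₀ hδ1] at hNle
        linarith
      exact_mod_cast this
    have hTM : T n' ε ≤ T M ε := hmono ε hε hn'M
    have e1 := hall n'
    have hκδ : 0 < κ + δ := by linarith
    -- lower bound for n'
    have e2 : (κ - 2 * δ) * N - C ≤ (κ + δ) * n' := by
      rw [hκ]
      nlinarith
    have e3 : ((κ - 2 * δ) * N - C) / (κ + δ) ≤ n' := by
      rw [div_le_iff₀ hκδ]
      linarith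
    have e4 : (κ - 2 * δ) * N + 16 / 3 * n' ≤ T n' ε := by
      rw [hκ]
      nlinarith
    have e5 : A * N - 16 / 3 * C / (κ + δ) ≤ T M ε := by
      have e6 : A * N - 16 / 3 * C / (κ + δ)
          = (κ - 2 * δ) * N + 16 / 3 * (((κ - 2 * δ) * N - C) / (κ + δ)) := by
        rw [hA]
        field_simp
        ring
      rw [e6]
      nlinarith
    have e7 : A * ((M : ℝ) / (1 + δ) - 1) ≤ A * N := by
      apply mul_le_mul_of_nonneg_left _ hA0.le
      linarith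
    have e8 : (lam - η / 2) * M ≤ A * ((M : ℝ) / (1 + δ)) := by
      have := mul_le_mul_of_nonneg_right hFδ (Nat.cast_nonneg M : (0 : ℝ) ≤ M)
      calc (lam - η / 2) * M ≤ A / (1 + δ) * M := this
        _ = _ := by ring
    rw [div_le_iff₀ hη] at hM
    nlinarith
  have hlim : ∀ ε : ℝ, 0 < ε → ε < 1 → Tendsto (fun n : ℕ => T n ε / n) atTop (𝓝 lam) := by
    intro ε hε hε1
    rw [Metric.tendsto_atTop]
    intro η hη
    obtain ⟨K, hK⟩ := eventually_atTop.1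
      ((hup ε hε (η / 2) (by positivity)).and ((hdn ε hε hε1 (η / 2) (by positivity)).and hpos))
    refine ⟨K, fun n hn => ?_⟩
    obtain ⟨e1, e2, e3⟩ := hK n hn
    rw [← div_le_iff₀ e3] at e1
    rw [← le_div_iff₀ e3] at e2
    rw [Real.dist_eq, abs_lt]
    constructor <;> linarith
  intro ε hε hε1
  refine ⟨hlim ε hε hε1, ?_⟩
  have h3 := hlim (1 - ε) (by linarith) (by linarith)
  have h4 := (hlim ε hε hε1).div h3 (by linarith)
  rw [div_self (by linarith : lam ≠ 0)] at h4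
  refine h4.congr' ?_
  filter_upwards [hpos] with n hn
  simp only [Pi.div_apply]
  rw [div_div_div_cancel_right₀ hn.ne']

end Pool.Agent.CutSeq
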