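import Pool.Agent.CutSeq.ThmB

/-! Row TFM: Theorem B for the mixing times. -/

set_option autoImplicit false

namespace Pool.Agent.CutSeq

open Filter Topology

namespace Tfm

open Finset Pool.Agent.UTM Pool.Agent.UTM.Es

/-- the first `n'` rows -/
def pj {n' n : ℕ} (h : n' ≤ n) (x : Un n) : Un n' := fun k => x ⟨k.val, lt_of_lt_of_le k.isLt h⟩

/-- the other rows are zero -/
def ij {n' : ℕ} (n : ℕ) (y : Un n') : Un n := fun k =>
  if h : k.val < n' then y ⟨k.val, h⟩ else 0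

theorem pj_ij {n' n : ℕ} (h : n' ≤ n) (y : Un n') : pj h (ij n y) = y := by
  funext k
  unfold pj ij
  rw [dif_pos k.isLt]

theorem pj_add {n' n : ℕ} (h : n' ≤ n) (x y : Un n) : pj h (x + y) = pj h x + pj h y := rfl

theorem en_pj {n' n : ℕ} (h : n' ≤ n) (x : Un n) (k j : ℕ) (hk : k < n') (hj : j < k) :
    Brg.en (pj h x) k j = Brg.en x k j := by
  rw [Brg.en_mk _ k j hk hj, Brg.en_mk x k j (by omega) hj]
  rfl

theorem pj_ro {n' n : ℕ} (h : n' ≤ n) (b : ℕ) (x : Un n) :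
    pj h (Brg.ro b x) = Brg.ro b (pj h x) := by
  apply Brg.en_ext
  intro k j hj hk
  rw [en_pj h _ k j hk hj, Brg.en_ro b x k j (by omega) hj, Brg.en_ro b _ k j hk hj,
    en_pj h x k j hk hj]
  by_cases hb : k = b + 1
  · rw [if_pos hb, if_pos hb]
    by_cases hjb : j = b
    · rw [if_pos hjb, if_pos hjb]
    · rw [if_neg hjb, if_neg hjb, en_pj h x b j (by omega) (by omega)]
  · rw [if_neg hb, if_neg hb]

theorem pj_intertwine {n' n : ℕ} (h : n' ≤ n) (f : Un n' → ℝ) :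
    Brg.LU n (pull (pj h) f) = pull (pj h) (Brg.LU n' f) := by
  funext x
  have h0 : pull (pj h) (Brg.LU n' f) x = Brg.LU n' f (pj h x) := rfl
  rw [Brg.LU_apply, h0, Brg.LU_apply]
  symm
  apply Finset.sum_subset_zero_on_sdiff
  · intro b hb
    rw [mem_range] at hb ⊢
    omega
  · intro b hb
    rw [Finset.mem_sdiff, mem_range, mem_range] at hb
    rw [pull_apply, pull_apply, pj_ro, Brg.ro_ge b _ (by omega)]
    ring
  · intro b _
    rw [pull_apply, pull_apply, pj_ro]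

/-- the law of the first rows -/
theorem ct_pj {n' n : ℕ} (h : n' ≤ n) (t : ℝ) (y : Un n') :
    ct n' t y = ∑ x, if pj h x = y then ct n t x else 0 := by
  have h1 := heat_intertwine (Brg.LU n') (Brg.LU n) (pull (pj h)) (pj_intertwine h) t (Brg.dl y)
  have h2 : pull (pj h) (heat (Brg.LU n') t (Brg.dl y)) (0 : Un n)
      = heat (Brg.LU n') t (Brg.dl y) (0 : Un n') := rfl
  rw [ct_eq_tr, Brg.tr_eq, ← h2, ← h1, Brg.expand]
  apply Finset.sum_congr rfl
  intro x _
  rw [pull_apply, ← ct_eq_tr]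
  unfold Brg.dl
  by_cases hx : pj h x = y
  · rw [if_pos hx, if_pos hx, mul_one]
  · rw [if_neg hx, if_neg hx, mul_zero]

/-- the fibres of the projection have the same size -/
theorem card_fib {n' n : ℕ} (h : n' ≤ n) (y : Un n') :
    ∑ x : Un n, (if pj h x = y then (1 : ℝ) else 0)
      = (Fintype.card (Un n) : ℝ) / (Fintype.card (Un n') : ℝ) := by
  have h1 : ∀ y : Un n', ∑ x : Un n, (if pj h x = y then (1 : ℝ) else 0)
      = ∑ x : Un n, (if pj h x = 0 then (1 : ℝ) else 0) := by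
    intro y
    rw [← Equiv.sum_comp (Equiv.addRight (ij n y))]
    apply Finset.sum_congr rfl
    intro x _
    have e : pj h (Equiv.addRight (ij n y) x) = pj h x + y := by
      rw [Equiv.coe_addRight, pj_add, pj_ij]
    rw [e]
    by_cases hx : pj h x = 0
    · rw [if_pos hx, if_pos (by rw [hx, zero_add])]
    · rw [if_neg hx, if_neg (fun e => hx (by simpa using e))]
  have h2 : ∑ y : Un n', ∑ x : Un n, (if pj h x = y then (1 : ℝ) else 0)
      = (Fintype.card (Un n) : ℝ) := by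
    rw [Finset.sum_comm]
    simp
  rw [Finset.sum_congr rfl fun y _ => h1 y, Finset.sum_const, card_univ, nsmul_eq_mul] at h2
  rw [h1 y]
  have hN : (0 : ℝ) < (Fintype.card (Un n') : ℝ) := by exact_mod_cast Fintype.card_pos
  rw [eq_div_iff hN.ne', mul_comm]
  exact h2

theorem dd_small {n : ℕ} (hn : n < 2) (t : ℝ) : dd n t = 0 := by
  have hc : Fintype.card (Un n) = 1 := by
    rw [card_Un]
    interval_cases n <;> norm_num
  obtain ⟨x₀, hx₀⟩ := Fintype.card_eq_one_iff.mp hc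
  have h1 : ∑ x : Un n, ct n t x = 1 := by
    rw [Finset.sum_congr rfl fun x _ => ct_eq_tr n t x, tr_sum]
  have h2 : ct n t x₀ = 1 := by
    rw [← h1]
    symm
    apply Finset.sum_eq_single x₀
    · intro b _ hb
      exact absurd (hx₀ b) hb
    · intro h
      exact absurd (mem_univ _) h
  unfold dd
  rw [Finset.sum_eq_zero, mul_zero]
  intro x _
  rw [hx₀ x, h2, hc]
  norm_num

end Tfm

/-- the array of `n'` levels is a function of the array of `n` levels -/
theorem dd_mono_level {n' n : ℕ} (h : n' ≤ n) {t : ℝ} (ht : 0 ≤ t) : dd n' t ≤ dd n t := by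
  have _ := ht
  unfold dd
  apply mul_le_mul_of_nonneg_left _ (by norm_num)
  have hN : (0 : ℝ) < (Fintype.card (Un n) : ℝ) := by exact_mod_cast Fintype.card_pos
  have hN' : (0 : ℝ) < (Fintype.card (Un n') : ℝ) := by exact_mod_cast Fintype.card_pos
  have h1 : ∀ y : Un n', ct n' t y - 1 / (Fintype.card (Un n') : ℝ)
      = ∑ x : Un n, if Tfm.pj h x = y then (ct n t x - 1 / (Fintype.card (Un n) : ℝ)) else 0 := by
    intro y
    have e : ∀ x : Un n, (if Tfm.pj h x = y then (ct n t x - 1 / (Fintype.card (Un n) : ℝ)) else 0)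
        = (if Tfm.pj h x = y then ct n t x else 0)
          - 1 / (Fintype.card (Un n) : ℝ) * (if Tfm.pj h x = y then (1 : ℝ) else 0) := by
      intro x
      split_ifs <;> ring
    rw [Finset.sum_congr rfl fun x _ => e x, Finset.sum_sub_distrib, ← Tfm.ct_pj, ← Finset.mul_sum,
      Tfm.card_fib]
    congr 1
    field_simp
  calc ∑ y : Un n', |ct n' t y - 1 / (Fintype.card (Un n') : ℝ)|
      ≤ ∑ y : Un n', ∑ x : Un n,
          if Tfm.pj h x = y then |ct n t x - 1 / (Fintype.card (Un n) : ℝ)| else 0 := by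
        apply Finset.sum_le_sum
        intro y _
        rw [h1]
        refine (Finset.abs_sum_le_sum_abs _ _).trans (Finset.sum_le_sum fun x _ => ?_)
        split_ifs
        · exact le_rfl
        · rw [abs_zero]
    _ = ∑ x : Un n, |ct n t x - 1 / (Fintype.card (Un n) : ℝ)| := by
        rw [Finset.sum_comm]
        apply Finset.sum_congr rfl
        intro x _
        simp

theorem exists_dd_le (n : ℕ) (ε : ℝ) (hε : 0 < ε) : ∃ t : ℝ, 0 ≤ t ∧ dd n t ≤ ε := by
  obtain ⟨c, hc0, hc⟩ := gap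
  set M : ℝ := (Fintype.card (Un n) : ℝ) with hM
  have hM0 : 0 < M := by rw [hM]; exact_mod_cast Fintype.card_pos
  have hlim : Tendsto (fun s : ℝ => 1 / 2 * (M * Real.exp (-(c * s)))) atTop (𝓝 0) := by
    have h1 : Tendsto (fun s : ℝ => Real.exp (-(c * s))) atTop (𝓝 0) :=
      Real.tendsto_exp_neg_atTop_nhds_zero.comp (tendsto_id.const_mul_atTop hc0)
    have h2 := (h1.const_mul M).const_mul (1 / 2 : ℝ)
    simpa using h2
  obtain ⟨t, ht0, ht⟩ := ((eventually_ge_atTop (0 : ℝ)).and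
    (hlim.eventually_le_const hε)).exists
  refine ⟨t, ht0, le_trans ?_ ht⟩
  unfold dd
  apply mul_le_mul_of_nonneg_left _ (by norm_num)
  have h1 := hc n (fun y => if y = 0 then 1 else 0) t ht0
  have h2 : ∀ x : Un n, ∑ y : Un n, (if y = 0 then (1 : ℝ) else 0) * tr n t y x = ct n t x := by
    intro x
    rw [ct_eq_tr]
    simp
  have h3 : ∑ y : Un n, (if y = 0 then (1 : ℝ) else 0) = 1 := by simp
  have h4 : ∑ x : Un n, ((if x = 0 then (1 : ℝ) else 0)) ^ 2 = 1 := by simp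
  rw [h4, mul_one] at h1
  have h5 : ∀ x : Un n, |ct n t x - 1 / M| ≤ Real.exp (-(c * t)) := by
    intro x
    have h6 : (ct n t x - 1 / M) ^ 2 ≤ Real.exp (-(2 * c * t)) := by
      refine le_trans ?_ h1
      have h7 := Finset.single_le_sum (s := Finset.univ)
        (f := fun x : Un n => (∑ y : Un n, (if y = 0 then (1 : ℝ) else 0) * tr n t y x
          - (∑ y : Un n, (if y = 0 then (1 : ℝ) else 0)) / (Fintype.card (Un n) : ℝ)) ^ 2)
        (fun x _ => sq_nonneg _) (Finset.mem_univ x)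
      simp only [h2, h3] at h7 ⊢
      exact h7
    have h8 : Real.exp (-(2 * c * t)) = Real.exp (-(c * t)) ^ 2 := by
      rw [← Real.exp_nat_mul]
      congr 1
      push_cast
      ring
    rw [h8] at h6
    exact abs_le_of_sq_le_sq h6 (Real.exp_pos _).le
  calc ∑ x : Un n, |ct n t x - 1 / M| ≤ ∑ _x : Un n, Real.exp (-(c * t)) :=
        Finset.sum_le_sum fun x _ => h5 x
    _ = M * Real.exp (-(c * t)) := by
        rw [Finset.sum_const, Finset.card_univ, nsmul_eq_mul]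

/-- the frozen distance is `dd` -/
theorem frozen_dd (K : (n : ℕ) → Matrix (Matrix (Fin n) (Fin n) (ZMod 2)) (Matrix (Fin n) (Fin n) (ZMod 2)) ℝ)
    (hK : ∀ (n : ℕ) (A B : Matrix (Fin n) (Fin n) (ZMod 2)),
        K n A B = (1 / 2 : ℝ) * (if B = A then 1 else 0)
          + (1 / (2 * ((n : ℝ) - 1))) *
            ∑ i : Fin n, ∑ j : Fin n,
              (if j.val = i.val + 1 ∧ B = A.updateRow i (A i + A j) then (1 : ℝ) else 0))
    (P : (n : ℕ) → ℝ → Matrix (Fin n) (Fin n) (ZMod 2) → ℝ)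
    (hP : ∀ (n : ℕ) (t : ℝ) (B : Matrix (Fin n) (Fin n) (ZMod 2)),
        P n t B = ∑' k : ℕ, Real.exp (-(((n : ℝ) - 1) * t)) * (((n : ℝ) - 1) * t) ^ k
              / (k.factorial : ℝ) * ((K n) ^ k) 1 B)
    (n : ℕ) (hn : 2 ≤ n) (t : ℝ) (ht : 0 ≤ t) :
    (1 / 2 : ℝ) * ∑ B : Matrix (Fin n) (Fin n) (ZMod 2),
          |P n t B - (if (∀ a : Fin n, B a a = 1) ∧ (∀ a b : Fin n, b < a → B a b = 0)
                then (1 / 2 : ℝ) ^ (n * (n - 1) / 2) else 0)| = dd n t := by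
  have _ := ht
  have hPl : ∀ B : Matrix (Fin n) (Fin n) (ZMod 2), P n t B
      = Pool.Agent.UTM.Es.heat (Pool.Agent.UTM.Es.LM n) t (fun C => if C = B then 1 else 0) 1 := by
    intro B
    rw [hP, ← Pool.Agent.UTM.Es.law_eq (K := K) hK n hn t 1 B]
    rfl
  unfold dd
  congr 1
  -- restrict to the image
  have himg : ∀ B : Matrix (Fin n) (Fin n) (ZMod 2), B ∉ Finset.univ.image (toMat n) →
      |P n t B - (if (∀ a : Fin n, B a a = 1) ∧ (∀ a b : Fin n, b < a → B a b = 0)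
                then (1 / 2 : ℝ) ^ (n * (n - 1) / 2) else 0)| = 0 := by
    intro B hB
    have hB' : B ∉ Set.range (toMat n) := by
      rintro ⟨x, hx⟩
      exact hB (Finset.mem_image.mpr ⟨x, Finset.mem_univ _, hx⟩)
    have hB2 := (not_congr (mem_range_toMat n B)).mp hB'
    rw [if_neg hB2, sub_zero, abs_eq_zero, hPl]
    have h := Pool.Agent.UTM.Es.heat_intertwine (Pool.Agent.UTM.Es.LM n) (Brg.LU n)
      (Pool.Agent.UTM.Es.pull (toMat n)) (Brg.intertwine n) t
      (fun C : Pool.Agent.UTM.Mat n => if C = B then (1 : ℝ) else 0)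
    have h0 : Pool.Agent.UTM.Es.pull (toMat n)
        (fun C : Pool.Agent.UTM.Mat n => if C = B then (1 : ℝ) else 0) = 0 := by
      funext z
      rw [Pool.Agent.UTM.Es.pull_apply, if_neg (fun e => hB' ⟨z, e⟩)]
      rfl
    rw [h0, map_zero] at h
    have h1 := congrFun h (0 : Un n)
    rw [Pool.Agent.UTM.Es.pull_apply, toMat_zero] at h1
    exact h1.symm
  rw [← Finset.sum_subset (Finset.subset_univ (Finset.univ.image (toMat n)))
    (fun B _ hB => himg B hB), Finset.sum_image (fun x _ y _ h => toMat_injective n h)]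
  apply Finset.sum_congr rfl
  intro x _
  have hx := (mem_range_toMat n (toMat n x)).mp ⟨x, rfl⟩
  rw [if_pos hx, hPl, card_Un]
  congr 2
  push_cast
  rw [one_div, inv_pow, one_div]

/-- Theorem B for any family `T` with `T n ε = inf {t ≥ 0 | D n t ≤ ε}`, `D n = dd n` for `n ≥ 2` -/
theorem thmB_T (D : ℕ → ℝ → ℝ) (hD : ∀ n, 2 ≤ n → ∀ t, 0 ≤ t → D n t = dd n t)
    (T : ℕ → ℝ → ℝ) (hT : ∀ n ε, T n ε = sInf {t : ℝ | 0 ≤ t ∧ D n t ≤ ε})
    (A : ℝ) (hA : ∀ ε : ℝ, 0 < ε → ε < 1 → ∀ᶠ n : ℕ in atTop, T n ε ≤ A * n)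
    (δ ε η : ℝ) (hδ : 0 < δ) (hε : 0 < ε) (hη : 0 < η) (hη1 : η < 1) :
    ∀ᶠ N : ℕ in atTop, ∃ n' : ℕ, (n' : ℝ) ≤ (1 + δ) * N ∧
      T N ε ≤ T n' (1 - η) + 16 / 3 * ((N : ℝ) - n') + δ * N := by
  have hTnn : ∀ n ε, 0 ≤ T n ε := by
    intro n ε
    rw [hT]
    exact Real.sInf_nonneg fun t ht => ht.1
  -- parameters
  set d : ℝ := min 1 (δ / 20) with hd
  have hd0 : 0 < d := lt_min one_pos (by positivity)
  have hd1 : d ≤ 1 := min_le_left _ _
  have hdδ : 20 * d ≤ δ := by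
    have : d ≤ δ / 20 := min_le_right _ _
    linarith
  -- the speed
  set u : ℝ := 1 / (16 / 3 + d) with hu
  have hu0 : 0 < u := by positivity
  have huv : u < Pool.Agent.UTM.Es.vv := by
    refine lt_of_lt_of_le ?_ Pool.Agent.UTM.Es.vv_ge
    rw [hu, div_lt_div_iff₀ (by positivity) (by norm_num)]
    linarith
  -- upper bounds
  obtain ⟨n₀, hn₀⟩ := eventually_atTop.1 (hA (1 - η) (by linarith) (by linarith))
  set S : ℝ := ∑ n ∈ Finset.range n₀, T n (1 - η) with hS
  have hS0 : 0 ≤ S := Finset.sum_nonneg fun n _ => hTnn _ _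
  set C : ℝ := 3 * |A| + S + 1 with hC
  have hC0 : 0 < C := by
    have := abs_nonneg A
    linarith
  obtain ⟨N₀, hN₀⟩ := thmB u hu0 huv C d η ε hC0 hd0 hd1 hη hη1 hε
  filter_upwards [eventually_ge_atTop (max N₀ 2)] with N hN
  have hNN₀ : N₀ ≤ N := le_trans (le_max_left _ _) hN
  have hN2 : 2 ≤ N := le_trans (le_max_right _ _) hN
  have hNR : (2 : ℝ) ≤ N := by exact_mod_cast hN2
  have hNpos : (0 : ℝ) < N := by linarith
  set a : ℕ → ℝ := fun n => T n (1 - η) + d * N with ha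
  have hTC : ∀ n ≤ 3 * N, T n (1 - η) ≤ (3 * |A| + S) * N := by
    intro n hn
    by_cases hnn : n₀ ≤ n
    · have h1 := hn₀ n hnn
      have h2 : (n : ℝ) ≤ 3 * N := by exact_mod_cast hn
      have h3 : A * n ≤ |A| * (3 * N) :=
        mul_le_mul (le_abs_self A) h2 (Nat.cast_nonneg n) (abs_nonneg A)
      have h4 : 0 ≤ S * N := by positivity
      nlinarith
    · have h1 : T n (1 - η) ≤ S :=
        Finset.single_le_sum (f := fun n => T n (1 - η)) (fun n _ => hTnn _ _)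
          (Finset.mem_range.mpr (by omega))
      have h2 : S * 1 ≤ S * N := mul_le_mul_of_nonneg_left (by linarith) hS0
      have h3 : 0 ≤ 3 * |A| * N := by positivity
      nlinarith
  have hprop : ∀ n ≤ 3 * N, 0 ≤ a n ∧ a n ≤ C * N ∧ dd n (a n) ≤ 1 - η := by
    intro n hn
    have hdN : 0 < d * N := by positivity
    refine ⟨by rw [ha]; exact add_nonneg (hTnn _ _) hdN.le, ?_, ?_⟩
    · have h1 := hTC n hn
      have h2 : d * N ≤ 1 * N := mul_le_mul_of_nonneg_right hd1 hNpos.le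
      have h3 : C * N = (3 * |A| + S) * N + 1 * N := by rw [hC]; ring
      rw [ha, h3]
      exact add_le_add h1 h2
    · by_cases hn2 : n < 2
      · rw [Tfm.dd_small hn2]
        linarith
      · have hn2' : 2 ≤ n := by omega
        obtain ⟨t₀, ht₀, ht₀'⟩ := exists_dd_le n (1 - η) (by linarith)
        have hne : ({t : ℝ | 0 ≤ t ∧ D n t ≤ 1 - η}).Nonempty :=
          ⟨t₀, ht₀, by rw [hD n hn2' t₀ ht₀]; exact ht₀'⟩
        have hlt : sInf {t : ℝ | 0 ≤ t ∧ D n t ≤ 1 - η} < a n := by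
          rw [← hT, ha]
          simp only
          linarith
        obtain ⟨t, ⟨ht0, htD⟩, hta⟩ := exists_lt_of_csInf_lt hne hlt
        rw [hD n hn2' t ht0] at htD
        exact le_trans (dd_antitone n ht0 hta.le) htD
  -- the maximum
  set F : Finset ℕ := (Finset.range (3 * N)).filter fun n' => (n' : ℝ) ≤ (1 + d) * N with hF
  have hF0 : (0 : ℕ) ∈ F := by
    rw [hF, Finset.mem_filter, Finset.mem_range]
    refine ⟨by omega, ?_⟩
    push_cast
    positivity
  have hFmem : ∀ n' : ℕ, (n' : ℝ) ≤ (1 + d) * N → n' ∈ F := by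
    intro n' hn'
    rw [hF, Finset.mem_filter, Finset.mem_range]
    refine ⟨?_, hn'⟩
    have h1 : (n' : ℝ) < 3 * N := by nlinarith
    exact_mod_cast h1
  obtain ⟨m, hm, hmax⟩ := Finset.exists_max_image F
    (fun n' => a n' + ((1 + d) * N - n') / u) ⟨0, hF0⟩
  have hmle : (m : ℝ) ≤ (1 + d) * N := (Finset.mem_filter.mp hm).2
  have hmain := hN₀ N hNN₀ a hprop (a m + ((1 + d) * N - m) / u)
    (fun n' hn' => hmax n' (hFmem n' hn'))
  have ham : 0 ≤ a m := (hprop m (by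
    have := (Finset.mem_filter.mp hm).1
    rw [Finset.mem_range] at this
    omega)).1
  have hτ0 : 0 ≤ a m + ((1 + d) * N - m) / u + d * N := by
    have h1 : 0 ≤ ((1 + d) * N - m) / u := div_nonneg (by linarith) hu0.le
    have h2 : 0 ≤ d * N := by positivity
    linarith
  refine ⟨m, le_trans hmle ?_, ?_⟩
  · apply mul_le_mul_of_nonneg_right _ hNpos.le
    linarith
  · have h1 : T N ε ≤ a m + ((1 + d) * N - m) / u + d * N := by
      rw [hT]
      refine csInf_le ⟨0, fun t ht => ht.1⟩ ⟨hτ0, ?_⟩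
      rw [hD N hN2 _ hτ0]
      exact hmain
    refine le_trans h1 ?_
    have h2 : ((1 + d) * (N : ℝ) - m) / u = ((1 + d) * N - m) * (16 / 3 + d) := by
      rw [hu, div_div_eq_mul_div, div_one]
    rw [h2, ha]
    simp only
    have hm0 : (0 : ℝ) ≤ m := Nat.cast_nonneg m
    have h3 : ((1 + d) * (N : ℝ) - m) * (16 / 3 + d)
        = 16 / 3 * ((N : ℝ) - m) + 16 / 3 * d * N + d * ((1 + d) * N - m) := by ring
    have h4 : d * ((1 + d) * (N : ℝ) - m) ≤ 2 * (d * N) := by
      have h5 : (1 + d) * (N : ℝ) - m ≤ 2 * N := by nlinarith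
      have h6 := mul_le_mul_of_nonneg_left h5 hd0.le
      linarith
    have h7 : 20 * d * N ≤ δ * N := mul_le_mul_of_nonneg_right hdδ hNpos.le
    have h8 : 0 ≤ d * N := by positivity
    rw [h3]
    nlinarith

/-- the mixing time is monotone in the size (`T 0 = T 1 = 0` from `D 0 0 = D 1 0 = 0`) -/
theorem T_mono (D : ℕ → ℝ → ℝ) (hD : ∀ n, 2 ≤ n → ∀ t, 0 ≤ t → D n t = dd n t)
    (h0 : D 0 0 = 0) (h1 : D 1 0 = 0)
    (T : ℕ → ℝ → ℝ) (hT : ∀ n ε, T n ε = sInf {t : ℝ | 0 ≤ t ∧ D n t ≤ ε})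
    (ε : ℝ) (hε : 0 < ε) : Monotone fun n => T n ε := by
  intro n' n hnn
  simp only
  rw [hT, hT]
  by_cases h : n' < 2
  · have hz : sInf {t : ℝ | 0 ≤ t ∧ D n' t ≤ ε} ≤ 0 := by
      refine csInf_le ⟨0, fun t ht => ht.1⟩ ⟨le_rfl, ?_⟩
      interval_cases n'
      · rw [h0]; exact hε.le
      · rw [h1]; exact hε.le
    exact le_trans hz (Real.sInf_nonneg fun t ht => ht.1)
  · have hn2' : 2 ≤ n' := by omega
    have hn2 : 2 ≤ n := le_trans hn2' hnn
    obtain ⟨t₀, ht₀, ht₀'⟩ := exists_dd_le n ε hε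
    refine csInf_le_csInf ⟨0, fun t ht => ht.1⟩ ⟨t₀, ht₀, by rw [hD n hn2 t₀ ht₀]; exact ht₀'⟩ ?_
    rintro t ⟨ht, htD⟩
    refine ⟨ht, ?_⟩
    rw [hD n hn2 t ht] at htD
    rw [hD n' hn2' t ht]
    exact le_trans (dd_mono_level hnn ht) htD

end Pool.Agent.CutSeq
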