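import Mathlib

/-! Row POI: Poisson weights. -/

set_option autoImplicit false

namespace Pool.Agent.CutSeq

open Finset

/-- Poisson weight -/
noncomputable def pois (x : ℝ) (S : ℕ) : ℝ := Real.exp (-x) * x ^ S / (S.factorial : ℝ)

theorem pois_nonneg {x : ℝ} (hx : 0 ≤ x) (S : ℕ) : 0 ≤ pois x S := by
  unfold pois
  positivity

theorem pois_hasSum (x : ℝ) : HasSum (pois x) 1 := by
  have h1 : HasSum (fun n : ℕ => x ^ n / (n.factorial : ℝ)) (Real.exp x) := by
    rw [Real.exp_eq_exp_ℝ]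
    exact NormedSpace.expSeries_div_hasSum_exp x
  have h2 := h1.mul_left (Real.exp (-x))
  rw [← Real.exp_add, neg_add_cancel, Real.exp_zero] at h2
  have h3 : pois x = fun n : ℕ => Real.exp (-x) * (x ^ n / (n.factorial : ℝ)) := by
    funext n
    unfold pois
    rw [mul_div_assoc]
  rw [h3]
  exact h2

theorem pois_succ (x : ℝ) (n : ℕ) : pois x (n + 1) * ((n + 1 : ℕ) : ℝ) = x * pois x n := by
  unfold pois
  rw [Nat.factorial_succ, Nat.cast_mul, pow_succ]
  have h1 : ((n + 1 : ℕ) : ℝ) ≠ 0 := by positivity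
  have h2 : ((n.factorial : ℕ) : ℝ) ≠ 0 := by positivity
  field_simp

/-- the mean -/
theorem pois_mean (x : ℝ) : HasSum (fun L : ℕ => pois x L * (L : ℝ)) x := by
  have h1 : HasSum (fun n : ℕ => pois x (n + 1) * ((n + 1 : ℕ) : ℝ)) x := by
    have h2 := (pois_hasSum x).mul_left x
    rw [mul_one] at h2
    have h3 : (fun n : ℕ => pois x (n + 1) * ((n + 1 : ℕ) : ℝ)) = fun n => x * pois x n := by
      funext n
      exact pois_succ x n
    rw [h3]
    exact h2
  have h4 := (hasSum_nat_add_iff (f := fun L : ℕ => pois x L * (L : ℝ)) 1).mp h1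
  rw [sum_range_one, Nat.cast_zero, mul_zero, add_zero] at h4
  exact h4

/-- the second factorial moment -/
theorem pois_fact2 (x : ℝ) : HasSum (fun L : ℕ => pois x L * ((L : ℝ) * ((L : ℝ) - 1))) (x ^ 2) := by
  have h1 : HasSum (fun n : ℕ => pois x (n + 1) * (((n + 1 : ℕ) : ℝ) * (((n + 1 : ℕ) : ℝ) - 1)))
      (x ^ 2) := by
    have h2 := (pois_mean x).mul_left x
    have h3 : (fun n : ℕ => pois x (n + 1) * (((n + 1 : ℕ) : ℝ) * (((n + 1 : ℕ) : ℝ) - 1))) =
        fun n : ℕ => x * (pois x n * (n : ℝ)) := by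
      funext n
      have h5 := pois_succ x n
      push_cast at h5 ⊢
      linear_combination (n : ℝ) * h5
    rw [h3, pow_two]
    exact h2
  have h4 := (hasSum_nat_add_iff (f := fun L : ℕ => pois x L * ((L : ℝ) * ((L : ℝ) - 1))) 1).mp h1
  rw [sum_range_one, Nat.cast_zero, zero_mul, mul_zero, add_zero] at h4
  exact h4

/-- the variance -/
theorem pois_var (x : ℝ) : HasSum (fun L : ℕ => pois x L * ((L : ℝ) - x) ^ 2) x := by
  have h1 := ((pois_fact2 x).add ((pois_mean x).mul_left (1 - 2 * x))).add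
    ((pois_hasSum x).mul_left (x ^ 2))
  have h2 : x ^ 2 + (1 - 2 * x) * x + x ^ 2 * 1 = x := by ring
  rw [h2] at h1
  have h3 : (fun L : ℕ => pois x L * ((L : ℝ) - x) ^ 2) = fun L : ℕ =>
      pois x L * ((L : ℝ) * ((L : ℝ) - 1)) + (1 - 2 * x) * (pois x L * (L : ℝ)) +
        x ^ 2 * pois x L := by
    funext L
    ring
  rw [h3]
  exact h1

/-- Chebyshev -/
theorem pois_tail {x W : ℝ} (hx : 0 ≤ x) (hW : 0 < W) (s : Finset ℕ)
    (hs : ∀ L ∈ s, W ≤ |(L : ℝ) - x|) : ∑ L ∈ s, pois x L ≤ x / W ^ 2 := by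
  have h1 : ∑ L ∈ s, pois x L * ((L : ℝ) - x) ^ 2 ≤ x :=
    sum_le_hasSum s (fun L _ => mul_nonneg (pois_nonneg hx L) (sq_nonneg _)) (pois_var x)
  have h2 : ∑ L ∈ s, pois x L * W ^ 2 ≤ ∑ L ∈ s, pois x L * ((L : ℝ) - x) ^ 2 := by
    refine sum_le_sum fun L hL => mul_le_mul_of_nonneg_left ?_ (pois_nonneg hx L)
    rw [← sq_abs ((L : ℝ) - x)]
    exact pow_le_pow_left₀ hW.le (hs L hL) 2
  rw [← sum_mul] at h2
  rw [le_div_iff₀ (by positivity)]
  exact h2.trans h1

/-- a bound for the factorial -/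
theorem pois_mode_aux : ∀ S : ℕ, 1 ≤ S → 1 ≤ Real.exp 1 * (S : ℝ) * pois S S := by
  intro S hS
  induction S, hS using Nat.le_induction with
  | base =>
    unfold pois
    rw [Nat.cast_one, pow_one, Nat.factorial_one, Nat.cast_one, div_one, mul_one, mul_one,
      ← Real.exp_add, add_neg_cancel, Real.exp_zero]
  | succ S hS ih =>
    refine ih.trans ?_
    have hS0 : (0 : ℝ) < S := by exact_mod_cast hS
    have h1 : (S : ℝ) * Real.exp (1 / ((S : ℝ) + 1)) ≤ (S : ℝ) + 1 := by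
      have h2 := Real.add_one_le_exp (-(1 / ((S : ℝ) + 1)))
      have h3 : -(1 / ((S : ℝ) + 1)) + 1 = (S : ℝ) / ((S : ℝ) + 1) := by
        field_simp
        ring
      rw [h3, div_le_iff₀ (by positivity)] at h2
      have h4 := mul_le_mul_of_nonneg_right h2 (Real.exp_pos (1 / ((S : ℝ) + 1))).le
      have h5 : Real.exp (-(1 / ((S : ℝ) + 1))) * ((S : ℝ) + 1) * Real.exp (1 / ((S : ℝ) + 1)) =
          (S : ℝ) + 1 := by
        rw [mul_right_comm, ← Real.exp_add, neg_add_cancel, Real.exp_zero, one_mul]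
      rw [h5] at h4
      exact h4
    have h6 : Real.exp 1 * (S : ℝ) ^ (S + 1) ≤ ((S : ℝ) + 1) ^ (S + 1) := by
      have h7 := pow_le_pow_left₀ (by positivity) h1 (S + 1)
      have h8 : Real.exp (1 / ((S : ℝ) + 1)) ^ (S + 1) = Real.exp 1 := by
        rw [← Real.exp_nat_mul]
        congr 1
        push_cast
        field_simp
      rw [mul_pow, h8, mul_comm] at h7
      exact h7
    have e1 : Real.exp 1 * (S : ℝ) * pois S S =
        Real.exp 1 * (S : ℝ) ^ (S + 1) * (Real.exp (-(S : ℝ)) / (S.factorial : ℝ)) := by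
      unfold pois
      ring
    have e2 : Real.exp 1 * ((S + 1 : ℕ) : ℝ) * pois ((S + 1 : ℕ) : ℝ) (S + 1) =
        ((S : ℝ) + 1) ^ (S + 1) * (Real.exp (-(S : ℝ)) / (S.factorial : ℝ)) := by
      unfold pois
      rw [Nat.factorial_succ, Nat.cast_mul]
      push_cast
      have h9 : Real.exp (-(S : ℝ)) = Real.exp 1 * Real.exp (-((S : ℝ) + 1)) := by
        rw [← Real.exp_add]
        congr 1
        ring
      rw [h9]
      have h10 : ((S.factorial : ℕ) : ℝ) ≠ 0 := by positivity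
      field_simp
    rw [e1, e2]
    exact mul_le_mul_of_nonneg_right h6 (by positivity)

/-- the weight of the mode -/
theorem pois_mode (S : ℕ) : 1 / (4 * (S : ℝ) + 4) ≤ pois S S := by
  rcases Nat.eq_zero_or_pos S with rfl | hS
  · unfold pois
    norm_num
  · have h1 := pois_mode_aux S hS
    have hS0 : (0 : ℝ) < S := by exact_mod_cast hS
    have h2 : Real.exp 1 < 4 := by
      have := Real.exp_one_lt_d9
      linarith
    have h3 : 0 ≤ pois S S := pois_nonneg hS0.le S
    rw [div_le_iff₀ (by positivity)]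
    have h4 : Real.exp 1 * (S : ℝ) * pois S S ≤ 4 * (S : ℝ) * pois S S :=
      mul_le_mul_of_nonneg_right (mul_le_mul_of_nonneg_right h2.le hS0.le) h3
    nlinarith

/-- a good value in a window -/
theorem pois_pick {x W q : ℝ} (hx : 0 ≤ x) (hW : 1 ≤ W) (hxW : 8 * x ≤ W ^ 2) (hq : 0 < q)
    (f : ℕ → ℝ) (hf : ∀ L, 0 ≤ f L) (hs : ∀ s : Finset ℕ, ∑ L ∈ s, pois x L * f L ≤ q) :
    ∃ L : ℕ, |(L : ℝ) - x| ≤ W ∧ 1 / (12 * W) ≤ pois x L ∧ f L ≤ 4 * q := by
  classical
  by_contra hcon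
  push Not at hcon
  have hW0 : 0 < W := lt_of_lt_of_le one_pos hW
  let s : Finset ℕ := Finset.Icc ⌈x - W⌉₊ ⌊x + W⌋₊
  have hmem : ∀ L : ℕ, L ∈ s ↔ |(L : ℝ) - x| ≤ W := by
    intro L
    simp only [s, Finset.mem_Icc]
    rw [Nat.ceil_le, Nat.le_floor_iff (by linarith), abs_le]
    constructor
    · rintro ⟨h1, h2⟩
      constructor <;> linarith
    · rintro ⟨h1, h2⟩
      constructor <;> linarith
  have hcard : (s.card : ℝ) ≤ 3 * W := by
    rw [Nat.card_Icc]
    have h1 : ((⌊x + W⌋₊ : ℕ) : ℝ) ≤ x + W := Nat.floor_le (by linarith)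
    have h2 : x - W ≤ ((⌈x - W⌉₊ : ℕ) : ℝ) := Nat.le_ceil _
    rcases le_or_gt ⌈x - W⌉₊ (⌊x + W⌋₊ + 1) with h | h
    · rw [Nat.cast_sub h]
      push_cast
      linarith
    · rw [Nat.sub_eq_zero_of_le h.le]
      push_cast
      linarith
  -- the weight of the window
  have hwt : 1 ≤ ∑ L ∈ s, pois x L + 1 / 8 := by
    refine hasSum_le_of_sum_le (pois_hasSum x) fun t => ?_
    rw [← Finset.sum_filter_add_sum_filter_not t (fun L => L ∈ s)]
    refine add_le_add ?_ ?_
    · refine Finset.sum_le_sum_of_subset_of_nonneg ?_ fun L _ _ => pois_nonneg hx L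
      intro L hL
      exact (Finset.mem_filter.mp hL).2
    · have h1 := pois_tail hx hW0 (t.filter fun L => L ∉ s) (fun L hL => by
        have h2 := (Finset.mem_filter.mp hL).2
        rw [hmem] at h2
        exact (not_le.mp h2).le)
      refine h1.trans ?_
      rw [div_le_iff₀ (by positivity)]
      linarith
  -- the two bad parts
  have h1 : ∑ L ∈ s.filter (fun L => pois x L < 1 / (12 * W)), pois x L ≤ 1 / 4 := by
    have h2 : ∑ L ∈ s.filter (fun L => pois x L < 1 / (12 * W)), pois x L ≤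
        ∑ L ∈ s.filter (fun L => pois x L < 1 / (12 * W)), 1 / (12 * W) :=
      Finset.sum_le_sum fun L hL => (Finset.mem_filter.mp hL).2.le
    refine h2.trans ?_
    rw [Finset.sum_const, nsmul_eq_mul]
    have h3 : ((s.filter (fun L => pois x L < 1 / (12 * W))).card : ℝ) ≤ 3 * W := by
      refine le_trans ?_ hcard
      exact_mod_cast Finset.card_filter_le _ _
    calc ((s.filter (fun L => pois x L < 1 / (12 * W))).card : ℝ) * (1 / (12 * W))
        ≤ 3 * W * (1 / (12 * W)) := mul_le_mul_of_nonneg_right h3 (by positivity)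
      _ = 1 / 4 := by field_simp; norm_num
  have h2 : ∑ L ∈ s.filter (fun L => ¬ pois x L < 1 / (12 * W)), pois x L ≤ 1 / 4 := by
    have h3 : ∑ L ∈ s.filter (fun L => ¬ pois x L < 1 / (12 * W)), pois x L * (4 * q) ≤
        ∑ L ∈ s.filter (fun L => ¬ pois x L < 1 / (12 * W)), pois x L * f L := by
      refine Finset.sum_le_sum fun L hL => mul_le_mul_of_nonneg_left ?_ (pois_nonneg hx L)
      obtain ⟨h4, h5⟩ := Finset.mem_filter.mp hL
      exact (hcon L ((hmem L).mp h4) (not_lt.mp h5)).le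
    have h4 := h3.trans (hs _)
    rw [← Finset.sum_mul] at h4
    by_contra h5
    rw [not_le] at h5
    nlinarith
  have h3 := Finset.sum_filter_add_sum_filter_not s (fun L => pois x L < 1 / (12 * W)) (pois x)
  linarith

end Pool.Agent.CutSeq
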