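import Pool.Agent.CutSeq.Defs
import Pool.Agent.UTM.MatHeat

/-! Target (A): soft concentration of the density before mixing.  Definitions of the continuous
time law in triangular coordinates. -/

set_option autoImplicit false

namespace Pool.Agent.CutSeq

open Finset

/-- law at time `t` of the walk started at the identity, in triangular coordinates -/
noncomputable def ct (n : ℕ) (t : ℝ) (x : Un n) : ℝ :=
  Pool.Agent.UTM.Es.heat (Pool.Agent.UTM.Es.LM n) t
    (fun A : Pool.Agent.UTM.Mat n => if A = toMat n x then (1 : ℝ) else 0) 1

/-- total variation distance to the uniform law -/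
noncomputable def dd (n : ℕ) (t : ℝ) : ℝ :=
  1 / 2 * ∑ x : Un n, |ct n t x - 1 / (Fintype.card (Un n) : ℝ)|

end Pool.Agent.CutSeq
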