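import Pool.Agent.CutSeq.Mod
import Pool.Agent.CutSeq.Poi
import Pool.Agent.CutSeq.Soft

/-! Row BRG: from the letter model to continuous time and to matrices. -/

set_option autoImplicit false

namespace Pool.Agent.CutSeq

open Finset Pool.Agent.UTM Pool.Agent.UTM.Es

theorem Brg.z2 (a : ZMod 2) : a = 0 ∨ a = 1 := by
  revert a
  decide

/-- entries of an array with natural indices -/
def Brg.en {n : ℕ} (x : Un n) (k j : ℕ) : ZMod 2 :=
  if h : k < n then (if h' : j < k then x ⟨k, h⟩ ⟨j, h'⟩ else 0) else 0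

theorem Brg.en_eq {n : ℕ} (x : Un n) (k : Fin n) (j : Fin k.val) : x k j = Brg.en x k.val j.val := by
  unfold Brg.en
  rw [dif_pos k.isLt, dif_pos j.isLt]

theorem Brg.en_mk {n : ℕ} (x : Un n) (k j : ℕ) (h : k < n) (h' : j < k) :
    Brg.en x k j = x ⟨k, h⟩ ⟨j, h'⟩ := by
  unfold Brg.en
  rw [dif_pos h, dif_pos h']

theorem Brg.en_ext {n : ℕ} {x y : Un n} (h : ∀ k j, j < k → k < n → Brg.en x k j = Brg.en y k j) :
    x = y := by
  funext k j
  rw [Brg.en_eq x k j, Brg.en_eq y k j]
  exact h _ _ j.isLt k.isLt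

theorem Brg.toMat_apply {n : ℕ} (x : Un n) (i j : Fin n) :
    toMat n x i j = if i.val < j.val then Brg.en x (n - 1 - i.val) (n - 1 - j.val)
      else if i = j then 1 else 0 := by
  unfold toMat
  by_cases h : i.val < j.val
  · rw [dif_pos h, if_pos h, Brg.en_mk]
  · rw [dif_neg h, if_neg h]

theorem toMat_zero (n : ℕ) : toMat n 0 = 1 := by
  ext i j
  rw [Brg.toMat_apply, Matrix.one_apply]
  by_cases h : i.val < j.val
  · rw [if_pos h, if_neg (fun e => by rw [e] at h; exact lt_irrefl _ h)]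
    unfold Brg.en
    split_ifs <;> rfl
  · rw [if_neg h]

theorem Brg.en_toMat {n : ℕ} (x : Un n) (k j : ℕ) (h : k < n) (h' : j < k) :
    Brg.en x k j = toMat n x ⟨n - 1 - k, by omega⟩ ⟨n - 1 - j, by omega⟩ := by
  rw [Brg.toMat_apply, if_pos (by simp only; omega)]
  simp only
  congr 1 <;> omega

theorem toMat_injective (n : ℕ) : Function.Injective (toMat n) := by
  intro x y h
  apply Brg.en_ext
  intro k j h' hk
  rw [Brg.en_toMat x k j hk h', Brg.en_toMat y k j hk h', h]

/-- the image of `toMat` is the set of upper unitriangular matrices -/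
theorem mem_range_toMat (n : ℕ) (A : Mat n) :
    A ∈ Set.range (toMat n) ↔ (∀ a : Fin n, A a a = 1) ∧ (∀ a b : Fin n, b < a → A a b = 0) := by
  constructor
  · rintro ⟨x, rfl⟩
    refine ⟨fun a => ?_, fun a b hab => ?_⟩
    · rw [Brg.toMat_apply, if_neg (lt_irrefl _), if_pos rfl]
    · rw [Brg.toMat_apply, if_neg (by simpa using hab.le), if_neg hab.ne']
  · rintro ⟨h1, h2⟩
    refine ⟨fun k j => A ⟨n - 1 - k.val, by have := k.isLt; omega⟩
      ⟨n - 1 - j.val, by have := k.isLt; have := j.isLt; omega⟩, ?_⟩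
    ext i j
    rw [Brg.toMat_apply]
    by_cases h : i.val < j.val
    · have hi := i.isLt
      have hj := j.isLt
      rw [if_pos h, Brg.en_mk _ _ _ (by omega) (by omega)]
      congr 1
      · apply Fin.ext; simp only; omega
      · apply Fin.ext; simp only; omega
    · rw [if_neg h]
      by_cases h' : i = j
      · rw [if_pos h', h', h1]
      · rw [if_neg h', h2]
        have : i.val ≠ j.val := fun e => h' (Fin.ext e)
        exact Fin.lt_def.mpr (by omega)

theorem card_Un (n : ℕ) : Fintype.card (Un n) = 2 ^ (n * (n - 1) / 2) := by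
  rw [Fintype.card_pi]
  have h1 : ∀ k : Fin n, Fintype.card (V k.val) = 2 ^ k.val := by
    intro k
    rw [Fintype.card_fun, ZMod.card, Fintype.card_fin]
  rw [Finset.prod_congr rfl fun k _ => h1 k, Finset.prod_pow_eq_pow_sum,
    Fin.sum_univ_eq_sum_range (fun k => k) n, Finset.sum_range_id]

/-- the array of the product -/
theorem Brg.en_mulU {n : ℕ} (x y : Un n) (k j : ℕ) (h : k < n) (h' : j < k) :
    Brg.en (mulU x y) k j = Brg.en x k j + Brg.en y k j
      + ∑ i ∈ range k, if j < i then Brg.en x k i * Brg.en y i j else 0 := by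
  rw [Brg.en_mk _ k j h h']
  unfold mulU
  rw [Brg.en_mk x k j h h', Brg.en_mk y k j h h']
  congr 1
  rw [← Fin.sum_univ_eq_sum_range (fun i => if j < i then Brg.en x k i * Brg.en y i j else 0) k]
  apply Finset.sum_congr rfl
  intro i _
  by_cases hji : j < i.val
  · rw [dif_pos hji, if_pos hji, Brg.en_mk x k i.val h i.isLt, Brg.en_mk y i.val j _ hji]
  · rw [dif_neg hji, if_neg hji]

/-- the elementary array -/
def Brg.el (n b : ℕ) : Un n := fun k j => if k.val = b + 1 ∧ j.val = b then 1 else 0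

theorem Brg.en_el (n b k j : ℕ) (h : k < n) (h' : j < k) :
    Brg.en (Brg.el n b) k j = if k = b + 1 ∧ j = b then 1 else 0 := by
  rw [Brg.en_mk _ k j h h']
  rfl

/-- row operation on arrays: row of level `b + 1` += row of level `b` -/
def Brg.ro {n : ℕ} (b : ℕ) (x : Un n) : Un n := mulU (Brg.el n b) x

theorem Brg.en_ro {n : ℕ} (b : ℕ) (x : Un n) (k j : ℕ) (h : k < n) (h' : j < k) :
    Brg.en (Brg.ro b x) k j = Brg.en x k j
      + if k = b + 1 then (if j = b then 1 else Brg.en x b j) else 0 := by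
  unfold Brg.ro
  rw [Brg.en_mulU _ _ k j h h', Brg.en_el n b k j h h']
  by_cases hk : k = b + 1
  · subst hk
    rw [if_pos rfl]
    have h1 : ∑ i ∈ range (b + 1), (if j < i then Brg.en (Brg.el n b) (b + 1) i * Brg.en x i j else 0)
        = if j < b then Brg.en x b j else 0 := by
      rw [Finset.sum_range_succ, Finset.sum_eq_zero, zero_add]
      · rw [Brg.en_el n b _ b h (by omega), if_pos (show b + 1 = b + 1 ∧ b = b from ⟨rfl, rfl⟩),
          one_mul]
      · intro i hi
        rw [mem_range] at hi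
        rw [Brg.en_el n b _ i h (by omega), if_neg (show ¬(b + 1 = b + 1 ∧ i = b) by omega), zero_mul,
          ite_self]
    rw [h1]
    by_cases hj : j = b
    · rw [if_pos ⟨rfl, hj⟩, if_pos hj, if_neg (by omega)]
      ring
    · rw [if_neg (fun e => hj e.2), if_neg hj, if_pos (by omega)]
      ring
  · rw [if_neg (fun e => hk e.1), if_neg hk, Finset.sum_eq_zero]
    · ring
    · intro i hi
      rw [mem_range] at hi
      rw [Brg.en_el n b _ i h (by omega), if_neg (show ¬(k = b + 1 ∧ i = b) from fun e => hk e.1),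
        zero_mul, ite_self]

theorem Brg.ro_ge {n : ℕ} (b : ℕ) (x : Un n) (h : n ≤ b + 1) : Brg.ro b x = x := by
  apply Brg.en_ext
  intro k j h1 h2
  rw [Brg.en_ro b x k j h2 h1, if_neg (by omega), add_zero]

theorem Brg.ro_ro {n : ℕ} (b : ℕ) (x : Un n) : Brg.ro b (Brg.ro b x) = x := by
  apply Brg.en_ext
  intro k j h1 h2
  rw [Brg.en_ro b _ k j h2 h1, Brg.en_ro b x k j h2 h1]
  by_cases hk : k = b + 1
  · rw [if_pos hk, if_pos hk]
    by_cases hj : j = b
    · rw [if_pos hj, if_pos hj, add_assoc, CharTwo.add_self_eq_zero, add_zero]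
    · rw [if_neg hj, if_neg hj, Brg.en_ro b x b j (by omega) (by omega), if_neg (by omega), add_zero,
        add_assoc, CharTwo.add_self_eq_zero, add_zero]
  · rw [if_neg hk, if_neg hk, add_zero, add_zero]

theorem Brg.rop_toMat {n : ℕ} (l : ℕ) (hl : l + 1 < n) (x : Un n) :
    rop l (toMat n x) = toMat n (Brg.ro (n - 2 - l) x) := by
  ext i j
  have hi := i.isLt
  have hj := j.isLt
  unfold rop
  rw [dif_pos hl]
  by_cases hil : i = ⟨l, by omega⟩
  · rw [hil, Matrix.updateRow_self, Pi.add_apply, Brg.toMat_apply, Brg.toMat_apply, Brg.toMat_apply]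
    simp only
    by_cases h1 : l < j.val
    · rw [if_pos h1, if_pos h1, Brg.en_ro _ _ _ _ (by omega) (by omega),
        if_pos (show n - 1 - l = n - 2 - l + 1 by omega)]
      congr 1
      by_cases h2 : l + 1 < j.val
      · rw [if_pos h2, if_neg (show ¬(n - 1 - j.val = n - 2 - l) by omega)]
        congr 1
        omega
      · rw [if_neg h2, if_pos (show (⟨l + 1, hl⟩ : Fin n) = j from Fin.ext (by simp only; omega)),
          if_pos (show n - 1 - j.val = n - 2 - l by omega)]
    · have h4 : ¬((⟨l + 1, hl⟩ : Fin n) = j) := by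
        intro e
        have := congrArg Fin.val e
        simp only at this
        omega
      rw [if_neg h1, if_neg h1, if_neg (show ¬(l + 1 < j.val) by omega), if_neg h4, add_zero]
  · rw [Matrix.updateRow_ne hil, Brg.toMat_apply, Brg.toMat_apply]
    by_cases h1 : i.val < j.val
    · have h3 : i.val ≠ l := fun e => hil (Fin.ext e)
      rw [if_pos h1, if_pos h1, Brg.en_ro _ _ _ _ (by omega) (by omega), if_neg (by omega), add_zero]
    · rw [if_neg h1, if_neg h1]

/-! #### the semigroup on arrays -/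

/-- averaging over the coin of the bond `b` -/
noncomputable def Brg.EU (n b : ℕ) : Opr (Un n) := (1 / 2 : ℝ) • (1 + pull (Brg.ro b))

theorem Brg.EU_apply (n b : ℕ) (f : Un n → ℝ) (x : Un n) :
    Brg.EU n b f x = 1 / 2 * (f x + f (Brg.ro b x)) := rfl

/-- the generator in triangular coordinates -/
noncomputable def Brg.LU (n : ℕ) : Opr (Un n) := ∑ b ∈ range (n - 1), (Brg.EU n b - 1)

theorem Brg.LU_apply (n : ℕ) (f : Un n → ℝ) (x : Un n) :
    Brg.LU n f x = ∑ b ∈ range (n - 1), 1 / 2 * (f (Brg.ro b x) - f x) := by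
  unfold Brg.LU
  rw [opr_sum_apply]
  apply Finset.sum_congr rfl
  intro b _
  change Brg.EU n b f x - f x = _
  rw [Brg.EU_apply]
  ring

theorem Brg.LU_one (n : ℕ) : Brg.LU n (fun _ => 1) = 0 := by
  funext x
  rw [Brg.LU_apply]
  simp

theorem Brg.intertwine (n : ℕ) (f : Mat n → ℝ) :
    Brg.LU n (pull (toMat n) f) = pull (toMat n) (LM n f) := by
  funext x
  have h0 : pull (toMat n) (LM n f) x = LM n f (toMat n x) := rfl
  rw [Brg.LU_apply, h0, LM_apply, ← Finset.sum_range_reflect]
  apply Finset.sum_congr rfl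
  intro l hl
  rw [mem_range] at hl
  rw [pull_apply, pull_apply, Brg.rop_toMat l (by omega), show n - 1 - 1 - l = n - 2 - l by omega]

/-- indicator of a point -/
def Brg.dl {n : ℕ} (x : Un n) : Un n → ℝ := fun z => if z = x then 1 else 0

theorem Brg.pull_dl {n : ℕ} (x : Un n) :
    pull (toMat n) (fun A : Mat n => if A = toMat n x then (1 : ℝ) else 0) = Brg.dl x := by
  funext z
  rw [pull_apply]
  unfold Brg.dl
  by_cases h : z = x
  · rw [if_pos h, if_pos (by rw [h])]
  · rw [if_neg h, if_neg (fun e => h (toMat_injective n e))]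

/-- transition kernel in continuous time, in triangular coordinates -/
noncomputable def tr (n : ℕ) (t : ℝ) (y x : Un n) : ℝ :=
  heat (LM n) t (fun A : Mat n => if A = toMat n x then (1 : ℝ) else 0) (toMat n y)

theorem Brg.tr_eq (n : ℕ) (t : ℝ) (y x : Un n) : tr n t y x = heat (Brg.LU n) t (Brg.dl x) y := by
  have h := heat_intertwine (LM n) (Brg.LU n) (pull (toMat n)) (Brg.intertwine n) t
    (fun A : Mat n => if A = toMat n x then (1 : ℝ) else 0)
  rw [Brg.pull_dl] at h
  rw [h]
  rfl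

theorem ct_eq_tr (n : ℕ) (t : ℝ) (x : Un n) : ct n t x = tr n t 0 x := by
  unfold ct tr
  rw [toMat_zero]

theorem tr_nonneg (n : ℕ) {t : ℝ} (ht : 0 ≤ t) (y x : Un n) : 0 ≤ tr n t y x := by
  unfold tr
  apply heat_nonneg (LM_pos n) ht
  intro A
  split_ifs <;> norm_num

/-- expansion of the semigroup in the kernel -/
theorem Brg.expand (n : ℕ) (t : ℝ) (f : Un n → ℝ) (y : Un n) :
    heat (Brg.LU n) t f y = ∑ x, tr n t y x * f x := by
  have h1 : f = ∑ x, f x • Brg.dl x := by
    funext z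
    rw [Finset.sum_apply, Finset.sum_eq_single z]
    · rw [Pi.smul_apply]
      unfold Brg.dl
      rw [if_pos rfl, smul_eq_mul, mul_one]
    · intro b _ hb
      rw [Pi.smul_apply]
      unfold Brg.dl
      rw [if_neg hb.symm, smul_eq_mul, mul_zero]
    · intro h
      exact absurd (mem_univ _) h
  conv_lhs => rw [h1]
  rw [map_sum, Finset.sum_apply]
  apply Finset.sum_congr rfl
  intro x _
  rw [map_smul, Pi.smul_apply, smul_eq_mul, Brg.tr_eq, mul_comm]

theorem tr_sum (n : ℕ) (t : ℝ) (y : Un n) : ∑ x, tr n t y x = 1 := by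
  have h := Brg.expand n t (fun _ => 1) y
  rw [heat_const (Brg.LU_one n)] at h
  simp only [mul_one] at h
  exact h.symm

theorem Brg.sum_ro {n : ℕ} (b : ℕ) (f : Un n → ℝ) : ∑ z, f (Brg.ro b z) = ∑ z, f z :=
  Equiv.sum_comp (⟨Brg.ro b, Brg.ro b, Brg.ro_ro b, Brg.ro_ro b⟩ : Un n ≃ Un n) f

theorem Brg.LU_symm (n : ℕ) (f g : Un n → ℝ) :
    ∑ z, f z * Brg.LU n g z = ∑ z, Brg.LU n f z * g z := by
  have h1 : ∀ f g : Un n → ℝ, ∑ z, f z * Brg.LU n g z
      = ∑ b ∈ range (n - 1), 1 / 2 * (∑ z, f z * g (Brg.ro b z) - ∑ z, f z * g z) := by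
    intro f g
    have h2 : ∀ z, f z * Brg.LU n g z
        = ∑ b ∈ range (n - 1), 1 / 2 * (f z * g (Brg.ro b z) - f z * g z) := by
      intro z
      rw [Brg.LU_apply, Finset.mul_sum]
      apply Finset.sum_congr rfl
      intro b _
      ring
    rw [Finset.sum_congr rfl fun z _ => h2 z, Finset.sum_comm]
    apply Finset.sum_congr rfl
    intro b _
    rw [← Finset.mul_sum, Finset.sum_sub_distrib]
  have h3 : ∑ z, Brg.LU n f z * g z = ∑ z, g z * Brg.LU n f z :=
    Finset.sum_congr rfl fun z _ => mul_comm _ _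
  rw [h3, h1, h1]
  apply Finset.sum_congr rfl
  intro b _
  congr 2
  · rw [← Brg.sum_ro b (fun z => g z * f (Brg.ro b z))]
    apply Finset.sum_congr rfl
    intro z _
    rw [Brg.ro_ro, mul_comm]
  · exact Finset.sum_congr rfl fun z _ => mul_comm _ _

theorem Brg.heat_symm {Ω : Type} [Fintype Ω] (L : Opr Ω)
    (hL : ∀ f g : Ω → ℝ, ∑ z, f z * L g z = ∑ z, L f z * g z) (t : ℝ) (f g : Ω → ℝ) :
    ∑ z, f z * heat L t g z = ∑ z, heat L t f z * g z := by
  have h1 : ∀ (k : ℕ) (f g : Ω → ℝ), ∑ z, f z * (L ^ k) g z = ∑ z, (L ^ k) f z * g z := by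
    intro k
    induction k with
    | zero => intro f g; rfl
    | succ k ih =>
        intro f g
        have e1 : (L ^ (k + 1)) g = (L ^ k) (L g) := by
          rw [pow_succ]
          rfl
        have e2 : (L ^ (k + 1)) f = L ((L ^ k) f) := by
          rw [pow_succ']
          rfl
        rw [e1, e2, ih, hL]
  have h2 := fun z => (Pi.hasSum.mp (hasSum_heat L t g) z).mul_left (f z)
  have h3 := fun z => (Pi.hasSum.mp (hasSum_heat L t f) z).mul_right (g z)
  have h4 := hasSum_sum (s := univ) fun z _ => h2 z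
  have h5 := hasSum_sum (s := univ) fun z _ => h3 z
  refine h4.unique (h5.congr_fun ?_ |> fun h' => h')
  intro k
  have e1 : ∀ z, ((t ^ k / (k.factorial : ℝ)) • (L ^ k) f) z * g z
      = (t ^ k / (k.factorial : ℝ)) * ((L ^ k) f z * g z) := by
    intro z
    rw [Pi.smul_apply, smul_eq_mul, mul_assoc]
  have e2 : ∀ z, f z * ((t ^ k / (k.factorial : ℝ)) • (L ^ k) g) z
      = (t ^ k / (k.factorial : ℝ)) * (f z * (L ^ k) g z) := by
    intro z
    rw [Pi.smul_apply, smul_eq_mul]
    ring
  rw [Finset.sum_congr rfl fun z _ => e1 z, Finset.sum_congr rfl fun z _ => e2 z,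
    ← Finset.mul_sum, ← Finset.mul_sum, h1]

theorem tr_symm (n : ℕ) (t : ℝ) (y x : Un n) : tr n t y x = tr n t x y := by
  have h1 : ∀ (a : Un n) (f : Un n → ℝ), ∑ z, Brg.dl a z * f z = f a := by
    intro a f
    rw [Finset.sum_eq_single a]
    · unfold Brg.dl
      rw [if_pos rfl, one_mul]
    · intro b _ hb
      unfold Brg.dl
      rw [if_neg hb, zero_mul]
    · intro h
      exact absurd (mem_univ _) h
  rw [Brg.tr_eq, Brg.tr_eq, ← h1 y (heat (Brg.LU n) t (Brg.dl x)),
    ← h1 x (heat (Brg.LU n) t (Brg.dl y)), Brg.heat_symm _ (Brg.LU_symm n)]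
  exact Finset.sum_congr rfl fun z _ => mul_comm _ _

theorem tr_add (n : ℕ) (t s : ℝ) (y x : Un n) :
    tr n (t + s) y x = ∑ z, tr n t y z * tr n s z x := by
  rw [Brg.tr_eq, heat_add, Brg.expand]
  exact Finset.sum_congr rfl fun z _ => by rw [Brg.tr_eq n s]

theorem ct_add (n : ℕ) (t s : ℝ) (x : Un n) : ct n (t + s) x = ∑ z, ct n t z * tr n s z x := by
  rw [ct_eq_tr, tr_add]
  exact Finset.sum_congr rfl fun z _ => by rw [ct_eq_tr]

theorem dd_antitone (n : ℕ) {t t' : ℝ} (ht : 0 ≤ t) (h : t ≤ t') : dd n t' ≤ dd n t := by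
  have _ := ht
  obtain ⟨s, hs, rfl⟩ : ∃ s, 0 ≤ s ∧ t' = t + s := ⟨t' - t, by linarith, by ring⟩
  unfold dd
  apply mul_le_mul_of_nonneg_left _ (by norm_num)
  have h0 : ∀ x : Un n, ∑ z, tr n s z x = 1 := by
    intro x
    rw [← tr_sum n s x]
    exact Finset.sum_congr rfl fun z _ => tr_symm n s z x
  have h1 : ∀ x : Un n, ct n (t + s) x - 1 / (Fintype.card (Un n) : ℝ)
      = ∑ z, (ct n t z - 1 / (Fintype.card (Un n) : ℝ)) * tr n s z x := by
    intro x
    have e : ∀ z : Un n, (ct n t z - 1 / (Fintype.card (Un n) : ℝ)) * tr n s z x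
        = ct n t z * tr n s z x - 1 / (Fintype.card (Un n) : ℝ) * tr n s z x := fun z => by ring
    rw [Finset.sum_congr rfl fun z _ => e z, Finset.sum_sub_distrib, ← ct_add, ← Finset.mul_sum, h0,
      mul_one]
  calc ∑ x : Un n, |ct n (t + s) x - 1 / (Fintype.card (Un n) : ℝ)|
      ≤ ∑ x : Un n, ∑ z, |ct n t z - 1 / (Fintype.card (Un n) : ℝ)| * tr n s z x := by
        apply Finset.sum_le_sum
        intro x _
        rw [h1]
        refine (Finset.abs_sum_le_sum_abs _ _).trans (Finset.sum_le_sum fun z _ => ?_)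
        rw [abs_mul, abs_of_nonneg (tr_nonneg n hs z x)]
    _ = ∑ z : Un n, |ct n t z - 1 / (Fintype.card (Un n) : ℝ)| := by
        rw [Finset.sum_comm]
        apply Finset.sum_congr rfl
        intro z _
        rw [← Finset.mul_sum, tr_sum, mul_one]

/-! #### words -/

/-- law of the array of `n` levels after `L` letters -/
noncomputable def lw (B L n : ℕ) (x : Un n) : ℝ := mass (uw B L) (fun ω => mm (ext ω) L n) x

theorem Brg.mass_eq {Ω A : Type*} [Fintype Ω] [DecidableEq A] (w : Ω → ℝ) (X : Ω → A) (a : A) :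
    mass w X a = ∑ ω, if X ω = a then w ω else 0 := by
  unfold mass
  exact Finset.sum_congr rfl fun ω _ => by congr

theorem Brg.sum_mass_mul {Ω A : Type*} [Fintype Ω] [Fintype A] [DecidableEq A] (w : Ω → ℝ)
    (X : Ω → A) (F : A → ℝ) : ∑ a, mass w X a * F a = ∑ ω, w ω * F (X ω) := by
  have h1 : ∀ a, mass w X a * F a = ∑ ω, if X ω = a then w ω * F (X ω) else 0 := by
    intro a
    rw [Brg.mass_eq, Finset.sum_mul]
    apply Finset.sum_congr rfl
    intro ω _
    by_cases h : X ω = a
    · rw [if_pos h, if_pos h, h]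
    · rw [if_neg h, if_neg h, zero_mul]
  rw [Finset.sum_congr rfl fun a _ => h1 a, Finset.sum_comm]
  apply Finset.sum_congr rfl
  intro ω _
  rw [Finset.sum_ite_eq]
  simp

theorem Brg.sum_mass {Ω A : Type*} [Fintype Ω] [Fintype A] [DecidableEq A] (w : Ω → ℝ)
    (X : Ω → A) : ∑ a, mass w X a = tot w := by
  have h := Brg.sum_mass_mul w X (fun _ => 1)
  simp only [mul_one] at h
  exact h

theorem Brg.card_Wd (B L : ℕ) : Fintype.card (Wd B L) = (B * 2) ^ L := by
  rw [Fintype.card_fun, Fintype.card_prod, ZMod.card, Fintype.card_fin, Fintype.card_fin]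

theorem Brg.uw_eq (B L : ℕ) (ω : Wd B L) : uw B L ω = 1 / ((B : ℝ) * 2) ^ L := by
  unfold uw
  rw [Brg.card_Wd]
  push_cast
  rfl

theorem Brg.tot_uw (B L : ℕ) (hB : 0 < B) : tot (uw B L) = 1 := by
  unfold tot
  rw [Finset.sum_congr rfl fun ω _ => Brg.uw_eq B L ω, Finset.sum_const, card_univ, Brg.card_Wd,
    nsmul_eq_mul]
  push_cast
  have : (0 : ℝ) < B := by exact_mod_cast hB
  field_simp

theorem lw_sum (B L n : ℕ) (hB : 0 < B) : ∑ x, lw B L n x = 1 := by
  unfold lw
  rw [Brg.sum_mass, Brg.tot_uw B L hB]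

theorem Brg.ext_left {B m k : ℕ} (a : Wd B m) (b : Wd B k) (i : ℕ) (hi : i < m) :
    ext (Fin.append a b : Wd B (m + k)) i = ext a i := by
  unfold ext
  rw [dif_pos (show i < m + k by omega), dif_pos hi]
  have h : (⟨i, by omega⟩ : Fin (m + k)) = Fin.castAdd k ⟨i, hi⟩ := rfl
  rw [h, Fin.append_left]

theorem Brg.ext_right {B m k : ℕ} (a : Wd B m) (b : Wd B k) (i : ℕ) :
    ext (Fin.append a b : Wd B (m + k)) (m + i) = ext b i := by
  unfold ext
  by_cases hi : i < k
  · rw [dif_pos (show m + i < m + k by omega), dif_pos hi]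
    have h : (⟨m + i, by omega⟩ : Fin (m + k)) = Fin.natAdd m ⟨i, hi⟩ := rfl
    rw [h, Fin.append_right]
  · rw [dif_neg (show ¬ m + i < m + k by omega), dif_neg hi]

theorem Brg.Mst_congr (l : ℕ) : ∀ {α β : Seq}, (∀ i < l, α i = β i) → Mst α l = Mst β l := by
  induction l with
  | zero => intro α β _; rfl
  | succ l ih =>
      intro α β h
      have h1 := ih fun i hi => h i (by omega)
      funext k j
      simp only [Mst]
      rw [h1, h l (by omega)]

theorem Brg.mm_congr {l n : ℕ} {α β : Seq} (h : ∀ i < l, α i = β i) : mm α l n = mm β l n := by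
  funext k j
  change Mst α l k.val j.val = Mst β l k.val j.val
  rw [Brg.Mst_congr l h]

theorem Brg.sum_append {B m k : ℕ} (F : Wd B (m + k) → ℝ) :
    ∑ ω, F ω = ∑ a : Wd B m, ∑ b : Wd B k, F (Fin.append a b : Wd B (m + k)) := by
  rw [← Fintype.sum_prod_type' (fun (a : Wd B m) (b : Wd B k) => F (Fin.append a b : Wd B (m + k)))]
  exact ((Fin.appendEquiv m k).sum_comp F).symm

/-- the letters after `l` act on the array by multiplication from the left, independently of the
past -/
theorem mass_past {B L n l j : ℕ} (hlj : l + j ≤ L) (G : Set (Wd B L)) (hG : Past l G)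
    (x : Un n) :
    mass (ind G (uw B L)) (fun ω => mm (ext ω) (l + j) n) x
      = ∑ g : Un n, ∑ y : Un n, if mulU g y = x then
          lw B j n g * mass (ind G (uw B L)) (fun ω => mm (ext ω) l n) y else 0 := by
  classical
  obtain ⟨r, rfl⟩ := Nat.exists_eq_add_of_le hlj
  have hr : ∑ g : Un n, ∑ y : Un n, (if mulU g y = x then
          lw B j n g * mass (ind G (uw B (l + j + r))) (fun ω => mm (ext ω) l n) y else 0)
      = ∑ b' : Wd B j, uw B j b' * ∑ ω : Wd B (l + j + r), ind G (uw B (l + j + r)) ω *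
          (if mulU (mm (ext b') j n) (mm (ext ω) l n) = x then 1 else 0) := by
    have h1 : ∀ g : Un n, ∑ y : Un n, (if mulU g y = x then
          lw B j n g * mass (ind G (uw B (l + j + r))) (fun ω => mm (ext ω) l n) y else 0)
        = lw B j n g * ∑ y : Un n, mass (ind G (uw B (l + j + r))) (fun ω => mm (ext ω) l n) y *
            (if mulU g y = x then 1 else 0) := by
      intro g
      rw [Finset.mul_sum]
      apply Finset.sum_congr rfl
      intro y _
      split_ifs <;> ring
    rw [Finset.sum_congr rfl fun g _ => h1 g]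
    have h2 : ∀ g : Un n, lw B j n g * ∑ y : Un n, mass (ind G (uw B (l + j + r)))
          (fun ω => mm (ext ω) l n) y * (if mulU g y = x then 1 else 0)
        = lw B j n g * ∑ ω : Wd B (l + j + r), ind G (uw B (l + j + r)) ω *
          (if mulU g (mm (ext ω) l n) = x then 1 else 0) := by
      intro g
      rw [Brg.sum_mass_mul _ (fun ω => mm (ext ω) l n) (fun y => if mulU g y = x then (1 : ℝ) else 0)]
    rw [Finset.sum_congr rfl fun g _ => h2 g]
    unfold lw
    exact Brg.sum_mass_mul _ (fun ω => mm (ext ω) j n) (fun g => ∑ ω : Wd B (l + j + r),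
      ind G (uw B (l + j + r)) ω * (if mulU g (mm (ext ω) l n) = x then 1 else 0))
  rw [hr, Brg.mass_eq, Brg.sum_append (B := B) (m := l + j) (k := r)]
  have hmm : ∀ (a : Wd B l) (b : Wd B j) (c : Wd B r),
      mm (ext (Fin.append (Fin.append a b : Wd B (l + j)) c : Wd B (l + j + r))) (l + j) n
        = mulU (mm (ext b) j n) (mm (ext a) l n) := by
    intro a b c
    rw [Brg.mm_congr fun i hi => Brg.ext_left _ c i hi, mm_add]
    congr 1
    · apply Brg.mm_congr
      intro i _
      unfold shift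
      exact Brg.ext_right a b i
    · exact Brg.mm_congr fun i hi => Brg.ext_left a b i hi
  have hml : ∀ (a : Wd B l) (b : Wd B j) (c : Wd B r),
      mm (ext (Fin.append (Fin.append a b : Wd B (l + j)) c : Wd B (l + j + r))) l n
        = mm (ext a) l n := by
    intro a b c
    rw [Brg.mm_congr fun i hi => Brg.ext_left _ c i (by omega)]
    exact Brg.mm_congr fun i hi => Brg.ext_left a b i hi
  have hind : ∀ (a : Wd B l) (b b' : Wd B j) (c : Wd B r),
      ind G (uw B (l + j + r)) (Fin.append (Fin.append a b : Wd B (l + j)) c : Wd B (l + j + r))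
        = ind G (uw B (l + j + r))
          (Fin.append (Fin.append a b' : Wd B (l + j)) c : Wd B (l + j + r)) := by
    intro a b b' c
    have h := hG (Fin.append (Fin.append a b : Wd B (l + j)) c : Wd B (l + j + r))
      (Fin.append (Fin.append a b' : Wd B (l + j)) c : Wd B (l + j + r)) (by
        intro i hi
        rw [Brg.ext_left _ c i (by omega), Brg.ext_left _ c i (by omega), Brg.ext_left a b i hi,
          Brg.ext_left a b' i hi])
    unfold ind
    rw [Set.indicator_apply, Set.indicator_apply, Brg.uw_eq, Brg.uw_eq]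
    by_cases h' : (Fin.append (Fin.append a b : Wd B (l + j)) c : Wd B (l + j + r)) ∈ G
    · rw [if_pos h', if_pos (h.mp h')]
    · rw [if_neg h', if_neg (fun e => h' (h.mpr e))]
  have hl : ∑ ab : Wd B (l + j), ∑ c : Wd B r,
        (if mm (ext (Fin.append ab c : Wd B (l + j + r))) (l + j) n = x
          then ind G (uw B (l + j + r)) (Fin.append ab c : Wd B (l + j + r)) else 0)
      = ∑ b : Wd B j, ∑ a : Wd B l, ∑ c : Wd B r,
        ind G (uw B (l + j + r)) (Fin.append (Fin.append a b : Wd B (l + j)) c : Wd B (l + j + r)) *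
          (if mulU (mm (ext b) j n) (mm (ext a) l n) = x then 1 else 0) := by
    rw [Brg.sum_append (B := B) (m := l) (k := j), Finset.sum_comm]
    apply Finset.sum_congr rfl
    intro b _
    apply Finset.sum_congr rfl
    intro a _
    apply Finset.sum_congr rfl
    intro c _
    rw [hmm]
    split_ifs <;> ring
  rw [hl]
  apply Finset.sum_congr rfl
  intro b' _
  rw [Brg.sum_append (B := B) (m := l + j) (k := r), Brg.sum_append (B := B) (m := l) (k := j),
    Finset.mul_sum]
  apply Finset.sum_congr rfl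
  intro a _
  have hc : ∀ b : Wd B j, ∑ c : Wd B r,
      ind G (uw B (l + j + r)) (Fin.append (Fin.append a b : Wd B (l + j)) c : Wd B (l + j + r)) *
        (if mulU (mm (ext b') j n)
          (mm (ext (Fin.append (Fin.append a b : Wd B (l + j)) c : Wd B (l + j + r))) l n) = x
            then 1 else 0)
      = ∑ c : Wd B r,
      ind G (uw B (l + j + r)) (Fin.append (Fin.append a b' : Wd B (l + j)) c : Wd B (l + j + r)) *
        (if mulU (mm (ext b') j n) (mm (ext a) l n) = x then 1 else 0) := by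
    intro b
    apply Finset.sum_congr rfl
    intro c _
    rw [hml, hind a b b' c]
  rw [Finset.sum_congr rfl fun b _ => hc b, Finset.sum_const, card_univ, nsmul_eq_mul, ← mul_assoc]
  have hcard : uw B j b' * (Fintype.card (Wd B j) : ℝ) = 1 := by
    unfold uw
    have : 0 < Fintype.card (Wd B j) := Fintype.card_pos_iff.mpr ⟨b'⟩
    have h2 : (0 : ℝ) < (Fintype.card (Wd B j) : ℝ) := by exact_mod_cast this
    field_simp
  rw [hcard, one_mul]

/-! #### Poissonisation -/

theorem Brg.en_mm {n : ℕ} (α : Seq) (l k j : ℕ) (h : k < n) (h' : j < k) :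
    Brg.en (mm α l n) k j = Mst α l k j := by
  rw [Brg.en_mk _ k j h h']
  rfl

theorem Brg.mm_zero (α : Seq) (n : ℕ) : mm α 0 n = 0 := by
  funext k j
  change (if k.val = j.val then (1 : ZMod 2) else 0) = 0
  rw [if_neg (by have := j.isLt; omega)]

theorem Brg.mm_succ {n : ℕ} (α : Seq) (l : ℕ) :
    mm α (l + 1) n = if (α l).2 = 0 then mm α l n else Brg.ro (α l).1 (mm α l n) := by
  apply Brg.en_ext
  intro k j h' h
  rw [Brg.en_mm α _ k j h h']
  simp only [Mst]
  rcases Brg.z2 (α l).2 with h2 | h2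
  · rw [if_pos h2, Brg.en_mm α _ k j h h', h2, zero_mul, ite_self, add_zero]
  · rw [if_neg (show ¬(α l).2 = 0 by rw [h2]; decide), Brg.en_ro _ _ k j h h',
      Brg.en_mm α _ k j h h', h2, one_mul]
    congr 1
    by_cases hk : k = (α l).1 + 1
    · rw [if_pos hk, if_pos hk]
      by_cases hj : j = (α l).1
      · rw [if_pos hj, hj, Mst_diag]
      · rw [if_neg hj, Brg.en_mm α _ _ j (by omega) (by omega)]
    · rw [if_neg hk, if_neg hk]

/-- one more letter -/
theorem Brg.step (B k n : ℕ) (g : Un n → ℝ) :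
    ∑ ω : Wd B (k + 1), g (mm (ext ω) (k + 1) n)
      = ∑ ω : Wd B k, ∑ b ∈ range B, (g (mm (ext ω) k n) + g (Brg.ro b (mm (ext ω) k n))) := by
  rw [Brg.sum_append]
  apply Finset.sum_congr rfl
  intro a _
  have h1 : ∀ c : Wd B 1, g (mm (ext (Fin.append a c : Wd B (k + 1))) (k + 1) n)
      = if (c 0).2 = 0 then g (mm (ext a) k n) else g (Brg.ro (c 0).1.val (mm (ext a) k n)) := by
    intro c
    have e0 : ext (Fin.append a c : Wd B (k + 1)) k = ((c 0).1.val, (c 0).2) := by
      have := Brg.ext_right a c 0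
      rw [add_zero] at this
      rw [this]
      unfold ext
      rw [dif_pos (by norm_num)]
      rfl
    rw [Brg.mm_succ, e0, Brg.mm_congr fun i hi => Brg.ext_left a c i hi]
    simp only
    split_ifs <;> rfl
  rw [Finset.sum_congr rfl fun c _ => h1 c]
  rw [← (Equiv.funUnique (Fin 1) (Fin B × ZMod 2)).symm.sum_comp, Fintype.sum_prod_type,
    ← Fin.sum_univ_eq_sum_range (fun b => g (mm (ext a) k n) + g (Brg.ro b (mm (ext a) k n))) B]
  apply Finset.sum_congr rfl
  intro b _
  have e1 : ∀ ξ : ZMod 2, ((Equiv.funUnique (Fin 1) (Fin B × ZMod 2)).symm (b, ξ)) 0 = (b, ξ) := by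
    intro ξ
    rfl
  have e2 : ¬(1 : ZMod 2) = 0 := by decide
  rw [show (univ : Finset (ZMod 2)) = {0, 1} from by decide, Finset.sum_pair (by decide), e1, e1]
  simp only [if_true, if_neg e2]

theorem Brg.PP_apply (n B : ℕ) (hn : n ≤ B + 1) (g : Un n → ℝ) (z : Un n) :
    (Brg.LU n + (B : ℝ) • (1 : Opr (Un n))) g z
      = ∑ b ∈ range B, 1 / 2 * (g z + g (Brg.ro b z)) := by
  change Brg.LU n g z + (B : ℝ) * g z = _
  rw [Brg.LU_apply]
  have h1 : ∑ b ∈ range (n - 1), 1 / 2 * (g (Brg.ro b z) - g z)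
      = ∑ b ∈ range B, 1 / 2 * (g (Brg.ro b z) - g z) := by
    apply Finset.sum_subset
    · intro b hb
      rw [mem_range] at hb ⊢
      omega
    · intro b _ hb
      rw [mem_range] at hb
      rw [Brg.ro_ge b z (by omega), sub_self, mul_zero]
  have h2 : (B : ℝ) * g z = ∑ b ∈ range B, g z := by
    rw [Finset.sum_const, card_range, nsmul_eq_mul]
  rw [h1, h2, ← Finset.sum_add_distrib]
  apply Finset.sum_congr rfl
  intro b _
  ring

theorem Brg.PP_pow (n B : ℕ) (hn : n ≤ B + 1) (k : ℕ) : ∀ g : Un n → ℝ,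
    ((Brg.LU n + (B : ℝ) • (1 : Opr (Un n))) ^ k) g 0
      = (1 / 2 : ℝ) ^ k * ∑ ω : Wd B k, g (mm (ext ω) k n) := by
  induction k with
  | zero =>
      intro g
      rw [pow_zero, pow_zero, one_mul]
      have : (univ : Finset (Wd B 0)) = {default} := by
        ext ω
        simp [Subsingleton.elim ω default]
      rw [this, Finset.sum_singleton, Brg.mm_zero]
      rfl
  | succ k ih =>
      intro g
      rw [pow_succ]
      change ((Brg.LU n + (B : ℝ) • (1 : Opr (Un n))) ^ k)
        ((Brg.LU n + (B : ℝ) • (1 : Opr (Un n))) g) 0 = _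
      rw [ih, Brg.step, pow_succ, mul_assoc, Finset.mul_sum (a := (1 / 2 : ℝ))]
      congr 1
      apply Finset.sum_congr rfl
      intro ω _
      rw [Brg.PP_apply n B hn, Finset.mul_sum]

/-- Poissonisation -/
theorem ct_hasSum (B n : ℕ) (hB : 0 < B) (hn : n ≤ B + 1) {t : ℝ} (ht : 0 ≤ t) (x : Un n) :
    HasSum (fun L : ℕ => pois (B * t) L * lw B L n x) (ct n t x) := by
  have _ := ht
  have hB' : (0 : ℝ) < B := by exact_mod_cast hB
  have h := Pi.hasSum.mp (hasSum_heat_shift (Brg.LU n) _ (B : ℝ) rfl t (Brg.dl x)) 0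
  rw [← Brg.tr_eq, ← ct_eq_tr] at h
  refine h.congr_fun ?_ |> fun h' => h'
  intro L
  rw [Pi.smul_apply, smul_eq_mul, Brg.PP_pow n B hn]
  have h1 : lw B L n x = 1 / ((B : ℝ) * 2) ^ L * ∑ ω : Wd B L, Brg.dl x (mm (ext ω) L n) := by
    unfold lw
    rw [Brg.mass_eq, Finset.mul_sum]
    apply Finset.sum_congr rfl
    intro ω _
    unfold Brg.dl
    rw [Brg.uw_eq]
    split_ifs <;> ring
  rw [h1]
  unfold pois
  rw [mul_pow, mul_pow, one_div (2 : ℝ), inv_pow]
  field_simp

end Pool.Agent.CutSeq
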