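import Pool.Agent.CutSeq.Mod
import Pool.Agent.CutSeq.Poi
import Pool.Agent.CutSeq.Bridge
import Pool.Agent.UTM.EastBlock

/-! Row FWD: the forward bound (FW) from the block estimate of the East front. -/

set_option autoImplicit false

namespace Pool.Agent.CutSeq

open Finset

/-- indicator of zero -/
noncomputable def Fwd.i0 (N : ℕ) : Pool.Agent.UTM.Es.Y N → ℝ := fun y => if y = 0 then 1 else 0

/-- the weight `exp (-θ top)` away from zero -/
noncomputable def Fwd.gg (N : ℕ) (θ : ℝ) : Pool.Agent.UTM.Es.Y N → ℝ := fun y =>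
  if y = 0 then 0 else Real.exp (-(θ * Pool.Agent.UTM.Es.top y))

theorem Fwd.op_eq_zero {N : ℕ} (k : ℕ) (y : Pool.Agent.UTM.Es.Y N) :
    Pool.Agent.UTM.Es.op k y = 0 ↔ y = 0 := by
  constructor
  · intro h
    rw [← Pool.Agent.UTM.Es.op_op k y, h, Pool.Agent.UTM.Es.op_zero]
  · rintro rfl
    exact Pool.Agent.UTM.Es.op_zero k

/-- zero is not reached from the other configurations -/
theorem Fwd.heat_i0 {N : ℕ} {t : ℝ} (ht : 0 ≤ t) (y : Pool.Agent.UTM.Es.Y N) (hy : y ≠ 0) :
    Pool.Agent.UTM.Es.heat (Pool.Agent.UTM.Es.LL N) t (Fwd.i0 N) y ≤ 0 := by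
  have h := Pool.Agent.UTM.Es.heat_le_exp (Pool.Agent.UTM.Es.LL_pos N) (g := Fwd.i0 N) (a := 0)
    (fun z => by
      rw [Pool.Agent.UTM.Es.LL_apply, zero_mul]
      apply le_of_eq
      apply Finset.sum_eq_zero
      intro k _
      unfold Fwd.i0
      by_cases hz : z = 0
      · rw [if_pos ((Fwd.op_eq_zero k z).2 hz), if_pos hz]
        ring
      · rw [if_neg (fun h => hz ((Fwd.op_eq_zero k z).1 h)), if_neg hz]
        ring) ht y
  refine h.trans ?_
  unfold Fwd.i0
  rw [if_neg hy, mul_zero]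

theorem Fwd.gg_nonneg {N : ℕ} (θ : ℝ) (y : Pool.Agent.UTM.Es.Y N) : 0 ≤ Fwd.gg N θ y := by
  unfold Fwd.gg
  split_ifs
  · exact le_rfl
  · exact (Real.exp_pos _).le

theorem Fwd.gg_le {N : ℕ} (θ : ℝ) (y : Pool.Agent.UTM.Es.Y N) :
    Fwd.gg N θ y ≤ Real.exp (-(θ * Pool.Agent.UTM.Es.top y)) := by
  unfold Fwd.gg
  split_ifs
  · exact (Real.exp_pos _).le
  · exact le_rfl

theorem Fwd.gg_heat_le {N : ℕ} {θ : ℝ} (hθ : 0 ≤ θ) {t : ℝ} (ht : 0 ≤ t)
    (y : Pool.Agent.UTM.Es.Y N) :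
    Pool.Agent.UTM.Es.heat (Pool.Agent.UTM.Es.LL N) t (Fwd.gg N θ) y
      ≤ Real.exp (1 / 2 * (Real.exp θ - 1) * t) * Fwd.gg N θ y := by
  by_cases hy : y = 0
  · subst hy
    rw [Pool.Agent.UTM.Es.heat_zero_cfg]
    unfold Fwd.gg
    rw [if_pos rfl, mul_zero]
  · refine (Pool.Agent.UTM.Es.heat_mono (Pool.Agent.UTM.Es.LL_pos N) ht
      (fun z => Fwd.gg_le θ z) y).trans ?_
    refine (Pool.Agent.UTM.Es.heat_exp_neg_top hθ ht y).trans (le_of_eq ?_)
    unfold Fwd.gg
    rw [if_neg hy]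

/-- (FW) in continuous time -/
theorem forward_ct (u : ℝ) (hu : u < Pool.Agent.UTM.Es.vv) : ∃ θ C : ℝ, 0 < θ ∧ 1 ≤ C ∧
    ∀ (N : ℕ) (s : ℝ), 0 ≤ s → ∀ ℓ X : ℕ, (ℓ : ℝ) ≤ u * s →
      ∀ z : Pool.Agent.UTM.Es.Y N, z ≠ 0 → Pool.Agent.UTM.Es.top z + ℓ + X ≤ N →
        Pool.Agent.UTM.Es.heat (Pool.Agent.UTM.Es.LL N) s
          (fun y => if Pool.Agent.UTM.Es.top y < Pool.Agent.UTM.Es.top z + ℓ then (1 : ℝ) else 0) z
          ≤ C * (Real.exp (-(θ * s)) + Real.exp (-(θ * X))) := by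
  have hvp := Pool.Agent.UTM.Es.vv_pos
  set v : ℝ := Pool.Agent.UTM.Es.vv with hv
  set u' : ℝ := (max u 0 + v) / 2 with hu'
  have hm : max u 0 < v := max_lt hu hvp
  have hm0 : 0 ≤ max u 0 := le_max_right _ _
  have hu'1 : max u 0 < u' := by rw [hu']; linarith
  have hu'2 : u' < v := by rw [hu']; linarith
  have hu'0 : 0 < u' := lt_of_le_of_lt hm0 hu'1
  obtain ⟨T, hT, θ, hθ, hθ1, M₁, hblock⟩ := Pool.Agent.UTM.Es.block u' hu'2
  have hT1 : (1 : ℝ) ≤ T := by exact_mod_cast hT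
  have hT0 : (0 : ℝ) < T := by linarith
  set ρ : ℝ := Real.exp (-(θ * (u' * T))) with hρ
  have hρ0 : 0 < ρ := Real.exp_pos _
  have hρ1 : ρ < 1 := by
    rw [hρ, Real.exp_lt_one_iff]
    have : 0 < θ * (u' * T) := by positivity
    linarith
  set K : ℝ := Real.exp (1 / 2 * (Real.exp θ - 1) * T) with hK
  have hexp1 : 1 ≤ Real.exp θ := Real.one_le_exp hθ.le
  have hK1 : 1 ≤ K := by
    rw [hK]
    apply Real.one_le_exp
    have : 0 ≤ Real.exp θ - 1 := by linarith
    positivity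
  have hK0 : 0 < K := by linarith
  clear_value K ρ
  -- the constants
  set c : ℝ := min (θ * (u' - max u 0)) θ with hc
  have hc0 : 0 < c := by
    rw [hc]
    apply lt_min
    · have : 0 < u' - max u 0 := by linarith
      positivity
    · exact hθ
  set C1 : ℝ := K * Real.exp (θ * (u' * T)) with hC1
  set C2 : ℝ := K * (K * Real.exp (θ * M₁) / (1 - ρ)) with hC2
  have h1ρ : 0 < 1 - ρ := by linarith
  have hC10 : 0 < C1 := by positivity
  have hC20 : 0 < C2 := by positivity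
  refine ⟨c, max 1 (max C1 C2), hc0, le_max_left _ _, ?_⟩
  intro N s hs ℓ X hℓ z hz hroom
  set L := Pool.Agent.UTM.Es.LL N with hL
  have hpos := Pool.Agent.UTM.Es.LL_pos N
  set g := Fwd.gg N θ with hg
  -- one block
  set e : ℝ := K * Real.exp (-(θ * ((N : ℝ) - M₁))) with he
  have he0 : 0 < e := by positivity
  have hone : ∀ y, Pool.Agent.UTM.Es.heat L T g y ≤ ρ * g y + e := by
    intro y
    by_cases hy : y = 0
    · rw [hy, hL, Pool.Agent.UTM.Es.heat_zero_cfg, hg]
      unfold Fwd.gg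
      rw [if_pos rfl]
      linarith
    · have hgy : g y = Real.exp (-(θ * Pool.Agent.UTM.Es.top y)) := by
        rw [hg]
        unfold Fwd.gg
        rw [if_neg hy]
      by_cases hr : Pool.Agent.UTM.Es.top y + M₁ ≤ N
      · have h1 := hblock N y hy hr
        have h2 := Pool.Agent.UTM.Es.heat_mono hpos hT0.le (f := g)
          (g := fun z => Real.exp (-(θ * Pool.Agent.UTM.Es.top z))) (fun z => Fwd.gg_le θ z) y
        rw [hgy]
        linarith
      · have h1 := Fwd.gg_heat_le hθ.le hT0.le y (θ := θ)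
        have h2 : Real.exp (-(θ * Pool.Agent.UTM.Es.top y)) ≤ Real.exp (-(θ * ((N : ℝ) - M₁))) := by
          apply Real.exp_le_exp.mpr
          have h3 : (N : ℝ) - M₁ ≤ Pool.Agent.UTM.Es.top y := by
            rw [not_le] at hr
            have : (N : ℝ) ≤ (Pool.Agent.UTM.Es.top y : ℝ) + M₁ := by exact_mod_cast hr.le
            linarith
          have := mul_le_mul_of_nonneg_left h3 hθ.le
          linarith
        have h3 : K * g y ≤ e := by
          rw [hgy, he]
          exact mul_le_mul_of_nonneg_left h2 hK0.le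
        have h4 : 0 ≤ ρ * g y := mul_nonneg hρ0.le (Fwd.gg_nonneg θ y)
        have h5 : Pool.Agent.UTM.Es.heat L T g y ≤ K * g y := by
          rw [hK]
          exact h1
        linarith
  -- iterate
  have hiter : ∀ j : ℕ, ∀ y, Pool.Agent.UTM.Es.heat L (j * T) g y ≤ ρ ^ j * g y + e / (1 - ρ) := by
    intro j
    induction j with
    | zero =>
      intro y
      rw [Nat.cast_zero, zero_mul, Pool.Agent.UTM.Es.heat_zero, pow_zero, one_mul]
      have : 0 ≤ e / (1 - ρ) := by positivity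
      linarith
    | succ j ih =>
      intro y
      have e1 : ((j + 1 : ℕ) : ℝ) * T = j * T + T := by push_cast; ring
      have hj0 : (0 : ℝ) ≤ j * T := by positivity
      rw [e1, Pool.Agent.UTM.Es.heat_add]
      have h1 := Pool.Agent.UTM.Es.heat_mono hpos hj0
        (f := Pool.Agent.UTM.Es.heat L T g)
        (g := ρ • g + fun _ => e) (fun z => by
          rw [Pi.add_apply, Pi.smul_apply, smul_eq_mul]
          exact hone z) y
      rw [map_add, map_smul, Pool.Agent.UTM.Es.heat_const (Pool.Agent.UTM.Es.Lk_one _ 0),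
        Pi.add_apply, Pi.smul_apply, smul_eq_mul] at h1
      refine h1.trans ?_
      have h2 := mul_le_mul_of_nonneg_left (ih y) hρ0.le
      have h3 : ρ * (e / (1 - ρ)) + e = e / (1 - ρ) := by
        field_simp
        ring
      rw [pow_succ]
      nlinarith
  -- the time left over
  set j : ℕ := ⌊s / T⌋₊ with hj
  have hj1 : (j : ℝ) * T ≤ s := by
    have := Nat.floor_le (div_nonneg hs hT0.le)
    rwa [← hj, le_div_iff₀ hT0] at this
  have hj2 : s < (j : ℝ) * T + T := by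
    have := Nat.lt_floor_add_one (s / T)
    rw [← hj, div_lt_iff₀ hT0] at this
    linarith
  set r : ℝ := s - j * T with hr
  have hr0 : 0 ≤ r := by rw [hr]; linarith
  have hrT : r ≤ T := by rw [hr]; linarith
  have hs' : s = j * T + r := by rw [hr]; ring
  have hgz : g z = Real.exp (-(θ * Pool.Agent.UTM.Es.top z)) := by
    rw [hg]
    unfold Fwd.gg
    rw [if_neg hz]
  have hfin : Pool.Agent.UTM.Es.heat L s g z ≤ K * (ρ ^ j * g z + e / (1 - ρ)) := by
    rw [hs', Pool.Agent.UTM.Es.heat_add]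
    have h1 := Pool.Agent.UTM.Es.heat_mono hpos (show (0 : ℝ) ≤ j * T by positivity)
      (f := Pool.Agent.UTM.Es.heat L r g) (g := K • g) (fun y => by
        rw [Pi.smul_apply, smul_eq_mul]
        refine (Fwd.gg_heat_le hθ.le hr0 y).trans ?_
        apply mul_le_mul_of_nonneg_right _ (Fwd.gg_nonneg θ y)
        rw [hK]
        apply Real.exp_le_exp.mpr
        have : 0 ≤ 1 / 2 * (Real.exp θ - 1) := by linarith
        exact mul_le_mul_of_nonneg_left hrT this) z
    rw [map_smul, Pi.smul_apply, smul_eq_mul] at h1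
    refine h1.trans ?_
    exact mul_le_mul_of_nonneg_left (hiter j z) hK0.le
  -- Markov
  set x : ℝ := Real.exp (θ * ((Pool.Agent.UTM.Es.top z : ℝ) + ℓ)) with hx
  have hx0 : 0 < x := Real.exp_pos _
  have hmark : Pool.Agent.UTM.Es.heat L s
      (fun y => if Pool.Agent.UTM.Es.top y < Pool.Agent.UTM.Es.top z + ℓ then (1 : ℝ) else 0) z
      ≤ x * Pool.Agent.UTM.Es.heat L s g z := by
    have h1 := Pool.Agent.UTM.Es.heat_mono hpos hs
      (f := fun y => if Pool.Agent.UTM.Es.top y < Pool.Agent.UTM.Es.top z + ℓ then (1 : ℝ) else 0)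
      (g := x • g + Fwd.i0 N) (fun y => by
        rw [Pi.add_apply, Pi.smul_apply, smul_eq_mul]
        by_cases hy : y = 0
        · rw [hg]
          unfold Fwd.gg Fwd.i0
          rw [if_pos hy, if_pos hy, mul_zero, zero_add]
          split_ifs <;> norm_num
        · rw [hg]
          unfold Fwd.gg Fwd.i0
          rw [if_neg hy, if_neg hy, add_zero]
          split_ifs with h2
          · rw [hx, ← Real.exp_add]
            apply Real.one_le_exp
            have h3 : (Pool.Agent.UTM.Es.top y : ℝ) ≤ (Pool.Agent.UTM.Es.top z : ℝ) + ℓ := by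
              exact_mod_cast h2.le
            have := mul_le_mul_of_nonneg_left h3 hθ.le
            linarith
          · positivity) z
    rw [map_add, map_smul, Pi.add_apply, Pi.smul_apply, smul_eq_mul] at h1
    have h2 := Fwd.heat_i0 hs z hz
    linarith
  refine hmark.trans ?_
  have h1 := mul_le_mul_of_nonneg_left hfin hx0.le
  refine h1.trans ?_
  rw [hgz]
  -- first term
  have t1 : x * (K * (ρ ^ j * Real.exp (-(θ * Pool.Agent.UTM.Es.top z))))
      ≤ C1 * Real.exp (-(c * s)) := by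
    have e1 : x * (K * (ρ ^ j * Real.exp (-(θ * Pool.Agent.UTM.Es.top z))))
        = K * Real.exp (θ * ℓ - θ * (u' * (j * T))) := by
      rw [hρ, ← Real.exp_nat_mul, hx]
      rw [show Real.exp (θ * ((Pool.Agent.UTM.Es.top z : ℝ) + ℓ)) * (K * (Real.exp ((j : ℝ) *
        -(θ * (u' * T))) * Real.exp (-(θ * Pool.Agent.UTM.Es.top z))))
        = K * (Real.exp (θ * ((Pool.Agent.UTM.Es.top z : ℝ) + ℓ)) * Real.exp ((j : ℝ) *
        -(θ * (u' * T))) * Real.exp (-(θ * Pool.Agent.UTM.Es.top z))) by ring,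
        ← Real.exp_add, ← Real.exp_add]
      congr 2
      ring
    rw [e1, hC1, mul_assoc K, ← Real.exp_add]
    refine mul_le_mul_of_nonneg_left (Real.exp_le_exp.mpr ?_) hK0.le
    have h2 : (ℓ : ℝ) ≤ max u 0 * s := hℓ.trans (mul_le_mul_of_nonneg_right (le_max_left _ _) hs)
    have h3 := mul_le_mul_of_nonneg_left h2 hθ.le
    have h4 : u' * s ≤ u' * (j * T) + u' * T := by nlinarith
    have h5 := mul_le_mul_of_nonneg_left h4 hθ.le
    have h6 : c * s ≤ θ * (u' - max u 0) * s := mul_le_mul_of_nonneg_right (min_le_left _ _) hs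
    have e7 : θ * (u' - max u 0) * s = θ * (u' * s) - θ * (max u 0 * s) := by ring
    have e8 : θ * (u' * (j * T) + u' * T) = θ * (u' * (j * T)) + θ * (u' * T) := by ring
    rw [e7] at h6
    rw [e8] at h5
    linarith
  -- second term
  have t2 : x * (K * (e / (1 - ρ))) ≤ C2 * Real.exp (-(c * X)) := by
    have e1 : x * (K * (e / (1 - ρ))) = K * (K / (1 - ρ)) *
        Real.exp (θ * ((Pool.Agent.UTM.Es.top z : ℝ) + ℓ) + -(θ * ((N : ℝ) - M₁))) := by
      rw [Real.exp_add, hx, he]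
      ring
    have e2 : C2 * Real.exp (-(c * X)) = K * (K / (1 - ρ)) * Real.exp (θ * M₁ + -(c * X)) := by
      rw [Real.exp_add, hC2]
      ring
    rw [e1, e2]
    have hKK : 0 ≤ K * (K / (1 - ρ)) := by positivity
    refine mul_le_mul_of_nonneg_left (Real.exp_le_exp.mpr ?_) hKK
    have h2 : (Pool.Agent.UTM.Es.top z : ℝ) + ℓ + X ≤ N := by exact_mod_cast hroom
    have h3 := mul_le_mul_of_nonneg_left h2 hθ.le
    have h4 : c * X ≤ θ * X := mul_le_mul_of_nonneg_right (min_le_right _ _) (Nat.cast_nonneg _)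
    have e7 : θ * ((Pool.Agent.UTM.Es.top z : ℝ) + ℓ + X) = θ * ((Pool.Agent.UTM.Es.top z : ℝ) + ℓ)
      + θ * X := by ring
    have e8 : θ * ((N : ℝ) - M₁) = θ * N - θ * M₁ := by ring
    rw [e7] at h3
    rw [e8]
    linarith
  have hCm1 : C1 ≤ max 1 (max C1 C2) := (le_max_left _ _).trans (le_max_right _ _)
  have hCm2 : C2 ≤ max 1 (max C1 C2) := (le_max_right _ _).trans (le_max_right _ _)
  have t3 := mul_le_mul_of_nonneg_right hCm1 (Real.exp_pos (-(c * s))).le
  have t4 := mul_le_mul_of_nonneg_right hCm2 (Real.exp_pos (-(c * X))).le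
  have e3 : x * (K * (ρ ^ j * Real.exp (-(θ * Pool.Agent.UTM.Es.top z)) + e / (1 - ρ)))
      = x * (K * (ρ ^ j * Real.exp (-(θ * Pool.Agent.UTM.Es.top z)))) + x * (K * (e / (1 - ρ))) := by
    ring
  rw [e3]
  linarith

/-- the elementary array acts as the move of the East process -/
theorem Fwd.act_el (n b : ℕ) (y : V n) : act (Brg.el n b) y = Pool.Agent.UTM.Es.op b y := by
  funext k
  have hr : Pool.Agent.UTM.Es.op b y k =
      Pool.Agent.UTM.Es.cf y k.val + if k.val = b + 1 then Pool.Agent.UTM.Es.cf y b else 0 := rfl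
  have hk : Pool.Agent.UTM.Es.cf y k.val = y k := by
    unfold Pool.Agent.UTM.Es.cf
    rw [dif_pos k.isLt]
  rw [hr, hk]
  unfold act
  refine congrArg (y k + ·) ?_
  by_cases h : k.val = b + 1
  · rw [if_pos h]
    rw [Finset.sum_eq_single (⟨b, by omega⟩ : Fin k.val)]
    · unfold Brg.el Pool.Agent.UTM.Es.cf
      rw [if_pos ⟨h, rfl⟩, one_mul, dif_pos (show b < n by have := k.isLt; omega)]
    · intro j _ hj
      unfold Brg.el
      rw [if_neg, zero_mul]
      rintro ⟨_, h2⟩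
      exact hj (Fin.ext h2)
    · intro h2
      exact absurd (Finset.mem_univ _) h2
  · rw [if_neg h]
    apply Finset.sum_eq_zero
    intro j _
    unfold Brg.el
    rw [if_neg (fun h2 => h h2.1), zero_mul]

theorem Fwd.act_zero (n : ℕ) (z : V n) : act (0 : Un n) z = z := by
  funext k
  unfold act
  have h : ∑ j : Fin k.val, (0 : Un n) k j * z ⟨j.val, j.isLt.trans k.isLt⟩ = 0 := by
    apply Finset.sum_eq_zero
    intro j _
    exact zero_mul _
  rw [h, add_zero]

/-- from the walk on arrays to the East process -/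
theorem Fwd.act_heat (n : ℕ) (t : ℝ) (F : V n → ℝ) (z : V n) :
    Pool.Agent.UTM.Es.heat (Brg.LU n) t (fun x => F (act x z)) 0
      = Pool.Agent.UTM.Es.heat (Pool.Agent.UTM.Es.LL n) t F z := by
  have h := Pool.Agent.UTM.Es.heat_intertwine (Pool.Agent.UTM.Es.LL n) (Brg.LU n)
    (Pool.Agent.UTM.Es.pull fun x : Un n => act x z) (fun G => by
      funext x
      rw [Brg.LU_apply]
      have h0 : Pool.Agent.UTM.Es.pull (fun x : Un n => act x z)
          (Pool.Agent.UTM.Es.LL n G) x = Pool.Agent.UTM.Es.LL n G (act x z) := rfl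
      rw [h0, Pool.Agent.UTM.Es.LL_apply]
      have h1 : ∀ b, Pool.Agent.UTM.Es.pull (fun x : Un n => act x z) G (Brg.ro b x)
          = G (Pool.Agent.UTM.Es.op b (act x z)) := by
        intro b
        rw [Pool.Agent.UTM.Es.pull_apply]
        unfold Brg.ro
        rw [act_mulU, Fwd.act_el]
      rw [Finset.sum_congr rfl fun b _ => by rw [h1 b, Pool.Agent.UTM.Es.pull_apply]]
      apply Finset.sum_subset
      · intro b hb
        rw [mem_range] at hb ⊢
        omega
      · intro b _ hb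
        rw [mem_range] at hb
        rw [Pool.Agent.UTM.Es.op_ge b _ (by omega), sub_self, mul_zero]) t F
  have h1 := congrFun h 0
  rw [Pool.Agent.UTM.Es.pull_apply, Fwd.act_zero] at h1
  exact h1

/-- one Poisson term is at most the value in continuous time -/
theorem Fwd.term_le (B : ℕ) (hB : 0 < B) {s : ℝ} (hs : 0 ≤ s) (S : ℕ) (F : V (B + 1) → ℝ)
    (hF : ∀ y, 0 ≤ F y) (z : V (B + 1)) :
    pois (B * s) S * ∑ ω : Wd B S, uw B S ω * F (act (mm (ext ω) S (B + 1)) z)
      ≤ Pool.Agent.UTM.Es.heat (Pool.Agent.UTM.Es.LL (B + 1)) s F z := by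
  have hB' : (0 : ℝ) < B := by exact_mod_cast hB
  have h := Pi.hasSum.mp (Pool.Agent.UTM.Es.hasSum_heat_shift (Brg.LU (B + 1)) _ (B : ℝ) rfl s
    (fun x => F (act x z))) 0
  rw [Fwd.act_heat] at h
  have hterm : ∀ L : ℕ, ((Real.exp (-((B : ℝ) * s)) * s ^ L / (L.factorial : ℝ)) •
      ((Brg.LU (B + 1) + (B : ℝ) • (1 : Pool.Agent.UTM.Es.Opr (Un (B + 1)))) ^ L)
        (fun x => F (act x z))) 0
      = pois (B * s) L * ∑ ω : Wd B L, uw B L ω * F (act (mm (ext ω) L (B + 1)) z) := by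
    intro L
    rw [Pi.smul_apply, smul_eq_mul, Brg.PP_pow (B + 1) B le_rfl]
    have h1 : ∑ ω : Wd B L, uw B L ω * F (act (mm (ext ω) L (B + 1)) z)
        = 1 / ((B : ℝ) * 2) ^ L * ∑ ω : Wd B L, F (act (mm (ext ω) L (B + 1)) z) := by
      rw [Finset.mul_sum]
      apply Finset.sum_congr rfl
      intro ω _
      rw [Brg.uw_eq]
    rw [h1]
    unfold pois
    rw [mul_pow, mul_pow, one_div (2 : ℝ), inv_pow]
    field_simp
  rw [← hterm S]
  refine le_hasSum h S fun L _ => ?_
  rw [hterm L]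
  refine mul_nonneg (pois_nonneg (by positivity) L) (Finset.sum_nonneg fun ω _ => ?_)
  refine mul_nonneg ?_ (hF _)
  rw [Brg.uw_eq]
  positivity

theorem Fwd.tp_eq {n : ℕ} (y : V n) (hy : y ≠ 0) : tp y = Pool.Agent.UTM.Es.top y + 1 := by
  have h1 := Pool.Agent.UTM.Es.cf_top' y hy
  have hlt : Pool.Agent.UTM.Es.top y < n := by
    by_contra h
    exact h1 (Pool.Agent.UTM.Es.cf_ge y (by omega))
  apply le_antisymm
  · unfold tp
    apply Finset.sup_le
    intro j hj
    rw [Finset.mem_filter] at hj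
    have h2 : Pool.Agent.UTM.Es.cf y j.val ≠ 0 := by
      unfold Pool.Agent.UTM.Es.cf
      rw [dif_pos j.isLt]
      exact hj.2
    have := Pool.Agent.UTM.Es.le_top y h2
    omega
  · unfold tp
    have h2 : (⟨Pool.Agent.UTM.Es.top y, hlt⟩ : Fin n) ∈ univ.filter fun j : Fin n => y j ≠ 0 := by
      rw [Finset.mem_filter]
      refine ⟨Finset.mem_univ _, ?_⟩
      unfold Pool.Agent.UTM.Es.cf at h1
      rw [dif_pos hlt] at h1
      exact h1
    exact Finset.le_sup (f := fun j : Fin n => j.val + 1) h2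

/-- (FW): the front of any nonzero vector moves at speed at least `u` with exponentially small
exceptions; `s` is the duration, `S` the number of letters -/
theorem forward (u : ℝ) (hu : u < Pool.Agent.UTM.Es.vv) : ∃ θ C : ℝ, 0 < θ ∧ 1 ≤ C ∧
    ∀ (B : ℕ), 0 < B → ∀ s : ℝ, 0 ≤ s → ∀ S ℓ X : ℕ, (ℓ : ℝ) ≤ u * s →
      ∀ z : V (B + 1), z ≠ 0 → tp z + ℓ + X ≤ B →
        pois (B * s) S * pr (uw B S) {ω | tp (act (mm (ext ω) S (B + 1)) z) < tp z + ℓ}
          ≤ C * (Real.exp (-(θ * s)) + Real.exp (-(θ * X))) := by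
  obtain ⟨θ, C, hθ, hC, H⟩ := forward_ct u hu
  refine ⟨θ, C, hθ, hC, ?_⟩
  intro B hB s hs S ℓ X hℓ z hz hroom
  have htz := Fwd.tp_eq z hz
  have h1 := H (B + 1) s hs ℓ X hℓ z hz (by omega)
  refine le_trans ?_ h1
  have h2 := Fwd.term_le B hB hs S
    (fun y => if Pool.Agent.UTM.Es.top y < Pool.Agent.UTM.Es.top z + ℓ then (1 : ℝ) else 0)
    (fun y => by split_ifs <;> norm_num) z
  refine le_trans (le_of_eq ?_) h2
  congr 1
  unfold pr tot ind
  apply Finset.sum_congr rfl
  intro ω _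
  have hy : act (mm (ext ω) S (B + 1)) z ≠ 0 := by
    intro h
    apply hz
    apply act_injective (mm (ext ω) S (B + 1))
    rw [h]
    funext k
    unfold act
    have h3 : ∑ j : Fin k.val, mm (ext ω) S (B + 1) k j *
        (0 : V (B + 1)) ⟨j.val, j.isLt.trans k.isLt⟩ = 0 := by
      apply Finset.sum_eq_zero
      intro j _
      exact mul_zero _
    rw [h3]
    simp
  have hty := Fwd.tp_eq _ hy
  rw [Set.indicator_apply]
  have hiff : (ω ∈ {ω : Wd B S | tp (act (mm (ext ω) S (B + 1)) z) < tp z + ℓ}) ↔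
      Pool.Agent.UTM.Es.top (act (mm (ext ω) S (B + 1)) z) < Pool.Agent.UTM.Es.top z + ℓ := by
    change tp (act (mm (ext ω) S (B + 1)) z) < tp z + ℓ ↔ _
    omega
  by_cases h3 : Pool.Agent.UTM.Es.top (act (mm (ext ω) S (B + 1)) z) < Pool.Agent.UTM.Es.top z + ℓ
  · rw [if_pos (hiff.2 h3), if_pos h3, mul_one]
  · rw [if_neg (fun h4 => h3 (hiff.1 h4)), if_neg h3, mul_zero]

end Pool.Agent.CutSeq
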