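import Pool.Agent.CutSeq.Bridge
import Pool.Agent.UTM.MatCols

/-! Row GAP: the uniform spectral gap, in the form of a contraction in quadratic mean. -/

set_option autoImplicit false

namespace Pool.Agent.CutSeq

open Finset Pool.Agent.UTM Pool.Agent.UTM.Es

/-- convergence to the uniform law, with a rate which does not depend on the size -/
theorem mix_pt : ∃ κ : ℝ, 0 < κ ∧ ∀ n : ℕ, 1 ≤ n → ∀ F : Mat n → ℝ, (∀ B, |F B| ≤ 1) →
    ∀ t : ℝ, 0 ≤ t → ∀ A, IsUni A → |heat (LM n) t F A - avU F|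
      ≤ 2 * (n * (2 ^ n * (2 * Real.exp n * Real.exp (-(κ * t))))) := by
  obtain ⟨κ₁, hκ₁, hp⟩ := persist 1 one_pos
  refine ⟨κ₁, hκ₁, ?_⟩
  intro n hn F hF1 t ht0 A hA
  have hn0 : (0 : ℝ) ≤ n := Nat.cast_nonneg _
  have hF : Dep 0 n F := by
    intro B B' h
    congr 1
    funext a b
    exact h a b (Nat.zero_le _) (by omega)
  set b : ℝ := 2 * Real.exp n * Real.exp (-(κ₁ * t)) with hb
  have hb0 : 0 ≤ b := by positivity
  have hα : ∀ N : ℕ, 1 ≤ N → N ≤ n → heat (Lk N 1 (N - 1)) t (fun _ => 1) (un 0) ≤ b := by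
    intro N h1 h2
    have hun := un_ne (N := N) 0 (by omega)
    refine le_trans (hp N t ht0 (un 0) hun) ?_
    rw [gg_ne 1 _ hun, top_un 0 (by omega), hb]
    have h3 : Real.exp (1 * ((N : ℝ) - ((0 : ℕ) : ℝ))) ≤ Real.exp n := by
      apply Real.exp_le_exp.mpr
      have : (N : ℝ) ≤ n := by exact_mod_cast h2
      push_cast
      linarith
    calc 2 * Real.exp (-(κ₁ * t)) * Real.exp (1 * ((N : ℝ) - ((0 : ℕ) : ℝ)))
        ≤ 2 * Real.exp (-(κ₁ * t)) * Real.exp n := by gcongr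
      _ = 2 * Real.exp n * Real.exp (-(κ₁ * t)) := by ring
  obtain ⟨m, hm⟩ := rows_bound n le_rfl ht0 b hb0 hα (n - 1) 0 F (by omega) hF hF1
  have hd : ((n - 1 : ℕ) : ℝ) ≤ n := by
    have : n - 1 ≤ n := by omega
    exact_mod_cast this
  have hm' : ∀ A, IsUni A → |heat (LM n) t F A - m| ≤ n * (2 ^ n * b) := by
    intro A hA
    exact le_trans (hm A hA) (mul_le_mul_of_nonneg_right hd (by positivity))
  have hc := card_Uni_pos n
  have h1 : |avU F - m| ≤ n * (2 ^ n * b) := by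
    have e : avU F - m = ((Uni n).card : ℝ)⁻¹ * ∑ B ∈ Uni n, (heat (LM n) t F B - m) := by
      unfold avU
      rw [Finset.sum_sub_distrib, stationary, Finset.sum_const, nsmul_eq_mul]
      field_simp
    rw [e, abs_mul, abs_of_pos (inv_pos.mpr hc)]
    have h2 : |∑ B ∈ Uni n, (heat (LM n) t F B - m)| ≤ ∑ B ∈ Uni n, (n : ℝ) * (2 ^ n * b) :=
      le_trans (Finset.abs_sum_le_sum_abs _ _)
        (Finset.sum_le_sum fun B hB => hm' B ((mem_Uni B).mp hB))
    rw [Finset.sum_const, nsmul_eq_mul] at h2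
    calc ((Uni n).card : ℝ)⁻¹ * |∑ B ∈ Uni n, (heat (LM n) t F B - m)|
        ≤ ((Uni n).card : ℝ)⁻¹ * (((Uni n).card : ℝ) * ((n : ℝ) * (2 ^ n * b))) :=
          mul_le_mul_of_nonneg_left h2 (inv_pos.mpr hc).le
      _ = (n : ℝ) * (2 ^ n * b) := by field_simp
  have h2 := hm' A hA
  have h3 := abs_sub_le (heat (LM n) t F A) m (avU F)
  rw [abs_sub_comm m (avU F)] at h3
  linarith

theorem isUni_toMat (n : ℕ) (x : Un n) : IsUni (toMat n x) :=
  (mem_range_toMat n (toMat n x)).mp ⟨x, rfl⟩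

theorem tr_conv : ∃ κ : ℝ, 0 < κ ∧ ∀ n : ℕ, ∃ C : ℝ, 0 ≤ C ∧ ∀ t : ℝ, 0 ≤ t → ∀ y x : Un n,
    |tr n t y x - 1 / (Fintype.card (Un n) : ℝ)| ≤ C * Real.exp (-(κ * t)) := by
  obtain ⟨κ, hκ, h⟩ := mix_pt
  refine ⟨κ, hκ, fun n => ?_⟩
  rcases Nat.eq_zero_or_pos n with h0 | hn
  · subst h0
    refine ⟨0, le_rfl, fun t _ y x => ?_⟩
    have hs : Subsingleton (Un 0) := ⟨fun a b => funext fun k => k.elim0⟩
    have h1 := tr_sum 0 t y
    rw [Fintype.sum_subsingleton _ x] at h1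
    rw [h1, Fintype.card_eq_one_iff.mpr ⟨x, fun y => hs.elim y x⟩]
    simp
  · refine ⟨2 * (n * (2 ^ n * (2 * Real.exp n))), by positivity, fun t ht y x => ?_⟩
    set F : Mat n → ℝ := fun A => if A = toMat n x then (1 : ℝ) else 0 with hF
    have h1 := h n hn F (fun B => by
      simp only [hF]
      split_ifs <;> simp) t ht (toMat n y) (isUni_toMat n y)
    have h2 : avU F = 1 / (Fintype.card (Un n) : ℝ) := by
      unfold avU
      rw [hF, Finset.sum_ite_eq', if_pos ((mem_Uni _).mpr (isUni_toMat n x)), card_Uni, card_Un]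
      rw [mul_one, one_div]
    rw [h2] at h1
    refine le_trans h1 (le_of_eq ?_)
    ring

section contraction

variable {n : ℕ}

/-- the kernel minus its limit -/
noncomputable def Qk (n : ℕ) (t : ℝ) (y x : Un n) : ℝ := tr n t y x - 1 / (Fintype.card (Un n) : ℝ)

/-- action on functions -/
noncomputable def Qf (n : ℕ) (t : ℝ) (g : Un n → ℝ) (x : Un n) : ℝ := ∑ y, g y * Qk n t y x

theorem card_pos' (n : ℕ) : (0 : ℝ) < (Fintype.card (Un n) : ℝ) := by
  exact_mod_cast Fintype.card_pos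

theorem Qk_symm (t : ℝ) (y x : Un n) : Qk n t y x = Qk n t x y := by
  rw [Qk, Qk, tr_symm]

theorem Qk_add (t s : ℝ) (y x : Un n) : Qk n (t + s) y x = ∑ z, Qk n t y z * Qk n s z x := by
  have hc := card_pos' n
  have h1 : ∑ z, tr n s z x = 1 := by
    rw [← tr_sum n s x]
    exact Finset.sum_congr rfl fun z _ => tr_symm n s z x
  simp only [Qk, sub_mul, mul_sub, Finset.sum_sub_distrib, ← tr_add, ← Finset.mul_sum,
    ← Finset.sum_mul, tr_sum, h1, Finset.sum_const, Finset.card_univ, nsmul_eq_mul]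
  field_simp
  ring

theorem Qf_add (t s : ℝ) (g : Un n → ℝ) (x : Un n) : Qf n (t + s) g x = Qf n s (Qf n t g) x := by
  simp only [Qf, Qk_add, Finset.mul_sum, Finset.sum_mul]
  rw [Finset.sum_comm]
  refine Finset.sum_congr rfl fun z _ => Finset.sum_congr rfl fun y _ => ?_
  ring

theorem Qf_self (t : ℝ) (g g' : Un n → ℝ) : ∑ x, Qf n t g x * g' x = ∑ x, g x * Qf n t g' x := by
  simp only [Qf, Finset.mul_sum, Finset.sum_mul]
  rw [Finset.sum_comm]
  refine Finset.sum_congr rfl fun z _ => Finset.sum_congr rfl fun y _ => ?_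
  rw [Qk_symm]
  ring

/-- Cauchy-Schwarz -/
theorem Qf_sq (t : ℝ) (g : Un n → ℝ) : (∑ x, (Qf n t g x) ^ 2) ^ 2 ≤
    (∑ x, (g x) ^ 2) * ∑ x, (Qf n (t + t) g x) ^ 2 := by
  have h1 : ∑ x, (Qf n t g x) ^ 2 = ∑ x, g x * Qf n (t + t) g x := by
    simp only [Qf_add, sq]
    exact Qf_self t g (Qf n t g)
  rw [h1]
  exact Finset.sum_mul_sq_le_sq_mul_sq _ _ _

theorem Qf_iter (t : ℝ) (g : Un n → ℝ) (k : ℕ) :
    (∑ x, (Qf n t g x) ^ 2) ^ (2 ^ k) * (∑ x, (g x) ^ 2) ≤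
      (∑ x, (g x) ^ 2) ^ (2 ^ k) * ∑ x, (Qf n (2 ^ k * t) g x) ^ 2 := by
  induction k with
  | zero => simp [mul_comm]
  | succ k ih =>
    set a := ∑ x, (Qf n t g x) ^ 2 with ha
    set b := ∑ x, (g x) ^ 2 with hb
    set c := ∑ x, (Qf n (2 ^ k * t) g x) ^ 2 with hc
    set d := ∑ x, (Qf n (2 ^ (k + 1) * t) g x) ^ 2 with hd
    have ha0 : 0 ≤ a := Finset.sum_nonneg fun _ _ => sq_nonneg _
    have hb0 : 0 ≤ b := Finset.sum_nonneg fun _ _ => sq_nonneg _
    have hc0 : 0 ≤ c := Finset.sum_nonneg fun _ _ => sq_nonneg _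
    have hd0 : 0 ≤ d := Finset.sum_nonneg fun _ _ => sq_nonneg _
    have h1 : c ^ 2 ≤ b * d := by
      have h2 := Qf_sq (n := n) (2 ^ k * t) g
      rw [← two_mul, ← mul_assoc, ← pow_succ'] at h2
      exact h2
    rcases hb0.eq_or_lt with h0 | hpos
    · rw [← h0]
      have h2 : (0 : ℝ) ^ (2 ^ (k + 1)) = 0 := zero_pow (by positivity)
      rw [h2]
      simp
    · have h3 : (a ^ (2 ^ k) * b) ^ 2 ≤ (b ^ (2 ^ k) * c) ^ 2 :=
        pow_le_pow_left₀ (by positivity) ih 2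
      have h4 : (a ^ (2 ^ (k + 1)) * b) * b ≤ (b ^ (2 ^ (k + 1)) * d) * b := by
        calc (a ^ (2 ^ (k + 1)) * b) * b = (a ^ (2 ^ k) * b) ^ 2 := by ring
          _ ≤ (b ^ (2 ^ k) * c) ^ 2 := h3
          _ = b ^ (2 ^ (k + 1)) * c ^ 2 := by ring
          _ ≤ b ^ (2 ^ (k + 1)) * (b * d) := by gcongr
          _ = (b ^ (2 ^ (k + 1)) * d) * b := by ring
      exact le_of_mul_le_mul_right h4 hpos

end contraction

theorem gap : ∃ c : ℝ, 0 < c ∧ ∀ (n : ℕ) (g : Un n → ℝ) (s : ℝ), 0 ≤ s →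
    ∑ x, (∑ y, g y * tr n s y x - (∑ y, g y) / (Fintype.card (Un n) : ℝ)) ^ 2
      ≤ Real.exp (-(2 * c * s)) * ∑ x, (g x) ^ 2 := by
  obtain ⟨κ, hκ, h⟩ := tr_conv
  refine ⟨κ, hκ, fun n g s hs => ?_⟩
  obtain ⟨C, hC, h1⟩ := h n
  have e : ∀ x, ∑ y, g y * tr n s y x - (∑ y, g y) / (Fintype.card (Un n) : ℝ) = Qf n s g x := by
    intro x
    simp only [Qf, Qk, mul_sub, Finset.sum_sub_distrib, ← Finset.sum_mul]
    ring
  simp only [e]
  set b := ∑ x, (g x) ^ 2 with hb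
  set a := ∑ x, (Qf n s g x) ^ 2 with ha
  have ha0 : 0 ≤ a := Finset.sum_nonneg fun _ _ => sq_nonneg _
  have hb0 : 0 ≤ b := Finset.sum_nonneg fun _ _ => sq_nonneg _
  set N : ℝ := (Fintype.card (Un n) : ℝ) with hN
  -- crude bound
  have h2 : ∀ t : ℝ, 0 ≤ t → ∑ x, (Qf n t g x) ^ 2 ≤
      (N ^ 2 * C ^ 2) * Real.exp (-(2 * κ * t)) * b := by
    intro t ht
    have h3 : ∀ x, (Qf n t g x) ^ 2 ≤ b * (N * (C * Real.exp (-(κ * t))) ^ 2) := by
      intro x
      refine le_trans (Finset.sum_mul_sq_le_sq_mul_sq _ _ _) ?_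
      refine mul_le_mul_of_nonneg_left ?_ hb0
      have h4 : ∀ y ∈ (univ : Finset (Un n)), (Qk n t y x) ^ 2 ≤
          (C * Real.exp (-(κ * t))) ^ 2 := by
        intro y _
        rw [← sq_abs]
        exact pow_le_pow_left₀ (abs_nonneg _) (h1 t ht y x) 2
      refine le_trans (Finset.sum_le_sum h4) ?_
      rw [Finset.sum_const, Finset.card_univ, nsmul_eq_mul]
    refine le_trans (Finset.sum_le_sum fun x _ => h3 x) ?_
    rw [Finset.sum_const, Finset.card_univ, nsmul_eq_mul, ← hN]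
    apply le_of_eq
    have h5 : Real.exp (-(2 * κ * t)) = Real.exp (-(κ * t)) ^ 2 := by
      rw [← Real.exp_nat_mul]
      congr 1
      push_cast
      ring
    rw [h5]
    ring
  rcases hb0.eq_or_lt with h0 | hpos
  · have h3 := h2 s hs
    rw [← h0, mul_zero] at h3 ⊢
    exact h3
  · by_contra hcon
    push Not at hcon
    set q := a / b * Real.exp (2 * κ * s) with hq
    have hq1 : 1 < q := by
      rw [hq, div_mul_eq_mul_div, one_lt_div hpos]
      have h3 := mul_lt_mul_of_pos_right hcon (Real.exp_pos (2 * κ * s))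
      have h4 : Real.exp (-(2 * κ * s)) * b * Real.exp (2 * κ * s) = b := by
        rw [mul_right_comm, ← Real.exp_add]
        simp
      linarith
    have hbd : ∀ k : ℕ, q ^ (2 ^ k) ≤ N ^ 2 * C ^ 2 := by
      intro k
      have h3 := Qf_iter (n := n) s g k
      rw [← ha, ← hb] at h3
      have h4 := h2 (2 ^ k * s) (by positivity)
      have h5 : a ^ (2 ^ k) * b ≤ b ^ (2 ^ k) * ((N ^ 2 * C ^ 2) *
          Real.exp (-(2 * κ * (2 ^ k * s))) * b) :=
        h3.trans (mul_le_mul_of_nonneg_left h4 (by positivity))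
      have h6 : a ^ (2 ^ k) ≤ b ^ (2 ^ k) * ((N ^ 2 * C ^ 2) *
          Real.exp (-(2 * κ * (2 ^ k * s)))) := by
        have h7 : a ^ (2 ^ k) * b ≤ (b ^ (2 ^ k) * ((N ^ 2 * C ^ 2) *
          Real.exp (-(2 * κ * (2 ^ k * s))))) * b := by
          refine h5.trans (le_of_eq ?_)
          ring
        exact le_of_mul_le_mul_right h7 hpos
      have h8 : Real.exp (2 * κ * s) ^ (2 ^ k) * Real.exp (-(2 * κ * (2 ^ k * s))) = 1 := by
        rw [← Real.exp_nat_mul, ← Real.exp_add]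
        rw [Real.exp_eq_one_iff]
        push_cast
        ring
      rw [hq, mul_pow, div_pow, div_mul_eq_mul_div, div_le_iff₀ (by positivity)]
      calc a ^ (2 ^ k) * Real.exp (2 * κ * s) ^ (2 ^ k)
          ≤ (b ^ (2 ^ k) * ((N ^ 2 * C ^ 2) * Real.exp (-(2 * κ * (2 ^ k * s))))) *
            Real.exp (2 * κ * s) ^ (2 ^ k) := mul_le_mul_of_nonneg_right h6 (by positivity)
        _ = N ^ 2 * C ^ 2 * b ^ (2 ^ k) * (Real.exp (2 * κ * s) ^ (2 ^ k) *
            Real.exp (-(2 * κ * (2 ^ k * s)))) := by ring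
        _ = N ^ 2 * C ^ 2 * b ^ (2 ^ k) := by rw [h8, mul_one]
    obtain ⟨m, hm⟩ := pow_unbounded_of_one_lt (N ^ 2 * C ^ 2) hq1
    have h3 : m ≤ 2 ^ m := Nat.lt_two_pow_self.le
    have h4 := pow_le_pow_right₀ hq1.le h3
    exact absurd (hbd m) (not_le.mpr (lt_of_lt_of_le hm h4))

end Pool.Agent.CutSeq
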