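import Pool.Agent.CutSeq.Ent
import Pool.Agent.CutSeq.Gap

/-! Row FIN: from small entropy to small distance in continuous time. -/

set_option autoImplicit false

namespace Pool.Agent.CutSeq

open Finset

namespace FinRow

theorem uw_nonneg {B L : ℕ} (ω : Wd B L) : 0 ≤ uw B L ω := by
  unfold uw
  positivity

theorem ind_nonneg {Ω : Type*} (G : Set Ω) (w : Ω → ℝ) (hw : ∀ ω, 0 ≤ w ω) (ω : Ω) :
    0 ≤ ind G w ω := Set.indicator_nonneg (fun ω _ => hw ω) ω

theorem mass_nonneg {Ω A : Type*} [Fintype Ω] (w : Ω → ℝ) (hw : ∀ ω, 0 ≤ w ω) (X : Ω → A) (a : A) :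
    0 ≤ mass w X a := by
  classical
  unfold mass
  refine sum_nonneg fun ω _ => ?_
  split_ifs
  · exact hw ω
  · exact le_rfl

theorem le_mass {Ω A : Type*} [Fintype Ω] (w : Ω → ℝ) (hw : ∀ ω, 0 ≤ w ω) (X : Ω → A) (ω : Ω) :
    w ω ≤ mass w X (X ω) := by
  classical
  unfold mass
  have h := single_le_sum (f := fun ω' => if X ω' = X ω then w ω' else 0) (s := univ)
    (fun ω' _ => by
      show (0 : ℝ) ≤ if X ω' = X ω then w ω' else 0
      split_ifs
      · exact hw ω'
      · exact le_rfl) (mem_univ ω)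
  simpa using h

/-- integration along the fibres -/
theorem sum_mass {Ω A : Type*} [Fintype Ω] [Fintype A] (w : Ω → ℝ) (X : Ω → A) (f : A → ℝ) :
    ∑ a, mass w X a * f a = ∑ ω, w ω * f (X ω) := by
  classical
  unfold mass
  have h1 : ∀ a : A, (∑ ω, if X ω = a then w ω else 0) * f a
      = ∑ ω, (if X ω = a then w ω else 0) * f a := fun a => Finset.sum_mul _ _ _
  rw [sum_congr rfl fun a _ => h1 a, sum_comm]
  refine sum_congr rfl fun ω _ => ?_
  simp

theorem sum_mass_one {Ω A : Type*} [Fintype Ω] [Fintype A] (w : Ω → ℝ) (X : Ω → A) :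
    ∑ a, mass w X a = tot w := by
  have := sum_mass w X (fun _ => 1)
  simpa [tot] using this

theorem mass_unit {Ω : Type*} [Fintype Ω] (w : Ω → ℝ) :
    mass w (fun _ => ()) () = tot w := by
  simp [mass, tot]

theorem mass_pair_unit {Ω A : Type*} [Fintype Ω] (w : Ω → ℝ) (X : Ω → A) (a : A) :
    mass w (fun ω => (X ω, ())) (a, ()) = mass w X a := by
  classical
  unfold mass
  refine sum_congr rfl fun ω _ => ?_
  simp

end FinRow

/-- the part of large density has small weight -/
theorem truncation {Ω A : Type*} [Fintype Ω] [Fintype A] (w : Ω → ℝ) (hw : ∀ ω, 0 ≤ w ω)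
    (htot : tot w ≤ 1) (X : Ω → A) (R : ℝ) (hR : 0 < R) :
    tot (ind {ω | Real.exp R * tot w ≤ Fintype.card A * mass w X (X ω)} w) ≤ (K0 w X + 1) / R := by
  classical
  have hK : K0 w X = ∑ ω, w ω * Real.log (Fintype.card A * mass w X (X ω) / tot w) := by
    unfold K0 KK
    refine sum_congr rfl fun ω _ => ?_
    rw [FinRow.mass_unit, FinRow.mass_pair_unit]
  have ht0 : 0 ≤ tot w := sum_nonneg fun ω _ => hw ω
  -- the error term
  have herr : ∑ ω, w ω * (tot w / (Fintype.card A * mass w X (X ω))) ≤ 1 := by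
    rw [← FinRow.sum_mass w X (fun a => tot w / (Fintype.card A * mass w X a))]
    calc ∑ a, mass w X a * (tot w / (Fintype.card A * mass w X a))
        ≤ ∑ _a : A, tot w / Fintype.card A := by
          refine sum_le_sum fun a _ => ?_
          have hm := FinRow.mass_nonneg w hw X a
          rcases hm.eq_or_lt with h0 | h0
          · rw [← h0, zero_mul]
            positivity
          · have hc : 0 < Fintype.card A := Fintype.card_pos_iff.mpr ⟨a⟩
            have hc' : (0 : ℝ) < Fintype.card A := by exact_mod_cast hc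
            have : mass w X a * (tot w / (Fintype.card A * mass w X a))
                = tot w / Fintype.card A := by
              field_simp
            rw [this]
      _ ≤ 1 := by
          rw [sum_const, card_univ, nsmul_eq_mul]
          rcases Nat.eq_zero_or_pos (Fintype.card A) with h0 | h0
          · rw [h0]
            simp
          · have hc' : (Fintype.card A : ℝ) ≠ 0 := by
              have : (0 : ℝ) < Fintype.card A := by exact_mod_cast h0
              exact this.ne'
            rw [mul_div_cancel₀ _ hc']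
            exact htot
  rw [le_div_iff₀ hR]
  have hmain : tot (ind {ω | Real.exp R * tot w ≤ Fintype.card A * mass w X (X ω)} w) * R
      ≤ ∑ ω, (w ω * Real.log (Fintype.card A * mass w X (X ω) / tot w)
        + w ω * (tot w / (Fintype.card A * mass w X (X ω)))) := by
    unfold tot
    rw [sum_mul]
    refine sum_le_sum fun ω _ => ?_
    rw [← tot]
    rcases (hw ω).eq_or_lt with h0 | h0
    · have h1 : ind {ω | Real.exp R * tot w ≤ Fintype.card A * mass w X (X ω)} w ω = 0 := by
        unfold ind
        by_cases h : ω ∈ {ω | Real.exp R * tot w ≤ Fintype.card A * mass w X (X ω)}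
        · rw [Set.indicator_of_mem h, ← h0]
        · rw [Set.indicator_of_notMem h]
      rw [h1, ← h0]
      simp
    · have hm : 0 < mass w X (X ω) := lt_of_lt_of_le h0 (FinRow.le_mass w hw X ω)
      have ht : 0 < tot w := lt_of_lt_of_le h0 (single_le_sum (f := w) (fun ω _ => hw ω)
        (mem_univ ω))
      have hc : 0 < Fintype.card A := Fintype.card_pos_iff.mpr ⟨X ω⟩
      have hc' : (0 : ℝ) < Fintype.card A := by exact_mod_cast hc
      set f : ℝ := Fintype.card A * mass w X (X ω) / tot w with hf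
      have hf0 : 0 < f := by positivity
      have hinv : tot w / (Fintype.card A * mass w X (X ω)) = f⁻¹ := by
        rw [hf, inv_div]
      rw [hinv, ← mul_add]
      have h1 : 1 - f⁻¹ ≤ Real.log f := Real.one_sub_inv_le_log_of_pos hf0
      by_cases h : ω ∈ {ω | Real.exp R * tot w ≤ Fintype.card A * mass w X (X ω)}
      · have e1 : ind {ω | Real.exp R * tot w ≤ Fintype.card A * mass w X (X ω)} w ω = w ω :=
          Set.indicator_of_mem h w
        rw [e1]
        refine mul_le_mul_of_nonneg_left ?_ h0.le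
        have h2 : Real.exp R ≤ f := by
          rw [hf, le_div_iff₀ ht]
          exact h
        have h3 : R ≤ Real.log f := (Real.le_log_iff_exp_le hf0).mpr h2
        have h4 : 0 < f⁻¹ := by positivity
        linarith
      · have e1 : ind {ω | Real.exp R * tot w ≤ Fintype.card A * mass w X (X ω)} w ω = 0 :=
          Set.indicator_of_notMem h w
        rw [e1, zero_mul]
        refine mul_nonneg h0.le ?_
        linarith
  rw [sum_add_distrib, ← hK] at hmain
  linarith

namespace FinRow

/-- the array after zero letters -/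
theorem mm_zero (α : Seq) (n : ℕ) : mm α 0 n = 0 := by
  funext k j
  have h : k.val ≠ j.val := (j.isLt).ne'
  simp [mm, pre, arr, row, Mst, h]

theorem mulU_zero {n : ℕ} (g : Un n) : mulU g 0 = g := by
  funext k j
  simp [mulU]

theorem past_univ {B L : ℕ} (l : ℕ) : Past l (Set.univ : Set (Wd B L)) := fun _ _ _ => Iff.rfl

theorem ind_univ {Ω : Type*} (w : Ω → ℝ) : ind Set.univ w = w := Set.indicator_univ w

/-- the law of the array does not depend on the length of the words -/
theorem mass_word {B L l N : ℕ} (hB : 0 < B) (hl : l ≤ L) (x : Un N) :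
    mass (uw B L) (fun ω => mm (ext ω) l N) x = lw B l N x := by
  classical
  have h := mass_past (B := B) (L := L) (n := N) (l := 0) (j := l) (by omega) Set.univ
    (past_univ 0) x
  rw [ind_univ] at h
  have h0 : ∀ y : Un N, mass (uw B L) (fun ω => mm (ext ω) 0 N) y = if y = 0 then 1 else 0 := by
    intro y
    simp_rw [mm_zero]
    unfold mass
    by_cases hy : y = 0
    · subst hy
      simp only [if_true]
      exact tot_uw hB
    · rw [if_neg hy]
      refine sum_eq_zero fun ω _ => ?_
      rw [if_neg (fun h => hy h.symm)]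
  simp_rw [h0] at h
  have h1 : (fun ω : Wd B L => mm (ext ω) (0 + l) N) = fun ω => mm (ext ω) l N := by
    simp
  rw [h1] at h
  rw [h]
  have h2 : ∀ g : Un N, (∑ y : Un N, if mulU g y = x then lw B l N g * (if y = 0 then 1 else 0)
      else 0) = if g = x then lw B l N g else 0 := by
    intro g
    rw [sum_eq_single (0 : Un N)]
    · rw [mulU_zero]
      simp
    · intro y _ hy
      rw [if_neg hy]
      simp
    · intro h3
      exact absurd (mem_univ _) h3
  simp_rw [h2]
  simp

/-- left multiplication of a weight by an independent slab -/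
noncomputable def QQ (B j n : ℕ) (a : Un n → ℝ) (x : Un n) : ℝ :=
  ∑ g : Un n, ∑ y : Un n, if mulU g y = x then lw B j n g * a y else 0

theorem lw_nonneg (B j n : ℕ) (x : Un n) : 0 ≤ lw B j n x := mass_nonneg _ uw_nonneg _ _

theorem QQ_nonneg (B j n : ℕ) (a : Un n → ℝ) (ha : ∀ y, 0 ≤ a y) (x : Un n) :
    0 ≤ QQ B j n a x := by
  refine sum_nonneg fun g _ => sum_nonneg fun y _ => ?_
  split_ifs
  · exact mul_nonneg (lw_nonneg B j n g) (ha y)
  · exact le_rfl

theorem QQ_le (B j n : ℕ) (hB : 0 < B) (a : Un n → ℝ) (C : ℝ) (ha : ∀ y, a y ≤ C) (x : Un n) :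
    QQ B j n a x ≤ C := by
  classical
  have h1 : ∀ g : Un n, (∑ y : Un n, if mulU g y = x then lw B j n g * a y else 0)
      ≤ lw B j n g * C := by
    intro g
    obtain ⟨y₀, hy₀⟩ := (mulU_bijective g).2 x
    rw [sum_eq_single y₀]
    · rw [if_pos hy₀]
      exact mul_le_mul_of_nonneg_left (ha y₀) (lw_nonneg B j n g)
    · intro y _ hy
      rw [if_neg]
      intro h
      exact hy ((mulU_bijective g).1 (h.trans hy₀.symm))
    · intro h
      exact absurd (mem_univ _) h
  calc QQ B j n a x ≤ ∑ g : Un n, lw B j n g * C := sum_le_sum fun g _ => h1 g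
    _ = C := by rw [← sum_mul, lw_sum B j n hB, one_mul]

theorem QQ_sum (B j n : ℕ) (hB : 0 < B) (a : Un n → ℝ) : ∑ x, QQ B j n a x = ∑ y, a y := by
  classical
  unfold QQ
  rw [sum_comm]
  have h1 : ∀ g : Un n, (∑ x : Un n, ∑ y : Un n, if mulU g y = x then lw B j n g * a y else 0)
      = lw B j n g * ∑ y, a y := by
    intro g
    rw [sum_comm, mul_sum]
    refine sum_congr rfl fun y _ => ?_
    simp
  simp_rw [h1]
  rw [← sum_mul, lw_sum B j n hB, one_mul]

theorem QQ_mono (B j n : ℕ) (a a' : Un n → ℝ) (h : ∀ y, a y ≤ a' y) (x : Un n) :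
    QQ B j n a x ≤ QQ B j n a' x := by
  refine sum_le_sum fun g _ => sum_le_sum fun y _ => ?_
  split_ifs
  · exact mul_le_mul_of_nonneg_left (h y) (lw_nonneg B j n g)
  · exact le_rfl

/-- the law after more letters -/
theorem lw_add {B l j N : ℕ} (hB : 0 < B) (x : Un N) :
    lw B (l + j) N x = QQ B j N (lw B l N) x := by
  have h := mass_past (B := B) (L := l + j) (n := N) (l := l) (j := j) le_rfl Set.univ
    (past_univ l) x
  rw [ind_univ] at h
  unfold lw at h ⊢
  unfold QQ
  rw [h]
  refine sum_congr rfl fun g _ => sum_congr rfl fun y _ => ?_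
  have h1 := mass_word (B := B) (L := l + j) (l := l) (N := N) hB (Nat.le_add_right l j) y
  unfold lw at h1
  unfold lw
  rw [h1]

theorem ct_sum (n : ℕ) (t : ℝ) : ∑ x, ct n t x = 1 := by
  simp_rw [ct_eq_tr]
  exact tr_sum n t 0

theorem ct_nonneg (n : ℕ) {t : ℝ} (ht : 0 ≤ t) (x : Un n) : 0 ≤ ct n t x := by
  rw [ct_eq_tr]
  exact tr_nonneg n ht 0 x

end FinRow

theorem finish (c : ℝ) (hc : ∀ (n : ℕ) (g : Un n → ℝ) (s : ℝ), 0 ≤ s →
      ∑ x, (∑ y, g y * tr n s y x - (∑ y, g y) / (Fintype.card (Un n) : ℝ)) ^ 2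
        ≤ Real.exp (-(2 * c * s)) * ∑ x, (g x) ^ 2)
    (B L N l : ℕ) (hB : 0 < B) (hN : N ≤ B + 1) (hl : l ≤ L) (G : Set (Wd B L)) (hG : Past l G)
    (K q R : ℝ) (hK : K0 (ind G (uw B L)) (fun ω => mm (ext ω) l N) ≤ K)
    (hq : pr (uw B L) Gᶜ ≤ q) (hR : 0 < R) (t s : ℝ) (ht : 0 ≤ t) (hs : 0 ≤ s) :
    dd N (t + s) ≤ ∑ j ∈ range l, pois (B * t) j + q + (K + 1) / R + Real.exp (R / 2 - c * s) := by
  classical
  have hBt : (0 : ℝ) ≤ B * t := by positivity
  set card : ℝ := (Fintype.card (Un N) : ℝ) with hcard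
  have hcard0 : 0 < card := by
    have : 0 < Fintype.card (Un N) := Fintype.card_pos_iff.mpr ⟨0⟩
    rw [hcard]
    exact_mod_cast this
  -- the weights
  set w : Wd B L → ℝ := ind G (uw B L) with hw
  have hw0 : ∀ ω, 0 ≤ w ω := FinRow.ind_nonneg G _ FinRow.uw_nonneg
  have htot : tot w ≤ 1 := by
    rw [← tot_uw (B := B) (L := L) hB]
    refine sum_le_sum fun ω _ => ?_
    rw [hw]
    unfold ind
    by_cases h : ω ∈ G
    · rw [Set.indicator_of_mem h]
    · rw [Set.indicator_of_notMem h]
      exact FinRow.uw_nonneg ω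
  have htotq : 1 - q ≤ tot w := by
    have h1 : tot w + pr (uw B L) Gᶜ = 1 := by
      rw [← tot_uw (B := B) (L := L) hB]
      unfold pr tot
      rw [← sum_add_distrib]
      refine sum_congr rfl fun ω _ => ?_
      rw [hw]
      unfold ind
      by_cases h : ω ∈ G
      · rw [Set.indicator_of_mem h, Set.indicator_of_notMem (show ω ∉ Gᶜ from fun h' => h' h), add_zero]
      · rw [Set.indicator_of_notMem h, Set.indicator_of_mem (show ω ∈ Gᶜ from h), zero_add]
    linarith
  set X : Wd B L → Un N := fun ω => mm (ext ω) l N with hX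
  set a : Un N → ℝ := mass w X with ha
  have ha0 : ∀ y, 0 ≤ a y := FinRow.mass_nonneg w hw0 X
  have haL : ∀ y, a y ≤ lw B l N y := by
    intro y
    rw [← FinRow.mass_word (L := L) hB hl y, ha]
    unfold mass
    refine sum_le_sum fun ω _ => ?_
    split_ifs
    · rw [hw]
      unfold ind
      by_cases h : ω ∈ G
      · rw [Set.indicator_of_mem h]
      · rw [Set.indicator_of_notMem h]
        exact FinRow.uw_nonneg ω
    · exact le_rfl
  -- truncation
  let a₁ : Un N → ℝ := fun y => if Real.exp R * tot w ≤ card * a y then 0 else a y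
  have ha₁0 : ∀ y, 0 ≤ a₁ y := fun y => by
    simp only [a₁]
    split_ifs
    · exact le_rfl
    · exact ha0 y
  have ha₁le : ∀ y, a₁ y ≤ a y := fun y => by
    simp only [a₁]
    split_ifs
    · exact ha0 y
    · exact le_rfl
  have ha₁C : ∀ y, a₁ y ≤ Real.exp R / card := fun y => by
    simp only [a₁]
    split_ifs with h
    · positivity
    · rw [le_div_iff₀ hcard0]
      push Not at h
      have h1 : Real.exp R * tot w ≤ Real.exp R * 1 :=
        mul_le_mul_of_nonneg_left htot (Real.exp_pos R).le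
      linarith
  have hsum_a : ∑ y, a y = tot w := FinRow.sum_mass_one w X
  have ha₁sum : tot w - (K + 1) / R ≤ ∑ y, a₁ y := by
    have h1 := truncation w hw0 htot X R hR
    have h2 : (K0 w X + 1) / R ≤ (K + 1) / R := by
      have : K0 w X ≤ K := hK
      gcongr
    have h3 : ∑ y, a y - ∑ y, a₁ y
        = tot (ind {ω | Real.exp R * tot w ≤ Fintype.card (Un N) * mass w X (X ω)} w) := by
      rw [← sum_sub_distrib]
      have h4 : ∀ y, a y - a₁ y
          = mass w X y * (if Real.exp R * tot w ≤ card * mass w X y then 1 else 0) := by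
        intro y
        simp only [a₁, ha]
        split_ifs <;> ring
      simp_rw [h4]
      rw [FinRow.sum_mass w X
        (fun y => if Real.exp R * tot w ≤ card * mass w X y then (1 : ℝ) else 0)]
      unfold tot
      refine sum_congr rfl fun ω _ => ?_
      rw [← tot]
      unfold ind
      by_cases h : Real.exp R * tot w ≤ card * mass w X (X ω)
      · rw [if_pos h, mul_one, Set.indicator_of_mem (show ω ∈ {ω | Real.exp R * tot w
          ≤ Fintype.card (Un N) * mass w X (X ω)} from h)]
      · rw [if_neg h, mul_zero, Set.indicator_of_notMem (show ω ∉ {ω | Real.exp R * tot w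
          ≤ Fintype.card (Un N) * mass w X (X ω)} from h)]
    linarith
  -- the good part of the law in continuous time
  let f₁ : ℕ → Un N → ℝ := fun L' x => if L' < l then 0 else FinRow.QQ B (L' - l) N a₁ x
  have hf₁0 : ∀ L' x, 0 ≤ f₁ L' x := fun L' x => by
    simp only [f₁]
    split_ifs
    · exact le_rfl
    · exact FinRow.QQ_nonneg _ _ _ _ ha₁0 x
  have hf₁C : ∀ L' x, f₁ L' x ≤ Real.exp R / card := fun L' x => by
    simp only [f₁]
    split_ifs
    · positivity
    · exact FinRow.QQ_le _ _ _ hB _ _ ha₁C x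
  have hf₁lw : ∀ L' x, f₁ L' x ≤ lw B L' N x := fun L' x => by
    simp only [f₁]
    split_ifs with h
    · exact FinRow.lw_nonneg _ _ _ _
    · have h1 : L' = l + (L' - l) := by omega
      conv_rhs => rw [h1]
      rw [FinRow.lw_add hB]
      exact FinRow.QQ_mono _ _ _ _ _ (fun y => (ha₁le y).trans (haL y)) x
  have hpsum := pois_hasSum ((B : ℝ) * t)
  have hsummable : ∀ x, Summable fun L' => pois (B * t) L' * f₁ L' x := fun x => by
    refine Summable.of_nonneg_of_le (fun L' => mul_nonneg (pois_nonneg hBt L') (hf₁0 L' x))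
      (fun L' => mul_le_mul_of_nonneg_left (hf₁lw L' x) (pois_nonneg hBt L'))
      (ct_hasSum B N hB hN ht x).summable
  let b : Un N → ℝ := fun x => ∑' L', pois (B * t) L' * f₁ L' x
  have hb0 : ∀ x, 0 ≤ b x := fun x => tsum_nonneg fun L' =>
    mul_nonneg (pois_nonneg hBt L') (hf₁0 L' x)
  have hbct : ∀ x, b x ≤ ct N t x := fun x => by
    rw [← (ct_hasSum B N hB hN ht x).tsum_eq]
    exact (hsummable x).tsum_le_tsum
      (fun L' => mul_le_mul_of_nonneg_left (hf₁lw L' x) (pois_nonneg hBt L'))
      (ct_hasSum B N hB hN ht x).summable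
  have hbC : ∀ x, b x ≤ Real.exp R / card := fun x => by
    have h1 : HasSum (fun L' => pois (B * t) L' * (Real.exp R / card)) (1 * (Real.exp R / card)) :=
      hpsum.mul_right _
    rw [one_mul] at h1
    rw [← h1.tsum_eq]
    exact (hsummable x).tsum_le_tsum
      (fun L' => mul_le_mul_of_nonneg_left (hf₁C L' x) (pois_nonneg hBt L')) h1.summable
  have hbsum : ∑ x, b x = (1 - ∑ j ∈ range l, pois (B * t) j) * ∑ y, a₁ y := by
    have h1 : ∑ x, b x = ∑' L', pois (B * t) L' * ∑ x, f₁ L' x := by
      simp only [b]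
      rw [← Summable.tsum_finsetSum (fun x _ => hsummable x)]
      refine tsum_congr fun L' => ?_
      rw [mul_sum]
    have h2 : ∀ L', pois (B * t) L' * ∑ x, f₁ L' x
        = (pois (B * t) L' - if L' ∈ range l then pois (B * t) L' else 0) * ∑ y, a₁ y := by
      intro L'
      by_cases h : L' < l
      · rw [if_pos (mem_range.mpr h), sub_self, zero_mul]
        simp [f₁, h]
      · rw [if_neg (by simpa using h), sub_zero]
        congr 1
        simp only [f₁, if_neg h]
        exact FinRow.QQ_sum _ _ _ hB _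
    rw [h1]
    simp_rw [h2]
    rw [tsum_mul_right]
    congr 1
    have h3 : HasSum (fun L' => if L' ∈ range l then pois (B * t) L' else 0)
        (∑ j ∈ range l, pois (B * t) j) := by
      have this : HasSum (fun L' => if L' ∈ range l then pois (B * t) L' else (0 : ℝ))
          (∑ j ∈ range l, if j ∈ range l then pois (B * t) j else (0 : ℝ)) :=
        hasSum_sum_of_ne_finset_zero (fun L' hL' => if_neg hL')
      convert this using 1
      exact sum_congr rfl fun j hj => (if_pos hj).symm
    exact (hpsum.sub h3).tsum_eq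
  have hb1 : ∑ x, b x ≤ 1 := by
    rw [← FinRow.ct_sum N t]
    exact sum_le_sum fun x _ => hbct x
  have hP0 : 0 ≤ ∑ j ∈ range l, pois (B * t) j := sum_nonneg fun j _ => pois_nonneg hBt j
  have hP1 : ∑ j ∈ range l, pois (B * t) j ≤ 1 :=
    sum_le_hasSum (range l) (fun j _ => pois_nonneg hBt j) hpsum
  have ha₁1 : ∑ y, a₁ y ≤ 1 := by
    refine (sum_le_sum fun y _ => ha₁le y).trans ?_
    rw [hsum_a]
    exact htot
  have hb2 : 1 - (∑ j ∈ range l, pois (B * t) j + q + (K + 1) / R) ≤ ∑ x, b x := by
    rw [hbsum]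
    have h1 : 0 ≤ ∑ y, a₁ y := sum_nonneg fun y _ => ha₁0 y
    nlinarith
  -- the quadratic part
  have hsq : ∑ x, (b x) ^ 2 ≤ Real.exp R / card := by
    calc ∑ x, (b x) ^ 2 ≤ ∑ x, (Real.exp R / card) * b x := by
          refine sum_le_sum fun x _ => ?_
          rw [sq]
          exact mul_le_mul_of_nonneg_right (hbC x) (hb0 x)
      _ = (Real.exp R / card) * ∑ x, b x := by rw [mul_sum]
      _ ≤ (Real.exp R / card) * 1 := mul_le_mul_of_nonneg_left hb1 (by positivity)
      _ = Real.exp R / card := mul_one _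
  have hcs : ∑ x, |∑ y, b y * tr N s y x - (∑ y, b y) / card| ≤ Real.exp (R / 2 - c * s) := by
    have h1 := hc N b s hs
    have h2 : (∑ x, |∑ y, b y * tr N s y x - (∑ y, b y) / card|) ^ 2
        ≤ card * ∑ x, (∑ y, b y * tr N s y x - (∑ y, b y) / card) ^ 2 := by
      have h3 := sq_sum_le_card_mul_sum_sq (s := (univ : Finset (Un N)))
        (f := fun x => |∑ y, b y * tr N s y x - (∑ y, b y) / card|)
      simp only [sq_abs, card_univ] at h3
      exact h3
    have h4 : (∑ x, |∑ y, b y * tr N s y x - (∑ y, b y) / card|) ^ 2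
        ≤ (Real.exp (R / 2 - c * s)) ^ 2 := by
      refine h2.trans ?_
      have h5 : card * ∑ x, (∑ y, b y * tr N s y x - (∑ y, b y) / card) ^ 2
          ≤ card * (Real.exp (-(2 * c * s)) * (Real.exp R / card)) := by
        refine mul_le_mul_of_nonneg_left ?_ hcard0.le
        exact h1.trans (mul_le_mul_of_nonneg_left hsq (Real.exp_pos _).le)
      refine h5.trans (le_of_eq ?_)
      have h6 : (Real.exp (R / 2 - c * s)) ^ 2 = Real.exp (-(2 * c * s)) * Real.exp R := by
        rw [sq, ← Real.exp_add, ← Real.exp_add]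
        congr 1
        ring
      rw [h6]
      field_simp
    exact le_of_sq_le_sq h4 (Real.exp_pos _).le
  -- conclusion
  have hF0 : ∀ z, 0 ≤ ct N t z - b z := fun z => sub_nonneg.mpr (hbct z)
  have hpt : ∀ x, |ct N (t + s) x - 1 / card|
      ≤ |∑ y, b y * tr N s y x - (∑ y, b y) / card|
        + ∑ z, (ct N t z - b z) * tr N s z x + (1 - ∑ y, b y) / card := by
    intro x
    have h1 : ct N (t + s) x - 1 / card
        = (∑ y, b y * tr N s y x - (∑ y, b y) / card)
          + ∑ z, (ct N t z - b z) * tr N s z x - (1 - ∑ y, b y) / card := by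
      rw [ct_add]
      simp_rw [sub_mul]
      rw [sum_sub_distrib]
      field_simp
      ring
    rw [h1]
    have h2 : 0 ≤ ∑ z, (ct N t z - b z) * tr N s z x :=
      sum_nonneg fun z _ => mul_nonneg (hF0 z) (tr_nonneg N hs z x)
    have h3 : 0 ≤ (1 - ∑ y, b y) / card := div_nonneg (by linarith) hcard0.le
    have h4 := abs_add_le (∑ y, b y * tr N s y x - (∑ y, b y) / card)
      (∑ z, (ct N t z - b z) * tr N s z x - (1 - ∑ y, b y) / card)
    have h5 : |∑ z, (ct N t z - b z) * tr N s z x - (1 - ∑ y, b y) / card|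
        ≤ ∑ z, (ct N t z - b z) * tr N s z x + (1 - ∑ y, b y) / card := by
      rw [abs_le]
      constructor <;> linarith
    rw [add_sub_assoc]
    linarith
  have hsumF : ∑ x, ∑ z, (ct N t z - b z) * tr N s z x = 1 - ∑ y, b y := by
    rw [sum_comm]
    have h1 : ∀ z, ∑ x, (ct N t z - b z) * tr N s z x = ct N t z - b z := fun z => by
      rw [← mul_sum, tr_sum, mul_one]
    simp_rw [h1]
    rw [sum_sub_distrib, FinRow.ct_sum]
  have hfinal : ∑ x, |ct N (t + s) x - 1 / card|
      ≤ Real.exp (R / 2 - c * s) + 2 * (1 - ∑ y, b y) := by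
    calc ∑ x, |ct N (t + s) x - 1 / card|
        ≤ ∑ x, (|∑ y, b y * tr N s y x - (∑ y, b y) / card|
          + ∑ z, (ct N t z - b z) * tr N s z x + (1 - ∑ y, b y) / card) :=
          sum_le_sum fun x _ => hpt x
      _ = ∑ x, |∑ y, b y * tr N s y x - (∑ y, b y) / card|
          + (1 - ∑ y, b y) + (1 - ∑ y, b y) := by
          rw [sum_add_distrib, sum_add_distrib, hsumF, sum_const, card_univ, nsmul_eq_mul,
            ← hcard, mul_div_cancel₀ _ hcard0.ne']
      _ ≤ Real.exp (R / 2 - c * s) + 2 * (1 - ∑ y, b y) := by linarith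
  have hexp := Real.exp_pos (R / 2 - c * s)
  unfold dd
  rw [← hcard]
  linarith

end Pool.Agent.CutSeq
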