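import Pool.Agent.CutSeq.Stage

/-! Row ITER: the stages, one after another. -/

set_option autoImplicit false

namespace Pool.Agent.CutSeq

open Finset Filter

namespace Iter

/-- the number of stages is small compared with a power of `N` -/
theorem exists_large (κ : ℝ) (hκ : 0 < κ) : ∃ N₀ : ℕ, ∀ N ≥ N₀,
    (1 + 2 * Real.log N) * (N : ℝ) ^ (-(1 / 16) : ℝ) ≤ κ := by
  have h1 : Tendsto (fun x : ℝ => Real.log x / x ^ (1 / 16 : ℝ)) atTop (nhds 0) :=
    (isLittleO_log_rpow_atTop (by norm_num : (0 : ℝ) < 1 / 16)).tendsto_div_nhds_zero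
  have h2 : Tendsto (fun x : ℝ => x ^ (-(1 / 16) : ℝ)) atTop (nhds 0) :=
    tendsto_rpow_neg_atTop (by norm_num : (0 : ℝ) < 1 / 16)
  have h3 : Tendsto (fun x : ℝ => x ^ (-(1 / 16) : ℝ) + 2 * (Real.log x / x ^ (1 / 16 : ℝ)))
      atTop (nhds 0) := by
    have := h2.add (h1.const_mul 2)
    simpa using this
  have h4 := (h3.comp tendsto_natCast_atTop_atTop).eventually (ge_mem_nhds hκ)
  rw [eventually_atTop] at h4
  obtain ⟨N₀, hN₀⟩ := h4
  refine ⟨N₀, fun N hN => ?_⟩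
  have h5 := hN₀ N hN
  simp only [Function.comp_apply] at h5
  have h6 : Real.log N / (N : ℝ) ^ (1 / 16 : ℝ) = Real.log N * (N : ℝ) ^ (-(1 / 16) : ℝ) := by
    rw [Real.rpow_neg (Nat.cast_nonneg N), div_eq_mul_inv]
  rw [h6] at h5
  linarith

/-- geometric sums -/
theorem geom_le (ρ c : ℝ) (h0 : 0 ≤ ρ) (hc : 0 < c) (h : c * (1 - ρ) = 1) (J : ℕ) :
    ∑ j ∈ range J, ρ ^ j ≤ c := by
  have h1 : ∀ J : ℕ, ∑ j ∈ range J, ρ ^ j = c * (1 - ρ ^ J) := by
    intro J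
    induction J with
    | zero => simp
    | succ J ih =>
      rw [sum_range_succ, ih, pow_succ]
      linear_combination (-ρ ^ J) * h
  rw [h1]
  have h2 : 0 ≤ ρ ^ J := pow_nonneg h0 J
  nlinarith

/-- monotonicity in the entropy bound -/
theorem fam_mono {B L : ℕ} {Λ : ℕ → ℝ} {r : ℝ} {y Nmax : ℕ} {D D' q : ℝ}
    {G : ℕ → ℕ → Set (Wd B L)} (h : Fam B L Λ r y Nmax D q G) (hD : D ≤ D') :
    Fam B L Λ r y Nmax D' q G :=
  ⟨h.lev, h.anti, h.loss, fun n l hl hr => (h.ent n l hl hr).trans hD⟩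

end Iter

theorem iteration (u : ℝ) (hu0 : 0 < u) (hu : u < Pool.Agent.UTM.Es.vv) (CL : ℝ) (hCL : 1 ≤ CL)
    (e₀ d η : ℝ) (he₀ : 0 < e₀) (hd : 0 < d) (hη : 0 < η) :
    ∃ s₀ : ℝ, 0 < s₀ ∧ ∃ q₀ : ℝ, 0 < q₀ ∧ ∃ N₀ : ℕ, ∀ N ≥ N₀, ∀ (B L : ℕ), B = 4 * N →
      (L : ℝ) ≤ CL * N * B → ∀ Λ : ℕ → ℝ, 0 < Λ 0 → (∀ n, Λ n + B / u ≤ Λ (n + 1)) →
      ∀ G : ℕ → ℕ → Set (Wd B L), Fam B L Λ 0 0 (2 * N) (s₀ * N ^ 2) q₀ G →
        ∃ (r : ℝ) (y : ℕ) (q : ℝ) (G' : ℕ → ℕ → Set (Wd B L)), 0 ≤ r ∧ r ≤ d * N * B ∧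
          (y : ℝ) ≤ d * N ∧ q ≤ η ∧ Fam B L Λ r y (2 * N) (e₀ * N) q G' := by
  obtain ⟨C, hC, N₁, hst⟩ := stage u hu0 hu CL hCL
  have hC0 : 0 < C := lt_of_lt_of_le one_pos hC
  -- the constants
  obtain ⟨a, ha0, ha1, had⟩ : ∃ a : ℝ, 0 < a ∧ 60 * C * a ≤ 1 ∧ 60 * C * a ≤ d := by
    refine ⟨min 1 d / (60 * C), by positivity, ?_, ?_⟩
    · rw [mul_div_cancel₀ _ (by positivity)]
      exact min_le_left _ _
    · rw [mul_div_cancel₀ _ (by positivity)]
      exact min_le_right _ _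
  obtain ⟨qs, hqs0, hqs1, hqsη⟩ : ∃ qs : ℝ, 0 < qs ∧ C * qs ≤ a ^ 3 * e₀ ∧ qs ≤ η := by
    refine ⟨min (a ^ 3 * e₀ / C) η, by positivity, ?_, min_le_right _ _⟩
    calc C * min (a ^ 3 * e₀ / C) η ≤ C * (a ^ 3 * e₀ / C) :=
          mul_le_mul_of_nonneg_left (min_le_left _ _) hC0.le
      _ = a ^ 3 * e₀ := by field_simp
  obtain ⟨s₀, hs0, hs1, hse⟩ : ∃ s₀ : ℝ, 0 < s₀ ∧ 15 * C * s₀ ≤ a ^ 4 * qs ∧ s₀ ≤ e₀ := by
    refine ⟨min (a ^ 4 * qs / (15 * C)) e₀, by positivity, ?_, min_le_right _ _⟩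
    calc 15 * C * min (a ^ 4 * qs / (15 * C)) e₀ ≤ 15 * C * (a ^ 4 * qs / (15 * C)) :=
          mul_le_mul_of_nonneg_left (min_le_left _ _) (by positivity)
      _ = a ^ 4 * qs := by field_simp
  obtain ⟨κ, hκ0, hκ1, hκ2, hκ3, hκ4⟩ : ∃ κ : ℝ, 0 < κ ∧ 3 * κ ≤ qs ∧ 6 * C * κ ≤ d ∧
      2 * C * κ ≤ 1 ∧ 2 * κ ≤ d := by
    refine ⟨min (min (qs / 3) (d / (6 * C))) (min (1 / (2 * C)) (d / 2)), by positivity,
      ?_, ?_, ?_, ?_⟩
    · have : min (min (qs / 3) (d / (6 * C))) (min (1 / (2 * C)) (d / 2)) ≤ qs / 3 :=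
        (min_le_left _ _).trans (min_le_left _ _)
      linarith
    · have : min (min (qs / 3) (d / (6 * C))) (min (1 / (2 * C)) (d / 2)) ≤ d / (6 * C) :=
        (min_le_left _ _).trans (min_le_right _ _)
      rw [le_div_iff₀ (by positivity)] at this
      linarith
    · have : min (min (qs / 3) (d / (6 * C))) (min (1 / (2 * C)) (d / 2)) ≤ 1 / (2 * C) :=
        (min_le_right _ _).trans (min_le_left _ _)
      rw [le_div_iff₀ (by positivity)] at this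
      linarith
    · have : min (min (qs / 3) (d / (6 * C))) (min (1 / (2 * C)) (d / 2)) ≤ d / 2 :=
        (min_le_right _ _).trans (min_le_right _ _)
      linarith
  obtain ⟨N₂, hN₂⟩ := Iter.exists_large κ hκ0
  obtain ⟨N₃, hN₃⟩ := exists_nat_ge (1 / e₀ ^ 2)
  refine ⟨s₀, hs0, qs / 3, by positivity, N₁ + N₂ + N₃ + 1, ?_⟩
  intro N hN B L hB hL Λ hΛ0 hΛ G hG
  have hN1 : 1 ≤ N := by omega
  have hNr : (1 : ℝ) ≤ N := by exact_mod_cast hN1
  have hN0 : (0 : ℝ) < N := lt_of_lt_of_le one_pos hNr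
  have hBr : (0 : ℝ) ≤ B := Nat.cast_nonneg B
  have hlogN : 0 ≤ Real.log N := Real.log_nonneg hNr
  -- the number of stages
  have hex : ∃ J : ℕ, s₀ * (N : ℝ) ^ 2 / 2 ^ J ≤ e₀ * N := by
    obtain ⟨J, hJ⟩ := exists_nat_ge (s₀ * (N : ℝ) ^ 2 / (e₀ * N))
    refine ⟨J, ?_⟩
    rw [div_le_iff₀ (by positivity)] at hJ ⊢
    have h2 : (J : ℝ) ≤ 2 ^ J := by exact_mod_cast J.lt_two_pow_self.le
    calc s₀ * (N : ℝ) ^ 2 ≤ J * (e₀ * N) := hJ
      _ ≤ 2 ^ J * (e₀ * N) := mul_le_mul_of_nonneg_right h2 (by positivity)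
      _ = e₀ * N * 2 ^ J := mul_comm _ _
  classical
  obtain ⟨J, hJ, hJmin⟩ : ∃ J : ℕ, s₀ * (N : ℝ) ^ 2 / 2 ^ J ≤ e₀ * N ∧
      ∀ j < J, e₀ * N < s₀ * (N : ℝ) ^ 2 / 2 ^ j :=
    ⟨Nat.find hex, Nat.find_spec hex, fun j hj => not_le.mp (Nat.find_min hex hj)⟩
  have hJN : (J : ℝ) ≤ 1 + 2 * Real.log N := by
    rcases Nat.eq_zero_or_pos J with h0 | h0
    · rw [h0]
      push_cast
      linarith
    · have h1 := hJmin (J - 1) (by omega)
      rw [lt_div_iff₀ (by positivity)] at h1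
      have h2 : (2 : ℝ) ^ (J - 1) < N := by
        have h3 : e₀ * N * 2 ^ (J - 1) < e₀ * N * N := by
          refine h1.trans_le ?_
          calc s₀ * (N : ℝ) ^ 2 ≤ e₀ * (N : ℝ) ^ 2 := mul_le_mul_of_nonneg_right hse (by positivity)
            _ = e₀ * N * N := by ring
        exact lt_of_mul_lt_mul_left h3 (by positivity)
      have h4 := Real.log_le_log (by positivity) h2.le
      rw [Real.log_pow] at h4
      have h5 : (1 : ℝ) / 2 ≤ Real.log 2 := by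
        have := Real.log_two_gt_d9
        linarith
      have h6 : ((J - 1 : ℕ) : ℝ) = J - 1 := by
        rw [Nat.cast_sub h0, Nat.cast_one]
      rw [h6] at h4
      have h7 : (0 : ℝ) ≤ (J : ℝ) - 1 := by
        have : (1 : ℝ) ≤ J := by exact_mod_cast h0
        linarith
      nlinarith
  set δ : ℝ := (N : ℝ) ^ (-(1 / 16) : ℝ) with hδ
  have hδ0 : 0 < δ := Real.rpow_pos_of_pos hN0 _
  have hNinv : 1 / (N : ℝ) ≤ δ := by
    rw [hδ, one_div, ← Real.rpow_neg_one]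
    exact Real.rpow_le_rpow_of_exponent_le hNr (by norm_num)
  have hκN := hN₂ N (by omega)
  rw [← hδ] at hκN
  have hJδ : (J : ℝ) * δ ≤ κ := (mul_le_mul_of_nonneg_right hJN hδ0.le).trans hκN
  have hJN' : (J : ℝ) / N ≤ κ := by
    rw [div_eq_mul_one_div]
    exact (mul_le_mul_of_nonneg_left hNinv (Nat.cast_nonneg J)).trans hJδ
  have hδκ : δ ≤ κ := by
    have : 1 * δ ≤ (1 + 2 * Real.log N) * δ :=
      mul_le_mul_of_nonneg_right (by linarith) hδ0.le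
    linarith
  let ε : ℕ → ℝ := fun j => a * (9 / 10) ^ j + δ + a * (9 / 10) ^ (J - 1 - j)
  have hε0 : ∀ j, 0 < ε j := fun j => by positivity
  have hsumε : ∀ j ≤ J, C * ∑ i ∈ range j, ε i ≤ d / 2 := by
    intro j hj
    have h1 : ∑ i ∈ range j, ε i ≤ ∑ i ∈ range J, ε i :=
      Finset.sum_le_sum_of_subset_of_nonneg (range_subset_range.mpr hj) fun i _ _ => (hε0 i).le
    have h2 : ∑ i ∈ range J, ε i = a * ∑ i ∈ range J, (9 / 10 : ℝ) ^ i + J * δ
        + a * ∑ i ∈ range J, (9 / 10 : ℝ) ^ (J - 1 - i) := by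
      simp only [ε]
      rw [Finset.sum_add_distrib, Finset.sum_add_distrib, ← Finset.mul_sum, ← Finset.mul_sum,
        Finset.sum_const, card_range, nsmul_eq_mul]
    have h3 := Iter.geom_le (9 / 10) 10 (by norm_num) (by norm_num) (by norm_num) J
    have h4 : ∑ i ∈ range J, (9 / 10 : ℝ) ^ (J - 1 - i) = ∑ i ∈ range J, (9 / 10 : ℝ) ^ i :=
      Finset.sum_range_reflect (fun i => (9 / 10 : ℝ) ^ i) J
    have h5 : a * ∑ i ∈ range J, (9 / 10 : ℝ) ^ i ≤ a * 10 := mul_le_mul_of_nonneg_left h3 ha0.le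
    have h6 : ∑ i ∈ range J, ε i ≤ 20 * a + κ := by
      rw [h2, h4]
      linarith
    calc C * ∑ i ∈ range j, ε i ≤ C * (20 * a + κ) :=
          mul_le_mul_of_nonneg_left (h1.trans h6) hC0.le
      _ ≤ d / 2 := by
          have : C * (20 * a + κ) = (60 * C * a) / 3 + (6 * C * κ) / 6 := by ring
          rw [this]
          linarith
  have hεC : ∀ j, ε j ≤ 1 / C := by
    intro j
    have h1 : (9 / 10 : ℝ) ^ j ≤ 1 := pow_le_one₀ (by norm_num) (by norm_num)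
    have h2 : (9 / 10 : ℝ) ^ (J - 1 - j) ≤ 1 := pow_le_one₀ (by norm_num) (by norm_num)
    have h3 : ε j ≤ a + δ + a := by
      simp only [ε]
      have h4 := mul_le_mul_of_nonneg_left h1 ha0.le
      have h5 := mul_le_mul_of_nonneg_left h2 ha0.le
      linarith
    rw [le_div_iff₀ hC0]
    have h4 : ε j * C ≤ (a + δ + a) * C := mul_le_mul_of_nonneg_right h3 hC0.le
    have h5 : δ * C ≤ κ * C := mul_le_mul_of_nonneg_right hδκ hC0.le
    nlinarith
  -- the induction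
  have key : ∀ j ≤ J, ∃ (r : ℝ) (y : ℕ) (q : ℝ) (G' : ℕ → ℕ → Set (Wd B L)), 0 ≤ r ∧
      r ≤ (C * ∑ i ∈ range j, ε i) * N * B ∧ (y : ℝ) ≤ (C * ∑ i ∈ range j, ε i) * N + j ∧
      0 ≤ q ∧ q ≤ qs / 3 + (C * s₀ / a ^ 4) * ∑ i ∈ range j, (4 / 5 : ℝ) ^ i + j / N ∧
      Fam B L Λ r y (2 * N) (s₀ * (N : ℝ) ^ 2 / 2 ^ j) q G' := by
    intro j
    induction j with
    | zero =>
      intro _
      refine ⟨0, 0, qs / 3, G, le_rfl, ?_, ?_, by positivity, ?_, ?_⟩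
      · simp
      · simp
      · simp
      · rw [pow_zero, div_one]
        exact hG
    | succ j ih =>
      intro hj
      obtain ⟨r, y, q, G', hr0, hr, hy, hq0, hq, hF⟩ := ih (by omega)
      have hjJ : j < J := by omega
      have hDj := hJmin j hjJ
      have hDJ := hJmin (J - 1) (by omega)
      have hpow : s₀ * (N : ℝ) ^ 2 / 2 ^ j = 2 ^ (J - 1 - j) * (s₀ * (N : ℝ) ^ 2 / 2 ^ (J - 1)) := by
        have h1 : J - 1 = j + (J - 1 - j) := by omega
        have h2 : (2 : ℝ) ^ (J - 1) = 2 ^ j * 2 ^ (J - 1 - j) := by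
          rw [← pow_add, ← h1]
        rw [h2]
        field_simp
      have hqqs : q ≤ qs := by
        have h1 := Iter.geom_le (4 / 5) 5 (by norm_num) (by norm_num) (by norm_num) j
        have h2 : C * s₀ / a ^ 4 * ∑ i ∈ range j, (4 / 5 : ℝ) ^ i ≤ C * s₀ / a ^ 4 * 5 :=
          mul_le_mul_of_nonneg_left h1 (by positivity)
        have h3 : C * s₀ / a ^ 4 * 5 ≤ qs / 3 := by
          rw [div_mul_eq_mul_div, div_le_iff₀ (by positivity)]
          linarith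
        have h4 : (j : ℝ) / N ≤ κ := by
          refine le_trans ?_ hJN'
          have : (j : ℝ) ≤ J := by exact_mod_cast hjJ.le
          exact div_le_div_of_nonneg_right this hN0.le
        linarith
      have hq3 : q * N ≤ s₀ * (N : ℝ) ^ 2 / 2 ^ j * ε j ^ 3 / C := by
        rw [le_div_iff₀ hC0]
        have h1 : a ^ 3 * ((9 / 10 : ℝ) ^ (J - 1 - j)) ^ 3 ≤ ε j ^ 3 := by
          rw [← mul_pow]
          refine pow_le_pow_left₀ (by positivity) ?_ 3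
          simp only [ε]
          have : 0 ≤ a * (9 / 10 : ℝ) ^ j := by positivity
          linarith
        have h2 : (1 : ℝ) ≤ 2 ^ (J - 1 - j) * ((9 / 10 : ℝ) ^ (J - 1 - j)) ^ 3 := by
          rw [← pow_mul, mul_comm (J - 1 - j) 3, pow_mul, ← mul_pow]
          exact one_le_pow₀ (by norm_num)
        calc q * N * C ≤ qs * N * C := by gcongr
          _ = (C * qs) * N := by ring
          _ ≤ (a ^ 3 * e₀) * N := mul_le_mul_of_nonneg_right hqs1 hN0.le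
          _ = (e₀ * N) * a ^ 3 * 1 := by ring
          _ ≤ (s₀ * (N : ℝ) ^ 2 / 2 ^ (J - 1)) * a ^ 3 *
              (2 ^ (J - 1 - j) * ((9 / 10 : ℝ) ^ (J - 1 - j)) ^ 3) := by
            gcongr
          _ = (2 ^ (J - 1 - j) * (s₀ * (N : ℝ) ^ 2 / 2 ^ (J - 1))) *
              (a ^ 3 * ((9 / 10 : ℝ) ^ (J - 1 - j)) ^ 3) := by ring
          _ ≤ s₀ * (N : ℝ) ^ 2 / 2 ^ j * ε j ^ 3 := by
            rw [hpow]
            exact mul_le_mul_of_nonneg_left h1 (by positivity)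
      have hsq : Real.sqrt N ≤ s₀ * (N : ℝ) ^ 2 / 2 ^ j := by
        refine le_trans ?_ hDj.le
        have h1 : 1 / e₀ ^ 2 ≤ N := by
          refine hN₃.trans ?_
          exact_mod_cast (show N₃ ≤ N by omega)
        have h2 : (N : ℝ) ≤ (e₀ * N) ^ 2 := by
          rw [div_le_iff₀ (by positivity)] at h1
          nlinarith
        rw [← Real.sqrt_sq (by positivity : (0 : ℝ) ≤ e₀ * N)]
        exact Real.sqrt_le_sqrt h2
      have hδε : (N : ℝ) ^ (-(1 / 16) : ℝ) ≤ ε j := by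
        rw [← hδ]
        simp only [ε]
        have h1 : 0 ≤ a * (9 / 10 : ℝ) ^ j := by positivity
        have h2 : 0 ≤ a * (9 / 10 : ℝ) ^ (J - 1 - j) := by positivity
        linarith
      obtain ⟨G'', hG''⟩ := hst N (by omega) B L hB hL Λ hΛ0 hΛ r y
        (s₀ * (N : ℝ) ^ 2 / 2 ^ j) q (ε j) G' hr0 hq0 hδε (hεC j) hsq hq3 hF
      have hD2 : s₀ * (N : ℝ) ^ 2 / 2 ^ j / 2 = s₀ * (N : ℝ) ^ 2 / 2 ^ (j + 1) := by
        rw [pow_succ (2 : ℝ) j, div_div]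
      rw [hD2] at hG''
      refine ⟨r + C * ε j * N * B, y + ⌈C * ε j * N⌉₊,
        q + C * (s₀ * (N : ℝ) ^ 2 / 2 ^ j) / (N ^ 2 * ε j ^ 4) + 1 / N, G'',
        ?_, ?_, ?_, ?_, ?_, hG''⟩
      · have := hε0 j
        positivity
      · have e1 : (C * ∑ i ∈ range (j + 1), ε i) * N * B =
            (C * ∑ i ∈ range j, ε i) * N * B + C * ε j * N * B := by
          rw [sum_range_succ]
          ring
        rw [e1]
        linarith
      · have e1 : (C * ∑ i ∈ range (j + 1), ε i) * N =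
            (C * ∑ i ∈ range j, ε i) * N + C * ε j * N := by
          rw [sum_range_succ]
          ring
        rw [e1]
        have h1 := Nat.ceil_lt_add_one (a := C * ε j * N) (by have := hε0 j; positivity)
        rw [Nat.cast_add, Nat.cast_add, Nat.cast_one]
        linarith
      · have := hε0 j
        positivity
      · have h1 : a ^ 4 * ((9 / 10 : ℝ) ^ j) ^ 4 ≤ ε j ^ 4 := by
          rw [← mul_pow]
          refine pow_le_pow_left₀ (by positivity) ?_ 4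
          simp only [ε]
          have : 0 ≤ a * (9 / 10 : ℝ) ^ (J - 1 - j) := by positivity
          linarith
        have h2 : C * (s₀ * (N : ℝ) ^ 2 / 2 ^ j) / (N ^ 2 * ε j ^ 4) ≤
            C * s₀ / a ^ 4 * (4 / 5 : ℝ) ^ j := by
          rw [div_le_iff₀ (by have := hε0 j; positivity)]
          have h3 : (1 : ℝ) ≤ (4 / 5 : ℝ) ^ j * 2 ^ j * ((9 / 10 : ℝ) ^ j) ^ 4 := by
            rw [← pow_mul, mul_comm j 4, pow_mul, ← mul_pow, ← mul_pow]
            exact one_le_pow₀ (by norm_num)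
          calc C * (s₀ * (N : ℝ) ^ 2 / 2 ^ j) = C * s₀ * N ^ 2 / 2 ^ j * 1 := by ring
            _ ≤ C * s₀ * N ^ 2 / 2 ^ j * ((4 / 5 : ℝ) ^ j * 2 ^ j * ((9 / 10 : ℝ) ^ j) ^ 4) :=
              mul_le_mul_of_nonneg_left h3 (by positivity)
            _ = C * s₀ / a ^ 4 * (4 / 5 : ℝ) ^ j * (N ^ 2 * (a ^ 4 * ((9 / 10 : ℝ) ^ j) ^ 4)) := by
              field_simp
            _ ≤ C * s₀ / a ^ 4 * (4 / 5 : ℝ) ^ j * (N ^ 2 * ε j ^ 4) := by
              refine mul_le_mul_of_nonneg_left ?_ (by positivity)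
              exact mul_le_mul_of_nonneg_left h1 (by positivity)
        rw [sum_range_succ, mul_add]
        push_cast
        rw [add_div]
        linarith
  obtain ⟨r, y, q, G', hr0, hr, hy, hq0, hq, hF⟩ := key J le_rfl
  have hE := hsumε J le_rfl
  refine ⟨r, y, q, G', hr0, ?_, ?_, ?_, Iter.fam_mono hF hJ⟩
  · refine hr.trans ?_
    have h1 : (C * ∑ i ∈ range J, ε i) * N * B ≤ d / 2 * N * B := by gcongr
    have h2 : 0 ≤ d / 2 * N * B := by positivity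
    have h3 : d * N * B = d / 2 * N * B + d / 2 * N * B := by ring
    rw [h3]
    linarith
  · refine hy.trans ?_
    have h1 : (C * ∑ i ∈ range J, ε i) * N ≤ d / 2 * N := mul_le_mul_of_nonneg_right hE hN0.le
    have h2 : (J : ℝ) ≤ κ * N := by
      rw [div_le_iff₀ hN0] at hJN'
      exact hJN'
    have h3 : κ * N ≤ d / 2 * N := mul_le_mul_of_nonneg_right (by linarith) hN0.le
    linarith
  · refine le_trans ?_ hqsη
    have h1 := Iter.geom_le (4 / 5) 5 (by norm_num) (by norm_num) (by norm_num) J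
    have h2 : C * s₀ / a ^ 4 * ∑ i ∈ range J, (4 / 5 : ℝ) ^ i ≤ C * s₀ / a ^ 4 * 5 :=
      mul_le_mul_of_nonneg_left h1 (by positivity)
    have h3 : C * s₀ / a ^ 4 * 5 ≤ qs / 3 := by
      rw [div_mul_eq_mul_div, div_le_iff₀ (by positivity)]
      linarith
    linarith

end Pool.Agent.CutSeq
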