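import Mathlib

/-!
Real array lemmas for the cutoff-along-a-subsequence argument (row (S3)).
-/

set_option autoImplicit false
open Finset

namespace Pool.Agent.CutSeq

/-- The supersolution of the recursion of row (S3). -/
noncomputable def sup3 (Bq V : ℝ) (J k j : ℕ) : ℝ :=
  ((k : ℝ) * j + (k : ℝ) * (k + 1) / 2) * Bq + V * 2 ^ k * (3 / 2 : ℝ) ^ j / (3 / 2 : ℝ) ^ J

lemma sup3_rec (Bq V : ℝ) (J k j : ℕ) :
    2 * sup3 Bq V J (k + 1) j = j * Bq + sup3 Bq V J (k + 1) (j + 1) + sup3 Bq V J k j := by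
  unfold sup3
  push_cast
  field_simp
  ring

/-- Abstract comparison for the summed array `B k j`. -/
lemma array3 (Bc : ℕ → ℕ → ℝ) (Bq V : ℝ) (J : ℕ) (hBq : 0 ≤ Bq) (hV : 0 ≤ V)
    (h0 : ∀ j ≤ J, Bc 0 j ≤ 0)
    (hJ : ∀ k, Bc k J ≤ V * k)
    (hrec : ∀ k j, j < J → 2 * Bc (k + 1) j ≤ j * Bq + Bc (k + 1) (j + 1) + Bc k j) :
    ∀ k j, j ≤ J → Bc k j ≤ sup3 Bq V J k j := by
  intro k
  induction k with
  | zero =>
    intro j hj
    refine (h0 j hj).trans ?_
    unfold sup3
    positivity
  | succ k ih =>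
    have key : ∀ i, i ≤ J → Bc (k + 1) (J - i) ≤ sup3 Bq V J (k + 1) (J - i) := by
      intro i
      induction i with
      | zero =>
        intro _
        refine (hJ (k + 1)).trans ?_
        unfold sup3
        simp only [Nat.sub_zero]
        have h1 : V * ((k + 1 : ℕ) : ℝ) ≤ V * 2 ^ (k + 1) * (3 / 2 : ℝ) ^ J / (3 / 2 : ℝ) ^ J := by
          rw [mul_div_assoc, div_self (by positivity), mul_one]
          refine mul_le_mul_of_nonneg_left ?_ hV
          exact_mod_cast (Nat.lt_two_pow_self (n := k + 1)).le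
        have h2 : 0 ≤ (((k + 1 : ℕ) : ℝ) * (J : ℝ) + ((k + 1 : ℕ) : ℝ) * (((k + 1 : ℕ) : ℝ) + 1) / 2) * Bq := by
          positivity
        linarith
      | succ i ihi =>
        intro hi
        have hlt : J - (i + 1) < J := by omega
        have h1 := hrec k (J - (i + 1)) hlt
        have h2 : J - (i + 1) + 1 = J - i := by omega
        rw [h2] at h1
        have h3 := ihi (by omega)
        have h4 := ih (J - (i + 1)) (by omega)
        have h5 := sup3_rec Bq V J k (J - (i + 1))
        rw [h2] at h5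
        linarith
    intro j hj
    have := key (J - j) (by omega)
    rwa [show J - (J - j) = j by omega] at this

lemma tele (E : ℕ → ℝ) (n0 n1 : ℕ) (h : n0 ≤ n1) :
    ∑ n ∈ Finset.Ico n0 n1, (E (n + 1) - E n) = E n1 - E n0 := by
  induction n1, h using Nat.le_induction with
  | base => simp
  | succ n hn ih =>
    rw [Finset.sum_Ico_succ_top (by omega), ih]
    ring

lemma tele_shift (E : ℕ → ℝ) (n0 n1 j : ℕ) (h : n0 ≤ n1) :
    ∑ n ∈ Finset.Ico n0 n1, (E (n + j) - E n) =
      ∑ i ∈ Finset.range j, (E (n1 + i) - E (n0 + i)) := by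
  induction j with
  | zero => simp
  | succ j ih =>
    have ht : ∑ n ∈ Finset.Ico n0 n1, (E (n + 1 + j) - E (n + j)) = E (n1 + j) - E (n0 + j) :=
      tele (fun n => E (n + j)) n0 n1 h
    rw [Finset.sum_range_succ, ← ih, ← ht, ← Finset.sum_add_distrib]
    refine Finset.sum_congr rfl fun n _ => ?_
    rw [show n + 1 + j = n + (j + 1) by ring]
    ring

/-- Row (S3), real array part.  `a k n j` is the entropy of the first `k` siblings of level `n`
given level `n + j`; `E n` the one sibling entropy; `w n` the mass of the event of level `n`;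
`Nn` bounds the entropy of one sibling. -/
theorem S3_array (a : ℕ → ℕ → ℕ → ℝ) (E w : ℕ → ℝ) (n0 n1 J m : ℕ) (Nn V Emax : ℝ)
    (hn : n0 ≤ n1) (hN : 0 ≤ Nn) (hcard : ((n1 - n0 : ℕ) : ℝ) * Nn ≤ V)
    (hE0 : ∀ n, n0 ≤ n → n < n1 + J → 0 ≤ E n) (hEm : 0 ≤ Emax)
    (hE : ∀ n, n0 ≤ n → n < n1 + J → E n ≤ Emax)
    (hw : ∀ n n', n0 ≤ n → n ≤ n' → n' ≤ n1 + J → w n' ≤ w n)
    (ha0 : ∀ n j, n0 ≤ n → n < n1 → a 0 n j = 0)
    (ha : ∀ k n j, n0 ≤ n → n < n1 → a k n j ≤ k * Nn)
    (hrec : ∀ k n j, n0 ≤ n → n < n1 → j < J →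
      2 * a (k + 1) n j ≤ (E (n + j) + Nn * (w n - w (n + j))) + a (k + 1) n (j + 1) + a k n j) :
    ∑ n ∈ Finset.Ico n0 n1, (a m n 0 - m * E n) ≤
      (m : ℝ) * (m + 1) / 2 * (Emax + (w n0 - w (n1 + J)) * Nn) + V * 2 ^ m / (3 / 2 : ℝ) ^ J := by
  set q : ℝ := w n0 - w (n1 + J) with hqdef
  have hq0 : 0 ≤ q := by
    have := hw n0 (n1 + J) le_rfl (by omega) le_rfl
    simp only [hqdef]
    linarith
  have hV : 0 ≤ V := le_trans (by positivity) hcard
  set Bc : ℕ → ℕ → ℝ := fun k j => ∑ n ∈ Finset.Ico n0 n1, (a k n j - k * E n) with hBc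
  have hmain := array3 Bc (Emax + q * Nn) V J (by positivity) hV
    (by
      intro j _
      simp only [hBc]
      refine Finset.sum_nonpos fun n hn' => ?_
      rw [Finset.mem_Ico] at hn'
      rw [ha0 n j hn'.1 hn'.2]
      simp)
    (by
      intro k
      simp only [hBc]
      have h1 : ∀ n ∈ Finset.Ico n0 n1, a k n J - k * E n ≤ k * Nn := by
        intro n hn'
        rw [Finset.mem_Ico] at hn'
        have h2 := ha k n J hn'.1 hn'.2
        have h3 := hE0 n hn'.1 (by omega)
        have h4 : 0 ≤ (k : ℝ) * E n := by positivity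
        linarith
      refine (Finset.sum_le_sum h1).trans ?_
      rw [Finset.sum_const, Nat.card_Ico, nsmul_eq_mul]
      have h5 := mul_le_mul_of_nonneg_right hcard (Nat.cast_nonneg (α := ℝ) k)
      linarith)
    (by
      intro k j hj
      simp only [hBc]
      rw [Finset.mul_sum]
      have h1 : ∀ n ∈ Finset.Ico n0 n1, 2 * (a (k + 1) n j - ((k + 1 : ℕ) : ℝ) * E n) ≤
          ((E (n + j) - E n) - Nn * (w (n + j) - w n)) +
            (a (k + 1) n (j + 1) - ((k + 1 : ℕ) : ℝ) * E n) + (a k n j - (k : ℝ) * E n) := by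
        intro n hn'
        rw [Finset.mem_Ico] at hn'
        have h2 := hrec k n j hn'.1 hn'.2 hj
        push_cast
        linarith
      refine (Finset.sum_le_sum h1).trans ?_
      rw [Finset.sum_add_distrib, Finset.sum_add_distrib, Finset.sum_sub_distrib, ← Finset.mul_sum,
        tele_shift E n0 n1 j hn, tele_shift w n0 n1 j hn]
      have h3 : ∑ i ∈ Finset.range j, (E (n1 + i) - E (n0 + i)) ≤ j * Emax := by
        have : ∀ i ∈ Finset.range j, E (n1 + i) - E (n0 + i) ≤ Emax := by
          intro i hi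
          rw [Finset.mem_range] at hi
          have h4 := hE (n1 + i) (by omega) (by omega)
          have h5 := hE0 (n0 + i) (by omega) (by omega)
          linarith
        refine (Finset.sum_le_sum this).trans ?_
        rw [Finset.sum_const, Finset.card_range, nsmul_eq_mul]
      have h4 : -(j * q) ≤ ∑ i ∈ Finset.range j, (w (n1 + i) - w (n0 + i)) := by
        have : ∀ i ∈ Finset.range j, -q ≤ w (n1 + i) - w (n0 + i) := by
          intro i hi
          rw [Finset.mem_range] at hi
          have h4 := hw n0 (n0 + i) le_rfl (by omega) (by omega)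
          have h5 := hw (n1 + i) (n1 + J) (by omega) (by omega) le_rfl
          simp only [hqdef]
          linarith
        have h6 := Finset.sum_le_sum this
        rw [Finset.sum_const, Finset.card_range, nsmul_eq_mul] at h6
        linarith
      have h7 := mul_le_mul_of_nonneg_left h4 hN
      nlinarith)
  have h := hmain m 0 (Nat.zero_le _)
  simp only [hBc] at h
  refine h.trans ?_
  unfold sup3
  simp

end Pool.Agent.CutSeq
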