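import Pool.Agent.CutSeq.Lvl

/-! Row BWD: the backward bound (BW) and the invariance of the slab law under inversion. -/

set_option autoImplicit false

namespace Pool.Agent.CutSeq

open Finset

namespace Bwd

/-! #### tops -/

theorem tp_le {n : ℕ} (z : V n) : tp z ≤ n := by
  unfold tp
  exact Finset.sup_le fun j _ => j.isLt

theorem eq_zero_of_tp_le {n : ℕ} (z : V n) (k : Fin n) (h : tp z ≤ k.val) : z k = 0 := by
  by_contra hk
  have h1 : k.val + 1 ≤ tp z := by
    unfold tp
    exact Finset.le_sup (f := fun j : Fin n => j.val + 1) (mem_filter.mpr ⟨mem_univ k, hk⟩)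
  omega

theorem exists_top {n : ℕ} (z : V n) (hz : z ≠ 0) : ∃ k : Fin n, z k ≠ 0 ∧ k.val + 1 = tp z := by
  obtain ⟨j, hj⟩ := Function.ne_iff.mp hz
  have hne : (univ.filter fun j : Fin n => z j ≠ 0).Nonempty :=
    ⟨j, mem_filter.mpr ⟨mem_univ j, hj⟩⟩
  obtain ⟨k, hk, hk'⟩ := Finset.exists_mem_eq_sup _ hne (fun j : Fin n => j.val + 1)
  exact ⟨k, (mem_filter.mp hk).2, hk'.symm⟩

theorem tp_le_of {n : ℕ} (z : V n) (t : ℕ) (h : ∀ k : Fin n, t ≤ k.val → z k = 0) : tp z ≤ t := by
  unfold tp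
  refine Finset.sup_le fun j hj => ?_
  by_contra h1
  exact (mem_filter.mp hj).2 (h j (by omega))

/-! #### signs -/

/-- the sign character -/
noncomputable def sgn (a : ZMod 2) : ℝ := if a = 0 then 1 else -1

theorem sgn_zero : sgn 0 = 1 := if_pos rfl

theorem zmod2_cases (a : ZMod 2) : a = 0 ∨ a = 1 := by
  fin_cases a
  · exact Or.inl rfl
  · exact Or.inr rfl

theorem sgn_one : sgn 1 = -1 := if_neg one_ne_zero

theorem sgn_add (a b : ZMod 2) : sgn (a + b) = sgn a * sgn b := by
  have h11 : (1 : ZMod 2) + 1 = 0 := by decide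
  rcases zmod2_cases a with rfl | rfl <;> rcases zmod2_cases b with rfl | rfl
  · rw [add_zero, sgn_zero, mul_one]
  · rw [zero_add, sgn_zero, one_mul]
  · rw [add_zero, sgn_zero, mul_one]
  · rw [h11, sgn_zero, sgn_one]
    norm_num

theorem sgn_sum {ι : Type*} (J : Finset ι) (f : ι → ZMod 2) :
    sgn (∑ i ∈ J, f i) = ∏ i ∈ J, sgn (f i) := by
  classical
  induction J using Finset.induction with
  | empty => simp [sgn_zero]
  | insert a s ha ih => rw [sum_insert ha, prod_insert ha, sgn_add, ih]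

theorem ite_eq_sgn (a c : ZMod 2) : (if a = c then (1 : ℝ) else 0) = (1 + sgn (a + c)) / 2 := by
  have h11 : (1 : ZMod 2) + 1 = 0 := by decide
  rcases zmod2_cases a with rfl | rfl <;> rcases zmod2_cases c with rfl | rfl
  · rw [if_pos rfl, add_zero, sgn_zero]
    norm_num
  · rw [if_neg (by decide), zero_add, sgn_one]
    norm_num
  · rw [if_neg (by decide), add_zero, sgn_one]
    norm_num
  · rw [if_pos rfl, h11, sgn_zero]
    norm_num

theorem ite_forall_eq {ι : Type*} [DecidableEq ι] (I : Finset ι) (a c : ι → ZMod 2) :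
    (if ∀ i ∈ I, a i = c i then (1 : ℝ) else 0) =
      (1 / 2) ^ I.card * ∑ J ∈ I.powerset, sgn (∑ i ∈ J, a i) * sgn (∑ i ∈ J, c i) := by
  have h1 : (if ∀ i ∈ I, a i = c i then (1 : ℝ) else 0) =
      ∏ i ∈ I, (if a i = c i then (1 : ℝ) else 0) := by
    by_cases h : ∀ i ∈ I, a i = c i
    · rw [if_pos h, prod_congr rfl fun i hi => if_pos (h i hi), prod_const_one]
    · rw [if_neg h]
      push Not at h
      obtain ⟨i, hi, hne⟩ := h
      exact (prod_eq_zero hi (if_neg hne)).symm
  rw [h1, prod_congr rfl fun i _ => ite_eq_sgn (a i) (c i)]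
  have h2 : ∏ i ∈ I, (1 + sgn (a i + c i)) / 2 = (1 / 2) ^ I.card *
      ∏ i ∈ I, (1 + sgn (a i + c i)) := by
    rw [← prod_const, ← prod_mul_distrib]
    exact prod_congr rfl fun i _ => by ring
  rw [h2, Finset.prod_one_add]
  congr 1
  refine sum_congr rfl fun J _ => ?_
  rw [sgn_sum, sgn_sum, ← prod_mul_distrib]
  exact prod_congr rfl fun i _ => sgn_add _ _

/-! #### the uniform law on a subspace -/

variable {n : ℕ}

theorem sum_uT (T : Submodule (ZMod 2) (V n)) : ∑ r, uT T r = 1 := by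
  classical
  have h1 : ∑ r, uT T r = ∑ r ∈ univ.filter (fun r => r ∈ T), 1 / (Nat.card T : ℝ) := by
    rw [sum_filter]
    exact sum_congr rfl fun r _ => by unfold uT; congr
  have h2 : (univ.filter (fun r => r ∈ T)).card = Nat.card T := by
    rw [Nat.card_eq_fintype_card, Fintype.card_subtype]
  have h3 : (Nat.card T : ℝ) ≠ 0 := by
    rw [Nat.cast_ne_zero]
    exact Nat.card_pos.ne'
  rw [h1, sum_const, h2, nsmul_eq_mul, mul_one_div, div_self h3]

theorem sum_uT_sgn (T : Submodule (ZMod 2) (V n)) (w : V n) (hw : w ∉ perp T) :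
    ∑ r, uT T r * sgn (r ⬝ᵥ w) = 0 := by
  classical
  have h1 : ∃ r ∈ T, r ⬝ᵥ w ≠ 0 := by
    by_contra h
    push Not at h
    exact hw h
  obtain ⟨r0, hr0, hne⟩ := h1
  have h2 : r0 ⬝ᵥ w = 1 := (zmod2_cases _).resolve_left hne
  have h3 : ∑ r, uT T r * sgn (r ⬝ᵥ w) = ∑ r, uT T (r + r0) * sgn ((r + r0) ⬝ᵥ w) :=
    (Equiv.sum_comp (Equiv.addRight r0) fun r => uT T r * sgn (r ⬝ᵥ w)).symm
  have h4 : ∀ r, uT T (r + r0) = uT T r := by
    intro r
    unfold uT
    have : r + r0 ∈ T ↔ r ∈ T := by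
      constructor
      · intro h
        have := T.sub_mem h hr0
        rwa [add_sub_cancel_right] at this
      · intro h
        exact T.add_mem h hr0
    by_cases hr : r ∈ T
    · rw [if_pos hr, if_pos (this.mpr hr)]
    · rw [if_neg hr, if_neg (fun h => hr (this.mp h))]
  have h5 : ∑ r, uT T (r + r0) * sgn ((r + r0) ⬝ᵥ w) = - ∑ r, uT T r * sgn (r ⬝ᵥ w) := by
    rw [← sum_neg_distrib]
    refine sum_congr rfl fun r _ => ?_
    rw [h4, add_dotProduct, h2, sgn_add, sgn_one]
    ring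
  linarith [h3.trans h5]

/-- independent functionals are independent fair bits -/
theorem sum_uT_forall {ι : Type*} [DecidableEq ι] (T : Submodule (ZMod 2) (V n)) (I : Finset ι)
    (w : ι → V n) (c : ι → ZMod 2) (h : ∀ J ⊆ I, J.Nonempty → ∑ i ∈ J, w i ∉ perp T) :
    ∑ r, uT T r * (if ∀ i ∈ I, r ⬝ᵥ w i = c i then (1 : ℝ) else 0) = (1 / 2) ^ I.card := by
  have h1 : ∀ r : V n, uT T r * (if ∀ i ∈ I, r ⬝ᵥ w i = c i then (1 : ℝ) else 0) =
      (1 / 2) ^ I.card * ∑ J ∈ I.powerset, (uT T r * sgn (r ⬝ᵥ ∑ i ∈ J, w i)) *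
        sgn (∑ i ∈ J, c i) := by
    intro r
    rw [ite_forall_eq I (fun i => r ⬝ᵥ w i) c, ← mul_assoc, mul_comm (uT T r), mul_assoc, mul_sum]
    congr 1
    refine sum_congr rfl fun J _ => ?_
    rw [dotProduct_sum, mul_assoc]
  rw [sum_congr rfl fun r _ => h1 r, ← mul_sum, sum_comm]
  have h2 : ∀ J ∈ I.powerset, J ≠ ∅ → ∑ r, uT T r * sgn (r ⬝ᵥ ∑ i ∈ J, w i) *
      sgn (∑ i ∈ J, c i) = 0 := by
    intro J hJ hne
    rw [← sum_mul, sum_uT_sgn T _ (h J (mem_powerset.mp hJ) (nonempty_iff_ne_empty.mpr hne)),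
      zero_mul]
  rw [sum_eq_single_of_mem ∅ (empty_mem_powerset I) h2]
  simp [sgn_zero, sum_uT]

end Bwd

open Bwd

variable {B : ℕ}

/-- the coordinates of a vector, as a function on the natural numbers -/
def Bwd.zx {n : ℕ} (z : V n) (k : ℕ) : ZMod 2 := if h : k < n then z ⟨k, h⟩ else 0

theorem Bwd.zx_eq {n : ℕ} (z : V n) (k : Fin n) : zx z k.val = z k := by
  unfold zx
  rw [dif_pos k.isLt]

theorem Bwd.act_eq {n : ℕ} (α : Seq) (l : ℕ) (z : V n) (k : Fin n) :
    act (mm α l n) z k = zx z k.val + row α l k.val ⬝ᵥ (fun j : Fin k.val => zx z j.val) := by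
  unfold act
  rw [zx_eq]
  congr 1
  refine sum_congr rfl fun j _ => ?_
  have h : zx z j.val = z ⟨j.val, j.isLt.trans k.isLt⟩ := zx_eq z ⟨j.val, j.isLt.trans k.isLt⟩
  change _ = row α l k.val j * zx z j.val
  rw [h]
  rfl

theorem Bwd.act_sum {n : ℕ} {ι : Type*} (x : Un n) (J : Finset ι) (z : ι → V n) :
    act x (∑ i ∈ J, z i) = ∑ i ∈ J, act x (z i) := by
  classical
  induction J using Finset.induction with
  | empty =>
    rw [sum_empty, sum_empty]
    funext k
    simp [act]
  | insert a s ha ih => rw [sum_insert ha, sum_insert ha, act_add, ih]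

/-- the levels seen by `z_i` -/
def Bwd.II {n e : ℕ} (ℓ : ℕ) (z : Fin e → V n) (x : ℕ) : Finset (Fin e) :=
  univ.filter fun i => x < tp (z i) ∧ tp (z i) ≤ x + ℓ

/-- the event of level `x` -/
def Bwd.EE {B S n e : ℕ} (ℓ : ℕ) (z : Fin e → V n) (x : ℕ) : Set (Wd B S) :=
  {ω | (∀ J ⊆ II ℓ z x, J.Nonempty → (∑ i ∈ J, fun j : Fin x => zx (z i) j.val) ∉
      perp (TT (ext ω) S x)) ∧
    ∀ i ∈ II ℓ z x, row (ext ω) S x ⬝ᵥ (fun j : Fin x => zx (z i) j.val) = zx (z i) x}

theorem Bwd.EE_lev {S n e : ℕ} (ℓ : ℕ) (z : Fin e → V n) (x : ℕ) :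
    Lev (x + 1) S (EE ℓ z x : Set (Wd B S)) := by
  intro ω ω' h
  have h1 := h.row_eq
  have h2 : TT (ext ω) S x = TT (ext ω') S x := (h.mono (Nat.le_succ x) le_rfl).TT_eq
  unfold EE
  rw [Set.mem_ofPred_eq, Set.mem_ofPred_eq, h1, h2]

theorem Bwd.EE_bound {S n e : ℕ} (ℓ : ℕ) (z : Fin e → V n) (x : ℕ) (f : Wd B S → ℝ)
    (hf0 : ∀ ω, 0 ≤ f ω) (hf : ∀ ω ω', Same x S ω ω' → f ω = f ω') :
    tot (ind (EE ℓ z x) f) ≤ (1 / 2) ^ (II ℓ z x).card * tot f := by
  classical
  set P : Wd B S → Prop := fun ω => ∀ J ⊆ II ℓ z x, J.Nonempty →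
    (∑ i ∈ J, fun j : Fin x => zx (z i) j.val) ∉ perp (TT (ext ω) S x) with hP
  set Q : V x → Prop := fun r => ∀ i ∈ II ℓ z x,
    r ⬝ᵥ (fun j : Fin x => zx (z i) j.val) = zx (z i) x with hQ
  set g : Wd B S → ℝ := fun ω => if P ω then f ω else 0 with hg
  have hg0 : ∀ ω, 0 ≤ g ω := by
    intro ω
    rw [hg]
    simp only
    split_ifs
    · exact hf0 ω
    · exact le_rfl
  have hgle : ∀ ω, g ω ≤ f ω := by
    intro ω
    rw [hg]
    simp only
    split_ifs
    · exact le_rfl
    · exact hf0 ω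
  have hgS : ∀ ω ω', Same x S ω ω' → g ω = g ω' := by
    intro ω ω' h
    have h2 : P ω ↔ P ω' := by
      rw [hP]
      simp only
      rw [h.TT_eq]
    rw [hg]
    simp only
    rw [hf ω ω' h]
    by_cases h3 : P ω
    · rw [if_pos h3, if_pos (h2.mp h3)]
    · rw [if_neg h3, if_neg (fun h4 => h3 (h2.mpr h4))]
  have h1 : tot (ind (EE ℓ z x) f) =
      ∑ ω, g ω * ∑ r : V x, (if Q r then (1 : ℝ) else 0) *
        (if row (ext ω) S x = r then 1 else 0) := by
    unfold tot
    refine sum_congr rfl fun ω _ => ?_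
    have h2 : ∑ r : V x, (if Q r then (1 : ℝ) else 0) * (if row (ext ω) S x = r then 1 else 0) =
        if Q (row (ext ω) S x) then 1 else 0 := by
      rw [sum_eq_single_of_mem (row (ext ω) S x) (mem_univ _)]
      · rw [if_pos rfl, mul_one]
      · intro r _ hr
        rw [if_neg (fun h : row (ext ω) S x = r => hr h.symm), mul_zero]
    rw [h2]
    unfold ind
    by_cases h3 : P ω
    · by_cases h4 : Q (row (ext ω) S x)
      · rw [Set.indicator_of_mem (show ω ∈ EE ℓ z x from ⟨h3, h4⟩), if_pos h4, hg]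
        simp only
        rw [if_pos h3, mul_one]
      · rw [Set.indicator_of_notMem (fun h : ω ∈ EE ℓ z x => h4 h.2), if_neg h4, mul_zero]
    · rw [Set.indicator_of_notMem (fun h : ω ∈ EE ℓ z x => h3 h.1), hg]
      simp only
      rw [if_neg h3, zero_mul]
  have h2 : ∑ ω, g ω * ∑ r : V x, (if Q r then (1 : ℝ) else 0) *
        (if row (ext ω) S x = r then 1 else 0) =
      ∑ ω, g ω * ∑ r : V x, uT (TT (ext ω) S x) r * (if Q r then (1 : ℝ) else 0) := by
    have h3 : ∀ u : Wd B S → V x → ℝ, ∑ ω, g ω * ∑ r : V x, (if Q r then (1 : ℝ) else 0) * u ω r =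
        ∑ r : V x, (if Q r then (1 : ℝ) else 0) * ∑ ω, g ω * u ω r := by
      intro u
      simp only [mul_sum]
      rw [sum_comm]
      exact sum_congr rfl fun r _ => sum_congr rfl fun ω _ => by ring
    rw [h3 fun ω r => if row (ext ω) S x = r then 1 else 0]
    have h4 := h3 fun ω r => uT (TT (ext ω) S x) r
    have h5 : ∑ ω, g ω * ∑ r : V x, uT (TT (ext ω) S x) r * (if Q r then (1 : ℝ) else 0) =
        ∑ ω, g ω * ∑ r : V x, (if Q r then (1 : ℝ) else 0) * uT (TT (ext ω) S x) r :=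
      sum_congr rfl fun ω _ => by
        congr 1
        exact sum_congr rfl fun r _ => mul_comm _ _
    rw [h5, h4]
    refine sum_congr rfl fun r _ => ?_
    rw [row_uniform x S le_rfl g hgS r]
  rw [h1, h2]
  have h3 : ∀ ω, g ω * ∑ r : V x, uT (TT (ext ω) S x) r * (if Q r then (1 : ℝ) else 0) ≤
      (1 / 2) ^ (II ℓ z x).card * f ω := by
    intro ω
    by_cases hω : P ω
    · have h4 := sum_uT_forall (TT (ext ω) S x) (II ℓ z x) (fun i => fun j : Fin x => zx (z i) j.val)
        (fun i => zx (z i) x) hω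
      have h5 : ∑ r : V x, uT (TT (ext ω) S x) r * (if Q r then (1 : ℝ) else 0) =
          (1 / 2) ^ (II ℓ z x).card := by
        rw [← h4]
        refine sum_congr rfl fun r _ => ?_
        congr 1
        by_cases hQr : Q r
        · rw [if_pos hQr, if_pos hQr]
        · rw [if_neg hQr, if_neg hQr]
      rw [h5, mul_comm]
      exact mul_le_mul_of_nonneg_left (hgle ω) (by positivity)
    · have : g ω = 0 := by
        rw [hg]
        simp only
        rw [if_neg hω]
      rw [this, zero_mul]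
      exact mul_nonneg (by positivity) (hf0 ω)
  calc _ ≤ ∑ ω, (1 / 2) ^ (II ℓ z x).card * f ω := sum_le_sum fun ω _ => h3 ω
    _ = _ := by rw [← mul_sum]; rfl

theorem Bwd.mem_EE {S n e : ℕ} (ℓ : ℕ) (z : Fin e → V n) (hz : ∀ i, z i ≠ 0)
    (hinj : Function.Injective fun i => tp (z i)) (ω : Wd B S)
    (hω : ∀ i, tp (act (mm (ext ω) S n) (z i)) + ℓ ≤ tp (z i)) (x : ℕ) (hx : x < n) :
    ω ∈ (EE ℓ z x : Set (Wd B S)) := by
  classical
  have hzero : ∀ i, tp (z i) ≤ x + ℓ → ∀ k : Fin n, x ≤ k.val →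
      act (mm (ext ω) S n) (z i) k = 0 := by
    intro i hi k hk
    apply eq_zero_of_tp_le
    have := hω i
    omega
  refine ⟨fun J hJ hne hA => ?_, fun i hi => ?_⟩
  · -- the sum of the vectors of `J`
    set zJ : V n := ∑ i ∈ J, z i with hzJ
    set z2 : V n := fun k => if k.val < x then 0 else zJ k with hz2
    have hJ' : ∀ i ∈ J, x < tp (z i) ∧ tp (z i) ≤ x + ℓ := fun i hi =>
      (mem_filter.mp (hJ hi)).2
    have hzxJ : ∀ k, zx zJ k = ∑ i ∈ J, zx (z i) k := by
      intro k
      unfold zx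
      by_cases hk : k < n
      · simp only [dif_pos hk, hzJ, Finset.sum_apply]
      · simp only [dif_neg hk, sum_const_zero]
    have hact : ∀ k : Fin n, x ≤ k.val → act (mm (ext ω) S n) zJ k = 0 := by
      intro k hk
      rw [hzJ, act_sum, Finset.sum_apply]
      exact sum_eq_zero fun i hi => hzero i (hJ' i hi).2 k hk
    have hz2x : ∀ k, zx z2 k = if k < x then 0 else zx zJ k := by
      intro k
      unfold zx
      by_cases hk : k < n
      · simp only [dif_pos hk, hz2]
      · simp only [dif_neg hk, ite_self]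
    have hact2 : act (mm (ext ω) S n) z2 = 0 := by
      funext k
      rw [Pi.zero_apply, act_eq]
      by_cases hk : k.val < x
      · rw [hz2x, if_pos hk, zero_add]
        refine sum_eq_zero fun j _ => ?_
        simp only [hz2x, if_pos (j.isLt.trans hk), mul_zero]
      · have hk' : x ≤ k.val := by omega
        have h1 := hact k hk'
        rw [act_eq] at h1
        have h2 := AA_dot (ext ω) S x k.val hk' _ hA
        have h3 : row (ext ω) S k.val ⬝ᵥ (fun j : Fin k.val => zx zJ j.val) =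
            row (ext ω) S k.val ⬝ᵥ (fun j : Fin k.val => zx z2 j.val) +
              cut hk' (row (ext ω) S k.val) ⬝ᵥ
                (∑ i ∈ J, fun j : Fin x => zx (z i) j.val) := by
          have h4 : cut hk' (row (ext ω) S k.val) ⬝ᵥ
                (∑ i ∈ J, fun j : Fin x => zx (z i) j.val) =
              ∑ j : Fin k.val, row (ext ω) S k.val j * (if j.val < x then zx zJ j.val else 0) := by
            have h5 : ∀ m : ℕ, ∀ F : ℕ → ZMod 2, x ≤ m →
                ∑ j : Fin m, (if j.val < x then F j.val else 0) = ∑ j : Fin x, F j.val := by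
              intro m F hm
              rw [Finset.sum_fin_eq_sum_range, Finset.sum_fin_eq_sum_range]
              rw [← Finset.sum_subset (range_subset_range.mpr hm)]
              · refine sum_congr rfl fun j hj => ?_
                have hj' := mem_range.mp hj
                rw [dif_pos (by omega), dif_pos hj', if_pos hj']
              · intro j hj hj'
                have h6 := mem_range.mp hj
                have h7 : ¬ j < x := fun h => hj' (mem_range.mpr h)
                rw [dif_pos h6, if_neg h7]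
            have h6 := h5 k.val (fun j => Mst (ext ω) S k.val j * zx zJ j) hk'
            have h7 : ∑ j : Fin k.val, row (ext ω) S k.val j *
                (if j.val < x then zx zJ j.val else 0) =
                ∑ j : Fin k.val, (if j.val < x then Mst (ext ω) S k.val j.val * zx zJ j.val
                  else 0) := by
              refine sum_congr rfl fun j _ => ?_
              rw [mul_ite, mul_zero]
              rfl
            rw [h7, h6]
            refine sum_congr rfl fun j _ => ?_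
            rw [hzxJ, Finset.sum_apply]
            rfl
          rw [h4, dotProduct, dotProduct, ← sum_add_distrib]
          refine sum_congr rfl fun j _ => ?_
          simp only [hz2x]
          by_cases hj : j.val < x
          · rw [if_pos hj, if_pos hj, mul_zero, zero_add]
          · rw [if_neg hj, if_neg hj, mul_zero, add_zero]
        rw [hz2x, if_neg hk, ← h1, h3, h2, add_zero]
    have hz20 : z2 = 0 := by
      apply act_injective (mm (ext ω) S n)
      rw [hact2]
      funext k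
      simp [act]
    obtain ⟨i0, hi0, hmax⟩ := Finset.exists_max_image J (fun i => tp (z i)) hne
    obtain ⟨k, hk, hk'⟩ := exists_top (z i0) (hz i0)
    have hkx : ¬ k.val < x := by
      have := (hJ' i0 hi0).1
      omega
    have h1 : z2 k = z i0 k := by
      rw [hz2]
      simp only
      rw [if_neg hkx, hzJ, Finset.sum_apply, sum_eq_single_of_mem i0 hi0]
      intro i hi hne'
      apply eq_zero_of_tp_le
      have h2 := hmax i hi
      have h3 : tp (z i) ≠ tp (z i0) := fun h => hne' (hinj h)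
      omega
    rw [hz20] at h1
    exact hk h1.symm
  · have hi' := (mem_filter.mp hi).2
    have h1 := hzero i hi'.2 ⟨x, hx⟩ le_rfl
    rw [act_eq] at h1
    have h2 : row (ext ω) S x ⬝ᵥ (fun j : Fin x => zx (z i) j.val) = - zx (z i) x :=
      eq_neg_of_add_eq_zero_right h1
    rw [h2]
    exact ZMod.neg_eq_self_mod_two _

theorem Bwd.sum_II {n e : ℕ} (ℓ : ℕ) (z : Fin e → V n) (h : ∀ i, ℓ ≤ tp (z i)) :
    ∑ x ∈ Ico 0 n, (II ℓ z x).card = ℓ * e := by
  classical
  have h1 : ∀ x, (II ℓ z x).card = ∑ i : Fin e, if x < tp (z i) ∧ tp (z i) ≤ x + ℓ then 1 else 0 := by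
    intro x
    unfold II
    rw [card_filter]
  rw [sum_congr rfl fun x _ => h1 x, sum_comm]
  have h2 : ∀ i : Fin e, ∑ x ∈ Ico 0 n, (if x < tp (z i) ∧ tp (z i) ≤ x + ℓ then 1 else 0) = ℓ := by
    intro i
    rw [← card_filter]
    have h3 : (Ico 0 n).filter (fun x => x < tp (z i) ∧ tp (z i) ≤ x + ℓ) =
        Ico (tp (z i) - ℓ) (tp (z i)) := by
      ext x
      simp only [mem_filter, mem_Ico, Nat.zero_le, true_and]
      have := tp_le (z i)
      omega
    rw [h3, Nat.card_Ico]
    have := h i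
    omega
  rw [sum_congr rfl fun i _ => h2 i, sum_const, card_univ, Fintype.card_fin, smul_eq_mul, mul_comm]

theorem Bwd.tot_ind_mono {Ω : Type*} [Fintype Ω] (w : Ω → ℝ) (hw : ∀ ω, 0 ≤ w ω) {G G' : Set Ω}
    (h : G ⊆ G') : tot (ind G w) ≤ tot (ind G' w) :=
  sum_le_sum fun ω _ => Set.indicator_le_indicator_of_subset h hw ω

theorem Bwd.uw_nonneg (B L : ℕ) (ω : Wd B L) : 0 ≤ uw B L ω := by
  unfold uw
  positivity

/-- (BW) -/
theorem backward {B S n e ℓ : ℕ} (hB : 0 < B) (z : Fin e → V n) (hz : ∀ i, z i ≠ 0)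
    (hinj : Function.Injective fun i => tp (z i)) :
    pr (uw B S) {ω | ∀ i, tp (act (mm (ext ω) S n) (z i)) + ℓ ≤ tp (z i)}
      ≤ (1 / 2) ^ (ℓ * e) := by
  by_cases h : ∀ i, ℓ ≤ tp (z i)
  · have h1 := level_product (B := B) (L := S) S 0 n (Nat.zero_le n) (fun x => EE ℓ z x)
      (fun x => (1 / 2) ^ (II ℓ z x).card) (fun _ => by positivity) (fun x _ _ => EE_lev ℓ z x)
      (fun x _ _ f hf0 hf => EE_bound ℓ z x f hf0 hf) (uw B S) (uw_nonneg B S) (fun _ _ _ => rfl)
    rw [Finset.prod_pow_eq_pow_sum, sum_II ℓ z h, tot_uw hB, mul_one] at h1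
    refine le_trans (tot_ind_mono _ (uw_nonneg B S) ?_) h1
    intro ω hω x _ hx
    exact mem_EE ℓ z hz hinj ω hω x hx
  · push Not at h
    obtain ⟨i, hi⟩ := h
    have h1 : {ω : Wd B S | ∀ i, tp (act (mm (ext ω) S n) (z i)) + ℓ ≤ tp (z i)} = ∅ := by
      ext ω
      simp only [Set.mem_ofPred_eq, Set.mem_empty_iff_false, iff_false]
      intro h1
      have := h1 i
      omega
    rw [h1, pr, ind, Set.indicator_empty]
    simp only [tot, sum_const_zero]
    positivity

/-! #### reversal -/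

/-- the action of one letter -/
def Bwd.lt {n : ℕ} (p : ℕ × ZMod 2) (z : V n) : V n := fun k =>
  z k + if k.val = p.1 + 1 then p.2 * zx z p.1 else 0

theorem Bwd.lt_lt {n : ℕ} (p : ℕ × ZMod 2) (z : V n) : lt p (lt p z) = z := by
  funext k
  have h1 : zx (lt p z) p.1 = zx z p.1 := by
    unfold zx
    by_cases h : p.1 < n
    · simp only [dif_pos h, lt]
      rw [if_neg (by omega), add_zero]
    · simp only [dif_neg h]
  unfold lt
  change (z k + if k.val = p.1 + 1 then p.2 * zx z p.1 else 0) +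
    (if k.val = p.1 + 1 then p.2 * zx (lt p z) p.1 else 0) = z k
  rw [h1, add_assoc, CharTwo.add_self_eq_zero, add_zero]

theorem Bwd.act_succ {n : ℕ} (α : Seq) (l : ℕ) (z : V n) :
    act (mm α (l + 1) n) z = lt (α l) (act (mm α l n) z) := by
  funext k
  unfold lt
  have h1 : ∀ j : ℕ, Mst α (l + 1) k.val j = Mst α l k.val j +
      if k.val = (α l).1 + 1 then (α l).2 * Mst α l (α l).1 j else 0 := fun j => rfl
  have h2 : act (mm α (l + 1) n) z k = z k + ∑ j : Fin k.val,
      Mst α (l + 1) k.val j.val * z ⟨j.val, j.isLt.trans k.isLt⟩ := rfl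
  have h3 : act (mm α l n) z k = z k + ∑ j : Fin k.val,
      Mst α l k.val j.val * z ⟨j.val, j.isLt.trans k.isLt⟩ := rfl
  rw [h2, h3, add_assoc]
  congr 1
  simp only [h1, add_mul, sum_add_distrib]
  congr 1
  by_cases hk : k.val = (α l).1 + 1
  · simp only [if_pos hk]
    have hb : (α l).1 < n := by
      have := k.isLt
      omega
    have h4 : zx (act (mm α l n) z) (α l).1 = act (mm α l n) z ⟨(α l).1, hb⟩ :=
      zx_eq _ ⟨(α l).1, hb⟩
    have h5 : act (mm α l n) z ⟨(α l).1, hb⟩ = z ⟨(α l).1, hb⟩ + ∑ j : Fin (α l).1,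
      Mst α l (α l).1 j.val * z ⟨j.val, j.isLt.trans hb⟩ := rfl
    rw [h4, h5]
    have h6 : ∀ F : ℕ → ZMod 2, ∑ j : Fin k.val, F j.val = F (α l).1 + ∑ j : Fin (α l).1, F j.val := by
      intro F
      rw [Fin.sum_univ_eq_sum_range F k.val, Fin.sum_univ_eq_sum_range F (α l).1, hk,
        sum_range_succ, add_comm]
    have h7 := h6 fun j => (α l).2 * Mst α l (α l).1 j * zx z j
    have h8 : ∑ j : Fin k.val, (α l).2 * Mst α l (α l).1 j.val * z ⟨j.val, j.isLt.trans k.isLt⟩ =
        ∑ j : Fin k.val, (α l).2 * Mst α l (α l).1 j.val * zx z j.val :=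
      sum_congr rfl fun j _ => by
        rw [zx_eq z ⟨j.val, j.isLt.trans k.isLt⟩]
    have h9 : ∑ j : Fin (α l).1, Mst α l (α l).1 j.val * z ⟨j.val, j.isLt.trans hb⟩ =
        ∑ j : Fin (α l).1, Mst α l (α l).1 j.val * zx z j.val :=
      sum_congr rfl fun j _ => by
        rw [zx_eq z ⟨j.val, j.isLt.trans hb⟩]
    rw [h8, h7, h9, Mst_diag, mul_one, mul_add, mul_sum, zx_eq z ⟨(α l).1, hb⟩]
    congr 1
    exact sum_congr rfl fun j _ => by ring
  · simp only [if_neg hk, zero_mul, sum_const_zero]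

theorem Bwd.act_zero' {n : ℕ} (α : Seq) (z : V n) : act (mm α 0 n) z = z := by
  funext k
  have h2 : act (mm α 0 n) z k = z k + ∑ j : Fin k.val,
      (if k.val = j.val then (1 : ZMod 2) else 0) * z ⟨j.val, j.isLt.trans k.isLt⟩ := rfl
  rw [h2, sum_eq_zero, add_zero]
  intro j _
  rw [if_neg (by have := j.isLt; omega), zero_mul]

theorem Bwd.act_first {n : ℕ} (l : ℕ) : ∀ (α : Seq) (z : V n),
    act (mm α (l + 1) n) z = act (mm (fun i => α (i + 1)) l n) (lt (α 0) z) := by
  induction l with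
  | zero =>
    intro α z
    rw [act_succ, act_zero', act_zero']
  | succ l ih =>
    intro α z
    rw [act_succ α (l + 1), ih, act_succ (fun i => α (i + 1)) l]

theorem Bwd.act_congr {n : ℕ} (l : ℕ) : ∀ (α β : Seq), (∀ i < l, α i = β i) → ∀ z : V n,
    act (mm α l n) z = act (mm β l n) z := by
  induction l with
  | zero =>
    intro α β _ z
    rw [act_zero', act_zero']
  | succ l ih =>
    intro α β h z
    rw [act_succ, act_succ, h l (Nat.lt_succ_self l),
      ih α β (fun i hi => h i (Nat.lt_succ_of_lt hi)) z]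

theorem Bwd.act_rev {n : ℕ} (l : ℕ) : ∀ (α β : Seq), (∀ i < l, β i = α (l - 1 - i)) → ∀ z : V n,
    act (mm β l n) (act (mm α l n) z) = z := by
  induction l with
  | zero =>
    intro α β _ z
    rw [act_zero', act_zero']
  | succ l ih =>
    intro α β h z
    have h0 : β 0 = α l := by
      have := h 0 (Nat.succ_pos l)
      simpa using this
    rw [act_succ α l, act_first l β, h0, lt_lt]
    refine ih α (fun i => β (i + 1)) (fun i hi => ?_) z
    have := h (i + 1) (by omega)
    rw [this]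
    congr 1
    omega

/-- reversal of the letters inverts the array -/
theorem reverse_inverse {B S : ℕ} (n : ℕ) (ω : Wd B S) (z : V n) :
    act (mm (ext (fun i => ω i.rev)) S n) (act (mm (ext ω) S n) z) = z := by
  apply act_rev S (ext ω) (ext fun i => ω i.rev)
  intro i hi
  unfold ext
  rw [dif_pos hi, dif_pos (show S - 1 - i < S by omega)]
  have : (⟨i, hi⟩ : Fin S).rev = ⟨S - 1 - i, by omega⟩ := by
    apply Fin.ext
    rw [Fin.val_rev]
    simp only
    omega
  change ((ω (⟨i, hi⟩ : Fin S).rev).1.val, (ω (⟨i, hi⟩ : Fin S).rev).2) = _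
  rw [this]

/-- (BW) for the inverse: `x` is the inverse array of the slab -/
theorem backward_inv {B S n e ℓ : ℕ} (hB : 0 < B) (z : Fin e → V n) (hz : ∀ i, z i ≠ 0)
    (hinj : Function.Injective fun i => tp (z i)) :
    pr (uw B S) {ω | ∀ i, ∃ c : V n, act (mm (ext ω) S n) c = z i ∧ tp c + ℓ ≤ tp (z i)}
      ≤ (1 / 2) ^ (ℓ * e) := by
  refine le_trans (le_of_eq ?_) (backward (S := S) (ℓ := ℓ) hB z hz hinj)
  unfold pr tot
  let R : Wd B S ≃ Wd B S :=
    { toFun := fun ω i => ω i.rev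
      invFun := fun ω i => ω i.rev
      left_inv := fun ω => by funext i; simp
      right_inv := fun ω => by funext i; simp }
  rw [← Equiv.sum_comp R]
  refine sum_congr rfl fun ω _ => ?_
  have h1 : ω ∈ {ω : Wd B S | ∀ i, tp (act (mm (ext ω) S n) (z i)) + ℓ ≤ tp (z i)} ↔
      R ω ∈ {ω : Wd B S | ∀ i, ∃ c : V n, act (mm (ext ω) S n) c = z i ∧
        tp c + ℓ ≤ tp (z i)} := by
    constructor
    · intro h i
      refine ⟨act (mm (ext ω) S n) (z i), ?_, h i⟩
      exact reverse_inverse n ω (z i)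
    · intro h i
      obtain ⟨c, hc, hc'⟩ := h i
      have h2 := reverse_inverse n (R ω) c
      have h3 : (fun i : Fin S => R ω i.rev) = ω := by
        funext i
        change ω i.rev.rev = ω i
        rw [Fin.rev_rev]
      rw [h3, hc] at h2
      rw [h2]
      exact hc'
  unfold ind
  by_cases h : ω ∈ {ω : Wd B S | ∀ i, tp (act (mm (ext ω) S n) (z i)) + ℓ ≤ tp (z i)}
  · rw [Set.indicator_of_mem h, Set.indicator_of_mem (h1.mp h)]
    rfl
  · rw [Set.indicator_of_notMem h, Set.indicator_of_notMem (fun h2 => h (h1.mpr h2))]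

end Pool.Agent.CutSeq
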