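import Mathlib

/-! Row CMP: the comparison lemma for the scheme. -/

set_option autoImplicit false

namespace Pool.Agent.CutSeq

open Finset

/-- (CMP) -/
theorem comparison (u : ℕ → ℕ → ℝ) (e : ℕ → ℕ → ℝ) (Λ : ℕ → ℝ) (α p μ U : ℝ) (I M : ℕ)
    (he : ∀ i n, 0 ≤ e i n) (hu0 : ∀ i, u i 0 ≤ 0) (hU0 : 0 ≤ U) (hU : ∀ i n, i ≤ I → n ≤ M → u i n ≤ U)
    (hΛ0 : 0 ≤ Λ 0) (hΛ : ∀ n, Λ n + α ≤ Λ (n + 1)) (hα : 0 ≤ α) (hp0 : 0 ≤ p) (hp1 : p ≤ 1)
    (hμ : 0 ≤ μ) (hpμ : p * (Real.exp μ - 1) ≤ α * μ)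
    (hS : ∀ i n, i < I → n < M → Λ n ≤ i → u (i + 1) (n + 1) ≤ (1 - p) * u (i + 1) n + p * u i n + e (i + 1) n) :
    ∀ i n, i ≤ I → n ≤ M →
      u i n ≤ U * Real.exp (-(μ * (i - Λ n - 2))) + ∑ i' ∈ range (I + 1), ∑ n' ∈ range n, e i' n' := by
  have hΛpos : ∀ n, 0 ≤ Λ n := by
    intro n
    induction n with
    | zero => exact hΛ0
    | succ n ih => linarith [hΛ n]
  have hEpos : ∀ n, 0 ≤ ∑ i' ∈ range (I + 1), ∑ n' ∈ range n, e i' n' := fun n =>
    Finset.sum_nonneg fun i _ => Finset.sum_nonneg fun n' _ => he i n'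
  have hbig : ∀ (i n : ℕ), (i : ℝ) - Λ n - 2 ≤ 0 →
      U ≤ U * Real.exp (-(μ * (i - Λ n - 2))) := by
    intro i n h
    have h1 : (1 : ℝ) ≤ Real.exp (-(μ * (i - Λ n - 2))) := by
      apply Real.one_le_exp
      have := mul_nonneg hμ (by linarith : (0 : ℝ) ≤ -((i : ℝ) - Λ n - 2))
      linarith
    nlinarith
  intro i n
  induction n generalizing i with
  | zero =>
    intro hi _
    have h1 := hu0 i
    have h2 : 0 ≤ U * Real.exp (-(μ * (i - Λ 0 - 2))) := mul_nonneg hU0 (Real.exp_pos _).le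
    have h3 := hEpos 0
    linarith
  | succ n ih =>
    intro hi hn
    have hcase : u i (n + 1) ≤ U → (i : ℝ) - Λ (n + 1) - 2 ≤ 0 →
        u i (n + 1) ≤ U * Real.exp (-(μ * (i - Λ (n + 1) - 2)))
          + ∑ i' ∈ range (I + 1), ∑ n' ∈ range (n + 1), e i' n' := by
      intro h1 h2
      have h3 := hbig i (n + 1) h2
      have h4 := hEpos (n + 1)
      linarith
    rcases Nat.eq_zero_or_pos i with h0 | h0
    · subst h0
      apply hcase (hU _ _ hi hn)
      have := hΛpos (n + 1)
      push_cast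
      linarith
    · obtain ⟨j, rfl⟩ : ∃ j, i = j + 1 := ⟨i - 1, by omega⟩
      by_cases hlam : Λ n ≤ j
      · have hA := hS j n (by omega) (by omega) hlam
        have hB := ih (j + 1) hi (by omega)
        have hC := ih j (by omega) (by omega)
        have h5 : Real.exp (-(μ * ((j : ℕ) - Λ n - 2)))
            = Real.exp (-(μ * ((j + 1 : ℕ) - Λ n - 2))) * Real.exp μ := by
          rw [← Real.exp_add]
          congr 1
          push_cast
          ring
        have h6 : Real.exp (-(μ * ((j + 1 : ℕ) - Λ n - 2))) * (1 + α * μ)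
            ≤ Real.exp (-(μ * ((j + 1 : ℕ) - Λ (n + 1) - 2))) := by
          have h7 : Real.exp (-(μ * ((j + 1 : ℕ) - Λ (n + 1) - 2)))
              = Real.exp (-(μ * ((j + 1 : ℕ) - Λ n - 2))) * Real.exp (μ * (Λ (n + 1) - Λ n)) := by
            rw [← Real.exp_add]
            congr 1
            ring
          rw [h7]
          apply mul_le_mul_of_nonneg_left _ (Real.exp_pos _).le
          have h8 := Real.add_one_le_exp (μ * (Λ (n + 1) - Λ n))
          have h9 : α * μ ≤ μ * (Λ (n + 1) - Λ n) := by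
            have := mul_le_mul_of_nonneg_left (by linarith [hΛ n] : α ≤ Λ (n + 1) - Λ n) hμ
            linarith
          linarith
        have hsum : ∑ i' ∈ range (I + 1), ∑ n' ∈ range (n + 1), e i' n'
            = ∑ i' ∈ range (I + 1), ∑ n' ∈ range n, e i' n' + ∑ i' ∈ range (I + 1), e i' n := by
          rw [← Finset.sum_add_distrib]
          exact Finset.sum_congr rfl fun i' _ => Finset.sum_range_succ _ _
        have hone : e (j + 1) n ≤ ∑ i' ∈ range (I + 1), e i' n :=
          Finset.single_le_sum (f := fun i' => e i' n) (fun i' _ => he i' n)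
            (Finset.mem_range.2 (by omega))
        set W := Real.exp (-(μ * ((j + 1 : ℕ) - Λ n - 2))) with hW
        have hWpos : 0 < W := Real.exp_pos _
        rw [h5] at hC
        rw [hsum]
        set E := ∑ i' ∈ range (I + 1), ∑ n' ∈ range n, e i' n' with hE
        have h10 : (1 - p) * u (j + 1) n ≤ (1 - p) * (U * W + E) :=
          mul_le_mul_of_nonneg_left hB (by linarith)
        have h11 : p * u j n ≤ p * (U * (W * Real.exp μ) + E) := mul_le_mul_of_nonneg_left hC hp0
        have h12 : U * (W * (1 + α * μ))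
            ≤ U * Real.exp (-(μ * ((j + 1 : ℕ) - Λ (n + 1) - 2))) := mul_le_mul_of_nonneg_left h6 hU0
        have h13 : U * W * (p * (Real.exp μ - 1)) ≤ U * W * (α * μ) :=
          mul_le_mul_of_nonneg_left hpμ (mul_nonneg hU0 hWpos.le)
        have h14 : (1 - p) * (U * W + E) + p * (U * (W * Real.exp μ) + E)
            = U * W + U * W * (p * (Real.exp μ - 1)) + E := by ring
        have h15 : U * (W * (1 + α * μ)) = U * W + U * W * (α * μ) := by ring
        linarith
      · apply hcase (hU _ _ hi hn)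
        have hlam := not_le.1 hlam
        have := hΛ n
        push_cast
        linarith

end Pool.Agent.CutSeq
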