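import Mathlib

/-!
Cutoff along a sequence: definitions.

Entropy part: `mass w X a` is the weight of the fibre, `KK w X Y` the unnormalised relative entropy of
`X` given `Y` with respect to the uniform law, `HH` the unnormalised binary entropy.

Model part (letter model): a letter `(b, ξ)` adds `ξ` times the row of level `b` to the row of
level `b + 1`; levels are counted from the bottom.  `Mst α l` is the array after the first `l`
letters of `α`.
-/

set_option autoImplicit false

namespace Pool.Agent.CutSeq

open Finset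

/-- vectors of length `n` over the field with two elements -/
abbrev V (n : ℕ) := Fin n → ZMod 2

/-- strictly lower triangular arrays with `n` rows; the row `k` has `k` entries -/
abbrev Un (n : ℕ) := (k : Fin n) → V k.val

section Ent

variable {Ω A B : Type*} [Fintype Ω]

open Classical in
/-- weight of the fibre of `X` over `a` -/
noncomputable def mass (w : Ω → ℝ) (X : Ω → A) (a : A) : ℝ := ∑ ω, if X ω = a then w ω else 0

/-- total weight -/
noncomputable def tot (w : Ω → ℝ) : ℝ := ∑ ω, w ω

/-- unnormalised relative entropy of `X` given `Y` with respect to the uniform law on `A` -/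
noncomputable def KK [Fintype A] (w : Ω → ℝ) (X : Ω → A) (Y : Ω → B) : ℝ :=
  ∑ ω, w ω * Real.log (Fintype.card A * mass w (fun ω => (X ω, Y ω)) (X ω, Y ω) / mass w Y (Y ω))

/-- unnormalised relative entropy of `X` with respect to the uniform law -/
noncomputable def K0 [Fintype A] (w : Ω → ℝ) (X : Ω → A) : ℝ := KK w X (fun _ => ())

/-- unnormalised binary entropy -/
noncomputable def HH (a b : ℝ) : ℝ := a * Real.log ((a + b) / a) + b * Real.log ((a + b) / b)

/-- restriction of a weight to an event -/
noncomputable def ind (G : Set Ω) (w : Ω → ℝ) : Ω → ℝ := G.indicator w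

end Ent

/-- orthogonal of a subspace -/
def perp {n : ℕ} (T : Submodule (ZMod 2) (V n)) : Submodule (ZMod 2) (V n) where
  carrier := {a | ∀ x ∈ T, x ⬝ᵥ a = 0}
  add_mem' := by
    intro a b ha hb x hx
    rw [dotProduct_add, ha x hx, hb x hx, add_zero]
  zero_mem' := by
    intro x _
    exact dotProduct_zero x
  smul_mem' := by
    intro c a ha x hx
    rw [dotProduct_smul, ha x hx, smul_zero]

open Classical in
/-- uniform weight on a subspace -/
noncomputable def uT {n : ℕ} (T : Submodule (ZMod 2) (V n)) (x : V n) : ℝ :=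
  if x ∈ T then 1 / (Nat.card T : ℝ) else 0

/-- `m` siblings: given `ω`, independent and uniform on `T ω` -/
noncomputable def sib {Ω : Type*} {n : ℕ} (w : Ω → ℝ) (T : Ω → Submodule (ZMod 2) (V n)) (m : ℕ) :
    Ω × (Fin m → V n) → ℝ := fun p => w p.1 * ∏ i, uT (T p.1) (p.2 i)

/-- first `n` rows of an array -/
def pre (ρ : (k : ℕ) → V k) (n : ℕ) : Un n := fun k => ρ k.val

/-- first `n` coordinates -/
def cut {n i : ℕ} (h : n ≤ i) (x : V i) : V n := fun j => x ⟨j.val, lt_of_lt_of_le j.isLt h⟩

/-- zero padding -/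
def pad {n n' : ℕ} (a : V n) : V n' := fun j => if h : j.val < n then a ⟨j.val, h⟩ else 0

/-- posterior probability, given `Y = y`, that `a` is orthogonal to `T` -/
noncomputable def post {Ω B : Type*} [Fintype Ω] {n : ℕ} (w : Ω → ℝ)
    (T : Ω → Submodule (ZMod 2) (V n)) (Y : Ω → B) (a : V n) (y : B) : ℝ :=
  mass (ind {ω | a ∈ perp (T ω)} w) Y y / mass w Y y

/-- the list of vectors of posterior probability at least `2 ^ (-k)` -/
def lst {Ω B : Type*} [Fintype Ω] {n : ℕ} (w : Ω → ℝ)
    (T : Ω → Submodule (ZMod 2) (V n)) (Y : Ω → B) (k : ℕ) (y : B) : Set (V n) :=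
  {a | (1 / 2 : ℝ) ^ k ≤ post w T Y a y}

/-- dimension of the span of the vectors of posterior probability at least `1 / 2` -/
noncomputable def vdim {Ω B : Type*} [Fintype Ω] {n : ℕ} (w : Ω → ℝ)
    (T : Ω → Submodule (ZMod 2) (V n)) (Y : Ω → B) (y : B) : ℕ :=
  Module.finrank (ZMod 2) (Submodule.span (ZMod 2) {a : V n | (1 / 2 : ℝ) ≤ post w T Y a y})

/-! ### The model -/

/-- letters: bond and coin -/
abbrev Seq := ℕ → ℕ × ZMod 2

/-- the array after `l` letters -/
def Mst (α : Seq) : ℕ → ℕ → ℕ → ZMod 2
  | 0, k, j => if k = j then 1 else 0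
  | l + 1, k, j => Mst α l k j + if k = (α l).1 + 1 then (α l).2 * Mst α l (α l).1 j else 0

/-- row of level `n`, columns `< n`, after `l` letters -/
def row (α : Seq) (l n : ℕ) : V n := fun j => Mst α l n j.val

/-- all rows -/
def arr (α : Seq) (l : ℕ) : (k : ℕ) → V k := fun k => row α l k

/-- the first `n` rows -/
def mm (α : Seq) (l n : ℕ) : Un n := pre (arr α l) n

/-- row of level `n - 1`, columns `< n` (diagonal included) -/
def low (α : Seq) (l n : ℕ) : V n := fun j => Mst α l (n - 1) j.val

/-- the span of the rows of level `n - 1` at the rings of level `n` before `l` -/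
def TT (α : Seq) (l n : ℕ) : Submodule (ZMod 2) (V n) :=
  Submodule.span (ZMod 2) {x | ∃ i < l, (α i).1 + 1 = n ∧ x = low α i n}

/-- hidden relations of the row of level `n` -/
def AA (α : Seq) (l n : ℕ) : Submodule (ZMod 2) (V n) := perp (TT α l n)

/-- words of `L` letters with bonds `< B` -/
abbrev Wd (B L : ℕ) := Fin L → Fin B × ZMod 2

/-- the letter sequence of a word (harmless letters afterwards) -/
def ext {B L : ℕ} (ω : Wd B L) : Seq := fun l =>
  if h : l < L then ((ω ⟨l, h⟩).1.val, (ω ⟨l, h⟩).2) else (B, 0)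

/-- what level `n` sees of a letter: bonds below `n - 1` fully, bond `n - 1` without its coin -/
def msk (n : ℕ) (p : ℕ × ZMod 2) : ℕ × ZMod 2 := if p.1 + 1 < n then p else (min p.1 n, 0)

/-- same history of level `n` before `l` -/
def Same {B L : ℕ} (n l : ℕ) (ω ω' : Wd B L) : Prop := ∀ i < l, msk n (ext ω i) = msk n (ext ω' i)

/-- events of level `n` at `l` -/
def Lev {B L : ℕ} (n l : ℕ) (G : Set (Wd B L)) : Prop :=
  ∀ ω ω', Same n l ω ω' → (ω ∈ G ↔ ω' ∈ G)

/-- events of the first `l` letters -/
def Past {B L : ℕ} (l : ℕ) (G : Set (Wd B L)) : Prop :=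
  ∀ ω ω' : Wd B L, (∀ i < l, ext ω i = ext ω' i) → (ω ∈ G ↔ ω' ∈ G)

/-- uniform weight on words -/
noncomputable def uw (B L : ℕ) : Wd B L → ℝ := fun _ => 1 / (Fintype.card (Wd B L) : ℝ)

/-- probability of an event under a weight -/
noncomputable def pr {Ω : Type*} [Fintype Ω] (w : Ω → ℝ) (G : Set Ω) : ℝ := tot (ind G w)

/-- conditional probability of `E` given the history of level `n` at `l` -/
noncomputable def cp {B L : ℕ} (n l : ℕ) (E : Set (Wd B L)) (ω : Wd B L) : ℝ :=
  pr (uw B L) (E ∩ {ω' | Same n l ω ω'}) / pr (uw B L) {ω' | Same n l ω ω'}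

/-- position of the highest nonzero coordinate, plus one (`0` for the zero vector) -/
def tp {n : ℕ} (z : V n) : ℕ := (univ.filter fun j : Fin n => z j ≠ 0).sup fun j => j.val + 1

/-- action of a triangular array on a vector: `(x z)_k = z_k + ∑_{j < k} x_k j * z_j` -/
def act {n : ℕ} (x : Un n) (z : V n) : V n :=
  fun k => z k + ∑ j : Fin k.val, x k j * z ⟨j.val, j.isLt.trans k.isLt⟩

/-- product of triangular arrays (`act (mulU x y) = act x ∘ act y`) -/
def mulU {n : ℕ} (x y : Un n) : Un n := fun k j =>
  x k j + y k j + ∑ i : Fin k.val, if h : j.val < i.val then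
    x k i * y ⟨i.val, i.isLt.trans k.isLt⟩ ⟨j.val, h⟩ else 0

/-- shifted letter sequence -/
def shift (α : Seq) (l : ℕ) : Seq := fun i => α (l + i)

/-- the unitriangular matrix (rows from the top) of a triangular array (levels from the bottom) -/
def toMat (n : ℕ) (x : Un n) : Matrix (Fin n) (Fin n) (ZMod 2) := fun i j =>
  if h : i.val < j.val then
    x ⟨n - 1 - i.val, by have := i.isLt; omega⟩ ⟨n - 1 - j.val, by have := j.isLt; simp only; omega⟩
  else if i = j then 1 else 0

end Pool.Agent.CutSeq
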