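import Mathlib

/-! Row DENS: almost all sizes, and a positive proportion of sizes, abstract form. -/

set_option autoImplicit false

namespace Pool.Agent.CutSeq

open Filter Topology Finset

namespace Dens

theorem ico_tele (f : ℕ → ℝ) (A M : ℕ) (hAM : A ≤ M) :
    ∑ N ∈ Ico A M, (f (N + 1) - f N) = f M - f A := by
  induction M, hAM using Nat.le_induction with
  | base => simp
  | succ M hM ih => rw [Finset.sum_Ico_succ_top hM, ih]; ring

theorem shift_sum (f : ℕ → ℝ) (hf : Monotone f) (A M h : ℕ) (hAM : A ≤ M) :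
    ∑ N ∈ Ico A M, (f (N + h) - f N) ≤ h * (f (M + h) - f A) := by
  induction h with
  | zero => simp
  | succ h ih =>
    have h1 : ∑ N ∈ Ico A M, (f (N + (h + 1)) - f N)
        = ∑ N ∈ Ico A M, (f (N + h) - f N) + ∑ N ∈ Ico A M, (f (N + 1 + h) - f (N + h)) := by
      rw [← sum_add_distrib]
      apply sum_congr rfl
      intro N _
      rw [show N + (h + 1) = N + 1 + h by ring]
      ring
    have h2 : ∑ N ∈ Ico A M, (f (N + 1 + h) - f (N + h)) = f (M + h) - f (A + h) :=
      ico_tele (fun N => f (N + h)) A M hAM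
    have h3 : f A ≤ f (A + h) := hf (Nat.le_add_right _ _)
    have h4 : f (M + h) ≤ f (M + (h + 1)) := hf (by omega)
    have h5 : (h : ℝ) * (f (M + h) - f A) ≤ h * (f (M + (h + 1)) - f A) :=
      mul_le_mul_of_nonneg_left (by linarith) (Nat.cast_nonneg h)
    rw [h1, h2]
    push_cast
    linarith

/-- few jumps -/
theorem jump_card (f : ℕ → ℝ) (hf : Monotone f) (A M h : ℕ) (hAM : A ≤ M) (l : ℝ) :
    l * (((Ico A M).filter fun N => l < f (N + h) - f N).card : ℝ) ≤ h * (f (M + h) - f A) := by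
  refine le_trans ?_ (shift_sum f hf A M h hAM)
  have h1 : l * (((Ico A M).filter fun N => l < f (N + h) - f N).card : ℝ)
      ≤ ∑ N ∈ (Ico A M).filter fun N => l < f (N + h) - f N, (f (N + h) - f N) := by
    rw [mul_comm, ← nsmul_eq_mul]
    apply Finset.card_nsmul_le_sum
    intro N hN
    exact (Finset.mem_filter.mp hN).2.le
  refine h1.trans ?_
  apply Finset.sum_le_sum_of_subset_of_nonneg (Finset.filter_subset _ _)
  intro N _ _
  have := hf (Nat.le_add_right N h)
  linarith

/-- the numerical inequality -/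
theorem first_bound (μ d y : ℝ) (hμ : 7 ≤ μ) (hy7 : 7 ≤ y)
    (hyμ : (1 - d) * (μ / 2) ≤ y) (hd : 0 ≤ d) (hd1 : d ≤ 1) :
    y * (1 - 16 / 3 / μ) + 16 / 3 ≤ 29 / 21 * y + 16 / 3 * d := by
  have hμ0 : 0 < μ := by linarith
  have h2 : 1 - d ≤ y * (1 / 14 + 1 / μ) := by
    rcases le_total μ 14 with h | h
    · have h3 : 1 / 14 ≤ 1 / μ := one_div_le_one_div_of_le hμ0 h
      nlinarith
    · have h3 : (1 - d) * (μ / 2) * (1 / 14 + 1 / μ) ≤ y * (1 / 14 + 1 / μ) :=
        mul_le_mul_of_nonneg_right hyμ (by positivity)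
      have h4 : (1 - d) * (μ / 2) * (1 / 14 + 1 / μ) = (1 - d) * (μ / 28 + 1 / 2) := by
        field_simp
        ring
      have h5 : (1 - d) * 1 ≤ (1 - d) * (μ / 28 + 1 / 2) :=
        mul_le_mul_of_nonneg_left (by linarith) (by linarith)
      linarith
  have h6 : y * (1 - 16 / 3 / μ) = y - 16 / 3 * (y * (1 / 14 + 1 / μ)) + 8 / 21 * y := by
    field_simp
    ring
  rw [h6]
  linarith

end Dens

/-- `a` is the mixing time at a high level, `b` at a low level: almost all sizes -/
theorem almost_all_abs (a b : ℕ → ℝ) (μ : ℝ) (hμ : 7 ≤ μ) (hmono : Monotone a)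
    (ha0 : ∀ n, 0 ≤ a n)
    (hlow7 : ∀ᶠ n : ℕ in atTop, 7 * (n : ℝ) ≤ a n)
    (hlow : ∀ δ : ℝ, 0 < δ → ∀ᶠ n : ℕ in atTop, (1 - δ) * (μ / 2) * n ≤ a n)
    (hup : ∀ δ : ℝ, 0 < δ → ∀ᶠ n : ℕ in atTop, a n ≤ (1 + δ) * μ * n)
    (hB : ∀ δ : ℝ, 0 < δ → ∀ᶠ N : ℕ in atTop, ∃ n' : ℕ, (n' : ℝ) ≤ (1 + δ) * N ∧
      b N ≤ a n' + 16 / 3 * ((N : ℝ) - n') + δ * N)
    (δ : ℝ) (hδ : 0 < δ) (τ : ℝ) (hτ : 0 < τ) :
    ∀ᶠ M : ℕ in atTop,
      (((range M).filter fun N => (29 / 21 + δ) * a N < b N).card : ℝ) ≤ τ * M := by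
  have hμ0 : 0 < μ := by linarith
  -- parameters
  set η : ℝ := min (τ / 4) 1 with hη
  have hη0 : 0 < η := lt_min (by positivity) one_pos
  have hητ : η ≤ τ / 4 := min_le_left _ _
  have hη1 : η ≤ 1 := min_le_right _ _
  set l : ℝ := η * δ with hl
  have hl0 : 0 < l := by positivity
  set d : ℝ := min (min 1 (δ / (16 * μ))) (min (l * τ / (32 * μ)) (τ / 8)) with hd
  have hd0 : 0 < d := by
    refine lt_min (lt_min one_pos (by positivity)) (lt_min (by positivity) (by positivity))
  have hd1 : d ≤ 1 := (min_le_left _ _).trans (min_le_left _ _)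
  have hdδ : d ≤ δ / (16 * μ) := (min_le_left _ _).trans (min_le_right _ _)
  have hdl : d ≤ l * τ / (32 * μ) := (min_le_right _ _).trans (min_le_left _ _)
  obtain ⟨n₀, hn₀⟩ := eventually_atTop.1
    (hlow7.and ((hlow d hd0).and ((hup d hd0).and (hB d hd0))))
  have hE : ∀ᶠ M : ℕ in atTop,
      max (max (n₀ / η) (a n₀ / (d * η))) (max (8 / τ) (1 / d)) ≤ (M : ℝ) :=
    tendsto_natCast_atTop_atTop.eventually_ge_atTop _
  filter_upwards [hE, eventually_ge_atTop 1] with M hM hM1
  have hMR : (1 : ℝ) ≤ M := by exact_mod_cast hM1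
  have hM0 : (0 : ℝ) < M := by linarith
  have hMn : (n₀ : ℝ) ≤ η * M := by
    have : n₀ / η ≤ M := (le_max_left _ _).trans ((le_max_left _ _).trans hM)
    rw [div_le_iff₀ hη0] at this
    linarith
  have hMa : a n₀ ≤ d * (η * M) := by
    have : a n₀ / (d * η) ≤ M := (le_max_right _ _).trans ((le_max_left _ _).trans hM)
    rw [div_le_iff₀ (by positivity)] at this
    linarith
  have hMτ : 8 ≤ τ * M := by
    have : 8 / τ ≤ M := (le_max_left _ _).trans ((le_max_right _ _).trans hM)
    rw [div_le_iff₀ hτ] at this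
    linarith
  have hMd : 1 ≤ d * M := by
    have : 1 / d ≤ M := (le_max_right _ _).trans ((le_max_right _ _).trans hM)
    rw [div_le_iff₀ hd0] at this
    linarith
  set A : ℕ := ⌈η * M⌉₊ with hA
  have hA1 : η * M ≤ A := Nat.le_ceil _
  have hA2 : (A : ℝ) < η * M + 1 := Nat.ceil_lt_add_one (by positivity)
  have hAM : A ≤ M := Nat.ceil_le.2 (by nlinarith)
  have hn₀A : n₀ ≤ A := by exact_mod_cast hMn.trans hA1
  set h : ℕ := ⌈d * M⌉₊ with hh
  have hh1 : d * M ≤ h := Nat.le_ceil _
  have hh2 : (h : ℝ) < d * M + 1 := Nat.ceil_lt_add_one (by positivity)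
  have hhM : (h : ℝ) ≤ 2 * (d * M) := by linarith
  have hhM' : h ≤ M := Nat.ceil_le.2 (by nlinarith)
  -- the exceptional set
  have hsub : ((range M).filter fun N => (29 / 21 + δ) * a N < b N)
      ⊆ range A ∪ ((Ico A M).filter fun N => l * M < a (N + h) - a N) := by
    intro N hN
    rw [mem_filter, mem_range] at hN
    obtain ⟨hNM, hNb⟩ := hN
    rw [mem_union, mem_range, mem_filter, mem_Ico]
    by_contra hcon
    push Not at hcon
    obtain ⟨hAN, hcon2⟩ := hcon
    have hjump := hcon2 ⟨hAN, hNM⟩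
    have hNMR : (N : ℝ) ≤ M := by exact_mod_cast hNM.le
    have hANR : (A : ℝ) ≤ N := by exact_mod_cast hAN
    have hN0 : (0 : ℝ) < N := by
      have : 0 < η * (M : ℝ) := by positivity
      linarith
    obtain ⟨haN7, haNμ, haNup, n', hn1, hn2⟩ := hn₀ N (hn₀A.trans hAN)
    have hηM : η * M ≤ N := hA1.trans hANR
    have hlM : l * M ≤ δ * N := by
      have h1 : δ * (η * M) ≤ δ * N := mul_le_mul_of_nonneg_left hηM hδ.le
      have h2 : l * M = δ * (η * M) := by rw [hl]; ring
      linarith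
    have hdN : 0 < d * N := by positivity
    have hδN : 0 < δ * (N : ℝ) := by positivity
    have h16 : 16 * μ * d ≤ δ := by
      rw [le_div_iff₀ (by positivity)] at hdδ
      linarith
    rcases le_or_gt n' N with hcase | hcase
    · have hcR : (n' : ℝ) ≤ N := by exact_mod_cast hcase
      have hcoef : 0 ≤ 1 - 16 / 3 / ((1 + d) * μ) := by
        have : 16 / 3 / ((1 + d) * μ) ≤ 1 := by
          rw [div_le_one (by positivity)]
          have : 0 ≤ d * μ := by positivity
          linarith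
        linarith
      have hval : a n' - 16 / 3 * (n' : ℝ)
          ≤ a N * (1 - 16 / 3 / ((1 + d) * μ)) + d * N := by
        rcases le_or_gt n₀ n' with h' | h'
        · have h2 := (hn₀ n' h').2.2.1
          have h3 : a n' / ((1 + d) * μ) ≤ n' := by
            rw [div_le_iff₀ (by positivity)]
            linarith
          have h4 : a n' - 16 / 3 * (n' : ℝ) ≤ a n' * (1 - 16 / 3 / ((1 + d) * μ)) := by
            have h5 : a n' * (1 - 16 / 3 / ((1 + d) * μ))
                = a n' - 16 / 3 * (a n' / ((1 + d) * μ)) := by ring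
            rw [h5]
            linarith
          have h6 : a n' * (1 - 16 / 3 / ((1 + d) * μ)) ≤ a N * (1 - 16 / 3 / ((1 + d) * μ)) :=
            mul_le_mul_of_nonneg_right (hmono hcase) hcoef
          linarith
        · have h2 : a n' ≤ a n₀ := hmono h'.le
          have h3 : a n₀ ≤ d * N := hMa.trans (mul_le_mul_of_nonneg_left hηM hd0.le)
          have h4 : (0 : ℝ) ≤ 16 / 3 * (n' : ℝ) := by positivity
          have h5 : 0 ≤ a N * (1 - 16 / 3 / ((1 + d) * μ)) := mul_nonneg (ha0 N) hcoef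
          linarith
      -- compare the coefficients
      have hcf : 16 / 3 / μ - d ≤ 16 / 3 / ((1 + d) * μ) := by
        have h2 : 16 / 3 / ((1 + d) * μ) = 16 / 3 / μ - 16 / 3 / μ * (d / (1 + d)) := by
          field_simp
          ring
        rw [h2]
        have h3 : 16 / 3 / μ ≤ 1 := by
          rw [div_le_one hμ0]
          linarith
        have h4 : d / (1 + d) ≤ d := div_le_self hd0.le (by linarith)
        have h5 : 16 / 3 / μ * (d / (1 + d)) ≤ 1 * d :=
          mul_le_mul h3 h4 (by positivity) (by norm_num)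
        linarith
      set y : ℝ := a N / N with hy
      have hyN : y * N = a N := div_mul_cancel₀ _ hN0.ne'
      have hy7 : 7 ≤ y := by
        rw [hy, le_div_iff₀ hN0]
        exact haN7
      have hyμ : (1 - d) * (μ / 2) ≤ y := by
        rw [hy, le_div_iff₀ hN0]
        exact haNμ
      have hyup : y ≤ 2 * μ := by
        rw [hy, div_le_iff₀ hN0]
        have : (1 + d) * μ * (N : ℝ) ≤ 2 * μ * N := by
          apply mul_le_mul_of_nonneg_right _ hN0.le
          exact mul_le_mul_of_nonneg_right (by linarith) hμ0.le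
        linarith
      have hfb := Dens.first_bound μ d y hμ hy7 hyμ hd0.le hd1
      have hfbN : a N * (1 - 16 / 3 / μ) + 16 / 3 * N ≤ 29 / 21 * a N + 16 / 3 * d * N := by
        have h1 := mul_le_mul_of_nonneg_right hfb hN0.le
        have h2 : (y * (1 - 16 / 3 / μ) + 16 / 3) * (N : ℝ)
            = a N * (1 - 16 / 3 / μ) + 16 / 3 * N := by rw [← hyN]; ring
        have h3 : (29 / 21 * y + 16 / 3 * d) * (N : ℝ) = 29 / 21 * a N + 16 / 3 * d * N := by
          rw [← hyN]; ring
        linarith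
      have h7 : a N * (1 - 16 / 3 / ((1 + d) * μ)) ≤ a N * (1 - 16 / 3 / μ) + a N * d := by
        have := mul_le_mul_of_nonneg_left hcf (ha0 N)
        linarith
      have h8 : a N * d ≤ 2 * μ * d * N := by
        have := mul_le_mul_of_nonneg_right hyup (by positivity : 0 ≤ d * (N : ℝ))
        rw [← hyN]
        linarith
      have h9 : (2 * μ + 16 / 3 + 2) * d ≤ δ := by
        have : (7 : ℝ) * d ≤ μ * d := mul_le_mul_of_nonneg_right hμ hd0.le
        linarith
      have h10 : (2 * μ + 16 / 3 + 2) * d * N ≤ δ * N := mul_le_mul_of_nonneg_right h9 hN0.le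
      have h11 : δ * (7 * (N : ℝ)) ≤ δ * a N := mul_le_mul_of_nonneg_left haN7 hδ.le
      linarith
    · have h1 : n' ≤ N + h := by
        have h2 : (n' : ℝ) ≤ ((N + h : ℕ) : ℝ) := by
          push_cast
          have : d * (N : ℝ) ≤ d * M := mul_le_mul_of_nonneg_left hNMR hd0.le
          linarith
        exact_mod_cast h2
      have h2 : a n' ≤ a (N + h) := hmono h1
      have h3 : (N : ℝ) < n' := by exact_mod_cast hcase
      have h4 : d * (N : ℝ) ≤ δ * N := by
        apply mul_le_mul_of_nonneg_right _ hN0.le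
        have : (7 : ℝ) * d ≤ μ * d := mul_le_mul_of_nonneg_right hμ hd0.le
        linarith
      have h11 : δ * (7 * (N : ℝ)) ≤ δ * a N := mul_le_mul_of_nonneg_left haN7 hδ.le
      have := ha0 N
      linarith
  -- counting
  have hj := Dens.jump_card a hmono A M h hAM (l * M)
  have hup2 : a (M + h) ≤ 4 * μ * M := by
    have h1 := (hn₀ (M + h) (by omega)).2.2.1
    have h2 : ((M + h : ℕ) : ℝ) ≤ 2 * M := by
      push_cast
      have : (h : ℝ) ≤ M := by exact_mod_cast hhM'
      linarith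
    have h3 : (1 + d) * μ * ((M + h : ℕ) : ℝ) ≤ 2 * μ * (2 * M) := by
      apply mul_le_mul _ h2 (Nat.cast_nonneg _) (by positivity)
      exact mul_le_mul_of_nonneg_right (by linarith) hμ0.le
    linarith
  set X : ℝ := (((Ico A M).filter fun N => l * M < a (N + h) - a N).card : ℝ) with hX
  have hXle : X ≤ τ / 4 * M := by
    have h1 : (h : ℝ) * (a (M + h) - a A) ≤ 2 * (d * M) * (4 * μ * M) := by
      apply mul_le_mul hhM _ _ (by positivity)
      · linarith [ha0 A]
      · have : a A ≤ a (M + h) := hmono (by omega)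
        linarith
    have h2 : 32 * μ * d ≤ l * τ := by
      rw [le_div_iff₀ (by positivity)] at hdl
      linarith
    have h3 : l * M * X ≤ l * M * (τ / 4 * M) := by
      calc l * M * X ≤ 2 * (d * M) * (4 * μ * M) := hj.trans h1
        _ = (32 * μ * d) * (M * M) / 4 := by ring
        _ ≤ (l * τ) * (M * M) / 4 := by
            apply div_le_div_of_nonneg_right _ (by norm_num)
            exact mul_le_mul_of_nonneg_right h2 (by positivity)
        _ = l * M * (τ / 4 * M) := by ring
    exact le_of_mul_le_mul_left h3 (by positivity)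
  have hcard := Finset.card_le_card hsub
  have hcard2 := hcard.trans (Finset.card_union_le _ _)
  rw [card_range] at hcard2
  have hcard3 : (((range M).filter fun N => (29 / 21 + δ) * a N < b N).card : ℝ) ≤ A + X := by
    rw [hX]
    exact_mod_cast hcard2
  have h5 : η * (M : ℝ) ≤ τ / 4 * M := mul_le_mul_of_nonneg_right hητ hM0.le
  linarith

/-- a positive proportion of sizes -/
theorem pos_density_abs (a b : ℕ → ℝ) (μ : ℝ) (hμ : 7 ≤ μ) (hmono : Monotone a)
    (hlow7 : ∀ᶠ n : ℕ in atTop, 7 * (n : ℝ) ≤ a n)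
    (hup : ∀ᶠ n : ℕ in atTop, a n ≤ 2 * μ * n)
    (hB : ∀ δ : ℝ, 0 < δ → ∀ᶠ N : ℕ in atTop, ∃ n' : ℕ, (n' : ℝ) ≤ (1 + δ) * N ∧
      b N ≤ a n' + 16 / 3 * ((N : ℝ) - n') + δ * N)
    (δ : ℝ) (hδ : 0 < δ) :
    ∃ c : ℝ, 0 < c ∧ ∀ᶠ M : ℕ in atTop,
      c * M ≤ (((range M).filter fun N => b N ≤ (1 + δ) * a N).card : ℝ) := by
  have hμ0 : 0 < μ := by linarith
  -- parameters
  set κ : ℝ := 5 / (12 * μ) with hκ
  have hκ0 : 0 < κ := by positivity
  have hκ1 : κ ≤ 1 := by
    rw [hκ, div_le_one (by positivity)]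
    linarith
  have hκμ : 2 * μ * κ = 5 / 6 := by
    rw [hκ]
    field_simp
    norm_num
  set c : ℝ := min (1 / 4) (δ * κ / 16) with hc
  have hc0 : 0 < c := lt_min (by norm_num) (by positivity)
  have hc4 : c ≤ 1 / 4 := min_le_left _ _
  have hcδ : c ≤ δ * κ / 16 := min_le_right _ _
  set l : ℝ := δ * κ / 4 with hl
  have hl0 : 0 < l := by positivity
  set d : ℝ := min (min 1 δ) (l * c / (32 * μ)) with hd
  have hd0 : 0 < d := lt_min (lt_min one_pos hδ) (by positivity)
  have hd1 : d ≤ 1 := (min_le_left _ _).trans (min_le_left _ _)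
  have hdδ : d ≤ δ := (min_le_left _ _).trans (min_le_right _ _)
  have hdl : 32 * μ * d ≤ l * c := by
    have : d ≤ l * c / (32 * μ) := min_le_right _ _
    rw [le_div_iff₀ (by positivity)] at this
    linarith
  obtain ⟨n₀, hn₀⟩ := eventually_atTop.1 (hlow7.and (hup.and (hB d hd0)))
  -- the function and its running maximum
  set g : ℕ → ℝ := fun n => a n - 16 / 3 * (n : ℝ) with hg
  have hne : ∀ N : ℕ, (range (N + 1)).Nonempty := fun N => ⟨0, mem_range.2 (Nat.succ_pos N)⟩
  set R : ℕ → ℝ := fun N => (range (N + 1)).sup' (hne N) g with hR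
  have hRle : ∀ m N : ℕ, m ≤ N → g m ≤ R N := fun m N hm =>
    Finset.le_sup' g (mem_range.2 (Nat.lt_succ_of_le hm))
  have hRex : ∀ N : ℕ, ∃ m ≤ N, R N = g m := by
    intro N
    obtain ⟨m, hm, h⟩ := Finset.exists_mem_eq_sup' (hne N) g
    exact ⟨m, Nat.lt_succ_iff.1 (mem_range.1 hm), h⟩
  have hRmono : Monotone R := by
    intro N N' hNN
    obtain ⟨m, hm, h⟩ := hRex N
    rw [h]
    exact hRle m N' (hm.trans hNN)
  refine ⟨c / 2, by positivity, ?_⟩
  have hE : ∀ᶠ M : ℕ in atTop,
      max (max (4 * (n₀ : ℝ) + 8) (4 * a n₀)) (max (4 / c) (1 / d)) ≤ (M : ℝ) :=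
    tendsto_natCast_atTop_atTop.eventually_ge_atTop _
  filter_upwards [hE] with M hM
  have hM1 : 4 * (n₀ : ℝ) + 8 ≤ M := (le_max_left _ _).trans ((le_max_left _ _).trans hM)
  have hM2 : 4 * a n₀ ≤ M := (le_max_right _ _).trans ((le_max_left _ _).trans hM)
  have hn₀R : (0 : ℝ) ≤ n₀ := Nat.cast_nonneg _
  have hM0 : (0 : ℝ) < M := by linarith
  have hMc : 4 ≤ c * M := by
    have : 4 / c ≤ M := (le_max_left _ _).trans ((le_max_right _ _).trans hM)
    rw [div_le_iff₀ hc0] at this
    linarith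
  have hMd : 1 ≤ d * M := by
    have : 1 / d ≤ M := (le_max_right _ _).trans ((le_max_right _ _).trans hM)
    rw [div_le_iff₀ hd0] at this
    linarith
  obtain ⟨M', hM'⟩ : ∃ M' : ℕ, M' = M / 2 := ⟨_, rfl⟩
  have hM'1 : (M' : ℝ) ≤ M / 2 := by
    have : 2 * M' ≤ M := by omega
    have : ((2 * M' : ℕ) : ℝ) ≤ M := by exact_mod_cast this
    push_cast at this
    linarith
  have hM'2 : (M : ℝ) / 4 ≤ M' := by
    have : M ≤ 2 * M' + 1 := by omega
    have : (M : ℝ) ≤ ((2 * M' + 1 : ℕ) : ℝ) := by exact_mod_cast this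
    push_cast at this
    linarith
  have hn₀M' : n₀ ≤ M' := by
    have : (n₀ : ℝ) ≤ M' := by linarith
    exact_mod_cast this
  obtain ⟨ns, hns, hgns⟩ := hRex M'
  have hnsM' : (ns : ℝ) ≤ M' := by exact_mod_cast hns
  have hgM' : 5 / 3 * (M' : ℝ) ≤ g M' := by
    have := (hn₀ M' hn₀M').1
    rw [hg]
    simp only
    linarith
  have hgns2 : 5 / 3 * (M' : ℝ) ≤ g ns := by
    rw [← hgns]
    exact hgM'.trans (hRle M' M' le_rfl)
  -- the record is not small
  have hnsκ : κ * M' ≤ ns := by
    by_contra hcon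
    push Not at hcon
    have h1 : g ns ≤ a ns := by
      rw [hg]
      simp only
      have : (0 : ℝ) ≤ 16 / 3 * (ns : ℝ) := by positivity
      linarith
    rcases le_or_gt n₀ ns with h | h
    · have h2 := (hn₀ ns h).2.1
      have h3 : 2 * μ * (ns : ℝ) ≤ 2 * μ * (κ * M') := mul_le_mul_of_nonneg_left hcon.le (by positivity)
      have h4 : 2 * μ * (κ * M') = 5 / 6 * (M' : ℝ) := by rw [← hκμ]; ring
      linarith
    · have h2 : a ns ≤ a n₀ := hmono h.le
      linarith
  have hMns : M ≤ 4 / κ * (ns : ℝ) := by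
    rw [div_mul_eq_mul_div, le_div_iff₀ hκ0]
    have : κ * ((M : ℝ) / 4) ≤ κ * M' := mul_le_mul_of_nonneg_left hM'2 hκ0.le
    linarith
  set s : ℕ := ⌊c * M⌋₊ with hs
  have hs1 : (s : ℝ) ≤ c * M := Nat.floor_le (by positivity)
  have hs2 : c * M < s + 1 := Nat.lt_floor_add_one _
  set h : ℕ := ⌈d * M⌉₊ with hh
  have hh1 : d * M ≤ h := Nat.le_ceil _
  have hh2 : (h : ℝ) < d * M + 1 := Nat.ceil_lt_add_one (by positivity)
  have hhM : (h : ℝ) ≤ 2 * (d * M) := by linarith
  have hhM' : h ≤ M := Nat.ceil_le.2 (by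
    have := mul_le_mul_of_nonneg_right hd1 hM0.le
    linarith)
  have hsM : ns + s ≤ M := by
    have h1 : ((ns + s : ℕ) : ℝ) ≤ M := by
      push_cast
      have := mul_le_mul_of_nonneg_right hc4 hM0.le
      linarith
    exact_mod_cast h1
  -- points after the record are close to the running maximum
  have hnear : ∀ N : ℕ, ns ≤ N → N < ns + s → R N ≤ g N + 16 / 3 * s := by
    intro N h1 h2
    obtain ⟨m, hm, hgm⟩ := hRex N
    have h3 : (ns : ℝ) ≤ N := by exact_mod_cast h1
    have h4 : (N : ℝ) ≤ ns + s := by exact_mod_cast h2.le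
    rw [hgm]
    rcases le_or_gt m M' with h5 | h5
    · have h6 : g m ≤ g ns := by
        rw [← hgns]
        exact hRle m M' h5
      have h7 : a ns ≤ a N := hmono h1
      rw [hg] at h6 ⊢
      simp only at h6 ⊢
      linarith
    · have h7 : a m ≤ a N := hmono hm
      have h8 : (ns : ℝ) ≤ m := by exact_mod_cast (hns.trans h5.le)
      rw [hg]
      simp only
      linarith
  -- the good points
  have hsub : (Ico ns (ns + s)) \ ((Ico ns (ns + s)).filter fun N => l * M < R (N + h) - R N)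
      ⊆ (range M).filter fun N => b N ≤ (1 + δ) * a N := by
    intro N hN
    rw [Finset.mem_sdiff, mem_filter, mem_Ico] at hN
    obtain ⟨⟨hN1, hN2⟩, hN3⟩ := hN
    have hjump : R (N + h) - R N ≤ l * M := by
      by_contra hcon
      exact hN3 ⟨⟨hN1, hN2⟩, not_le.1 hcon⟩
    have hNM : N < M := lt_of_lt_of_le hN2 hsM
    have hNMR : (N : ℝ) ≤ M := by exact_mod_cast hNM.le
    have hnsN : (ns : ℝ) ≤ N := by exact_mod_cast hN1
    have hnsκ2 : (n₀ : ℝ) ≤ ns ∨ ns < n₀ := by
      rcases le_or_gt n₀ ns with h' | h'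
      · exact Or.inl (by exact_mod_cast h')
      · exact Or.inr h'
    have hn₀N : n₀ ≤ N := by
      rcases le_or_gt n₀ ns with h' | h'
      · exact h'.trans hN1
      · exfalso
        have h2 : a ns ≤ a n₀ := hmono h'.le
        have h1 : g ns ≤ a ns := by
          rw [hg]
          simp only
          have : (0 : ℝ) ≤ 16 / 3 * (ns : ℝ) := by positivity
          linarith
        linarith
    obtain ⟨haN7, -, n', hn1, hn2⟩ := hn₀ N hn₀N
    rw [mem_filter, mem_range]
    refine ⟨hNM, ?_⟩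
    have h1 : n' ≤ N + h := by
      have h2 : (n' : ℝ) ≤ ((N + h : ℕ) : ℝ) := by
        push_cast
        have : d * (N : ℝ) ≤ d * M := mul_le_mul_of_nonneg_left hNMR hd0.le
        linarith
      exact_mod_cast h2
    have h2 : g n' ≤ R (N + h) := hRle n' (N + h) h1
    have h3 := hnear N hN1 hN2
    have h4 : b N ≤ a N + 16 / 3 * (c * M) + l * M + d * N := by
      rw [hg] at h2 h3
      simp only at h2 h3
      linarith
    have h5 : (M : ℝ) ≤ 4 / κ * N := hMns.trans (mul_le_mul_of_nonneg_left hnsN (by positivity))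
    have h6 : 16 / 3 * (c * M) ≤ 4 / 3 * δ * N := by
      have e1 : c * M ≤ δ * κ / 16 * (4 / κ * N) :=
        mul_le_mul hcδ h5 hM0.le (by positivity)
      have e2 : δ * κ / 16 * (4 / κ * (N : ℝ)) = δ / 4 * N := by
        field_simp
        ring
      linarith
    have h7 : l * M ≤ δ * N := by
      have e1 : l * M ≤ l * (4 / κ * N) := mul_le_mul_of_nonneg_left h5 hl0.le
      have e2 : l * (4 / κ * (N : ℝ)) = δ * N := by
        rw [hl]
        field_simp
      linarith
    have hN0 : (0 : ℝ) ≤ N := Nat.cast_nonneg _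
    have h8 : d * (N : ℝ) ≤ δ * N := mul_le_mul_of_nonneg_right hdδ hN0
    have h9 : δ * (7 * (N : ℝ)) ≤ δ * a N := mul_le_mul_of_nonneg_left haN7 hδ.le
    have h10 : 0 ≤ δ * (N : ℝ) := by positivity
    linarith
  -- counting
  have hj := Dens.jump_card R hRmono ns (ns + s) h (Nat.le_add_right _ _) (l * M)
  have hRup : R (ns + s + h) ≤ 4 * μ * M := by
    obtain ⟨m, hm, hgm⟩ := hRex (ns + s + h)
    rw [hgm]
    have h1 : g m ≤ a m := by
      rw [hg]
      simp only
      have : (0 : ℝ) ≤ 16 / 3 * (m : ℝ) := by positivity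
      linarith
    have h2 : a m ≤ a (M + M) := hmono (by omega)
    have h3 := (hn₀ (M + M) (by
      have : M' ≤ M + M := by omega
      omega)).2.1
    push_cast at h3
    linarith
  have hRns : 0 ≤ R ns := by
    have h1 := hRle ns ns le_rfl
    have : (0 : ℝ) ≤ M' := Nat.cast_nonneg _
    linarith
  set X : ℝ := (((Ico ns (ns + s)).filter fun N => l * M < R (N + h) - R N).card : ℝ) with hX
  have hXle : X ≤ c / 4 * M := by
    have h1 : (h : ℝ) * (R (ns + s + h) - R ns) ≤ 2 * (d * M) * (4 * μ * M) := by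
      apply mul_le_mul hhM _ _ (by positivity)
      · linarith
      · have : R ns ≤ R (ns + s + h) := hRmono (by omega)
        linarith
    have h3 : l * M * X ≤ l * M * (c / 4 * M) := by
      calc l * M * X ≤ 2 * (d * M) * (4 * μ * M) := hj.trans h1
        _ = (32 * μ * d) * (M * M) / 4 := by ring
        _ ≤ (l * c) * (M * M) / 4 := by
            apply div_le_div_of_nonneg_right _ (by norm_num)
            exact mul_le_mul_of_nonneg_right hdl (by positivity)
        _ = l * M * (c / 4 * M) := by ring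
    exact le_of_mul_le_mul_left h3 (by positivity)
  have hcard := Finset.card_le_card hsub
  rw [Finset.card_sdiff_of_subset (Finset.filter_subset _ _), Nat.card_Ico] at hcard
  have hcard2 : (s : ℝ) - X ≤ (((range M).filter fun N => b N ≤ (1 + δ) * a N).card : ℝ) := by
    rw [hX]
    have h1 : s ≤ ((range M).filter fun N => b N ≤ (1 + δ) * a N).card
        + ((Ico ns (ns + s)).filter fun N => l * M < R (N + h) - R N).card := by omega
    have h2 : (s : ℝ) ≤ (((range M).filter fun N => b N ≤ (1 + δ) * a N).card : ℝ)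
        + (((Ico ns (ns + s)).filter fun N => l * M < R (N + h) - R N).card : ℝ) := by
      exact_mod_cast h1
    linarith
  linarith

end Pool.Agent.CutSeq
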