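import Pool.Agent.CutSeq.Defs

/-! Row ENT: entropy toolkit. -/

set_option autoImplicit false

namespace Pool.Agent.CutSeq

open Finset

variable {Ω Ω' A A' B B' : Type*} [Fintype Ω] [Fintype Ω'] [Fintype A] [Fintype A']

section Basic

variable {C C' : Type*}

lemma mass_nonneg (w : Ω → ℝ) (hw : ∀ ω, 0 ≤ w ω) (X : Ω → C) (c : C) : 0 ≤ mass w X c := by
  classical
  unfold mass
  refine Finset.sum_nonneg fun ω _ => ?_
  split
  · exact hw ω
  · exact le_rfl

lemma le_mass_self (w : Ω → ℝ) (hw : ∀ ω, 0 ≤ w ω) (X : Ω → C) (ω : Ω) : w ω ≤ mass w X (X ω) := by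
  classical
  unfold mass
  have := Finset.single_le_sum (f := fun ω' => if X ω' = X ω then w ω' else 0)
    (fun ω' _ => by
      show 0 ≤ (if X ω' = X ω then w ω' else 0)
      split
      · exact hw ω'
      · exact le_rfl) (Finset.mem_univ ω)
  simpa using this

lemma mass_pos (w : Ω → ℝ) (hw : ∀ ω, 0 ≤ w ω) (X : Ω → C) {ω : Ω} (h : w ω ≠ 0) :
    0 < mass w X (X ω) :=
  lt_of_lt_of_le (lt_of_le_of_ne (hw ω) (Ne.symm h)) (le_mass_self w hw X ω)

lemma mass_congr (w : Ω → ℝ) (X : Ω → C) (X' : Ω → C') (c : C) (c' : C')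
    (h : ∀ ω, w ω ≠ 0 → (X ω = c ↔ X' ω = c')) : mass w X c = mass w X' c' := by
  classical
  unfold mass
  refine Finset.sum_congr rfl fun ω _ => ?_
  by_cases hw : w ω = 0
  · simp [hw]
  · by_cases hc : X ω = c
    · rw [if_pos hc, if_pos ((h ω hw).1 hc)]
    · rw [if_neg hc, if_neg (fun h' => hc ((h ω hw).2 h'))]

lemma mass_mono (w : Ω → ℝ) (hw : ∀ ω, 0 ≤ w ω) (X : Ω → C) (X' : Ω → C') (c : C) (c' : C')
    (h : ∀ ω, X ω = c → X' ω = c') : mass w X c ≤ mass w X' c' := by
  classical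
  unfold mass
  refine Finset.sum_le_sum fun ω _ => ?_
  by_cases hc : X ω = c
  · rw [if_pos hc, if_pos (h ω hc)]
  · rw [if_neg hc]
    split
    · exact hw ω
    · exact le_rfl

lemma mass_add (w w' : Ω → ℝ) (X : Ω → C) (c : C) :
    mass (w + w') X c = mass w X c + mass w' X c := by
  classical
  unfold mass
  rw [← Finset.sum_add_distrib]
  refine Finset.sum_congr rfl fun ω _ => ?_
  by_cases hc : X ω = c <;> simp [hc]

lemma mass_le_mass (w w' : Ω → ℝ) (h : ∀ ω, w' ω ≤ w ω) (X : Ω → C) (c : C) :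
    mass w' X c ≤ mass w X c := by
  classical
  unfold mass
  refine Finset.sum_le_sum fun ω _ => ?_
  by_cases hc : X ω = c
  · simp only [hc, if_true]; exact h ω
  · simp [hc]

lemma mass_const (w : Ω → ℝ) (c : C) : mass w (fun _ => c) c = tot w := by
  classical
  unfold mass tot
  simp

lemma sum_mass (w : Ω → ℝ) (X : Ω → A) (Y : Ω → B) (b : B) :
    ∑ a, mass w (fun ω => (X ω, Y ω)) (a, b) = mass w Y b := by
  classical
  unfold mass
  rw [Finset.sum_comm]
  refine Finset.sum_congr rfl fun ω _ => ?_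
  by_cases hb : Y ω = b
  · simp [hb, Prod.ext_iff]
  · simp [hb, Prod.ext_iff]

/-- integration against the law -/
lemma sum_eq_sum_mass (w : Ω → ℝ) (X : Ω → C) (s : Finset C) (hs : ∀ ω, w ω ≠ 0 → X ω ∈ s)
    (G : C → ℝ) : ∑ ω, w ω * G (X ω) = ∑ c ∈ s, mass w X c * G c := by
  classical
  unfold mass
  simp only [Finset.sum_mul]
  rw [Finset.sum_comm]
  refine Finset.sum_congr rfl fun ω _ => ?_
  by_cases hw : w ω = 0
  · simp [hw]
  · rw [Finset.sum_eq_single_of_mem (X ω) (hs ω hw)]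
    · simp
    · intro c _ hc
      rw [if_neg (fun h => hc h.symm)]
      simp

lemma mass_eq_zero (w : Ω → ℝ) (X : Ω → C) (c : C) (h : ∀ ω, w ω ≠ 0 → X ω ≠ c) :
    mass w X c = 0 := by
  classical
  unfold mass
  refine Finset.sum_eq_zero fun ω _ => ?_
  by_cases hw : w ω = 0
  · simp [hw]
  · rw [if_neg (h ω hw)]

end Basic

/-- the basic counting inequality -/
lemma basic_count (w : Ω → ℝ) (hw : ∀ ω, 0 ≤ w ω) (X : Ω → A) (Y : Ω → B) (ψ : A → B → ℝ)
    (hψ : ∀ a b, 0 ≤ ψ a b) :
    ∑ ω, w ω * (ψ (X ω) (Y ω) * mass w Y (Y ω) / mass w (fun ω => (X ω, Y ω)) (X ω, Y ω)) ≤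
      ∑ ω, w ω * ∑ a, ψ a (Y ω) := by
  classical
  set sB : Finset B := Finset.univ.image Y with hsB
  have h1 := sum_eq_sum_mass w (fun ω => (X ω, Y ω)) ((Finset.univ : Finset A) ×ˢ sB)
    (by
      intro ω _
      simp [hsB])
    (fun c => ψ c.1 c.2 * mass w Y c.2 / mass w (fun ω => (X ω, Y ω)) c)
  have h2 := sum_eq_sum_mass w Y sB
    (by
      intro ω _
      simp [hsB])
    (fun b => ∑ a, ψ a b)
  rw [h1, h2, Finset.sum_product_right]
  refine Finset.sum_le_sum fun b _ => ?_
  rw [Finset.mul_sum]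
  refine Finset.sum_le_sum fun a _ => ?_
  have hb := mass_nonneg w hw Y b
  by_cases hm : mass w (fun ω => (X ω, Y ω)) (a, b) = 0
  · rw [hm, zero_mul]
    exact mul_nonneg hb (hψ a b)
  · have : mass w (fun ω => (X ω, Y ω)) (a, b) *
        (ψ (a, b).1 (a, b).2 * mass w Y (a, b).2 / mass w (fun ω => (X ω, Y ω)) (a, b)) =
        mass w Y b * ψ a b := by
      field_simp
    exact this.le

/-- Donsker-Varadhan inequality with a nonnegative test function -/
lemma DV' (w : Ω → ℝ) (hw : ∀ ω, 0 ≤ w ω) (X : Ω → A) (Y : Ω → B) (ψ : A → B → ℝ)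
    (hψ : ∀ a b, 0 ≤ ψ a b) (hpos : ∀ ω, w ω ≠ 0 → 0 < ψ (X ω) (Y ω)) :
    ∑ ω, w ω * Real.log (ψ (X ω) (Y ω)) ≤ KK w X Y
      + ∑ ω, w ω * Real.log ((∑ a, ψ a (Y ω)) / Fintype.card A) := by
  classical
  have hS : ∀ ω, w ω ≠ 0 → 0 < ∑ a, ψ a (Y ω) := by
    intro ω h
    exact lt_of_lt_of_le (hpos ω h)
      (Finset.single_le_sum (f := fun a => ψ a (Y ω)) (fun a _ => hψ a _) (Finset.mem_univ _))
  have hSn : ∀ b, 0 ≤ ∑ a, ψ a b := fun b => Finset.sum_nonneg fun a _ => hψ a b
  have h1 := basic_count w hw X Y (fun a b => ψ a b / ∑ a', ψ a' b)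
    (fun a b => div_nonneg (hψ a b) (hSn b))
  have h2 : ∑ ω, w ω * ∑ a, (ψ a (Y ω) / ∑ a', ψ a' (Y ω)) = ∑ ω, w ω * 1 := by
    refine Finset.sum_congr rfl fun ω _ => ?_
    by_cases h : w ω = 0
    · simp [h]
    · rw [← Finset.sum_div, div_self (hS ω h).ne']
  rw [h2] at h1
  unfold KK
  rw [← Finset.sum_add_distrib, ← sub_nonpos, ← Finset.sum_sub_distrib]
  have h3 : ∀ ω ∈ (Finset.univ : Finset Ω), w ω * Real.log (ψ (X ω) (Y ω)) -
      (w ω * Real.log (Fintype.card A * mass w (fun ω => (X ω, Y ω)) (X ω, Y ω) / mass w Y (Y ω)) +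
        w ω * Real.log ((∑ a, ψ a (Y ω)) / Fintype.card A)) ≤
      w ω * (ψ (X ω) (Y ω) / (∑ a', ψ a' (Y ω)) * mass w Y (Y ω) /
        mass w (fun ω => (X ω, Y ω)) (X ω, Y ω)) - w ω * 1 := by
    intro ω _
    by_cases h : w ω = 0
    · simp [h]
    · have m1 := mass_pos w hw (fun ω => (X ω, Y ω)) h
      have m2 := mass_pos w hw Y h
      have hs := hS ω h
      have hp := hpos ω h
      have hA : (0 : ℝ) < Fintype.card A := by
        have : Nonempty A := ⟨X ω⟩
        exact_mod_cast Fintype.card_pos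
      rw [← mul_add, ← mul_sub, ← mul_sub]
      refine mul_le_mul_of_nonneg_left ?_ (hw ω)
      rw [← Real.log_mul (by positivity) (by positivity), ← Real.log_div hp.ne' (by positivity)]
      have h4 := Real.log_le_sub_one_of_pos (x := ψ (X ω) (Y ω) / (∑ a', ψ a' (Y ω)) *
        mass w Y (Y ω) / mass w (fun ω => (X ω, Y ω)) (X ω, Y ω)) (by positivity)
      refine le_trans (le_of_eq ?_) h4
      congr 1
      field_simp
  refine (Finset.sum_le_sum h3).trans ?_
  rw [Finset.sum_sub_distrib]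
  linarith

/-- (E11) Donsker-Varadhan -/
theorem DV (w : Ω → ℝ) (hw : ∀ ω, 0 ≤ w ω) (X : Ω → A) (Y : Ω → B) (φ : A → B → ℝ) :
    ∑ ω, w ω * φ (X ω) (Y ω) ≤ KK w X Y
      + ∑ ω, w ω * Real.log ((∑ a, Real.exp (φ a (Y ω))) / Fintype.card A) := by
  have := DV' w hw X Y (fun a b => Real.exp (φ a b)) (fun a b => (Real.exp_pos _).le)
    (fun ω _ => Real.exp_pos _)
  simpa only [Real.log_exp] using this

/-- (E1) -/
theorem KK_nonneg (w : Ω → ℝ) (hw : ∀ ω, 0 ≤ w ω) (X : Ω → A) (Y : Ω → B) : 0 ≤ KK w X Y := by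
  have := DV' w hw X Y (fun _ _ => 1) (fun _ _ => zero_le_one) (fun _ _ => zero_lt_one)
  simp only [Real.log_one, mul_zero, Finset.sum_const_zero, Finset.sum_const, Finset.card_univ,
    nsmul_eq_mul, mul_one] at this
  rcases eq_or_ne ((Fintype.card A : ℕ) : ℝ) 0 with h | h
  · rw [h] at this
    simpa using this
  · rw [div_self h] at this
    simpa using this

/-- a test function which is a conditional density gives a lower bound for the entropy -/
lemma DV_density (w : Ω → ℝ) (hw : ∀ ω, 0 ≤ w ω) (X : Ω → A) (Y : Ω → B) (ψ : A → B → ℝ)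
    (hψ : ∀ a b, 0 ≤ ψ a b) (hpos : ∀ ω, w ω ≠ 0 → 0 < ψ (X ω) (Y ω))
    (hsum : ∀ ω, w ω ≠ 0 → ∑ a, ψ a (Y ω) = Fintype.card A) :
    ∑ ω, w ω * Real.log (ψ (X ω) (Y ω)) ≤ KK w X Y := by
  have h := DV' w hw X Y ψ hψ hpos
  have h2 : ∑ ω, w ω * Real.log ((∑ a, ψ a (Y ω)) / Fintype.card A) = 0 := by
    refine Finset.sum_eq_zero fun ω _ => ?_
    by_cases hz : w ω = 0
    · simp [hz]
    · have hA : ((Fintype.card A : ℕ) : ℝ) ≠ 0 := by
        have : Nonempty A := ⟨X ω⟩
        exact_mod_cast Fintype.card_ne_zero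
      rw [hsum ω hz, div_self hA, Real.log_one, mul_zero]
  linarith

/-- (E2) chain rule -/
theorem KK_chain (w : Ω → ℝ) (hw : ∀ ω, 0 ≤ w ω) (X : Ω → A) (X' : Ω → A') (Y : Ω → B) :
    KK w (fun ω => (X ω, X' ω)) Y = KK w X Y + KK w X' (fun ω => (X ω, Y ω)) := by
  unfold KK
  rw [← Finset.sum_add_distrib]
  refine Finset.sum_congr rfl fun ω _ => ?_
  by_cases h : w ω = 0
  · simp [h]
  · have e1 : mass w (fun ω => ((X ω, X' ω), Y ω)) ((X ω, X' ω), Y ω) =
        mass w (fun ω => (X' ω, (X ω, Y ω))) (X' ω, (X ω, Y ω)) := by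
      refine mass_congr w _ _ _ _ fun ω' _ => ?_
      simp only [Prod.mk.injEq]
      tauto
    have m1 := mass_pos w hw (fun ω => (X' ω, (X ω, Y ω))) h
    have m2 := mass_pos w hw (fun ω => (X ω, Y ω)) h
    have m3 := mass_pos w hw Y h
    have hA : (0 : ℝ) < Fintype.card A := by
      have : Nonempty A := ⟨X ω⟩
      exact_mod_cast Fintype.card_pos
    have hA' : (0 : ℝ) < Fintype.card A' := by
      have : Nonempty A' := ⟨X' ω⟩
      exact_mod_cast Fintype.card_pos
    rw [← mul_add, ← Real.log_mul (by positivity) (by positivity), e1, Fintype.card_prod]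
    congr 2
    push_cast
    field_simp

/-- (E3) conditioning on more increases -/
theorem KK_finer (w : Ω → ℝ) (hw : ∀ ω, 0 ≤ w ω) (X : Ω → A) (Y : Ω → B) (Y' : Ω → B')
    (h : ∀ ω ω', w ω ≠ 0 → w ω' ≠ 0 → Y' ω = Y' ω' → Y ω = Y ω') : KK w X Y ≤ KK w X Y' := by
  classical
  set ψ : A → B' → ℝ := fun a b' =>
    if hb : ∃ ω, w ω ≠ 0 ∧ Y' ω = b' then
      Fintype.card A * mass w (fun ω => (X ω, Y ω)) (a, Y hb.choose) / mass w Y (Y hb.choose)
    else 0 with hψdef
  have hval : ∀ ω, w ω ≠ 0 → ∀ a, ψ a (Y' ω) =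
      Fintype.card A * mass w (fun ω => (X ω, Y ω)) (a, Y ω) / mass w Y (Y ω) := by
    intro ω hω a
    have hb : ∃ ω', w ω' ≠ 0 ∧ Y' ω' = Y' ω := ⟨ω, hω, rfl⟩
    have e : Y hb.choose = Y ω := h _ _ hb.choose_spec.1 hω hb.choose_spec.2
    simp only [hψdef]
    rw [dif_pos hb, e]
  have key := DV_density w hw X Y' ψ
    (by
      intro a b
      simp only [hψdef]
      split
      · exact div_nonneg (mul_nonneg (by positivity) (mass_nonneg w hw _ _)) (mass_nonneg w hw _ _)
      · exact le_rfl)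
    (by
      intro ω hω
      rw [hval ω hω]
      have m1 := mass_pos w hw (fun ω => (X ω, Y ω)) hω
      have m2 := mass_pos w hw Y hω
      have hA : (0 : ℝ) < Fintype.card A := by
        have : Nonempty A := ⟨X ω⟩
        exact_mod_cast Fintype.card_pos
      positivity)
    (by
      intro ω hω
      simp only [hval ω hω]
      have m2 := mass_pos w hw Y hω
      rw [← Finset.sum_div, ← Finset.mul_sum, sum_mass, mul_div_assoc, div_self m2.ne', mul_one])
  refine le_trans (le_of_eq ?_) key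
  unfold KK
  refine Finset.sum_congr rfl fun ω _ => ?_
  by_cases hω : w ω = 0
  · simp [hω]
  · rw [hval ω hω]

/-- (E4) bijections depending on the conditioning -/
theorem KK_bij (w : Ω → ℝ) (hw : ∀ ω, 0 ≤ w ω) (X : Ω → A) (X' : Ω → A') (Y : Ω → B)
    (σ : B → A ≃ A') (h : ∀ ω, w ω ≠ 0 → X' ω = σ (Y ω) (X ω)) : KK w X' Y = KK w X Y := by
  unfold KK
  refine Finset.sum_congr rfl fun ω _ => ?_
  by_cases hω : w ω = 0
  · simp [hω]
  · have e1 : mass w (fun ω => (X' ω, Y ω)) (X' ω, Y ω) = mass w (fun ω => (X ω, Y ω)) (X ω, Y ω) := by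
      refine mass_congr w _ _ _ _ fun ω' hω' => ?_
      simp only [Prod.mk.injEq]
      constructor
      · rintro ⟨h1, h2⟩
        refine ⟨?_, h2⟩
        rw [h ω' hω', h ω hω, h2] at h1
        exact (σ (Y ω)).injective h1
      · rintro ⟨h1, h2⟩
        refine ⟨?_, h2⟩
        rw [h ω' hω', h ω hω, h1, h2]
    rw [e1, Fintype.card_congr (σ (Y ω))]

/-- (E5) data processing for maps with fibres of equal size -/
theorem KK_map (w : Ω → ℝ) (hw : ∀ ω, 0 ≤ w ω) (X : Ω → A) (Y : Ω → B) (φ : A → A')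
    (hφ : ∀ a' : A', Nat.card {a // φ a = a'} * Fintype.card A' = Fintype.card A) :
    KK w (fun ω => φ (X ω)) Y ≤ KK w X Y := by
  classical
  have key := DV_density w hw X Y
    (fun a b => Fintype.card A' * mass w (fun ω => (φ (X ω), Y ω)) (φ a, b) / mass w Y b)
    (fun a b => div_nonneg (mul_nonneg (by positivity) (mass_nonneg w hw _ _)) (mass_nonneg w hw _ _))
    (by
      intro ω hω
      have m1 := mass_pos w hw (fun ω => (φ (X ω), Y ω)) hω
      have m2 := mass_pos w hw Y hω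
      have hA : (0 : ℝ) < Fintype.card A' := by
        have : Nonempty A' := ⟨φ (X ω)⟩
        exact_mod_cast Fintype.card_pos
      positivity)
    (by
      intro ω hω
      have m2 := mass_pos w hw Y hω
      have h1 : ∑ a : A, mass w (fun ω => (φ (X ω), Y ω)) (φ a, Y ω) =
          ∑ a' : A', (Nat.card {a // φ a = a'} : ℝ) * mass w (fun ω => (φ (X ω), Y ω)) (a', Y ω) := by
        rw [← Finset.sum_fiberwise_of_maps_to (s := (Finset.univ : Finset A))
          (t := (Finset.univ : Finset A')) (g := φ) (fun _ _ => Finset.mem_univ _)]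
        refine Finset.sum_congr rfl fun a' _ => ?_
        rw [Finset.sum_congr rfl (g := fun _ => mass w (fun ω => (φ (X ω), Y ω)) (a', Y ω))]
        · rw [Finset.sum_const, nsmul_eq_mul]
          congr 2
          rw [Nat.card_eq_fintype_card, Fintype.card_subtype]
        · intro a ha
          rw [Finset.mem_filter] at ha
          rw [ha.2]
      rw [← Finset.sum_div, ← Finset.mul_sum, h1, Finset.mul_sum]
      have h2 : ∀ a' ∈ (Finset.univ : Finset A'), (Fintype.card A' : ℝ) *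
          ((Nat.card {a // φ a = a'} : ℝ) * mass w (fun ω => (φ (X ω), Y ω)) (a', Y ω)) =
          Fintype.card A * mass w (fun ω => (φ (X ω), Y ω)) (a', Y ω) := by
        intro a' _
        have h3 : ((Nat.card {a // φ a = a'} : ℕ) : ℝ) * (Fintype.card A' : ℝ) = Fintype.card A := by
          exact_mod_cast hφ a'
        rw [← h3]
        ring
      rw [Finset.sum_congr rfl h2, ← Finset.mul_sum, sum_mass, mul_div_assoc, div_self m2.ne', mul_one])
  exact key

/-- (E6) superadditivity -/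
theorem KK_super (w : Ω → ℝ) (hw : ∀ ω, 0 ≤ w ω) (X : Ω → A) (X' : Ω → A') (Y : Ω → B) :
    KK w X Y + KK w X' Y ≤ KK w (fun ω => (X ω, X' ω)) Y := by
  rw [KK_chain w hw X X' Y]
  have := KK_finer w hw X' Y (fun ω => (X ω, Y ω)) (by
    intro ω ω' _ _ h
    exact (Prod.mk.inj h).2)
  linarith

/-- (E7) subadditivity in the weight -/
theorem KK_add_le (w w' : Ω → ℝ) (hw : ∀ ω, 0 ≤ w ω) (hw' : ∀ ω, 0 ≤ w' ω) (X : Ω → A)
    (Y : Ω → B) : KK (w + w') X Y ≤ KK w X Y + KK w' X Y := by
  have hW : ∀ ω, 0 ≤ (w + w') ω := fun ω => add_nonneg (hw ω) (hw' ω)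
  have aux : ∀ u : Ω → ℝ, (∀ ω, 0 ≤ u ω) → (∀ ω, u ω ≠ 0 → (w + w') ω ≠ 0) →
      ∑ ω, u ω * Real.log (Fintype.card A * mass (w + w') (fun ω => (X ω, Y ω)) (X ω, Y ω) /
        mass (w + w') Y (Y ω)) ≤ KK u X Y := by
    intro u hu hne
    refine DV_density u hu X Y
      (fun a b => Fintype.card A * mass (w + w') (fun ω => (X ω, Y ω)) (a, b) / mass (w + w') Y b)
      (fun a b => div_nonneg (mul_nonneg (by positivity) (mass_nonneg _ hW _ _))
        (mass_nonneg _ hW _ _)) ?_ ?_
    · intro ω hω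
      have m1 := mass_pos (w + w') hW (fun ω => (X ω, Y ω)) (hne ω hω)
      have m2 := mass_pos (w + w') hW Y (hne ω hω)
      have hA : (0 : ℝ) < Fintype.card A := by
        have : Nonempty A := ⟨X ω⟩
        exact_mod_cast Fintype.card_pos
      positivity
    · intro ω hω
      have m2 := mass_pos (w + w') hW Y (hne ω hω)
      rw [← Finset.sum_div, ← Finset.mul_sum, sum_mass, mul_div_assoc, div_self m2.ne', mul_one]
  have h1 := aux w hw (fun ω h => by
    have : 0 < w ω := lt_of_le_of_ne (hw ω) (Ne.symm h)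
    have h2 := hw' ω
    show w ω + w' ω ≠ 0
    linarith)
  have h2 := aux w' hw' (fun ω h => by
    have : 0 < w' ω := lt_of_le_of_ne (hw' ω) (Ne.symm h)
    have h2 := hw ω
    show w ω + w' ω ≠ 0
    linarith)
  have h3 : KK (w + w') X Y = ∑ ω, w ω * Real.log (Fintype.card A *
      mass (w + w') (fun ω => (X ω, Y ω)) (X ω, Y ω) / mass (w + w') Y (Y ω)) +
      ∑ ω, w' ω * Real.log (Fintype.card A *
      mass (w + w') (fun ω => (X ω, Y ω)) (X ω, Y ω) / mass (w + w') Y (Y ω)) := by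
    unfold KK
    rw [← Finset.sum_add_distrib]
    refine Finset.sum_congr rfl fun ω _ => ?_
    rw [Pi.add_apply, add_mul]
  linarith

lemma tot_nonneg (w : Ω → ℝ) (hw : ∀ ω, 0 ≤ w ω) : 0 ≤ tot w := Finset.sum_nonneg fun ω _ => hw ω

lemma le_tot (w : Ω → ℝ) (hw : ∀ ω, 0 ≤ w ω) (ω : Ω) : w ω ≤ tot w :=
  Finset.single_le_sum (f := w) (fun ω _ => hw ω) (Finset.mem_univ ω)

lemma K0_eq (w : Ω → ℝ) (X : Ω → A) :
    K0 w X = ∑ ω, w ω * Real.log (Fintype.card A * mass w X (X ω) / tot w) := by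
  unfold K0 KK
  refine Finset.sum_congr rfl fun ω _ => ?_
  rw [mass_const]
  congr 4
  refine mass_congr w _ _ _ _ fun ω' _ => ?_
  simp

/-- (E8) smaller weights -/
theorem K0_sub_le (w w' : Ω → ℝ) (hw' : ∀ ω, 0 ≤ w' ω) (hle : ∀ ω, w' ω ≤ w ω) (X : Ω → A) :
    K0 w' X ≤ K0 w X + HH (tot w') (tot w - tot w') := by
  have hw : ∀ ω, 0 ≤ w ω := fun ω => (hw' ω).trans (hle ω)
  set u : Ω → ℝ := fun ω => w ω - w' ω with hu
  have hu0 : ∀ ω, 0 ≤ u ω := fun ω => sub_nonneg.2 (hle ω)
  have hule : ∀ ω, u ω ≤ w ω := fun ω => by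
    simp only [hu]
    linarith [hw' ω]
  have htot : tot u = tot w - tot w' := by
    simp only [hu, tot, Finset.sum_sub_distrib]
  have aux : ∀ z : Ω → ℝ, (∀ ω, 0 ≤ z ω) → (∀ ω, z ω ≤ w ω) →
      K0 z X ≤ ∑ ω, z ω * Real.log (Fintype.card A * mass w X (X ω) / tot w) +
        tot z * Real.log (tot w / tot z) := by
    intro z hz hzw
    rw [K0_eq]
    unfold tot
    rw [Finset.sum_mul, ← Finset.sum_add_distrib]
    refine Finset.sum_le_sum fun ω _ => ?_
    by_cases h : z ω = 0
    · simp [h]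
    · have hzp : 0 < z ω := lt_of_le_of_ne (hz ω) (Ne.symm h)
      have hwp : 0 < w ω := lt_of_lt_of_le hzp (hzw ω)
      have t1 : 0 < tot z := lt_of_lt_of_le hzp (le_tot z hz ω)
      have t2 : 0 < tot w := lt_of_lt_of_le hwp (le_tot w hw ω)
      have m1 := mass_pos z hz X h
      have m2 := mass_pos w hw X hwp.ne'
      have m3 := mass_le_mass w z hzw X (X ω)
      have hA : (0 : ℝ) < Fintype.card A := by
        have : Nonempty A := ⟨X ω⟩
        exact_mod_cast Fintype.card_pos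
      rw [← mul_add]
      refine mul_le_mul_of_nonneg_left ?_ (hz ω)
      change Real.log (Fintype.card A * mass z X (X ω) / tot z) ≤
        Real.log (Fintype.card A * mass w X (X ω) / tot w) + Real.log (tot w / tot z)
      rw [← Real.log_mul (by positivity) (by positivity)]
      refine Real.log_le_log (by positivity) ?_
      have e : Fintype.card A * mass w X (X ω) / tot w * (tot w / tot z) =
          Fintype.card A * mass w X (X ω) / tot z := by
        field_simp
      rw [e]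
      gcongr
  have h1 := aux w' hw' hle
  have h2 := aux u hu0 hule
  have h3 : 0 ≤ K0 u X := KK_nonneg u hu0 X _
  have h4 : K0 w X = ∑ ω, w' ω * Real.log (Fintype.card A * mass w X (X ω) / tot w) +
      ∑ ω, u ω * Real.log (Fintype.card A * mass w X (X ω) / tot w) := by
    rw [K0_eq, ← Finset.sum_add_distrib]
    refine Finset.sum_congr rfl fun ω _ => ?_
    simp only [hu]
    ring
  have h5 : HH (tot w') (tot w - tot w') =
      tot w' * Real.log (tot w / tot w') + tot u * Real.log (tot w / tot u) := by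
    unfold HH
    rw [← htot, htot]
    ring_nf
  rw [h5]
  linarith

/-- (E9) -/
theorem KK_le (w : Ω → ℝ) (hw : ∀ ω, 0 ≤ w ω) (X : Ω → A) (Y : Ω → B) :
    KK w X Y ≤ tot w * Real.log (Fintype.card A) := by
  unfold KK tot
  rw [Finset.sum_mul]
  refine Finset.sum_le_sum fun ω _ => ?_
  by_cases h : w ω = 0
  · simp [h]
  · have m1 := mass_pos w hw (fun ω => (X ω, Y ω)) h
    have m2 := mass_pos w hw Y h
    have hA : (0 : ℝ) < Fintype.card A := by
      have : Nonempty A := ⟨X ω⟩
      exact_mod_cast Fintype.card_pos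
    refine mul_le_mul_of_nonneg_left ?_ (hw ω)
    refine Real.log_le_log (by positivity) ?_
    have m3 : mass w (fun ω => (X ω, Y ω)) (X ω, Y ω) ≤ mass w Y (Y ω) :=
      mass_mono w hw _ _ _ _ (fun ω' h' => (Prod.mk.inj h').2)
    rw [div_le_iff₀ m2]
    gcongr

/-- (E10) only the joint law matters -/
theorem KK_law (w : Ω → ℝ) (w' : Ω' → ℝ) (X : Ω → A) (Y : Ω → B) (X' : Ω' → A) (Y' : Ω' → B)
    (h : ∀ a b, mass w (fun ω => (X ω, Y ω)) (a, b) = mass w' (fun ω => (X' ω, Y' ω)) (a, b)) :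
    KK w X Y = KK w' X' Y' := by
  classical
  have hY : ∀ b, mass w Y b = mass w' Y' b := by
    intro b
    rw [← sum_mass w X Y b, ← sum_mass w' X' Y' b]
    exact Finset.sum_congr rfl fun a _ => h a b
  set s : Finset (A × B) := (Finset.univ : Finset A) ×ˢ (Finset.univ.image Y ∪ Finset.univ.image Y')
    with hs
  have h1 := sum_eq_sum_mass w (fun ω => (X ω, Y ω)) s (by
      intro ω _
      simp [hs])
    (fun c => Real.log (Fintype.card A * mass w (fun ω => (X ω, Y ω)) c / mass w Y c.2))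
  have h2 := sum_eq_sum_mass w' (fun ω => (X' ω, Y' ω)) s (by
      intro ω _
      simp [hs])
    (fun c => Real.log (Fintype.card A * mass w' (fun ω => (X' ω, Y' ω)) c / mass w' Y' c.2))
  unfold KK
  rw [h1, h2]
  refine Finset.sum_congr rfl fun c _ => ?_
  obtain ⟨a, b⟩ := c
  simp only [h a b, hY b]

/-- (E12) -/
theorem HH_le (a b N : ℝ) (ha : 0 ≤ a) (hb : 0 ≤ b) (hab : a + b ≤ 1) (hN : 2 ≤ N) :
    HH a b ≤ b * (1 + 2 * Real.log N) + 2 / N := by
  have hN0 : 0 < N := by linarith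
  have hlogN : 0 ≤ Real.log N := Real.log_nonneg (by linarith)
  have h1 : a * Real.log ((a + b) / a) ≤ b := by
    rcases eq_or_lt_of_le ha with h | h
    · rw [← h]; simpa using hb
    · have h2 := Real.log_le_sub_one_of_pos (x := (a + b) / a) (by positivity)
      have h3 : (a + b) / a - 1 = b / a := by
        field_simp
        ring
      rw [h3] at h2
      calc a * Real.log ((a + b) / a) ≤ a * (b / a) := mul_le_mul_of_nonneg_left h2 ha
        _ = b := by field_simp
  have h2 : b * Real.log ((a + b) / b) ≤ 2 * b * Real.log N + 2 / N := by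
    rcases eq_or_lt_of_le hb with h | h
    · rw [← h]
      simp only [zero_mul, mul_zero, zero_add]
      positivity
    · have h3 : b * Real.log ((a + b) / b) ≤ b * Real.log (1 / b) := by
        refine mul_le_mul_of_nonneg_left ?_ hb
        refine Real.log_le_log (by positivity) ?_
        gcongr
      refine h3.trans ?_
      by_cases hbN : 1 / N ^ 2 ≤ b
      · have h4 : Real.log (1 / b) ≤ 2 * Real.log N := by
          have h5 : 1 / b ≤ N ^ 2 := by
            rw [div_le_iff₀ h]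
            rw [div_le_iff₀ (by positivity)] at hbN
            linarith
          have h6 := Real.log_le_log (by positivity) h5
          rw [Real.log_pow] at h6
          exact_mod_cast h6
        have h7 : 0 ≤ 2 / N := by positivity
        have h8 := mul_le_mul_of_nonneg_left h4 hb
        linarith
      · push Not at hbN
        have hs : 0 < Real.sqrt b := Real.sqrt_pos.2 h
        have h4 : Real.log (1 / b) = 2 * Real.log (1 / Real.sqrt b) := by
          rw [one_div, one_div, Real.log_inv, Real.log_inv, Real.log_sqrt hb]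
          ring
        have h5 : Real.log (1 / Real.sqrt b) ≤ 1 / Real.sqrt b := by
          have := Real.log_le_sub_one_of_pos (x := 1 / Real.sqrt b) (by positivity)
          linarith
        have h6 : b * Real.log (1 / b) ≤ 2 * Real.sqrt b := by
          rw [h4]
          calc b * (2 * Real.log (1 / Real.sqrt b)) ≤ b * (2 * (1 / Real.sqrt b)) := by
                gcongr
            _ = 2 * (b / Real.sqrt b) := by ring
            _ = 2 * Real.sqrt b := by rw [Real.div_sqrt]
        have h7 : Real.sqrt b ≤ 1 / N := by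
          rw [Real.sqrt_le_left (by positivity)]
          rw [div_pow, one_pow]
          exact hbN.le
        have h8 : 2 * Real.sqrt b ≤ 2 / N := by
          calc 2 * Real.sqrt b ≤ 2 * (1 / N) := by gcongr
            _ = 2 / N := by ring
        have h9 : 0 ≤ 2 * b * Real.log N := by positivity
        linarith
  unfold HH
  linarith

/-- (E13) -/
theorem HH_nonneg (a b : ℝ) (ha : 0 ≤ a) (hb : 0 ≤ b) : 0 ≤ HH a b := by
  have aux : ∀ x y : ℝ, 0 ≤ x → 0 ≤ y → 0 ≤ x * Real.log ((x + y) / x) := by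
    intro x y hx hy
    rcases eq_or_lt_of_le hx with h | h
    · rw [← h]; simp
    · refine mul_nonneg hx (Real.log_nonneg ?_)
      rw [le_div_iff₀ h]
      linarith
  unfold HH
  have h1 := aux a b ha hb
  have h2 := aux b a hb ha
  rw [add_comm b a] at h2
  linarith

lemma sum_uT {n : ℕ} (T : Submodule (ZMod 2) (V n)) : ∑ x, uT T x = 1 := by
  classical
  unfold uT
  rw [← Finset.sum_filter, Finset.sum_const, nsmul_eq_mul]
  have h1 : (Finset.univ.filter fun x => x ∈ T).card = Nat.card T := by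
    rw [Nat.card_eq_fintype_card, Fintype.card_subtype]
  rw [h1]
  have h2 : ((Nat.card T : ℕ) : ℝ) ≠ 0 := by
    have : 0 < Nat.card T := Nat.card_pos
    exact_mod_cast this.ne'
  field_simp

lemma sum_prod_uT {n : ℕ} (T : Submodule (ZMod 2) (V n)) (m : ℕ) :
    ∑ x : Fin m → V n, ∏ i, uT T (x i) = 1 := by
  classical
  have := Fintype.prod_sum (ι := Fin m) (κ := fun _ => V n) (f := fun _ x => uT T x)
  simp only [sum_uT, Finset.prod_const_one] at this
  exact this.symm

/-- (E14) the siblings have total weight one -/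
theorem KK_sib_fst {n : ℕ} (w : Ω → ℝ) (T : Ω → Submodule (ZMod 2) (V n)) (m : ℕ) (X : Ω → A)
    (Y : Ω → B) : KK (sib w T m) (fun p => X p.1) (fun p => Y p.1) = KK w X Y := by
  classical
  refine KK_law _ _ _ _ _ _ fun a b => ?_
  unfold mass sib
  rw [Fintype.sum_prod_type]
  refine Finset.sum_congr rfl fun ω _ => ?_
  simp only
  split
  · rw [← Finset.mul_sum, sum_prod_uT, mul_one]
  · simp

end Pool.Agent.CutSeq
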