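import Pool.Agent.CutSeq.Ent

/-! Row QNT: quantisation (Q) and the dimension bound (V). -/

set_option autoImplicit false

namespace Pool.Agent.CutSeq

open Finset

/-- the sign of an element of the field with two elements -/
noncomputable def sg (u : ZMod 2) : ℝ := if u = 0 then 1 else -1

lemma sg_zero : sg 0 = 1 := by simp [sg]

lemma sg_one : sg 1 = -1 := by simp [sg]

lemma sg_add (u v : ZMod 2) : sg (u + v) = sg u * sg v := by
  have h : ∀ z : ZMod 2, z = 0 ∨ z = 1 := by decide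
  rcases h u with rfl | rfl <;> rcases h v with rfl | rfl
  · simp [sg_zero]
  · simp [sg_zero]
  · simp [sg_zero]
  · rw [show (1 : ZMod 2) + 1 = 0 by decide, sg_zero, sg_one]
    norm_num

lemma sg_sum {ι : Type*} (s : Finset ι) (f : ι → ZMod 2) : sg (∑ i ∈ s, f i) = ∏ i ∈ s, sg (f i) := by
  classical
  induction s using Finset.induction_on with
  | empty => simp [sg_zero]
  | insert i s hi ih => rw [Finset.sum_insert hi, Finset.prod_insert hi, sg_add, ih]

lemma sg_ne {u : ZMod 2} (h : u ≠ 0) : sg u = -1 := by simp [sg, h]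

lemma abs_sg (u : ZMod 2) : |sg u| = 1 := by
  unfold sg
  split <;> simp

lemma uT_nonneg {n : ℕ} (T : Submodule (ZMod 2) (V n)) (x : V n) : 0 ≤ uT T x := by
  classical
  unfold uT
  split
  · positivity
  · exact le_rfl

lemma uT_add {n : ℕ} (T : Submodule (ZMod 2) (V n)) {x₀ : V n} (h : x₀ ∈ T) (x : V n) :
    uT T (x + x₀) = uT T x := by
  classical
  unfold uT
  by_cases hx : x ∈ T
  · rw [if_pos hx, if_pos (T.add_mem hx h)]
  · rw [if_neg hx, if_neg]
    intro h'
    exact hx (by simpa using T.sub_mem h' h)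

lemma uT_pos_iff {n : ℕ} (T : Submodule (ZMod 2) (V n)) (x : V n) : uT T x ≠ 0 ↔ x ∈ T := by
  classical
  unfold uT
  by_cases hx : x ∈ T
  · have : ((Nat.card T : ℕ) : ℝ) ≠ 0 := by
      have : 0 < Nat.card T := Nat.card_pos
      exact_mod_cast this.ne'
    simp [hx]
  · simp [hx]

lemma mem_perp {n : ℕ} (T : Submodule (ZMod 2) (V n)) (a : V n) :
    a ∈ perp T ↔ ∀ x ∈ T, x ⬝ᵥ a = 0 := Iff.rfl

open Classical in
/-- character sums over a subspace -/
lemma sum_uT_sg {n : ℕ} (T : Submodule (ZMod 2) (V n)) (a : V n) :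
    ∑ x, uT T x * sg (x ⬝ᵥ a) = if a ∈ perp T then 1 else 0 := by
  by_cases ha : a ∈ perp T
  · rw [if_pos ha, ← sum_uT T]
    refine Finset.sum_congr rfl fun x _ => ?_
    by_cases hx : x ∈ T
    · rw [(mem_perp T a).1 ha x hx, sg_zero, mul_one]
    · have : uT T x = 0 := by
        by_contra h
        exact hx ((uT_pos_iff T x).1 h)
      rw [this, zero_mul]
  · rw [if_neg ha]
    rw [mem_perp] at ha
    push Not at ha
    obtain ⟨x₀, hx₀, hne⟩ := ha
    have h1 : ∑ x, uT T x * sg (x ⬝ᵥ a) = ∑ x, uT T (x + x₀) * sg ((x + x₀) ⬝ᵥ a) :=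
      (Equiv.sum_comp (Equiv.addRight x₀) (fun x => uT T x * sg (x ⬝ᵥ a))).symm
    have h2 : ∑ x, uT T (x + x₀) * sg ((x + x₀) ⬝ᵥ a) = -∑ x, uT T x * sg (x ⬝ᵥ a) := by
      rw [← Finset.sum_neg_distrib]
      refine Finset.sum_congr rfl fun x _ => ?_
      rw [uT_add T hx₀, add_dotProduct, sg_add, sg_ne hne]
      ring
    linarith

open Classical in
/-- orthogonality of the characters -/
lemma sum_sg {n : ℕ} (s : V n) : ∑ a : V n, sg (s ⬝ᵥ a) = if s = 0 then (2 : ℝ) ^ n else 0 := by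
  by_cases hs : s = 0
  · rw [if_pos hs, hs]
    simp [sg_zero]
  · rw [if_neg hs]
    obtain ⟨i, hi⟩ : ∃ i, s i ≠ 0 := by
      by_contra h
      push Not at h
      exact hs (funext h)
    have h1 : ∑ a : V n, sg (s ⬝ᵥ a) = ∑ a : V n, sg (s ⬝ᵥ (a + Pi.single i 1)) :=
      (Equiv.sum_comp (Equiv.addRight (Pi.single i (1 : ZMod 2) : V n)) (fun a => sg (s ⬝ᵥ a))).symm
    have h2 : ∑ a : V n, sg (s ⬝ᵥ (a + Pi.single i 1)) = -∑ a : V n, sg (s ⬝ᵥ a) := by
      rw [← Finset.sum_neg_distrib]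
      refine Finset.sum_congr rfl fun a _ => ?_
      rw [dotProduct_add, sg_add, dotProduct_single, mul_one, sg_ne hi]
      ring
    linarith

section Sums

variable {n : ℕ} (T : Submodule (ZMod 2) (V n))

/-- marginal of one sibling -/
lemma sum_prod_uT_coord (m : ℕ) (j : Fin m) (g : V n → ℝ) :
    ∑ x : Fin m → V n, (∏ i, uT T (x i)) * g (x j) = ∑ v, uT T v * g v := by
  classical
  have h := Fintype.prod_sum (ι := Fin m) (κ := fun _ => V n)
    (f := fun i v => uT T v * (if i = j then g v else 1))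
  rw [Finset.prod_eq_single j] at h
  · simp only [if_true] at h
    rw [h]
    refine Finset.sum_congr rfl fun x _ => ?_
    rw [Finset.prod_mul_distrib]
    congr 1
    rw [Finset.prod_eq_single j]
    · simp
    · intro i _ hi
      rw [if_neg hi]
    · intro hj
      exact absurd (Finset.mem_univ j) hj
  · intro i _ hi
    simp only [if_neg hi, mul_one]
    exact sum_uT T
  · intro hj
    exact absurd (Finset.mem_univ j) hj

/-- the sum of at least one sibling is distributed as one sibling -/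
lemma sum_prod_uT_sum (m : ℕ) (hm : 1 ≤ m) (G : V n → ℝ) :
    ∑ x : Fin m → V n, (∏ i, uT T (x i)) * G (∑ i, x i) = ∑ v, uT T v * G v := by
  classical
  obtain ⟨m, rfl⟩ : ∃ m', m = m' + 1 := ⟨m - 1, by omega⟩
  induction m generalizing G with
  | zero =>
    rw [← sum_prod_uT_coord T 1 0 G]
    refine Finset.sum_congr rfl fun x _ => ?_
    simp
  | succ m ih =>
    rw [← Equiv.sum_comp (Fin.consEquiv (fun _ : Fin (m + 1 + 1) => V n)), Fintype.sum_prod_type]
    have h1 : ∀ v : V n, ∑ x : Fin (m + 1) → V n,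
        (∏ i, uT T ((Fin.consEquiv (fun _ : Fin (m + 1 + 1) => V n)) (v, x) i)) *
          G (∑ i, (Fin.consEquiv (fun _ : Fin (m + 1 + 1) => V n)) (v, x) i) =
        uT T v * ∑ u, uT T u * G u := by
      intro v
      have h2 := ih (fun s => uT T v * G (v + s)) (by omega)
      have h3 : ∑ x : Fin (m + 1) → V n,
          (∏ i, uT T ((Fin.consEquiv (fun _ : Fin (m + 1 + 1) => V n)) (v, x) i)) *
            G (∑ i, (Fin.consEquiv (fun _ : Fin (m + 1 + 1) => V n)) (v, x) i) =
          ∑ x : Fin (m + 1) → V n, (∏ i, uT T (x i)) * (uT T v * G (v + ∑ i, x i)) := by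
        refine Finset.sum_congr rfl fun x _ => ?_
        rw [Fin.prod_univ_succ, Fin.sum_univ_succ]
        simp only [Fin.consEquiv_apply, Fin.cons_zero, Fin.cons_succ]
        ring
      rw [h3, h2]
      have h4 : ∑ u, uT T u * (uT T v * G (v + u)) = ∑ u, uT T v * (uT T u * G (u + v)) := by
        refine Finset.sum_congr rfl fun u _ => ?_
        rw [add_comm v u]
        ring
      rw [h4, ← Finset.mul_sum]
      by_cases hv : v ∈ T
      · congr 1
        rw [← Equiv.sum_comp (Equiv.addRight v) (fun u => uT T u * G u)]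
        refine Finset.sum_congr rfl fun u _ => ?_
        simp only [Equiv.coe_addRight]
        rw [uT_add T hv]
      · have : uT T v = 0 := by
          by_contra h
          exact hv ((uT_pos_iff T v).1 h)
        rw [this, zero_mul, zero_mul]
    rw [Finset.sum_congr rfl (fun v _ => h1 v), ← Finset.sum_mul, sum_uT, one_mul]

/-- Jensen for the uniform law on a subspace -/
lemma jensen_uT (g : V n → ℝ) (hg : ∀ v ∈ T, 0 < g v) :
    ∑ v, uT T v * Real.log (g v) ≤ Real.log (∑ v, uT T v * g v) := by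
  classical
  set c : ℝ := ∑ v, uT T v * g v with hc
  have hnn : ∀ v, 0 ≤ uT T v * g v := by
    intro v
    by_cases hv : v ∈ T
    · exact mul_nonneg (uT_nonneg T v) (hg v hv).le
    · have : uT T v = 0 := by
        by_contra h
        exact hv ((uT_pos_iff T v).1 h)
      rw [this, zero_mul]
  have hc0 : 0 < c := by
    have h0 : 0 < uT T 0 * g 0 :=
      mul_pos (lt_of_le_of_ne (uT_nonneg T 0) (Ne.symm ((uT_pos_iff T 0).2 T.zero_mem)))
        (hg 0 T.zero_mem)
    exact lt_of_lt_of_le h0 (Finset.single_le_sum (f := fun v => uT T v * g v)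
      (fun v _ => hnn v) (Finset.mem_univ _))
  have h1 : ∀ v ∈ (Finset.univ : Finset (V n)),
      uT T v * Real.log (g v) ≤ uT T v * Real.log c + (uT T v * g v / c - uT T v) := by
    intro v _
    by_cases hv : v ∈ T
    · have h2 := Real.log_le_sub_one_of_pos (x := g v / c) (div_pos (hg v hv) hc0)
      rw [Real.log_div (hg v hv).ne' hc0.ne'] at h2
      have h3 := mul_le_mul_of_nonneg_left h2 (uT_nonneg T v)
      have h4 : uT T v * (g v / c - 1) = uT T v * g v / c - uT T v := by ring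
      linarith
    · have : uT T v = 0 := by
        by_contra h
        exact hv ((uT_pos_iff T v).1 h)
      simp [this]
  refine (Finset.sum_le_sum h1).trans ?_
  rw [Finset.sum_add_distrib, Finset.sum_sub_distrib, ← Finset.sum_mul, sum_uT, ← Finset.sum_div,
    ← hc, div_self hc0.ne']
  simp

end Sums

section Model

variable {Ω B : Type*} [Fintype Ω] {n : ℕ}

open Classical in
/-- conditional law of one sibling -/
noncomputable def cl (w : Ω → ℝ) (T : Ω → Submodule (ZMod 2) (V n)) (Y : Ω → B) (v : V n) (y : B) : ℝ :=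
  (∑ ω, if Y ω = y then w ω * uT (T ω) v else 0) / mass w Y y

lemma sib_nonneg (w : Ω → ℝ) (hw : ∀ ω, 0 ≤ w ω) (T : Ω → Submodule (ZMod 2) (V n)) (m : ℕ)
    (p : Ω × (Fin m → V n)) : 0 ≤ sib w T m p :=
  mul_nonneg (hw _) (Finset.prod_nonneg fun _ _ => uT_nonneg _ _)

/-- sums over siblings -/
lemma sum_sib (w : Ω → ℝ) (T : Ω → Submodule (ZMod 2) (V n)) (m : ℕ)
    (G : Ω → (Fin m → V n) → ℝ) :
    ∑ p, sib w T m p * G p.1 p.2 = ∑ ω, w ω * ∑ x, (∏ i, uT (T ω) (x i)) * G ω x := by
  unfold sib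
  rw [Fintype.sum_prod_type]
  refine Finset.sum_congr rfl fun ω _ => ?_
  rw [Finset.mul_sum]
  refine Finset.sum_congr rfl fun x _ => ?_
  simp only
  ring

lemma cl_nonneg (w : Ω → ℝ) (hw : ∀ ω, 0 ≤ w ω) (T : Ω → Submodule (ZMod 2) (V n)) (Y : Ω → B)
    (v : V n) (y : B) : 0 ≤ cl w T Y v y := by
  classical
  unfold cl
  refine div_nonneg (Finset.sum_nonneg fun ω _ => ?_) (mass_nonneg w hw Y y)
  split
  · exact mul_nonneg (hw _) (uT_nonneg _ _)
  · exact le_rfl

lemma cl_pos (w : Ω → ℝ) (hw : ∀ ω, 0 ≤ w ω) (T : Ω → Submodule (ZMod 2) (V n)) (Y : Ω → B)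
    {ω : Ω} (hω : w ω ≠ 0) {v : V n} (hv : v ∈ T ω) : 0 < cl w T Y v (Y ω) := by
  classical
  unfold cl
  refine div_pos ?_ (mass_pos w hw Y hω)
  have h1 : 0 < w ω * uT (T ω) v :=
    mul_pos (lt_of_le_of_ne (hw ω) (Ne.symm hω))
      (lt_of_le_of_ne (uT_nonneg _ _) (Ne.symm ((uT_pos_iff _ _).2 hv)))
  refine lt_of_lt_of_le h1 ?_
  have := Finset.single_le_sum (f := fun ω' => if Y ω' = Y ω then w ω' * uT (T ω') v else 0)
    (fun ω' _ => by
      show 0 ≤ (if Y ω' = Y ω then w ω' * uT (T ω') v else 0)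
      split
      · exact mul_nonneg (hw _) (uT_nonneg _ _)
      · exact le_rfl) (Finset.mem_univ ω)
  simpa using this

lemma sum_cl (w : Ω → ℝ) (T : Ω → Submodule (ZMod 2) (V n)) (Y : Ω → B)
    (y : B) (hy : mass w Y y ≠ 0) : ∑ v, cl w T Y v y = 1 := by
  classical
  unfold cl
  rw [← Finset.sum_div, Finset.sum_comm]
  have : ∑ ω, ∑ v, (if Y ω = y then w ω * uT (T ω) v else 0) = mass w Y y := by
    unfold mass
    refine Finset.sum_congr rfl fun ω _ => ?_
    split
    · rw [← Finset.mul_sum, sum_uT, mul_one]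
    · simp
  rw [this, div_self hy]

/-- Fourier coefficients of the law of one sibling -/
lemma sum_cl_sg (w : Ω → ℝ) (T : Ω → Submodule (ZMod 2) (V n)) (Y : Ω → B)
    (a : V n) (y : B) : ∑ v, cl w T Y v y * sg (v ⬝ᵥ a) = post w T Y a y := by
  classical
  unfold cl post
  simp only [div_mul_eq_mul_div, Finset.sum_mul]
  rw [← Finset.sum_div, Finset.sum_comm]
  congr 1
  unfold mass ind
  refine Finset.sum_congr rfl fun ω _ => ?_
  by_cases hy : Y ω = y
  · simp only [hy, if_true]
    simp only [mul_assoc]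
    rw [← Finset.mul_sum, sum_uT_sg]
    by_cases ha : a ∈ perp (T ω)
    · rw [if_pos ha, Set.indicator_of_mem (by exact ha), mul_one]
    · rw [if_neg ha, Set.indicator_of_notMem (by exact ha), mul_zero]
  · simp [hy]

lemma post_nonneg (w : Ω → ℝ) (hw : ∀ ω, 0 ≤ w ω) (T : Ω → Submodule (ZMod 2) (V n)) (Y : Ω → B)
    (a : V n) (y : B) : 0 ≤ post w T Y a y :=
  div_nonneg (mass_nonneg _ (fun _ => Set.indicator_nonneg (fun _ _ => hw _) _) _ _)
    (mass_nonneg w hw _ _)

lemma post_le_one (w : Ω → ℝ) (hw : ∀ ω, 0 ≤ w ω) (T : Ω → Submodule (ZMod 2) (V n)) (Y : Ω → B)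
    (a : V n) (y : B) : post w T Y a y ≤ 1 := by
  refine div_le_one_of_le₀ (mass_le_mass _ _ (fun ω => ?_) _ _) (mass_nonneg w hw _ _)
  exact Set.indicator_le_self' (fun _ _ => hw _) _

lemma post_zero (w : Ω → ℝ) (T : Ω → Submodule (ZMod 2) (V n)) (Y : Ω → B)
    (y : B) (hy : mass w Y y ≠ 0) : post w T Y 0 y = 1 := by
  unfold post
  have : ind {ω | (0 : V n) ∈ perp (T ω)} w = w := by
    unfold ind
    rw [Set.indicator_eq_self]
    intro ω _
    exact (perp (T ω)).zero_mem
  rw [this, div_self hy]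

/-- the joint mass of siblings, one sibling -/
lemma mass_sib_one (w : Ω → ℝ) (T : Ω → Submodule (ZMod 2) (V n)) (Y : Ω → B)
    (x : Fin 1 → V n) (y : B) (hy : mass w Y y ≠ 0) :
    mass (sib w T 1) (fun p => (p.2, Y p.1)) (x, y) = cl w T Y (x 0) y * mass w Y y := by
  classical
  unfold cl
  rw [div_mul_cancel₀ _ hy]
  unfold mass sib
  rw [Fintype.sum_prod_type]
  refine Finset.sum_congr rfl fun ω _ => ?_
  by_cases h : Y ω = y
  · simp [h, Prod.ext_iff]
  · simp [h, Prod.ext_iff]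

lemma mass_sib_fst (w : Ω → ℝ) (T : Ω → Submodule (ZMod 2) (V n)) (m : ℕ) (Y : Ω → B) (y : B) :
    mass (sib w T m) (fun p => Y p.1) y = mass w Y y := by
  classical
  unfold mass sib
  rw [Fintype.sum_prod_type]
  refine Finset.sum_congr rfl fun ω _ => ?_
  simp only
  split
  · rw [← Finset.mul_sum, sum_prod_uT, mul_one]
  · simp

lemma sib_ne {w : Ω → ℝ} {T : Ω → Submodule (ZMod 2) (V n)} {m : ℕ} {p : Ω × (Fin m → V n)}
    (h : sib w T m p ≠ 0) : w p.1 ≠ 0 ∧ ∀ i, p.2 i ∈ T p.1 := by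
  unfold sib at h
  refine ⟨left_ne_zero_of_mul h, fun i => ?_⟩
  have h2 := right_ne_zero_of_mul h
  rw [Finset.prod_ne_zero_iff] at h2
  exact (uT_pos_iff _ _).1 (h2 i (Finset.mem_univ i))

/-- entropy of one sibling -/
lemma KK_one (w : Ω → ℝ) (hw : ∀ ω, 0 ≤ w ω) (T : Ω → Submodule (ZMod 2) (V n)) (Y : Ω → B) :
    KK (sib w T 1) (fun p => p.2) (fun p => Y p.1) =
      ∑ ω, w ω * ∑ v, uT (T ω) v * Real.log (2 ^ n * cl w T Y v (Y ω)) := by
  classical
  have h1 : KK (sib w T 1) (fun p => p.2) (fun p => Y p.1) =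
      ∑ p, sib w T 1 p * Real.log (2 ^ n * cl w T Y (p.2 0) (Y p.1)) := by
    unfold KK
    refine Finset.sum_congr rfl fun p _ => ?_
    by_cases hp : sib w T 1 p = 0
    · simp [hp]
    · have hω := (sib_ne hp).1
      have hm := (mass_pos w hw Y hω).ne'
      congr 2
      rw [mass_sib_one w T Y p.2 (Y p.1) hm, mass_sib_fst, ← mul_assoc, mul_div_assoc, div_self hm,
        mul_one]
      simp
  rw [h1, sum_sib w T 1 (fun ω x => Real.log (2 ^ n * cl w T Y (x 0) (Y ω)))]
  refine Finset.sum_congr rfl fun ω _ => ?_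
  rw [sum_prod_uT_coord (T ω) 1 0 (fun v => Real.log (2 ^ n * cl w T Y v (Y ω)))]

/-- law of the sum of `m` independent copies -/
noncomputable def conv (w : Ω → ℝ) (T : Ω → Submodule (ZMod 2) (V n)) (Y : Ω → B) (m : ℕ)
    (s : V n) (y : B) : ℝ := (∑ a, post w T Y a y ^ m * sg (s ⬝ᵥ a)) / 2 ^ n

lemma conv_sum (w : Ω → ℝ) (T : Ω → Submodule (ZMod 2) (V n)) (Y : Ω → B) (m : ℕ) (y : B)
    (h : V n → ℝ) :
    ∑ x : Fin m → V n, (∏ i, cl w T Y (x i) y) * h (∑ i, x i) = ∑ s, conv w T Y m s y * h s := by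
  classical
  have h1 : ∀ s a : V n, post w T Y a y ^ m * sg (s ⬝ᵥ a) =
      ∑ x : Fin m → V n, (∏ i, cl w T Y (x i) y) * sg ((s + ∑ i, x i) ⬝ᵥ a) := by
    intro s a
    rw [← sum_cl_sg, Fintype.sum_pow, Finset.sum_mul]
    refine Finset.sum_congr rfl fun x _ => ?_
    rw [Finset.prod_mul_distrib, add_dotProduct, sg_add, sum_dotProduct, sg_sum]
    ring
  have h2 : ∀ s : V n, conv w T Y m s y =
      ∑ x : Fin m → V n, (∏ i, cl w T Y (x i) y) * (if s = ∑ i, x i then 1 else 0) := by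
    intro s
    unfold conv
    simp only [h1]
    rw [Finset.sum_comm, Finset.sum_div]
    refine Finset.sum_congr rfl fun x _ => ?_
    rw [← Finset.mul_sum, sum_sg, mul_div_assoc]
    congr 1
    have h3 : (s + ∑ i, x i = 0) ↔ s = ∑ i, x i := by
      constructor
      · intro h4
        have h5 : s = -∑ i, x i := eq_neg_of_add_eq_zero_left h4
        rw [h5]
        funext j
        simp only [Pi.neg_apply]
        exact ZMod.neg_eq_self_mod_two _
      · intro h4
        rw [h4]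
        funext j
        simp only [Pi.add_apply, Pi.zero_apply]
        exact CharTwo.add_self_eq_zero _
    by_cases h4 : s = ∑ i, x i
    · rw [if_pos h4, if_pos (h3.2 h4), div_self (by positivity)]
    · rw [if_neg h4, if_neg (fun h' => h4 (h3.1 h')), zero_div]
  simp only [h2, Finset.sum_mul]
  rw [Finset.sum_comm]
  refine Finset.sum_congr rfl fun x _ => ?_
  rw [Finset.sum_eq_single (∑ i, x i)]
  · simp
  · intro s _ hs
    rw [if_neg hs]
    simp
  · intro hh
    exact absurd (Finset.mem_univ _) hh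

lemma le_conv (w : Ω → ℝ) (hw : ∀ ω, 0 ≤ w ω) (T : Ω → Submodule (ZMod 2) (V n)) (Y : Ω → B)
    (m : ℕ) (y : B) (x : Fin m → V n) :
    ∏ i, cl w T Y (x i) y ≤ conv w T Y m (∑ i, x i) y := by
  classical
  have h := conv_sum w T Y m y (fun s => if s = ∑ i, x i then 1 else 0)
  have h2 : ∑ s, conv w T Y m s y * (if s = ∑ i, x i then 1 else 0) =
      conv w T Y m (∑ i, x i) y := by
    rw [Finset.sum_eq_single (∑ i, x i)]
    · simp
    · intro s _ hs
      rw [if_neg hs, mul_zero]
    · intro hh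
      exact absurd (Finset.mem_univ _) hh
  rw [h2] at h
  rw [← h]
  have := Finset.single_le_sum
    (f := fun x' : Fin m → V n => (∏ i, cl w T Y (x' i) y) * (if ∑ i, x' i = ∑ i, x i then (1 : ℝ) else 0))
    (fun x' _ => by
      refine mul_nonneg (Finset.prod_nonneg fun i _ => cl_nonneg w hw T Y _ _) ?_
      split <;> norm_num) (Finset.mem_univ x)
  simpa using this

lemma conv_nonneg (w : Ω → ℝ) (hw : ∀ ω, 0 ≤ w ω) (T : Ω → Submodule (ZMod 2) (V n)) (Y : Ω → B)
    (m : ℕ) (y : B) (s : V n) : 0 ≤ conv w T Y m s y := by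
  classical
  have h := conv_sum w T Y m y (fun s' => if s' = s then 1 else 0)
  have h2 : ∑ s', conv w T Y m s' y * (if s' = s then 1 else 0) = conv w T Y m s y := by
    rw [Finset.sum_eq_single s]
    · simp
    · intro s' _ hs
      rw [if_neg hs, mul_zero]
    · intro hh
      exact absurd (Finset.mem_univ _) hh
  rw [h2] at h
  rw [← h]
  refine Finset.sum_nonneg fun x _ => mul_nonneg (Finset.prod_nonneg fun i _ => cl_nonneg w hw T Y _ _) ?_
  split <;> norm_num

/-- (Q) -/
theorem quantise (w : Ω → ℝ) (hw : ∀ ω, 0 ≤ w ω) (htot : tot w ≤ 1) {n : ℕ}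
    (T : Ω → Submodule (ZMod 2) (V n)) (Y : Ω → B) (m k N : ℕ) (hm : 1 ≤ m) (hnN : n ≤ N)
    (hkm : 2 * N ≤ k * m) :
    KK (sib w T 1) (fun p => p.2) (fun p => Y p.1)
      ≤ (KK (sib w T m) (fun p => p.2) (fun p => Y p.1)
          - m * KK (sib w T 1) (fun p => p.2) (fun p => Y p.1))
        + ∑ ω, w ω * Real.log (Nat.card {a : V n // a ∈ perp (T ω) ∧ a ∈ lst w T Y k (Y ω)})
        + (1 / 2) ^ N := by
  classical
  -- the test function
  set ψ : (Fin m → V n) → B → ℝ := fun x y =>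
    (∏ i, (2 ^ n * cl w T Y (x i) y)) *
      ((2 ^ n * cl w T Y (∑ i, x i) y) / (2 ^ n * conv w T Y m (∑ i, x i) y)) with hψdef
  have hψ0 : ∀ x y, 0 ≤ ψ x y := by
    intro x y
    simp only [hψdef]
    refine mul_nonneg (Finset.prod_nonneg fun i _ => ?_) (div_nonneg ?_ ?_)
    · exact mul_nonneg (by positivity) (cl_nonneg w hw T Y _ _)
    · exact mul_nonneg (by positivity) (cl_nonneg w hw T Y _ _)
    · exact mul_nonneg (by positivity) (conv_nonneg w hw T Y m y _)
  have hfac : ∀ p : Ω × (Fin m → V n), sib w T m p ≠ 0 →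
      (∀ i, 0 < (2 : ℝ) ^ n * cl w T Y (p.2 i) (Y p.1)) ∧
      0 < (2 : ℝ) ^ n * cl w T Y (∑ i, p.2 i) (Y p.1) ∧
      0 < (2 : ℝ) ^ n * conv w T Y m (∑ i, p.2 i) (Y p.1) := by
    intro p hp
    obtain ⟨hω, hx⟩ := sib_ne hp
    have h1 : ∀ i, 0 < cl w T Y (p.2 i) (Y p.1) := fun i => cl_pos w hw T Y hω (hx i)
    refine ⟨fun i => mul_pos (by positivity) (h1 i), mul_pos (by positivity)
      (cl_pos w hw T Y hω (Submodule.sum_mem _ fun i _ => hx i)), mul_pos (by positivity) ?_⟩
    exact lt_of_lt_of_le (Finset.prod_pos fun i _ => h1 i) (le_conv w hw T Y m (Y p.1) p.2)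
  have hψpos : ∀ p : Ω × (Fin m → V n), sib w T m p ≠ 0 → 0 < ψ p.2 (Y p.1) := by
    intro p hp
    obtain ⟨h1, h2, h3⟩ := hfac p hp
    simp only [hψdef]
    exact mul_pos (Finset.prod_pos fun i _ => h1 i) (div_pos h2 h3)
  have hsum : ∀ y, mass w Y y ≠ 0 → ∑ x, ψ x y ≤ (Fintype.card (Fin m → V n) : ℝ) := by
    intro y hy
    have h1 : ∀ x : Fin m → V n, ψ x y = (2 : ℝ) ^ (n * m) * ((∏ i, cl w T Y (x i) y) *
        (cl w T Y (∑ i, x i) y / conv w T Y m (∑ i, x i) y)) := by
      intro x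
      simp only [hψdef]
      rw [Finset.prod_mul_distrib, Finset.prod_const, Finset.card_univ, Fintype.card_fin,
        mul_div_mul_left _ _ (by positivity : (2 : ℝ) ^ n ≠ 0), pow_mul]
      ring
    simp only [h1]
    rw [← Finset.mul_sum, conv_sum w T Y m y (fun s => cl w T Y s y / conv w T Y m s y)]
    have h2 : ∑ s, conv w T Y m s y * (cl w T Y s y / conv w T Y m s y) ≤ 1 := by
      rw [← sum_cl w T Y y hy]
      refine Finset.sum_le_sum fun s _ => ?_
      by_cases hc : conv w T Y m s y = 0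
      · rw [hc, zero_mul]
        exact cl_nonneg w hw T Y s y
      · rw [mul_div_cancel₀ _ hc]
    have h3 : (Fintype.card (Fin m → V n) : ℝ) = 2 ^ (n * m) := by
      simp [pow_mul]
    rw [h3]
    calc (2 : ℝ) ^ (n * m) * _ ≤ 2 ^ (n * m) * 1 := mul_le_mul_of_nonneg_left h2 (by positivity)
      _ = _ := by ring
  have hDV := DV' (sib w T m) (sib_nonneg w hw T m) (fun p => p.2) (fun p => Y p.1) ψ hψ0 hψpos
  have hrest : ∑ p, sib w T m p * Real.log ((∑ x, ψ x (Y p.1)) / Fintype.card (Fin m → V n)) ≤ 0 := by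
    refine Finset.sum_nonpos fun p _ => ?_
    by_cases hp : sib w T m p = 0
    · simp [hp]
    · have hω := (sib_ne hp).1
      refine mul_nonpos_of_nonneg_of_nonpos (sib_nonneg w hw T m p) ?_
      have hcard : (0 : ℝ) < Fintype.card (Fin m → V n) := by exact_mod_cast Fintype.card_pos
      refine Real.log_nonpos (div_nonneg (Finset.sum_nonneg fun x _ => hψ0 x _) hcard.le) ?_
      rw [div_le_one hcard]
      exact hsum (Y p.1) (mass_pos w hw Y hω).ne'
  -- the three parts of the test function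
  set L : V n → B → ℝ := fun v y => Real.log (2 ^ n * cl w T Y v y) with hL
  set Lc : V n → B → ℝ := fun v y => Real.log (2 ^ n * conv w T Y m v y) with hLc
  have hlog : ∑ p, sib w T m p * Real.log (ψ p.2 (Y p.1)) =
      ∑ p, sib w T m p * ((∑ i, L (p.2 i) (Y p.1)) + L (∑ i, p.2 i) (Y p.1)
        - Lc (∑ i, p.2 i) (Y p.1)) := by
    refine Finset.sum_congr rfl fun p _ => ?_
    by_cases hp : sib w T m p = 0
    · simp [hp]
    · obtain ⟨h1, h2, h3⟩ := hfac p hp
      congr 1
      simp only [hψdef, hL, hLc]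
      rw [Real.log_mul (Finset.prod_pos fun i _ => h1 i).ne' (div_pos h2 h3).ne',
        Real.log_prod (fun i _ => (h1 i).ne'), Real.log_div h2.ne' h3.ne']
      ring
  have hK1 := KK_one w hw T Y
  have hpart : ∑ p, sib w T m p * ((∑ i, L (p.2 i) (Y p.1)) + L (∑ i, p.2 i) (Y p.1)
        - Lc (∑ i, p.2 i) (Y p.1)) =
      (m + 1) * KK (sib w T 1) (fun p => p.2) (fun p => Y p.1) -
        ∑ ω, w ω * ∑ v, uT (T ω) v * Lc v (Y ω) := by
    rw [sum_sib w T m (fun ω x => (∑ i, L (x i) (Y ω)) + L (∑ i, x i) (Y ω) - Lc (∑ i, x i) (Y ω)),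
      hK1, Finset.mul_sum, ← Finset.sum_sub_distrib]
    refine Finset.sum_congr rfl fun ω _ => ?_
    have e1 : ∑ x : Fin m → V n, (∏ i, uT (T ω) (x i)) *
        ((∑ i, L (x i) (Y ω)) + L (∑ i, x i) (Y ω) - Lc (∑ i, x i) (Y ω)) =
        (∑ j : Fin m, ∑ x : Fin m → V n, (∏ i, uT (T ω) (x i)) * L (x j) (Y ω)) +
          ∑ x : Fin m → V n, (∏ i, uT (T ω) (x i)) * L (∑ i, x i) (Y ω) -
          ∑ x : Fin m → V n, (∏ i, uT (T ω) (x i)) * Lc (∑ i, x i) (Y ω) := by
      rw [Finset.sum_comm, ← Finset.sum_add_distrib, ← Finset.sum_sub_distrib]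
      refine Finset.sum_congr rfl fun x _ => ?_
      rw [← Finset.mul_sum]
      ring
    rw [e1, sum_prod_uT_sum (T ω) m hm (fun v => L v (Y ω)),
      sum_prod_uT_sum (T ω) m hm (fun v => Lc v (Y ω))]
    simp only [sum_prod_uT_coord (T ω) m _ (fun v => L v (Y ω))]
    rw [Finset.sum_const, Finset.card_univ, Fintype.card_fin, nsmul_eq_mul]
    simp only [hL]
    ring
  have hJ : ∑ ω, w ω * ∑ v, uT (T ω) v * Lc v (Y ω) ≤
      ∑ ω, w ω * Real.log (Nat.card {a : V n // a ∈ perp (T ω) ∧ a ∈ lst w T Y k (Y ω)}) +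
        (1 / 2) ^ N := by
    have h1 : ∀ ω ∈ (Finset.univ : Finset Ω), w ω * ∑ v, uT (T ω) v * Lc v (Y ω) ≤
        w ω * Real.log (Nat.card {a : V n // a ∈ perp (T ω) ∧ a ∈ lst w T Y k (Y ω)}) +
          w ω * (1 / 2) ^ N := by
      intro ω _
      by_cases hω : w ω = 0
      · simp [hω]
      rw [← mul_add]
      refine mul_le_mul_of_nonneg_left ?_ (hw ω)
      have hmy := (mass_pos w hw Y hω).ne'
      have hpos : ∀ v ∈ T ω, 0 < (2 : ℝ) ^ n * conv w T Y m v (Y ω) := by
        intro v hv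
        refine mul_pos (by positivity) ?_
        -- `v` is a sum of elements of `T ω`
        obtain ⟨m', rfl⟩ : ∃ m', m = m' + 1 := ⟨m - 1, by omega⟩
        have h2 := le_conv w hw T Y (m' + 1) (Y ω) (Fin.cons v (fun _ => 0))
        have h3 : ∑ i, (Fin.cons v (fun _ => 0) : Fin (m' + 1) → V n) i = v := by
          rw [Fin.sum_univ_succ]
          simp
        rw [h3] at h2
        refine lt_of_lt_of_le (Finset.prod_pos fun i _ => ?_) h2
        refine cl_pos w hw T Y hω ?_
        refine Fin.cases ?_ (fun j => ?_) i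
        · simpa using hv
        · simp only [Fin.cons_succ]
          exact (T ω).zero_mem
      refine (jensen_uT (T ω) (fun v => 2 ^ n * conv w T Y m v (Y ω)) hpos).trans ?_
      have h4 : ∑ v, uT (T ω) v * (2 ^ n * conv w T Y m v (Y ω)) =
          ∑ a, (if a ∈ perp (T ω) then post w T Y a (Y ω) ^ m else 0) := by
        unfold conv
        have : ∀ v : V n, uT (T ω) v * (2 ^ n * ((∑ a, post w T Y a (Y ω) ^ m * sg (v ⬝ᵥ a)) / 2 ^ n)) =
            ∑ a, post w T Y a (Y ω) ^ m * (uT (T ω) v * sg (v ⬝ᵥ a)) := by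
          intro v
          rw [mul_div_cancel₀ _ (by positivity : (2 : ℝ) ^ n ≠ 0), Finset.mul_sum]
          refine Finset.sum_congr rfl fun a _ => ?_
          ring
        simp only [this]
        rw [Finset.sum_comm]
        refine Finset.sum_congr rfl fun a _ => ?_
        rw [← Finset.mul_sum, sum_uT_sg]
        split <;> simp
      rw [h4]
      set c : ℕ := Nat.card {a : V n // a ∈ perp (T ω) ∧ a ∈ lst w T Y k (Y ω)} with hc
      have hc' : c = (Finset.univ.filter fun a : V n => a ∈ perp (T ω) ∧ a ∈ lst w T Y k (Y ω)).card := by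
        rw [hc, Nat.card_eq_fintype_card, Fintype.card_subtype]
      have hc1 : 1 ≤ c := by
        rw [hc', Nat.one_le_iff_ne_zero, Finset.card_ne_zero]
        refine ⟨0, ?_⟩
        rw [Finset.mem_filter]
        refine ⟨Finset.mem_univ _, (perp (T ω)).zero_mem, ?_⟩
        show (1 / 2 : ℝ) ^ k ≤ post w T Y 0 (Y ω)
        rw [post_zero w T Y _ hmy]
        exact pow_le_one₀ (by norm_num) (by norm_num)
      have hc1' : (1 : ℝ) ≤ c := by exact_mod_cast hc1
      have h5 : ∑ a, (if a ∈ perp (T ω) then post w T Y a (Y ω) ^ m else 0) ≤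
          (c : ℝ) + (1 / 2) ^ N := by
        have h6 : ∀ a ∈ (Finset.univ : Finset (V n)),
            (if a ∈ perp (T ω) then post w T Y a (Y ω) ^ m else 0) ≤
            (if a ∈ perp (T ω) ∧ a ∈ lst w T Y k (Y ω) then (1 : ℝ) else 0) +
              (1 / 2) ^ (k * m) := by
          intro a _
          by_cases ha : a ∈ perp (T ω)
          · by_cases hl : a ∈ lst w T Y k (Y ω)
            · rw [if_pos ha, if_pos ⟨ha, hl⟩]
              have h7 : post w T Y a (Y ω) ^ m ≤ 1 :=
                pow_le_one₀ (post_nonneg w hw T Y _ _) (post_le_one w hw T Y _ _)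
              have h8 : (0 : ℝ) ≤ (1 / 2) ^ (k * m) := by positivity
              linarith
            · rw [if_pos ha, if_neg (fun h => hl h.2), zero_add, pow_mul]
              refine pow_le_pow_left₀ (post_nonneg w hw T Y _ _) ?_ m
              have : ¬ ((1 / 2 : ℝ) ^ k ≤ post w T Y a (Y ω)) := hl
              exact (not_le.1 this).le
          · rw [if_neg ha, if_neg (fun h => ha h.1), zero_add]
            positivity
        refine (Finset.sum_le_sum h6).trans ?_
        rw [Finset.sum_add_distrib, ← Finset.sum_filter, Finset.sum_const, Finset.sum_const,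
          nsmul_eq_mul, nsmul_eq_mul, mul_one, ← hc']
        have h9 : ((Finset.univ : Finset (V n)).card : ℝ) * (1 / 2) ^ (k * m) ≤ (1 / 2) ^ N := by
          have h10 : ((Finset.univ : Finset (V n)).card : ℝ) = 2 ^ n := by
            simp
          rw [h10]
          calc (2 : ℝ) ^ n * (1 / 2) ^ (k * m) ≤ 2 ^ N * (1 / 2) ^ (2 * N) := by
                refine mul_le_mul ?_ ?_ (by positivity) (by positivity)
                · exact pow_le_pow_right₀ (by norm_num) hnN
                · exact pow_le_pow_of_le_one (by norm_num) (by norm_num) hkm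
            _ = (1 / 2) ^ N := by
                rw [two_mul, pow_add, ← mul_assoc, ← mul_pow]
                norm_num
        linarith
      have h11 : 0 < ∑ a, (if a ∈ perp (T ω) then post w T Y a (Y ω) ^ m else 0) := by
        have h12 : (0 : ℝ) < (if (0 : V n) ∈ perp (T ω) then post w T Y 0 (Y ω) ^ m else 0) := by
          rw [if_pos (perp (T ω)).zero_mem, post_zero w T Y _ hmy, one_pow]
          norm_num
        refine lt_of_lt_of_le h12 ?_
        exact Finset.single_le_sum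
          (f := fun a : V n => if a ∈ perp (T ω) then post w T Y a (Y ω) ^ m else 0)
          (fun a _ => by
            show 0 ≤ (if a ∈ perp (T ω) then post w T Y a (Y ω) ^ m else 0)
            split
            · exact pow_nonneg (post_nonneg w hw T Y _ _) m
            · exact le_rfl) (Finset.mem_univ _)
      refine (Real.log_le_log h11 h5).trans ?_
      have h13 : Real.log ((c : ℝ) + (1 / 2) ^ N) = Real.log c + Real.log (1 + (1 / 2) ^ N / c) := by
        rw [← Real.log_mul (by positivity) (by positivity)]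
        congr 1
        field_simp
      rw [h13]
      have h14 := Real.log_le_sub_one_of_pos (x := 1 + (1 / 2 : ℝ) ^ N / c) (by positivity)
      have h15 : (1 / 2 : ℝ) ^ N / c ≤ (1 / 2) ^ N := div_le_self (by positivity) hc1'
      linarith
    refine (Finset.sum_le_sum h1).trans ?_
    rw [Finset.sum_add_distrib, ← Finset.sum_mul]
    have h2 : (∑ ω, w ω) * (1 / 2 : ℝ) ^ N ≤ 1 * (1 / 2) ^ N :=
      mul_le_mul_of_nonneg_right htot (by positivity)
    linarith
  rw [hlog, hpart] at hDV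
  linarith

/-- exponential moment of independent signs -/
lemma sum_exp_signs {d : ℕ} (a : Fin d → V n) (ha : LinearIndependent (ZMod 2) a) (t : ℝ) :
    ∑ x : V n, Real.exp (t * ∑ i, sg (x ⬝ᵥ a i)) = 2 ^ n * Real.cosh t ^ d := by
  classical
  have h1 : ∀ x : V n, Real.exp (t * ∑ i, sg (x ⬝ᵥ a i)) =
      ∏ i, (Real.sinh t * sg (x ⬝ᵥ a i) + Real.cosh t) := by
    intro x
    rw [Finset.mul_sum, Real.exp_sum]
    refine Finset.prod_congr rfl fun i _ => ?_
    unfold sg
    split
    · rw [mul_one, mul_one, add_comm, Real.cosh_add_sinh]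
    · rw [mul_neg_one, mul_neg_one, ← Real.cosh_sub_sinh]
      ring
  simp only [h1]
  have h2 : ∀ x : V n, ∏ i, (Real.sinh t * sg (x ⬝ᵥ a i) + Real.cosh t) =
      ∑ I ∈ (Finset.univ : Finset (Fin d)).powerset,
        (Real.sinh t ^ I.card * Real.cosh t ^ (Finset.univ \ I).card) * sg (x ⬝ᵥ ∑ i ∈ I, a i) := by
    intro x
    rw [Finset.prod_add]
    refine Finset.sum_congr rfl fun I _ => ?_
    rw [Finset.prod_mul_distrib, Finset.prod_const, Finset.prod_const, dotProduct_sum, sg_sum]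
    ring
  simp only [h2]
  rw [Finset.sum_comm]
  simp only [← Finset.mul_sum]
  have h3 : ∀ z : V n, ∑ x : V n, sg (x ⬝ᵥ z) = if z = 0 then (2 : ℝ) ^ n else 0 := by
    intro z
    rw [← sum_sg z]
    refine Finset.sum_congr rfl fun x _ => ?_
    rw [dotProduct_comm]
  simp only [h3]
  rw [Finset.sum_eq_single ∅]
  · simp
    ring
  · intro I _ hI
    have h4 : ∑ i ∈ I, a i ≠ 0 := by
      intro h5
      rw [Fintype.linearIndependent_iff] at ha
      have h6 := ha (fun i => if i ∈ I then 1 else 0) (by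
        simp only [ite_smul, one_smul, zero_smul]
        rw [Finset.sum_ite_mem, Finset.univ_inter]
        exact h5)
      obtain ⟨i, hi⟩ := Finset.nonempty_iff_ne_empty.2 hI
      have h7 := h6 i
      simp [hi] at h7
    rw [if_neg h4, mul_zero]
  · intro h
    exact absurd (Finset.mem_powerset.2 (Finset.empty_subset _)) h

/-- (V) -/
theorem dim_bound (w : Ω → ℝ) (hw : ∀ ω, 0 ≤ w ω) {n : ℕ}
    (T : Ω → Submodule (ZMod 2) (V n)) (Y : Ω → B) :
    ∑ ω, w ω * (vdim w T Y (Y ω) : ℝ) ≤ 8 * KK (sib w T 1) (fun p => p.2) (fun p => Y p.1) := by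
  classical
  -- a basis of visible vectors
  have hbas : ∀ y : B, ∃ a : Fin (vdim w T Y y) → V n, LinearIndependent (ZMod 2) a ∧
      ∀ i, (1 / 2 : ℝ) ≤ post w T Y (a i) y := by
    intro y
    obtain ⟨b, hbs, hspan, hlin⟩ := exists_linearIndependent (ZMod 2)
      {a : V n | (1 / 2 : ℝ) ≤ post w T Y a y}
    have hfin : b.Finite := Set.toFinite b
    have : Fintype b := hfin.fintype
    have hcard : Fintype.card b = vdim w T Y y := by
      unfold vdim
      rw [← hspan, finrank_span_set_eq_card hlin, Set.toFinset_card]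
    let e : Fin (vdim w T Y y) ≃ b := (Fintype.equivFinOfCardEq hcard).symm
    refine ⟨fun i => (e i : V n), hlin.comp e e.injective, fun i => hbs (e i).2⟩
  choose a hlin hvis using hbas
  have key := DV (sib w T 1) (sib_nonneg w hw T 1) (fun p => p.2) (fun p => Y p.1)
    (fun x y => (1 / 2) * ∑ i, sg (x 0 ⬝ᵥ a y i))
  have h1 : ∑ p, sib w T 1 p * ((1 / 2) * ∑ i, sg (p.2 0 ⬝ᵥ a (Y p.1) i)) =
      ∑ ω, w ω * ((1 / 2) * ∑ i, if a (Y ω) i ∈ perp (T ω) then (1 : ℝ) else 0) := by
    rw [sum_sib w T 1 (fun ω x => (1 / 2) * ∑ i, sg (x 0 ⬝ᵥ a (Y ω) i))]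
    refine Finset.sum_congr rfl fun ω _ => ?_
    rw [sum_prod_uT_coord (T ω) 1 0 (fun v => (1 / 2) * ∑ i, sg (v ⬝ᵥ a (Y ω) i))]
    congr 1
    have : ∀ v : V n, uT (T ω) v * (1 / 2 * ∑ i, sg (v ⬝ᵥ a (Y ω) i)) =
        1 / 2 * ∑ i, uT (T ω) v * sg (v ⬝ᵥ a (Y ω) i) := by
      intro v
      rw [← Finset.mul_sum]
      ring
    simp only [this]
    rw [← Finset.mul_sum, Finset.sum_comm]
    simp only [sum_uT_sg]
  have h2 : ∑ ω, w ω * ((1 / 4) * (vdim w T Y (Y ω) : ℝ)) ≤
      ∑ ω, w ω * ((1 / 2) * ∑ i, if a (Y ω) i ∈ perp (T ω) then (1 : ℝ) else 0) := by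
    -- group by the values of `Y`
    set sB : Finset B := Finset.univ.image Y with hsB
    have hm : ∀ ω, w ω ≠ 0 → Y ω ∈ sB := fun ω _ => by simp [hsB]
    have e1 := sum_eq_sum_mass w Y sB hm (fun y => (1 / 4) * (vdim w T Y y : ℝ))
    have e2 : ∑ ω, w ω * ((1 / 2) * ∑ i, if a (Y ω) i ∈ perp (T ω) then (1 : ℝ) else 0) =
        ∑ y ∈ sB, (1 / 2) * ∑ i, mass (ind {ω | a y i ∈ perp (T ω)} w) Y y := by
      have e3 : ∀ y, (1 / 2 : ℝ) * ∑ i, mass (ind {ω | a y i ∈ perp (T ω)} w) Y y =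
          ∑ ω, if Y ω = y then
            w ω * ((1 / 2) * ∑ i, if a (Y ω) i ∈ perp (T ω) then (1 : ℝ) else 0) else 0 := by
        intro y
        unfold mass ind
        rw [Finset.sum_comm, Finset.mul_sum]
        refine Finset.sum_congr rfl fun ω _ => ?_
        by_cases hy : Y ω = y
        · subst hy
          simp only [if_true]
          rw [Finset.mul_sum, Finset.mul_sum, Finset.mul_sum]
          refine Finset.sum_congr rfl fun i _ => ?_
          by_cases hp : a (Y ω) i ∈ perp (T ω)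
          · rw [if_pos hp, Set.indicator_of_mem (by exact hp)]
            ring
          · rw [if_neg hp, Set.indicator_of_notMem (by exact hp)]
            ring
        · simp [hy]
      simp only [e3]
      rw [Finset.sum_comm]
      refine Finset.sum_congr rfl fun ω _ => ?_
      rw [Finset.sum_ite_eq]
      simp [hsB]
    rw [e1, e2]
    refine Finset.sum_le_sum fun y _ => ?_
    have hmn := mass_nonneg w hw Y y
    rcases eq_or_lt_of_le hmn with hz | hz
    · rw [← hz, zero_mul]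
      refine mul_nonneg (by norm_num) (Finset.sum_nonneg fun i _ => ?_)
      exact mass_nonneg _ (fun _ => Set.indicator_nonneg (fun _ _ => hw _) _) _ _
    · have h3 : ∀ i ∈ (Finset.univ : Finset (Fin (vdim w T Y y))),
          (1 / 2) * mass w Y y ≤ mass (ind {ω | a y i ∈ perp (T ω)} w) Y y := by
        intro i _
        have := hvis y i
        unfold post at this
        rwa [le_div_iff₀ hz] at this
      have h4 := Finset.sum_le_sum h3
      rw [Finset.sum_const, Finset.card_univ, Fintype.card_fin, nsmul_eq_mul] at h4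
      linarith
  have h5 : ∑ p, sib w T 1 p * Real.log ((∑ x : Fin 1 → V n,
      Real.exp ((1 / 2) * ∑ i, sg (x 0 ⬝ᵥ a (Y p.1) i))) / Fintype.card (Fin 1 → V n)) ≤
      ∑ ω, w ω * ((1 / 8) * (vdim w T Y (Y ω) : ℝ)) := by
    have h6 : ∀ y : B, Real.log ((∑ x : Fin 1 → V n,
        Real.exp ((1 / 2) * ∑ i, sg (x 0 ⬝ᵥ a y i))) / Fintype.card (Fin 1 → V n)) ≤
        (1 / 8) * (vdim w T Y y : ℝ) := by
      intro y
      have e1 : ∑ x : Fin 1 → V n, Real.exp ((1 / 2) * ∑ i, sg (x 0 ⬝ᵥ a y i)) =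
          ∑ v : V n, Real.exp ((1 / 2) * ∑ i, sg (v ⬝ᵥ a y i)) :=
        Equiv.sum_comp (Equiv.funUnique (Fin 1) (V n))
          (fun v => Real.exp ((1 / 2) * ∑ i, sg (v ⬝ᵥ a y i)))
      rw [e1, sum_exp_signs (a y) (hlin y) (1 / 2)]
      have e2 : (Fintype.card (Fin 1 → V n) : ℝ) = 2 ^ n := by simp
      rw [e2, mul_comm, mul_div_assoc, div_self (by positivity), mul_one, Real.log_pow]
      have e3 : Real.log (Real.cosh (1 / 2)) ≤ 1 / 8 := by
        have := Real.cosh_le_exp_half_sq (1 / 2)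
        have h7 := Real.log_le_log (Real.cosh_pos _) this
        rw [Real.log_exp] at h7
        linarith
      have e4 : (0 : ℝ) ≤ vdim w T Y y := Nat.cast_nonneg _
      have e5 := mul_le_mul_of_nonneg_left e3 e4
      linarith
    have h7 : ∑ p, sib w T 1 p * Real.log ((∑ x : Fin 1 → V n,
        Real.exp ((1 / 2) * ∑ i, sg (x 0 ⬝ᵥ a (Y p.1) i))) / Fintype.card (Fin 1 → V n)) ≤
        ∑ p, sib w T 1 p * ((1 / 8) * (vdim w T Y (Y p.1) : ℝ)) := by
      refine Finset.sum_le_sum fun p _ => ?_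
      exact mul_le_mul_of_nonneg_left (h6 _) (sib_nonneg w hw T 1 p)
    refine h7.trans (le_of_eq ?_)
    rw [sum_sib w T 1 (fun ω _ => (1 / 8) * (vdim w T Y (Y ω) : ℝ))]
    refine Finset.sum_congr rfl fun ω _ => ?_
    rw [← Finset.sum_mul, sum_prod_uT, one_mul]
  rw [h1] at key
  have e8 : ∑ ω, w ω * ((1 / 4) * (vdim w T Y (Y ω) : ℝ)) =
      (1 / 4) * ∑ ω, w ω * (vdim w T Y (Y ω) : ℝ) := by
    rw [Finset.mul_sum]
    refine Finset.sum_congr rfl fun ω _ => by ring
  have e9 : ∑ ω, w ω * ((1 / 8) * (vdim w T Y (Y ω) : ℝ)) =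
      (1 / 8) * ∑ ω, w ω * (vdim w T Y (Y ω) : ℝ) := by
    rw [Finset.mul_sum]
    refine Finset.sum_congr rfl fun ω _ => by ring
  rw [e8] at h2
  rw [e9] at h5
  linarith

end Model

end Pool.Agent.CutSeq
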