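import Pool.Agent.CutSeq.Ent
import Pool.Agent.CutSeq.Arr

/-! Row SIB: siblings (S1), (S2), (S3). -/

set_option autoImplicit false

namespace Pool.Agent.CutSeq

open Finset

variable {Ω : Type*} [Fintype Ω]

lemma uT_nonneg_sib {n : ℕ} (T : Submodule (ZMod 2) (V n)) (x : V n) : 0 ≤ uT T x := by
  unfold uT
  split
  · positivity
  · exact le_rfl

omit [Fintype Ω] in
lemma sib_nonneg_sib {n : ℕ} (w : Ω → ℝ) (hw : ∀ ω, 0 ≤ w ω) (T : Ω → Submodule (ZMod 2) (V n))
    (m : ℕ) (p : Ω × (Fin m → V n)) : 0 ≤ sib w T m p :=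
  mul_nonneg (hw _) (Finset.prod_nonneg fun _ _ => uT_nonneg_sib _ _)

lemma uT_add_sib {n : ℕ} (T : Submodule (ZMod 2) (V n)) (x z : V n) (hz : z ∈ T) :
    uT T (x + z) = uT T x := by
  unfold uT
  have : x + z ∈ T ↔ x ∈ T := by
    constructor
    · intro h
      have := T.sub_mem h hz
      simpa using this
    · intro h
      exact T.add_mem h hz
  by_cases hx : x ∈ T
  · rw [if_pos hx, if_pos (this.2 hx)]
  · rw [if_neg hx, if_neg (fun h => hx (this.1 h))]

lemma add_add_self_V {n : ℕ} (x z : V n) : x + z + z = x := by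
  funext i
  have : z i + z i = 0 := CharTwo.add_self_eq_zero _
  simp only [Pi.add_apply]
  rw [add_assoc, this, add_zero]

/-- the first siblings -/
lemma KK_sib_init {n k : ℕ} (w : Ω → ℝ) (T : Ω → Submodule (ZMod 2) (V n)) {B : Type*}
    (Y : Ω → B) :
    KK (sib w T (k + 1)) (fun p => fun i : Fin k => p.2 i.castSucc) (fun p => Y p.1)
      = KK (sib w T k) (fun p => p.2) (fun p => Y p.1) := by
  classical
  refine KK_law _ _ _ _ _ _ fun a b => ?_
  unfold mass sib
  rw [Fintype.sum_prod_type, Fintype.sum_prod_type]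
  refine Finset.sum_congr rfl fun ω _ => ?_
  rw [← (Fin.snocEquiv (fun _ : Fin (k + 1) => V n)).sum_comp]
  rw [Fintype.sum_prod_type]
  rw [Finset.sum_comm]
  refine Finset.sum_congr rfl fun x _ => ?_
  simp only [Fin.snocEquiv_apply, Fin.snoc_castSucc, Fin.prod_univ_castSucc, Fin.snoc_last]
  by_cases h : (x, Y ω) = (a, b)
  · simp only [h, if_true]
    rw [← Finset.mul_sum, ← Finset.mul_sum, sum_uT, mul_one]
  · simp only [h, if_false, Finset.sum_const_zero]

/-- shift of the last sibling -/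
lemma KK_sib_shift {n k : ℕ} (w : Ω → ℝ) (T : Ω → Submodule (ZMod 2) (V n))
    {B : Type*} (Z : Ω → V n) (hZ : ∀ ω, w ω ≠ 0 → Z ω ∈ T ω)
    (Y : Ω → (Fin k → V n) → B) :
    KK (sib w T (k + 1)) (fun p => p.2 (Fin.last k) + Z p.1)
        (fun p => Y p.1 (fun i : Fin k => p.2 i.castSucc))
      = KK (sib w T (k + 1)) (fun p => p.2 (Fin.last k))
        (fun p => Y p.1 (fun i : Fin k => p.2 i.castSucc)) := by
  classical
  refine KK_law _ _ _ _ _ _ fun a b => ?_
  unfold mass sib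
  rw [Fintype.sum_prod_type, Fintype.sum_prod_type]
  refine Finset.sum_congr rfl fun ω _ => ?_
  by_cases hw : w ω = 0
  · simp [hw]
  have hz := hZ ω hw
  rw [← (Fin.snocEquiv (fun _ : Fin (k + 1) => V n)).sum_comp,
    ← (Fin.snocEquiv (fun _ : Fin (k + 1) => V n)).sum_comp]
  rw [Fintype.sum_prod_type, Fintype.sum_prod_type]
  simp only [Fin.snocEquiv_apply, Fin.snoc_castSucc, Fin.prod_univ_castSucc, Fin.snoc_last]
  refine Fintype.sum_equiv (Equiv.addRight (Z ω)) _ _ fun x => ?_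
  simp only [Equiv.coe_addRight]
  refine Finset.sum_congr rfl fun y _ => ?_
  rw [uT_add_sib _ _ _ hz]

lemma card_cut_fiber {n i : ℕ} (h : n ≤ i) (a' : V n) :
    Nat.card {a : V i // cut h a = a'} * Fintype.card (V n) = Fintype.card (V i) := by
  classical
  -- all fibres are translates of the fibre over zero
  have key : ∀ a' : V n, Nat.card {a : V i // cut h a = a'} = Nat.card {a : V i // cut h a = 0} := by
    intro a'
    have hcut : cut h (pad a' : V i) = a' := by
      funext j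
      simp [cut, pad]
    have hadd : ∀ x y : V i, cut h (x + y) = cut h x + cut h y := fun x y => rfl
    refine Nat.card_congr
      { toFun := fun a => ⟨a.1 - pad a', ?_⟩
        invFun := fun a => ⟨a.1 + pad a', ?_⟩
        left_inv := fun a => Subtype.ext (by simp)
        right_inv := fun a => Subtype.ext (by simp) }
    · have h2 : cut h (a.1 - pad a') = cut h a.1 - cut h (pad a') := rfl
      rw [h2, a.2, hcut, sub_self]
    · rw [hadd, a.2, hcut, zero_add]
  have htot : Fintype.card (V i) = ∑ b : V n, Nat.card {a : V i // cut h a = b} := by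
    rw [← Finset.card_univ, Finset.card_eq_sum_card_fiberwise (f := cut h) (t := univ)
      (fun _ _ => Finset.mem_univ _)]
    refine Finset.sum_congr rfl fun b _ => ?_
    rw [Nat.card_eq_fintype_card, Fintype.card_subtype]
  rw [htot, Finset.sum_congr rfl fun b _ => key b, Finset.sum_const, Finset.card_univ,
    smul_eq_mul, key a', mul_comm]

/-- (S1) -/
theorem sib_rec (w : Ω → ℝ) (hw : ∀ ω, 0 ≤ w ω) {n : ℕ} (T : Ω → Submodule (ZMod 2) (V n))
    (ρ : Ω → (k : ℕ) → V k) (j k : ℕ)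
    (hT : ∀ ω, w ω ≠ 0 → cut (Nat.le_add_right n j) (ρ ω (n + j)) ∈ T ω) :
    2 * KK (sib w T (k + 1)) (fun p => p.2) (fun p => pre (ρ p.1) (n + j))
      ≤ KK w (fun ω => ρ ω (n + j)) (fun ω => pre (ρ ω) (n + j))
        + KK (sib w T (k + 1)) (fun p => p.2) (fun p => pre (ρ p.1) (n + (j + 1)))
        + KK (sib w T k) (fun p => p.2) (fun p => pre (ρ p.1) (n + j)) := by
  classical
  set W := sib w T (k + 1) with hWdef
  have hW : ∀ p, 0 ≤ W p := sib_nonneg_sib w hw T (k + 1)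
  have hWne : ∀ p, W p ≠ 0 → w p.1 ≠ 0 := fun p hp h => hp (by rw [hWdef]; simp [sib, h])
  set xs : Ω × (Fin (k + 1) → V n) → (Fin k → V n) := fun p i => p.2 i.castSucc with hxs
  set xl : Ω × (Fin (k + 1) → V n) → V n := fun p => p.2 (Fin.last k) with hxl
  -- splitting off the last sibling
  have hsplit : ∀ i : ℕ, KK W (fun p => p.2) (fun p => pre (ρ p.1) i)
      = KK (sib w T k) (fun p => p.2) (fun p => pre (ρ p.1) i)
        + KK W xl (fun p => (xs p, pre (ρ p.1) i)) := by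
    intro i
    have h1 := KK_chain W hW xs xl (fun p => pre (ρ p.1) i)
    have h2 := KK_sib_init (k := k) w T (fun ω => pre (ρ ω) i)
    have h3 : KK W (fun p => (xs p, xl p)) (fun p => pre (ρ p.1) i)
        = KK W (fun p => p.2) (fun p => pre (ρ p.1) i) := by
      refine KK_bij W hW (fun p => p.2) (fun p => (xs p, xl p)) (fun p => pre (ρ p.1) i)
        (fun _ => (Fin.snocEquiv (fun _ : Fin (k + 1) => V n)).symm.trans (Equiv.prodComm _ _)) ?_
      intro p _
      simp [hxs, hxl, Fin.snocEquiv]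
      rfl
    rw [← h3, h1]
    congr 1
  have e1 := hsplit (n + j)
  have e2 := hsplit (n + (j + 1))
  -- the shifted sibling
  set Z : Ω → V n := fun ω => cut (Nat.le_add_right n j) (ρ ω (n + j)) with hZdef
  have h4 := KK_sib_shift (k := k) w T Z hT (fun ω x => (x, pre (ρ ω) (n + j)))
  have h5 := KK_super W hW xl (fun p => xl p + Z p.1) (fun p => (xs p, pre (ρ p.1) (n + j)))
  have h6 : KK W (fun p => (xl p, xl p + Z p.1)) (fun p => (xs p, pre (ρ p.1) (n + j)))
      = KK W (fun p => (Z p.1, xl p)) (fun p => (xs p, pre (ρ p.1) (n + j))) := by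
    refine KK_bij W hW (fun p => (Z p.1, xl p)) (fun p => (xl p, xl p + Z p.1)) _
      (fun _ => { toFun := fun q => (q.2, q.2 + q.1), invFun := fun q => (q.1 + q.2, q.1),
                  left_inv := ?_, right_inv := ?_ }) ?_
    · rintro ⟨z, x⟩
      have : x + (x + z) = z := by
        rw [add_comm, add_comm x z, add_add_self_V]
      simp [this]
    · rintro ⟨x, y⟩
      have : x + (x + y) = y := by
        rw [add_comm, add_comm x y, add_add_self_V]
      simp [this]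
    · intro p _
      rfl
  have h7 := KK_chain W hW (fun p => Z p.1) xl (fun p => (xs p, pre (ρ p.1) (n + j)))
  have h8 : KK W (fun p => Z p.1) (fun p => (xs p, pre (ρ p.1) (n + j)))
      ≤ KK W (fun p => ρ p.1 (n + j)) (fun p => (xs p, pre (ρ p.1) (n + j))) :=
    KK_map W hW (fun p => ρ p.1 (n + j)) _ (cut (Nat.le_add_right n j))
      (card_cut_fiber (Nat.le_add_right n j))
  -- the row of level `n + j`
  have h9 := KK_chain W hW xs (fun p => ρ p.1 (n + j)) (fun p => pre (ρ p.1) (n + j))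
  have h10 := KK_chain W hW (fun p => ρ p.1 (n + j)) xs (fun p => pre (ρ p.1) (n + j))
  have h11 : KK W (fun p => (xs p, ρ p.1 (n + j))) (fun p => pre (ρ p.1) (n + j))
      = KK W (fun p => (ρ p.1 (n + j), xs p)) (fun p => pre (ρ p.1) (n + j)) :=
    KK_bij W hW (fun p => (ρ p.1 (n + j), xs p)) (fun p => (xs p, ρ p.1 (n + j))) _
      (fun _ => Equiv.prodComm _ _) (fun _ _ => rfl)
  have h12 : KK W (fun p => ρ p.1 (n + j)) (fun p => pre (ρ p.1) (n + j))
      = KK w (fun ω => ρ ω (n + j)) (fun ω => pre (ρ ω) (n + j)) :=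
    KK_sib_fst w T (k + 1) (fun ω => ρ ω (n + j)) (fun ω => pre (ρ ω) (n + j))
  have h13 : KK W xs (fun p => pre (ρ p.1) (n + j))
      = KK (sib w T k) (fun p => p.2) (fun p => pre (ρ p.1) (n + j)) :=
    KK_sib_init (k := k) w T (fun ω => pre (ρ ω) (n + j))
  have h14 : KK W xs (fun p => pre (ρ p.1) (n + (j + 1)))
      = KK (sib w T k) (fun p => p.2) (fun p => pre (ρ p.1) (n + (j + 1))) :=
    KK_sib_init (k := k) w T (fun ω => pre (ρ ω) (n + (j + 1)))
  -- `pre (n + j + 1)` contains `ρ (n + j)` and `pre (n + j)`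
  have hpre : ∀ ω ω' : Ω, pre (ρ ω) (n + (j + 1)) = pre (ρ ω') (n + (j + 1)) →
      ρ ω (n + j) = ρ ω' (n + j) ∧ pre (ρ ω) (n + j) = pre (ρ ω') (n + j) := by
    intro ω ω' h
    have hk : ∀ i, i < n + (j + 1) → ρ ω i = ρ ω' i := by
      intro i hi
      have := congrFun h ⟨i, hi⟩
      exact this
    exact ⟨hk _ (by omega), funext fun i => hk _ (by have := i.isLt; omega)⟩
  have h15 : KK W xs (fun p => (ρ p.1 (n + j), pre (ρ p.1) (n + j)))
      ≤ KK W xs (fun p => pre (ρ p.1) (n + (j + 1))) := by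
    refine KK_finer W hW xs _ _ ?_
    intro p p' _ _ h
    obtain ⟨ha, hb⟩ := hpre _ _ h
    simp only [ha, hb]
  have h16 : KK W xl (fun p => (Z p.1, (xs p, pre (ρ p.1) (n + j))))
      ≤ KK W xl (fun p => (xs p, pre (ρ p.1) (n + (j + 1)))) := by
    refine KK_finer W hW xl _ _ ?_
    intro p p' _ _ h
    obtain ⟨h1, h2⟩ := Prod.mk.inj h
    obtain ⟨ha, hb⟩ := hpre _ _ h2
    simp only [hZdef, ha, hb, h1]
  linarith

/-- no sibling, no entropy -/
lemma KK_sib_zero {n : ℕ} (w : Ω → ℝ) (hw : ∀ ω, 0 ≤ w ω) (T : Ω → Submodule (ZMod 2) (V n))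
    {B : Type*} (Y : Ω × (Fin 0 → V n) → B) : KK (sib w T 0) (fun p => p.2) Y = 0 := by
  have h1 := KK_le (sib w T 0) (sib_nonneg_sib w hw T 0) (fun p => p.2) Y
  have h2 := KK_nonneg (sib w T 0) (sib_nonneg_sib w hw T 0) (fun p => p.2) Y
  have h3 : Fintype.card (Fin 0 → V n) = 1 := by simp
  rw [h3] at h1
  simp only [Nat.cast_one, Real.log_one, mul_zero] at h1
  exact le_antisymm h1 h2

lemma tot_sib {n : ℕ} (w : Ω → ℝ) (T : Ω → Submodule (ZMod 2) (V n)) (m : ℕ) :
    tot (sib w T m) = tot w := by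
  unfold tot sib
  rw [Fintype.sum_prod_type]
  refine Finset.sum_congr rfl fun ω _ => ?_
  simp only
  rw [← Finset.mul_sum, sum_prod_uT, mul_one]

lemma log_card_V (n : ℕ) : Real.log (Fintype.card (V n)) = n * Real.log 2 := by
  have : Fintype.card (V n) = 2 ^ n := by
    simp [V, ZMod.card]
  rw [this]
  push_cast
  rw [Real.log_pow]

lemma log_card_sib (k n : ℕ) : Real.log (Fintype.card (Fin k → V n)) = k * (n * Real.log 2) := by
  rw [Fintype.card_fun, Fintype.card_fin]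
  push_cast
  rw [Real.log_pow, log_card_V]

lemma KK_sib_le {n : ℕ} (w : Ω → ℝ) (hw : ∀ ω, 0 ≤ w ω) (T : Ω → Submodule (ZMod 2) (V n))
    (k : ℕ) {B : Type*} (Y : Ω × (Fin k → V n) → B) :
    KK (sib w T k) (fun p => p.2) Y ≤ tot w * (k * (n * Real.log 2)) := by
  have h1 := KK_le (sib w T k) (sib_nonneg_sib w hw T k) (fun p => p.2) Y
  rwa [tot_sib, log_card_sib] at h1

/-- chain rule for the levels -/
lemma K0_pre_succ_sib (w : Ω → ℝ) (hw : ∀ ω, 0 ≤ w ω) (ρ : Ω → (k : ℕ) → V k) (i : ℕ) :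
    K0 w (fun ω => pre (ρ ω) (i + 1))
      = K0 w (fun ω => pre (ρ ω) i) + KK w (fun ω => ρ ω i) (fun ω => pre (ρ ω) i) := by
  unfold K0
  have h1 : KK w (fun ω => pre (ρ ω) (i + 1)) (fun _ => ())
      = KK w (fun ω => (pre (ρ ω) i, ρ ω i)) (fun _ => ()) := by
    refine KK_bij w hw (fun ω => (pre (ρ ω) i, ρ ω i)) (fun ω => pre (ρ ω) (i + 1)) _
      (fun _ => (Equiv.prodComm _ _).trans
        (Fin.snocEquiv (fun k : Fin (i + 1) => V k.val))) ?_
    intro ω _
    funext k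
    refine Fin.lastCases ?_ (fun k => ?_) k
    · simp only [Equiv.trans_apply, Equiv.prodComm_apply, Prod.swap_prod_mk, Fin.snocEquiv_apply]
      rw [Fin.snoc_last]
      rfl
    · simp only [Equiv.trans_apply, Equiv.prodComm_apply, Prod.swap_prod_mk, Fin.snocEquiv_apply]
      rw [Fin.snoc_castSucc]
      rfl
  have h2 := KK_chain w hw (fun ω => pre (ρ ω) i) (fun ω => ρ ω i) (fun _ => ())
  have h3 : KK w (fun ω => ρ ω i) (fun ω => (pre (ρ ω) i, ()))
      = KK w (fun ω => ρ ω i) (fun ω => pre (ρ ω) i) := by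
    refine le_antisymm ?_ ?_
    · refine KK_finer w hw _ _ _ ?_
      intro ω ω' _ _ h
      simp only [h]
    · refine KK_finer w hw _ _ _ ?_
      intro ω ω' _ _ h
      exact (Prod.mk.inj h).1
  rw [h1, h2, h3]

lemma sum_rows_le (w : Ω → ℝ) (hw : ∀ ω, 0 ≤ w ω) (ρ : Ω → (k : ℕ) → V k) (n M : ℕ) :
    ∑ j ∈ range M, KK w (fun ω => ρ ω (n + j)) (fun ω => pre (ρ ω) (n + j))
      ≤ K0 w (fun ω => pre (ρ ω) (n + M)) := by
  induction M with
  | zero =>
    simp only [Finset.range_zero, Finset.sum_empty]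
    exact KK_nonneg w hw _ _
  | succ M ih =>
    rw [Finset.sum_range_succ, ← add_assoc, K0_pre_succ_sib w hw ρ (n + M)]
    linarith

/-- (S2) -/
theorem sib_avg (w : Ω → ℝ) (hw : ∀ ω, 0 ≤ w ω) {n : ℕ} (T : Ω → Submodule (ZMod 2) (V n))
    (ρ : Ω → (k : ℕ) → V k)
    (hT : ∀ j ω, w ω ≠ 0 → cut (Nat.le_add_right n j) (ρ ω (n + j)) ∈ T ω) (Y L : ℕ) :
    (Y : ℝ) * KK (sib w T 1) (fun p => p.2) (fun p => pre (ρ p.1) n)
      ≤ K0 w (fun ω => pre (ρ ω) (n + (Y + L))) + Y * (1 / 2) ^ L * (n * Real.log 2 * tot w) := by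
  set a : ℕ → ℝ := fun j => KK (sib w T 1) (fun p => p.2) (fun p => pre (ρ p.1) (n + j)) with ha
  set e : ℕ → ℝ := fun j => KK w (fun ω => ρ ω (n + j)) (fun ω => pre (ρ ω) (n + j)) with he
  have he0 : ∀ j, 0 ≤ e j := fun j => KK_nonneg w hw _ _
  have hrec : ∀ j, 2 * a j ≤ e j + a (j + 1) := by
    intro j
    have h1 := sib_rec w hw T ρ j 0 (hT j)
    rw [KK_sib_zero w hw T] at h1
    simp only [ha, he]
    linarith
  have hmono : ∀ j, a 0 ≤ a j := by
    intro j
    refine KK_finer (sib w T 1) (sib_nonneg_sib w hw T 1) _ _ _ ?_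
    intro p p' _ _ h
    funext k
    have := congrFun h ⟨k.val, lt_of_lt_of_le k.isLt (by omega)⟩
    exact this
  have hbd : ∀ j, a j ≤ n * Real.log 2 * tot w := by
    intro j
    have := KK_sib_le w hw T 1 (fun p => pre (ρ p.1) (n + j))
    simp only [ha]
    push_cast at this
    linarith
  set K := K0 w (fun ω => pre (ρ ω) (n + (Y + L))) with hK
  have hsum : ∀ i, i ≤ L → ∑ j ∈ range Y, e (j + i) ≤ K := by
    intro i hi
    refine le_trans ?_ (sum_rows_le w hw ρ n (Y + L))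
    have h1 : ∑ j ∈ range Y, e (j + i) = ∑ j ∈ Ico i (Y + i), e j := by
      rw [Finset.sum_Ico_eq_sum_range]
      rw [Nat.add_sub_cancel]
      refine Finset.sum_congr rfl fun j _ => ?_
      rw [add_comm]
    rw [h1]
    refine Finset.sum_le_sum_of_subset_of_nonneg ?_ fun j _ _ => he0 j
    intro j hj
    rw [Finset.mem_Ico] at hj
    rw [Finset.mem_range]
    omega
  have hind : ∀ l, l ≤ L → ∑ j ∈ range Y, a j ≤ (1 - (1 / 2) ^ l) * K
      + (1 / 2) ^ l * ∑ j ∈ range Y, a (j + l) := by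
    intro l
    induction l with
    | zero => intro _; simp
    | succ l ih =>
      intro hl
      have h1 := ih (by omega)
      have h2 : 2 * ∑ j ∈ range Y, a (j + l) ≤ K + ∑ j ∈ range Y, a (j + (l + 1)) := by
        have h3 : ∑ j ∈ range Y, 2 * a (j + l) ≤ ∑ j ∈ range Y, (e (j + l) + a (j + l + 1)) :=
          Finset.sum_le_sum fun j _ => hrec (j + l)
        rw [← Finset.mul_sum, Finset.sum_add_distrib] at h3
        have h4 := hsum l (by omega)
        have h5 : ∑ j ∈ range Y, a (j + l + 1) = ∑ j ∈ range Y, a (j + (l + 1)) := rfl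
        linarith
      have h6 : (0 : ℝ) < (1 / 2) ^ l := by positivity
      rw [pow_succ]
      nlinarith
  have h1 := hind L le_rfl
  have h2 : ∑ j ∈ range Y, a (j + L) ≤ Y * (n * Real.log 2 * tot w) := by
    refine (Finset.sum_le_sum fun j _ => hbd (j + L)).trans ?_
    rw [Finset.sum_const, Finset.card_range, nsmul_eq_mul]
  have h3 : (Y : ℝ) * a 0 ≤ ∑ j ∈ range Y, a j := by
    have : ∑ _j ∈ range Y, a 0 ≤ ∑ j ∈ range Y, a j := Finset.sum_le_sum fun j _ => hmono j
    rwa [Finset.sum_const, Finset.card_range, nsmul_eq_mul] at this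
  have hK0 : 0 ≤ K := KK_nonneg w hw _ _
  have h4 : (0 : ℝ) < (1 / 2) ^ L := by positivity
  have h5 : (1 / 2 : ℝ) ^ L * ∑ j ∈ range Y, a (j + L) ≤
      (1 / 2) ^ L * (Y * (n * Real.log 2 * tot w)) := mul_le_mul_of_nonneg_left h2 h4.le
  have h6 : (1 - (1 / 2 : ℝ) ^ L) * K ≤ K := by nlinarith
  have h7 : KK (sib w T 1) (fun p => p.2) (fun p => pre (ρ p.1) n) = a 0 := rfl
  rw [h7]
  nlinarith

/-- (S3) -/
theorem sib_sum (w : ℕ → Ω → ℝ) (hw : ∀ n ω, 0 ≤ w n ω) (hdec : ∀ n ω, w (n + 1) ω ≤ w n ω)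
    (htot : tot (w 0) ≤ 1) (T : (n : ℕ) → Ω → Submodule (ZMod 2) (V n)) (ρ : Ω → (k : ℕ) → V k)
    (hT : ∀ n j ω, w n ω ≠ 0 → cut (Nat.le_add_right n j) (ρ ω (n + j)) ∈ T n ω)
    (hE : ∀ n, KK (sib (w n) (T n) 1) (fun p => p.2) (fun p => pre (ρ p.1) n)
      = KK (w n) (fun ω => ρ ω n) (fun ω => pre (ρ ω) n))
    (n₀ n₁ m J N : ℕ) (h01 : n₀ ≤ n₁) (hN : n₁ + J ≤ N) (Emax : ℝ) (hEmax0 : 0 ≤ Emax)
    (hEmax : ∀ n, n₀ ≤ n → n < n₁ + J → KK (w n) (fun ω => ρ ω n) (fun ω => pre (ρ ω) n) ≤ Emax) :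
    ∑ n ∈ Ico n₀ n₁, (KK (sib (w n) (T n) m) (fun p => p.2) (fun p => pre (ρ p.1) n)
        - m * KK (w n) (fun ω => ρ ω n) (fun ω => pre (ρ ω) n))
      ≤ (m : ℝ) * (m + 1) / 2 * (Emax + (tot (w n₀) - tot (w (n₁ + J))) * (N * Real.log 2))
        + (N : ℝ) ^ 2 * m * Real.log 2 * (2 ^ m * (2 / 3) ^ J) := by
  have hlog : 0 ≤ Real.log 2 := Real.log_nonneg (by norm_num)
  have hanti : ∀ n n', n ≤ n' → ∀ ω, w n' ω ≤ w n ω := by
    intro n n' h
    induction n', h using Nat.le_induction with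
    | base => exact fun ω => le_rfl
    | succ n' _ ih => exact fun ω => (hdec n' ω).trans (ih ω)
  have htanti : ∀ n n', n ≤ n' → tot (w n') ≤ tot (w n) := fun n n' h =>
    Finset.sum_le_sum fun ω _ => hanti n n' h ω
  have ht1 : ∀ n, tot (w n) ≤ 1 := fun n => (htanti 0 n (Nat.zero_le n)).trans htot
  have ht0 : ∀ n, 0 ≤ tot (w n) := fun n => tot_nonneg (w n) (hw n)
  rcases Nat.eq_zero_or_pos m with hm | hm
  · subst hm
    have : ∀ n ∈ Ico n₀ n₁, (KK (sib (w n) (T n) 0) (fun p => p.2) (fun p => pre (ρ p.1) n)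
        - ((0 : ℕ) : ℝ) * KK (w n) (fun ω => ρ ω n) (fun ω => pre (ρ ω) n)) = 0 := by
      intro n _
      rw [KK_sib_zero (w n) (hw n)]
      simp
    rw [Finset.sum_congr rfl this]
    simp
  have h := S3_array
    (fun k n j => KK (sib (w n) (T n) k) (fun p => p.2) (fun p => pre (ρ p.1) (n + j)))
    (fun n => KK (w n) (fun ω => ρ ω n) (fun ω => pre (ρ ω) n)) (fun n => tot (w n))
    n₀ n₁ J m (N * Real.log 2) ((N : ℝ) ^ 2 * Real.log 2) Emax h01 (by positivity)
    (by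
      have h1 : ((n₁ - n₀ : ℕ) : ℝ) ≤ N := by exact_mod_cast (by omega : n₁ - n₀ ≤ N)
      have h2 : (0 : ℝ) ≤ N * Real.log 2 := by positivity
      nlinarith)
    (fun n _ _ => KK_nonneg (w n) (hw n) _ _) hEmax0 hEmax
    (fun n n' _ h _ => htanti n n' h)
    (fun n j _ _ => KK_sib_zero (w n) (hw n) (T n) _)
    (by
      intro k n j _ h2
      have h3 := KK_sib_le (w n) (hw n) (T n) k (fun p => pre (ρ p.1) (n + j))
      refine h3.trans ?_
      have h4 : (n : ℝ) ≤ N := by exact_mod_cast (by omega : n ≤ N)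
      have h5 : (k : ℝ) * (n * Real.log 2) ≤ k * (N * Real.log 2) := by gcongr
      have h6 : (0 : ℝ) ≤ k * (n * Real.log 2) := by positivity
      calc tot (w n) * (k * (n * Real.log 2)) ≤ 1 * (k * (n * Real.log 2)) := by
            exact mul_le_mul_of_nonneg_right (ht1 n) h6
        _ ≤ _ := by rw [one_mul]; exact h5)
    (by
      intro k n j _ h2 h3
      have h4 := sib_rec (w n) (hw n) (T n) ρ j k (hT n j)
      have h5 : KK (w n) (fun ω => ρ ω (n + j)) (fun ω => pre (ρ ω) (n + j))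
          ≤ KK (w (n + j)) (fun ω => ρ ω (n + j)) (fun ω => pre (ρ ω) (n + j))
            + N * Real.log 2 * (tot (w n) - tot (w (n + j))) := by
        set u : Ω → ℝ := fun ω => w n ω - w (n + j) ω with hu
        have hu0 : ∀ ω, 0 ≤ u ω := fun ω => sub_nonneg.2 (hanti n (n + j) (by omega) ω)
        have h6 : w (n + j) + u = w n := by
          funext ω
          simp [hu]
        have h7 := KK_add_le (w (n + j)) u (hw (n + j)) hu0 (fun ω => ρ ω (n + j))
          (fun ω => pre (ρ ω) (n + j))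
        rw [h6] at h7
        have h8 := KK_le u hu0 (fun ω => ρ ω (n + j)) (fun ω => pre (ρ ω) (n + j))
        rw [log_card_V] at h8
        have h9 : tot u = tot (w n) - tot (w (n + j)) := by
          simp only [tot, hu, Finset.sum_sub_distrib]
        rw [h9] at h8
        have h10 : ((n + j : ℕ) : ℝ) ≤ N := by exact_mod_cast (by omega : n + j ≤ N)
        have h11 : 0 ≤ tot (w n) - tot (w (n + j)) :=
          sub_nonneg.2 (htanti n (n + j) (by omega))
        have h12 : (tot (w n) - tot (w (n + j))) * (((n + j : ℕ) : ℝ) * Real.log 2) ≤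
            (tot (w n) - tot (w (n + j))) * (N * Real.log 2) := by gcongr
        linarith
      linarith)
  refine h.trans ?_
  have h13 : (N : ℝ) ^ 2 * Real.log 2 * 2 ^ m / (3 / 2) ^ J
      ≤ (N : ℝ) ^ 2 * m * Real.log 2 * (2 ^ m * (2 / 3) ^ J) := by
    have h14 : (2 / 3 : ℝ) ^ J = 1 / (3 / 2) ^ J := by
      rw [one_div, ← inv_pow]
      norm_num
    rw [h14]
    have h15 : (1 : ℝ) ≤ m := by exact_mod_cast hm
    have h16 : (0 : ℝ) ≤ (N : ℝ) ^ 2 * Real.log 2 * 2 ^ m / (3 / 2) ^ J := by positivity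
    calc (N : ℝ) ^ 2 * Real.log 2 * 2 ^ m / (3 / 2) ^ J
        = 1 * ((N : ℝ) ^ 2 * Real.log 2 * 2 ^ m / (3 / 2) ^ J) := by rw [one_mul]
      _ ≤ m * ((N : ℝ) ^ 2 * Real.log 2 * 2 ^ m / (3 / 2) ^ J) :=
          mul_le_mul_of_nonneg_right h15 h16
      _ = _ := by ring
  linarith

end Pool.Agent.CutSeq
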