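import Pool.Agent.CutSeq.Lists
import Pool.Agent.CutSeq.Sib
import Pool.Agent.CutSeq.Quant
import Pool.Agent.CutSeq.Ent

/-! Row EVT: the new events of a stage and the probability that is lost. -/

set_option autoImplicit false
set_option linter.unusedVariables false

namespace Pool.Agent.CutSeq

open Finset

variable {B L : ℕ}

/-- the new events: `O i n` are the old ones (level `n`, time `i * S`), `top i` the highest level in
the region at time `i * S` -/
noncomputable def newEv (O : ℕ → ℕ → Set (Wd B L)) (top : ℕ → ℕ) (S k X : ℕ) (b : ℝ) :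
    ℕ → ℕ → Set (Wd B L)
  | 0, n => O 0 n
  | i + 1, n => newEv O top S k X b i n ∩ O (i + 1) n ∩
      {ω | ∀ c, c * k + X ≤ top (i + 1) → ∀ n'', n'' ≤ n → n'' ≤ c * k →
        b ≤ cp n'' ((i + 1) * S) (goodEv ((i + 1) * S) (c * k) k
          (newEv O top S k X b i (top (i + 1)) ∩ O (i + 1) (top (i + 1)))) ω}

/-- the hypotheses on the old events -/
structure Old (O : ℕ → ℕ → Set (Wd B L)) (top : ℕ → ℕ) (S I : ℕ) (D q : ℝ) : Prop where
  mono : Monotone top
  lev : ∀ i n, i ≤ I → Lev n (i * S) (O i n)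
  anti : ∀ i n n', n ≤ n' → O i n' ⊆ O i n
  const : ∀ i n, top i ≤ n → O i n = O i (top i)
  loss : pr (uw B L) {ω | ∃ i ≤ I, ω ∉ O i (top i)} ≤ q
  ent : ∀ i n, i ≤ I → n ≤ top i →
    K0 (ind (O i n) (uw B L)) (fun ω => mm (ext ω) (i * S) n) ≤ D

variable {O : ℕ → ℕ → Set (Wd B L)} {top : ℕ → ℕ} {S I : ℕ} {D q : ℝ}

/-! #### elementary facts about `pr`, `ind` and `HH` -/

namespace Evt

theorem uw_nonneg (ω : Wd B L) : 0 ≤ uw B L ω := by
  unfold uw
  positivity

theorem ind_nonneg {Ω : Type*} (G : Set Ω) (w : Ω → ℝ) (hw : ∀ ω, 0 ≤ w ω) (ω : Ω) :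
    0 ≤ ind G w ω := Set.indicator_nonneg (fun ω _ => hw ω) ω

theorem ind_mono {Ω : Type*} {G G' : Set Ω} (h : G ⊆ G') (w : Ω → ℝ) (hw : ∀ ω, 0 ≤ w ω) (ω : Ω) :
    ind G w ω ≤ ind G' w ω := Set.indicator_le_indicator_of_subset h hw ω

theorem pr_mono {Ω : Type*} [Fintype Ω] {G G' : Set Ω} (w : Ω → ℝ) (hw : ∀ ω, 0 ≤ w ω)
    (h : G ⊆ G') : pr w G ≤ pr w G' := sum_le_sum fun ω _ => ind_mono h w hw ω

theorem pr_nonneg {Ω : Type*} [Fintype Ω] (G : Set Ω) (w : Ω → ℝ) (hw : ∀ ω, 0 ≤ w ω) :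
    0 ≤ pr w G := sum_nonneg fun ω _ => ind_nonneg G w hw ω

theorem pr_union_le {Ω : Type*} [Fintype Ω] (G G' : Set Ω) (w : Ω → ℝ) (hw : ∀ ω, 0 ≤ w ω) :
    pr w (G ∪ G') ≤ pr w G + pr w G' := by
  unfold pr tot
  rw [← sum_add_distrib]
  refine sum_le_sum fun ω _ => ?_
  by_cases h : ω ∈ G
  · have h1 : ind (G ∪ G') w ω = w ω := Set.indicator_of_mem (Set.mem_union_left G' h) w
    have h2 : ind G w ω = w ω := Set.indicator_of_mem h w
    rw [h1, h2]
    have := ind_nonneg G' w hw ω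
    linarith
  · by_cases h' : ω ∈ G'
    · have h1 : ind (G ∪ G') w ω = w ω := Set.indicator_of_mem (Set.mem_union_right G h') w
      have h2 : ind G' w ω = w ω := Set.indicator_of_mem h' w
      rw [h1, h2]
      have := ind_nonneg G w hw ω
      linarith
    · have h1 : ind (G ∪ G') w ω = 0 :=
        Set.indicator_of_notMem (by rintro (h1 | h1) <;> contradiction) w
      rw [h1]
      have := ind_nonneg G w hw ω
      have := ind_nonneg G' w hw ω
      linarith

theorem pr_biUnion_le {Ω ι : Type*} [Fintype Ω] (w : Ω → ℝ) (hw : ∀ ω, 0 ≤ w ω) (s : Finset ι)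
    (G : ι → Set Ω) (r : ℝ) (h : ∀ x ∈ s, pr w (G x) ≤ r) :
    pr w {ω | ∃ x ∈ s, ω ∈ G x} ≤ (s.card : ℝ) * r := by
  classical
  induction s using Finset.induction_on with
  | empty =>
    have : {ω | ∃ x ∈ (∅ : Finset ι), ω ∈ G x} = (∅ : Set Ω) := by
      ext ω
      simp
    rw [this]
    simp [pr, tot, ind]
  | insert a s ha ih =>
    have h1 : {ω | ∃ x ∈ insert a s, ω ∈ G x} = G a ∪ {ω | ∃ x ∈ s, ω ∈ G x} := by
      ext ω
      simp
    rw [h1]
    refine (pr_union_le _ _ w hw).trans ?_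
    rw [card_insert_of_notMem ha]
    have h2 := h a (mem_insert_self _ _)
    have h3 := ih fun x hx => h x (mem_insert_of_mem hx)
    push_cast
    linarith

theorem HH_le_add (a b : ℝ) (ha : 0 ≤ a) (hb : 0 ≤ b) : HH a b ≤ a + b := by
  have key : ∀ x y : ℝ, 0 ≤ x → 0 ≤ y → x * Real.log ((x + y) / x) ≤ y := by
    intro x y hx hy
    rcases hx.eq_or_lt with rfl | hx
    · simpa using hy
    · have h1 : 0 < (x + y) / x := by positivity
      have h2 := Real.log_le_sub_one_of_pos h1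
      have h3 : (x + y) / x - 1 = y / x := by
        field_simp
        ring
      rw [h3] at h2
      calc x * Real.log ((x + y) / x) ≤ x * (y / x) := mul_le_mul_of_nonneg_left h2 hx.le
        _ = y := by field_simp
  have h1 := key a b ha hb
  have h2 := key b a hb ha
  unfold HH
  rw [add_comm b a] at h2
  linarith

theorem tot_ind_le {Ω : Type*} [Fintype Ω] (G : Set Ω) (w : Ω → ℝ) (hw : ∀ ω, 0 ≤ w ω) :
    tot (ind G w) ≤ tot w := by
  refine sum_le_sum fun ω _ => ?_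
  by_cases h : ω ∈ G
  · exact (Set.indicator_of_mem h w).le
  · rw [show ind G w ω = 0 from Set.indicator_of_notMem h w]
    exact hw ω

theorem K0_ind_le {A : Type*} [Fintype A] (hB : 0 < B) {G G' : Set (Wd B L)} (h : G ⊆ G')
    (X : Wd B L → A) : K0 (ind G (uw B L)) X ≤ K0 (ind G' (uw B L)) X + 1 := by
  have h1 := K0_sub_le (ind G' (uw B L)) (ind G (uw B L)) (ind_nonneg G _ uw_nonneg)
    (ind_mono h _ uw_nonneg) X
  have h2 : tot (ind G (uw B L)) ≤ tot (ind G' (uw B L)) :=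
    sum_le_sum fun ω _ => ind_mono h _ uw_nonneg ω
  have h3 : 0 ≤ tot (ind G (uw B L)) := sum_nonneg fun ω _ => ind_nonneg G _ uw_nonneg ω
  have h4 := HH_le_add (tot (ind G (uw B L))) (tot (ind G' (uw B L)) - tot (ind G (uw B L))) h3
    (by linarith)
  have h5 := tot_ind_le G' (uw B L) uw_nonneg
  rw [tot_uw hB] at h5
  linarith

end Evt


/-! #### the new events -/

theorem newEv_lev (h : Old O top S I D q) (k X : ℕ) (b : ℝ) (i n : ℕ) (hi : i ≤ I) :
    Lev n (i * S) (newEv O top S k X b i n) := by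
  induction i with
  | zero => exact h.lev 0 n hi
  | succ i ih =>
    have h1 : Lev n ((i + 1) * S) (newEv O top S k X b i n) :=
      (ih (by omega)).mono le_rfl (Nat.mul_le_mul_right S (Nat.le_succ i))
    have h2 := h.lev (i + 1) n hi
    refine (h1.inter h2).inter ?_
    intro ω ω' hs
    simp only [Set.mem_ofPred_eq]
    refine forall_congr' fun c => forall_congr' fun _ => forall_congr' fun n'' =>
      forall_congr' fun hn'' => forall_congr' fun _ => ?_
    rw [cp_congr n'' ((i + 1) * S) _ (hs.mono hn'' le_rfl)]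

theorem newEv_anti (h : Old O top S I D q) (k X : ℕ) (b : ℝ) (i n n' : ℕ) (hn : n ≤ n') :
    newEv O top S k X b i n' ⊆ newEv O top S k X b i n := by
  induction i with
  | zero => exact h.anti 0 n n' hn
  | succ i ih =>
    rintro ω ⟨⟨h1, h2⟩, h3⟩
    refine ⟨⟨ih h1, h.anti (i + 1) n n' hn h2⟩, ?_⟩
    intro c hc n'' hn'' hn3
    exact h3 c hc n'' (hn''.trans hn) hn3

theorem newEv_const (h : Old O top S I D q) (k X : ℕ) (b : ℝ) (i n : ℕ) (hn : top i ≤ n) :
    newEv O top S k X b i n = newEv O top S k X b i (top i) := by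
  induction i generalizing n with
  | zero => exact h.const 0 n hn
  | succ i ih =>
    have hm : top i ≤ top (i + 1) := h.mono (Nat.le_succ i)
    have e1 : newEv O top S k X b i n = newEv O top S k X b i (top (i + 1)) := by
      rw [ih n (hm.trans hn), ih (top (i + 1)) hm]
    have e2 := h.const (i + 1) n hn
    unfold newEv
    rw [e1, e2]
    congr 1
    ext ω
    simp only [Set.mem_ofPred_eq]
    refine forall_congr' fun c => forall_congr' fun hc => forall_congr' fun n'' => ?_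
    constructor
    · intro h3 _ h5
      exact h3 (by omega) h5
    · intro h3 _ h5
      exact h3 (by omega) h5

theorem newEv_time (k X : ℕ) (b : ℝ) (i n : ℕ) :
    newEv O top S k X b (i + 1) n ⊆ newEv O top S k X b i n := fun _ h => h.1.1

theorem newEv_old (k X : ℕ) (b : ℝ) (i n : ℕ) : newEv O top S k X b i n ⊆ O i n := by
  cases i with
  | zero => exact fun _ h => h
  | succ i => exact fun _ h => h.1.2

/-- good events are likely given the history -/
theorem newEv_good (k X : ℕ) (b : ℝ) (i n c : ℕ) (hc : c * k + X ≤ top (i + 1)) (hn : n ≤ c * k)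
    (ω : Wd B L) (hω : ω ∈ newEv O top S k X b (i + 1) n) :
    b ≤ cp n ((i + 1) * S) (goodEv ((i + 1) * S) (c * k) k
      (newEv O top S k X b i (top (i + 1)) ∩ O (i + 1) (top (i + 1)))) ω :=
  hω.2 c hc n le_rfl hn

/-- entropy of the new events -/
theorem newEv_ent (h : Old O top S I D q) (hB : 0 < B) (hIL : I * S ≤ L) (k X : ℕ) (b : ℝ)
    (i n : ℕ) (hi : i ≤ I) (hn : n ≤ top i) :
    K0 (ind (newEv O top S k X b i n) (uw B L)) (fun ω => mm (ext ω) (i * S) n) ≤ D + 1 := by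
  have h1 := Evt.K0_ind_le hB (newEv_old (O := O) (top := top) (S := S) k X b i n)
    (fun ω => mm (ext ω) (i * S) n)
  have h2 := h.ent i n hi hn
  linarith

/-- a sibling bound for any event contained in the old top event -/
theorem sib_small (h : Old O top S I D q) (hB : 0 < B) (hIL : I * S ≤ L) (G : Set (Wd B L))
    (i n Y Lg : ℕ) (hi : i ≤ I) (hG : G ⊆ O i (top i)) (hY : 0 < Y) (hn : n + (Y + Lg) ≤ top i) :
    KK (sib (ind G (uw B L)) (fun ω => TT (ext ω) (i * S) n) 1) (fun p => p.2)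
        (fun p => mm (ext p.1) (i * S) n)
      ≤ (D + 1) / Y + (1 / 2) ^ Lg * n := by
  have h1 := sib_avg (ind G (uw B L)) (Evt.ind_nonneg G _ Evt.uw_nonneg)
    (fun ω => TT (ext ω) (i * S) n) (fun ω => arr (ext ω) (i * S))
    (fun j ω _ => row_mem_TT (ext ω) (i * S) n (n + j) (Nat.le_add_right n j)) Y Lg
  have h2 : K0 (ind G (uw B L)) (fun ω => mm (ext ω) (i * S) (n + (Y + Lg))) ≤ D + 1 := by
    have h3 := Evt.K0_ind_le hB (hG.trans (h.anti i (n + (Y + Lg)) (top i) hn))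
      (fun ω => mm (ext ω) (i * S) (n + (Y + Lg)))
    have h4 := h.ent i (n + (Y + Lg)) hi hn
    linarith
  have h5 : tot (ind G (uw B L)) ≤ 1 := by
    have := Evt.tot_ind_le G (uw B L) Evt.uw_nonneg
    rwa [tot_uw hB] at this
  have h5' : 0 ≤ tot (ind G (uw B L)) := sum_nonneg fun ω _ => Evt.ind_nonneg G _ Evt.uw_nonneg ω
  have h6 : (n : ℝ) * Real.log 2 * tot (ind G (uw B L)) ≤ n := by
    have hl : Real.log 2 ≤ 1 := by
      have := Real.log_two_lt_d9
      linarith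
    have hl0 : 0 ≤ Real.log 2 := Real.log_nonneg (by norm_num)
    calc (n : ℝ) * Real.log 2 * tot (ind G (uw B L)) ≤ (n : ℝ) * 1 * 1 := by
          gcongr
      _ = n := by ring
  have hY' : (0 : ℝ) < Y := by exact_mod_cast hY
  have h7 : (Y : ℝ) * KK (sib (ind G (uw B L)) (fun ω => TT (ext ω) (i * S) n) 1) (fun p => p.2)
      (fun p => mm (ext p.1) (i * S) n) ≤ (D + 1) + Y * (1 / 2) ^ Lg * n := by
    refine h1.trans ?_
    have h8 : (Y : ℝ) * (1 / 2) ^ Lg * (n * Real.log 2 * tot (ind G (uw B L)))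
        ≤ Y * (1 / 2) ^ Lg * n := mul_le_mul_of_nonneg_left h6 (by positivity)
    have h9 : K0 (ind G (uw B L)) (fun ω => pre (arr (ext ω) (i * S)) (n + (Y + Lg))) ≤ D + 1 := h2
    linarith
  have h8 : (D + 1) / Y + (1 / 2) ^ Lg * (n : ℝ) = ((D + 1) + Y * (1 / 2) ^ Lg * n) / Y := by
    field_simp
  rw [h8, le_div_iff₀ hY']
  linarith

/-- lost probability -/
theorem newEv_loss (h : Old O top S I D q) (hB : 0 < B) (hIL : I * S ≤ L) (k X Y Lg N : ℕ)
    (b : ℝ) (hb : 0 ≤ b) (hk : 0 < k) (hY : 0 < Y) (hX : Y + Lg ≤ X) (htop : ∀ i ≤ I, top i ≤ N) :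
    pr (uw B L) {ω | ∃ i ≤ I, ω ∉ newEv O top S k X b i (top i)}
      ≤ q + I * (N / k + 1) * (8 / k * ((D + 1) / Y + (1 / 2) ^ Lg * N) + b) := by
  classical
  set r : ℝ := 8 / k * ((D + 1) / Y + (1 / 2) ^ Lg * N) + b with hr
  have hk' : (0 : ℝ) < k := by exact_mod_cast hk
  -- the event of one grid point
  let G₀ : ℕ → Set (Wd B L) := fun j =>
    newEv O top S k X b j (top (j + 1)) ∩ O (j + 1) (top (j + 1))
  let bad : ℕ × ℕ → Set (Wd B L) := fun x => G₀ x.1 ∩
    {ω | ∃ n ≤ x.2 * k, cp n ((x.1 + 1) * S) (goodEv ((x.1 + 1) * S) (x.2 * k) k (G₀ x.1)) ω < b}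
  let s : Finset (ℕ × ℕ) := ((range I) ×ˢ (range (N / k + 1))).filter fun x =>
    x.2 * k + X ≤ top (x.1 + 1)
  have hbad : ∀ x ∈ s, pr (uw B L) (bad x) ≤ r := by
    rintro ⟨j, c⟩ hx
    simp only [s, mem_filter, mem_product, mem_range] at hx
    obtain ⟨⟨hj, _⟩, hc⟩ := hx
    set Gd : Set (Wd B L) := goodEv ((j + 1) * S) (c * k) k (G₀ j) with hGd
    let vd : Wd B L → ℕ := fun ω => vdim (ind (G₀ j) (uw B L))
      (fun ω => TT (ext ω) ((j + 1) * S) (c * k)) (fun ω => mm (ext ω) ((j + 1) * S) (c * k))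
      (mm (ext ω) ((j + 1) * S) (c * k))
    have hsub : bad (j, c) ⊆ (Gd ∩ {ω | ∃ n ≤ c * k, cp n ((j + 1) * S) Gd ω < b}) ∪
        (G₀ j ∩ {ω | k ≤ vd ω}) := by
      rintro ω ⟨h1, h2⟩
      by_cases h3 : ω ∈ Gd
      · exact Or.inl ⟨h3, h2⟩
      · refine Or.inr ⟨h1, ?_⟩
        by_contra h4
        exact h3 ⟨h1, not_le.mp h4⟩
    have h1 : pr (uw B L) (Gd ∩ {ω | ∃ n ≤ c * k, cp n ((j + 1) * S) Gd ω < b}) ≤ b :=
      first_level ((j + 1) * S) (c * k) hB Gd b hb
    have h2 : (k : ℝ) * pr (uw B L) (G₀ j ∩ {ω | k ≤ vd ω})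
        ≤ ∑ ω, ind (G₀ j) (uw B L) ω * (vd ω : ℝ) := by
      unfold pr tot
      rw [mul_sum]
      refine sum_le_sum fun ω _ => ?_
      by_cases h3 : ω ∈ G₀ j ∩ {ω | k ≤ vd ω}
      · have e1 : ind (G₀ j ∩ {ω | k ≤ vd ω}) (uw B L) ω = uw B L ω :=
          Set.indicator_of_mem h3 _
        have e2 : ind (G₀ j) (uw B L) ω = uw B L ω := Set.indicator_of_mem h3.1 _
        rw [e1, e2, mul_comm]
        refine mul_le_mul_of_nonneg_left ?_ (Evt.uw_nonneg ω)
        exact_mod_cast (h3.2 : k ≤ vd ω)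
      · have e1 : ind (G₀ j ∩ {ω | k ≤ vd ω}) (uw B L) ω = 0 := Set.indicator_of_notMem h3 _
        rw [e1, mul_zero]
        exact mul_nonneg (Evt.ind_nonneg _ _ Evt.uw_nonneg ω) (Nat.cast_nonneg _)
    have h3 := dim_bound (ind (G₀ j) (uw B L)) (Evt.ind_nonneg _ _ Evt.uw_nonneg)
      (fun ω => TT (ext ω) ((j + 1) * S) (c * k)) (fun ω => mm (ext ω) ((j + 1) * S) (c * k))
    have h4 := sib_small h hB hIL (G₀ j) (j + 1) (c * k) Y Lg (by omega)
      (Set.inter_subset_right) hY (by omega)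
    have h5 : ((c * k : ℕ) : ℝ) ≤ N := by
      have := htop (j + 1) (by omega)
      exact_mod_cast (show c * k ≤ N by omega)
    have h6 : (D + 1) / Y + (1 / 2) ^ Lg * ((c * k : ℕ) : ℝ)
        ≤ (D + 1) / Y + (1 / 2) ^ Lg * N := by
      gcongr
    have h7 : (k : ℝ) * pr (uw B L) (G₀ j ∩ {ω | k ≤ vd ω})
        ≤ 8 * ((D + 1) / Y + (1 / 2) ^ Lg * N) := by
      refine h2.trans (h3.trans ?_)
      linarith [h4.trans h6]
    have h8 : pr (uw B L) (G₀ j ∩ {ω | k ≤ vd ω})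
        ≤ 8 / k * ((D + 1) / Y + (1 / 2) ^ Lg * N) := by
      have : 8 / (k : ℝ) * ((D + 1) / Y + (1 / 2) ^ Lg * N)
          = (8 * ((D + 1) / Y + (1 / 2) ^ Lg * N)) / k := by ring
      rw [this, le_div_iff₀ hk']
      linarith
    refine (Evt.pr_mono _ Evt.uw_nonneg hsub).trans ((Evt.pr_union_le _ _ _ Evt.uw_nonneg).trans ?_)
    rw [hr]
    linarith
  have hcover : {ω | ∃ i ≤ I, ω ∉ newEv O top S k X b i (top i)} ⊆
      {ω | ∃ i ≤ I, ω ∉ O i (top i)} ∪ {ω | ∃ x ∈ s, ω ∈ bad x} := by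
    rintro ω ⟨i₀, hi₀, hω₀⟩
    by_cases hO : ∃ i ≤ I, ω ∉ O i (top i)
    · exact Or.inl hO
    · right
      push Not at hO
      have hex : ∃ i, ω ∉ newEv O top S k X b i (top i) := ⟨i₀, hω₀⟩
      set i₁ := Nat.find hex with hi₁
      have h1 : ω ∉ newEv O top S k X b i₁ (top i₁) := Nat.find_spec hex
      have h2 : i₁ ≤ I := (Nat.find_min' hex hω₀).trans hi₀
      have h3 : ∀ j < i₁, ω ∈ newEv O top S k X b j (top j) := fun j hj => by
        by_contra hcon
        exact Nat.find_min hex hj hcon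
      obtain ⟨j, hj⟩ : ∃ j, i₁ = j + 1 := by
        rcases Nat.eq_zero_or_pos i₁ with h0 | h0
        · exfalso
          rw [h0] at h1
          exact h1 (hO 0 (Nat.zero_le _))
        · exact ⟨i₁ - 1, by omega⟩
      rw [hj] at h1 h2 h3
      have h4 : ω ∈ newEv O top S k X b j (top (j + 1)) := by
        rw [newEv_const h k X b j (top (j + 1)) (h.mono (Nat.le_succ j))]
        exact h3 j (Nat.lt_succ_self j)
      have h5 : ω ∈ O (j + 1) (top (j + 1)) := hO (j + 1) h2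
      have h6 : ∃ c, c * k + X ≤ top (j + 1) ∧ ∃ n'', n'' ≤ c * k ∧
          cp n'' ((j + 1) * S) (goodEv ((j + 1) * S) (c * k) k (G₀ j)) ω < b := by
        by_contra hcon
        push Not at hcon
        exact h1 ⟨⟨h4, h5⟩, fun c hc n'' _ hn'' => hcon c hc n'' hn''⟩
      obtain ⟨c, hc, n'', hn'', hcp⟩ := h6
      refine ⟨(j, c), ?_, ⟨h4, h5⟩, n'', hn'', hcp⟩
      simp only [s, mem_filter, mem_product, mem_range]
      refine ⟨⟨by omega, ?_⟩, hc⟩
      have h7 : c * k ≤ N := by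
        have := htop (j + 1) h2
        omega
      exact Nat.lt_succ_of_le ((Nat.le_div_iff_mul_le hk).mpr h7)
  have hcard : (s.card : ℝ) ≤ I * (N / k + 1) := by
    have h1 : s.card ≤ I * (N / k + 1) := by
      refine (card_filter_le _ _).trans ?_
      rw [card_product, card_range, card_range]
    calc (s.card : ℝ) ≤ ((I * (N / k + 1) : ℕ) : ℝ) := by exact_mod_cast h1
      _ = I * (((N / k : ℕ) : ℝ) + 1) := by push_cast; ring
      _ ≤ I * (N / k + 1) := by
        gcongr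
        exact Nat.cast_div_le
  have hD : 0 ≤ D := by
    refine (?_ : (0 : ℝ) ≤ _).trans (h.ent 0 0 (Nat.zero_le _) (Nat.zero_le _))
    exact KK_nonneg _ (Evt.ind_nonneg _ _ Evt.uw_nonneg) _ _
  have hr0 : 0 ≤ r := by
    rw [hr]
    positivity
  refine (Evt.pr_mono _ Evt.uw_nonneg hcover).trans ((Evt.pr_union_le _ _ _ Evt.uw_nonneg).trans ?_)
  have h1 := h.loss
  have h2 := Evt.pr_biUnion_le (uw B L) Evt.uw_nonneg s bad r hbad
  have h3 : (s.card : ℝ) * r ≤ I * (N / k + 1) * r := mul_le_mul_of_nonneg_right hcard hr0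
  linarith

end Pool.Agent.CutSeq
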