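import Pool.Agent.CutSeq.Ent

/-! Row MOD2: histories of the letter model, (F1). -/

set_option autoImplicit false

namespace Pool.Agent.CutSeq

open Finset

/-! #### masks -/

lemma msk_msk {n n' : ℕ} (h : n ≤ n') (p : ℕ × ZMod 2) : msk n (msk n' p) = msk n p := by
  unfold msk
  by_cases h1 : p.1 + 1 < n'
  · rw [if_pos h1]
  · rw [if_neg h1]
    have h2 : ¬ p.1 + 1 < n := by omega
    rw [if_neg h2]
    have h3 : ¬ (min p.1 n') + 1 < n := by omega
    rw [if_neg h3]
    have h4 : min (min p.1 n') n = min p.1 n := by omega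
    simp only [h4]

/-- letters visible with their coin are determined by their mask -/
lemma msk_eq_of_lt {n : ℕ} {p q : ℕ × ZMod 2} (h : msk n p = msk n q) (hp : p.1 + 1 < n) : p = q := by
  unfold msk at h
  rw [if_pos hp] at h
  by_cases hq : q.1 + 1 < n
  · rwa [if_pos hq] at h
  · rw [if_neg hq] at h
    have h1 : p.1 = min q.1 n := congrArg Prod.fst h
    omega

/-- rings are visible -/
lemma ring_of_msk {n : ℕ} {p q : ℕ × ZMod 2} (h : msk n p = msk n q) (hp : p.1 + 1 = n) :
    q.1 + 1 = n := by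
  unfold msk at h
  have h1 : ¬ p.1 + 1 < n := by omega
  rw [if_neg h1] at h
  by_cases hq : q.1 + 1 < n
  · rw [if_pos hq] at h
    have h2 : min p.1 n = q.1 := congrArg Prod.fst h
    omega
  · rw [if_neg hq] at h
    have h2 : min p.1 n = min q.1 n := congrArg Prod.fst h
    omega

/-- the rows below `n` only depend on the masked letters -/
lemma Mst_congr {α β : Seq} {n l : ℕ} (h : ∀ i < l, msk n (α i) = msk n (β i)) :
    ∀ k < n, ∀ j, Mst α l k j = Mst β l k j := by
  induction l with
  | zero => intro k _ j; rfl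
  | succ l ih =>
    have ih' := ih fun i hi => h i (by omega)
    intro k hk j
    have hl := h l (by omega)
    simp only [Mst]
    rw [ih' k hk j]
    congr 1
    by_cases h1 : k = (α l).1 + 1
    · have h2 : α l = β l := msk_eq_of_lt hl (by omega)
      rw [← h2, if_pos h1, if_pos h1, ih' _ (by omega)]
    · by_cases h3 : k = (β l).1 + 1
      · have h2 : β l = α l := msk_eq_of_lt hl.symm (by omega)
        exact absurd (h2 ▸ h3) h1
      · rw [if_neg h1, if_neg h3]

lemma low_congr {α β : Seq} {n l : ℕ} (hn : 0 < n) (h : ∀ i < l, msk n (α i) = msk n (β i)) :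
    low α l n = low β l n := by
  funext j
  exact Mst_congr h (n - 1) (by omega) j.val

lemma TT_le_of_msk {α β : Seq} {n l : ℕ} (h : ∀ i < l, msk n (α i) = msk n (β i)) :
    TT α l n ≤ TT β l n := by
  refine Submodule.span_mono ?_
  rintro x ⟨i, hi, h1, rfl⟩
  refine ⟨i, hi, ring_of_msk (h i hi) h1, ?_⟩
  exact low_congr (by omega) fun i' hi' => h i' (by omega)

lemma TT_congr {α β : Seq} {n l : ℕ} (h : ∀ i < l, msk n (α i) = msk n (β i)) :
    TT α l n = TT β l n :=
  le_antisymm (TT_le_of_msk h) (TT_le_of_msk fun i hi => (h i hi).symm)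

/-! #### histories -/

variable {B L : ℕ}

theorem Same.refl (n l : ℕ) (ω : Wd B L) : Same n l ω ω := fun _ _ => rfl

theorem Same.symm {n l : ℕ} {ω ω' : Wd B L} (h : Same n l ω ω') : Same n l ω' ω :=
  fun i hi => (h i hi).symm

theorem Same.trans {n l : ℕ} {ω ω' ω'' : Wd B L} (h : Same n l ω ω') (h' : Same n l ω' ω'') :
    Same n l ω ω'' := fun i hi => (h i hi).trans (h' i hi)

/-- coarser: fewer levels and an earlier time -/
theorem Same.mono {n n' l l' : ℕ} {ω ω' : Wd B L} (h : Same n' l' ω ω') (hn : n ≤ n')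
    (hl : l ≤ l') : Same n l ω ω' := by
  intro i hi
  rw [← msk_msk hn (ext ω i), ← msk_msk hn (ext ω' i), h i (by omega)]

theorem Lev.mono {n n' l l' : ℕ} {G : Set (Wd B L)} (h : Lev n l G) (hn : n ≤ n') (hl : l ≤ l') :
    Lev n' l' G := fun ω ω' hs => h ω ω' (hs.mono hn hl)

theorem Lev.inter {n l : ℕ} {G G' : Set (Wd B L)} (h : Lev n l G) (h' : Lev n l G') :
    Lev n l (G ∩ G') := fun ω ω' hs => and_congr (h ω ω' hs) (h' ω ω' hs)

theorem Lev.past {n l : ℕ} {G : Set (Wd B L)} (h : Lev n l G) : Past l G := by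
  intro ω ω' hs
  exact h ω ω' fun i hi => by rw [hs i hi]

theorem Same.mm_eq {n l : ℕ} {ω ω' : Wd B L} (h : Same n l ω ω') :
    mm (ext ω) l n = mm (ext ω') l n := by
  funext k j
  exact Mst_congr h k.val k.isLt j.val

theorem Same.TT_eq {n l : ℕ} {ω ω' : Wd B L} (h : Same n l ω ω') :
    TT (ext ω) l n = TT (ext ω') l n := TT_congr h

/-- the history of level `n + 1` contains the row of level `n` -/
theorem Same.row_eq {n l : ℕ} {ω ω' : Wd B L} (h : Same (n + 1) l ω ω') :
    row (ext ω) l n = row (ext ω') l n := by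
  funext j
  exact Mst_congr h n (Nat.lt_succ_self n) j.val

/-! #### fresh coins -/

/-- the row of level `n` is the sum of the lower rows at its rings -/
lemma row_eq_sum (α : Seq) (l n : ℕ) :
    row α l n = ∑ i ∈ range l, if (α i).1 + 1 = n then (α i).2 • low α i n else 0 := by
  induction l with
  | zero =>
    funext j
    simp only [row, Mst, range_zero, sum_empty, Pi.zero_apply]
    rw [if_neg (by have := j.isLt; omega)]
  | succ l ih =>
    rw [sum_range_succ, ← ih]
    funext j
    simp only [row, Mst, Pi.add_apply]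
    congr 1
    by_cases h : (α l).1 + 1 = n
    · rw [if_pos h, if_pos h.symm]
      simp only [Pi.smul_apply, smul_eq_mul, low]
      rw [show (α l).1 = n - 1 by omega]
    · rw [if_neg h, if_neg (fun h' => h h'.symm)]
      rfl

/-- the linear map of the fresh coins -/
noncomputable def coinMap (α : Seq) (L l n : ℕ) : (Fin L → ZMod 2) →ₗ[ZMod 2] V n :=
  Fintype.linearCombination (ZMod 2)
    (fun i : Fin L => if i.val < l ∧ (α i.val).1 + 1 = n then low α i.val n else 0)

lemma coinMap_apply (α : Seq) (L l n : ℕ) (hl : l ≤ L) (c : Fin L → ZMod 2) :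
    coinMap α L l n c = ∑ i ∈ range l, if (α i).1 + 1 = n then
      (if h : i < L then c ⟨i, h⟩ else 0) • low α i n else 0 := by
  classical
  unfold coinMap
  rw [Fintype.linearCombination_apply]
  have h1 : ∀ i : Fin L, (c i • if i.val < l ∧ (α i.val).1 + 1 = n then low α i.val n else 0)
      = (fun i : ℕ => if i < l then (if (α i).1 + 1 = n then
      (if h : i < L then c ⟨i, h⟩ else 0) • low α i n else 0) else 0) i.val := by
    intro i
    simp only [i.isLt, dif_pos, Fin.eta]
    by_cases h1 : i.val < l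
    · by_cases h2 : (α i.val).1 + 1 = n
      · simp [h1, h2]
      · simp [h1, h2]
    · simp [h1]
  rw [Finset.sum_congr rfl fun i _ => h1 i]
  rw [Fin.sum_univ_eq_sum_range (fun i : ℕ => if i < l then (if (α i).1 + 1 = n then
      (if h : i < L then c ⟨i, h⟩ else 0) • low α i n else 0) else 0) L]
  rw [← Finset.sum_filter]
  congr 1
  ext i
  simp only [mem_filter, mem_range]
  omega

lemma range_coinMap (α : Seq) (L l n : ℕ) (hl : l ≤ L) :
    LinearMap.range (coinMap α L l n) = TT α l n := by
  unfold coinMap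
  rw [Fintype.range_linearCombination]
  apply le_antisymm
  · rw [Submodule.span_le]
    rintro x ⟨i, rfl⟩
    simp only
    split
    · rename_i h
      exact Submodule.subset_span ⟨i.val, h.1, h.2, rfl⟩
    · exact Submodule.zero_mem _
  · refine Submodule.span_mono ?_
    rintro x ⟨i, hi, h1, rfl⟩
    refine ⟨⟨i, by omega⟩, ?_⟩
    simp [hi, h1]

/-- counting solutions -/
lemma count_coinMap (α : Seq) (L l n : ℕ) (hl : l ≤ L) (a x : V n) (ha : a ∈ TT α l n) :
    ∑ c : Fin L → ZMod 2, (if a + coinMap α L l n c = x then (1 : ℝ) else 0)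
      = (Fintype.card (Fin L → ZMod 2) : ℝ) * uT (TT α l n) x := by
  classical
  set Λ := coinMap α L l n with hΛ
  have hr : LinearMap.range Λ = TT α l n := range_coinMap α L l n hl
  unfold uT
  by_cases hx : x ∈ TT α l n
  · rw [if_pos hx]
    have h1 : x - a ∈ LinearMap.range Λ := by
      rw [hr]
      exact Submodule.sub_mem _ hx ha
    obtain ⟨c0, hc0⟩ := h1
    have h2 : ∀ c, (a + Λ c = x ↔ c - c0 ∈ LinearMap.ker Λ) := by
      intro c
      rw [LinearMap.mem_ker, map_sub, hc0]
      constructor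
      · intro h; rw [← h]; abel
      · intro h
        have : Λ c = x - a := by rw [← sub_eq_zero]; exact h
        rw [this]; abel
    have h3 : ∑ c : Fin L → ZMod 2, (if a + Λ c = x then (1 : ℝ) else 0)
        = ∑ c : Fin L → ZMod 2, (if c ∈ LinearMap.ker Λ then (1 : ℝ) else 0) := by
      rw [← Equiv.sum_comp (Equiv.subRight c0)
        (fun c => if c ∈ LinearMap.ker Λ then (1 : ℝ) else 0)]
      refine Finset.sum_congr rfl fun c _ => ?_
      simp only [Equiv.subRight_apply, h2 c]
    rw [h3, Finset.sum_boole]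
    have h4 : ((univ.filter fun c => c ∈ LinearMap.ker Λ).card : ℝ)
        = (Nat.card (LinearMap.ker Λ) : ℝ) := by
      rw [Nat.card_eq_fintype_card, Fintype.card_subtype]
    rw [h4]
    have h5 : Nat.card (Fin L → ZMod 2) = Nat.card (TT α l n) * Nat.card (LinearMap.ker Λ) := by
      rw [Submodule.card_eq_card_quotient_mul_card (LinearMap.ker Λ)]
      rw [Nat.card_congr (LinearMap.quotKerEquivRange Λ).toEquiv, hr]
      ring
    have h6 : (Fintype.card (Fin L → ZMod 2) : ℝ)
        = (Nat.card (TT α l n) : ℝ) * (Nat.card (LinearMap.ker Λ) : ℝ) := by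
      rw [← Nat.card_eq_fintype_card, h5]
      push_cast
      ring
    rw [h6]
    have h7 : (Nat.card (TT α l n) : ℝ) ≠ 0 := by
      have : 0 < Nat.card (TT α l n) := Nat.card_pos
      exact_mod_cast this.ne'
    field_simp
  · rw [if_neg hx, mul_zero]
    refine Finset.sum_eq_zero fun c _ => ?_
    rw [if_neg]
    intro h
    apply hx
    rw [← h]
    refine Submodule.add_mem _ ha ?_
    rw [← hr]
    exact LinearMap.mem_range_self Λ c

/-- flip the coins of level `n` before `l` -/
def flipW (n l : ℕ) (c : Fin L → ZMod 2) (ω : Wd B L) : Wd B L := fun i =>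
  ((ω i).1, if i.val < l ∧ (ω i).1.val + 1 = n then (ω i).2 + c i else (ω i).2)

lemma flipW_flipW (n l : ℕ) (c : Fin L → ZMod 2) (ω : Wd B L) :
    flipW n l c (flipW n l c ω) = ω := by
  funext i
  unfold flipW
  refine Prod.ext rfl ?_
  simp only
  by_cases h : i.val < l ∧ (ω i).1.val + 1 = n
  · rw [if_pos h, if_pos h, add_assoc]
    have : c i + c i = 0 := by
      have h2 : (2 : ZMod 2) = 0 := rfl
      rw [← two_mul, h2, zero_mul]
    rw [this, add_zero]
  · rw [if_neg h, if_neg h]

lemma ext_flipW (n l : ℕ) (hl : l ≤ L) (c : Fin L → ZMod 2) (ω : Wd B L) (i : ℕ) (hi : i < l) :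
    ext (flipW n l c ω) i = ((ext ω i).1, if (ext ω i).1 + 1 = n then
      (ext ω i).2 + (if h : i < L then c ⟨i, h⟩ else 0) else (ext ω i).2) := by
  have h : i < L := by omega
  unfold ext flipW
  simp only [h, dif_pos, hi, true_and]

lemma same_flipW (n l : ℕ) (hl : l ≤ L) (c : Fin L → ZMod 2) (ω : Wd B L) :
    Same n l ω (flipW n l c ω) := by
  intro i hi
  rw [ext_flipW n l hl c ω i hi]
  unfold msk
  by_cases h1 : (ext ω i).1 + 1 < n
  · have h2 : ¬ (ext ω i).1 + 1 = n := by omega
    simp [h1, h2]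
  · simp [h1]

lemma row_flipW (n l : ℕ) (hl : l ≤ L) (c : Fin L → ZMod 2) (ω : Wd B L) :
    row (ext (flipW n l c ω)) l n = row (ext ω) l n + coinMap (ext ω) L l n c := by
  rw [row_eq_sum, row_eq_sum, coinMap_apply _ _ _ _ hl, ← sum_add_distrib]
  refine Finset.sum_congr rfl fun i hi => ?_
  rw [mem_range] at hi
  have hs := same_flipW n l hl c ω
  rw [ext_flipW n l hl c ω i hi]
  simp only
  by_cases h : (ext ω i).1 + 1 = n
  · rw [if_pos h, if_pos h, if_pos h, if_pos h]
    rw [← low_congr (α := ext ω) (by omega) fun i' hi' => hs i' (by omega)]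
    rw [add_smul]
  · rw [if_neg h, if_neg h, if_neg h, add_zero]

lemma row_mem_TT_self (α : Seq) (l n : ℕ) : row α l n ∈ TT α l n := by
  rw [row_eq_sum]
  refine Submodule.sum_mem _ fun i hi => ?_
  rw [mem_range] at hi
  split
  · rename_i h
    exact Submodule.smul_mem _ _ (Submodule.subset_span ⟨i, hi, h, rfl⟩)
  · exact Submodule.zero_mem _

/-- (F1) given the history of level `n`, the row of level `n` is uniform on `TT` -/
theorem row_uniform (n l : ℕ) (hl : l ≤ L) (f : Wd B L → ℝ)
    (hf : ∀ ω ω', Same n l ω ω' → f ω = f ω') (x : V n) :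
    ∑ ω, f ω * (if row (ext ω) l n = x then 1 else 0) = ∑ ω, f ω * uT (TT (ext ω) l n) x := by
  classical
  set C : ℝ := (Fintype.card (Fin L → ZMod 2) : ℝ) with hC
  have hC0 : C ≠ 0 := by
    have : 0 < Fintype.card (Fin L → ZMod 2) := Fintype.card_pos
    rw [hC]
    exact_mod_cast this.ne'
  have h1 : ∀ c : Fin L → ZMod 2, ∑ ω, f ω * (if row (ext ω) l n = x then (1 : ℝ) else 0)
      = ∑ ω, f ω * (if row (ext ω) l n + coinMap (ext ω) L l n c = x then (1 : ℝ) else 0) := by
    intro c
    have h0 : Function.Bijective (flipW (B := B) n l c) :=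
      Function.Involutive.bijective (fun ω => flipW_flipW n l c ω)
    have h2 := Function.Bijective.sum_comp h0
      (fun ω => f ω * (if row (ext ω) l n = x then (1 : ℝ) else 0))
    rw [← h2]
    refine Finset.sum_congr rfl fun ω _ => ?_
    rw [row_flipW n l hl c ω, ← hf ω _ (same_flipW n l hl c ω)]
  have h3 : C * ∑ ω, f ω * (if row (ext ω) l n = x then (1 : ℝ) else 0)
      = C * ∑ ω, f ω * uT (TT (ext ω) l n) x := by
    have h4 : C * ∑ ω, f ω * (if row (ext ω) l n = x then (1 : ℝ) else 0)
        = ∑ c : Fin L → ZMod 2, ∑ ω : Wd B L,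
          f ω * (if row (ext ω) l n + coinMap (ext ω) L l n c = x then (1 : ℝ) else 0) := by
      rw [← Finset.sum_congr rfl fun c _ => h1 c]
      rw [Finset.sum_const, nsmul_eq_mul, Finset.card_univ]
    rw [h4, Finset.sum_comm, Finset.mul_sum]
    refine Finset.sum_congr rfl fun ω _ => ?_
    rw [← Finset.mul_sum, count_coinMap _ _ _ _ hl _ _ (row_mem_TT_self _ _ _)]
    ring
  exact mul_left_cancel₀ hC0 h3

/-- (F1) in the form used for entropies -/
theorem KK_row_eq_sib (n l : ℕ) (hl : l ≤ L) (G : Set (Wd B L)) (hG : Lev n l G) :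
    KK (sib (ind G (uw B L)) (fun ω => TT (ext ω) l n) 1) (fun p => p.2)
        (fun p => pre (arr (ext p.1) l) n)
      = KK (ind G (uw B L)) (fun ω => arr (ext ω) l n) (fun ω => pre (arr (ext ω) l) n) := by
  classical
  have hw : ∀ p, 0 ≤ sib (ind G (uw B L)) (fun ω => TT (ext ω) l n) 1 p := by
    intro p
    unfold sib
    refine mul_nonneg ?_ (Finset.prod_nonneg fun i _ => ?_)
    · unfold ind
      refine Set.indicator_nonneg (fun ω _ => ?_) _
      unfold uw
      positivity
    · unfold uT
      split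
      · positivity
      · exact le_rfl
  rw [← KK_bij (sib (ind G (uw B L)) (fun ω => TT (ext ω) l n) 1) hw (fun p => p.2)
    (fun p => p.2 0) (fun p => pre (arr (ext p.1) l) n)
    (fun _ => Equiv.funUnique (Fin 1) (V n)) (fun p _ => rfl)]
  refine KK_law _ _ _ _ _ _ fun x y => ?_
  unfold mass
  rw [Fintype.sum_prod_type]
  have h1 := row_uniform (B := B) (L := L) n l hl
    (fun ω => if pre (arr (ext ω) l) n = y then ind G (uw B L) ω else 0) (by
      intro ω ω' hs
      have e1 : pre (arr (ext ω) l) n = pre (arr (ext ω') l) n := hs.mm_eq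
      have e2 : ind G (uw B L) ω = ind G (uw B L) ω' := by
        unfold ind uw
        by_cases hω : ω ∈ G
        · rw [Set.indicator_of_mem hω, Set.indicator_of_mem ((hG ω ω' hs).1 hω)]
        · rw [Set.indicator_of_notMem hω,
            Set.indicator_of_notMem (fun h => hω ((hG ω ω' hs).2 h))]
      simp only [e1, e2]) x
  have h2 : ∀ ω : Wd B L, (∑ z : Fin 1 → V n,
      if (z 0, pre (arr (ext ω) l) n) = (x, y) then
        sib (ind G (uw B L)) (fun ω => TT (ext ω) l n) 1 (ω, z) else 0)
      = (if pre (arr (ext ω) l) n = y then ind G (uw B L) ω else 0) * uT (TT (ext ω) l n) x := by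
    intro ω
    have h3 := Equiv.sum_comp (Equiv.funUnique (Fin 1) (V n)).symm (fun z : Fin 1 → V n =>
      if (z 0, pre (arr (ext ω) l) n) = (x, y) then
        sib (ind G (uw B L)) (fun ω => TT (ext ω) l n) 1 (ω, z) else 0)
    rw [← h3]
    simp only [Equiv.funUnique_symm_apply, sib, Finset.univ_unique, Finset.prod_singleton,
      uniqueElim_const, Prod.mk.injEq]
    by_cases hy : pre (arr (ext ω) l) n = y
    · simp only [hy, and_true, if_true]
      rw [Finset.sum_ite_eq' Finset.univ x]
      simp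
    · simp [hy]
  refine (Finset.sum_congr rfl fun ω _ => (Finset.sum_congr rfl fun z _ => ?_).trans (h2 ω)).trans ?_
  · by_cases hz : (z 0, pre (arr (ext ω) l) n) = (x, y)
    · rw [if_pos hz, if_pos hz]
    · rw [if_neg hz, if_neg hz]
  rw [← h1]
  refine Finset.sum_congr rfl fun ω _ => ?_
  by_cases hy : pre (arr (ext ω) l) n = y
  · by_cases hx : row (ext ω) l n = x
    · have hx' : arr (ext ω) l n = x := hx
      simp [hx, hx', hy]
    · have hx' : ¬ arr (ext ω) l n = x := hx
      simp [hx, hx', hy]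
  · simp [hy]

theorem tot_uw (hB : 0 < B) : tot (uw B L) = 1 := by
  unfold tot uw
  rw [Finset.sum_const, nsmul_eq_mul, Finset.card_univ]
  have : Nonempty (Fin B) := ⟨⟨0, hB⟩⟩
  have h : 0 < Fintype.card (Wd B L) := Fintype.card_pos
  have h' : (Fintype.card (Wd B L) : ℝ) ≠ 0 := by exact_mod_cast h.ne'
  field_simp

end Pool.Agent.CutSeq
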