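import Pool.Agent.CutSeq.Defs
import Pool.Agent.CutSeq.Mod2

/-! Row MOD: the letter model, deterministic facts. -/

set_option autoImplicit false

namespace Pool.Agent.CutSeq

open Finset

/-! #### deterministic facts -/

/-- zero above the diagonal, one on it -/
theorem Mst_upper (α : Seq) (l k j : ℕ) (h : k < j) : Mst α l k j = 0 := by
  induction l generalizing k with
  | zero =>
    show (if k = j then (1 : ZMod 2) else 0) = 0
    rw [if_neg (by omega)]
  | succ l ih =>
    show Mst α l k j + (if k = (α l).1 + 1 then (α l).2 * Mst α l (α l).1 j else 0) = 0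
    rw [ih k h]
    split_ifs with h1
    · rw [ih (α l).1 (by omega), mul_zero, add_zero]
    · rw [add_zero]

theorem Mst_diag (α : Seq) (l k : ℕ) : Mst α l k k = 1 := by
  induction l with
  | zero =>
    show (if k = k then (1 : ZMod 2) else 0) = 1
    rw [if_pos rfl]
  | succ l ih =>
    show Mst α l k k + (if k = (α l).1 + 1 then (α l).2 * Mst α l (α l).1 k else 0) = 1
    rw [ih]
    split_ifs with h1
    · rw [Mst_upper α l (α l).1 k (by omega), mul_zero, add_zero]
    · rw [add_zero]

theorem TT_mono (α : Seq) (n : ℕ) {l l' : ℕ} (h : l ≤ l') : TT α l n ≤ TT α l' n := by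
  refine Submodule.span_mono ?_
  rintro x ⟨i, hi, h1, h2⟩
  exact ⟨i, lt_of_lt_of_le hi h, h1, h2⟩

/-- (F2) rows above, cut to `n` coordinates, lie in `TT` -/
theorem row_mem_TT (α : Seq) (l n i : ℕ) (h : n ≤ i) : cut h (row α l i) ∈ TT α l n := by
  induction l generalizing i with
  | zero =>
    have e : cut h (row α 0 i) = 0 := by
      funext j
      show (if i = j.val then (1 : ZMod 2) else 0) = 0
      rw [if_neg (by have := j.isLt; omega)]
    rw [e]
    exact Submodule.zero_mem _
  | succ l ih =>
    by_cases h1 : i = (α l).1 + 1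
    · have e : cut h (row α (l + 1) i) = cut h (row α l i) +
          (α l).2 • (fun j : Fin n => Mst α l (α l).1 j.val : V n) := by
        funext j
        show Mst α l i j.val + (if i = (α l).1 + 1 then (α l).2 * Mst α l (α l).1 j.val else 0) =
          Mst α l i j.val + (α l).2 * Mst α l (α l).1 j.val
        rw [if_pos h1]
      rw [e]
      refine Submodule.add_mem _ (TT_mono α n (Nat.le_succ l) (ih i h))
        (Submodule.smul_mem _ _ ?_)
      by_cases h2 : n ≤ (α l).1
      · exact TT_mono α n (Nat.le_succ l) (ih (α l).1 h2)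
      · refine Submodule.subset_span ⟨l, Nat.lt_succ_self l, by omega, ?_⟩
        funext j
        show Mst α l (α l).1 j.val = Mst α l (n - 1) j.val
        have e3 : (α l).1 = n - 1 := by omega
        rw [e3]
    · have e : cut h (row α (l + 1) i) = cut h (row α l i) := by
        funext j
        show Mst α l i j.val + (if i = (α l).1 + 1 then (α l).2 * Mst α l (α l).1 j.val else 0) =
          Mst α l i j.val
        rw [if_neg h1, add_zero]
      rw [e]
      exact TT_mono α n (Nat.le_succ l) (ih i h)

theorem mem_AA_iff (α : Seq) (l n : ℕ) (a : V n) :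
    a ∈ AA α l n ↔ ∀ i < l, (α i).1 + 1 = n → low α i n ⬝ᵥ a = 0 := by
  constructor
  · intro h i hi hn
    exact h (low α i n) (Submodule.subset_span ⟨i, hi, hn, rfl⟩)
  · intro h x hx
    refine Submodule.span_induction (p := fun x _ => x ⬝ᵥ a = 0) ?_ ?_ ?_ ?_ hx
    · rintro y ⟨i, hi, hn, rfl⟩
      exact h i hi hn
    · exact zero_dotProduct a
    · intro y z _ _ hy hz
      rw [add_dotProduct, hy, hz, add_zero]
    · intro c y _ hy
      rw [smul_dotProduct, hy, smul_zero]

theorem AA_anti (α : Seq) (n : ℕ) {l l' : ℕ} (h : l ≤ l') : AA α l' n ≤ AA α l n := by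
  intro a ha x hx
  exact ha x (TT_mono α n h hx)

/-- hidden relations are satisfied by all rows above -/
theorem AA_dot (α : Seq) (l n i : ℕ) (h : n ≤ i) (a : V n) (ha : a ∈ AA α l n) :
    cut h (row α l i) ⬝ᵥ a = 0 :=
  ha _ (row_mem_TT α l n i h)

section sums

variable {M : Type*} [AddCommMonoid M]

/-- a sum over `Fin i` as a sum over `Fin k` -/
theorem sum_fin_le {i k : ℕ} (hi : i ≤ k) (f : Fin i → M) :
    ∑ j : Fin i, f j = ∑ j : Fin k, if h : j.val < i then f ⟨j.val, h⟩ else 0 := by
  set F : ℕ → M := fun j => if h : j < i then f ⟨j, h⟩ else 0 with hF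
  have h1 : ∑ j : Fin i, f j = ∑ j : Fin i, F j.val := by
    refine Finset.sum_congr rfl fun j _ => ?_
    rw [hF]
    simp only [j.isLt, dif_pos]
  have h2 : (∑ j : Fin k, if h : j.val < i then f ⟨j.val, h⟩ else 0) = ∑ j : Fin k, F j.val := rfl
  rw [h1, h2, Fin.sum_univ_eq_sum_range F i, Fin.sum_univ_eq_sum_range F k]
  refine Finset.sum_subset (Finset.range_mono hi) ?_
  intro j _ hj
  rw [Finset.mem_range] at hj
  rw [hF]
  simp only [hj, dif_neg, not_false_eq_true]

end sums

theorem dot_pad {n n' : ℕ} (h : n ≤ n') (x : V n') (a : V n) :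
    x ⬝ᵥ pad a = ∑ j : Fin n, x ⟨j.val, lt_of_lt_of_le j.isLt h⟩ * a j := by
  rw [sum_fin_le h]
  unfold dotProduct
  refine Finset.sum_congr rfl fun j _ => ?_
  unfold pad
  split_ifs with h1
  · rfl
  · rw [mul_zero]

/-- hidden relations of level `n` are hidden relations of the higher levels -/
theorem AA_pad (α : Seq) (l : ℕ) {n n' : ℕ} (h : n ≤ n') (a : V n) (ha : a ∈ AA α l n) :
    (pad a : V n') ∈ AA α l n' := by
  rw [mem_AA_iff]
  intro i hi hn
  rw [dot_pad h]
  by_cases h1 : n ≤ n' - 1
  · exact AA_dot α i n (n' - 1) h1 a (AA_anti α n hi.le ha)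
  · have e : n = n' := by omega
    subst e
    exact (mem_AA_iff α l n a).1 ha i hi hn

/-- `act` through the array: the padded vector of a hidden relation stays below level `n` -/
theorem act_pad_hidden (α : Seq) (l : ℕ) {n n' : ℕ} (h : n ≤ n') (a : V n) (ha : a ∈ AA α l n) :
    act (mm α l n') (pad a) = pad (act (mm α l n) a) := by
  funext k
  by_cases hk : k.val < n
  · have e1 : (pad (act (mm α l n) a) : V n') k = act (mm α l n) a ⟨k.val, hk⟩ := by
      unfold pad
      rw [dif_pos hk]
    rw [e1]
    unfold act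
    have e2 : (pad a : V n') k = a ⟨k.val, hk⟩ := by
      unfold pad
      rw [dif_pos hk]
    rw [e2]
    refine congrArg (a ⟨k.val, hk⟩ + ·) ?_
    refine Finset.sum_congr rfl fun j _ => ?_
    have e3 : (pad a : V n') ⟨j.val, j.isLt.trans k.isLt⟩ = a ⟨j.val, j.isLt.trans hk⟩ := by
      unfold pad
      rw [dif_pos (j.isLt.trans hk)]
    rw [e3]
    rfl
  · have e1 : (pad (act (mm α l n) a) : V n') k = 0 := by
      unfold pad
      rw [dif_neg hk]
    have e2 : (pad a : V n') k = 0 := by
      unfold pad
      rw [dif_neg hk]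
    rw [e1]
    unfold act
    rw [e2, zero_add]
    have hk' : n ≤ k.val := by omega
    have e3 := AA_dot α l n k.val hk' a ha
    rw [← e3]
    unfold dotProduct
    rw [sum_fin_le (k := k.val) hk']
    refine Finset.sum_congr rfl fun j _ => ?_
    unfold pad
    simp only
    split_ifs with h1
    · rfl
    · rw [mul_zero]

theorem Mst_add (α : Seq) (l s k j : ℕ) :
    Mst α (l + s) k j = ∑ i ∈ range (k + 1), Mst (shift α l) s k i * Mst α l i j := by
  induction s generalizing k with
  | zero =>
    rw [Finset.sum_eq_single k]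
    · show Mst α l k j = (if k = k then (1 : ZMod 2) else 0) * Mst α l k j
      rw [if_pos rfl, one_mul]
    · intro i _ hi
      show (if k = i then (1 : ZMod 2) else 0) * Mst α l i j = 0
      rw [if_neg (Ne.symm hi), zero_mul]
    · intro h
      exact absurd (Finset.mem_range.2 (Nat.lt_succ_self k)) h
  | succ s ih =>
    show Mst α (l + s) k j + (if k = (α (l + s)).1 + 1 then
      (α (l + s)).2 * Mst α (l + s) (α (l + s)).1 j else 0) =
      ∑ i ∈ range (k + 1), (Mst (shift α l) s k i + if k = (α (l + s)).1 + 1 then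
        (α (l + s)).2 * Mst (shift α l) s (α (l + s)).1 i else 0) * Mst α l i j
    simp only [add_mul, Finset.sum_add_distrib]
    rw [ih k]
    congr 1
    split_ifs with h1
    · rw [ih (α (l + s)).1, h1, Finset.sum_range_succ _ ((α (l + s)).1 + 1),
        Mst_upper (shift α l) s (α (l + s)).1 ((α (l + s)).1 + 1) (Nat.lt_succ_self _),
        mul_zero, zero_mul, add_zero, Finset.mul_sum]
      refine Finset.sum_congr rfl fun i _ => ?_
      rw [mul_assoc]
    · simp

/-- (F4) composition -/
theorem mm_add (α : Seq) (l s n : ℕ) : mm α (l + s) n = mulU (mm (shift α l) s n) (mm α l n) := by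
  funext k j
  show Mst α (l + s) k.val j.val = Mst (shift α l) s k.val j.val + Mst α l k.val j.val +
    ∑ i : Fin k.val, if h : j.val < i.val then
      Mst (shift α l) s k.val i.val * Mst α l i.val j.val else 0
  rw [Mst_add, Finset.sum_range_succ, Mst_diag, one_mul]
  have h1 : ∑ i ∈ range k.val, Mst (shift α l) s k.val i * Mst α l i j.val =
      Mst (shift α l) s k.val j.val + ∑ i : Fin k.val, if h : j.val < i.val then
      Mst (shift α l) s k.val i.val * Mst α l i.val j.val else 0 := by
    rw [← Fin.sum_univ_eq_sum_range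
      (fun i => Mst (shift α l) s k.val i * Mst α l i j.val) k.val]
    have h2 : Mst (shift α l) s k.val j.val = ∑ i : Fin k.val, if i = j then
        Mst (shift α l) s k.val j.val else 0 := by
      rw [Finset.sum_ite_eq' Finset.univ j, if_pos (Finset.mem_univ j)]
    conv_rhs => rw [h2]
    rw [← Finset.sum_add_distrib]
    refine Finset.sum_congr rfl fun i _ => ?_
    rcases lt_trichotomy i.val j.val with h3 | h3 | h3
    · rw [Mst_upper α l i.val j.val h3, mul_zero, if_neg (fun e => by rw [e] at h3; omega),
        dif_neg (by omega), add_zero]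
    · have h4 : i = j := Fin.ext h3
      rw [if_pos h4, dif_neg (by omega), h4, Mst_diag, mul_one, add_zero]
    · rw [if_neg (fun e => by rw [e] at h3; omega), dif_pos h3, zero_add]
  rw [h1]
  ring

theorem act_mulU {n : ℕ} (x y : Un n) (z : V n) : act (mulU x y) z = act x (act y z) := by
  funext k
  unfold act mulU
  simp only [add_mul, mul_add, Finset.sum_add_distrib]
  have h1 : ∑ j : Fin k.val, (∑ i : Fin k.val, if h : j.val < i.val then
        x k i * y ⟨i.val, i.isLt.trans k.isLt⟩ ⟨j.val, h⟩ else 0) *
          z ⟨j.val, j.isLt.trans k.isLt⟩ =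
      ∑ i : Fin k.val, x k i * ∑ j : Fin i.val, y ⟨i.val, i.isLt.trans k.isLt⟩ j *
        z ⟨j.val, j.isLt.trans (i.isLt.trans k.isLt)⟩ := by
    simp only [Finset.sum_mul]
    rw [Finset.sum_comm]
    refine Finset.sum_congr rfl fun i _ => ?_
    rw [sum_fin_le (k := k.val) i.isLt.le, Finset.mul_sum]
    refine Finset.sum_congr rfl fun j _ => ?_
    split_ifs with h2
    · rw [mul_assoc]
    · rw [zero_mul, mul_zero]
  rw [h1]
  ring

theorem act_add {n : ℕ} (x : Un n) (z z' : V n) : act x (z + z') = act x z + act x z' := by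
  funext k
  show (z k + z' k) + ∑ j : Fin k.val, x k j * (z ⟨j.val, _⟩ + z' ⟨j.val, _⟩) =
    (z k + ∑ j : Fin k.val, x k j * z ⟨j.val, _⟩) + (z' k + ∑ j : Fin k.val, x k j * z' ⟨j.val, _⟩)
  simp only [mul_add, Finset.sum_add_distrib]
  ring

theorem act_injective {n : ℕ} (x : Un n) : Function.Injective (act x) := by
  intro z z' h
  have key : ∀ m : ℕ, ∀ k : Fin n, k.val < m → z k = z' k := by
    intro m
    induction m with
    | zero => intro k hk; omega
    | succ m ih =>
      intro k hk
      have h1 := congrFun h k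
      unfold act at h1
      have h2 : ∑ j : Fin k.val, x k j * z ⟨j.val, j.isLt.trans k.isLt⟩ =
          ∑ j : Fin k.val, x k j * z' ⟨j.val, j.isLt.trans k.isLt⟩ := by
        refine Finset.sum_congr rfl fun j _ => ?_
        rw [ih ⟨j.val, j.isLt.trans k.isLt⟩ (by have := j.isLt; simp only; omega)]
      rw [h2] at h1
      exact add_right_cancel h1
  funext k
  exact key (k.val + 1) k (Nat.lt_succ_self _)

theorem mulU_injective {n : ℕ} (g : Un n) : Function.Injective (mulU g) := by
  intro x y h
  have key : ∀ m : ℕ, ∀ k : Fin n, k.val < m → x k = y k := by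
    intro m
    induction m with
    | zero => intro k hk; omega
    | succ m ih =>
      intro k hk
      funext j
      have h1 := congrFun (congrFun h k) j
      unfold mulU at h1
      have h2 : (∑ i : Fin k.val, if h : j.val < i.val then
          g k i * x ⟨i.val, i.isLt.trans k.isLt⟩ ⟨j.val, h⟩ else 0) =
          ∑ i : Fin k.val, if h : j.val < i.val then
            g k i * y ⟨i.val, i.isLt.trans k.isLt⟩ ⟨j.val, h⟩ else 0 := by
        refine Finset.sum_congr rfl fun i _ => ?_
        split_ifs with h3
        · rw [ih ⟨i.val, i.isLt.trans k.isLt⟩ (by have := i.isLt; simp only; omega)]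
        · rfl
      rw [h2] at h1
      exact add_left_cancel (add_right_cancel h1)
  funext k
  exact key (k.val + 1) k (Nat.lt_succ_self _)

theorem mulU_bijective {n : ℕ} (g : Un n) : Function.Bijective (mulU g) :=
  Finite.injective_iff_bijective.1 (mulU_injective g)

/-- truncation of arrays to fewer levels -/
theorem mm_act_cut (α : Seq) (l : ℕ) {n n' : ℕ} (h : n ≤ n') (z : V n') :
    cut h (act (mm α l n') z) = act (mm α l n) (cut h z) := by
  funext k
  rfl

/-- the triangular array `mm` determines everything: `low` is the last row with its diagonal -/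
theorem low_dot (α : Seq) (l n : ℕ) (hn : 0 < n) (a : V n) :
    low α l n ⬝ᵥ a = act (mm α l n) a ⟨n - 1, by omega⟩ := by
  obtain ⟨m, rfl⟩ : ∃ m, n = m + 1 := ⟨n - 1, by omega⟩
  show ∑ j : Fin (m + 1), Mst α l m j.val * a j =
    a ⟨m, _⟩ + ∑ j : Fin m, Mst α l m j.val * a ⟨j.val, _⟩
  rw [Fin.sum_univ_castSucc]
  have e1 : Mst α l m (Fin.last m).val * a (Fin.last m) = a ⟨m, by omega⟩ := by
    rw [Fin.val_last, Mst_diag, one_mul]
    rfl
  rw [e1, add_comm]
  rfl

end Pool.Agent.CutSeq
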