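import Pool.Agent.CutSeq.Ent
import Pool.Agent.CutSeq.Mod

/-! Row TRA, first part: monotonicity in time and the Gibbs form of the entropy production. -/

set_option autoImplicit false

namespace Pool.Agent.CutSeq

open Finset

/-! #### independence of the past and the slab -/

section Split

variable {B L : ℕ}

/-- the letters before `l` of the first word, the others of the second -/
def splice (l : ℕ) (ω ω' : Wd B L) : Wd B L := fun i => if i.val < l then ω i else ω' i

theorem splice_splice (l : ℕ) (ω ω' : Wd B L) :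
    splice l (splice l ω ω') (splice l ω' ω) = ω := by
  funext i
  unfold splice
  by_cases h : i.val < l <;> simp [h]

/-- exchange of the futures of two words -/
def swapEq (B L l : ℕ) : (Wd B L × Wd B L) ≃ (Wd B L × Wd B L) where
  toFun p := (splice l p.1 p.2, splice l p.2 p.1)
  invFun p := (splice l p.1 p.2, splice l p.2 p.1)
  left_inv p := by
    apply Prod.ext
    · exact splice_splice l p.1 p.2
    · exact splice_splice l p.2 p.1
  right_inv p := by
    apply Prod.ext
    · exact splice_splice l p.1 p.2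
    · exact splice_splice l p.2 p.1

/-- functions of the past and of the future are independent -/
theorem sum_split (l : ℕ) (f g : Wd B L → ℝ) (hf : ∀ ω ω', f (splice l ω ω') = f ω)
    (hg : ∀ ω ω', g (splice l ω ω') = g ω') :
    (Fintype.card (Wd B L) : ℝ) * ∑ ω, f ω * g ω = (∑ ω, f ω) * ∑ ω, g ω := by
  rw [Finset.sum_mul_sum, ← Finset.sum_product']
  have h1 : ∑ p : Wd B L × Wd B L, f p.1 * g p.2
      = ∑ p : Wd B L × Wd B L, f p.1 * g p.1 := by
    rw [← Equiv.sum_comp (swapEq B L l) (fun p => f p.1 * g p.1)]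
    refine Finset.sum_congr rfl fun p _ => ?_
    show f p.1 * g p.2 = f (splice l p.1 p.2) * g (splice l p.1 p.2)
    rw [hf, hg]
  have h2 : ∑ p : Wd B L × Wd B L, f p.1 * g p.1
      = (Fintype.card (Wd B L) : ℝ) * ∑ ω, f ω * g ω := by
    rw [Fintype.sum_prod_type]
    simp only [Finset.sum_const, nsmul_eq_mul, Finset.card_univ]
    rw [Finset.mul_sum]
  rw [← h2, ← h1]
  rfl

theorem ext_splice_lt (l : ℕ) (ω ω' : Wd B L) {i : ℕ} (h : i < l) :
    ext (splice l ω ω') i = ext ω i := by
  unfold ext splice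
  by_cases hi : i < L
  · simp [hi, h]
  · simp [hi]

theorem ext_splice_ge (l : ℕ) (ω ω' : Wd B L) {i : ℕ} (h : l ≤ i) :
    ext (splice l ω ω') i = ext ω' i := by
  unfold ext splice
  by_cases hi : i < L
  · simp [hi, not_lt.2 h]
  · simp [hi]

end Split

theorem Mst_congr' (α β : Seq) (l : ℕ) (h : ∀ i < l, α i = β i) : Mst α l = Mst β l := by
  induction l with
  | zero => rfl
  | succ l ih =>
    have h1 := ih fun i hi => h i (by omega)
    funext k j
    simp only [Mst, h1, h l (by omega)]

theorem mm_congr' (α β : Seq) (l n : ℕ) (h : ∀ i < l, α i = β i) : mm α l n = mm β l n := by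
  funext k j
  show Mst α l k.val j.val = Mst β l k.val j.val
  rw [Mst_congr' α β l h]

/-- Gibbs inequality -/
theorem log_jensen {ι : Type*} (s : Finset ι) (a z : ι → ℝ) (ha : ∀ i ∈ s, 0 ≤ a i)
    (hz : ∀ i ∈ s, a i ≠ 0 → 0 < z i) (Z : ℝ) (hZ : 0 < Z)
    (hsum : ∑ i ∈ s, a i * z i ≤ (∑ i ∈ s, a i) * Z) :
    ∑ i ∈ s, a i * Real.log (z i) ≤ (∑ i ∈ s, a i) * Real.log Z := by
  have h1 : ∀ i ∈ s, a i * Real.log (z i) ≤ a i * z i / Z + a i * (Real.log Z - 1) := by
    intro i hi
    rcases eq_or_ne (a i) 0 with h0 | h0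
    · rw [h0]; simp
    · have hzi := hz i hi h0
      have h2 := Real.log_le_sub_one_of_pos (div_pos hzi hZ)
      rw [Real.log_div hzi.ne' hZ.ne'] at h2
      have h3 : Real.log (z i) ≤ z i / Z + (Real.log Z - 1) := by linarith
      have h4 := mul_le_mul_of_nonneg_left h3 (ha i hi)
      calc a i * Real.log (z i) ≤ a i * (z i / Z + (Real.log Z - 1)) := h4
        _ = a i * z i / Z + a i * (Real.log Z - 1) := by ring
  have h5 := Finset.sum_le_sum h1
  rw [Finset.sum_add_distrib, ← Finset.sum_div, ← Finset.sum_mul] at h5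
  have h6 : (∑ i ∈ s, a i * z i) / Z ≤ ∑ i ∈ s, a i := by
    rw [div_le_iff₀ hZ]
    exact hsum
  nlinarith

/-- Gibbs form of the entropy production of one slab: `mu` is a weight on arrays, `g` the law of the
slab -/
theorem production {n : ℕ} (μ : Un n → ℝ) (hμ : ∀ x, 0 ≤ μ x) (g : Un n → ℝ) (hg : ∀ x, 0 ≤ g x)
    (hg1 : tot g = 1) (φ : Un n → Un n → ℝ) :
    ∑ x, ∑ h, μ x * g h * φ h (mulU h x)
      ≤ K0 μ id - K0 (fun p : Un n × Un n => g p.1 * μ p.2) (fun p => mulU p.1 p.2)
        + tot μ * Real.log (∑ h, ∑ x', g h * (mass (fun p : Un n × Un n => g p.1 * μ p.2)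
            (fun p => mulU p.1 p.2) x' / tot μ) * Real.exp (φ h x')) := by
  classical
  set w2 : Un n × Un n → ℝ := fun p => g p.1 * μ p.2 with hw2
  set ν : Un n → ℝ := mass w2 (fun p => mulU p.1 p.2) with hν
  have hw2nn : ∀ p, 0 ≤ w2 p := fun p => mul_nonneg (hg _) (hμ _)
  have hνnn : ∀ x, 0 ≤ ν x := by
    intro x
    rw [hν]
    unfold mass
    exact Finset.sum_nonneg fun p _ => by
      split_ifs
      · exact hw2nn p
      · exact le_rfl
  have hνge : ∀ h x, g h * μ x ≤ ν (mulU h x) := by
    intro h x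
    rw [hν]
    unfold mass
    have h1 := Finset.single_le_sum (f := fun p : Un n × Un n =>
      if mulU p.1 p.2 = mulU h x then w2 p else 0)
      (fun p _ => by
        show 0 ≤ if mulU p.1 p.2 = mulU h x then w2 p else 0
        split_ifs
        · exact hw2nn p
        · exact le_rfl) (Finset.mem_univ (h, x))
    simpa [hw2] using h1
  have htot2 : tot w2 = tot μ := by
    unfold tot
    rw [hw2, Fintype.sum_prod_type]
    simp only
    rw [← Finset.sum_mul_sum]
    have : ∑ h, g h = 1 := hg1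
    rw [this, one_mul]
  -- entropies
  have hK1 : K0 μ id = ∑ x, μ x * Real.log (Fintype.card (Un n) * μ x / tot μ) := by
    unfold K0 KK
    refine Finset.sum_congr rfl fun x _ => ?_
    congr 2
    have h1 : mass μ (fun ω => ((id ω : Un n), ())) (id x, ()) = μ x := by
      unfold mass
      rw [Finset.sum_eq_single x]
      · simp
      · intro y _ hy
        rw [if_neg]
        intro hh
        exact hy (Prod.ext_iff.1 hh).1
      · intro hx
        exact absurd (Finset.mem_univ x) hx
    have h2 : mass μ (fun _ => ()) () = tot μ := by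
      unfold mass tot
      simp
    rw [h1, h2]
  have hK2 : K0 w2 (fun p => mulU p.1 p.2)
      = ∑ h, ∑ x, g h * μ x * Real.log (Fintype.card (Un n) * ν (mulU h x) / tot μ) := by
    unfold K0 KK
    rw [Fintype.sum_prod_type]
    refine Finset.sum_congr rfl fun h _ => Finset.sum_congr rfl fun x _ => ?_
    congr 2
    have h1 : mass w2 (fun p => (mulU p.1 p.2, ())) (mulU h x, ()) = ν (mulU h x) := by
      rw [hν]
      unfold mass
      refine Finset.sum_congr rfl fun p _ => ?_
      by_cases hp : mulU p.1 p.2 = mulU h x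
      · simp [hp]
      · rw [if_neg, if_neg hp]
        intro hh
        exact hp (Prod.ext_iff.1 hh).1
    have h2 : mass w2 (fun _ => ()) () = tot μ := by
      rw [← htot2]
      unfold mass tot
      simp
    simp only [h1, h2]
  rcases eq_or_ne (tot μ) 0 with h0 | h0
  · have hμ0 : ∀ x, μ x = 0 := by
      intro x
      have := (Finset.sum_eq_zero_iff_of_nonneg fun x _ => hμ x).1 h0 x (Finset.mem_univ x)
      exact this
    rw [hK1, hK2, h0]
    simp [hμ0]
  have htpos : 0 < tot μ := lt_of_le_of_ne (Finset.sum_nonneg fun x _ => hμ x) (Ne.symm h0)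
  set Z : ℝ := ∑ h, ∑ x', g h * (ν x' / tot μ) * Real.exp (φ h x') with hZ
  have hcard : (0 : ℝ) < Fintype.card (Un n) := by
    have : 0 < Fintype.card (Un n) := Fintype.card_pos
    exact_mod_cast this
  -- positivity of Z
  have hZpos : 0 < Z := by
    obtain ⟨x, hx⟩ : ∃ x, 0 < μ x := by
      by_contra hne
      push Not at hne
      exact h0 (Finset.sum_eq_zero fun x _ => le_antisymm (hne x) (hμ x))
    obtain ⟨h, hh⟩ : ∃ h, 0 < g h := by
      by_contra hne
      push Not at hne
      have h3 : tot g = 0 := Finset.sum_eq_zero fun x _ => le_antisymm (hne x) (hg x)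
      rw [h3] at hg1
      exact zero_ne_one hg1
    have hν1 : 0 < ν (mulU h x) := lt_of_lt_of_le (mul_pos hh hx) (hνge h x)
    have hterm : ∀ h x', 0 ≤ g h * (ν x' / tot μ) * Real.exp (φ h x') := fun h x' =>
      mul_nonneg (mul_nonneg (hg h) (div_nonneg (hνnn x') htpos.le)) (Real.exp_pos _).le
    have h4 : g h * (ν (mulU h x) / tot μ) * Real.exp (φ h (mulU h x)) ≤ Z := by
      refine le_trans ?_ (Finset.single_le_sum (f := fun h => ∑ x', g h * (ν x' / tot μ)
        * Real.exp (φ h x')) (fun h _ => Finset.sum_nonneg fun x' _ => hterm h x')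
        (Finset.mem_univ h))
      exact Finset.single_le_sum (f := fun x' => g h * (ν x' / tot μ) * Real.exp (φ h x'))
        (fun x' _ => hterm h x') (Finset.mem_univ (mulU h x))
    refine lt_of_lt_of_le ?_ h4
    exact mul_pos (mul_pos hh (div_pos hν1 htpos)) (Real.exp_pos _)
  -- the Gibbs inequality
  have hJ := log_jensen (Finset.univ : Finset (Un n × Un n)) (fun p => μ p.1 * g p.2)
    (fun p => Real.exp (φ p.2 (mulU p.2 p.1)) * (ν (mulU p.2 p.1) / μ p.1))
    (fun p _ => mul_nonneg (hμ _) (hg _))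
    (fun p _ hp => by
      have h1 : μ p.1 ≠ 0 := fun h => hp (by simp [h])
      have h2 : g p.2 ≠ 0 := fun h => hp (by simp [h])
      have h3 : 0 < μ p.1 := lt_of_le_of_ne (hμ _) (Ne.symm h1)
      have h4 : 0 < g p.2 := lt_of_le_of_ne (hg _) (Ne.symm h2)
      exact mul_pos (Real.exp_pos _)
        (div_pos (lt_of_lt_of_le (mul_pos h4 h3) (hνge p.2 p.1)) h3)) Z hZpos
  have hsumw : ∑ p : Un n × Un n, μ p.1 * g p.2 = tot μ := by
    rw [Fintype.sum_prod_type]
    simp only
    rw [← Finset.sum_mul_sum]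
    have : ∑ h, g h = 1 := hg1
    rw [this, mul_one]
    rfl
  rw [hsumw] at hJ
  have hZsum : ∑ p : Un n × Un n, (μ p.1 * g p.2)
      * (Real.exp (φ p.2 (mulU p.2 p.1)) * (ν (mulU p.2 p.1) / μ p.1)) ≤ tot μ * Z := by
    have h1 : tot μ * Z = ∑ h, ∑ x', g h * ν x' * Real.exp (φ h x') := by
      rw [hZ, Finset.mul_sum]
      refine Finset.sum_congr rfl fun h _ => ?_
      rw [Finset.mul_sum]
      refine Finset.sum_congr rfl fun x' _ => ?_
      field_simp
    rw [h1, Fintype.sum_prod_type, Finset.sum_comm]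
    refine Finset.sum_le_sum fun h _ => ?_
    have h2 : ∑ x', g h * ν x' * Real.exp (φ h x')
        = ∑ x, g h * ν (mulU h x) * Real.exp (φ h (mulU h x)) :=
      (Equiv.sum_comp (Equiv.ofBijective _ (mulU_bijective h))
        (fun x' => g h * ν x' * Real.exp (φ h x'))).symm
    rw [h2]
    refine Finset.sum_le_sum fun x _ => ?_
    rcases eq_or_ne (μ x) 0 with hx | hx
    · simp only [hx, zero_mul]
      exact mul_nonneg (mul_nonneg (hg h) (hνnn _)) (Real.exp_pos _).le
    · apply le_of_eq
      field_simp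
  have hJ' := hJ hZsum
  -- the identity
  have hid : ∀ x h, μ x * g h * Real.log (Real.exp (φ h (mulU h x)) * (ν (mulU h x) / μ x))
      = μ x * g h * φ h (mulU h x)
        - μ x * g h * Real.log (Fintype.card (Un n) * μ x / tot μ)
        + g h * μ x * Real.log (Fintype.card (Un n) * ν (mulU h x) / tot μ) := by
    intro x h
    rcases eq_or_ne (μ x * g h) 0 with hz | hz
    · have hz' : g h * μ x = 0 := by rw [mul_comm]; exact hz
      rw [hz, hz']
      ring
    · have h1 : μ x ≠ 0 := fun h => hz (by simp [h])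
      have h2 : g h ≠ 0 := fun h => hz (by simp [h])
      have h3 : 0 < μ x := lt_of_le_of_ne (hμ _) (Ne.symm h1)
      have h4 : 0 < g h := lt_of_le_of_ne (hg _) (Ne.symm h2)
      have h5 : 0 < ν (mulU h x) := lt_of_lt_of_le (mul_pos h4 h3) (hνge h x)
      rw [Real.log_mul (Real.exp_pos _).ne' (div_pos h5 h3).ne', Real.log_exp,
        Real.log_div h5.ne' h3.ne', Real.log_div (mul_pos hcard h3).ne' htpos.ne',
        Real.log_div (mul_pos hcard h5).ne' htpos.ne', Real.log_mul hcard.ne' h3.ne',
        Real.log_mul hcard.ne' h5.ne']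
      ring
  have hLHS : ∑ p : Un n × Un n, (μ p.1 * g p.2)
      * Real.log (Real.exp (φ p.2 (mulU p.2 p.1)) * (ν (mulU p.2 p.1) / μ p.1))
      = ∑ x, ∑ h, μ x * g h * φ h (mulU h x) - K0 μ id + K0 w2 (fun p => mulU p.1 p.2) := by
    rw [Fintype.sum_prod_type]
    simp only [hid]
    have h1 : ∑ x, ∑ h, μ x * g h * Real.log (Fintype.card (Un n) * μ x / tot μ) = K0 μ id := by
      rw [hK1]
      refine Finset.sum_congr rfl fun x _ => ?_
      rw [← Finset.sum_mul, ← Finset.mul_sum]
      have : ∑ h, g h = 1 := hg1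
      rw [this, mul_one]
    have h2 : ∑ x, ∑ h, g h * μ x * Real.log (Fintype.card (Un n) * ν (mulU h x) / tot μ)
        = K0 w2 (fun p => mulU p.1 p.2) := by
      rw [hK2, Finset.sum_comm]
    rw [← h1, ← h2, ← Finset.sum_sub_distrib, ← Finset.sum_add_distrib]
    refine Finset.sum_congr rfl fun x _ => ?_
    rw [← Finset.sum_sub_distrib, ← Finset.sum_add_distrib]
  rw [hLHS] at hJ'
  linarith

theorem mass_ite {Ω A : Type*} [Fintype Ω] [DecidableEq A] (w : Ω → ℝ) (X : Ω → A) (a : A) :
    mass w X a = ∑ ω, if X ω = a then w ω else 0 := by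
  unfold mass
  refine Finset.sum_congr rfl fun ω _ => ?_
  by_cases h : X ω = a
  · rw [if_pos h, if_pos h]
  · rw [if_neg h, if_neg h]

/-- an independent function does not change the entropy -/
theorem KK_indep {Ω A B : Type*} [Fintype Ω] [Fintype A] (w : Ω → ℝ) (X : Ω → A) (Y : Ω → B)
    (c : B → ℝ) (hc : ∀ ω, w ω ≠ 0 → c (Y ω) ≠ 0)
    (hXY : ∀ a b, mass w (fun ω => (X ω, Y ω)) (a, b) = mass w X a * c b)
    (hY : ∀ b, mass w Y b = tot w * c b) :
    KK w X Y = K0 w X := by
  classical
  unfold K0 KK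
  refine Finset.sum_congr rfl fun ω _ => ?_
  rcases eq_or_ne (w ω) 0 with h0 | h0
  · rw [h0]; simp
  have h1 : mass w (fun ω => (X ω, ())) (X ω, ()) = mass w X (X ω) := by
    unfold mass
    refine Finset.sum_congr rfl fun ω' _ => ?_
    by_cases h : X ω' = X ω
    · simp [h]
    · rw [if_neg, if_neg h]
      intro hh
      exact h (Prod.ext_iff.1 hh).1
  have h2 : mass w (fun _ => ()) () = tot w := by
    unfold mass tot
    simp
  simp only [h1, h2, hXY, hY]
  congr 2
  rw [← mul_assoc, mul_div_mul_right _ _ (hc ω h0)]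

/-- the entropy of the array decreases in time for a weight of the past -/
theorem K0_time {B L : ℕ} (l l' n : ℕ) (hB : 0 < B) (hl : l ≤ l') (hl' : l' ≤ L) (G : Set (Wd B L))
    (hG : Past l G) :
    K0 (ind G (uw B L)) (fun ω => mm (ext ω) l' n) ≤ K0 (ind G (uw B L)) (fun ω => mm (ext ω) l n) := by
  classical
  obtain ⟨s, rfl⟩ : ∃ s, l' = l + s := ⟨l' - l, by omega⟩
  set w : Wd B L → ℝ := ind G (uw B L) with hw
  have hwnn : ∀ ω, 0 ≤ w ω := fun ω => by
    rw [hw]
    exact Set.indicator_nonneg (fun _ _ => by unfold uw; positivity) ω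
  set X : Wd B L → Un n := fun ω => mm (ext ω) l n with hX
  set Y : Wd B L → Un n := fun ω => mm (shift (ext ω) l) s n with hY
  have hcard : (0 : ℝ) < Fintype.card (Wd B L) := by
    have : Nonempty (Fin B) := ⟨⟨0, hB⟩⟩
    have : 0 < Fintype.card (Wd B L) := Fintype.card_pos
    exact_mod_cast this
  have hXs : ∀ ω ω', X (splice l ω ω') = X ω := fun ω ω' =>
    mm_congr' _ _ _ _ fun i hi => ext_splice_lt l ω ω' hi
  have hYs : ∀ ω ω', Y (splice l ω ω') = Y ω' := fun ω ω' =>
    mm_congr' _ _ _ _ fun i _ => ext_splice_ge l ω ω' (Nat.le_add_right l i)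
  have hws : ∀ ω ω', w (splice l ω ω') = w ω := fun ω ω' => by
    have h1 := hG (splice l ω ω') ω fun i hi => ext_splice_lt l ω ω' hi
    rw [hw]
    unfold ind uw
    by_cases h : ω ∈ G
    · rw [Set.indicator_of_mem h, Set.indicator_of_mem (h1.2 h)]
    · rw [Set.indicator_of_notMem h, Set.indicator_of_notMem (fun hh => h (h1.1 hh))]
  -- the law of the slab
  set c : Un n → ℝ := fun b => mass (fun _ : Wd B L => (1 : ℝ)) Y b / Fintype.card (Wd B L)
    with hc
  have hcne : ∀ ω, w ω ≠ 0 → c (Y ω) ≠ 0 := by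
    intro ω _
    rw [hc]
    apply div_ne_zero _ hcard.ne'
    have h1 : (1 : ℝ) ≤ mass (fun _ : Wd B L => (1 : ℝ)) Y (Y ω) := by
      unfold mass
      have h2 := Finset.single_le_sum (f := fun ω' => if Y ω' = Y ω then (1 : ℝ) else 0)
        (fun ω' _ => by
          show (0 : ℝ) ≤ if Y ω' = Y ω then (1 : ℝ) else 0
          split_ifs <;> norm_num) (Finset.mem_univ ω)
      simpa using h2
    intro h3
    rw [h3] at h1
    norm_num at h1
  have hXY : ∀ a b, mass w (fun ω => (X ω, Y ω)) (a, b) = mass w X a * c b := by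
    intro a b
    have h1 := sum_split l (fun ω => if X ω = a then w ω else 0)
      (fun ω => if Y ω = b then (1 : ℝ) else 0) (fun ω ω' => by simp only [hXs, hws])
      (fun ω ω' => by simp only [hYs])
    have h2 : ∀ ω, (if (X ω, Y ω) = (a, b) then w ω else 0)
        = (if X ω = a then w ω else 0) * (if Y ω = b then (1 : ℝ) else 0) := by
      intro ω
      by_cases hx : X ω = a
      · by_cases hy : Y ω = b
        · simp [hx, hy]
        · rw [if_neg, if_neg hy, mul_zero]
          intro hh
          exact hy (Prod.ext_iff.1 hh).2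
      · rw [if_neg, if_neg hx, zero_mul]
        intro hh
        exact hx (Prod.ext_iff.1 hh).1
    have h3 : mass w (fun ω => (X ω, Y ω)) (a, b)
        = ∑ ω, (if X ω = a then w ω else 0) * (if Y ω = b then (1 : ℝ) else 0) := by
      rw [mass_ite]
      exact Finset.sum_congr rfl fun ω _ => h2 ω
    have h4 : mass w X a = ∑ ω, if X ω = a then w ω else 0 := mass_ite _ _ _
    have h5 : mass (fun _ : Wd B L => (1 : ℝ)) Y b = ∑ ω, if Y ω = b then (1 : ℝ) else 0 :=
      mass_ite _ _ _
    rw [h3, hc, h4]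
    simp only [h5]
    rw [mul_div_assoc', ← h1, mul_div_cancel_left₀ _ hcard.ne']
  have hYm : ∀ b, mass w Y b = tot w * c b := by
    intro b
    have h1 := sum_split l (fun ω => w ω)
      (fun ω => if Y ω = b then (1 : ℝ) else 0) (fun ω ω' => hws ω ω')
      (fun ω ω' => by simp only [hYs])
    have h3 : mass w Y b = ∑ ω, w ω * (if Y ω = b then (1 : ℝ) else 0) := by
      unfold mass
      refine Finset.sum_congr rfl fun ω _ => ?_
      by_cases hy : Y ω = b <;> simp [hy]
    have h5 : mass (fun _ : Wd B L => (1 : ℝ)) Y b = ∑ ω, if Y ω = b then (1 : ℝ) else 0 :=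
      mass_ite _ _ _
    rw [h3, hc]
    simp only [h5]
    unfold tot
    rw [mul_div_assoc', ← h1, mul_div_cancel_left₀ _ hcard.ne']
  have hstep : (fun ω => mm (ext ω) (l + s) n) = fun ω => mulU (Y ω) (X ω) := by
    funext ω
    exact mm_add (ext ω) l s n
  calc K0 w (fun ω => mm (ext ω) (l + s) n)
      = K0 w (fun ω => mulU (Y ω) (X ω)) := by rw [hstep]
    _ ≤ KK w (fun ω => mulU (Y ω) (X ω)) Y := by
        unfold K0
        exact KK_finer w hwnn _ _ _ fun _ _ _ _ _ => rfl
    _ = KK w X Y := KK_bij w hwnn X (fun ω => mulU (Y ω) (X ω)) Y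
        (fun b => Equiv.ofBijective _ (mulU_bijective b)) fun _ _ => rfl
    _ = K0 w X := KK_indep w X Y c hcne hXY hYm

end Pool.Agent.CutSeq
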