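import Pool.Agent.CutSeq.Evt
import Pool.Agent.CutSeq.Tra0

/-! Row FAM: families of events on a region of levels and times, and their restriction to a grid. -/

set_option autoImplicit false
set_option linter.unusedVariables false

namespace Pool.Agent.CutSeq

open Finset

/-- level `n` at time `l` is in the region -/
def Reg (Λ : ℕ → ℝ) (r : ℝ) (y Nmax n l : ℕ) : Prop := Λ (n + y) + r ≤ l ∧ n + y ≤ Nmax

/-- the statement of a stage -/
structure Fam (B L : ℕ) (Λ : ℕ → ℝ) (r : ℝ) (y Nmax : ℕ) (D q : ℝ)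
    (G : ℕ → ℕ → Set (Wd B L)) : Prop where
  lev : ∀ n l, l ≤ L → Lev n l (G n l)
  anti : ∀ l n n', n ≤ n' → G n' l ⊆ G n l
  loss : pr (uw B L) {ω | ∃ n l, l ≤ L ∧ Reg Λ r y Nmax n l ∧ ω ∉ G n l} ≤ q
  ent : ∀ n l, l ≤ L → Reg Λ r y Nmax n l →
    K0 (ind (G n l) (uw B L)) (fun ω => mm (ext ω) l n) ≤ D

open Classical in
/-- the highest level of the region at time `l` (`0` if there is none) -/
noncomputable def rtop (Λ : ℕ → ℝ) (r : ℝ) (y Nmax l : ℕ) : ℕ :=
  Nat.findGreatest (fun n => Reg Λ r y Nmax n l) Nmax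

/-- the events on the grid -/
def gridEv {B L : ℕ} (Λ : ℕ → ℝ) (r : ℝ) (y Nmax : ℕ) (G : ℕ → ℕ → Set (Wd B L)) (S i n : ℕ) :
    Set (Wd B L) := {ω | ∀ n' ≤ n, Reg Λ r y Nmax n' (i * S) → ω ∈ G n' (i * S)}

variable {B L : ℕ} {Λ : ℕ → ℝ} {r : ℝ} {y Nmax : ℕ} {D q : ℝ} {G : ℕ → ℕ → Set (Wd B L)}

theorem Reg.down (hΛ : Monotone Λ) {n n' l : ℕ} (h : Reg Λ r y Nmax n' l) (hn : n ≤ n') :
    Reg Λ r y Nmax n l := by
  refine ⟨?_, by have := h.2; omega⟩
  have h1 : Λ (n + y) ≤ Λ (n' + y) := hΛ (by omega)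
  have h2 := h.1
  linarith

theorem le_rtop {n l : ℕ} (h : Reg Λ r y Nmax n l) : n ≤ rtop Λ r y Nmax l := by
  classical
  unfold rtop
  exact Nat.le_findGreatest (by have := h.2; omega) h

theorem reg_of_le_rtop (hΛ : Monotone Λ) {n l : ℕ} (h0 : 0 < rtop Λ r y Nmax l)
    (h : n ≤ rtop Λ r y Nmax l) : Reg Λ r y Nmax n l := by
  classical
  have h1 : Reg Λ r y Nmax (rtop Λ r y Nmax l) l :=
    Nat.findGreatest_of_ne_zero (P := fun n => Reg Λ r y Nmax n l) (n := Nmax)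
      (m := rtop Λ r y Nmax l) rfl h0.ne'
  exact Reg.down hΛ h1 h

theorem Reg.later {n l l' : ℕ} (h : Reg Λ r y Nmax n l) (hl : l ≤ l') : Reg Λ r y Nmax n l' := by
  refine ⟨?_, h.2⟩
  have h1 := h.1
  have h2 : (l : ℝ) ≤ l' := by exact_mod_cast hl
  linarith

theorem rtop_mono (hΛ : Monotone Λ) {l l' : ℕ} (hl : l ≤ l') :
    rtop Λ r y Nmax l ≤ rtop Λ r y Nmax l' := by
  rcases Nat.eq_zero_or_pos (rtop Λ r y Nmax l) with h0 | h0
  · rw [h0]
    exact Nat.zero_le _
  · exact le_rtop ((reg_of_le_rtop hΛ h0 le_rfl).later hl)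

/-- the entropy of the empty array is zero -/
theorem K0_mm_zero (w : Wd B L → ℝ) (l : ℕ) : K0 w (fun ω => mm (ext ω) l 0) = 0 := by
  unfold K0 KK
  refine sum_eq_zero fun ω _ => ?_
  have h1 : mass w (fun ω => (mm (ext ω) l 0, ())) (mm (ext ω) l 0, ())
      = mass w (fun _ => ()) () := by
    unfold mass
    refine sum_congr rfl fun ω' _ => ?_
    have : mm (ext ω') l 0 = mm (ext ω) l 0 := by
      funext k
      exact k.elim0
    simp [this]
  have h2 : (Fintype.card (Un 0) : ℝ) = 1 := by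
    have : Unique (Un 0) := Pi.uniqueOfIsEmpty _
    rw [Fintype.card_unique, Nat.cast_one]
  rw [h1, h2, one_mul]
  rcases eq_or_ne (mass w (fun _ : Wd B L => ()) ()) 0 with h | h
  · rw [h]
    simp
  · rw [div_self h, Real.log_one, mul_zero]

/-- the grid events satisfy the hypotheses of the scheme -/
theorem Fam.old (h : Fam B L Λ r y Nmax D q G) (hΛ : Monotone Λ) (hB : 0 < B) (hD : 0 ≤ D)
    {S I : ℕ} (hIL : I * S ≤ L) :
    Old (gridEv Λ r y Nmax G S) (fun i => rtop Λ r y Nmax (i * S)) S I D q := by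
  have hiL : ∀ i, i ≤ I → i * S ≤ L := fun i hi => (Nat.mul_le_mul_right S hi).trans hIL
  refine ⟨?_, ?_, ?_, ?_, ?_, ?_⟩
  · intro i i' hi
    exact rtop_mono hΛ (Nat.mul_le_mul_right S hi)
  · intro i n hi ω ω' hs
    refine forall_congr' fun n' => forall_congr' fun hn' => forall_congr' fun _ => ?_
    exact h.lev n' (i * S) (hiL i hi) ω ω' (hs.mono hn' le_rfl)
  · intro i n n' hn ω hω n'' hn'' hR
    exact hω n'' (hn''.trans hn) hR
  · intro i n hn
    refine Set.Subset.antisymm ?_ ?_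
    · intro ω hω n'' hn'' hR
      exact hω n'' (hn''.trans hn) hR
    · intro ω hω n'' _ hR
      exact hω n'' (le_rtop hR) hR
  · refine le_trans (Evt.pr_mono _ Evt.uw_nonneg ?_) h.loss
    rintro ω ⟨i, hi, hω⟩
    have : ¬ ∀ n' ≤ rtop Λ r y Nmax (i * S), Reg Λ r y Nmax n' (i * S) → ω ∈ G n' (i * S) := hω
    push Not at this
    obtain ⟨n', _, hR, hn⟩ := this
    exact ⟨n', i * S, hiL i hi, hR, hn⟩
  · intro i n hi hn
    rcases Nat.eq_zero_or_pos (rtop Λ r y Nmax (i * S)) with h0 | h0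
    · have hn0 : n = 0 := by
        have : n ≤ rtop Λ r y Nmax (i * S) := hn
        omega
      subst hn0
      rw [K0_mm_zero]
      exact hD
    · have hR : Reg Λ r y Nmax n (i * S) := reg_of_le_rtop hΛ h0 hn
      have he : gridEv Λ r y Nmax G S i n = G n (i * S) := by
        refine Set.Subset.antisymm ?_ ?_
        · intro ω hω
          exact hω n le_rfl hR
        · intro ω hω n' hn' _
          exact h.anti (i * S) n' n hn' hω
      rw [he]
      exact h.ent n (i * S) (hiL i hi) hR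

/-- from grid times to all times: `W` are new events on the grid, with small entropy for the levels
`n` at the grid times `i` with `Λ (n + y') + r' ≤ i * S` -/
theorem Fam.of_grid (hΛ : Monotone Λ) (hB : 0 < B) {S I : ℕ} (hS : 0 < S) (hIL : I * S ≤ L)
    (hLI : L < (I + 1) * S) (W : ℕ → ℕ → Set (Wd B L)) (D' q' r' : ℝ) (y' : ℕ) (hy : y ≤ y')
    (hr : r ≤ r') (hlev : ∀ i n, i ≤ I → Lev n (i * S) (W i n))
    (hanti : ∀ i n n', n ≤ n' → W i n' ⊆ W i n)
    (hloss : pr (uw B L) {ω | ∃ i ≤ I, ω ∉ W i (rtop Λ r y Nmax (i * S))} ≤ q')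
    (hent : ∀ i n, i ≤ I → Reg Λ r' y' Nmax n (i * S) →
      K0 (ind (W i n) (uw B L)) (fun ω => mm (ext ω) (i * S) n) ≤ D') :
    Fam B L Λ (r' + S) y' Nmax D' q' (fun n l => W (l / S) n) := by
  have hdiv : ∀ l, l ≤ L → l / S ≤ I := fun l hl =>
    Nat.lt_succ_iff.1 ((Nat.div_lt_iff_lt_mul hS).2 (lt_of_le_of_lt hl hLI))
  have hle : ∀ l, l / S * S ≤ l := fun l => Nat.div_mul_le_self l S
  have hreg : ∀ n l, Reg Λ (r' + S) y' Nmax n l → Reg Λ r' y' Nmax n (l / S * S) := by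
    intro n l hR
    refine ⟨?_, hR.2⟩
    have h1 := hR.1
    have h2 : l < l / S * S + S := by
      have := Nat.lt_div_mul_add (a := l) hS
      exact this
    have h3 : (l : ℝ) ≤ ((l / S * S : ℕ) : ℝ) + S := by exact_mod_cast h2.le
    linarith
  refine ⟨?_, ?_, ?_, ?_⟩
  · intro n l hl
    exact (hlev (l / S) n (hdiv l hl)).mono le_rfl (hle l)
  · intro l n n' hn
    exact hanti (l / S) n n' hn
  · refine le_trans (Evt.pr_mono _ Evt.uw_nonneg ?_) hloss
    rintro ω ⟨n, l, hl, hR, hω⟩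
    refine ⟨l / S, hdiv l hl, fun hW => hω ?_⟩
    have h1 := hreg n l hR
    have h2 : Reg Λ r y Nmax n (l / S * S) := by
      refine ⟨?_, by have := h1.2; omega⟩
      have h3 := h1.1
      have h4 : Λ (n + y) ≤ Λ (n + y') := hΛ (by omega)
      linarith
    exact hanti (l / S) n _ (le_rtop h2) hW
  · intro n l hl hR
    refine le_trans (K0_time (l / S * S) l n hB (hle l) hl _
      (hlev (l / S) n (hdiv l hl)).past) ?_
    exact hent (l / S) n (hdiv l hl) (hreg n l hR)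

end Pool.Agent.CutSeq
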