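import Pool.Agent.CutSeq.Bridge

/-! Row GAP, the spectral half: exponential decay of every function of mean zero, with a rate that
does not depend on the function, gives the contraction in quadratic mean with the same rate
(logarithmic convexity of `s ↦ ‖P_s g‖²`). -/

set_option autoImplicit false

namespace Pool.Agent.CutSeq

open Finset Pool.Agent.UTM Pool.Agent.UTM.Es

/-- the squared norm of the evolved function -/
noncomputable def Brg.ph (n : ℕ) (g : Un n → ℝ) (s : ℝ) : ℝ := ∑ z, (heat (Brg.LU n) s g z) ^ 2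

theorem Brg.ph_nonneg (n : ℕ) (g : Un n → ℝ) (s : ℝ) : 0 ≤ Brg.ph n g s :=
  Finset.sum_nonneg fun _ _ => sq_nonneg _

theorem Brg.ph_zero (n : ℕ) (g : Un n → ℝ) : Brg.ph n g 0 = ∑ z, (g z) ^ 2 := by
  unfold Brg.ph
  rw [heat_zero]

/-- logarithmic convexity -/
theorem Brg.ph_sq (n : ℕ) (g : Un n → ℝ) (s : ℝ) :
    Brg.ph n g s ^ 2 ≤ Brg.ph n g 0 * Brg.ph n g (2 * s) := by
  have h1 : Brg.ph n g s = ∑ z, g z * heat (Brg.LU n) (2 * s) g z := by
    unfold Brg.ph
    have h2 : ∑ z, (heat (Brg.LU n) s g z) ^ 2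
        = ∑ z, heat (Brg.LU n) s g z * heat (Brg.LU n) s g z :=
      Finset.sum_congr rfl fun z _ => by ring
    rw [h2, ← Brg.heat_symm _ (Brg.LU_symm n) s g (heat (Brg.LU n) s g), ← heat_add, ← two_mul]
  rw [h1, Brg.ph_zero]
  exact Finset.sum_mul_sq_le_sq_mul_sq _ _ _

theorem Brg.ph_iter (n : ℕ) (g : Un n → ℝ) (c : ℝ) (h0 : 0 < Brg.ph n g 0) (k : ℕ) : ∀ s : ℝ,
    (Brg.ph n g s * Real.exp (2 * c * s) / Brg.ph n g 0) ^ (2 ^ k)
      ≤ Brg.ph n g (2 ^ k * s) * Real.exp (2 * c * (2 ^ k * s)) / Brg.ph n g 0 := by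
  induction k with
  | zero => intro s; simp
  | succ k ih =>
      intro s
      have h1 : (Brg.ph n g s * Real.exp (2 * c * s) / Brg.ph n g 0) ^ 2
          ≤ Brg.ph n g (2 * s) * Real.exp (2 * c * (2 * s)) / Brg.ph n g 0 := by
        have h2 := Brg.ph_sq n g s
        have h3 : Real.exp (2 * c * (2 * s)) = Real.exp (2 * c * s) ^ 2 := by
          rw [← Real.exp_nat_mul]
          congr 1
          push_cast
          ring
        rw [h3, div_pow, mul_pow, div_le_div_iff₀ (by positivity) h0]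
        have h4 : 0 ≤ Real.exp (2 * c * s) ^ 2 * Brg.ph n g 0 := by positivity
        calc Brg.ph n g s ^ 2 * Real.exp (2 * c * s) ^ 2 * Brg.ph n g 0
            = Brg.ph n g s ^ 2 * (Real.exp (2 * c * s) ^ 2 * Brg.ph n g 0) := by ring
          _ ≤ (Brg.ph n g 0 * Brg.ph n g (2 * s)) * (Real.exp (2 * c * s) ^ 2 * Brg.ph n g 0) :=
              mul_le_mul_of_nonneg_right h2 h4
          _ = _ := by ring
      have h5 := ih (2 * s)
      have h6 : (0 : ℝ) ≤ (Brg.ph n g s * Real.exp (2 * c * s) / Brg.ph n g 0) ^ 2 := sq_nonneg _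
      calc (Brg.ph n g s * Real.exp (2 * c * s) / Brg.ph n g 0) ^ (2 ^ (k + 1))
          = ((Brg.ph n g s * Real.exp (2 * c * s) / Brg.ph n g 0) ^ 2) ^ (2 ^ k) := by
            rw [← pow_mul]
            congr 1
            rw [pow_succ, mul_comm]
        _ ≤ (Brg.ph n g (2 * s) * Real.exp (2 * c * (2 * s)) / Brg.ph n g 0) ^ (2 ^ k) :=
            pow_le_pow_left₀ h6 h1 _
        _ ≤ _ := h5
        _ = _ := by
            rw [show (2 : ℝ) ^ k * (2 * s) = 2 ^ (k + 1) * s by rw [pow_succ]; ring]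

/-- the contraction for functions of mean zero -/
theorem Brg.contraction0 (n : ℕ) (c : ℝ) (g : Un n → ℝ) (C : ℝ)
    (hC : ∀ s, 0 ≤ s → ∀ y, |heat (Brg.LU n) s g y| ≤ C * Real.exp (-(c * s))) (s : ℝ)
    (hs : 0 ≤ s) : Brg.ph n g s ≤ Real.exp (-(2 * c * s)) * Brg.ph n g 0 := by
  rcases (Brg.ph_nonneg n g 0).eq_or_lt with h0 | h0
  · have h1 := Brg.ph_sq n g s
    rw [← h0, zero_mul] at h1
    have h2 : Brg.ph n g s = 0 := by
      have := le_antisymm h1 (sq_nonneg _)
      exact pow_eq_zero_iff (two_ne_zero) |>.mp this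
    rw [h2, ← h0, mul_zero]
  · have hb : ∀ t : ℝ, 0 ≤ t → Brg.ph n g t * Real.exp (2 * c * t)
        ≤ (Fintype.card (Un n) : ℝ) * C ^ 2 := by
      intro t ht
      have h1 : Brg.ph n g t ≤ (Fintype.card (Un n) : ℝ) * (C * Real.exp (-(c * t))) ^ 2 := by
        unfold Brg.ph
        calc ∑ z, (heat (Brg.LU n) t g z) ^ 2
            ≤ ∑ _z : Un n, (C * Real.exp (-(c * t))) ^ 2 := by
              apply Finset.sum_le_sum
              intro z _
              rw [← sq_abs]
              exact pow_le_pow_left₀ (abs_nonneg _) (hC t ht z) 2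
          _ = _ := by rw [Finset.sum_const, card_univ, nsmul_eq_mul]
      have h2 : Real.exp (-(c * t)) ^ 2 * Real.exp (2 * c * t) = 1 := by
        rw [← Real.exp_nat_mul, ← Real.exp_add]
        push_cast
        rw [show 2 * -(c * t) + 2 * c * t = 0 by ring, Real.exp_zero]
      calc Brg.ph n g t * Real.exp (2 * c * t)
          ≤ (Fintype.card (Un n) : ℝ) * (C * Real.exp (-(c * t))) ^ 2 * Real.exp (2 * c * t) :=
            mul_le_mul_of_nonneg_right h1 (Real.exp_pos _).le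
        _ = (Fintype.card (Un n) : ℝ) * C ^ 2 * (Real.exp (-(c * t)) ^ 2 * Real.exp (2 * c * t)) := by
            ring
        _ = _ := by rw [h2, mul_one]
    have hr : Brg.ph n g s * Real.exp (2 * c * s) / Brg.ph n g 0 ≤ 1 := by
      by_contra hcon
      push Not at hcon
      set r := Brg.ph n g s * Real.exp (2 * c * s) / Brg.ph n g 0 with hrdef
      set D := (Fintype.card (Un n) : ℝ) * C ^ 2 / Brg.ph n g 0 with hD
      obtain ⟨m, hm⟩ := pow_unbounded_of_one_lt D hcon
      have h1 := Brg.ph_iter n g c h0 m s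
      rw [← hrdef] at h1
      have h2 : r ^ m ≤ r ^ (2 ^ m) := pow_le_pow_right₀ hcon.le (Nat.lt_two_pow_self).le
      have h3 : Brg.ph n g (2 ^ m * s) * Real.exp (2 * c * (2 ^ m * s)) / Brg.ph n g 0 ≤ D :=
        div_le_div_of_nonneg_right (hb _ (by positivity)) h0.le
      linarith
    rw [div_le_one h0] at hr
    have h4 : Real.exp (-(2 * c * s)) * Real.exp (2 * c * s) = 1 := by
      rw [← Real.exp_add, neg_add_cancel, Real.exp_zero]
    calc Brg.ph n g s = Real.exp (-(2 * c * s)) * (Brg.ph n g s * Real.exp (2 * c * s)) := by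
          rw [mul_comm (Brg.ph n g s), ← mul_assoc, h4, one_mul]
      _ ≤ _ := mul_le_mul_of_nonneg_left hr (Real.exp_pos _).le

/-- exponential decay for every function of mean zero gives the contraction -/
theorem Brg.contraction (n : ℕ) (c : ℝ)
    (hdec : ∀ g : Un n → ℝ, ∑ y, g y = 0 → ∃ C : ℝ, ∀ s, 0 ≤ s → ∀ y,
      |heat (Brg.LU n) s g y| ≤ C * Real.exp (-(c * s)))
    (g : Un n → ℝ) (s : ℝ) (hs : 0 ≤ s) :
    ∑ x, (∑ y, g y * tr n s y x - (∑ y, g y) / (Fintype.card (Un n) : ℝ)) ^ 2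
      ≤ Real.exp (-(2 * c * s)) * ∑ x, (g x) ^ 2 := by
  have hN : (0 : ℝ) < (Fintype.card (Un n) : ℝ) := by exact_mod_cast Fintype.card_pos
  set a := (∑ y, g y) / (Fintype.card (Un n) : ℝ) with ha
  have haN : (Fintype.card (Un n) : ℝ) * a = ∑ y, g y := by
    rw [ha]
    field_simp
  have hsum : ∑ y, (g y - a) = 0 := by
    rw [Finset.sum_sub_distrib, Finset.sum_const, card_univ, nsmul_eq_mul, haN, sub_self]
  obtain ⟨C, hC⟩ := hdec (fun y => g y - a) hsum
  have h1 := Brg.contraction0 n c (fun y => g y - a) C hC s hs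
  have h2 : ∀ x, ∑ y, g y * tr n s y x - a = heat (Brg.LU n) s (fun y => g y - a) x := by
    intro x
    rw [Brg.expand]
    have h3 : ∑ y, tr n s x y * (g y - a) = ∑ y, g y * tr n s y x - a * ∑ y, tr n s x y := by
      rw [Finset.mul_sum, ← Finset.sum_sub_distrib]
      apply Finset.sum_congr rfl
      intro y _
      rw [tr_symm n s y x]
      ring
    rw [h3, tr_sum, mul_one]
  have h4 : Brg.ph n (fun y => g y - a) 0 ≤ ∑ x, (g x) ^ 2 := by
    rw [Brg.ph_zero]
    have h5 : ∑ x, (g x - a) ^ 2 = ∑ x, (g x) ^ 2 - (Fintype.card (Un n) : ℝ) * a ^ 2 := by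
      have e : ∀ x, (g x - a) ^ 2 = (g x) ^ 2 - 2 * a * g x + a ^ 2 := fun x => by ring
      rw [Finset.sum_congr rfl fun x _ => e x, Finset.sum_add_distrib, Finset.sum_sub_distrib,
        ← Finset.mul_sum, Finset.sum_const, card_univ, nsmul_eq_mul, ← haN]
      ring
    rw [h5]
    have : 0 ≤ (Fintype.card (Un n) : ℝ) * a ^ 2 := by positivity
    linarith
  calc ∑ x, (∑ y, g y * tr n s y x - a) ^ 2 = Brg.ph n (fun y => g y - a) s := by
        unfold Brg.ph
        exact Finset.sum_congr rfl fun x _ => by rw [h2 x]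
    _ ≤ Real.exp (-(2 * c * s)) * Brg.ph n (fun y => g y - a) 0 := h1
    _ ≤ _ := mul_le_mul_of_nonneg_left h4 (Real.exp_pos _).le

end Pool.Agent.CutSeq
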