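import Pool.Agent.CutSeq.Lvl

/-! Row LST: the list lemma (L). -/

set_option autoImplicit false

namespace Pool.Agent.CutSeq

open Finset

section Gen

variable {Ω A : Type*} [Fintype Ω]

theorem lv_sum_mass [Fintype A] (w : Ω → ℝ) (Y : Ω → A) (g : A → ℝ) :
    ∑ ω, w ω * g (Y ω) = ∑ y, mass w Y y * g y := by
  classical
  unfold mass
  simp only [Finset.sum_mul]
  rw [Finset.sum_comm]
  refine Finset.sum_congr rfl fun ω _ => ?_
  rw [Finset.sum_eq_single (Y ω)]
  · simp
  · intro b _ hb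
    have : ¬ Y ω = b := fun h => hb h.symm
    simp [this]
  · intro h
    exact absurd (Finset.mem_univ _) h

theorem lv_mass_nonneg {w : Ω → ℝ} (hw : ∀ ω, 0 ≤ w ω) (Y : Ω → A) (y : A) : 0 ≤ mass w Y y := by
  classical
  unfold mass
  refine Finset.sum_nonneg fun ω _ => ?_
  split_ifs
  · exact hw ω
  · exact le_rfl

theorem lv_mass_eq_tot (w : Ω → ℝ) (Y : Ω → A) (y : A) :
    mass w Y y = tot (ind {ω | Y ω = y} w) := by
  classical
  unfold mass tot ind
  refine Finset.sum_congr rfl fun ω _ => ?_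
  simp only [Set.indicator_apply, Set.mem_ofPred_eq]

theorem lv_mass_split (w : Ω → ℝ) (Y : Ω → A) (y : A) (S : Set Ω) :
    mass w Y y = mass (ind S w) Y y + mass (ind Sᶜ w) Y y := by
  classical
  unfold mass
  rw [← Finset.sum_add_distrib]
  refine Finset.sum_congr rfl fun ω _ => ?_
  by_cases h : ω ∈ S <;> by_cases h' : Y ω = y <;> simp [ind, h, h']

theorem lv_half_post [Fintype A] (w : Ω → ℝ) (hw : ∀ ω, 0 ≤ w ω) {n : ℕ}
    (T : Ω → Submodule (ZMod 2) (V n)) (Y : Ω → A) (a : V n) (P : A → Prop) :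
    tot (ind {ω | P (Y ω) ∧ post w T Y a (Y ω) < 1 / 2} w)
      ≤ 2 * tot (ind {ω | P (Y ω) ∧ a ∉ perp (T ω)} w) := by
  classical
  have h1 : tot (ind {ω | P (Y ω) ∧ post w T Y a (Y ω) < 1 / 2} w)
      = ∑ y, mass w Y y * (if P y ∧ post w T Y a y < 1 / 2 then 1 else 0) := by
    rw [← lv_sum_mass w Y (fun y => if P y ∧ post w T Y a y < 1 / 2 then 1 else 0)]
    unfold tot
    refine Finset.sum_congr rfl fun ω _ => ?_
    simp only [ind, Set.indicator_apply, Set.mem_ofPred_eq]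
    split_ifs <;> simp
  have h2 : ∑ y, mass (ind {ω | a ∉ perp (T ω)} w) Y y
        * (if P y ∧ post w T Y a y < 1 / 2 then 1 else 0)
      ≤ tot (ind {ω | P (Y ω) ∧ a ∉ perp (T ω)} w) := by
    rw [← lv_sum_mass _ Y (fun y => if P y ∧ post w T Y a y < 1 / 2 then 1 else 0)]
    unfold tot
    refine Finset.sum_le_sum fun ω _ => ?_
    simp only [ind, Set.indicator_apply, Set.mem_ofPred_eq]
    by_cases h3 : P (Y ω) <;> by_cases h4 : a ∈ perp (T ω) <;> simp only [h3, h4, true_and,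
      false_and, not_true_eq_false, not_false_eq_true, if_true, if_false, and_true, and_false,
      zero_mul, mul_zero] <;> try exact le_rfl
    split_ifs
    · simp
    · simp [hw ω]
  rw [h1]
  refine le_trans ?_ (mul_le_mul_of_nonneg_left h2 (by norm_num))
  rw [Finset.mul_sum]
  refine Finset.sum_le_sum fun y _ => ?_
  by_cases h3 : P y ∧ post w T Y a y < 1 / 2
  · simp only [h3, and_self, if_true, mul_one]
    have h4 := h3.2
    have h5 := lv_mass_split w Y y {ω | a ∈ perp (T ω)}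
    have h6 : ({ω | a ∈ perp (T ω)} : Set Ω)ᶜ = {ω | a ∉ perp (T ω)} := rfl
    rw [h6] at h5
    rcases (lv_mass_nonneg hw Y y).eq_or_lt with h7 | h7
    · rw [← h7]
      have := lv_mass_nonneg (w := ind {ω | a ∉ perp (T ω)} w) (lv_ind_nonneg hw) Y y
      linarith
    · unfold post at h4
      rw [div_lt_iff₀ h7] at h4
      linarith
  · simp only [h3, if_false, mul_zero]
    exact le_rfl

end Gen

theorem lv_pad_inj {n n' : ℕ} (h : n ≤ n') : Function.Injective (pad : V n → V n') := by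
  intro a a' haa
  funext j
  have h1 := congrFun haa ⟨j.val, lt_of_lt_of_le j.isLt h⟩
  simpa [pad] using h1

variable {B L : ℕ}

/-- the good event: `G₀` holds and few vectors of level `n'` are visible -/
def goodEv (l n' k : ℕ) (G₀ : Set (Wd B L)) : Set (Wd B L) :=
  {ω | ω ∈ G₀ ∧ vdim (ind G₀ (uw B L)) (fun ω => TT (ext ω) l n') (fun ω => mm (ext ω) l n')
    (mm (ext ω) l n') < k}

/-- the upper bound for one vector -/
theorem lv_list_upper (l n n' : ℕ) (hl : l ≤ L) (hn : n ≤ n') (G₀ : Set (Wd B L)) (y : Un n)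
    (a : V n) :
    tot (ind {ω | mm (ext ω) l n = y ∧ a ∈ AA (ext ω) l n ∧ ω ∈ G₀ ∧
      post (ind G₀ (uw B L)) (fun ω => TT (ext ω) l n') (fun ω => mm (ext ω) l n') (pad a)
        (mm (ext ω) l n') < 1 / 2} (uw B L))
      ≤ 2 * ((1 / 2) ^ (n' - n) * mass (uw B L) (fun ω => mm (ext ω) l n) y) := by
  classical
  have h1 := lv_half_post (ind G₀ (uw B L)) (lv_ind_nonneg lv_uw_nonneg)
    (fun ω => TT (ext ω) l n') (fun ω => mm (ext ω) l n') (pad a)
    (fun y' => (∀ k : Fin n, y' ⟨k.val, lt_of_lt_of_le k.isLt hn⟩ = y k) ∧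
      ∀ i (hi : n ≤ i) (hi' : i < n'), cut hi (y' ⟨i, hi'⟩) ⬝ᵥ a = 0)
  have h2 := up_bound l n n' hl hn a (ind {ω | mm (ext ω) l n = y} (uw B L))
    (lv_ind_nonneg lv_uw_nonneg) (by
      intro ω ω' hs
      simp only [ind, Set.indicator_apply, Set.mem_ofPred_eq, hs.mm_eq, uw])
  rw [lv_mass_eq_tot]
  refine le_trans ?_ (mul_le_mul_of_nonneg_left h2 (by norm_num))
  refine le_trans ?_ (h1.trans (mul_le_mul_of_nonneg_left ?_ (by norm_num)))
  · rw [lv_ind_ind]
    refine lv_tot_ind_mono lv_uw_nonneg ?_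
    rintro ω ⟨h3, h4, h5, h6⟩
    refine ⟨⟨⟨?_, ?_⟩, h6⟩, h5⟩
    · intro k
      exact congrFun h3 k
    · intro i hi hi'
      exact AA_dot (ext ω) l n i hi a h4
  · rw [lv_ind_ind, lv_ind_ind]
    refine lv_tot_ind_mono lv_uw_nonneg ?_
    rintro ω ⟨⟨⟨h3, h4⟩, h5⟩, h6⟩
    refine ⟨⟨?_, h5⟩, ?_⟩
    · intro i hi hi'
      exact h4 i hi hi'
    · funext k
      exact h3 k

/-- on the good event only few vectors of the list are visible -/
theorem lv_list_lower (l n n' k : ℕ) (hn : n ≤ n') (G₀ : Set (Wd B L)) (H : Finset (V n))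
    (ω : Wd B L) (hω : ω ∈ goodEv l n' k G₀) [DecidablePred fun a => a ∈ AA (ext ω) l n]
    [DecidablePred fun a : V n => post (ind G₀ (uw B L)) (fun ω => TT (ext ω) l n')
      (fun ω => mm (ext ω) l n') (pad a) (mm (ext ω) l n') < 1 / 2] :
    (H.filter fun a => a ∈ AA (ext ω) l n).card
      ≤ (H.filter fun a => a ∈ AA (ext ω) l n ∧
        post (ind G₀ (uw B L)) (fun ω => TT (ext ω) l n') (fun ω => mm (ext ω) l n') (pad a)
          (mm (ext ω) l n') < 1 / 2).card + 2 ^ k := by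
  classical
  obtain ⟨h0, h1⟩ := hω
  set S : Submodule (ZMod 2) (V n') := Submodule.span (ZMod 2) {a : V n' | (1 / 2 : ℝ) ≤
    post (ind G₀ (uw B L)) (fun ω => TT (ext ω) l n') (fun ω => mm (ext ω) l n') a
      (mm (ext ω) l n')} with hS
  have h2 : Module.finrank (ZMod 2) S < k := h1
  have h3 : Nat.card S ≤ 2 ^ k := by
    rw [Nat.card_eq_fintype_card, Module.card_eq_pow_finrank (K := ZMod 2), ZMod.card]
    exact Nat.pow_le_pow_right (by norm_num) h2.le
  have h4 : (H.filter fun a => a ∈ AA (ext ω) l n).card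
      ≤ (H.filter fun a => a ∈ AA (ext ω) l n ∧
        post (ind G₀ (uw B L)) (fun ω => TT (ext ω) l n') (fun ω => mm (ext ω) l n') (pad a)
          (mm (ext ω) l n') < 1 / 2).card
        + (univ.filter fun a : V n => (pad a : V n') ∈ S).card := by
    refine (Finset.card_le_card ?_).trans (Finset.card_union_le _ _)
    intro a ha
    rw [Finset.mem_filter] at ha
    rw [Finset.mem_union, Finset.mem_filter, Finset.mem_filter]
    by_cases h5 : post (ind G₀ (uw B L)) (fun ω => TT (ext ω) l n') (fun ω => mm (ext ω) l n')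
      (pad a) (mm (ext ω) l n') < 1 / 2
    · exact Or.inl ⟨ha.1, ha.2, h5⟩
    · refine Or.inr ⟨Finset.mem_univ _, Submodule.subset_span ?_⟩
      exact not_lt.mp h5
  have h5 : (univ.filter fun a : V n => (pad a : V n') ∈ S).card ≤ Nat.card S := by
    rw [Nat.card_eq_fintype_card, Fintype.card_subtype]
    refine Finset.card_le_card_of_injOn (fun a => (pad a : V n')) ?_ ?_
    · intro a ha
      simp only [Finset.coe_filter, Finset.mem_univ, true_and, Set.mem_ofPred_eq] at ha ⊢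
      exact ha
    · intro a _ a' _ h
      exact lv_pad_inj hn h
  omega

/-- (L) -/
theorem list_bound (l n n' k k2 : ℕ) (hB : 0 < B) (hl : l ≤ L) (hn : n ≤ n')
    (G₀ G : Set (Wd B L)) (hG : Lev n l G) (b : ℝ) (hb : 0 < b)
    (hgood : ∀ ω ∈ G, b ≤ cp n l (goodEv l n' k G₀) ω) (y : Un n)
    (hpos : 0 < mass (uw B L) (fun ω => mm (ext ω) l n) y)
    (hy : (2 : ℝ) ^ (k2 + 2) * (1 / 2) ^ (n' - n)
      ≤ b * (mass (ind G (uw B L)) (fun ω => mm (ext ω) l n) y
          / mass (uw B L) (fun ω => mm (ext ω) l n) y)) :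
    Nat.card (lst (ind G (uw B L)) (fun ω => TT (ext ω) l n) (fun ω => mm (ext ω) l n) k2 y)
      ≤ 2 ^ (k + k2 + 1) := by
  classical
  set Y : Wd B L → Un n := fun ω => mm (ext ω) l n with hY
  set M : ℝ := mass (uw B L) Y y with hM
  set MG : ℝ := mass (ind G (uw B L)) Y y with hMG
  set H : Finset (V n) := univ.filter fun a =>
    a ∈ lst (ind G (uw B L)) (fun ω => TT (ext ω) l n) Y k2 y with hH
  have hcard : Nat.card (lst (ind G (uw B L)) (fun ω => TT (ext ω) l n) Y k2 y) = H.card := by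
    rw [Nat.card_eq_fintype_card, hH, ← Fintype.card_subtype]
  have hMG0 : 0 < MG := by
    have h1 : (0 : ℝ) < 2 ^ (k2 + 2) * (1 / 2) ^ (n' - n) := by positivity
    have h2 := lt_of_lt_of_le h1 hy
    by_contra hcon
    have h3 : MG ≤ 0 := not_lt.mp hcon
    have h4 : b * (MG / M) ≤ 0 :=
      mul_nonpos_of_nonneg_of_nonpos hb.le (div_nonpos_of_nonpos_of_nonneg h3 hpos.le)
    linarith
  -- the function to be integrated
  set g : Wd B L → ℝ := fun ω =>
    max (((H.filter fun a => a ∈ AA (ext ω) l n).card : ℝ) - 2 ^ k) 0 with hg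
  set h : Wd B L → ℝ := fun ω => ind (G ∩ {ω | Y ω = y}) (uw B L) ω * g ω with hh
  have hhm : ∀ ω ω', Same n l ω ω' → h ω = h ω' := by
    intro ω ω' hs
    have e1 : ω ∈ G ↔ ω' ∈ G := hG ω ω' hs
    simp only [hh, hg, hY, ind, Set.indicator_apply, Set.mem_inter_iff, Set.mem_ofPred_eq, e1,
      hs.mm_eq, hs.lv_AA_eq, uw]
  have hh0 : ∀ ω, 0 ≤ h ω := fun ω =>
    mul_nonneg (lv_ind_nonneg lv_uw_nonneg ω) (le_max_right _ _)
  have hint := cp_integral n l hB (goodEv l n' k G₀) h hhm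
  -- lower bound by `b`
  have hlow : b * tot h ≤ ∑ ω, h ω * cp n l (goodEv l n' k G₀) ω := by
    unfold tot
    rw [Finset.mul_sum]
    refine Finset.sum_le_sum fun ω _ => ?_
    by_cases hω : ω ∈ G
    · rw [mul_comm]
      exact mul_le_mul_of_nonneg_left (hgood ω hω) (hh0 ω)
    · have : h ω = 0 := by
        have h1 : ω ∉ G ∩ {ω | Y ω = y} := fun h2 => hω h2.1
        simp only [hh, ind, Set.indicator_of_notMem h1, zero_mul]
      rw [this]
      simp
  -- the sum over the list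
  have hup : tot (ind (goodEv l n' k G₀) h)
      ≤ ∑ a ∈ H, tot (ind {ω | Y ω = y ∧ a ∈ AA (ext ω) l n ∧ ω ∈ G₀ ∧
        post (ind G₀ (uw B L)) (fun ω => TT (ext ω) l n') (fun ω => mm (ext ω) l n') (pad a)
          (mm (ext ω) l n') < 1 / 2} (uw B L)) := by
    unfold tot
    rw [Finset.sum_comm]
    refine Finset.sum_le_sum fun ω _ => ?_
    have hRnn : 0 ≤ ∑ a ∈ H, ind {ω | Y ω = y ∧ a ∈ AA (ext ω) l n ∧ ω ∈ G₀ ∧
        post (ind G₀ (uw B L)) (fun ω => TT (ext ω) l n') (fun ω => mm (ext ω) l n') (pad a)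
          (mm (ext ω) l n') < 1 / 2} (uw B L) ω :=
      Finset.sum_nonneg fun a _ => lv_ind_nonneg lv_uw_nonneg ω
    by_cases hω : ω ∈ goodEv l n' k G₀
    · by_cases hω2 : ω ∈ G ∩ {ω | Y ω = y}
      · have e1 : ind (goodEv l n' k G₀) h ω = uw B L ω * g ω := by
          simp only [ind, Set.indicator_of_mem hω, hh, Set.indicator_of_mem hω2]
        have e2 : ∑ a ∈ H, ind {ω | Y ω = y ∧ a ∈ AA (ext ω) l n ∧ ω ∈ G₀ ∧
            post (ind G₀ (uw B L)) (fun ω => TT (ext ω) l n') (fun ω => mm (ext ω) l n') (pad a)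
              (mm (ext ω) l n') < 1 / 2} (uw B L) ω
            = uw B L ω * ((H.filter fun a => a ∈ AA (ext ω) l n ∧
              post (ind G₀ (uw B L)) (fun ω => TT (ext ω) l n') (fun ω => mm (ext ω) l n') (pad a)
              (mm (ext ω) l n') < 1 / 2).card : ℝ) := by
          rw [Finset.card_filter]
          push_cast
          rw [Finset.mul_sum]
          refine Finset.sum_congr rfl fun a _ => ?_
          have e3 : Y ω = y := hω2.2
          have e4 : ω ∈ G₀ := hω.1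
          simp only [ind, Set.indicator_apply, Set.mem_ofPred_eq, e3, e4, true_and]
          split_ifs <;> simp
        rw [e1, e2]
        refine mul_le_mul_of_nonneg_left ?_ (lv_uw_nonneg ω)
        have e5 := lv_list_lower l n n' k hn G₀ H ω hω
        have e6 : (((H.filter fun a => a ∈ AA (ext ω) l n).card : ℕ) : ℝ)
            ≤ (((H.filter fun a => a ∈ AA (ext ω) l n ∧
              post (ind G₀ (uw B L)) (fun ω => TT (ext ω) l n') (fun ω => mm (ext ω) l n') (pad a)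
              (mm (ext ω) l n') < 1 / 2).card + 2 ^ k : ℕ) : ℝ) := by exact_mod_cast e5
        push_cast at e6
        refine max_le ?_ (by positivity)
        linarith
      · have e1 : ind (goodEv l n' k G₀) h ω = 0 := by
          simp only [ind, Set.indicator_of_mem hω, hh, Set.indicator_of_notMem hω2, zero_mul]
        rw [e1]
        exact hRnn
    · have e1 : ind (goodEv l n' k G₀) h ω = 0 := by
        simp only [ind, Set.indicator_of_notMem hω]
      rw [e1]
      exact hRnn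
  have hup2 : tot (ind (goodEv l n' k G₀) h) ≤ (H.card : ℝ) * (2 * ((1 / 2) ^ (n' - n) * M)) := by
    refine hup.trans ?_
    rw [← nsmul_eq_mul]
    exact Finset.sum_le_card_nsmul _ _ _ fun a _ => lv_list_upper l n n' hl hn G₀ y a
  -- the total of `h`
  have htot : ((H.card : ℝ) * (1 / 2) ^ k2 - 2 ^ k) * MG ≤ tot h := by
    have e1 : ∀ ω, ind (G ∩ {ω | Y ω = y}) (uw B L) ω
        * (((H.filter fun a => a ∈ AA (ext ω) l n).card : ℝ) - 2 ^ k) ≤ h ω := fun ω =>
      mul_le_mul_of_nonneg_left (le_max_left _ _) (lv_ind_nonneg lv_uw_nonneg ω)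
    refine le_trans ?_ (Finset.sum_le_sum fun ω _ => e1 ω)
    have e2 : ∑ ω, ind (G ∩ {ω | Y ω = y}) (uw B L) ω
        * (((H.filter fun a => a ∈ AA (ext ω) l n).card : ℝ) - 2 ^ k)
        = ∑ a ∈ H, mass (ind {ω | a ∈ AA (ext ω) l n} (ind G (uw B L))) Y y - 2 ^ k * MG := by
      simp only [mul_sub, Finset.sum_sub_distrib]
      congr 1
      · have e3 : ∀ a, mass (ind {ω | a ∈ AA (ext ω) l n} (ind G (uw B L))) Y y
            = ∑ ω, ind (G ∩ {ω | Y ω = y}) (uw B L) ω * (if a ∈ AA (ext ω) l n then 1 else 0) := by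
          intro a
          unfold mass
          refine Finset.sum_congr rfl fun ω _ => ?_
          by_cases c1 : Y ω = y <;> by_cases c2 : ω ∈ G <;> by_cases c3 : a ∈ AA (ext ω) l n <;>
            simp [ind, c1, c2, c3]
        simp only [e3]
        rw [Finset.sum_comm]
        refine Finset.sum_congr rfl fun ω _ => ?_
        rw [← Finset.mul_sum, Finset.card_filter]
        push_cast
        rfl
      · rw [← Finset.sum_mul, mul_comm, hMG, lv_mass_eq_tot, lv_ind_ind, Set.inter_comm]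
        rfl
    rw [e2]
    have e4 : ∀ a ∈ H, (1 / 2 : ℝ) ^ k2 * MG
        ≤ mass (ind {ω | a ∈ AA (ext ω) l n} (ind G (uw B L))) Y y := by
      intro a ha
      have e5 : a ∈ lst (ind G (uw B L)) (fun ω => TT (ext ω) l n) Y k2 y :=
        (Finset.mem_filter.mp ha).2
      have e6 : (1 / 2 : ℝ) ^ k2 ≤ post (ind G (uw B L)) (fun ω => TT (ext ω) l n) Y a y := e5
      unfold post at e6
      rw [le_div_iff₀ hMG0] at e6
      exact e6
    have e7 := Finset.card_nsmul_le_sum H _ _ e4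
    rw [nsmul_eq_mul] at e7
    nlinarith [e7]
  -- conclusion
  have hfin : b * (((H.card : ℝ) * (1 / 2) ^ k2 - 2 ^ k) * MG)
      ≤ (H.card : ℝ) * (2 * ((1 / 2) ^ (n' - n) * M)) := by
    calc b * (((H.card : ℝ) * (1 / 2) ^ k2 - 2 ^ k) * MG) ≤ b * tot h :=
          mul_le_mul_of_nonneg_left htot hb.le
      _ ≤ ∑ ω, h ω * cp n l (goodEv l n' k G₀) ω := hlow
      _ = tot (ind (goodEv l n' k G₀) h) := hint
      _ ≤ _ := hup2
  have hy2 : (2 : ℝ) ^ (k2 + 2) * (1 / 2) ^ (n' - n) * M ≤ b * MG := by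
    have := mul_le_mul_of_nonneg_right hy hpos.le
    calc (2 : ℝ) ^ (k2 + 2) * (1 / 2) ^ (n' - n) * M ≤ b * (MG / M) * M := this
      _ = b * MG := by
        field_simp
  rw [hcard]
  have hbMG : 0 < b * MG := mul_pos hb hMG0
  set c : ℝ := (H.card : ℝ) with hc
  have hc0 : 0 ≤ c := Nat.cast_nonneg _
  -- multiply `hy2` by `c / 2 ^ (k2 + 1)`
  have e1 : c * (2 * ((1 / 2) ^ (n' - n) * M)) ≤ c * ((b * MG) * (1 / 2) ^ (k2 + 1)) := by
    refine mul_le_mul_of_nonneg_left ?_ hc0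
    have e2 := mul_le_mul_of_nonneg_right hy2 (show (0 : ℝ) ≤ (1 / 2) ^ (k2 + 1) by positivity)
    have e3 : (2 : ℝ) ^ (k2 + 2) * (1 / 2) ^ (n' - n) * M * (1 / 2) ^ (k2 + 1)
        = 2 * ((1 / 2) ^ (n' - n) * M) := by
      have : (2 : ℝ) ^ (k2 + 2) * (1 / 2) ^ (k2 + 1) = 2 := by
        rw [pow_succ (2 : ℝ) (k2 + 1), one_div, inv_pow]
        field_simp
      calc (2 : ℝ) ^ (k2 + 2) * (1 / 2) ^ (n' - n) * M * (1 / 2) ^ (k2 + 1)
          = ((2 : ℝ) ^ (k2 + 2) * (1 / 2) ^ (k2 + 1)) * ((1 / 2) ^ (n' - n) * M) := by ring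
        _ = 2 * ((1 / 2) ^ (n' - n) * M) := by rw [this]
    rw [e3] at e2
    exact e2
  have e2 : (b * MG) * (c * (1 / 2) ^ k2 - 2 ^ k) ≤ (b * MG) * (c * (1 / 2) ^ (k2 + 1)) := by
    calc (b * MG) * (c * (1 / 2) ^ k2 - 2 ^ k) = b * ((c * (1 / 2) ^ k2 - 2 ^ k) * MG) := by ring
      _ ≤ c * (2 * ((1 / 2) ^ (n' - n) * M)) := hfin
      _ ≤ c * ((b * MG) * (1 / 2) ^ (k2 + 1)) := e1
      _ = (b * MG) * (c * (1 / 2) ^ (k2 + 1)) := by ring
  have e3 : c * (1 / 2) ^ k2 - 2 ^ k ≤ c * (1 / 2) ^ (k2 + 1) := le_of_mul_le_mul_left e2 hbMG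
  have e4 : c * (1 / 2) ^ (k2 + 1) ≤ 2 ^ k := by
    have : c * (1 / 2 : ℝ) ^ k2 = 2 * (c * (1 / 2) ^ (k2 + 1)) := by
      rw [pow_succ]
      ring
    linarith
  have e5 : c ≤ 2 ^ (k + k2 + 1) := by
    have e6 := mul_le_mul_of_nonneg_right e4 (show (0 : ℝ) ≤ 2 ^ (k2 + 1) by positivity)
    have e7 : c * (1 / 2 : ℝ) ^ (k2 + 1) * 2 ^ (k2 + 1) = c := by
      rw [one_div, inv_pow]
      field_simp
    rw [e7] at e6
    calc c ≤ 2 ^ k * 2 ^ (k2 + 1) := e6
      _ = 2 ^ (k + k2 + 1) := by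
        rw [← pow_add]
        congr 1
  have e6 : ((H.card : ℕ) : ℝ) ≤ ((2 ^ (k + k2 + 1) : ℕ) : ℝ) := by
    push_cast
    exact e5
  exact_mod_cast e6

end Pool.Agent.CutSeq
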