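import Pool.Agent.CutSeq.Mod

/-! Row LVL: level by level estimates: products of conditional bounds, (U), first level lemma. -/

set_option autoImplicit false

namespace Pool.Agent.CutSeq

open Finset

section Basic0

variable {Ω : Type*}

theorem lv_ind_ind (G G' : Set Ω) (w : Ω → ℝ) : ind G (ind G' w) = ind (G ∩ G') w := by
  classical
  funext ω
  simp only [ind, Set.indicator_apply, Set.mem_inter_iff]
  by_cases h : ω ∈ G <;> by_cases h' : ω ∈ G' <;> simp [h, h']

theorem lv_ind_nonneg {G : Set Ω} {w : Ω → ℝ} (hw : ∀ ω, 0 ≤ w ω) (ω : Ω) : 0 ≤ ind G w ω :=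
  Set.indicator_nonneg (fun ω _ => hw ω) ω

theorem lv_ind_le {G : Set Ω} {w : Ω → ℝ} (hw : ∀ ω, 0 ≤ w ω) (ω : Ω) : ind G w ω ≤ w ω :=
  Set.indicator_le_self' (fun ω _ => hw ω) ω

theorem lv_ind_univ (w : Ω → ℝ) : ind Set.univ w = w := Set.indicator_univ w

end Basic0

section Basic

variable {Ω : Type*} [Fintype Ω]

theorem lv_tot_mono {w w' : Ω → ℝ} (h : ∀ ω, w ω ≤ w' ω) : tot w ≤ tot w' :=
  Finset.sum_le_sum fun ω _ => h ω

theorem lv_tot_nonneg {w : Ω → ℝ} (hw : ∀ ω, 0 ≤ w ω) : 0 ≤ tot w :=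
  Finset.sum_nonneg fun ω _ => hw ω

theorem lv_tot_ind_mono {G G' : Set Ω} {w : Ω → ℝ} (hw : ∀ ω, 0 ≤ w ω) (h : G ⊆ G') :
    tot (ind G w) ≤ tot (ind G' w) :=
  lv_tot_mono fun ω => Set.indicator_le_indicator_of_subset h (fun ω => hw ω) ω

end Basic

variable {B L : ℕ}

theorem lv_uw_nonneg (ω : Wd B L) : 0 ≤ uw B L ω := by
  unfold uw
  positivity

/-- product of conditional bounds along the levels -/
theorem level_product (l n n' : ℕ) (hn : n ≤ n') (E : ℕ → Set (Wd B L)) (c : ℕ → ℝ)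
    (hc : ∀ i, 0 ≤ c i) (hE : ∀ i, n ≤ i → i < n' → Lev (i + 1) l (E i))
    (hb : ∀ i, n ≤ i → i < n' → ∀ f : Wd B L → ℝ, (∀ ω, 0 ≤ f ω) →
      (∀ ω ω', Same i l ω ω' → f ω = f ω') → tot (ind (E i) f) ≤ c i * tot f)
    (f : Wd B L → ℝ) (hf0 : ∀ ω, 0 ≤ f ω) (hf : ∀ ω ω', Same n l ω ω' → f ω = f ω') :
    tot (ind {ω | ∀ i, n ≤ i → i < n' → ω ∈ E i} f) ≤ (∏ i ∈ Ico n n', c i) * tot f := by
  classical
  induction n', hn using Nat.le_induction with
  | base =>
    have h1 : {ω : Wd B L | ∀ i, n ≤ i → i < n → ω ∈ E i} = Set.univ := by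
      ext ω
      simp only [Set.mem_ofPred_eq, Set.mem_univ, iff_true]
      intro i h1 h2
      omega
    rw [h1, lv_ind_univ]
    simp
  | succ n' hn ih =>
    have ih' := ih (fun i h1 h2 => hE i h1 (by omega)) (fun i h1 h2 => hb i h1 (by omega))
    have h1 : {ω : Wd B L | ∀ i, n ≤ i → i < n' + 1 → ω ∈ E i}
        = E n' ∩ {ω | ∀ i, n ≤ i → i < n' → ω ∈ E i} := by
      ext ω
      simp only [Set.mem_ofPred_eq, Set.mem_inter_iff]
      constructor
      · intro h
        exact ⟨h n' hn (by omega), fun i h1 h2 => h i h1 (by omega)⟩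
      · rintro ⟨h, h'⟩ i h1 h2
        rcases Nat.lt_succ_iff_lt_or_eq.mp h2 with h3 | h3
        · exact h' i h1 h3
        · rw [h3]
          exact h
    rw [h1, ← lv_ind_ind]
    have hm : ∀ ω ω', Same n' l ω ω' → ind {ω | ∀ i, n ≤ i → i < n' → ω ∈ E i} f ω
        = ind {ω | ∀ i, n ≤ i → i < n' → ω ∈ E i} f ω' := by
      intro ω ω' hs
      have h2 : ω ∈ {ω | ∀ i, n ≤ i → i < n' → ω ∈ E i}
          ↔ ω' ∈ {ω | ∀ i, n ≤ i → i < n' → ω ∈ E i} := by
        simp only [Set.mem_ofPred_eq]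
        constructor
        · intro h i h3 h4
          exact (hE i h3 (by omega) ω ω' (hs.mono (by omega) le_rfl)).mp (h i h3 h4)
        · intro h i h3 h4
          exact (hE i h3 (by omega) ω ω' (hs.mono (by omega) le_rfl)).mpr (h i h3 h4)
      simp only [ind, Set.indicator_apply, h2, hf ω ω' (hs.mono hn le_rfl)]
    refine (hb n' hn (by omega) _ (lv_ind_nonneg hf0) hm).trans ?_
    rw [Finset.prod_Ico_succ_top hn, mul_comm (∏ i ∈ Ico n n', c i) (c n'), mul_assoc]
    exact mul_le_mul_of_nonneg_left ih' (hc n')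

theorem lv_uT_tot {n : ℕ} (T : Submodule (ZMod 2) (V n)) : ∑ x, uT T x = 1 := by
  classical
  have hpos : (0 : ℝ) < (Nat.card T : ℝ) := by
    have : 0 < Nat.card T := Nat.card_pos
    exact_mod_cast this
  unfold uT
  rw [← Finset.sum_filter, Finset.sum_const, nsmul_eq_mul]
  have h1 : (univ.filter fun x : V n => x ∈ T).card = Nat.card T := by
    rw [Nat.card_eq_fintype_card]
    exact (Fintype.card_subtype (fun x : V n => x ∈ T)).symm
  rw [h1]
  field_simp

theorem lv_uT_nonneg {n : ℕ} (T : Submodule (ZMod 2) (V n)) (x : V n) : 0 ≤ uT T x := by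
  classical
  unfold uT
  split_ifs
  · positivity
  · exact le_rfl

theorem lv_zmod2_cases (x : ZMod 2) : x = 0 ∨ x = 1 := by
  revert x
  decide

/-- half of the vectors of `T` are orthogonal to a vector outside the orthogonal of `T` -/
theorem lv_uT_half {n : ℕ} (T : Submodule (ZMod 2) (V n)) (a : V n) (ha : a ∉ perp T) :
    ∑ x, (if x ⬝ᵥ a = 0 then uT T x else 0) = 1 / 2 := by
  classical
  have h1 : ∃ t ∈ T, t ⬝ᵥ a = 1 := by
    by_contra hcon
    push Not at hcon
    apply ha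
    intro x hx
    rcases lv_zmod2_cases (x ⬝ᵥ a) with h | h
    · exact h
    · exact absurd h (hcon x hx)
  obtain ⟨t, ht, hta⟩ := h1
  have h2 : ∑ x, (if x ⬝ᵥ a = 0 then uT T x else 0) = ∑ x, (if x ⬝ᵥ a = 0 then 0 else uT T x) := by
    refine Fintype.sum_equiv (Equiv.addRight t) _ _ ?_
    intro x
    simp only [Equiv.coe_addRight, add_dotProduct, hta]
    have h3 : uT T (x + t) = uT T x := by
      unfold uT
      have : x + t ∈ T ↔ x ∈ T := by
        constructor
        · intro h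
          have := T.sub_mem h ht
          simpa using this
        · intro h
          exact T.add_mem h ht
      simp only [this]
    rw [h3]
    rcases lv_zmod2_cases (x ⬝ᵥ a) with h | h <;> rw [h] <;> simp [show (1 : ZMod 2) + 1 = 0 by decide]
  have h3 := lv_uT_tot T
  have h4 : ∑ x, uT T x = ∑ x, (if x ⬝ᵥ a = 0 then uT T x else 0)
      + ∑ x, (if x ⬝ᵥ a = 0 then 0 else uT T x) := by
    rw [← Finset.sum_add_distrib]
    refine Finset.sum_congr rfl fun x _ => ?_
    split_ifs <;> simp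
  linarith

theorem lv_cut_dot_pad {n i : ℕ} (h : n ≤ i) (x : V i) (a : V n) :
    cut h x ⬝ᵥ a = x ⬝ᵥ (pad a : V i) := by
  classical
  unfold dotProduct cut pad
  have h1 : ∀ j : Fin i, x j * (if h : j.val < n then a ⟨j.val, h⟩ else 0)
      = if h : j.val < n then x j * a ⟨j.val, h⟩ else 0 := by
    intro j
    split_ifs <;> simp
  simp only [h1]
  symm
  rw [← Finset.sum_subset (Finset.subset_univ (univ.image (Fin.castLE h)))]
  · rw [Finset.sum_image (by
      intro p _ q _ hpq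
      exact Fin.castLE_injective h hpq)]
    refine Finset.sum_congr rfl fun j _ => ?_
    have : (Fin.castLE h j).val < n := j.isLt
    rw [dif_pos this]
    rfl
  · intro j _ hj
    rw [dif_neg]
    intro hlt
    exact hj (Finset.mem_image.mpr ⟨⟨j.val, hlt⟩, Finset.mem_univ _, by ext; rfl⟩)

/-- a level sees its relations -/
theorem Same.lv_AA_eq {n l : ℕ} {ω ω' : Wd B L} (h : Same n l ω ω') :
    AA (ext ω) l n = AA (ext ω') l n := by
  unfold AA
  rw [h.TT_eq]

/-- one level of (U) -/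
theorem lv_up_one (l i : ℕ) (hl : l ≤ L) (a : V i) (f : Wd B L → ℝ)
    (hf0 : ∀ ω, 0 ≤ f ω) (hf : ∀ ω ω', Same i l ω ω' → f ω = f ω') :
    tot (ind {ω | row (ext ω) l i ⬝ᵥ a = 0 ∧ a ∉ AA (ext ω) l i} f) ≤ 1 / 2 * tot f := by
  classical
  set f' : Wd B L → ℝ := fun ω => if a ∉ AA (ext ω) l i then f ω else 0 with hf'
  have hf'm : ∀ ω ω', Same i l ω ω' → f' ω = f' ω' := by
    intro ω ω' hs
    simp only [hf', hs.lv_AA_eq, hf ω ω' hs]
  have h1 : tot (ind {ω | row (ext ω) l i ⬝ᵥ a = 0 ∧ a ∉ AA (ext ω) l i} f)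
      = ∑ x : V i, if x ⬝ᵥ a = 0 then ∑ ω, f' ω * (if row (ext ω) l i = x then 1 else 0) else 0 := by
    have : ∀ x : V i, (if x ⬝ᵥ a = 0 then ∑ ω, f' ω * (if row (ext ω) l i = x then 1 else 0) else 0)
        = ∑ ω, (if x ⬝ᵥ a = 0 then f' ω * (if row (ext ω) l i = x then 1 else 0) else 0) := by
      intro x
      split_ifs <;> simp
    simp only [this]
    rw [Finset.sum_comm]
    unfold tot
    refine Finset.sum_congr rfl fun ω _ => ?_
    rw [Finset.sum_eq_single (row (ext ω) l i)]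
    · simp only [ind, Set.indicator_apply, Set.mem_ofPred_eq, hf', if_true, mul_one]
      by_cases h1 : row (ext ω) l i ⬝ᵥ a = 0 <;> by_cases h2 : a ∈ AA (ext ω) l i <;> simp [h1, h2]
    · intro x _ hx
      have hx' : ¬ row (ext ω) l i = x := fun h => hx h.symm
      simp [hx']
    · intro h
      exact absurd (Finset.mem_univ _) h
  have h2 : ∀ x : V i, (if x ⬝ᵥ a = 0 then ∑ ω, f' ω * (if row (ext ω) l i = x then 1 else 0) else 0)
      = ∑ ω, f' ω * (if x ⬝ᵥ a = 0 then uT (TT (ext ω) l i) x else 0) := by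
    intro x
    split_ifs with hx
    · exact row_uniform i l hl f' hf'm x
    · simp
  rw [h1]
  simp only [h2]
  rw [Finset.sum_comm]
  unfold tot
  rw [Finset.mul_sum]
  refine Finset.sum_le_sum fun ω _ => ?_
  rw [← Finset.mul_sum]
  by_cases ha : a ∈ AA (ext ω) l i
  · simp only [hf', ha, not_true_eq_false, if_false, zero_mul]
    have := hf0 ω
    positivity
  · rw [lv_uT_half _ _ ha]
    simp only [hf', ha, not_false_eq_true, if_true]
    linarith

/-- (U) -/
theorem up_bound (l n n' : ℕ) (hl : l ≤ L) (hn : n ≤ n') (a : V n) (f : Wd B L → ℝ)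
    (hf0 : ∀ ω, 0 ≤ f ω) (hf : ∀ ω ω', Same n l ω ω' → f ω = f ω') :
    tot (ind {ω | (∀ i (hi : n ≤ i), i < n' → cut hi (row (ext ω) l i) ⬝ᵥ a = 0) ∧
      (pad a : V n') ∉ AA (ext ω) l n'} f) ≤ (1 / 2) ^ (n' - n) * tot f := by
  classical
  have h1 := level_product l n n' hn
    (fun i => {ω : Wd B L | row (ext ω) l i ⬝ᵥ (pad a : V i) = 0 ∧ (pad a : V i) ∉ AA (ext ω) l i})
    (fun _ => 1 / 2) (fun _ => by norm_num)
    (by
      intro i h1 h2 ω ω' hs
      simp only [Set.mem_ofPred_eq, hs.row_eq, (hs.mono (Nat.le_succ i) le_rfl).lv_AA_eq])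
    (by
      intro i h1 h2 g hg0 hg
      exact lv_up_one l i hl (pad a) g hg0 hg) f hf0 hf
  have h2 : ∏ i ∈ Ico n n', (1 / 2 : ℝ) = (1 / 2) ^ (n' - n) := by
    rw [Finset.prod_const, Nat.card_Ico]
  rw [h2] at h1
  refine (lv_tot_ind_mono hf0 ?_).trans h1
  rintro ω ⟨h3, h4⟩ i h5 h6
  refine ⟨?_, ?_⟩
  · rw [← lv_cut_dot_pad h5]
    exact h3 i h5 h6
  · intro h7
    apply h4
    have h8 := AA_pad (ext ω) l h6.le (pad a : V i) h7
    have h9 : (pad (pad a : V i) : V n') = pad a := by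
      funext j
      unfold pad
      by_cases h10 : j.val < n
      · simp [h10, lt_of_lt_of_le h10 h5]
      · simp [h10]
    rw [h9] at h8
    exact h8

theorem lv_same_class {n l : ℕ} {ω ω' : Wd B L} (h : Same n l ω ω') :
    {ω'' : Wd B L | Same n l ω ω''} = {ω'' | Same n l ω' ω''} := by
  ext ω''
  simp only [Set.mem_ofPred_eq]
  exact ⟨fun h' => h.symm.trans h', fun h' => h.trans h'⟩

/-- the conditional probability depends on the history only -/
theorem cp_congr (n l : ℕ) (E : Set (Wd B L)) {ω ω' : Wd B L} (h : Same n l ω ω') :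
    cp n l E ω = cp n l E ω' := by
  unfold cp
  rw [lv_same_class h]

theorem lv_uw_pos (hB : 0 < B) (ω : Wd B L) : 0 < uw B L ω := by
  unfold uw
  have : NeZero B := ⟨hB.ne'⟩
  have : 0 < Fintype.card (Wd B L) := Fintype.card_pos
  positivity

/-- integration against the conditional probability -/
theorem cp_integral (n l : ℕ) (hB : 0 < B) (E : Set (Wd B L)) (f : Wd B L → ℝ)
    (hf : ∀ ω ω', Same n l ω ω' → f ω = f ω') :
    ∑ ω, f ω * cp n l E ω = tot (ind E f) := by
  classical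
  set u : ℝ := 1 / (Fintype.card (Wd B L) : ℝ) with hu
  have hpos : ∀ ω : Wd B L, 0 < pr (uw B L) {ω' | Same n l ω ω'} := by
    intro ω
    unfold pr tot
    refine Finset.sum_pos' (fun ω' _ => lv_ind_nonneg lv_uw_nonneg ω') ⟨ω, Finset.mem_univ _, ?_⟩
    simp only [ind, Set.indicator_apply, Set.mem_ofPred_eq]
    rw [if_pos (Same.refl n l ω)]
    exact lv_uw_pos hB ω
  have h1 : ∀ ω, f ω * cp n l E ω
      = ∑ ω', (if ω' ∈ E ∧ Same n l ω ω' then f ω' * u / pr (uw B L) {ω'' | Same n l ω' ω''} else 0) := by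
    intro ω
    unfold cp
    have : pr (uw B L) (E ∩ {ω' | Same n l ω ω'})
        = ∑ ω', if ω' ∈ E ∧ Same n l ω ω' then u else 0 := by
      unfold pr tot
      refine Finset.sum_congr rfl fun ω' _ => ?_
      simp only [ind, Set.indicator_apply, Set.mem_inter_iff, Set.mem_ofPred_eq, uw, hu]
    rw [this, mul_div_assoc', Finset.mul_sum, Finset.sum_div]
    refine Finset.sum_congr rfl fun ω' _ => ?_
    split_ifs with h
    · rw [hf ω ω' h.2, lv_same_class h.2]
    · simp
  simp only [h1]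
  rw [Finset.sum_comm]
  unfold tot
  refine Finset.sum_congr rfl fun ω' _ => ?_
  by_cases hE : ω' ∈ E
  · simp only [hE, true_and, ind, Set.indicator_apply, if_true]
    have h2 : ∀ ω, (if Same n l ω ω' then f ω' * u / pr (uw B L) {ω'' | Same n l ω' ω''} else 0)
        = f ω' / pr (uw B L) {ω'' | Same n l ω' ω''} * (if Same n l ω' ω then u else 0) := by
      intro ω
      by_cases hs : Same n l ω ω'
      · rw [if_pos hs, if_pos hs.symm]
        ring
      · rw [if_neg hs, if_neg (fun h => hs h.symm)]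
        ring
    simp only [h2]
    rw [← Finset.mul_sum]
    have h3 : ∑ ω, (if Same n l ω' ω then u else 0) = pr (uw B L) {ω'' | Same n l ω' ω''} := by
      unfold pr tot
      refine Finset.sum_congr rfl fun ω _ => ?_
      simp only [ind, Set.indicator_apply, Set.mem_ofPred_eq, uw, hu]
    rw [h3]
    exact div_mul_cancel₀ _ (hpos ω').ne'
  · simp [hE, ind]

theorem lv_cp_nonneg (n l : ℕ) (E : Set (Wd B L)) (ω : Wd B L) : 0 ≤ cp n l E ω := by
  unfold cp pr
  exact div_nonneg (lv_tot_nonneg (lv_ind_nonneg lv_uw_nonneg)) (lv_tot_nonneg (lv_ind_nonneg lv_uw_nonneg))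

/-- first level lemma (Doob): the conditional probability is rarely small on `E` -/
theorem first_level (l n' : ℕ) (hB : 0 < B) (E : Set (Wd B L)) (b : ℝ) (hb : 0 ≤ b) :
    pr (uw B L) (E ∩ {ω | ∃ n ≤ n', cp n l E ω < b}) ≤ b := by
  classical
  set F : ℕ → Set (Wd B L) := fun n => {ω | cp n l E ω < b ∧ ∀ m < n, ¬ cp m l E ω < b} with hF
  have hFm : ∀ n, ∀ ω ω' : Wd B L, Same n l ω ω' → ind (F n) (uw B L) ω = ind (F n) (uw B L) ω' := by
    intro n ω ω' hs
    have h1 : ω ∈ F n ↔ ω' ∈ F n := by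
      simp only [hF, Set.mem_ofPred_eq]
      rw [cp_congr n l E hs]
      have : ∀ m < n, cp m l E ω = cp m l E ω' := fun m hm => cp_congr m l E (hs.mono hm.le le_rfl)
      constructor
      · rintro ⟨h1, h2⟩
        exact ⟨h1, fun m hm => by rw [← this m hm]; exact h2 m hm⟩
      · rintro ⟨h1, h2⟩
        exact ⟨h1, fun m hm => by rw [this m hm]; exact h2 m hm⟩
    simp only [ind, Set.indicator_apply, h1, uw]
  have h1 : ∀ ω, ind (E ∩ {ω | ∃ n ≤ n', cp n l E ω < b}) (uw B L) ω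
      ≤ ∑ n ∈ range (n' + 1), ind E (ind (F n) (uw B L)) ω := by
    intro ω
    by_cases hω : ω ∈ E ∩ {ω | ∃ n ≤ n', cp n l E ω < b}
    · obtain ⟨hE, n, hn, hlt⟩ := hω
      have hex : ∃ n, cp n l E ω < b := ⟨n, hlt⟩
      have h2 : Nat.find hex ≤ n := Nat.find_min' hex hlt
      have h3 : ω ∈ F (Nat.find hex) := ⟨Nat.find_spec hex, fun m hm => Nat.find_min hex hm⟩
      have h4 : ind (E ∩ {ω | ∃ n ≤ n', cp n l E ω < b}) (uw B L) ω
          ≤ ind E (ind (F (Nat.find hex)) (uw B L)) ω := by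
        rw [lv_ind_ind]
        have h5 : ω ∈ E ∩ F (Nat.find hex) := ⟨hE, h3⟩
        have h6 : ω ∈ E ∩ {ω | ∃ n ≤ n', cp n l E ω < b} := ⟨hE, n, hn, hlt⟩
        simp only [ind, Set.indicator_of_mem h5, Set.indicator_of_mem h6]
        exact le_rfl
      refine h4.trans ?_
      exact Finset.single_le_sum (f := fun n => ind E (ind (F n) (uw B L)) ω)
        (fun n _ => lv_ind_nonneg (lv_ind_nonneg lv_uw_nonneg) ω) (Finset.mem_range.mpr (by omega))
    · simp only [ind, Set.indicator_of_notMem hω]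
      exact Finset.sum_nonneg fun n _ => lv_ind_nonneg (lv_ind_nonneg lv_uw_nonneg) ω
  have h2 : ∀ n, tot (ind E (ind (F n) (uw B L))) ≤ b * tot (ind (F n) (uw B L)) := by
    intro n
    rw [← cp_integral n l hB E _ (hFm n)]
    unfold tot
    rw [Finset.mul_sum]
    refine Finset.sum_le_sum fun ω _ => ?_
    by_cases hω : ω ∈ F n
    · rw [mul_comm]
      exact mul_le_mul_of_nonneg_right hω.1.le (lv_ind_nonneg lv_uw_nonneg ω)
    · simp [ind, Set.indicator_of_notMem hω]
  have h3 : ∑ n ∈ range (n' + 1), tot (ind (F n) (uw B L)) ≤ tot (uw B L) := by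
    unfold tot
    rw [Finset.sum_comm]
    refine Finset.sum_le_sum fun ω _ => ?_
    by_cases hex : ∃ n ∈ range (n' + 1), ω ∈ F n
    · obtain ⟨n, hn, hω⟩ := hex
      rw [Finset.sum_eq_single n]
      · exact lv_ind_le lv_uw_nonneg ω
      · intro m _ hmn
        have : ω ∉ F m := by
          intro hm
          rcases lt_or_gt_of_ne hmn with h | h
          · exact hω.2 m h hm.1
          · exact hm.2 n h hω.1
        simp [ind, Set.indicator_of_notMem this]
      · intro h
        exact absurd hn h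
    · push Not at hex
      rw [Finset.sum_eq_zero]
      · exact lv_uw_nonneg ω
      · intro n hn
        simp [ind, Set.indicator_of_notMem (hex n hn)]
  calc pr (uw B L) (E ∩ {ω | ∃ n ≤ n', cp n l E ω < b})
      ≤ ∑ ω, ∑ n ∈ range (n' + 1), ind E (ind (F n) (uw B L)) ω := Finset.sum_le_sum fun ω _ => h1 ω
    _ = ∑ n ∈ range (n' + 1), tot (ind E (ind (F n) (uw B L))) := by
        rw [Finset.sum_comm]
        rfl
    _ ≤ ∑ n ∈ range (n' + 1), b * tot (ind (F n) (uw B L)) := Finset.sum_le_sum fun n _ => h2 n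
    _ = b * ∑ n ∈ range (n' + 1), tot (ind (F n) (uw B L)) := by rw [Finset.mul_sum]
    _ ≤ b * tot (uw B L) := mul_le_mul_of_nonneg_left h3 hb
    _ = b := by rw [tot_uw hB, mul_one]

/-- Doob's maximal inequality along the levels -/
theorem doob (l n' : ℕ) (hB : 0 < B) (E : Set (Wd B L)) (c : ℝ) (hc : 0 < c) :
    c * pr (uw B L) {ω | ∃ n ≤ n', c ≤ cp n l E ω} ≤ pr (uw B L) E := by
  classical
  set F : ℕ → Set (Wd B L) := fun n => {ω | c ≤ cp n l E ω ∧ ∀ m < n, ¬ c ≤ cp m l E ω} with hF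
  have hFm : ∀ n, ∀ ω ω' : Wd B L, Same n l ω ω' → ind (F n) (uw B L) ω = ind (F n) (uw B L) ω' := by
    intro n ω ω' hs
    have h1 : ω ∈ F n ↔ ω' ∈ F n := by
      simp only [hF, Set.mem_ofPred_eq]
      rw [cp_congr n l E hs]
      have : ∀ m < n, cp m l E ω = cp m l E ω' := fun m hm => cp_congr m l E (hs.mono hm.le le_rfl)
      constructor
      · rintro ⟨h1, h2⟩
        exact ⟨h1, fun m hm => by rw [← this m hm]; exact h2 m hm⟩
      · rintro ⟨h1, h2⟩
        exact ⟨h1, fun m hm => by rw [this m hm]; exact h2 m hm⟩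
    simp only [ind, Set.indicator_apply, h1, uw]
  have h1 : ∀ ω, ind {ω | ∃ n ≤ n', c ≤ cp n l E ω} (uw B L) ω
      ≤ ∑ n ∈ range (n' + 1), ind (F n) (uw B L) ω := by
    intro ω
    by_cases hω : ω ∈ {ω | ∃ n ≤ n', c ≤ cp n l E ω}
    · obtain ⟨n, hn, hlt⟩ := hω
      have hex : ∃ n, c ≤ cp n l E ω := ⟨n, hlt⟩
      have h2 : Nat.find hex ≤ n := Nat.find_min' hex hlt
      have h3 : ω ∈ F (Nat.find hex) := ⟨Nat.find_spec hex, fun m hm => Nat.find_min hex hm⟩
      have h4 : ind {ω | ∃ n ≤ n', c ≤ cp n l E ω} (uw B L) ω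
          ≤ ind (F (Nat.find hex)) (uw B L) ω := by
        have h6 : ω ∈ {ω | ∃ n ≤ n', c ≤ cp n l E ω} := ⟨n, hn, hlt⟩
        simp only [ind, Set.indicator_of_mem h3, Set.indicator_of_mem h6]
        exact le_rfl
      refine h4.trans ?_
      exact Finset.single_le_sum (f := fun n => ind (F n) (uw B L) ω)
        (fun n _ => lv_ind_nonneg lv_uw_nonneg ω) (Finset.mem_range.mpr (by omega))
    · simp only [ind, Set.indicator_of_notMem hω]
      exact Finset.sum_nonneg fun n _ => lv_ind_nonneg lv_uw_nonneg ω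
  have h2 : ∀ n, c * tot (ind (F n) (uw B L)) ≤ tot (ind E (ind (F n) (uw B L))) := by
    intro n
    rw [← cp_integral n l hB E _ (hFm n)]
    unfold tot
    rw [Finset.mul_sum]
    refine Finset.sum_le_sum fun ω _ => ?_
    by_cases hω : ω ∈ F n
    · rw [mul_comm]
      exact mul_le_mul_of_nonneg_left hω.1 (lv_ind_nonneg lv_uw_nonneg ω)
    · simp [ind, Set.indicator_of_notMem hω]
  have h3 : ∑ n ∈ range (n' + 1), tot (ind E (ind (F n) (uw B L))) ≤ tot (ind E (uw B L)) := by
    unfold tot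
    rw [Finset.sum_comm]
    refine Finset.sum_le_sum fun ω _ => ?_
    by_cases hex : ∃ n ∈ range (n' + 1), ω ∈ F n
    · obtain ⟨n, hn, hω⟩ := hex
      rw [Finset.sum_eq_single n]
      · by_cases hE : ω ∈ E
        · simp only [ind, Set.indicator_of_mem hE, Set.indicator_of_mem hω]
          exact le_rfl
        · simp only [ind, Set.indicator_of_notMem hE]
          exact le_rfl
      · intro m _ hmn
        have : ω ∉ F m := by
          intro hm
          rcases lt_or_gt_of_ne hmn with h | h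
          · exact hω.2 m h hm.1
          · exact hm.2 n h hω.1
        rw [lv_ind_ind]
        exact Set.indicator_of_notMem (fun h => this h.2) _
      · intro h
        exact absurd hn h
    · push Not at hex
      rw [Finset.sum_eq_zero]
      · exact lv_ind_nonneg lv_uw_nonneg ω
      · intro n hn
        rw [lv_ind_ind]
        exact Set.indicator_of_notMem (fun h => hex n hn h.2) _
  calc c * pr (uw B L) {ω | ∃ n ≤ n', c ≤ cp n l E ω}
      ≤ c * ∑ ω, ∑ n ∈ range (n' + 1), ind (F n) (uw B L) ω :=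
        mul_le_mul_of_nonneg_left (Finset.sum_le_sum fun ω _ => h1 ω) hc.le
    _ = c * ∑ n ∈ range (n' + 1), tot (ind (F n) (uw B L)) := by
        rw [Finset.sum_comm]
        rfl
    _ = ∑ n ∈ range (n' + 1), c * tot (ind (F n) (uw B L)) := by rw [Finset.mul_sum]
    _ ≤ ∑ n ∈ range (n' + 1), tot (ind E (ind (F n) (uw B L))) :=
        Finset.sum_le_sum fun n _ => h2 n
    _ ≤ tot (ind E (uw B L)) := h3
    _ = pr (uw B L) E := rfl

theorem cp_compl (n l : ℕ) (hB : 0 < B) (E : Set (Wd B L)) (ω : Wd B L) :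
    cp n l Eᶜ ω = 1 - cp n l E ω := by
  classical
  have hpos : 0 < pr (uw B L) {ω' | Same n l ω ω'} := by
    unfold pr tot
    refine Finset.sum_pos' (fun ω' _ => lv_ind_nonneg lv_uw_nonneg ω') ⟨ω, Finset.mem_univ _, ?_⟩
    simp only [ind, Set.indicator_apply, Set.mem_ofPred_eq]
    rw [if_pos (Same.refl n l ω)]
    exact lv_uw_pos hB ω
  have hsum : pr (uw B L) (Eᶜ ∩ {ω' | Same n l ω ω'}) + pr (uw B L) (E ∩ {ω' | Same n l ω ω'})
      = pr (uw B L) {ω' | Same n l ω ω'} := by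
    unfold pr tot
    rw [← Finset.sum_add_distrib]
    refine Finset.sum_congr rfl fun ω' _ => ?_
    by_cases h1 : ω' ∈ E <;> by_cases h2 : Same n l ω ω' <;> simp [ind, h1, h2]
  unfold cp
  rw [eq_sub_iff_add_eq, ← add_div, hsum, div_self hpos.ne']

end Pool.Agent.CutSeq
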