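import Pool.Agent.CutSeq.TraA

/-! Row TRA: the transport inequality (T). -/

set_option autoImplicit false

namespace Pool.Agent.CutSeq

open Finset

section Gen

variable {Ω A : Type*} [Fintype Ω]

theorem tr_sum_mass_one [Fintype A] (w : Ω → ℝ) (Y : Ω → A) : ∑ y, mass w Y y = tot w := by
  have h := lv_sum_mass w Y (fun _ => (1 : ℝ))
  simp only [mul_one] at h
  exact h.symm

/-- the values at which the conditional probability of `G₀` is small -/
theorem tr_bad_small [Fintype A] (w : Ω → ℝ) (hw : ∀ ω, 0 ≤ w ω) (G₀ : Set Ω) (Y : Ω → A)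
    (p₀ : ℝ) (hp₀ : 0 ≤ p₀) :
    tot (ind (G₀ ∩ {ω | ¬ (0 < mass w Y (Y ω) ∧
      p₀ ≤ mass (ind G₀ w) Y (Y ω) / mass w Y (Y ω))}) w) ≤ p₀ * tot w := by
  classical
  have h1 : tot (ind (G₀ ∩ {ω | ¬ (0 < mass w Y (Y ω) ∧
      p₀ ≤ mass (ind G₀ w) Y (Y ω) / mass w Y (Y ω))}) w)
      = ∑ y, mass (ind G₀ w) Y y * (if 0 < mass w Y y ∧
        p₀ ≤ mass (ind G₀ w) Y y / mass w Y y then 0 else 1) := by
    rw [← lv_sum_mass (ind G₀ w) Y (fun y => if 0 < mass w Y y ∧
        p₀ ≤ mass (ind G₀ w) Y y / mass w Y y then (0 : ℝ) else 1)]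
    unfold tot
    refine Finset.sum_congr rfl fun ω _ => ?_
    rw [Set.inter_comm, ← lv_ind_ind]
    by_cases h : 0 < mass w Y (Y ω) ∧ p₀ ≤ mass (ind G₀ w) Y (Y ω) / mass w Y (Y ω)
    · rw [if_pos h, mul_zero]
      unfold ind
      rw [Set.indicator_of_notMem]
      exact fun h' => h' h
    · rw [if_neg h, mul_one]
      unfold ind
      rw [Set.indicator_of_mem]
      exact h
  rw [h1, ← tr_sum_mass_one w Y, Finset.mul_sum]
  refine Finset.sum_le_sum fun y _ => ?_
  have h2 := lv_mass_nonneg hw Y y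
  split_ifs with h
  · rw [mul_zero]
    exact mul_nonneg hp₀ h2
  · rw [mul_one]
    rcases h2.eq_or_lt with h3 | h3
    · have h4 : mass (ind G₀ w) Y y ≤ mass w Y y :=
        mass_le_mass w (ind G₀ w) (fun ω => lv_ind_le hw ω) Y y
      rw [← h3] at h4 ⊢
      rw [mul_zero]
      exact h4
    · have h4 : ¬ p₀ ≤ mass (ind G₀ w) Y y / mass w Y y := fun h' => h ⟨h3, h'⟩
      rw [not_le, div_lt_iff₀ h3] at h4
      exact h4.le

end Gen

section Det

variable {B L : ℕ}

theorem tr_agree_same {l : ℕ} {ω ω' : Wd B L} (n : ℕ) (h : ∀ i < l, ext ω i = ext ω' i) :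
    Same n l ω ω' := fun i hi => by rw [h i hi]

theorem tr_act_zero {n : ℕ} (x : Un n) : act x 0 = 0 := by
  funext k
  simp [act]

theorem tr_mm' (l S n : ℕ) (h : l + S ≤ L) (ω : Wd B L) :
    mm (ext ω) (l + S) n = mulU (mm (ext (trSl l S h ω)) S n) (mm (ext ω) l n) := by
  rw [mm_add, tr_mm_shift l S n h]

/-- a hidden relation that is not slow over the higher levels is good inside -/
theorem tr_typical (l S n ℓ : ℕ) (h : l + S ≤ L) (hnB : n ≤ B + 1) (ω : Wd B L) (c : V n)
    (hc : c ≠ 0) (h1 : c ∈ AA (ext ω) l n) (h2 : c ∈ AA (ext ω) (l + S) n)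
    (h3 : ¬ tp (act (mm (ext (trSl l S h ω)) S (B + 1)) (pad (act (mm (ext ω) l n) c)))
      < tp (pad (act (mm (ext ω) l n) c) : V (B + 1)) + ℓ) :
    trOK ℓ (mm (ext (trSl l S h ω)) S n) (mm (ext ω) (l + S) n) c := by
  refine ⟨?_, act (mm (ext ω) l n) c, ?_, ?_⟩
  · intro h0
    exact hc (act_injective _ (h0.trans (tr_act_zero _).symm))
  · rw [← act_mulU, ← tr_mm']
  · have e1 : act (mm (ext (trSl l S h ω)) S (B + 1)) (pad (act (mm (ext ω) l n) c))
        = (pad (act (mm (ext ω) (l + S) n) c) : V (B + 1)) := by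
      rw [← act_pad_hidden (ext ω) l hnB c h1, ← act_pad_hidden (ext ω) (l + S) hnB c h2,
        ← act_mulU, ← tr_mm']
    rw [e1, tr_tp_pad hnB, tr_tp_pad hnB] at h3
    omega

end Det

section Law

variable {B L : ℕ}

/-- the joint law of the slab and the array -/
theorem tr_law (hB : 0 < B) (l S n : ℕ) (h : l + S ≤ L) (w : Wd B L → ℝ)
    (hw : ∀ ω ω', (∀ i < l, ext ω i = ext ω' i) → w ω = w ω') (F : Un n → Un n → ℝ) :
    ∑ ω, w ω * F (mm (ext (trSl l S h ω)) S n) (mm (ext ω) l n)
      = ∑ x, ∑ g, mass w (fun ω => mm (ext ω) l n) x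
          * mass (uw B S) (fun σ => mm (ext σ) S n) g * F g x := by
  have h1 := tr_joint hB l S h (fun ω σ => w ω * F (mm (ext σ) S n) (mm (ext ω) l n)) (by
    intro ω ω' σ hs
    rw [hw ω ω' hs, (tr_agree_same n hs).mm_eq])
  rw [h1]
  have h2 : ∀ ω : Wd B L, ∑ σ, uw B S σ * (w ω * F (mm (ext σ) S n) (mm (ext ω) l n))
      = w ω * ∑ g, mass (uw B S) (fun σ => mm (ext σ) S n) g * F g (mm (ext ω) l n) := by
    intro ω
    rw [← lv_sum_mass (uw B S) (fun σ => mm (ext σ) S n) (fun g => F g (mm (ext ω) l n)),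
      Finset.mul_sum]
    refine Finset.sum_congr rfl fun σ _ => ?_
    ring
  simp only [h2]
  rw [lv_sum_mass w (fun ω => mm (ext ω) l n)
    (fun x => ∑ g, mass (uw B S) (fun σ => mm (ext σ) S n) g * F g x)]
  refine Finset.sum_congr rfl fun x _ => ?_
  rw [Finset.mul_sum]
  refine Finset.sum_congr rfl fun g _ => ?_
  ring

end Law

variable {B L : ℕ}

/-- (T) the transport inequality -/
theorem transport (l S n k k2 c1 c2 ℓ r : ℕ) (hB : 0 < B) (hlS : l + S ≤ L) (hnB : n ≤ B + 1)
    (G G' : Set (Wd B L)) (hG : Lev n l G) (hG' : Lev n (l + S) G') (hsub : G' ⊆ G)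
    (p₀ pF : ℝ) (hp₀ : 0 ≤ p₀) (hpF : 0 ≤ pF) (hℓ : 2 * c1 + r ≤ ℓ) (hr : 1 ≤ r)
    (h1 : ∀ y, 0 < mass (uw B L) (fun ω => mm (ext ω) (l + S) n) y →
      p₀ ≤ mass (ind G' (uw B L)) (fun ω => mm (ext ω) (l + S) n) y
          / mass (uw B L) (fun ω => mm (ext ω) (l + S) n) y →
      Nat.card (lst (ind G' (uw B L)) (fun ω => TT (ext ω) (l + S) n)
        (fun ω => mm (ext ω) (l + S) n) k y) ≤ 2 ^ c1)
    (h2 : ∀ y, 0 < mass (uw B L) (fun ω => mm (ext ω) l n) y →
      p₀ ≤ mass (ind G (uw B L)) (fun ω => mm (ext ω) l n) y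
          / mass (uw B L) (fun ω => mm (ext ω) l n) y →
      Nat.card (lst (ind G (uw B L)) (fun ω => TT (ext ω) l n) (fun ω => mm (ext ω) l n) k2 y)
        ≤ 2 ^ c2)
    (h3 : ∀ z : V (B + 1), z ≠ 0 → tp z ≤ n →
      pr (uw B S) {ω | tp (act (mm (ext ω) S (B + 1)) z) < tp z + ℓ} ≤ pF) :
    ((ℓ : ℝ) - 2 * c1 - r) * ∑ ω, ind G' (uw B L) ω * Real.log (Nat.card
        {a : V n // a ∈ AA (ext ω) (l + S) n ∧ a ∈ lst (ind G' (uw B L))
          (fun ω => TT (ext ω) (l + S) n) (fun ω => mm (ext ω) (l + S) n) k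
          (mm (ext ω) (l + S) n)})
      ≤ K0 (ind G (uw B L)) (fun ω => mm (ext ω) l n)
        - K0 (ind G (uw B L)) (fun ω => mm (ext ω) (l + S) n)
        + (ℓ : ℝ) * n * (2 * p₀ + 2 ^ (2 * c1) * (1 / 2) ^ k2 + 2 ^ c2 * pF) + 2 * (1 / 2) ^ r := by
  classical
  set u : Wd B L → ℝ := uw B L with hu
  have hu0 : ∀ ω, 0 ≤ u ω := lv_uw_nonneg
  have hu1 : tot u = 1 := tot_uw hB
  set m : Wd B L → Un n := fun ω => mm (ext ω) l n with hm
  set m' : Wd B L → Un n := fun ω => mm (ext ω) (l + S) n with hm'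
  set Γ : Wd B S → Un n := fun σ => mm (ext σ) S n with hΓ
  set sl : Wd B L → Wd B S := trSl l S hlS with hsl
  set w : Wd B L → ℝ := ind G u with hw
  have hw0 : ∀ ω, 0 ≤ w ω := lv_ind_nonneg hu0
  have hwtot : tot w ≤ 1 := by
    rw [← hu1]
    exact lv_tot_mono fun ω => lv_ind_le hu0 ω
  have hm'eq : ∀ ω, m' ω = mulU (Γ (sl ω)) (m ω) := fun ω => tr_mm' l S n hlS ω
  have hwag : ∀ ω ω', (∀ i < l, ext ω i = ext ω' i) → w ω = w ω' := by
    intro ω ω' hs
    have e1 : ω ∈ G ↔ ω' ∈ G := hG ω ω' (tr_agree_same n hs)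
    simp only [hw, ind, Set.indicator_apply, e1, hu, uw]
  -- the lists
  set good' : Un n → Prop := fun y => 0 < mass u m' y ∧ p₀ ≤ mass (ind G' u) m' y / mass u m' y
    with hgood'
  set good : Un n → Prop := fun y => 0 < mass u m y ∧ p₀ ≤ mass (ind G u) m y / mass u m y
    with hgood
  set H' : Un n → Finset (V n) := fun y => univ.filter fun a =>
    a ∈ lst (ind G' u) (fun ω => TT (ext ω) (l + S) n) m' k y with hH'
  set H2 : Un n → Finset (V n) := fun y => univ.filter fun a =>
    a ∈ lst (ind G u) (fun ω => TT (ext ω) l n) m k2 y with hH2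
  have hH'c : ∀ y, good' y → (H' y).card ≤ 2 ^ c1 := by
    intro y hy
    have e1 := h1 y hy.1 hy.2
    rw [Nat.card_eq_fintype_card] at e1
    rw [hH', ← Fintype.card_subtype]
    exact e1
  have hH2c : ∀ y, good y → (H2 y).card ≤ 2 ^ c2 := by
    intro y hy
    have e1 := h2 y hy.1 hy.2
    rw [Nat.card_eq_fintype_card] at e1
    rw [hH2, ← Fintype.card_subtype]
    exact e1
  set D : Un n → Finset (V n) := fun y =>
    if good' y then ((H' y) ×ˢ (H' y)).image (fun p => p.1 + p.2) else ∅ with hD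
  have hDc : ∀ y, (D y).card ≤ 2 ^ (2 * c1) := by
    intro y
    rw [hD]
    simp only
    split_ifs with hy
    · refine Finset.card_image_le.trans ?_
      rw [Finset.card_product]
      calc (H' y).card * (H' y).card ≤ 2 ^ c1 * 2 ^ c1 := Nat.mul_le_mul (hH'c y hy) (hH'c y hy)
        _ = 2 ^ (2 * c1) := by
          rw [← pow_add]
          congr 1
          ring
    · simp
  -- the exceptional events
  set Bad1 : Set (Wd B L) := G' ∩ {ω | ¬ good' (m' ω)} with hBad1
  set Bad2 : Set (Wd B L) := G ∩ {ω | ¬ good (m ω)} with hBad2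
  set Bad3 : Set (Wd B L) := G ∩ {ω | ∃ c ∈ D (m' ω), c ∈ AA (ext ω) l n ∧ c ∉ H2 (m ω)} with hBad3
  set Bad4 : Set (Wd B L) := G ∩ {ω | good (m ω) ∧ ∃ c ∈ H2 (m ω), c ≠ 0 ∧
    tp (act (mm (ext (sl ω)) S (B + 1)) (pad (act (m ω) c)))
      < tp (pad (act (m ω) c) : V (B + 1)) + ℓ} with hBad4
  have hb1 : tot (ind Bad1 u) ≤ p₀ := by
    have := tr_bad_small u hu0 G' m' p₀ hp₀
    rw [hu1, mul_one] at this
    exact this
  have hb2 : tot (ind Bad2 u) ≤ p₀ := by
    have := tr_bad_small u hu0 G m p₀ hp₀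
    rw [hu1, mul_one] at this
    exact this
  have hb3 : tot (ind Bad3 u) ≤ 2 ^ (2 * c1) * (1 / 2) ^ k2 := by
    set Q : V n → Un n → ℝ := fun c x => ∑ σ, uw B S σ * (if c ∈ D (mulU (Γ σ) x) then 1 else 0)
      with hQ
    have hQ0 : ∀ c x, 0 ≤ Q c x := by
      intro c x
      refine Finset.sum_nonneg fun σ _ => mul_nonneg (lv_uw_nonneg σ) ?_
      split_ifs <;> norm_num
    have hQs : ∀ x, ∑ c, Q c x ≤ 2 ^ (2 * c1) := by
      intro x
      rw [hQ]
      simp only
      rw [Finset.sum_comm]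
      have e1 : ∀ σ : Wd B S, ∑ c, uw B S σ * (if c ∈ D (mulU (Γ σ) x) then (1 : ℝ) else 0)
          ≤ uw B S σ * 2 ^ (2 * c1) := by
        intro σ
        rw [← Finset.mul_sum]
        refine mul_le_mul_of_nonneg_left ?_ (lv_uw_nonneg σ)
        rw [← Finset.sum_filter, Finset.sum_const, nsmul_eq_mul, mul_one]
        have e2 : (univ.filter fun c : V n => c ∈ D (mulU (Γ σ) x)).card ≤ 2 ^ (2 * c1) := by
          refine le_trans (le_of_eq ?_) (hDc (mulU (Γ σ) x))
          congr 1
          ext c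
          simp
        exact_mod_cast e2
      refine (Finset.sum_le_sum fun σ _ => e1 σ).trans ?_
      rw [← Finset.sum_mul]
      have e3 : ∑ σ, uw B S σ = 1 := tot_uw hB
      rw [e3, one_mul]
    have e1 : ∀ ω, ind Bad3 u ω ≤ ∑ c, ind {ω | c ∈ AA (ext ω) l n} w ω
        * ((if c ∉ H2 (m ω) then 1 else 0) * (if c ∈ D (mulU (Γ (sl ω)) (m ω)) then 1 else 0)) := by
      intro ω
      have e0 : ∀ c, 0 ≤ ind {ω | c ∈ AA (ext ω) l n} w ω
          * ((if c ∉ H2 (m ω) then (1 : ℝ) else 0)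
            * (if c ∈ D (mulU (Γ (sl ω)) (m ω)) then 1 else 0)) := by
        intro c
        refine mul_nonneg (lv_ind_nonneg hw0 ω) ?_
        split_ifs <;> norm_num
      by_cases hω : ω ∈ Bad3
      · obtain ⟨hωG, c, hc1, hc2, hc3⟩ := hω
        have e2 : ind Bad3 u ω ≤ ind {ω | c ∈ AA (ext ω) l n} w ω
          * ((if c ∉ H2 (m ω) then 1 else 0)
            * (if c ∈ D (mulU (Γ (sl ω)) (m ω)) then 1 else 0)) := by
          rw [← hm'eq ω, if_pos hc3, if_pos hc1, mul_one, mul_one]
          unfold ind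
          rw [Set.indicator_of_mem (show ω ∈ {ω | c ∈ AA (ext ω) l n} from hc2), hw]
          unfold ind
          rw [Set.indicator_of_mem hωG]
          exact lv_ind_le hu0 ω
        refine e2.trans ?_
        exact Finset.single_le_sum (f := fun c => ind {ω | c ∈ AA (ext ω) l n} w ω
          * ((if c ∉ H2 (m ω) then (1 : ℝ) else 0)
            * (if c ∈ D (mulU (Γ (sl ω)) (m ω)) then 1 else 0)))
          (fun c _ => e0 c) (Finset.mem_univ c)
      · unfold ind
        rw [Set.indicator_of_notMem hω]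
        exact Finset.sum_nonneg fun c _ => e0 c
    have e2 : ∀ c, ∑ ω, ind {ω | c ∈ AA (ext ω) l n} w ω
        * ((if c ∉ H2 (m ω) then 1 else 0) * (if c ∈ D (mulU (Γ (sl ω)) (m ω)) then 1 else 0))
        ≤ ∑ x, (1 / 2) ^ k2 * mass w m x * Q c x := by
      intro c
      have e3 := tr_law hB l S n hlS (ind {ω | c ∈ AA (ext ω) l n} w) (by
        intro ω ω' hs
        have e4 : c ∈ AA (ext ω) l n ↔ c ∈ AA (ext ω') l n := by
          rw [(tr_agree_same n hs).lv_AA_eq]
        simp only [ind, Set.indicator_apply, Set.mem_ofPred_eq, e4]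
        rw [hwag ω ω' hs])
        (fun g x => (if c ∉ H2 x then 1 else 0) * (if c ∈ D (mulU g x) then 1 else 0))
      refine (le_of_eq e3).trans ?_
      refine Finset.sum_le_sum fun x _ => ?_
      have e5 : ∑ g, mass (ind {ω | c ∈ AA (ext ω) l n} w) (fun ω => mm (ext ω) l n) x
          * mass (uw B S) (fun σ => mm (ext σ) S n) g
          * ((if c ∉ H2 x then 1 else 0) * (if c ∈ D (mulU g x) then 1 else 0))
          = (mass (ind {ω | c ∈ AA (ext ω) l n} w) m x * (if c ∉ H2 x then 1 else 0)) * Q c x := by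
        rw [hQ]
        simp only
        rw [lv_sum_mass (uw B S) Γ (fun g => if c ∈ D (mulU g x) then (1 : ℝ) else 0),
          Finset.mul_sum]
        refine Finset.sum_congr rfl fun g _ => ?_
        ring
      rw [e5]
      refine mul_le_mul_of_nonneg_right ?_ (hQ0 c x)
      have hmx : 0 ≤ mass w m x := lv_mass_nonneg hw0 m x
      by_cases hc : c ∈ H2 x
      · rw [if_neg (not_not.mpr hc), mul_zero]
        positivity
      · rw [if_pos hc, mul_one]
        have e6 : ¬ (1 / 2 : ℝ) ^ k2 ≤ post (ind G u) (fun ω => TT (ext ω) l n) m c x := by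
          intro h6
          exact hc (Finset.mem_filter.mpr ⟨Finset.mem_univ _, h6⟩)
        rcases hmx.eq_or_lt with h7 | h7
        · have e7 : mass (ind {ω | c ∈ AA (ext ω) l n} w) m x ≤ mass w m x :=
            mass_le_mass w _ (fun ω => lv_ind_le hw0 ω) m x
          rw [← h7] at e7 ⊢
          rw [mul_zero]
          exact e7
        · unfold post at e6
          rw [not_le, div_lt_iff₀ h7] at e6
          exact e6.le
    calc tot (ind Bad3 u) ≤ ∑ ω, ∑ c, ind {ω | c ∈ AA (ext ω) l n} w ω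
        * ((if c ∉ H2 (m ω) then 1 else 0) * (if c ∈ D (mulU (Γ (sl ω)) (m ω)) then 1 else 0)) :=
          Finset.sum_le_sum fun ω _ => e1 ω
      _ = ∑ c, ∑ ω, ind {ω | c ∈ AA (ext ω) l n} w ω
        * ((if c ∉ H2 (m ω) then 1 else 0) * (if c ∈ D (mulU (Γ (sl ω)) (m ω)) then 1 else 0)) :=
          Finset.sum_comm
      _ ≤ ∑ c, ∑ x, (1 / 2) ^ k2 * mass w m x * Q c x := Finset.sum_le_sum fun c _ => e2 c
      _ = ∑ x, (1 / 2) ^ k2 * mass w m x * ∑ c, Q c x := by
          rw [Finset.sum_comm]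
          refine Finset.sum_congr rfl fun x _ => ?_
          rw [Finset.mul_sum]
      _ ≤ ∑ x, (1 / 2) ^ k2 * mass w m x * 2 ^ (2 * c1) := by
          refine Finset.sum_le_sum fun x _ => ?_
          have := lv_mass_nonneg hw0 m x
          exact mul_le_mul_of_nonneg_left (hQs x) (by positivity)
      _ = (2 ^ (2 * c1) * (1 / 2) ^ k2) * tot w := by
          rw [← tr_sum_mass_one w m, Finset.mul_sum]
          refine Finset.sum_congr rfl fun x _ => ?_
          ring
      _ ≤ (2 ^ (2 * c1) * (1 / 2) ^ k2) * 1 :=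
          mul_le_mul_of_nonneg_left hwtot (by positivity)
      _ = 2 ^ (2 * c1) * (1 / 2) ^ k2 := mul_one _
  have hb4 : tot (ind Bad4 u) ≤ 2 ^ c2 * pF := by
    set slow : Un n → V n → Wd B S → Prop := fun x c σ =>
      tp (act (mm (ext σ) S (B + 1)) (pad (act x c))) < tp (pad (act x c) : V (B + 1)) + ℓ with hslow
    set F4 : Wd B L → Wd B S → ℝ := fun ω σ => w ω * (if good (m ω) then
      ∑ c ∈ (H2 (m ω)).filter (fun c => c ≠ 0), (if slow (m ω) c σ then 1 else 0) else 0) with hF4
    have e1 : ∀ ω, ind Bad4 u ω ≤ F4 ω (sl ω) := by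
      intro ω
      by_cases hω : ω ∈ Bad4
      · obtain ⟨hωG, hg, c, hc1, hc2, hc3⟩ := hω
        have e2 : ind Bad4 u ω ≤ u ω := lv_ind_le hu0 ω
        have e3 : w ω = u ω := Set.indicator_of_mem hωG _
        rw [hF4]
        simp only
        rw [if_pos hg, e3]
        have e4 : (1 : ℝ) ≤ ∑ c ∈ (H2 (m ω)).filter (fun c => c ≠ 0),
            (if slow (m ω) c (sl ω) then 1 else 0) := by
          have e5 : (1 : ℝ) = if slow (m ω) c (sl ω) then 1 else 0 := by
            rw [if_pos]
            exact hc3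
          refine e5.le.trans ?_
          refine Finset.single_le_sum (f := fun c => if slow (m ω) c (sl ω) then (1 : ℝ) else 0)
            (fun c _ => ?_) (Finset.mem_filter.mpr ⟨hc1, hc2⟩)
          split_ifs <;> norm_num
        calc ind Bad4 u ω ≤ u ω * 1 := by rw [mul_one]; exact e2
          _ ≤ _ := mul_le_mul_of_nonneg_left e4 (hu0 ω)
      · have e2 : ind Bad4 u ω = 0 := Set.indicator_of_notMem hω _
        rw [e2, hF4]
        simp only
        refine mul_nonneg (hw0 ω) ?_
        split_ifs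
        · refine Finset.sum_nonneg fun c _ => ?_
          split_ifs <;> norm_num
        · exact le_rfl
    have e2 : ∑ ω, F4 ω (sl ω) = ∑ ω, ∑ σ, uw B S σ * F4 ω σ := by
      refine tr_joint hB l S hlS F4 ?_
      intro ω ω' σ hs
      have e3 : m ω = m ω' := (tr_agree_same n hs).mm_eq
      rw [hF4]
      simp only
      rw [hwag ω ω' hs, e3]
    have e3 : ∀ x c, c ≠ 0 → ∑ σ, uw B S σ * (if slow x c σ then (1 : ℝ) else 0) ≤ pF := by
      intro x c hc
      have e4 : (pad (act x c) : V (B + 1)) ≠ 0 := by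
        intro h0
        have e5 : act x c = 0 := by
          apply lv_pad_inj hnB
          rw [h0]
          funext j
          simp [pad]
        exact hc (act_injective x (e5.trans (tr_act_zero x).symm))
      have e5 := h3 (pad (act x c)) e4 (by
        rw [tr_tp_pad hnB]
        exact Bwd.tp_le _)
      refine le_trans (le_of_eq ?_) e5
      unfold pr tot
      refine Finset.sum_congr rfl fun σ _ => ?_
      simp only [ind, Set.indicator_apply, Set.mem_ofPred_eq, hslow]
      split_ifs <;> simp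
    calc tot (ind Bad4 u) ≤ ∑ ω, F4 ω (sl ω) := Finset.sum_le_sum fun ω _ => e1 ω
      _ = ∑ ω, ∑ σ, uw B S σ * F4 ω σ := e2
      _ ≤ ∑ ω, w ω * (2 ^ c2 * pF) := by
          refine Finset.sum_le_sum fun ω _ => ?_
          by_cases hg : good (m ω)
          · have e6 : ∑ σ, uw B S σ * F4 ω σ = w ω * ∑ c ∈ (H2 (m ω)).filter (fun c => c ≠ 0),
                ∑ σ, uw B S σ * (if slow (m ω) c σ then 1 else 0) := by
              rw [hF4]
              simp only [if_pos hg]
              rw [Finset.sum_comm, Finset.mul_sum]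
              refine Finset.sum_congr rfl fun σ _ => ?_
              rw [Finset.mul_sum, Finset.mul_sum, Finset.mul_sum]
              refine Finset.sum_congr rfl fun c _ => ?_
              ring
            rw [e6]
            refine mul_le_mul_of_nonneg_left ?_ (hw0 ω)
            have e7 : ∀ c ∈ (H2 (m ω)).filter (fun c => c ≠ 0),
                ∑ σ, uw B S σ * (if slow (m ω) c σ then (1 : ℝ) else 0) ≤ pF := fun c hc =>
              e3 (m ω) c (Finset.mem_filter.mp hc).2
            refine (Finset.sum_le_card_nsmul _ _ _ e7).trans ?_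
            rw [nsmul_eq_mul]
            refine mul_le_mul_of_nonneg_right ?_ hpF
            have e8 : ((H2 (m ω)).filter (fun c => c ≠ 0)).card ≤ 2 ^ c2 :=
              (Finset.card_le_card (Finset.filter_subset _ _)).trans (hH2c _ hg)
            exact_mod_cast e8
          · rw [hF4]
            simp only [if_neg hg, mul_zero, Finset.sum_const_zero]
            exact mul_nonneg (hw0 ω) (by positivity)
      _ = (2 ^ c2 * pF) * tot w := by
          rw [← Finset.sum_mul, mul_comm]
          rfl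
      _ ≤ (2 ^ c2 * pF) * 1 := mul_le_mul_of_nonneg_left hwtot (by positivity)
      _ = 2 ^ c2 * pF := mul_one _
  -- the exponent
  obtain ⟨q, hq⟩ : ∃ q, ℓ = q + 2 * c1 + r := ⟨ℓ - (2 * c1 + r), by omega⟩
  have hqr : (ℓ : ℝ) - 2 * c1 - r = q := by
    rw [hq]
    push_cast
    ring
  set φ : Un n → Un n → ℝ := fun h x => ((q * trN ℓ (D x) h x : ℕ) : ℝ) * Real.log 2 with hφ
  have hφ0 : ∀ h x, 0 ≤ φ h x := fun h x =>
    mul_nonneg (Nat.cast_nonneg _) (Real.log_nonneg (by norm_num))
  -- the typical case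
  have htyp : ∀ ω ∈ G', ω ∉ Bad1 → ω ∉ Bad2 → ω ∉ Bad3 → ω ∉ Bad4 →
      (q : ℝ) * Real.log (Nat.card {a : V n // a ∈ AA (ext ω) (l + S) n ∧ a ∈ lst (ind G' u)
        (fun ω => TT (ext ω) (l + S) n) m' k (m' ω)}) ≤ φ (Γ (sl ω)) (m' ω) := by
    intro ω hω n1 n2 n3 n4
    have hωG : ω ∈ G := hsub hω
    have g1 : good' (m' ω) := by
      by_contra hcon
      exact n1 ⟨hω, hcon⟩
    have g2 : good (m ω) := by
      by_contra hcon
      exact n2 ⟨hωG, hcon⟩
    set W : Finset (V n) := univ.filter fun a => a ∈ AA (ext ω) (l + S) n ∧ a ∈ H' (m' ω) with hW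
    have hWc : Nat.card {a : V n // a ∈ AA (ext ω) (l + S) n ∧ a ∈ lst (ind G' u)
        (fun ω => TT (ext ω) (l + S) n) m' k (m' ω)} = W.card := by
      rw [Nat.card_eq_fintype_card, Fintype.card_subtype]
      congr 1
      ext a
      simp [hW, hH']
    have hcnt := tr_count (act (m' ω)) (fun a b => act_add _ a b) (act_injective _) W
      ((D (m' ω)).filter fun c => trOK ℓ (Γ (sl ω)) (m' ω) c) (by
        intro a ha a' ha' hne
        obtain ⟨-, ha1, ha2⟩ := Finset.mem_filter.mp ha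
        obtain ⟨-, ha1', ha2'⟩ := Finset.mem_filter.mp ha'
        have hc0 : a + a' ≠ 0 := by
          intro h0
          apply hne
          have h2 : a + a' + a' = a := by rw [add_assoc, tr_add_self, add_zero]
          rw [h0, zero_add] at h2
          exact h2.symm
        have hcD : a + a' ∈ D (m' ω) := by
          rw [hD]
          simp only
          rw [if_pos g1]
          exact Finset.mem_image.mpr ⟨(a, a'), Finset.mem_product.mpr ⟨ha2, ha2'⟩, rfl⟩
        have hcA' : a + a' ∈ AA (ext ω) (l + S) n := Submodule.add_mem _ ha1 ha1'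
        have hcA : a + a' ∈ AA (ext ω) l n := AA_anti (ext ω) n (Nat.le_add_right l S) hcA'
        have hcH : a + a' ∈ H2 (m ω) := by
          by_contra hcon
          exact n3 ⟨hωG, a + a', hcD, hcA, hcon⟩
        refine Finset.mem_filter.mpr ⟨hcD, ?_⟩
        refine tr_typical l S n ℓ hlS hnB ω (a + a') hc0 hcA hcA' ?_
        intro hslow
        exact n4 ⟨hωG, g2, a + a', hcH, hc0, hslow⟩)
    rw [hWc, hφ]
    simp only
    have e1 : W.card ≤ 2 ^ (trN ℓ (D (m' ω)) (Γ (sl ω)) (m' ω)) := by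
      refine hcnt.trans (le_of_eq ?_)
      unfold trN
      rfl
    push_cast
    rw [mul_assoc]
    refine mul_le_mul_of_nonneg_left ?_ (Nat.cast_nonneg _)
    rcases Nat.eq_zero_or_pos W.card with h0 | h0
    · rw [h0, Nat.cast_zero, Real.log_zero]
      exact mul_nonneg (Nat.cast_nonneg _) (Real.log_nonneg (by norm_num))
    · rw [← Real.log_pow]
      refine Real.log_le_log (by exact_mod_cast h0) ?_
      exact_mod_cast e1
  -- pointwise comparison
  have hpt : ∀ ω, (q : ℝ) * (ind G' u ω * Real.log (Nat.card {a : V n //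
      a ∈ AA (ext ω) (l + S) n ∧ a ∈ lst (ind G' u)
        (fun ω => TT (ext ω) (l + S) n) m' k (m' ω)})) ≤ w ω * φ (Γ (sl ω)) (m' ω)
      + (ℓ : ℝ) * n * (ind Bad1 u ω + ind Bad2 u ω + ind Bad3 u ω + ind Bad4 u ω) := by
    intro ω
    have p1 : 0 ≤ w ω * φ (Γ (sl ω)) (m' ω) := mul_nonneg (hw0 ω) (hφ0 _ _)
    have q1 := lv_ind_nonneg (G := Bad1) hu0 ω
    have q2 := lv_ind_nonneg (G := Bad2) hu0 ω
    have q3 := lv_ind_nonneg (G := Bad3) hu0 ω
    have q4 := lv_ind_nonneg (G := Bad4) hu0 ω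
    have hln : (0 : ℝ) ≤ (ℓ : ℝ) * n := by positivity
    by_cases hω : ω ∈ G'
    · have e1 : ind G' u ω = u ω := Set.indicator_of_mem hω _
      have e2 : w ω = u ω := Set.indicator_of_mem (hsub hω) _
      by_cases hbad : ω ∈ Bad1 ∨ ω ∈ Bad2 ∨ ω ∈ Bad3 ∨ ω ∈ Bad4
      · -- crude bound
        have e3 : u ω ≤ ind Bad1 u ω + ind Bad2 u ω + ind Bad3 u ω + ind Bad4 u ω := by
          rcases hbad with hh | hh | hh | hh
          · have : ind Bad1 u ω = u ω := Set.indicator_of_mem hh _
            linarith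
          · have : ind Bad2 u ω = u ω := Set.indicator_of_mem hh _
            linarith
          · have : ind Bad3 u ω = u ω := Set.indicator_of_mem hh _
            linarith
          · have : ind Bad4 u ω = u ω := Set.indicator_of_mem hh _
            linarith
        have e4 : Real.log (Nat.card {a : V n // a ∈ AA (ext ω) (l + S) n ∧ a ∈ lst (ind G' u)
            (fun ω => TT (ext ω) (l + S) n) m' k (m' ω)}) ≤ n := by
          have e5 : Nat.card {a : V n // a ∈ AA (ext ω) (l + S) n ∧ a ∈ lst (ind G' u)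
              (fun ω => TT (ext ω) (l + S) n) m' k (m' ω)} ≤ 2 ^ n := by
            rw [Nat.card_eq_fintype_card]
            refine (Fintype.card_subtype_le _).trans (le_of_eq ?_)
            rw [Fintype.card_fun, ZMod.card, Fintype.card_fin]
          rcases Nat.eq_zero_or_pos (Nat.card {a : V n // a ∈ AA (ext ω) (l + S) n ∧
              a ∈ lst (ind G' u) (fun ω => TT (ext ω) (l + S) n) m' k (m' ω)}) with h0 | h0
          · rw [h0, Nat.cast_zero, Real.log_zero]
            exact Nat.cast_nonneg _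
          · have e6 : Real.log (Nat.card {a : V n // a ∈ AA (ext ω) (l + S) n ∧
                a ∈ lst (ind G' u) (fun ω => TT (ext ω) (l + S) n) m' k (m' ω)})
                ≤ Real.log ((2 : ℝ) ^ n) :=
              Real.log_le_log (by exact_mod_cast h0) (by exact_mod_cast e5)
            rw [Real.log_pow] at e6
            have e7 : Real.log 2 ≤ 1 := by
              have := Real.log_le_sub_one_of_pos (show (0 : ℝ) < 2 by norm_num)
              linarith
            have e8 : (n : ℝ) * Real.log 2 ≤ n * 1 :=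
              mul_le_mul_of_nonneg_left e7 (Nat.cast_nonneg _)
            linarith
        have e5 : (q : ℝ) ≤ ℓ := by
          rw [← hqr]
          have c1nn : (0 : ℝ) ≤ c1 := Nat.cast_nonneg _
          have rnn : (0 : ℝ) ≤ r := Nat.cast_nonneg _
          linarith
        rw [e1]
        calc (q : ℝ) * (u ω * Real.log (Nat.card {a : V n // a ∈ AA (ext ω) (l + S) n ∧
                a ∈ lst (ind G' u) (fun ω => TT (ext ω) (l + S) n) m' k (m' ω)}))
            ≤ (q : ℝ) * (u ω * n) := mul_le_mul_of_nonneg_left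
              (mul_le_mul_of_nonneg_left e4 (hu0 ω)) (Nat.cast_nonneg _)
          _ ≤ (ℓ : ℝ) * (u ω * n) := mul_le_mul_of_nonneg_right e5
              (mul_nonneg (hu0 ω) (Nat.cast_nonneg _))
          _ = (ℓ : ℝ) * n * u ω := by ring
          _ ≤ (ℓ : ℝ) * n * (ind Bad1 u ω + ind Bad2 u ω + ind Bad3 u ω + ind Bad4 u ω) :=
              mul_le_mul_of_nonneg_left e3 hln
          _ ≤ _ := le_add_of_nonneg_left p1
      · push Not at hbad
        have e3 := htyp ω hω hbad.1 hbad.2.1 hbad.2.2.1 hbad.2.2.2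
        rw [e1, e2]
        have e4 : (q : ℝ) * (u ω * Real.log (Nat.card {a : V n // a ∈ AA (ext ω) (l + S) n ∧
                a ∈ lst (ind G' u) (fun ω => TT (ext ω) (l + S) n) m' k (m' ω)}))
            ≤ u ω * φ (Γ (sl ω)) (m' ω) := by
          rw [mul_left_comm]
          exact mul_le_mul_of_nonneg_left e3 (hu0 ω)
        have e5 : 0 ≤ (ℓ : ℝ) * n * (ind Bad1 u ω + ind Bad2 u ω + ind Bad3 u ω + ind Bad4 u ω) :=
          mul_nonneg hln (by linarith)
        linarith
    · have e1 : ind G' u ω = 0 := Set.indicator_of_notMem hω _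
      rw [e1, zero_mul, mul_zero]
      have e5 : 0 ≤ (ℓ : ℝ) * n * (ind Bad1 u ω + ind Bad2 u ω + ind Bad3 u ω + ind Bad4 u ω) :=
        mul_nonneg hln (by linarith)
      linarith
  -- the production inequality
  set μ : Un n → ℝ := mass w m with hμ
  set g : Un n → ℝ := mass (uw B S) Γ with hg
  have hμ0 : ∀ x, 0 ≤ μ x := lv_mass_nonneg hw0 m
  have hg0 : ∀ x, 0 ≤ g x := lv_mass_nonneg lv_uw_nonneg Γ
  have hg1 : tot g = 1 := by
    have := tr_sum_mass_one (uw B S) Γ
    rw [tot_uw hB] at this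
    exact this
  have hμt : tot μ = tot w := tr_sum_mass_one w m
  have hprod := production μ hμ0 g hg0 hg1 φ
  have hlaw := tr_law hB l S n hlS w hwag (fun h x => φ h (mulU h x))
  have hleft : ∑ ω, w ω * φ (Γ (sl ω)) (m' ω) = ∑ x, ∑ h, μ x * g h * φ h (mulU h x) := by
    rw [← hlaw]
    refine Finset.sum_congr rfl fun ω _ => ?_
    rw [hm'eq]
  have hK1 : K0 μ id = K0 w m := by
    unfold K0
    refine KK_law _ _ _ _ _ _ ?_
    intro a b
    have e1 : mass μ (fun ω => (id ω, ())) (a, b) = μ a := by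
      unfold mass
      rw [Finset.sum_eq_single a]
      · simp
      · intro x _ hx
        simp [hx]
      · intro h
        exact absurd (Finset.mem_univ _) h
    have e2 : mass w (fun ω => (m ω, ())) (a, b) = mass w m a := by
      unfold mass
      refine Finset.sum_congr rfl fun ω _ => ?_
      by_cases h : m ω = a <;> simp [h]
    rw [e1, e2]
  have hK2 : K0 (fun p : Un n × Un n => g p.1 * μ p.2) (fun p => mulU p.1 p.2) = K0 w m' := by
    unfold K0
    refine KK_law _ _ _ _ _ _ ?_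
    intro a b
    have e1 : mass (fun p : Un n × Un n => g p.1 * μ p.2) (fun p => (mulU p.1 p.2, ())) (a, b)
        = ∑ x, ∑ h, μ x * g h * (if mulU h x = a then 1 else 0) := by
      unfold mass
      rw [Fintype.sum_prod_type, Finset.sum_comm]
      refine Finset.sum_congr rfl fun x _ => ?_
      refine Finset.sum_congr rfl fun h _ => ?_
      by_cases h1 : mulU h x = a
      · simp [h1, mul_comm]
      · simp [h1]
    have e2 : mass w (fun ω => (m' ω, ())) (a, b)
        = ∑ ω, w ω * (if mulU (Γ (sl ω)) (m ω) = a then 1 else 0) := by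
      unfold mass
      refine Finset.sum_congr rfl fun ω _ => ?_
      rw [← hm'eq]
      by_cases h1 : m' ω = a
      · simp [h1]
      · simp [h1]
    rw [e1, e2]
    exact (tr_law hB l S n hlS w hwag (fun h x => if mulU h x = a then 1 else 0)).symm
  have hlog : tot μ * Real.log (∑ h, ∑ x', g h * (mass (fun p : Un n × Un n => g p.1 * μ p.2)
      (fun p => mulU p.1 p.2) x' / tot μ) * Real.exp (φ h x')) ≤ 2 * (1 / 2) ^ r := by
    have hμt0 : 0 ≤ tot μ := Finset.sum_nonneg fun x _ => hμ0 x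
    have hε : (0 : ℝ) ≤ 2 * (1 / 2) ^ r := by positivity
    rcases hμt0.eq_or_lt with h0 | h0
    · rw [← h0, zero_mul]
      exact hε
    · set ν : Un n → ℝ := mass (fun p : Un n × Un n => g p.1 * μ p.2) (fun p => mulU p.1 p.2)
        with hν
      have hw2 : ∀ p : Un n × Un n, 0 ≤ g p.1 * μ p.2 := fun p => mul_nonneg (hg0 _) (hμ0 _)
      have hν0 : ∀ x, 0 ≤ ν x := lv_mass_nonneg hw2 _
      have hνt : ∑ x, ν x = tot μ := by
        rw [hν, tr_sum_mass_one]
        unfold tot
        rw [Fintype.sum_prod_type]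
        simp only [← Finset.mul_sum]
        rw [← Finset.sum_mul]
        have : ∑ x, g x = 1 := hg1
        rw [this, one_mul]
      have hexp : ∀ x', ∑ h, g h * Real.exp (φ h x') ≤ 1 + 2 * (1 / 2) ^ r := by
        intro x'
        have e1 := tr_moment (S := S) hB q c1 r ℓ hr hq (D x') (hDc x') x'
        refine le_trans (le_of_eq ?_) e1
        rw [← lv_sum_mass (uw B S) Γ (fun h => Real.exp (φ h x'))]
        refine Finset.sum_congr rfl fun σ _ => ?_
        rw [hφ]
        simp only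
        rw [Real.exp_nat_mul, Real.exp_log (by norm_num)]
      set Z : ℝ := ∑ h, ∑ x', g h * (ν x' / tot μ) * Real.exp (φ h x') with hZ
      have hZ0 : 0 ≤ Z := Finset.sum_nonneg fun h _ => Finset.sum_nonneg fun x' _ =>
        mul_nonneg (mul_nonneg (hg0 h) (div_nonneg (hν0 x') hμt0)) (Real.exp_nonneg _)
      have hZ1 : Z ≤ 1 + 2 * (1 / 2) ^ r := by
        rw [hZ, Finset.sum_comm]
        have e2 : ∀ x', ∑ h, g h * (ν x' / tot μ) * Real.exp (φ h x')
            ≤ (ν x' / tot μ) * (1 + 2 * (1 / 2) ^ r) := by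
          intro x'
          have e3 : ∑ h, g h * (ν x' / tot μ) * Real.exp (φ h x')
              = (ν x' / tot μ) * ∑ h, g h * Real.exp (φ h x') := by
            rw [Finset.mul_sum]
            refine Finset.sum_congr rfl fun h _ => ?_
            ring
          rw [e3]
          exact mul_le_mul_of_nonneg_left (hexp x') (div_nonneg (hν0 x') hμt0)
        refine (Finset.sum_le_sum fun x' _ => e2 x').trans (le_of_eq ?_)
        rw [← Finset.sum_mul, ← Finset.sum_div, hνt, div_self h0.ne', one_mul]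
      have hlogZ : Real.log Z ≤ 2 * (1 / 2) ^ r := by
        rcases hZ0.eq_or_lt with hz | hz
        · rw [← hz, Real.log_zero]
          exact hε
        · have := Real.log_le_sub_one_of_pos hz
          linarith
      calc tot μ * Real.log Z ≤ tot μ * (2 * (1 / 2) ^ r) :=
            mul_le_mul_of_nonneg_left hlogZ hμt0
        _ ≤ 1 * (2 * (1 / 2) ^ r) := by
            refine mul_le_mul_of_nonneg_right ?_ hε
            rw [hμt]
            exact hwtot
        _ = 2 * (1 / 2) ^ r := one_mul _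
  -- conclusion
  have hsum : ((ℓ : ℝ) - 2 * c1 - r) * ∑ ω, ind G' u ω * Real.log (Nat.card
        {a : V n // a ∈ AA (ext ω) (l + S) n ∧ a ∈ lst (ind G' u)
          (fun ω => TT (ext ω) (l + S) n) m' k (m' ω)})
      ≤ ∑ ω, w ω * φ (Γ (sl ω)) (m' ω)
        + (ℓ : ℝ) * n * (tot (ind Bad1 u) + tot (ind Bad2 u) + tot (ind Bad3 u)
          + tot (ind Bad4 u)) := by
    rw [hqr, Finset.mul_sum]
    refine (Finset.sum_le_sum fun ω _ => hpt ω).trans (le_of_eq ?_)
    rw [Finset.sum_add_distrib, ← Finset.mul_sum, Finset.sum_add_distrib, Finset.sum_add_distrib,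
      Finset.sum_add_distrib]
    rfl
  have hbad : (ℓ : ℝ) * n * (tot (ind Bad1 u) + tot (ind Bad2 u) + tot (ind Bad3 u)
          + tot (ind Bad4 u))
      ≤ (ℓ : ℝ) * n * (2 * p₀ + 2 ^ (2 * c1) * (1 / 2) ^ k2 + 2 ^ c2 * pF) := by
    refine mul_le_mul_of_nonneg_left ?_ (by positivity)
    linarith
  rw [hK1, hK2] at hprod
  rw [hleft] at hsum
  refine hsum.trans ?_
  linarith

end Pool.Agent.CutSeq
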