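import Pool.Agent.CutSeq.SchDefs
import Pool.Agent.CutSeq.Tra

/-! Row SCH: one step of the scheme. -/

set_option autoImplicit false
set_option linter.unusedVariables false

namespace Pool.Agent.CutSeq

open Finset

/-- entropy of one more row -/
theorem K0_pre_succ {Ω : Type*} [Fintype Ω] (w : Ω → ℝ) (hw : ∀ ω, 0 ≤ w ω)
    (ρ : Ω → (k : ℕ) → V k) (n : ℕ) :
    K0 w (fun ω => pre (ρ ω) (n + 1)) = K0 w (fun ω => pre (ρ ω) n)
      + KK w (fun ω => ρ ω n) (fun ω => pre (ρ ω) n) := by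
  unfold K0
  have e1 : KK w (fun ω => pre (ρ ω) (n + 1)) (fun _ => ()) =
      KK w (fun ω => (pre (ρ ω) n, ρ ω n)) (fun _ => ()) := by
    refine (KK_bij w hw _ _ (fun _ => ()) (fun _ =>
      ({ toFun := fun x => (fun k => x k.castSucc, x (Fin.last n))
         invFun := fun p => Fin.snoc (α := fun k : Fin (n + 1) => V k.val) p.1 p.2
         left_inv := by
          intro x
          exact Fin.snoc_init_self (α := fun k : Fin (n + 1) => V k.val) x
         right_inv := by
          rintro ⟨p, v⟩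
          refine Prod.ext ?_ ?_
          · funext k
            exact Fin.snoc_castSucc (α := fun k : Fin (n + 1) => V k.val) v p k
          · exact Fin.snoc_last (α := fun k : Fin (n + 1) => V k.val) v p } :
        Un (n + 1) ≃ Un n × V n)) ?_).symm
    intro ω _
    rfl
  rw [e1, KK_chain w hw]
  congr 1
  refine le_antisymm (KK_finer w hw _ _ _ ?_) (KK_finer w hw _ _ _ ?_)
  · intro ω ω' _ _ h
    exact Prod.ext h rfl
  · intro ω ω' _ _ h
    exact (Prod.mk.inj h).1

variable {B L : ℕ}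

variable {O : ℕ → ℕ → Set (Wd B L)} {top : ℕ → ℕ} {S I : ℕ} {D q : ℝ}

/-- adding one level: chain rule and loss of mass -/
theorem level_step (h : Old O top S I D q) (hB : 0 < B) (hIL : I * S ≤ L) (k X : ℕ) (b : ℝ)
    (i n : ℕ) (hi : i ≤ I) :
    uu O top S k X b i (n + 1) ≤ uu O top S k X b i n
      + KK (ind (newEv O top S k X b i n) (uw B L)) (fun ω => arr (ext ω) (i * S) n)
        (fun ω => mm (ext ω) (i * S) n)
      + HH (mas O top S k X b i (n + 1)) (mas O top S k X b i n - mas O top S k X b i (n + 1)) := by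
  have h1 := K0_sub_le (ind (newEv O top S k X b i n) (uw B L))
    (ind (newEv O top S k X b i (n + 1)) (uw B L)) (Evt.ind_nonneg _ _ Evt.uw_nonneg)
    (Evt.ind_mono (newEv_anti h k X b i n (n + 1) (Nat.le_succ n)) _ Evt.uw_nonneg)
    (fun ω => mm (ext ω) (i * S) (n + 1))
  have h2 := K0_pre_succ (ind (newEv O top S k X b i n) (uw B L))
    (Evt.ind_nonneg _ _ Evt.uw_nonneg) (fun ω => arr (ext ω) (i * S)) n
  have h3 : K0 (ind (newEv O top S k X b i n) (uw B L)) (fun ω => mm (ext ω) (i * S) (n + 1)) =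
      K0 (ind (newEv O top S k X b i n) (uw B L)) (fun ω => mm (ext ω) (i * S) n) +
      KK (ind (newEv O top S k X b i n) (uw B L)) (fun ω => arr (ext ω) (i * S) n)
        (fun ω => mm (ext ω) (i * S) n) := h2
  rw [h3] at h1
  exact h1

/-- one step of the scheme -/
theorem scheme_step (h : Old O top S I D q) (hB : 0 < B) (hIL : I * S ≤ L) (k X m N g ℓ : ℕ)
    (b pF : ℝ) (hk : 0 < k) (hm : 1 ≤ m) (hkm : 2 * N ≤ k * m) (hN : 1 ≤ N) (hg : N ≤ 2 ^ g)
    (hg1 : 1 ≤ g) (hb : b = (1 / 2) ^ (4 * g)) (hpF : 0 ≤ pF) (hℓ : 2 * (2 * k + 1) + 4 * g < ℓ)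
    (i n : ℕ) (hi1 : 1 ≤ i) (hi : i + 1 ≤ I) (hnN : n ≤ N) (hnB : n ≤ B)
    (hn : n + ((4 * k + 2 + 4 * g) + 2 + 8 * g + k + X) ≤ top i)
    (hF : ∀ z : V (B + 1), z ≠ 0 → tp z ≤ n →
      pr (uw B S) {ω | tp (act (mm (ext ω) S (B + 1)) z) < tp z + ℓ} ≤ pF) :
    uu O top S k X b (i + 1) (n + 1)
      ≤ (1 - 1 / ((ℓ : ℝ) - 2 * (2 * k + 1) - 4 * g)) * uu O top S k X b (i + 1) n
        + 1 / ((ℓ : ℝ) - 2 * (2 * k + 1) - 4 * g) * uu O top S k X b i n
        + (HH (mas O top S k X b (i + 1) (n + 1))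
            (mas O top S k X b (i + 1) n - mas O top S k X b (i + 1) (n + 1))
          + tcor O top S k X b m (i + 1) n + (1 / 2) ^ N
          + 1 / ((ℓ : ℝ) - 2 * (2 * k + 1) - 4 * g) *
            (HH (mas O top S k X b (i + 1) n)
                (mas O top S k X b i n - mas O top S k X b (i + 1) n)
              + (ℓ : ℝ) * n * (2 * (1 / 2) ^ (4 * g)
                + 2 ^ (2 * (2 * k + 1)) * (1 / 2) ^ (4 * k + 2 + 4 * g)
                + 2 ^ (k + (4 * k + 2 + 4 * g) + 1) * pF) + 2 * (1 / 2) ^ (4 * g))) := by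
  classical
  have hb0 : 0 < b := by rw [hb]; positivity
  -- the grid level
  obtain ⟨c, hc1, hc2⟩ : ∃ c : ℕ, n + ((4 * k + 2 + 4 * g) + 2 + 8 * g) ≤ c * k ∧
      c * k ≤ n + ((4 * k + 2 + 4 * g) + 2 + 8 * g) + k := by
    set M := n + ((4 * k + 2 + 4 * g) + 2 + 8 * g) with hM
    refine ⟨M / k + 1, ?_, ?_⟩
    · have := Nat.div_add_mod M k
      have h2 := Nat.mod_lt M hk
      have h3 : (M / k + 1) * k = k * (M / k) + k := by ring
      omega
    · have h3 : (M / k + 1) * k = k * (M / k) + k := by ring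
      have := Nat.div_add_mod M k
      omega
  have hci : c * k + X ≤ top i := by omega
  have hci1 : c * k + X ≤ top (i + 1) := hci.trans (h.mono (Nat.le_succ i))
  have hnck : n ≤ c * k := by omega
  have e : (i + 1) * S = i * S + S := by ring
  have hlS : i * S + S ≤ L := by
    rw [← e]
    exact (Nat.mul_le_mul_right S hi).trans hIL
  have hiI : i ≤ I := by omega
  set G := newEv O top S k X b i n with hG
  set G' := newEv O top S k X b (i + 1) n with hG'
  have hLevG : Lev n (i * S) G := newEv_lev h k X b i n hiI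
  have hLevG' : Lev n ((i + 1) * S) G' := newEv_lev h k X b (i + 1) n hi
  have hsub : G' ⊆ G := newEv_time k X b i n
  -- the powers of one half
  have hpow1 : (2 : ℝ) ^ (k + 2) * (1 / 2) ^ (c * k - n) ≤ b * (1 / 2) ^ (4 * g) := by
    rw [hb, ← pow_add]
    have h1 : (1 / 2 : ℝ) ^ (c * k - n) ≤ (1 / 2) ^ ((k + 2) + (4 * g + 4 * g)) :=
      pow_le_pow_of_le_one (by norm_num) (by norm_num) (by omega)
    calc (2 : ℝ) ^ (k + 2) * (1 / 2) ^ (c * k - n) ≤
          2 ^ (k + 2) * (1 / 2) ^ ((k + 2) + (4 * g + 4 * g)) := by gcongr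
      _ = (1 / 2) ^ (4 * g + 4 * g) := by
          rw [pow_add (1 / 2 : ℝ) (k + 2), ← mul_assoc, ← mul_pow]
          norm_num
  have hpow2 : (2 : ℝ) ^ ((4 * k + 2 + 4 * g) + 2) * (1 / 2) ^ (c * k - n) ≤
      b * (1 / 2) ^ (4 * g) := by
    rw [hb, ← pow_add]
    have h1 : (1 / 2 : ℝ) ^ (c * k - n) ≤
        (1 / 2) ^ (((4 * k + 2 + 4 * g) + 2) + (4 * g + 4 * g)) :=
      pow_le_pow_of_le_one (by norm_num) (by norm_num) (by omega)
    calc (2 : ℝ) ^ ((4 * k + 2 + 4 * g) + 2) * (1 / 2) ^ (c * k - n) ≤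
          2 ^ ((4 * k + 2 + 4 * g) + 2) *
            (1 / 2) ^ (((4 * k + 2 + 4 * g) + 2) + (4 * g + 4 * g)) := by gcongr
      _ = (1 / 2) ^ (4 * g + 4 * g) := by
          rw [pow_add (1 / 2 : ℝ) ((4 * k + 2 + 4 * g) + 2), ← mul_assoc, ← mul_pow]
          norm_num
  -- transport
  have htr := transport (L := L) (i * S) S n k (4 * k + 2 + 4 * g) (2 * k + 1)
    (k + (4 * k + 2 + 4 * g) + 1) ℓ (4 * g) hB hlS (by omega) G G' hLevG
    (by rw [← e]; exact hLevG') hsub ((1 / 2) ^ (4 * g)) pF (by positivity) hpF (by omega) (by omega)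
    (by
      intro y hy0 hy
      rw [← e] at hy0 hy ⊢
      have h1 := list_bound (L := L) ((i + 1) * S) n (c * k) k k hB
        ((Nat.mul_le_mul_right S hi).trans hIL) hnck
        (newEv O top S k X b i (top (i + 1)) ∩ O (i + 1) (top (i + 1))) G' hLevG' b hb0
        (fun ω hω => newEv_good k X b i n c hci1 hnck ω hω) y hy0
        (hpow1.trans (mul_le_mul_of_nonneg_left hy hb0.le))
      refine h1.trans (le_of_eq ?_)
      congr 1
      ring)
    (by
      intro y hy0 hy
      obtain ⟨i', rfl⟩ : ∃ i', i = i' + 1 := ⟨i - 1, by omega⟩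
      exact list_bound (L := L) ((i' + 1) * S) n (c * k) k (4 * k + 2 + 4 * g) hB
        ((Nat.mul_le_mul_right S hiI).trans hIL) hnck
        (newEv O top S k X b i' (top (i' + 1)) ∩ O (i' + 1) (top (i' + 1))) G hLevG b hb0
        (fun ω hω => newEv_good k X b i' n c hci hnck ω hω) y hy0
        (hpow2.trans (mul_le_mul_of_nonneg_left hy hb0.le)))
    hF
  rw [← e] at htr
  -- quantisation
  have htot1 : tot (ind G' (uw B L)) ≤ 1 :=
    (Evt.tot_ind_le G' (uw B L) Evt.uw_nonneg).trans (le_of_eq (tot_uw hB))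
  have hqu := quantise (ind G' (uw B L)) (Evt.ind_nonneg _ _ Evt.uw_nonneg) htot1
    (fun ω => TT (ext ω) ((i + 1) * S) n) (fun ω => mm (ext ω) ((i + 1) * S) n) m k N hm hnN hkm
  have hrow : KK (sib (ind G' (uw B L)) (fun ω => TT (ext ω) ((i + 1) * S) n) 1) (fun p => p.2)
      (fun p => mm (ext p.1) ((i + 1) * S) n) =
      KK (ind G' (uw B L)) (fun ω => arr (ext ω) ((i + 1) * S) n)
        (fun ω => mm (ext ω) ((i + 1) * S) n) :=
    KK_row_eq_sib n ((i + 1) * S) ((Nat.mul_le_mul_right S hi).trans hIL) G' hLevG'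
  -- the level step and the time loss
  have hlev := level_step h hB hIL k X b (i + 1) n hi
  have htime := K0_sub_le (ind G (uw B L)) (ind G' (uw B L)) (Evt.ind_nonneg _ _ Evt.uw_nonneg)
    (Evt.ind_mono hsub _ Evt.uw_nonneg) (fun ω => mm (ext ω) ((i + 1) * S) n)
  -- the pieces
  set E : ℝ := KK (ind G' (uw B L)) (fun ω => arr (ext ω) ((i + 1) * S) n)
        (fun ω => mm (ext ω) ((i + 1) * S) n) with hE
  set Slog : ℝ := ∑ ω, ind G' (uw B L) ω * Real.log (Nat.card
        {a : V n // a ∈ AA (ext ω) ((i + 1) * S) n ∧ a ∈ lst (ind G' (uw B L))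
          (fun ω => TT (ext ω) ((i + 1) * S) n) (fun ω => mm (ext ω) ((i + 1) * S) n) k
          (mm (ext ω) ((i + 1) * S) n)}) with hSlog
  have hq2 : E ≤ tcor O top S k X b m (i + 1) n + Slog + (1 / 2) ^ N := by
    rw [hrow] at hqu
    exact hqu
  have hu1 : uu O top S k X b (i + 1) n =
      K0 (ind G' (uw B L)) (fun ω => mm (ext ω) ((i + 1) * S) n) := rfl
  have hu2 : uu O top S k X b i n = K0 (ind G (uw B L)) (fun ω => mm (ext ω) (i * S) n) := rfl
  have hP : 0 < (ℓ : ℝ) - 2 * (2 * k + 1) - 4 * g := by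
    have : ((2 * (2 * k + 1) + 4 * g : ℕ) : ℝ) < ℓ := by exact_mod_cast hℓ
    push_cast at this
    linarith
  set P : ℝ := (ℓ : ℝ) - 2 * (2 * k + 1) - 4 * g with hPdef
  have htr2 : P * Slog ≤ uu O top S k X b i n -
      K0 (ind G (uw B L)) (fun ω => mm (ext ω) ((i + 1) * S) n) +
      ((ℓ : ℝ) * n * (2 * (1 / 2) ^ (4 * g)
                + 2 ^ (2 * (2 * k + 1)) * (1 / 2) ^ (4 * k + 2 + 4 * g)
                + 2 ^ (k + (4 * k + 2 + 4 * g) + 1) * pF) + 2 * (1 / 2) ^ (4 * g)) := by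
    have e2 : (ℓ : ℝ) - 2 * ((2 * k + 1 : ℕ) : ℝ) - ((4 * g : ℕ) : ℝ) = P := by
      rw [hPdef]
      push_cast
      ring
    rw [e2] at htr
    rw [hu2]
    refine htr.trans (le_of_eq ?_)
    ring
  set Er : ℝ := (ℓ : ℝ) * n * (2 * (1 / 2) ^ (4 * g)
                + 2 ^ (2 * (2 * k + 1)) * (1 / 2) ^ (4 * k + 2 + 4 * g)
                + 2 ^ (k + (4 * k + 2 + 4 * g) + 1) * pF) with hEr
  have htime2 : uu O top S k X b (i + 1) n ≤
      K0 (ind G (uw B L)) (fun ω => mm (ext ω) ((i + 1) * S) n) +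
      HH (mas O top S k X b (i + 1) n)
                (mas O top S k X b i n - mas O top S k X b (i + 1) n) := htime
  have hS2 : Slog ≤ 1 / P * (uu O top S k X b i n - uu O top S k X b (i + 1) n +
      HH (mas O top S k X b (i + 1) n)
                (mas O top S k X b i n - mas O top S k X b (i + 1) n) + (Er +
                  2 * (1 / 2) ^ (4 * g))) := by
    rw [one_div, ← div_eq_inv_mul, le_div_iff₀ hP, mul_comm]
    linarith
  have hfin : uu O top S k X b (i + 1) (n + 1) ≤ uu O top S k X b (i + 1) n + E +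
      HH (mas O top S k X b (i + 1) (n + 1))
        (mas O top S k X b (i + 1) n - mas O top S k X b (i + 1) (n + 1)) := hlev
  have hring : (1 - 1 / P) * uu O top S k X b (i + 1) n + 1 / P * uu O top S k X b i n
        + (HH (mas O top S k X b (i + 1) (n + 1))
            (mas O top S k X b (i + 1) n - mas O top S k X b (i + 1) (n + 1))
          + tcor O top S k X b m (i + 1) n + (1 / 2) ^ N
          + 1 / P *
            (HH (mas O top S k X b (i + 1) n)
                (mas O top S k X b i n - mas O top S k X b (i + 1) n)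
              + Er + 2 * (1 / 2) ^ (4 * g))) =
      uu O top S k X b (i + 1) n + (tcor O top S k X b m (i + 1) n +
        1 / P * (uu O top S k X b i n - uu O top S k X b (i + 1) n +
      HH (mas O top S k X b (i + 1) n)
                (mas O top S k X b i n - mas O top S k X b (i + 1) n) + (Er +
                  2 * (1 / 2) ^ (4 * g))) + (1 / 2) ^ N) +
      HH (mas O top S k X b (i + 1) (n + 1))
        (mas O top S k X b (i + 1) n - mas O top S k X b (i + 1) (n + 1)) := by ring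
  rw [hring]
  linarith

end Pool.Agent.CutSeq
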