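import Pool.Agent.CutSeq.Evt

/-! The quantities of the scheme. -/

set_option autoImplicit false

namespace Pool.Agent.CutSeq

open Finset

variable {B L : ℕ}

/-- entropy on the grid of the scheme -/
noncomputable def uu (O : ℕ → ℕ → Set (Wd B L)) (top : ℕ → ℕ) (S k X : ℕ) (b : ℝ) (i n : ℕ) : ℝ :=
  K0 (ind (newEv O top S k X b i n) (uw B L)) (fun ω => mm (ext ω) (i * S) n)

/-- probability of the new events -/
noncomputable def mas (O : ℕ → ℕ → Set (Wd B L)) (top : ℕ → ℕ) (S k X : ℕ) (b : ℝ) (i n : ℕ) : ℝ :=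
  pr (uw B L) (newEv O top S k X b i n)

/-- the correlation term of `m` siblings -/
noncomputable def tcor (O : ℕ → ℕ → Set (Wd B L)) (top : ℕ → ℕ) (S k X : ℕ) (b : ℝ) (m i n : ℕ) : ℝ :=
  KK (sib (ind (newEv O top S k X b i n) (uw B L)) (fun ω => TT (ext ω) (i * S) n) m)
      (fun p => p.2) (fun p => mm (ext p.1) (i * S) n)
    - m * KK (ind (newEv O top S k X b i n) (uw B L)) (fun ω => arr (ext ω) (i * S) n)
      (fun ω => mm (ext ω) (i * S) n)

end Pool.Agent.CutSeq
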