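import Pool.Agent.CutSeq.SoftDefs

/-! Row A1: the multiscale lemma (variance bound on a finite product space). -/

set_option autoImplicit false

namespace Pool.Agent.CutSeq.MS

open Finset

section Basic

variable {ι α : Type*} [Fintype ι] [DecidableEq ι] [Fintype α]

/-- product weight -/
noncomputable def pw (p : ι → α → ℝ) (w : ι → α) : ℝ := ∏ i, p i (w i)

/-- expectation -/
noncomputable def ex (p : ι → α → ℝ) (f : (ι → α) → ℝ) : ℝ := ∑ w, pw p w * f w

/-- first argument on `A`, second argument off `A` -/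
def mix (A : Finset ι) (u w : ι → α) : ι → α := fun i => if i ∈ A then u i else w i

/-- average over the coordinates in `A` -/
noncomputable def av (p : ι → α → ℝ) (A : Finset ι) (f : (ι → α) → ℝ) (w : ι → α) : ℝ :=
  ∑ u, pw p u * f (mix A u w)

omit [Fintype ι] [Fintype α] in
theorem mix_mix (A B : Finset ι) (u v w : ι → α) :
    mix B v (mix A u w) = mix (A ∪ B) (mix B v u) w := by
  funext i
  by_cases h1 : i ∈ A <;> by_cases h2 : i ∈ B <;> simp [mix, h1, h2]

omit [Fintype ι] [Fintype α] in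
theorem mix_swap (A : Finset ι) (u w : ι → α) : mix A (mix A u w) (mix A w u) = u := by
  funext i
  by_cases h1 : i ∈ A <;> simp [mix, h1]

omit [Fintype ι] [Fintype α] in
theorem mix_self (A : Finset ι) (w : ι → α) : mix A w w = w := by
  funext i
  by_cases h1 : i ∈ A <;> simp [mix, h1]

omit [Fintype ι] [Fintype α] in
theorem mix_empty (u w : ι → α) : mix ∅ u w = w := by
  funext i
  simp [mix]

omit [Fintype α] in
theorem mix_univ (u w : ι → α) : mix univ u w = u := by
  funext i
  simp [mix]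

omit [DecidableEq ι] [Fintype α] in
theorem pw_nonneg (p : ι → α → ℝ) (hp : ∀ i a, 0 ≤ p i a) (w : ι → α) : 0 ≤ pw p w :=
  prod_nonneg fun i _ => hp i _

omit [Fintype α] in
theorem pw_mix (p : ι → α → ℝ) (A : Finset ι) (u w : ι → α) :
    pw p (mix A u w) * pw p (mix A w u) = pw p u * pw p w := by
  unfold pw
  rw [← prod_mul_distrib, ← prod_mul_distrib]
  refine prod_congr rfl fun i _ => ?_
  by_cases h1 : i ∈ A <;> simp [mix, h1, mul_comm]

theorem pw_sum (p : ι → α → ℝ) (hp1 : ∀ i, ∑ a, p i a = 1) : ∑ w, pw p w = 1 := by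
  unfold pw
  have := Finset.prod_univ_sum (fun _ : ι => (univ : Finset α)) (fun i a => p i a)
  rw [Fintype.piFinset_univ] at this
  rw [← this]
  exact prod_eq_one fun i _ => hp1 i

/-- exchange of the coordinates in `A` between two independent points -/
theorem sum_swap (p : ι → α → ℝ) (A : Finset ι) (F : (ι → α) → (ι → α) → ℝ) :
    ∑ u, ∑ w, pw p u * pw p w * F (mix A u w) (mix A w u)
      = ∑ u, ∑ w, pw p u * pw p w * F u w := by
  rw [← Fintype.sum_prod_type', ← Fintype.sum_prod_type']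
  refine Fintype.sum_equiv
    { toFun := fun q : (ι → α) × (ι → α) => (mix A q.1 q.2, mix A q.2 q.1)
      invFun := fun q => (mix A q.1 q.2, mix A q.2 q.1)
      left_inv := fun q => by simp only [mix_swap]
      right_inv := fun q => by simp only [mix_swap] } _ _ fun q => ?_
  simp only [Equiv.coe_fn_mk]
  rw [pw_mix]

theorem av_av (p : ι → α → ℝ) (hp1 : ∀ i, ∑ a, p i a = 1) (A B : Finset ι)
    (f : (ι → α) → ℝ) : av p A (av p B f) = av p (A ∪ B) f := by
  funext w
  unfold av
  simp only [mul_sum, mix_mix]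
  rw [sum_comm]
  have h := sum_swap p B (fun x _ => f (mix (A ∪ B) x w))
  calc _ = ∑ v, ∑ u, pw p v * pw p u * f (mix (A ∪ B) (mix B v u) w) := by
        refine sum_congr rfl fun v _ => sum_congr rfl fun u _ => by ring
    _ = ∑ v, ∑ u, pw p v * pw p u * f (mix (A ∪ B) v w) := h
    _ = _ := by
        refine sum_congr rfl fun v _ => ?_
        have : ∑ u, pw p v * pw p u * f (mix (A ∪ B) v w)
            = (∑ u, pw p u) * (pw p v * f (mix (A ∪ B) v w)) := by
          rw [sum_mul]
          refine sum_congr rfl fun u _ => by ring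
        rw [this, pw_sum p hp1, one_mul]

theorem av_symm (p : ι → α → ℝ) (A : Finset ι) (f g : (ι → α) → ℝ) :
    ex p (av p A f * g) = ex p (f * av p A g) := by
  unfold ex av
  simp only [Pi.mul_apply, mul_sum, sum_mul]
  have h := sum_swap p A (fun u w => f (mix A u w) * g w)
  simp only [mix_swap] at h
  rw [sum_comm]
  calc _ = ∑ u, ∑ w, pw p u * pw p w * (f (mix A u w) * g w) := by
        refine sum_congr rfl fun v _ => sum_congr rfl fun u _ => by ring
    _ = _ := h.symm
    _ = _ := by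
        refine sum_congr rfl fun v _ => sum_congr rfl fun u _ => by ring

theorem av_add (p : ι → α → ℝ) (A : Finset ι) (f g : (ι → α) → ℝ) :
    av p A (f + g) = av p A f + av p A g := by
  funext w
  simp only [av, Pi.add_apply, mul_add, sum_add_distrib]

theorem av_sub (p : ι → α → ℝ) (A : Finset ι) (f g : (ι → α) → ℝ) :
    av p A (f - g) = av p A f - av p A g := by
  funext w
  simp only [av, Pi.sub_apply, mul_sub, sum_sub_distrib]

theorem av_sum (p : ι → α → ℝ) (A : Finset ι) {κ : Type*} (s : Finset κ)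
    (f : κ → (ι → α) → ℝ) : av p A (∑ i ∈ s, f i) = ∑ i ∈ s, av p A (f i) := by
  funext w
  simp only [av, Finset.sum_apply, mul_sum]
  rw [sum_comm]

theorem av_zero (p : ι → α → ℝ) (A : Finset ι) : av p A 0 = 0 := by
  funext w
  simp [av]

theorem ex_av (p : ι → α → ℝ) (hp1 : ∀ i, ∑ a, p i a = 1) (A : Finset ι)
    (f : (ι → α) → ℝ) : ex p (av p A f) = ex p f := by
  have h := av_symm p A f 1
  have h1 : av p A (1 : (ι → α) → ℝ) = 1 := by
    funext w
    simp only [av, Pi.one_apply, mul_one]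
    exact pw_sum p hp1
  rw [h1, mul_one, mul_one] at h
  exact h

theorem av_empty (p : ι → α → ℝ) (hp1 : ∀ i, ∑ a, p i a = 1) (f : (ι → α) → ℝ) :
    av p ∅ f = f := by
  funext w
  simp only [av, mix_empty]
  rw [← sum_mul, pw_sum p hp1, one_mul]

theorem av_univ (p : ι → α → ℝ) (f : (ι → α) → ℝ) (w : ι → α) :
    av p univ f w = ex p f := by
  simp only [av, ex, mix_univ]

theorem av_idem (p : ι → α → ℝ) (hp1 : ∀ i, ∑ a, p i a = 1) (A : Finset ι)
    (f : (ι → α) → ℝ) : av p A (av p A f) = av p A f := by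
  rw [av_av p hp1, union_self]

theorem av_comm (p : ι → α → ℝ) (hp1 : ∀ i, ∑ a, p i a = 1) (A B : Finset ι)
    (f : (ι → α) → ℝ) : av p A (av p B f) = av p B (av p A f) := by
  rw [av_av p hp1, av_av p hp1, union_comm]

theorem ex_nonneg (p : ι → α → ℝ) (hp : ∀ i a, 0 ≤ p i a) (f : (ι → α) → ℝ)
    (hf : ∀ w, 0 ≤ f w) : 0 ≤ ex p f :=
  sum_nonneg fun w _ => mul_nonneg (pw_nonneg p hp w) (hf w)

theorem ex_add (p : ι → α → ℝ) (f g : (ι → α) → ℝ) : ex p (f + g) = ex p f + ex p g := by
  simp only [ex, Pi.add_apply, mul_add, sum_add_distrib]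

theorem ex_sum (p : ι → α → ℝ) {κ : Type*} (s : Finset κ) (f : κ → (ι → α) → ℝ) :
    ex p (∑ i ∈ s, f i) = ∑ i ∈ s, ex p (f i) := by
  simp only [ex, Finset.sum_apply, mul_sum]
  rw [sum_comm]

/-- Pythagoras for an average -/
theorem orth (p : ι → α → ℝ) (A : Finset ι) (h g : (ι → α) → ℝ)
    (hh : av p A h = h) (hg : av p A g = 0) :
    ex p ((h + g) ^ 2) = ex p (h ^ 2) + ex p (g ^ 2) := by
  have h0 : ex p (h * g) = 0 := by
    rw [← hh, av_symm, hg, mul_zero]
    simp [ex]
  have : (h + g) ^ 2 = (h ^ 2 + g ^ 2) + (h * g + h * g) := by ring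
  rw [this, ex_add, ex_add, ex_add, h0]
  ring

end Basic

section Window

variable {ι α κ : Type*} [Fintype ι] [DecidableEq ι] [Fintype α] [DecidableEq κ]

/-- centred function of a window -/
noncomputable def Yw (p : ι → α → ℝ) (A : κ → Finset ι) (s : Finset κ) (f : (ι → α) → ℝ) :
    (ι → α) → ℝ := f - av p (s.biUnion A) f

/-- first order part of a sub-box -/
noncomputable def ph (p : ι → α → ℝ) (A : κ → Finset ι) (s : Finset κ) (f : (ι → α) → ℝ)
    (i : κ) : (ι → α) → ℝ := av p ((s.erase i).biUnion A) f - av p (s.biUnion A) f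

/-- second order part of a window -/
noncomputable def Zw (p : ι → α → ℝ) (A : κ → Finset ι) (s : Finset κ) (f : (ι → α) → ℝ) :
    (ι → α) → ℝ := Yw p A s f - ∑ i ∈ s, ph p A s f i

theorem window (p : ι → α → ℝ) (hp : ∀ i a, 0 ≤ p i a) (hp1 : ∀ i, ∑ a, p i a = 1)
    (A : κ → Finset ι) (s : Finset κ) :
    ∀ f : (ι → α) → ℝ, ex p (Yw p A s f ^ 2) + ex p (Zw p A s f ^ 2)
      ≤ ∑ i ∈ s, ex p ((f - av p (A i) f) ^ 2) := by
  induction s using Finset.induction_on with
  | empty =>
    intro f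
    have h1 : Yw p A ∅ f = 0 := by
      simp only [Yw, biUnion_empty, av_empty p hp1, sub_self]
    have h2 : Zw p A ∅ f = 0 := by
      simp only [Zw, h1, sum_empty, sub_self]
    rw [h1, h2]
    simp [ex]
  | insert a s ha ih =>
    intro f
    set R := av p (A a) f with hR
    set g := f - R with hg
    have hRR : av p (A a) R = R := av_idem p hp1 _ _
    have hRg : av p (A a) g = 0 := by
      rw [hg, av_sub, hRR, ← hR, sub_self]
    have hT : ∀ t : Finset κ, ∀ h : (ι → α) → ℝ,
        av p ((insert a t).biUnion A) h = av p (t.biUnion A) (av p (A a) h) := by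
      intro t h
      rw [biUnion_insert, av_av p hp1, union_comm]
    have hY : Yw p A (insert a s) f = Yw p A s R + g := by
      unfold Yw
      rw [hT, ← hR, hg]
      ring
    have hfix : ∀ t : Finset κ, av p (A a) (av p (t.biUnion A) R) = av p (t.biUnion A) R := by
      intro t
      rw [av_comm p hp1, hRR]
    have hYR : av p (A a) (Yw p A s R) = Yw p A s R := by
      unfold Yw
      rw [av_sub, hfix, hRR]
    have hph : ∀ i ∈ s, ph p A (insert a s) f i = ph p A s R i := by
      intro i hi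
      have hia : a ≠ i := fun h => ha (h ▸ hi)
      unfold ph
      rw [erase_insert_of_ne hia, hT, hT, ← hR]
    have hpa : ph p A (insert a s) f a = av p (s.biUnion A) g := by
      unfold ph
      rw [erase_insert ha, hT, ← hR, hg, av_sub]
    have hZ : Zw p A (insert a s) f = Zw p A s R + (g - av p (s.biUnion A) g) := by
      unfold Zw
      rw [hY, sum_insert ha, hpa, sum_congr rfl hph]
      ring
    have hZR : av p (A a) (Zw p A s R) = Zw p A s R := by
      unfold Zw
      rw [av_sub, hYR, av_sum]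
      congr 1
      refine sum_congr rfl fun i _ => ?_
      unfold ph
      rw [av_sub, hfix, hfix]
    have hg0 : av p (A a) (g - av p (s.biUnion A) g) = 0 := by
      rw [av_sub, hRg, av_comm p hp1, hRg, av_zero, sub_self]
    rw [hY, hZ, orth p (A a) _ _ hYR hRg, orth p (A a) _ _ hZR hg0, sum_insert ha]
    have hsum : ∑ i ∈ s, ex p ((f - av p (A i) f) ^ 2)
        = ∑ i ∈ s, ex p ((R - av p (A i) R) ^ 2) + ∑ i ∈ s, ex p ((g - av p (A i) g) ^ 2) := by
      rw [← sum_add_distrib]
      refine sum_congr rfl fun i _ => ?_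
      have h1 : f - av p (A i) f = (R - av p (A i) R) + (g - av p (A i) g) := by
        have : f = R + g := by rw [hg]; ring
        conv_lhs => rw [this, av_add]
        ring
      rw [h1]
      refine orth p (A a) _ _ ?_ ?_
      · rw [av_sub, hRR, av_comm p hp1, hRR]
      · rw [av_sub, hRg, av_comm p hp1, hRg, av_zero, sub_self]
    rw [hsum]
    have h1 := ih R
    have h2 := ih g
    have h3 : 0 ≤ ex p (Zw p A s g ^ 2) := ex_nonneg p hp _ fun w => by
      simp only [Pi.pow_apply]; positivity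
    have h4 : Yw p A s g = g - av p (s.biUnion A) g := rfl
    rw [h4] at h2
    have h5 : f - av p (A a) f = g := by rw [hg, hR]
    rw [h5]
    linarith

end Window

section Indep

variable {ι α κ : Type*} [Fintype ι] [DecidableEq ι] [Fintype α] [DecidableEq κ]

/-- the function does not depend on the coordinates in `A` -/
def ND (A : Finset ι) (g : (ι → α) → ℝ) : Prop := ∀ u w, g (mix A u w) = g w

theorem nd_av_self (p : ι → α → ℝ) (A : Finset ι) (g : (ι → α) → ℝ) :
    ND A (av p A g) := by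
  intro u w
  unfold av
  refine sum_congr rfl fun v _ => ?_
  congr 2
  funext i
  by_cases h1 : i ∈ A <;> simp [mix, h1]

theorem nd_av (p : ι → α → ℝ) (A B : Finset ι) (g : (ι → α) → ℝ) (hg : ND A g) :
    ND A (av p B g) := by
  intro u w
  unfold av
  refine sum_congr rfl fun v _ => ?_
  congr 1
  have h1 : mix B v (mix A u w) = mix A (mix B v u) (mix B v w) := by
    funext i
    by_cases h1 : i ∈ A <;> by_cases h2 : i ∈ B <;> simp [mix, h1, h2]
  rw [h1]
  exact hg _ _

omit [Fintype ι] [Fintype α] in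
theorem nd_mono (A B : Finset ι) (h : A ⊆ B) (g : (ι → α) → ℝ) (hg : ND B g) : ND A g := by
  intro u w
  have h1 : mix A u w = mix B (mix A u w) w := by
    funext i
    by_cases h1 : i ∈ A
    · simp [mix, h1, h h1]
    · simp [mix, h1]
  rw [h1]
  exact hg _ _

theorem av_nd (p : ι → α → ℝ) (hp1 : ∀ i, ∑ a, p i a = 1) (A : Finset ι)
    (g : (ι → α) → ℝ) (hg : ND A g) : av p A g = g := by
  funext w
  unfold av
  have : ∀ u, pw p u * g (mix A u w) = pw p u * g w := fun u => by rw [hg]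
  rw [sum_congr rfl fun u _ => this u, ← sum_mul, pw_sum p hp1, one_mul]

theorem av_mul_nd (p : ι → α → ℝ) (A : Finset ι) (g h : (ι → α) → ℝ) (hg : ND A g) :
    av p A (g * h) = g * av p A h := by
  funext w
  simp only [av, Pi.mul_apply, mul_sum]
  refine sum_congr rfl fun u _ => ?_
  rw [hg]
  ring

theorem av_prod (p : ι → α → ℝ) (hp1 : ∀ i, ∑ a, p i a = 1) (A : κ → Finset ι) (s : Finset κ)
    (g : κ → (ι → α) → ℝ) (hg : ∀ i ∈ s, ND ((s.erase i).biUnion A) (g i)) :
    ∀ t : Finset κ, t ⊆ s →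
      av p (s.biUnion A) (∏ i ∈ t, g i) = ∏ i ∈ t, av p (s.biUnion A) (g i) := by
  intro t
  induction t using Finset.induction_on with
  | empty =>
    intro _
    rw [prod_empty, prod_empty]
    funext w
    simp only [av, Pi.one_apply, mul_one]
    exact pw_sum p hp1
  | insert a t ha ih =>
    intro hts
    have has : a ∈ s := hts (mem_insert_self a t)
    have hts' : t ⊆ s := fun x hx => hts (mem_insert_of_mem hx)
    set W := (s.erase a).biUnion A with hW
    set U := s.biUnion A with hU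
    have hUW : U = A a ∪ W := by
      rw [hU, hW, ← biUnion_insert, insert_erase has]
    have hAU : A a ⊆ U := by rw [hUW]; exact subset_union_left
    set P := ∏ i ∈ t, g i with hP
    have hPn : ND (A a) P := by
      intro u w
      rw [hP, Finset.prod_apply, Finset.prod_apply]
      refine prod_congr rfl fun i hi => ?_
      have hne : a ≠ i := fun h => ha (h ▸ hi)
      refine nd_mono (A a) ((s.erase i).biUnion A) ?_ (g i) (hg i (hts' hi)) u w
      exact subset_biUnion_of_mem A (mem_erase.2 ⟨hne, has⟩)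
    have h1 : av p U P = av p W P := by
      rw [hUW, union_comm, ← av_av p hp1, av_nd p hp1 (A a) P hPn]
    have h2 : av p U (g a) = av p (A a) (g a) := by
      rw [hUW, ← av_av p hp1, av_nd p hp1 W (g a) (hg a has)]
    have h3 : ND (A a) (av p U P) := nd_mono _ _ hAU _ (nd_av_self p U P)
    rw [prod_insert ha, prod_insert ha, ← hP, ← ih hts']
    calc av p U (g a * P) = av p (A a) (av p W (g a * P)) := by rw [hUW, av_av p hp1]
      _ = av p (A a) (g a * av p U P) := by rw [av_mul_nd p W _ _ (hg a has), h1]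
      _ = av p (A a) (av p U P * g a) := by rw [mul_comm]
      _ = av p U P * av p (A a) (g a) := av_mul_nd p _ _ _ h3
      _ = av p U (g a) * av p U P := by rw [h2, mul_comm]

end Indep

section Exp

/-- sums of independent bounded centred variables exceed twice their standard bound with positive
probability; the consequence needed below -/
theorem indep_sum {Ω κ : Type*} [Fintype Ω] (P : Ω → ℝ) (hP : ∀ ω, 0 ≤ P ω)
    (hP1 : ∑ ω, P ω = 1) (s : Finset κ) (Z : κ → Ω → ℝ) (Y : Ω → ℝ) (l τ : ℝ)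
    (hl : 0 < l) (hτ : 0 < τ) (hτ1 : τ ≤ 1)
    (hmean : ∀ i ∈ s, ∑ ω, P ω * Z i ω = 0)
    (hb : ∀ i ∈ s, ∀ ω, |Z i ω| ≤ τ / 24 * l)
    (hind : ∀ c : ℝ, ∑ ω, P ω * ∏ i ∈ s, Real.exp (c * Z i ω)
      = ∏ i ∈ s, ∑ ω, P ω * Real.exp (c * Z i ω))
    (hvar : ∑ ω, P ω * (∑ i ∈ s, Z i ω) ^ 2 = ∑ i ∈ s, ∑ ω, P ω * Z i ω ^ 2)
    (hY : ∀ ω, |Y ω| ≤ l) :
    ∑ ω, P ω * (∑ i ∈ s, Z i ω) ^ 2
      ≤ τ * l ^ 2 + 16 * Real.exp (504 / τ) * ∑ ω, P ω * (Y ω - ∑ i ∈ s, Z i ω) ^ 2 := by
  set V := ∑ ω, P ω * (∑ i ∈ s, Z i ω) ^ 2 with hV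
  set D := ∑ ω, P ω * (Y ω - ∑ i ∈ s, Z i ω) ^ 2 with hD
  have hD0 : 0 ≤ D := sum_nonneg fun ω _ => mul_nonneg (hP ω) (sq_nonneg _)
  have hE1 : 1 ≤ Real.exp (504 / τ) := Real.one_le_exp (by positivity)
  rcases le_or_gt V (τ * l ^ 2) with hsmall | hbig
  · have : 0 ≤ 16 * Real.exp (504 / τ) * D := by positivity
    linarith
  -- `V ≤ 2 l² + 2 D`
  have hVD : V ≤ 2 * l ^ 2 + 2 * D := by
    have h1 : V ≤ ∑ ω, (P ω * (2 * l ^ 2) + 2 * (P ω * (Y ω - ∑ i ∈ s, Z i ω) ^ 2)) := by
      refine sum_le_sum fun ω _ => ?_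
      have h2 : Y ω ^ 2 ≤ l ^ 2 := sq_le_sq' (by linarith [(abs_le.1 (hY ω)).1]) (abs_le.1 (hY ω)).2
      have h3 : (∑ i ∈ s, Z i ω) ^ 2 ≤ 2 * l ^ 2 + 2 * (Y ω - ∑ i ∈ s, Z i ω) ^ 2 := by
        nlinarith [sq_nonneg (2 * Y ω - ∑ i ∈ s, Z i ω)]
      have h4 := mul_le_mul_of_nonneg_left h3 (hP ω)
      linarith
    rw [sum_add_distrib, ← sum_mul, hP1, ← mul_sum, ← hD] at h1
    linarith
  rcases le_or_gt (l ^ 2) D with hDl | hDl
  · have h1 : 16 * 1 * D ≤ 16 * Real.exp (504 / τ) * D :=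
      mul_le_mul_of_nonneg_right (by linarith) hD0
    nlinarith [mul_pos hτ (pow_pos hl 2)]
  have hV4 : V ≤ 4 * l ^ 2 := by linarith
  have hl2 : 0 < l ^ 2 := pow_pos hl 2
  have hVpos : 0 < V := lt_of_le_of_lt (by positivity) hbig
  set r := l ^ 2 / V with hr
  have hr4 : 1 / 4 ≤ r := by rw [hr, le_div_iff₀ hVpos]; linarith
  have hrt : r ≤ 1 / τ := by
    rw [hr, div_le_div_iff₀ hVpos hτ]; linarith
  have hr0 : 0 < r := by linarith
  set c := 12 * l / V with hc
  have hc0 : 0 < c := by rw [hc]; positivity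
  have hcl : c * l = 12 * r := by rw [hc, hr]; ring
  have hc2V : c ^ 2 * V = 144 * r := by
    rw [hc, hr]; field_simp; ring
  have hcb : ∀ i ∈ s, ∀ ω, |c * Z i ω| ≤ 1 / 2 := by
    intro i hi ω
    rw [abs_mul, abs_of_pos hc0]
    calc c * |Z i ω| ≤ c * (τ / 24 * l) := mul_le_mul_of_nonneg_left (hb i hi ω) hc0.le
      _ = τ / 24 * (c * l) := by ring
      _ = τ / 24 * (12 * r) := by rw [hcl]
      _ ≤ τ / 24 * (12 * (1 / τ)) := by gcongr
      _ = 1 / 2 := by field_simp; norm_num
  set v : κ → ℝ := fun i => ∑ ω, P ω * Z i ω ^ 2 with hv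
  have hv0 : ∀ i, 0 ≤ v i := fun i => sum_nonneg fun ω _ => mul_nonneg (hP ω) (sq_nonneg _)
  have hVv : V = ∑ i ∈ s, v i := hvar
  have hlow : ∀ i ∈ s, Real.exp (c ^ 2 * v i / 4) ≤ ∑ ω, P ω * Real.exp (c * Z i ω) := by
    intro i hi
    have h1 : 1 + c ^ 2 * v i / 3 ≤ ∑ ω, P ω * Real.exp (c * Z i ω) := by
      have h2 : ∀ ω, P ω * (1 + c * Z i ω + (c * Z i ω) ^ 2 / 3)
          ≤ P ω * Real.exp (c * Z i ω) := by
        intro ω
        refine mul_le_mul_of_nonneg_left ?_ (hP ω)
        have h3 := hcb i hi ω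
        have h4 := Real.exp_bound (x := c * Z i ω) (by linarith) (n := 3) (by norm_num)
        have h5 := (abs_le.1 h4).1
        norm_num [Finset.sum_range_succ, Nat.factorial] at h5
        have h6 : |c * Z i ω| ^ 3 ≤ 1 / 2 * (c * Z i ω) ^ 2 := by
          have h7 : |c * Z i ω| ^ 3 = |c * Z i ω| * (c * Z i ω) ^ 2 := by
            rw [← sq_abs (c * Z i ω)]; ring
          rw [h7]
          exact mul_le_mul_of_nonneg_right h3 (sq_nonneg _)
        have h8 : 0 ≤ (c * Z i ω) ^ 2 := sq_nonneg _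
        rw [abs_mul] at h6
        nlinarith
      calc 1 + c ^ 2 * v i / 3
          = ∑ ω, P ω * (1 + c * Z i ω + (c * Z i ω) ^ 2 / 3) := by
            have : ∀ ω, P ω * (1 + c * Z i ω + (c * Z i ω) ^ 2 / 3)
              = P ω + c * (P ω * Z i ω) + c ^ 2 / 3 * (P ω * Z i ω ^ 2) := fun ω => by ring
            rw [sum_congr rfl fun ω _ => this ω, sum_add_distrib, sum_add_distrib, ← mul_sum,
              ← mul_sum, hP1, hmean i hi]
            simp only [hv]
            ring
        _ ≤ _ := sum_le_sum fun ω _ => h2 ω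
    refine le_trans ?_ h1
    have hcv : c ^ 2 * v i ≤ 1 / 4 := by
      have : c ^ 2 * v i = ∑ ω, P ω * (c * Z i ω) ^ 2 := by
        simp only [hv, mul_sum]
        exact sum_congr rfl fun ω _ => by ring
      rw [this]
      calc ∑ ω, P ω * (c * Z i ω) ^ 2 ≤ ∑ ω, P ω * (1 / 4) := by
            refine sum_le_sum fun ω _ => mul_le_mul_of_nonneg_left ?_ (hP ω)
            have h3 := hcb i hi ω
            rw [← sq_abs]
            nlinarith [abs_nonneg (c * Z i ω)]
        _ = 1 / 4 := by rw [← sum_mul, hP1, one_mul]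
    have hy0 : 0 ≤ c ^ 2 * v i := mul_nonneg (sq_nonneg _) (hv0 i)
    have h9 := Real.abs_exp_sub_one_sub_id_le (x := c ^ 2 * v i / 4) (by
      rw [abs_of_nonneg (by positivity)]; linarith)
    have h10 := (abs_le.1 h9).2
    nlinarith
  have hupp : ∀ i ∈ s, ∑ ω, P ω * Real.exp (2 * c * Z i ω) ≤ Real.exp (4 * c ^ 2 * v i) := by
    intro i hi
    calc ∑ ω, P ω * Real.exp (2 * c * Z i ω)
        ≤ ∑ ω, P ω * (1 + 2 * c * Z i ω + (2 * c * Z i ω) ^ 2) := by
          refine sum_le_sum fun ω _ => mul_le_mul_of_nonneg_left ?_ (hP ω)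
          have h3 := hcb i hi ω
          have h2c : |2 * c * Z i ω| ≤ 1 := by
            rw [mul_assoc, abs_mul, abs_two]; linarith
          have h4 := Real.abs_exp_sub_one_sub_id_le h2c
          have h5 := (abs_le.1 h4).2
          linarith
      _ = 1 + 4 * c ^ 2 * v i := by
          have : ∀ ω, P ω * (1 + 2 * c * Z i ω + (2 * c * Z i ω) ^ 2)
            = P ω + 2 * c * (P ω * Z i ω) + 4 * c ^ 2 * (P ω * Z i ω ^ 2) := fun ω => by ring
          rw [sum_congr rfl fun ω _ => this ω, sum_add_distrib, sum_add_distrib, ← mul_sum,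
            ← mul_sum, hP1, hmean i hi]
          simp only [hv]
          ring
      _ ≤ Real.exp (4 * c ^ 2 * v i) := by
          have := Real.add_one_le_exp (4 * c ^ 2 * v i)
          linarith
  have hElow : Real.exp (36 * r) ≤ ∑ ω, P ω * Real.exp (c * ∑ i ∈ s, Z i ω) := by
    have h1 : ∑ ω, P ω * Real.exp (c * ∑ i ∈ s, Z i ω)
        = ∏ i ∈ s, ∑ ω, P ω * Real.exp (c * Z i ω) := by
      rw [← hind c]
      refine sum_congr rfl fun ω _ => ?_
      rw [mul_sum, Real.exp_sum]
    rw [h1]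
    have h2 : Real.exp (36 * r) = ∏ i ∈ s, Real.exp (c ^ 2 * v i / 4) := by
      rw [← Real.exp_sum]
      congr 1
      rw [← sum_div, ← mul_sum, ← hVv, hc2V]
      ring
    rw [h2]
    exact prod_le_prod (fun i _ => (Real.exp_pos _).le) hlow
  have hEupp : ∑ ω, P ω * Real.exp (2 * c * ∑ i ∈ s, Z i ω) ≤ Real.exp (576 * r) := by
    have h1 : ∑ ω, P ω * Real.exp (2 * c * ∑ i ∈ s, Z i ω)
        = ∏ i ∈ s, ∑ ω, P ω * Real.exp (2 * c * Z i ω) := by
      rw [← hind (2 * c)]
      refine sum_congr rfl fun ω _ => ?_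
      rw [mul_sum, Real.exp_sum]
    rw [h1]
    have h2 : Real.exp (576 * r) = ∏ i ∈ s, Real.exp (4 * c ^ 2 * v i) := by
      rw [← Real.exp_sum]
      congr 1
      rw [← mul_sum, ← hVv, mul_assoc, hc2V]
      ring
    rw [h2]
    refine prod_le_prod (fun i _ => ?_) hupp
    exact sum_nonneg fun ω _ => mul_nonneg (hP ω) (Real.exp_pos _).le
  -- the event
  set S : Ω → ℝ := fun ω => ∑ i ∈ s, Z i ω with hS
  set Q := ∑ ω, (if 2 * l < S ω then P ω else 0) with hQ
  have hQD : l ^ 2 * Q ≤ D := by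
    rw [hQ, hD, mul_sum]
    refine sum_le_sum fun ω _ => ?_
    split_ifs with h
    · have h1 := (abs_le.1 (hY ω)).2
      have h2 : l ≤ S ω - Y ω := by linarith
      have h3 : l ^ 2 ≤ (Y ω - S ω) ^ 2 := by nlinarith
      calc l ^ 2 * P ω = P ω * l ^ 2 := by ring
        _ ≤ _ := mul_le_mul_of_nonneg_left h3 (hP ω)
    · rw [mul_zero]; exact mul_nonneg (hP ω) (sq_nonneg _)
  have hQ0 : 0 ≤ Q := sum_nonneg fun ω _ => by split_ifs; exacts [hP ω, le_rfl]
  have hmid : Real.exp (36 * r) / 2 ≤ ∑ ω, (if 2 * l < S ω then P ω * Real.exp (c * S ω) else 0) := by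
    have h1 : ∑ ω, P ω * Real.exp (c * S ω)
        ≤ ∑ ω, ((if 2 * l < S ω then P ω * Real.exp (c * S ω) else 0) + P ω * Real.exp (24 * r)) := by
      refine sum_le_sum fun ω _ => ?_
      split_ifs with h
      · have := mul_nonneg (hP ω) (Real.exp_pos (24 * r)).le
        linarith
      · rw [zero_add]
        refine mul_le_mul_of_nonneg_left (Real.exp_le_exp.2 ?_) (hP ω)
        calc c * S ω ≤ c * (2 * l) := mul_le_mul_of_nonneg_left (not_lt.1 h) hc0.le
          _ = 2 * (c * l) := by ring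
          _ = 24 * r := by rw [hcl]; ring
    rw [sum_add_distrib, ← sum_mul, hP1, one_mul] at h1
    have h2 : 2 * Real.exp (24 * r) ≤ Real.exp (36 * r) := by
      have h3 : Real.exp (36 * r) = Real.exp (12 * r) * Real.exp (24 * r) := by
        rw [← Real.exp_add]; congr 1; ring
      rw [h3]
      have h4 : 2 ≤ Real.exp (12 * r) := by
        have := Real.add_one_le_exp (12 * r)
        linarith
      exact mul_le_mul_of_nonneg_right h4 (Real.exp_pos _).le
    linarith
  have hCS : (∑ ω, (if 2 * l < S ω then P ω * Real.exp (c * S ω) else 0)) ^ 2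
      ≤ Q * Real.exp (576 * r) := by
    have h1 := Finset.sum_mul_sq_le_sq_mul_sq univ
      (fun ω => if 2 * l < S ω then Real.sqrt (P ω) else 0)
      (fun ω => Real.sqrt (P ω) * Real.exp (c * S ω))
    have h2 : ∀ ω, (if 2 * l < S ω then Real.sqrt (P ω) else 0)
        * (Real.sqrt (P ω) * Real.exp (c * S ω))
        = if 2 * l < S ω then P ω * Real.exp (c * S ω) else 0 := by
      intro ω
      split_ifs
      · rw [← mul_assoc, Real.mul_self_sqrt (hP ω)]
      · rw [zero_mul]
    have h3 : ∀ ω, (if 2 * l < S ω then Real.sqrt (P ω) else 0) ^ 2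
        = if 2 * l < S ω then P ω else 0 := by
      intro ω
      split_ifs
      · rw [Real.sq_sqrt (hP ω)]
      · norm_num
    have h4 : ∀ ω, (Real.sqrt (P ω) * Real.exp (c * S ω)) ^ 2
        = P ω * Real.exp (2 * c * S ω) := by
      intro ω
      rw [mul_pow, Real.sq_sqrt (hP ω), ← Real.exp_nat_mul]
      congr 2
      push_cast
      ring
    rw [sum_congr rfl fun ω _ => h2 ω, sum_congr rfl fun ω _ => h3 ω,
      sum_congr rfl fun ω _ => h4 ω] at h1
    refine h1.trans ?_
    exact mul_le_mul_of_nonneg_left hEupp hQ0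
  have hQlow : Real.exp (-(504 / τ)) / 4 ≤ Q := by
    have h1 : (Real.exp (36 * r) / 2) ^ 2 ≤ Q * Real.exp (576 * r) :=
      (pow_le_pow_left₀ (by positivity) hmid 2).trans hCS
    have h2 : (Real.exp (36 * r) / 2) ^ 2 = Real.exp (-(504 * r)) / 4 * Real.exp (576 * r) := by
      rw [div_pow, ← Real.exp_nat_mul, div_mul_eq_mul_div, ← Real.exp_add]
      norm_num
      ring
    rw [h2] at h1
    have h3 := le_of_mul_le_mul_right h1 (Real.exp_pos _)
    refine le_trans ?_ h3
    have h4 : Real.exp (-(504 / τ)) ≤ Real.exp (-(504 * r)) := by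
      refine Real.exp_le_exp.2 (neg_le_neg ?_)
      calc 504 * r ≤ 504 * (1 / τ) := by linarith
        _ = 504 / τ := by ring
    linarith
  have hfin : l ^ 2 ≤ 4 * Real.exp (504 / τ) * D := by
    have h1 : l ^ 2 * (Real.exp (-(504 / τ)) / 4) ≤ D :=
      (mul_le_mul_of_nonneg_left hQlow hl2.le).trans hQD
    have h2 : 4 * Real.exp (504 / τ) * (l ^ 2 * (Real.exp (-(504 / τ)) / 4)) = l ^ 2 := by
      have h3 : Real.exp (504 / τ) * Real.exp (-(504 / τ)) = 1 := by
        rw [← Real.exp_add]; simp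
      calc _ = l ^ 2 * (Real.exp (504 / τ) * Real.exp (-(504 / τ))) := by ring
        _ = l ^ 2 := by rw [h3, mul_one]
    calc l ^ 2 = 4 * Real.exp (504 / τ) * (l ^ 2 * (Real.exp (-(504 / τ)) / 4)) := h2.symm
      _ ≤ 4 * Real.exp (504 / τ) * D := mul_le_mul_of_nonneg_left h1 (by positivity)
  have : 0 < τ * l ^ 2 := by positivity
  nlinarith

end Exp

section Local

variable {ι α κ : Type*} [Fintype ι] [DecidableEq ι] [Fintype α] [DecidableEq κ]

theorem abs_av_le (p : ι → α → ℝ) (hp : ∀ i a, 0 ≤ p i a) (hp1 : ∀ i, ∑ a, p i a = 1)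
    (A : Finset ι) (g : (ι → α) → ℝ) (b : ℝ) (hg : ∀ w, |g w| ≤ b) (w : ι → α) :
    |av p A g w| ≤ b := by
  unfold av
  calc |∑ u, pw p u * g (mix A u w)| ≤ ∑ u, |pw p u * g (mix A u w)| := abs_sum_le_sum_abs _ _
    _ ≤ ∑ u, pw p u * b := by
        refine sum_le_sum fun u _ => ?_
        rw [abs_mul, abs_of_nonneg (pw_nonneg p hp u)]
        exact mul_le_mul_of_nonneg_left (hg _) (pw_nonneg p hp u)
    _ = b := by rw [← sum_mul, pw_sum p hp1, one_mul]

theorem abs_sub_av (p : ι → α → ℝ) (hp : ∀ i a, 0 ≤ p i a) (hp1 : ∀ i, ∑ a, p i a = 1)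
    (A : Finset ι) (X : (ι → α) → ℝ) (b : ℝ)
    (hX : ∀ ω ω' : ι → α, (∀ i, i ∉ A → ω i = ω' i) → |X ω - X ω'| ≤ b) (w : ι → α) :
    |(X - av p A X) w| ≤ b := by
  have h1 : (X - av p A X) w = ∑ u, pw p u * (X w - X (mix A u w)) := by
    simp only [Pi.sub_apply, av, mul_sub, sum_sub_distrib]
    rw [← sum_mul, pw_sum p hp1, one_mul]
  rw [h1]
  calc |∑ u, pw p u * (X w - X (mix A u w))| ≤ ∑ u, |pw p u * (X w - X (mix A u w))| :=
        abs_sum_le_sum_abs _ _
    _ ≤ ∑ u, pw p u * b := by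
        refine sum_le_sum fun u _ => ?_
        rw [abs_mul, abs_of_nonneg (pw_nonneg p hp u)]
        refine mul_le_mul_of_nonneg_left (hX _ _ fun i hi => ?_) (pw_nonneg p hp u)
        simp [mix, hi]
    _ = b := by rw [← sum_mul, pw_sum p hp1, one_mul]

theorem ph_eq (p : ι → α → ℝ) (hp1 : ∀ i, ∑ a, p i a = 1) (A : κ → Finset ι) (s : Finset κ)
    (f : (ι → α) → ℝ) (i : κ) (hi : i ∈ s) :
    ph p A s f i = av p ((s.erase i).biUnion A) (f - av p (A i) f) := by
  unfold ph
  rw [av_sub, av_av p hp1, union_comm, ← biUnion_insert, insert_erase hi]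

theorem nd_ph (p : ι → α → ℝ) (A : κ → Finset ι) (s : Finset κ)
    (f : (ι → α) → ℝ) (i : κ) :
    ND ((s.erase i).biUnion A) (ph p A s f i) := by
  intro u w
  have h1 := nd_av_self p ((s.erase i).biUnion A) f u w
  have h2 := nd_mono ((s.erase i).biUnion A) (s.biUnion A)
    (biUnion_subset_biUnion_of_subset_left A (erase_subset i s)) _
    (nd_av_self p (s.biUnion A) f) u w
  simp only [ph, Pi.sub_apply]
  rw [h1, h2]

theorem av_ph (p : ι → α → ℝ) (hp1 : ∀ i, ∑ a, p i a = 1) (A : κ → Finset ι) (s : Finset κ)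
    (f : (ι → α) → ℝ) (i : κ) : av p (s.biUnion A) (ph p A s f i) = 0 := by
  unfold ph
  rw [av_sub, av_av p hp1, av_av p hp1, union_self,
    union_eq_left.2 (biUnion_subset_biUnion_of_subset_left A (erase_subset i s)), sub_self]

/-- the estimate in one window -/
theorem local_bound (p : ι → α → ℝ) (hp : ∀ i a, 0 ≤ p i a) (hp1 : ∀ i, ∑ a, p i a = 1)
    (A : κ → Finset ι) (s : Finset κ) (X : (ι → α) → ℝ) (l τ : ℝ)
    (hl : 0 < l) (hτ : 0 < τ) (hτ1 : τ ≤ 1)
    (hX : ∀ ω ω' : ι → α, (∀ i, i ∉ s.biUnion A → ω i = ω' i) → |X ω - X ω'| ≤ l)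
    (hXi : ∀ c ∈ s, ∀ ω ω' : ι → α, (∀ i, i ∉ A c → ω i = ω' i) → |X ω - X ω'| ≤ τ / 24 * l) :
    ex p (Yw p A s X ^ 2)
      ≤ 2 * τ * l ^ 2 + (32 * Real.exp (504 / τ) + 2) * ex p (Zw p A s X ^ 2) := by
  set U := s.biUnion A with hU
  set S : (ι → α) → ℝ := ∑ i ∈ s, ph p A s X i with hS
  have hnd : ∀ i ∈ s, ND ((s.erase i).biUnion A) (ph p A s X i) := fun i _ => nd_ph p A s X i
  have hloc : ∀ w, av p U (S ^ 2) w
      ≤ τ * l ^ 2 + 16 * Real.exp (504 / τ) * av p U (Zw p A s X ^ 2) w := by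
    intro w
    have h := indep_sum (pw p) (pw_nonneg p hp) (pw_sum p hp1) s
      (fun i u => ph p A s X i (mix U u w)) (fun u => Yw p A s X (mix U u w)) l τ hl hτ hτ1
      (by
        intro i _
        have := congrFun (av_ph p hp1 A s X i) w
        simpa only [av, Pi.zero_apply] using this)
      (by
        intro i hi u
        rw [ph_eq p hp1 A s X i hi]
        exact abs_av_le p hp hp1 _ _ _ (fun w => abs_sub_av p hp hp1 (A i) X _ (hXi i hi) w) _)
      (by
        intro c
        have h1 := congrFun (av_prod p hp1 A s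
          (fun i ω => Real.exp (c * ph p A s X i ω))
          (fun i hi u w => by simp only; rw [hnd i hi u w]) s (Subset.refl s)) w
        simp only [av, Finset.prod_apply] at h1
        exact h1)
      (by
        have h1 : ∀ i ∈ s, ∀ j ∈ s, i ≠ j →
            av p U (ph p A s X i * ph p A s X j) = 0 := by
          intro i hi j hj hij
          have h2 := av_prod p hp1 A s (fun i => ph p A s X i) hnd {i, j} (by
            intro x hx
            rcases mem_insert.1 hx with h | h
            · exact h ▸ hi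
            · exact (mem_singleton.1 h) ▸ hj)
          rw [prod_pair hij, prod_pair hij, av_ph p hp1, zero_mul] at h2
          exact h2
        have h3 : av p U (S ^ 2) = ∑ i ∈ s, av p U (ph p A s X i ^ 2) := by
          have h4 : S ^ 2 = ∑ i ∈ s, ∑ j ∈ s, ph p A s X i * ph p A s X j := by
            rw [pow_two, hS, sum_mul_sum]
          rw [h4, av_sum]
          refine sum_congr rfl fun i hi => ?_
          rw [av_sum, sum_eq_single i]
          · rw [pow_two]
          · intro j hj hji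
            exact h1 i hi j hj (Ne.symm hji)
          · intro h; exact absurd hi h
        have h5 := congrFun h3 w
        rw [Finset.sum_apply] at h5
        simp only [av, Pi.pow_apply, hS, Finset.sum_apply] at h5
        exact h5)
      (by
        intro u
        exact abs_sub_av p hp hp1 U X l hX _)
    have h6 : av p U (S ^ 2) w
        = ∑ u, pw p u * (∑ i ∈ s, ph p A s X i (mix U u w)) ^ 2 := by
      simp only [av, Pi.pow_apply, hS, Finset.sum_apply]
    have h7 : av p U (Zw p A s X ^ 2) w = ∑ u, pw p u *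
        (Yw p A s X (mix U u w) - ∑ i ∈ s, ph p A s X i (mix U u w)) ^ 2 := by
      simp only [av, Pi.pow_apply, Zw, Pi.sub_apply, Finset.sum_apply]
    rw [h6, h7]
    exact h
  have h1 : ex p (S ^ 2) ≤ τ * l ^ 2 + 16 * Real.exp (504 / τ) * ex p (Zw p A s X ^ 2) := by
    rw [← ex_av p hp1 U (S ^ 2), ← ex_av p hp1 U (Zw p A s X ^ 2)]
    unfold ex
    calc ∑ w, pw p w * av p U (S ^ 2) w
        ≤ ∑ w, (pw p w * (τ * l ^ 2)
          + 16 * Real.exp (504 / τ) * (pw p w * av p U (Zw p A s X ^ 2) w)) := by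
          refine sum_le_sum fun w _ => ?_
          have := mul_le_mul_of_nonneg_left (hloc w) (pw_nonneg p hp w)
          linarith
      _ = _ := by
          rw [sum_add_distrib, ← sum_mul, pw_sum p hp1, one_mul, ← mul_sum]
  have h2 : ex p (Yw p A s X ^ 2) ≤ 2 * ex p (S ^ 2) + 2 * ex p (Zw p A s X ^ 2) := by
    unfold ex
    rw [mul_sum, mul_sum, ← sum_add_distrib]
    refine sum_le_sum fun w _ => ?_
    have h3 : Yw p A s X w = S w + Zw p A s X w := by
      simp only [Zw, Pi.sub_apply, hS]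
      ring
    simp only [Pi.pow_apply]
    rw [h3]
    have h4 := mul_nonneg (pw_nonneg p hp w) (sq_nonneg (S w - Zw p A s X w))
    nlinarith
  nlinarith

end Local

end Pool.Agent.CutSeq.MS

namespace Pool.Agent.CutSeq

open Finset

/-- energy at scale `j` -/
noncomputable def enj {ι S : Type} [Fintype ι] [DecidableEq ι] [Fintype S] (w : S → ℝ)
    (β : ℕ → ι → ℕ × ℕ) (X : (ι → S) → ℝ) (j : ℕ) : ℝ :=
  ∑ c ∈ univ.image (β j),
    MS.ex (fun _ => w) ((X - MS.av (fun _ => w) (univ.filter fun i => β j i = c) X) ^ 2)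

section Step

variable {ι S : Type} [Fintype ι] [DecidableEq ι] [Fintype S] (w : S → ℝ)
  (hw : ∀ s, 0 ≤ w s) (hw1 : ∑ s, w s = 1) (β : ℕ → ι → ℕ × ℕ) (X : (ι → S) → ℝ)

include hw hw1

/-- energies of two scales -/
theorem enj_step (j m : ℕ) (hβ : ∀ i i', β (j + m) i = β (j + m) i' → β j i = β j i')
    (l τ : ℝ) (hl : 0 < l) (hτ : 0 < τ) (hτ1 : τ ≤ 1)
    (hX : ∀ c, ∀ ω ω' : ι → S, (∀ i, β j i ≠ c → ω i = ω' i) → |X ω - X ω'| ≤ l)
    (hXm : ∀ c, ∀ ω ω' : ι → S, (∀ i, β (j + m) i ≠ c → ω i = ω' i) →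
      |X ω - X ω'| ≤ τ / 24 * l) :
    enj w β X j ≤ enj w β X (j + m) ∧
    enj w β X j ≤ 2 * τ * (l ^ 2 * (univ.image (β j)).card)
      + (32 * Real.exp (504 / τ) + 2) * (enj w β X (j + m) - enj w β X j) := by
  classical
  set p : ι → S → ℝ := fun _ => w with hpdef
  have hp : ∀ i a, 0 ≤ p i a := fun _ a => hw a
  have hp1 : ∀ i, ∑ a, p i a = 1 := fun _ => hw1
  set bx : ℕ × ℕ → Finset ι := fun c => univ.filter fun i => β (j + m) i = c with hbx
  set par : ℕ × ℕ → ℕ × ℕ := fun d => if h : ∃ i, β (j + m) i = d then β j h.choose else d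
    with hpar
  have hparβ : ∀ i, par (β (j + m) i) = β j i := by
    intro i
    have h : ∃ i', β (j + m) i' = β (j + m) i := ⟨i, rfl⟩
    simp only [hpar]
    rw [dif_pos h]
    exact hβ _ _ h.choose_spec
  set ch : ℕ × ℕ → Finset (ℕ × ℕ) := fun c => (univ.image (β (j + m))).filter fun d => par d = c
    with hch
  have hU : ∀ c, (ch c).biUnion bx = univ.filter fun i => β j i = c := by
    intro c
    ext i
    simp only [mem_biUnion, hch, hbx, mem_filter, mem_image, mem_univ, true_and]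
    constructor
    · rintro ⟨d, ⟨⟨i', hi'⟩, hd⟩, hid⟩
      rw [← hid, hparβ] at hd
      exact hd
    · intro hi
      exact ⟨β (j + m) i, ⟨⟨i, rfl⟩, by rw [hparβ, hi]⟩, rfl⟩
  have hmaps : ∀ d ∈ univ.image (β (j + m)), par d ∈ univ.image (β j) := by
    intro d hd
    obtain ⟨i, _, rfl⟩ := mem_image.1 hd
    rw [hparβ]
    exact mem_image_of_mem _ (mem_univ i)
  have hsplit : enj w β X (j + m)
      = ∑ c ∈ univ.image (β j), ∑ d ∈ ch c, MS.ex p ((X - MS.av p (bx d) X) ^ 2) := by
    unfold enj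
    rw [← sum_fiberwise_of_maps_to hmaps]
  have hY : ∀ c, MS.Yw p bx (ch c) X = X - MS.av p (univ.filter fun i => β j i = c) X := by
    intro c
    unfold MS.Yw
    rw [hU]
  have hj : enj w β X j = ∑ c ∈ univ.image (β j), MS.ex p (MS.Yw p bx (ch c) X ^ 2) := by
    unfold enj
    exact sum_congr rfl fun c _ => by rw [hY]
  set D := ∑ c ∈ univ.image (β j), MS.ex p (MS.Zw p bx (ch c) X ^ 2) with hD
  have hD0 : 0 ≤ D := sum_nonneg fun c _ => MS.ex_nonneg p hp _ fun ω => by
    simp only [Pi.pow_apply]; positivity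
  have hwin : enj w β X j + D ≤ enj w β X (j + m) := by
    rw [hj, hsplit, hD, ← sum_add_distrib]
    exact sum_le_sum fun c _ => MS.window p hp hp1 bx (ch c) X
  refine ⟨by linarith, ?_⟩
  have hloc : enj w β X j ≤ 2 * τ * (l ^ 2 * (univ.image (β j)).card)
      + (32 * Real.exp (504 / τ) + 2) * D := by
    rw [hj]
    calc ∑ c ∈ univ.image (β j), MS.ex p (MS.Yw p bx (ch c) X ^ 2)
        ≤ ∑ c ∈ univ.image (β j), (2 * τ * l ^ 2
          + (32 * Real.exp (504 / τ) + 2) * MS.ex p (MS.Zw p bx (ch c) X ^ 2)) := by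
          refine sum_le_sum fun c _ => ?_
          refine MS.local_bound p hp hp1 bx (ch c) X l τ hl hτ hτ1 ?_ ?_
          · intro ω ω' h
            refine hX c ω ω' fun i hi => h i ?_
            rw [hU]
            simpa using hi
          · intro d _ ω ω' h
            refine hXm d ω ω' fun i hi => h i ?_
            simpa [hbx] using hi
      _ = _ := by
          rw [sum_add_distrib, sum_const, nsmul_eq_mul, ← mul_sum]
          ring
  have hc : 0 ≤ 32 * Real.exp (504 / τ) + 2 := by positivity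
  have := mul_le_mul_of_nonneg_left (show D ≤ enj w β X (j + m) - enj w β X j by linarith) hc
  linarith

/-- the energy is at most the number of boxes times the square of the side -/
theorem enj_le (j : ℕ) (l A : ℝ) (hl : 0 < l)
    (hA : ((univ.image (β j)).card : ℝ) ≤ A * 4 ^ j)
    (hX : ∀ c, ∀ ω ω' : ι → S, (∀ i, β j i ≠ c → ω i = ω' i) → |X ω - X ω'| ≤ l / 2 ^ j) :
    enj w β X j ≤ A * l ^ 2 := by
  classical
  set p : ι → S → ℝ := fun _ => w with hpdef
  have hp : ∀ i a, 0 ≤ p i a := fun _ a => hw a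
  have hp1 : ∀ i, ∑ a, p i a = 1 := fun _ => hw1
  unfold enj
  calc ∑ c ∈ univ.image (β j), MS.ex p ((X - MS.av p (univ.filter fun i => β j i = c) X) ^ 2)
      ≤ ∑ c ∈ univ.image (β j), (l / 2 ^ j) ^ 2 := by
        refine sum_le_sum fun c _ => ?_
        unfold MS.ex
        calc ∑ ω, MS.pw p ω * ((X - MS.av p (univ.filter fun i => β j i = c) X) ^ 2) ω
            ≤ ∑ ω, MS.pw p ω * (l / 2 ^ j) ^ 2 := by
              refine sum_le_sum fun ω _ => mul_le_mul_of_nonneg_left ?_ (MS.pw_nonneg p hp ω)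
              have h1 := MS.abs_sub_av p hp hp1 (univ.filter fun i => β j i = c) X (l / 2 ^ j)
                (fun ω ω' h => hX c ω ω' fun i hi => h i (by simpa using hi)) ω
              rw [Pi.pow_apply, ← sq_abs]
              exact pow_le_pow_left₀ (abs_nonneg _) h1 2
          _ = (l / 2 ^ j) ^ 2 := by rw [← sum_mul, MS.pw_sum p hp1, one_mul]
    _ = (univ.image (β j)).card * (l / 2 ^ j) ^ 2 := by rw [sum_const, nsmul_eq_mul]
    _ ≤ A * 4 ^ j * (l / 2 ^ j) ^ 2 := mul_le_mul_of_nonneg_right hA (sq_nonneg _)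
    _ = A * l ^ 2 := by
        have h4 : (4 : ℝ) ^ j = 2 ^ j * 2 ^ j := by rw [← mul_pow]; norm_num
        have h2 : (2 : ℝ) ^ j ≠ 0 := by positivity
        rw [h4]
        field_simp

/-- the variance is at most the energy at scale `0` -/
theorem var_le_enj : ex w (fun ω => (X ω - ex w X) ^ 2) ≤ enj w β X 0 := by
  classical
  set p : ι → S → ℝ := fun _ => w with hpdef
  have hp : ∀ i a, 0 ≤ p i a := fun _ a => hw a
  have hp1 : ∀ i, ∑ a, p i a = 1 := fun _ => hw1
  have h := MS.window p hp hp1 (fun c : ℕ × ℕ => univ.filter fun i => β 0 i = c)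
    (univ.image (β 0)) X
  have hU : (univ.image (β 0)).biUnion (fun c : ℕ × ℕ => univ.filter fun i => β 0 i = c)
      = (univ : Finset ι) := by
    ext i
    simp only [mem_biUnion, mem_image, mem_univ, true_and, mem_filter, iff_true]
    exact ⟨β 0 i, ⟨i, rfl⟩, rfl⟩
  have h0 : 0 ≤ MS.ex p (MS.Zw p (fun c : ℕ × ℕ => univ.filter fun i => β 0 i = c)
      (univ.image (β 0)) X ^ 2) := MS.ex_nonneg p hp _ fun ω => by
    simp only [Pi.pow_apply]; positivity
  have h1 : MS.ex p (MS.Yw p (fun c : ℕ × ℕ => univ.filter fun i => β 0 i = c)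
      (univ.image (β 0)) X ^ 2) = ex w (fun ω => (X ω - ex w X) ^ 2) := by
    unfold MS.Yw
    rw [hU]
    unfold MS.ex ex
    refine sum_congr rfl fun ω _ => ?_
    simp only [Pi.pow_apply, Pi.sub_apply, MS.av_univ]
    rfl
  unfold enj
  linarith

end Step

/-- multiscale concentration: nested boxes `β j`, `j ≤ J`; a change in one box of scale `j` changes
`X` by at most `l / 2 ^ j`; there are at most `A * 4 ^ j` boxes of scale `j`; then the variance is
small compared with `A * l ^ 2` when there are many scales -/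
theorem multiscale (τ : ℝ) (hτ : 0 < τ) : ∃ J₀ : ℕ, ∀ {ι S : Type} [Fintype ι] [DecidableEq ι]
    [Fintype S] (w : S → ℝ), (∀ s, 0 ≤ w s) → ∑ s, w s = 1 → ∀ J : ℕ, J₀ ≤ J →
    ∀ β : ℕ → ι → ℕ × ℕ, (∀ j < J, ∀ i i', β (j + 1) i = β (j + 1) i' → β j i = β j i') →
    ∀ l A : ℝ, 0 < l → 0 ≤ A → (∀ j ≤ J, ((univ.image (β j)).card : ℝ) ≤ A * 4 ^ j) →
    ∀ X : (ι → S) → ℝ,
      (∀ j ≤ J, ∀ c, ∀ ω ω' : ι → S, (∀ i, β j i ≠ c → ω i = ω' i) → |X ω - X ω'| ≤ l / 2 ^ j) →
      ex w (fun ω => (X ω - ex w X) ^ 2) ≤ τ * (A * l ^ 2) := by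
  set t := min τ 1 / 4 with ht
  have ht0 : 0 < t := by rw [ht]; have : 0 < min τ 1 := lt_min hτ one_pos; positivity
  have ht1 : t ≤ 1 := by rw [ht]; have := min_le_right τ 1; linarith
  have htτ : 4 * t ≤ τ := by rw [ht]; have := min_le_left τ 1; linarith
  set C := 32 * Real.exp (504 / t) + 2 with hC
  have hC0 : 0 < C := by rw [hC]; positivity
  obtain ⟨m, hm⟩ := exists_pow_lt_of_lt_one (show 0 < t / 24 by positivity)
    (show (1 / 2 : ℝ) < 1 by norm_num)
  obtain ⟨K, hK⟩ := exists_nat_gt (C / (2 * t))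
  have hK0 : (0 : ℝ) < K := lt_trans (by positivity) hK
  refine ⟨K * m, ?_⟩
  intro ι S _ _ _ w hw hw1 J hJ β hβ l A hl hA hcard X hX
  have hnest : ∀ m' j, j + m' ≤ J → ∀ i i', β (j + m') i = β (j + m') i' → β j i = β j i' := by
    intro m'
    induction m' with
    | zero => intro j _ i i' h; exact h
    | succ m' ih =>
      intro j hj i i' h
      exact ih j (by omega) i i' (hβ (j + m') (by omega) i i' h)
  have hstep : ∀ k < K, enj w β X (k * m) ≤ enj w β X ((k + 1) * m) ∧
      enj w β X (k * m) ≤ 2 * t * (A * l ^ 2)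
        + C * (enj w β X ((k + 1) * m) - enj w β X (k * m)) := by
    intro k hk
    have hkm : k * m + m ≤ J := by
      calc k * m + m = (k + 1) * m := by ring
        _ ≤ K * m := Nat.mul_le_mul_right m hk
        _ ≤ J := hJ
    have hkJ : k * m ≤ J := by omega
    have h2 : (0 : ℝ) < 2 ^ (k * m) := by positivity
    have h := enj_step w hw hw1 β X (k * m) m (hnest m (k * m) hkm) (l / 2 ^ (k * m)) t
      (by positivity) ht0 ht1 (hX (k * m) hkJ) (by
        intro c ω ω' h
        refine (hX (k * m + m) hkm c ω ω' h).trans ?_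
        rw [pow_add]
        calc l / (2 ^ (k * m) * 2 ^ m) = (1 / 2) ^ m * (l / 2 ^ (k * m)) := by
              rw [div_pow, one_pow]; field_simp
          _ ≤ t / 24 * (l / 2 ^ (k * m)) := by
              refine mul_le_mul_of_nonneg_right hm.le (by positivity))
    have h3 : (k + 1) * m = k * m + m := by ring
    rw [h3]
    refine ⟨h.1, h.2.trans ?_⟩
    have h4 : (l / 2 ^ (k * m)) ^ 2 * ((univ.image (β (k * m))).card : ℝ) ≤ A * l ^ 2 := by
      calc (l / 2 ^ (k * m)) ^ 2 * ((univ.image (β (k * m))).card : ℝ)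
          ≤ (l / 2 ^ (k * m)) ^ 2 * (A * 4 ^ (k * m)) :=
            mul_le_mul_of_nonneg_left (hcard _ hkJ) (sq_nonneg _)
        _ = A * l ^ 2 := by
            have h4 : (4 : ℝ) ^ (k * m) = 2 ^ (k * m) * 2 ^ (k * m) := by
              rw [← mul_pow]; norm_num
            rw [h4]
            field_simp
    have h5 := mul_le_mul_of_nonneg_left h4 (show 0 ≤ 2 * t by positivity)
    linarith
  have hmono : ∀ k ≤ K, enj w β X 0 ≤ enj w β X (k * m) := by
    intro k
    induction k with
    | zero => intro _; rw [zero_mul]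
    | succ k ih =>
      intro hk
      exact (ih (by omega)).trans (hstep k (by omega)).1
  have hsum : (K : ℝ) * enj w β X 0 ≤ K * (2 * t * (A * l ^ 2))
      + C * (enj w β X (K * m) - enj w β X (0 * m)) := by
    calc (K : ℝ) * enj w β X 0 = ∑ _k ∈ range K, enj w β X 0 := by
          rw [sum_const, card_range, nsmul_eq_mul]
      _ ≤ ∑ k ∈ range K, (2 * t * (A * l ^ 2)
            + C * (enj w β X ((k + 1) * m) - enj w β X (k * m))) := by
          refine sum_le_sum fun k hk => ?_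
          exact (hmono k (mem_range.1 hk).le).trans (hstep k (mem_range.1 hk)).2
      _ = _ := by
          rw [sum_add_distrib, sum_const, card_range, nsmul_eq_mul, ← mul_sum,
            sum_range_sub (fun k => enj w β X (k * m))]
  have hE : enj w β X (K * m) ≤ A * l ^ 2 :=
    enj_le w hw hw1 β X (K * m) l A hl (hcard _ hJ) (hX _ hJ)
  have hE0 : 0 ≤ enj w β X (0 * m) := by
    unfold enj
    exact sum_nonneg fun c _ => MS.ex_nonneg _ (fun _ a => hw a) _ fun ω => by
      simp only [Pi.pow_apply]; positivity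
  have hAl : 0 ≤ A * l ^ 2 := by positivity
  have hCK : C ≤ 2 * t * K := by
    rw [div_lt_iff₀ (by positivity)] at hK
    linarith
  have h1 : (K : ℝ) * enj w β X 0 ≤ K * (4 * t * (A * l ^ 2)) := by
    have h2 : C * (enj w β X (K * m) - enj w β X (0 * m)) ≤ C * (A * l ^ 2) :=
      mul_le_mul_of_nonneg_left (by linarith) hC0.le
    have h3 : C * (A * l ^ 2) ≤ 2 * t * K * (A * l ^ 2) := mul_le_mul_of_nonneg_right hCK hAl
    linarith
  have h4 := le_of_mul_le_mul_left h1 hK0
  have h5 := var_le_enj w hw hw1 β X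
  have h6 : 4 * t * (A * l ^ 2) ≤ τ * (A * l ^ 2) := mul_le_mul_of_nonneg_right htτ hAl
  linarith

end Pool.Agent.CutSeq
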