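import Pool.Agent.CutSeq.SoftDefs
import Pool.Agent.CutSeq.Bridge

/-! Row A6, part 4: two facts on the continuous time law. -/

set_option autoImplicit false

namespace Pool.Agent.CutSeq

open Finset

theorem Low.ct_nonneg (n : ℕ) {t : ℝ} (ht : 0 ≤ t) (x : Un n) : 0 ≤ ct n t x := by
  rw [ct_eq_tr]
  exact tr_nonneg n ht 0 x

theorem Low.ct_sum (n : ℕ) (t : ℝ) : ∑ x, ct n t x = 1 := by
  have h := tr_sum n t 0
  rw [← h]
  exact Finset.sum_congr rfl fun x _ => ct_eq_tr n t x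

theorem Low.card_pos (n : ℕ) : (0 : ℝ) < (Fintype.card (Un n) : ℝ) := by
  rw [card_Un]
  positivity

/-- overlap of the law and the uniform law -/
theorem Low.sum_min (n : ℕ) (t : ℝ) :
    ∑ x : Un n, min (ct n t x) (1 / (Fintype.card (Un n) : ℝ)) = 1 - dd n t := by
  have h1 : ∀ x : Un n, min (ct n t x) (1 / (Fintype.card (Un n) : ℝ))
      = (ct n t x + 1 / (Fintype.card (Un n) : ℝ) - |ct n t x - 1 / (Fintype.card (Un n) : ℝ)|) / 2 := by
    intro x
    rcases le_total (ct n t x) (1 / (Fintype.card (Un n) : ℝ)) with h | h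
    · rw [min_eq_left h, abs_of_nonpos (sub_nonpos.2 h)]
      ring
    · rw [min_eq_right h, abs_of_nonneg (sub_nonneg.2 h)]
      ring
  rw [Finset.sum_congr rfl fun x _ => h1 x, ← Finset.sum_div, Finset.sum_sub_distrib, Finset.sum_add_distrib,
    Low.ct_sum, Finset.sum_const, Finset.card_univ, nsmul_eq_mul, mul_one_div_cancel (Low.card_pos n).ne', dd]
  ring

/-- the weight of the starting point -/
theorem Low.ct_zero (B : ℕ) (hB : 0 < B) {t : ℝ} (ht : 0 ≤ t) :
    Real.exp (-(B * t)) ≤ ct (B + 1) t 0 := by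
  have h := ct_hasSum B (B + 1) hB le_rfl ht 0
  have h0 : pois (B * t) 0 * lw B 0 (B + 1) 0 = Real.exp (-(B * t)) := by
    have h1 : lw B 0 (B + 1) 0 = 1 := by
      rw [lw, Brg.mass_eq, ← Brg.tot_uw B 0 hB, tot]
      refine Finset.sum_congr rfl fun ω _ => ?_
      rw [if_pos (Brg.mm_zero _ _)]
    rw [h1, mul_one, pois, pow_zero, Nat.factorial_zero, Nat.cast_one, mul_one, div_one]
  rw [← h0]
  refine le_hasSum h 0 fun L _ => ?_
  refine mul_nonneg (pois_nonneg (by positivity) L) ?_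
  rw [lw, Brg.mass_eq]
  refine Finset.sum_nonneg fun ω _ => ?_
  split_ifs
  · rw [Brg.uw_eq]
    positivity
  · exact le_rfl

/-- the distance is at least the excess of the weight of one point -/
theorem Low.sub_le_dd (n : ℕ) (t : ℝ) (x : Un n) : ct n t x - 1 / (Fintype.card (Un n) : ℝ) ≤ dd n t := by
  have h1 : ∑ y : Un n, (ct n t y - 1 / (Fintype.card (Un n) : ℝ)) = 0 := by
    rw [Finset.sum_sub_distrib, Low.ct_sum, Finset.sum_const, Finset.card_univ, nsmul_eq_mul,
      mul_one_div_cancel (Low.card_pos n).ne', sub_self]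
  have h2 : 2 * dd n t = ∑ y : Un n, (|ct n t y - 1 / (Fintype.card (Un n) : ℝ)|
      + (ct n t y - 1 / (Fintype.card (Un n) : ℝ))) := by
    rw [Finset.sum_add_distrib, h1, add_zero, dd]
    ring
  have h3 : 2 * (ct n t x - 1 / (Fintype.card (Un n) : ℝ)) ≤
      ∑ y : Un n, (|ct n t y - 1 / (Fintype.card (Un n) : ℝ)|
      + (ct n t y - 1 / (Fintype.card (Un n) : ℝ))) := by
    refine le_trans ?_ (Finset.single_le_sum (f := fun y => |ct n t y - 1 / (Fintype.card (Un n) : ℝ)|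
      + (ct n t y - 1 / (Fintype.card (Un n) : ℝ))) (fun y _ => ?_) (Finset.mem_univ x))
    · have := le_abs_self (ct n t x - 1 / (Fintype.card (Un n) : ℝ))
      linarith
    · have := neg_abs_le (ct n t y - 1 / (Fintype.card (Un n) : ℝ))
      linarith
  linarith

/-- the time is not tiny when the distance is not close to one -/
theorem t_lower (h : ℝ) (hh : 0 < h) (hh1 : h < 1) : ∃ n₀ : ℕ, ∀ n ≥ n₀, ∀ t : ℝ, 0 ≤ t →
    dd n t ≤ 1 - h → 1 / (n : ℝ) ^ 2 ≤ t := by
  have _ := hh1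
  obtain ⟨n₀, hn₀⟩ := exists_nat_gt (2 / h)
  refine ⟨n₀ + 3, fun n hn t ht hd => ?_⟩
  by_contra hlt
  push Not at hlt
  obtain ⟨B, rfl⟩ : ∃ B, n = B + 1 := ⟨n - 1, by omega⟩
  have hB : 0 < B := by omega
  have hn1 : (2 : ℝ) / h < ((B + 1 : ℕ) : ℝ) := lt_of_lt_of_le hn₀ (by exact_mod_cast (by omega : n₀ ≤ B + 1))
  have hn0 : (0 : ℝ) < ((B + 1 : ℕ) : ℝ) := by positivity
  have hinv : 1 / ((B + 1 : ℕ) : ℝ) < h / 2 := by
    rw [div_lt_iff₀ hn0]
    rw [div_lt_iff₀ hh] at hn1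
    linarith
  -- the number of arrays
  have hcard : 1 / (Fintype.card (Un (B + 1)) : ℝ) ≤ 1 / ((B + 1 : ℕ) : ℝ) := by
    apply one_div_le_one_div_of_le hn0
    have h1 : B + 1 ≤ Fintype.card (Un (B + 1)) := by
      rw [card_Un]
      have h2 : B + 1 - 1 ≤ (B + 1) * (B + 1 - 1) / 2 := by
        rw [Nat.le_div_iff_mul_le (by norm_num)]
        have : 2 ≤ B + 1 := by omega
        nlinarith
      calc B + 1 ≤ 2 ^ B := Nat.lt_two_pow_self
        _ ≤ 2 ^ ((B + 1) * (B + 1 - 1) / 2) := Nat.pow_le_pow_right (by norm_num) h2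
    exact_mod_cast h1
  have h1 := Low.ct_zero B hB ht
  have h2 := Low.sub_le_dd (B + 1) t 0
  have h3 : 1 - 1 / ((B + 1 : ℕ) : ℝ) ≤ Real.exp (-(B * t)) := by
    have h4 := Real.add_one_le_exp (-(B * t))
    have h5 : (B : ℝ) * t ≤ 1 / ((B + 1 : ℕ) : ℝ) := by
      have h6 : (B : ℝ) ≤ ((B + 1 : ℕ) : ℝ) := by push_cast; linarith
      calc (B : ℝ) * t ≤ ((B + 1 : ℕ) : ℝ) * (1 / ((B + 1 : ℕ) : ℝ) ^ 2) :=
            mul_le_mul h6 hlt.le ht hn0.le
        _ = 1 / ((B + 1 : ℕ) : ℝ) := by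
            field_simp
    linarith
  linarith

/-- the part of the law with bounded density has mass at least `h / 2` -/
theorem half_mass (n : ℕ) (t h : ℝ) (ht : 0 ≤ t) (hh : 0 < h) (hd : dd n t ≤ 1 - h) :
    h / 2 ≤ ∑ x : Un n, (if ct n t x * (Fintype.card (Un n) : ℝ) ≤ 2 / h then ct n t x else 0) := by
  have hc := Low.card_pos n
  have h1 := Low.sum_min n t
  have h2 : ∀ x : Un n, min (ct n t x) (1 / (Fintype.card (Un n) : ℝ)) ≤
      (if ct n t x * (Fintype.card (Un n) : ℝ) ≤ 2 / h then ct n t x else 0) + h / 2 * ct n t x := by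
    intro x
    have h0 := Low.ct_nonneg n ht x
    split_ifs with hx
    · have := min_le_left (ct n t x) (1 / (Fintype.card (Un n) : ℝ))
      have := mul_nonneg (half_pos hh).le h0
      linarith
    · push Not at hx
      refine (min_le_right _ _).trans ?_
      rw [zero_add, div_le_iff₀ hc]
      rw [div_lt_iff₀ hh] at hx
      nlinarith
  have h3 := Finset.sum_le_sum fun x (_ : x ∈ (univ : Finset (Un n))) => h2 x
  rw [Finset.sum_add_distrib, ← Finset.mul_sum, Low.ct_sum, h1] at h3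
  linarith

/-- few points with large density -/
theorem few_large (n : ℕ) (t a : ℝ) (ht : 0 ≤ t) (ha : 0 < a) :
    ((univ.filter fun x : Un n => a ≤ ct n t x * (Fintype.card (Un n) : ℝ)).card : ℝ) ≤
      (Fintype.card (Un n) : ℝ) / a := by
  have hc := Low.card_pos n
  rw [le_div_iff₀ ha]
  calc ((univ.filter fun x : Un n => a ≤ ct n t x * (Fintype.card (Un n) : ℝ)).card : ℝ) * a
      = ∑ x ∈ univ.filter (fun x : Un n => a ≤ ct n t x * (Fintype.card (Un n) : ℝ)), a := by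
        rw [Finset.sum_const, nsmul_eq_mul]
    _ ≤ ∑ x ∈ univ.filter (fun x : Un n => a ≤ ct n t x * (Fintype.card (Un n) : ℝ)),
          ct n t x * (Fintype.card (Un n) : ℝ) :=
        Finset.sum_le_sum fun x hx => (Finset.mem_filter.1 hx).2
    _ ≤ ∑ x : Un n, ct n t x * (Fintype.card (Un n) : ℝ) :=
        Finset.sum_le_sum_of_subset_of_nonneg (Finset.filter_subset _ _) fun x _ _ =>
          mul_nonneg (Low.ct_nonneg n ht x) hc.le
    _ = (Fintype.card (Un n) : ℝ) := by rw [← Finset.sum_mul, Low.ct_sum, one_mul]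

end Pool.Agent.CutSeq
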