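import Pool.Agent.CutSeq.SoftPar
import Pool.Agent.CutSeq.SoftLow

/-! Row A6, part 3: choice of the parameters. -/

set_option autoImplicit false

namespace Pool.Agent.CutSeq

open Finset

namespace Num

theorem two_pow_le_exp (m : ℕ) : (2 : ℝ) ^ m ≤ Real.exp m := by
  have h1 : (2 : ℝ) ≤ Real.exp 1 := by
    have := Real.add_one_le_exp (1 : ℝ)
    linarith
  calc (2 : ℝ) ^ m ≤ Real.exp 1 ^ m := pow_le_pow_left₀ (by norm_num) h1 m
    _ = Real.exp m := by rw [← Real.exp_nat_mul, mul_one]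

theorem two_pow_le_exp' (m : ℕ) : (2 : ℝ) ^ m ≤ Real.exp (7 / 10 * m) := by
  have h1 : (2 : ℝ) ≤ Real.exp (7 / 10) := by
    rw [← Real.log_le_iff_le_exp (by norm_num)]
    have := Real.log_two_lt_d9
    linarith
  calc (2 : ℝ) ^ m ≤ Real.exp (7 / 10) ^ m := pow_le_pow_left₀ (by norm_num) h1 m
    _ = Real.exp (7 / 10 * m) := by rw [← Real.exp_nat_mul, mul_comm]

theorem card_Un_le (n : ℕ) : (Fintype.card (Un n) : ℝ) ≤ Real.exp ((n : ℝ) ^ 2) := by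
  have h1 : Fintype.card (Un n) ≤ 2 ^ (n * n) := by
    rw [Fintype.card_pi]
    calc ∏ k : Fin n, Fintype.card (V k.val) ≤ ∏ _k : Fin n, 2 ^ n :=
          Finset.prod_le_prod' fun k _ => by
            rw [Fintype.card_fun, ZMod.card, Fintype.card_fin]
            exact Nat.pow_le_pow_right (by norm_num) k.isLt.le
      _ = 2 ^ (n * n) := by rw [Finset.prod_const, Finset.card_univ, Fintype.card_fin, ← pow_mul]
  have h2 : (Fintype.card (Un n) : ℝ) ≤ (2 : ℝ) ^ (n * n) := by exact_mod_cast h1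
  refine h2.trans ((two_pow_le_exp _).trans (le_of_eq ?_))
  congr 1
  push_cast
  ring

theorem boxes {K U B N e j : ℕ} (hK : 0 < K) (hB : B ≤ N) (hj : j ≤ e) :
    (((K * U / (K * 2 ^ (e - j)) + 1) * (B / 2 ^ (e - j) + 1) : ℕ) : ℝ) ≤
      ((U : ℝ) + 2 ^ e) * ((N : ℝ) + 2 ^ e) / (2 ^ e) ^ 2 * 4 ^ j := by
  rw [Nat.mul_div_mul_left _ _ hK]
  have hW : (0 : ℝ) < 2 ^ (e - j) := by positivity
  have h2 : (2 : ℝ) ^ e = 2 ^ (e - j) * 2 ^ j := by
    rw [← pow_add]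
    congr 1
    omega
  have h4 : (4 : ℝ) ^ j = 2 ^ j * 2 ^ j := by
    rw [← mul_pow]
    norm_num
  have hWe : (2 : ℝ) ^ (e - j) ≤ 2 ^ e := pow_le_pow_right₀ (by norm_num) (Nat.sub_le _ _)
  have h5 : ((U / 2 ^ (e - j) : ℕ) : ℝ) ≤ (U : ℝ) / 2 ^ (e - j) := by
    refine Nat.cast_div_le.trans (le_of_eq ?_)
    push_cast
    rfl
  have h6 : ((B / 2 ^ (e - j) : ℕ) : ℝ) ≤ (N : ℝ) / 2 ^ (e - j) := by
    refine Nat.cast_div_le.trans ?_
    push_cast
    have : (B : ℝ) ≤ N := by exact_mod_cast hB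
    gcongr
  have e1 : ((U : ℝ) + 2 ^ e) * ((N : ℝ) + 2 ^ e) / (2 ^ e) ^ 2 * 4 ^ j =
      ((U : ℝ) + 2 ^ e) / 2 ^ (e - j) * (((N : ℝ) + 2 ^ e) / 2 ^ (e - j)) := by
    have hj0 : (0 : ℝ) < 2 ^ j := by positivity
    have he0 : (0 : ℝ) < 2 ^ e := by positivity
    have hq : (4 : ℝ) ^ j / (2 ^ e) ^ 2 = 1 / 2 ^ (e - j) * (1 / 2 ^ (e - j)) := by
      rw [h4, h2]
      field_simp
    calc ((U : ℝ) + 2 ^ e) * ((N : ℝ) + 2 ^ e) / (2 ^ e) ^ 2 * 4 ^ j
        = ((U : ℝ) + 2 ^ e) * ((N : ℝ) + 2 ^ e) * (4 ^ j / (2 ^ e) ^ 2) := by ring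
      _ = _ := by rw [hq]; ring
  rw [e1]
  push_cast
  refine mul_le_mul ?_ ?_ (by positivity) (by positivity)
  · rw [add_div]
    have : (1 : ℝ) ≤ 2 ^ e / 2 ^ (e - j) := by rwa [one_le_div hW]
    linarith
  · rw [add_div]
    have : (1 : ℝ) ≤ 2 ^ e / 2 ^ (e - j) := by rwa [one_le_div hW]
    linarith

theorem card_allB {S B K e J : ℕ} (hK : 0 < K) {A : ℝ} (hA0 : 0 ≤ A)
    (hA : ∀ j ≤ J, (((S / (K * 2 ^ (e - j)) + 1) * (B / 2 ^ (e - j) + 1) : ℕ) : ℝ) ≤ A * 4 ^ j) :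
    ((allB S B K e J).card : ℝ) ≤ 2 * A * 4 ^ J := by
  have h1 : (allB S B K e J).card ≤
      ∑ j ∈ range (J + 1), ((S / (K * 2 ^ (e - j)) + 1) * (B / 2 ^ (e - j) + 1)) := by
    unfold allB
    refine Finset.card_biUnion_le.trans (Finset.sum_le_sum fun j _ => ?_)
    exact Finset.card_image_le.trans (card_bx S B K e j hK)
  have h2 : ((allB S B K e J).card : ℝ) ≤ ∑ j ∈ range (J + 1), A * 4 ^ j := by
    calc ((allB S B K e J).card : ℝ)
        ≤ ((∑ j ∈ range (J + 1), ((S / (K * 2 ^ (e - j)) + 1) * (B / 2 ^ (e - j) + 1)) : ℕ) : ℝ) := by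
          exact_mod_cast h1
      _ = ∑ j ∈ range (J + 1),
            (((S / (K * 2 ^ (e - j)) + 1) * (B / 2 ^ (e - j) + 1) : ℕ) : ℝ) := by
          rw [Nat.cast_sum]
      _ ≤ _ := Finset.sum_le_sum fun j hj => hA j (Nat.lt_succ_iff.mp (Finset.mem_range.mp hj))
  refine h2.trans ?_
  rw [← Finset.mul_sum]
  have h3 : ∀ m : ℕ, ∑ j ∈ range (m + 1), (4 : ℝ) ^ j ≤ 2 * 4 ^ m := by
    intro m
    induction m with
    | zero => norm_num
    | succ m ih =>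
      rw [Finset.sum_range_succ, pow_succ]
      have : (0 : ℝ) < 4 ^ m := by positivity
      linarith
  calc A * ∑ j ∈ range (J + 1), (4 : ℝ) ^ j ≤ A * (2 * 4 ^ J) :=
        mul_le_mul_of_nonneg_left (h3 J) hA0
    _ = 2 * A * 4 ^ J := by ring

/-- the exponent `k` -/
theorem kk (N : ℕ) (hN : 0 < N) : 2 ^ (4 * (Nat.log 2 N / 4)) ≤ N ∧
    N < 16 * 2 ^ (4 * (Nat.log 2 N / 4)) := by
  constructor
  · refine le_trans (Nat.pow_le_pow_right (by norm_num) ?_) (Nat.pow_log_le_self 2 hN.ne')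
    omega
  · have h := Nat.lt_pow_succ_log_self (b := 2) (by norm_num) N
    refine h.trans_le ?_
    rw [show (16 : ℕ) = 2 ^ 4 by norm_num, ← pow_add]
    refine Nat.pow_le_pow_right (by norm_num) ?_
    omega

theorem pow_big (k : ℕ) (hk : 10 ≤ k) : 75 * ((k : ℝ) + 1) ≤ 2 ^ k := by
  induction k, hk using Nat.le_induction with
  | base => norm_num
  | succ k hk ih =>
    push_cast
    rw [pow_succ]
    have : (10 : ℝ) ≤ k := by exact_mod_cast hk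
    linarith

/-- logarithm of `N` -/
theorem log_le {N k : ℕ} (hN : 0 < N) (hk : 10 ≤ k) (h : N < 16 * 2 ^ (4 * k)) :
    27 * Real.log N ≤ 2 ^ k := by
  have h1 : (N : ℝ) ≤ 2 ^ (4 * k + 4) := by
    have : (N : ℝ) < 16 * 2 ^ (4 * k) := by exact_mod_cast h
    rw [pow_add]
    linarith
  have h2 : Real.log N ≤ (4 * k + 4 : ℕ) * Real.log 2 := by
    rw [← Real.log_pow]
    exact Real.log_le_log (by exact_mod_cast hN) h1
  have h3 := Real.log_two_lt_d9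
  have h4 := pow_big k hk
  push_cast at h2
  have h5 : (0 : ℝ) ≤ k := Nat.cast_nonneg k
  have h6 : (4 * (k : ℝ) + 4) * Real.log 2 ≤ (4 * (k : ℝ) + 4) * 0.6931471808 :=
    mul_le_mul_of_nonneg_left h3.le (by positivity)
  nlinarith

theorem exp_aux {N k : ℕ} (h : N < 16 * 2 ^ (4 * k)) :
    (N : ℝ) ^ 8 * Real.exp (-(2 ^ (2 * k) : ℕ)) ≤ (Nat.factorial 16 : ℝ) * 16 ^ 8 := by
  obtain ⟨x, hx⟩ : ∃ x : ℝ, x = ((2 ^ (2 * k) : ℕ) : ℝ) := ⟨_, rfl⟩
  rw [← hx]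
  have hx0 : 0 ≤ x := by rw [hx]; positivity
  have h1 : (N : ℝ) ≤ 16 * x ^ 2 := by
    have h2 : (N : ℝ) < 16 * 2 ^ (4 * k) := by exact_mod_cast h
    have h3 : x ^ 2 = 2 ^ (4 * k) := by
      rw [hx]
      push_cast
      rw [← pow_mul]
      congr 1
      ring
    rw [h3]
    exact h2.le
  have h4 : (N : ℝ) ^ 8 ≤ 16 ^ 8 * x ^ 16 := by
    calc (N : ℝ) ^ 8 ≤ (16 * x ^ 2) ^ 8 := pow_le_pow_left₀ (Nat.cast_nonneg _) h1 8
      _ = 16 ^ 8 * x ^ 16 := by ring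
  have h5 := Real.pow_div_factorial_le_exp x hx0 16
  rw [div_le_iff₀ (by positivity)] at h5
  have h6 : Real.exp x * Real.exp (-x) = 1 := by rw [← Real.exp_add, add_neg_cancel, Real.exp_zero]
  calc (N : ℝ) ^ 8 * Real.exp (-x) ≤ 16 ^ 8 * (Real.exp x * (Nat.factorial 16 : ℝ)) * Real.exp (-x) := by
        refine mul_le_mul_of_nonneg_right ?_ (Real.exp_pos _).le
        exact h4.trans (mul_le_mul_of_nonneg_left h5 (by norm_num))
    _ = (Real.exp x * Real.exp (-x)) * ((Nat.factorial 16 : ℝ) * 16 ^ 8) := by ring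
    _ = _ := by rw [h6, one_mul]

/-- the remaining term -/
theorem rest_aux {h σ q C ε x p : ℝ} {a n M e k : ℕ} (hh : 0 < h) (hq : 0 < q) (hC : 0 < C)
    (hε : 0 < ε) (hεσ : ε ≤ σ / 24) (hx : 1 ≤ x) (he : e = 3 * k) (hk : 10 ≤ k)
    (hk1 : (2 : ℝ) ^ (4 * k) ≤ x) (hlog : 27 * Real.log x ≤ 2 ^ k) (ha : (a : ℝ) ≤ 64 * (C + 3) * x)
    (hn : (n : ℝ) ≤ x) (hM : (M : ℝ) ≤ ε * x) (hp : 1 / x ^ 9 ≤ p / 2)
    (c6 : 2 * (64 * (C + 3) + 1) / σ ≤ x) (c7 : 24 / (h * q) ≤ x) (hσ : 0 < σ) :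
    2 ^ a * 2 ^ (14 * n * M) /
      ((p / 2) ^ (3 * (2 ^ e * M)) * Real.exp (-(2 * (2 ^ e * M : ℕ)))) *
      (Real.exp 1 * (2 / h)) * Real.exp (-(σ * x ^ 2)) ≤ q / 4 := by
  have hx0 : 0 < x := by linarith
  have hM0 : (0 : ℝ) ≤ M := Nat.cast_nonneg M
  have hn0 : (0 : ℝ) ≤ n := Nat.cast_nonneg n
  obtain ⟨y, hy⟩ : ∃ y : ℝ, y = 2 ^ k := ⟨_, rfl⟩
  have hy4 : y ^ 4 ≤ x := by
    rw [hy, ← pow_mul, mul_comm]
    exact hk1
  have hy2 : 2 ≤ y := by
    have := pow_big k hk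
    have h0 : (0 : ℝ) ≤ k := Nat.cast_nonneg k
    rw [hy]
    linarith
  have hye : ((2 ^ e * M : ℕ) : ℝ) = y ^ 3 * M := by
    push_cast
    rw [hy, he, ← pow_mul, mul_comm k 3]
  have h1 : (2 : ℝ) ^ a ≤ Real.exp (64 * (C + 3) * x) :=
    (two_pow_le_exp a).trans (Real.exp_le_exp.mpr ha)
  have h2 : (2 : ℝ) ^ (14 * n * M) ≤ Real.exp (10 * ε * x ^ 2) := by
    refine (two_pow_le_exp' _).trans (Real.exp_le_exp.mpr ?_)
    push_cast
    have h3 : (n : ℝ) * M ≤ x * (ε * x) := mul_le_mul hn hM hM0 hx0.le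
    nlinarith [mul_pos hx0 (mul_pos hε hx0)]
  have hlog' : Real.exp (-(9 * Real.log x)) ≤ p / 2 := by
    refine le_trans (le_of_eq ?_) hp
    rw [Real.exp_neg, show 9 * Real.log x = Real.log (x ^ 9) by rw [Real.log_pow]; norm_num,
      Real.exp_log (by positivity), one_div]
  have hyM : y ^ 4 * M ≤ ε * x ^ 2 := by
    calc y ^ 4 * M ≤ x * (ε * x) := mul_le_mul hy4 hM hM0 hx0.le
      _ = ε * x ^ 2 := by ring
  have h3 : Real.exp (-(ε * x ^ 2)) ≤ (p / 2) ^ (3 * (2 ^ e * M)) := by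
    calc Real.exp (-(ε * x ^ 2)) ≤ Real.exp (((3 * (2 ^ e * M) : ℕ) : ℝ) * (-(9 * Real.log x))) := by
          refine Real.exp_le_exp.mpr ?_
          rw [Nat.cast_mul, hye]
          have h5 : 27 * Real.log x * (y ^ 3 * M) ≤ y * (y ^ 3 * M) := by
            rw [← hy] at hlog
            exact mul_le_mul_of_nonneg_right hlog (by positivity)
          push_cast
          nlinarith
      _ = Real.exp (-(9 * Real.log x)) ^ (3 * (2 ^ e * M)) := by rw [Real.exp_nat_mul]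
      _ ≤ _ := pow_le_pow_left₀ (Real.exp_pos _).le hlog' _
  have h4 : Real.exp (-(ε * x ^ 2)) ≤ Real.exp (-(2 * (2 ^ e * M : ℕ))) := by
    refine Real.exp_le_exp.mpr ?_
    rw [hye]
    have h5 : 2 * (y ^ 3 * M) ≤ y * (y ^ 3 * M) := mul_le_mul_of_nonneg_right hy2 (by positivity)
    nlinarith
  have h5 : 2 ^ a * 2 ^ (14 * n * M) /
      ((p / 2) ^ (3 * (2 ^ e * M)) * Real.exp (-(2 * (2 ^ e * M : ℕ)))) ≤
      (Real.exp (64 * (C + 3) * x) * Real.exp (10 * ε * x ^ 2)) /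
        (Real.exp (-(ε * x ^ 2)) * Real.exp (-(ε * x ^ 2))) := by
    refine div_le_div₀ (by positivity) ?_ (by positivity) ?_
    · exact mul_le_mul h1 h2 (by positivity) (Real.exp_pos _).le
    · exact mul_le_mul h3 h4 (Real.exp_pos _).le ((Real.exp_pos _).le.trans h3)
  have h6 : (Real.exp (64 * (C + 3) * x) * Real.exp (10 * ε * x ^ 2)) /
        (Real.exp (-(ε * x ^ 2)) * Real.exp (-(ε * x ^ 2))) =
      Real.exp (64 * (C + 3) * x + 12 * ε * x ^ 2) := by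
    rw [← Real.exp_add, ← Real.exp_add, ← Real.exp_sub]
    congr 1
    ring
  rw [h6] at h5
  have h7 : Real.exp 1 * (2 / h) ≤ 6 / h := by
    have := Real.exp_one_lt_d9
    rw [show (6 : ℝ) / h = 3 * (2 / h) by ring]
    exact mul_le_mul_of_nonneg_right (by linarith) (by positivity)
  have h8 : 64 * (C + 3) * x + 12 * ε * x ^ 2 - σ * x ^ 2 ≤ -x := by
    rw [div_le_iff₀ hσ] at c6
    have e1 : 12 * ε * x ^ 2 ≤ σ / 2 * x ^ 2 := by
      refine mul_le_mul_of_nonneg_right ?_ (by positivity)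
      linarith
    have e2 : (64 * (C + 3) + 1) * x ≤ σ / 2 * x ^ 2 := by
      have : (64 * (C + 3) + 1) * x ≤ (x * σ / 2) * x :=
        mul_le_mul_of_nonneg_right (by linarith) hx0.le
      linarith
    linarith
  have h9 : Real.exp (-x) ≤ 1 / x := by
    rw [Real.exp_neg, ← one_div]
    refine one_div_le_one_div_of_le hx0 ?_
    have := Real.add_one_le_exp x
    linarith
  calc 2 ^ a * 2 ^ (14 * n * M) /
      ((p / 2) ^ (3 * (2 ^ e * M)) * Real.exp (-(2 * (2 ^ e * M : ℕ)))) *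
      (Real.exp 1 * (2 / h)) * Real.exp (-(σ * x ^ 2))
      ≤ Real.exp (64 * (C + 3) * x + 12 * ε * x ^ 2) * (6 / h) * Real.exp (-(σ * x ^ 2)) := by
        refine mul_le_mul_of_nonneg_right ?_ (Real.exp_pos _).le
        exact mul_le_mul h5 h7 (by positivity) (Real.exp_pos _).le
    _ = Real.exp (64 * (C + 3) * x + 12 * ε * x ^ 2 - σ * x ^ 2) * (6 / h) := by
        rw [sub_eq_add_neg, Real.exp_add (64 * (C + 3) * x + 12 * ε * x ^ 2)]
        ring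
    _ ≤ Real.exp (-x) * (6 / h) :=
        mul_le_mul_of_nonneg_right (Real.exp_le_exp.mpr h8) (by positivity)
    _ ≤ 1 / x * (6 / h) := mul_le_mul_of_nonneg_right h9 (by positivity)
    _ ≤ q / 4 := by
        rw [div_le_iff₀ (by positivity)] at c7
        rw [div_mul_div_comm, one_mul, div_le_iff₀ (by positivity)]
        nlinarith

end Num

open Pool.Agent.CutSeq.Num in
/-- the parameters can be chosen; `A` is the bound for the variance (row A6 part 3) -/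
theorem soft_num (h σ q C : ℝ) (hh : 0 < h) (hh1 : h < 1) (hσ : 0 < σ) (hq : 0 < q) (hC : 0 < C) :
    ∃ τ : ℝ, 0 < τ ∧ ∀ J₀ : ℕ, ∃ N₀ : ℕ, ∀ N ≥ N₀, ∀ n ≤ N, ∀ t : ℝ, 0 ≤ t → t ≤ C * N →
      dd n t ≤ 1 - h → Real.exp (σ * (N : ℝ) ^ 2) ≤ (Fintype.card (Un n) : ℝ) →
      ∃ (V δ A p : ℝ) (B K U e J M : ℕ), Par h σ q V δ N n B K U e J M p t ∧ J₀ ≤ J ∧ 0 ≤ A ∧
        (∀ j ≤ J, (((K * U / (K * 2 ^ (e - j)) + 1) * (B / 2 ^ (e - j) + 1) : ℕ) : ℝ) ≤ A * 4 ^ j) ∧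
        τ * (A * (2 ^ e) ^ 2) ≤ V := by
  obtain ⟨n₀, hn₀⟩ := t_lower h hh hh1
  obtain ⟨ε, hε⟩ : ∃ ε : ℝ, ε = min (1 / 2) (σ / 24) := ⟨_, rfl⟩
  have hε0 : 0 < ε := by
    rw [hε]
    exact lt_min (by norm_num) (by positivity)
  have hεσ : ε ≤ σ / 24 := hε ▸ min_le_right _ _
  obtain ⟨δ, hδ⟩ : ∃ δ : ℝ, δ = min (min (h / 42) (q / 28)) (1 / 4) := ⟨_, rfl⟩
  have hδ0 : 0 < δ := by
    rw [hδ]
    exact lt_min (lt_min (by positivity) (by positivity)) (by norm_num)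
  have hδ1 : δ ≤ h / 42 := hδ ▸ (min_le_left _ _).trans (min_le_left _ _)
  have hδ2 : δ ≤ q / 28 := hδ ▸ (min_le_left _ _).trans (min_le_right _ _)
  have hδ3 : δ ≤ 1 / 4 := hδ ▸ min_le_right _ _
  obtain ⟨g, hg⟩ : ∃ g : ℝ, g = min h q := ⟨_, rfl⟩
  have hg0 : 0 < g := hg ▸ lt_min hh hq
  have hg1 : g ≤ h := hg ▸ min_le_left _ _
  have hg2 : g ≤ q := hg ▸ min_le_right _ _
  obtain ⟨F, hF⟩ : ∃ F : ℝ, F = (Nat.factorial 16 : ℝ) * 16 ^ 8 := ⟨_, rfl⟩
  have hF0 : 0 < F := by rw [hF]; positivity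
  refine ⟨g * ε ^ 2 / (100 * (C + 3)), by positivity, fun J₀ => ?_⟩
  have ev : ∀ c : ℝ, ∀ᶠ N : ℕ in Filter.atTop, c ≤ (N : ℝ) := fun c =>
    tendsto_natCast_atTop_atTop.eventually_ge_atTop c
  refine Filter.eventually_atTop.mp ?_
  filter_upwards [ev (C / δ), ev ((C + 3) * F / δ), ev (3 * (C + 3)), ev (2 / ε),
    ev (((n₀ : ℝ) + 2) ^ 2 / σ), ev (2 * (64 * (C + 3) + 1) / σ), ev (24 / (h * q)),
    ev (2 * (C + 2)), Filter.eventually_ge_atTop (2 ^ (4 * J₀)),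
    Filter.eventually_ge_atTop (2 ^ 40)] with N c1 c2 c3 c4 c5 c6 c7 c8 c9 c10
  intro n hn t ht0 htC hd hcard
  have hN0 : 0 < N := lt_of_lt_of_le (by norm_num) c10
  obtain ⟨k, hk⟩ : ∃ k : ℕ, k = Nat.log 2 N / 4 := ⟨_, rfl⟩
  obtain ⟨hk1, hk2⟩ := kk N hN0
  rw [← hk] at hk1 hk2
  have hk10 : 10 ≤ k := by
    have := Nat.le_log_of_pow_le (b := 2) (by norm_num) c10
    omega
  have hkJ : J₀ ≤ k := by
    have := Nat.le_log_of_pow_le (b := 2) (by norm_num) c9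
    omega
  obtain ⟨x, hx⟩ : ∃ x : ℝ, x = (N : ℝ) := ⟨_, rfl⟩
  obtain ⟨y, hy⟩ : ∃ y : ℝ, y = (2 : ℝ) ^ k := ⟨_, rfl⟩
  rw [← hx] at c1 c2 c3 c4 c5 c6 c7 c8 htC hcard
  have hx1 : 1 ≤ x := by rw [hx]; exact_mod_cast hN0
  have hx0 : 0 < x := by linarith
  have hy1 : 1 ≤ y := by rw [hy]; exact one_le_pow₀ (by norm_num)
  have hy0 : 0 < y := by linarith
  have hk1' : (2 : ℝ) ^ (4 * k) ≤ x := by rw [hx]; exact_mod_cast hk1
  have h4k : (2 : ℝ) ^ (4 * k) = y ^ 4 := by rw [hy, ← pow_mul, mul_comm]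
  have hy4 : y ^ 4 ≤ x := h4k ▸ hk1'
  have hy4' : x < 16 * y ^ 4 := by
    rw [← h4k, hx]
    exact_mod_cast hk2
  have hy3 : y ^ 3 ≤ x := by
    have : y ^ 3 ≤ y ^ 4 := pow_le_pow_right₀ hy1 (by norm_num)
    linarith
  -- the number of levels
  have hnn : σ * x ^ 2 ≤ (n : ℝ) ^ 2 := Real.exp_le_exp.mp (hcard.trans (card_Un_le n))
  have hnx : (n : ℝ) ≤ x := by rw [hx]; exact_mod_cast hn
  have hn2 : n₀ + 2 ≤ n := by
    have h1 : ((n₀ : ℝ) + 2) ^ 2 ≤ (n : ℝ) ^ 2 := by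
      rw [div_le_iff₀ hσ] at c5
      refine le_trans ?_ hnn
      have h2 := mul_le_mul_of_nonneg_left hx1 (mul_pos hx0 hσ).le
      linarith
    have h2 : (n₀ : ℝ) + 2 ≤ n :=
      (pow_le_pow_iff_left₀ (by positivity) (Nat.cast_nonneg n) two_ne_zero).mp h1
    exact_mod_cast h2
  have htl : 1 / (n : ℝ) ^ 2 ≤ t := hn₀ n (by omega) t ht0 hd
  have hn0 : (0 : ℝ) < n := by
    have : 0 < n := by omega
    exact_mod_cast this
  have htx : 1 / x ^ 2 ≤ t := by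
    refine le_trans ?_ htl
    refine one_div_le_one_div_of_le (by positivity) ?_
    exact pow_le_pow_left₀ hn0.le hnx 2
  have ht : 0 < t := lt_of_lt_of_le (by positivity) htx
  -- `U`
  obtain ⟨U, hU⟩ : ∃ U : ℕ, U = ⌈C * x⌉₊ + 1 := ⟨_, rfl⟩
  have hU0 : 0 < U := by omega
  have hUC : C * x ≤ U := by
    rw [hU]
    push_cast
    have := Nat.le_ceil (C * x)
    linarith
  have hUC' : (U : ℝ) ≤ C * x + 2 := by
    rw [hU]
    push_cast
    have := Nat.ceil_lt_add_one (show 0 ≤ C * x by positivity)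
    linarith
  have hU1 : (1 : ℝ) ≤ U := by exact_mod_cast hU0
  have hUp : (0 : ℝ) < U := by linarith
  -- `M`
  obtain ⟨M, hM⟩ : ∃ M : ℕ, M = ⌊ε * x⌋₊ := ⟨_, rfl⟩
  have hMu : (M : ℝ) ≤ ε * x := by rw [hM]; exact Nat.floor_le (by positivity)
  have hεx : 2 ≤ ε * x := by
    rw [div_le_iff₀ hε0] at c4
    linarith
  have hMl : ε * x / 2 ≤ M := by
    have := Nat.sub_one_lt_floor (ε * x)
    rw [← hM] at this
    linarith
  have hM0 : 0 < M := by
    have : (0 : ℝ) < M := by linarith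
    exact_mod_cast this
  -- `K` and `p`
  obtain ⟨K, hK⟩ : ∃ K : ℕ, K = N ^ 4 := ⟨_, rfl⟩
  have hK0 : 0 < K := by rw [hK]; positivity
  have hKx : (K : ℝ) = x ^ 4 := by rw [hK, hx]; push_cast; rfl
  obtain ⟨p, hp⟩ : ∃ p : ℝ, p = t / (x ^ 4 * U) := ⟨_, rfl⟩
  have hp0 : 0 < p := by rw [hp]; positivity
  have hpK : p * x ^ 4 ≤ 1 := by
    have h1 : p * x ^ 4 = t / U := by
      rw [hp]
      field_simp
    rw [h1, div_le_one hUp]
    linarith
  have hpt : p * (x ^ 4 * U) = t := by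
    rw [hp]
    exact div_mul_cancel₀ _ (by positivity)
  have hx2 : (2 : ℝ) ≤ x := by linarith
  have hp1 : p ≤ 1 / 2 := by
    have h1 : (2 : ℝ) ≤ x ^ 4 := by
      calc (2 : ℝ) ≤ x := hx2
        _ = x ^ 1 := (pow_one x).symm
        _ ≤ x ^ 4 := pow_le_pow_right₀ hx1 (by norm_num)
    have h2 := mul_le_mul_of_nonneg_left h1 hp0.le
    linarith
  have hB : n - 1 + 1 = n := by omega
  have hBx : ((n - 1 : ℕ) : ℝ) ≤ x := by
    have : ((n - 1 : ℕ) : ℝ) ≤ (n : ℝ) := by exact_mod_cast Nat.sub_le n 1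
    linarith
  have hB0 : (0 : ℝ) ≤ ((n - 1 : ℕ) : ℝ) := Nat.cast_nonneg _
  obtain ⟨b, hb⟩ : ∃ b : ℝ, b = ((n - 1 : ℕ) : ℝ) := ⟨_, rfl⟩
  have hek : 3 * k - k = 2 * k := by omega
  have h3k : (2 : ℝ) ^ (3 * k) = y ^ 3 := by rw [hy, ← pow_mul, mul_comm]
  have h2k : (2 : ℝ) ^ (2 * k) = y ^ 2 := by rw [hy, ← pow_mul, mul_comm]
  have hy2 : y ^ 2 ≤ x := by
    have : y ^ 2 ≤ y ^ 4 := pow_le_pow_right₀ hy1 (by norm_num)
    linarith
  obtain ⟨W, hW⟩ : ∃ W : ℝ, W = ((U : ℝ) + y ^ 3) * (x + y ^ 3) := ⟨_, rfl⟩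
  have hW0 : 0 < W := by rw [hW]; positivity
  have hWx : W ≤ 2 * (C + 3) * x ^ 2 := by
    rw [hW]
    have h1 : (U : ℝ) + y ^ 3 ≤ (C + 3) * x := by linarith
    have h2 : x + y ^ 3 ≤ 2 * x := by linarith
    calc ((U : ℝ) + y ^ 3) * (x + y ^ 3) ≤ ((C + 3) * x) * (2 * x) :=
          mul_le_mul h1 h2 (by positivity) (by positivity)
      _ = _ := by ring
  have hbox : ∀ j ≤ k, (((K * U / (K * 2 ^ (3 * k - j)) + 1) *
      ((n - 1) / 2 ^ (3 * k - j) + 1) : ℕ) : ℝ) ≤ W / (y ^ 3) ^ 2 * 4 ^ j := by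
    intro j hj
    have := boxes (K := K) (U := U) (B := n - 1) (N := N) (e := 3 * k) (j := j) hK0 (by omega)
      (by omega)
    rw [h3k, ← hx, ← hW] at this
    exact this
  have hVτ : g * ε ^ 2 / (100 * (C + 3)) * W ≤ g * ε ^ 2 / 50 * x ^ 2 := by
    calc g * ε ^ 2 / (100 * (C + 3)) * W ≤ g * ε ^ 2 / (100 * (C + 3)) * (2 * (C + 3) * x ^ 2) :=
          mul_le_mul_of_nonneg_left hWx (by positivity)
      _ = _ := by
        field_simp
        ring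
  have hM2 : ε ^ 2 * x ^ 2 / 4 ≤ (M : ℝ) ^ 2 := by
    calc ε ^ 2 * x ^ 2 / 4 = (ε * x / 2) ^ 2 := by ring
      _ ≤ (M : ℝ) ^ 2 := pow_le_pow_left₀ (by positivity) hMl 2
  refine ⟨g * ε ^ 2 / (100 * (C + 3)) * W, δ, W / (y ^ 3) ^ 2, p, n - 1, K, U, 3 * k, k, M, ?_,
    hkJ, by positivity, hbox, ?_⟩
  · refine ⟨by omega, by omega, hn, hK0, hU0, by omega, hp0, hp1, ?_, ?_, hM0, ?_, ?_, ?_, hδ3, ?_,
      ?_, ?_, ?_⟩
    · rw [hKx]
      exact hpK
    · push_cast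
      rw [hKx]
      exact hpt
    · -- collisions
      push_cast
      rw [hKx, ← hb]
      rw [← hb] at hBx hB0
      rw [div_le_iff₀ hδ0] at c1
      have h1 : x ^ 4 * U * b ^ 2 * p ^ 2 * x ^ 4 ≤ t * x ^ 2 := by
        have e1 : x ^ 4 * U * b ^ 2 * p ^ 2 * x ^ 4 = (p * (x ^ 4 * U)) * (b ^ 2 * (p * x ^ 4)) := by
          ring
        rw [e1, hpt]
        refine mul_le_mul_of_nonneg_left ?_ ht0
        have h2 : b ^ 2 ≤ x ^ 2 := pow_le_pow_left₀ hB0 hBx 2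
        calc b ^ 2 * (p * x ^ 4) ≤ x ^ 2 * 1 := mul_le_mul h2 hpK (by positivity) (by positivity)
          _ = x ^ 2 := mul_one _
      have h3 : t * x ^ 2 ≤ δ * x ^ 4 := by
        calc t * x ^ 2 ≤ (C * x) * x ^ 2 := mul_le_mul_of_nonneg_right htC (by positivity)
          _ ≤ (x * δ * x) * x ^ 2 := by
            refine mul_le_mul_of_nonneg_right ?_ (by positivity)
            exact mul_le_mul_of_nonneg_right c1 hx0.le
          _ = δ * x ^ 4 := by ring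
      exact le_of_mul_le_mul_right (h1.trans h3) (by positivity)
    · -- atypical configurations
      rw [hek]
      have h1 := exp_aux hk2
      rw [← hF, ← hx] at h1
      obtain ⟨E, hE⟩ : ∃ E : ℝ, E = Real.exp (-(2 ^ (2 * k) : ℕ)) := ⟨_, rfl⟩
      have hE0 : 0 < E := by rw [hE]; exact Real.exp_pos _
      rw [← hE] at h1 ⊢
      push_cast
      rw [hKx, ← hb]
      rw [← hb] at hBx hB0
      rw [div_le_iff₀ hδ0] at c2
      have h2 : (k : ℝ) + 1 ≤ x := by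
        have h3 : k + 1 ≤ N := by
          have h4 : k < 2 ^ k := Nat.lt_two_pow_self
          have h5 : 2 ^ k ≤ 2 ^ (4 * k) := Nat.pow_le_pow_right (by norm_num) (by omega)
          omega
        rw [hx]
        exact_mod_cast h3
      have h3 : x ^ 4 * U + 1 ≤ (C + 3) * x ^ 5 := by
        have e1 : x ^ 4 * U ≤ x ^ 4 * (C * x + 2) := mul_le_mul_of_nonneg_left hUC' (by positivity)
        have e2 : (1 : ℝ) ≤ x ^ 4 := one_le_pow₀ hx1
        have e3 : x ^ 4 ≤ x ^ 5 := pow_le_pow_right₀ hx1 (by norm_num)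
        have e4 : x ^ 4 * (C * x + 2) = C * x ^ 5 + 2 * x ^ 4 := by ring
        have e5 : (C + 3) * x ^ 5 = C * x ^ 5 + 3 * x ^ 5 := by ring
        linarith
      have h4 : ((k : ℝ) + 1) * (x ^ 4 * U + 1) * b * E ≤ (x * ((C + 3) * x ^ 5)) * x * E := by
        refine mul_le_mul_of_nonneg_right ?_ hE0.le
        refine mul_le_mul ?_ hBx hB0 (by positivity)
        exact mul_le_mul h2 h3 (by positivity) (by positivity)
      have h5 : ((k : ℝ) + 1) * (x ^ 4 * U + 1) * b * E * x ≤ δ * x := by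
        calc ((k : ℝ) + 1) * (x ^ 4 * U + 1) * b * E * x
            ≤ (x * ((C + 3) * x ^ 5)) * x * E * x := mul_le_mul_of_nonneg_right h4 hx0.le
          _ = (C + 3) * (x ^ 8 * E) := by ring
          _ ≤ (C + 3) * F := mul_le_mul_of_nonneg_left h1 (by positivity)
          _ ≤ δ * x := by linarith
      exact le_of_mul_le_mul_right h5 hx0
    · linarith
    · -- total number of rings
      rw [hek, Nat.mul_div_mul_left _ _ hK0]
      have h1 : ((U / 2 ^ (2 * k) : ℕ) : ℝ) * y ^ 2 ≤ U := by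
        have h2 : U / 2 ^ (2 * k) * 2 ^ (2 * k) ≤ U := Nat.div_mul_le_self _ _
        rw [← h2k]
        exact_mod_cast h2
      push_cast
      rw [h2k, ← hb]
      rw [← hb] at hBx hB0
      obtain ⟨r, hr⟩ : ∃ r : ℝ, r = ((U / 2 ^ (2 * k) : ℕ) : ℝ) := ⟨_, rfl⟩
      rw [← hr] at h1 ⊢
      have hr0 : 0 ≤ r := by rw [hr]; exact Nat.cast_nonneg _
      have h3 : (r + 1) * (3 * y ^ 2) ≤ 3 * ((C + 3) * x) := by
        have e4 : (r + 1) * (3 * y ^ 2) = 3 * (r * y ^ 2) + 3 * y ^ 2 := by ring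
        have e5 : (C + 3) * x = C * x + 3 * x := by ring
        linarith
      have h4 : b * ((r + 1) * (3 * y ^ 2)) ≤ x * (3 * ((C + 3) * x)) :=
        mul_le_mul hBx h3 (by positivity) hx0.le
      have h5 : x * (3 * ((C + 3) * x)) ≤ x ^ 4 := by
        have e1 : x ^ 3 ≤ x ^ 4 := pow_le_pow_right₀ hx1 (by norm_num)
        have e2 : x * (3 * ((C + 3) * x)) ≤ x * (x * x) :=
          mul_le_mul_of_nonneg_left (by
            have := mul_le_mul_of_nonneg_right c3 hx0.le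
            linarith) hx0.le
        calc x * (3 * ((C + 3) * x)) ≤ x * (x * x) := e2
          _ = x ^ 3 := by ring
          _ ≤ x ^ 4 := e1
      calc p * (b * ((r + 1) * (3 * y ^ 2))) ≤ p * x ^ 4 :=
            mul_le_mul_of_nonneg_left (h4.trans h5) hp0.le
        _ ≤ 1 := hpK
    · calc 12 * (g * ε ^ 2 / (100 * (C + 3)) * W) ≤ 12 * (g * ε ^ 2 / 50 * x ^ 2) := by linarith
        _ ≤ g * (ε ^ 2 * x ^ 2 / 4) := by
          have : 0 ≤ g * (ε ^ 2 * x ^ 2) := by positivity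
          linarith
        _ ≤ h * (M : ℝ) ^ 2 := mul_le_mul hg1 hM2 (by positivity) hh.le
    · calc 4 * (g * ε ^ 2 / (100 * (C + 3)) * W) ≤ 4 * (g * ε ^ 2 / 50 * x ^ 2) := by linarith
        _ ≤ g / 2 * (ε ^ 2 * x ^ 2 / 4) := by
          have : 0 ≤ g * (ε ^ 2 * x ^ 2) := by positivity
          linarith
        _ ≤ q / 2 * (M : ℝ) ^ 2 := mul_le_mul (by linarith) hM2 (by positivity) (by positivity)
    · -- the rest
      have hall : ((allB (K * U) (n - 1) K (3 * k) k).card : ℝ) ≤ 64 * (C + 3) * x := by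
        have h1 := card_allB (S := K * U) (B := n - 1) (K := K) (e := 3 * k) (J := k) hK0
          (A := W / (y ^ 3) ^ 2) (by positivity) hbox
        refine h1.trans ?_
        have h4 : (4 : ℝ) ^ k = y ^ 2 := by
          rw [hy, ← pow_mul, mul_comm, pow_mul]
          norm_num
        rw [h4]
        have e1 : 2 * (W / (y ^ 3) ^ 2) * y ^ 2 = 2 * W / y ^ 4 := by
          field_simp
        rw [e1, div_le_iff₀ (by positivity)]
        calc 2 * W ≤ 4 * (C + 3) * x * x := by linarith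
          _ ≤ 4 * (C + 3) * x * (16 * y ^ 4) := mul_le_mul_of_nonneg_left hy4'.le (by positivity)
          _ = _ := by ring
      have hpl : 1 / x ^ 9 ≤ p / 2 := by
        rw [hp, div_div, div_le_div_iff₀ (by positivity) (by positivity), one_mul]
        have h1 : x ^ 4 * U * 2 ≤ x ^ 7 := by
          have e1 : (U : ℝ) * 2 ≤ x ^ 2 := by
            calc (U : ℝ) * 2 ≤ (C * x + 2) * 2 := by linarith
              _ ≤ (2 * (C + 2)) * x := by linarith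
              _ ≤ x * x := mul_le_mul_of_nonneg_right c8 hx0.le
              _ = x ^ 2 := by ring
          calc x ^ 4 * U * 2 = x ^ 4 * (U * 2) := by ring
            _ ≤ x ^ 4 * x ^ 2 := mul_le_mul_of_nonneg_left e1 (by positivity)
            _ = x ^ 6 := by ring
            _ ≤ x ^ 7 := pow_le_pow_right₀ hx1 (by norm_num)
        have h2 : x ^ 7 ≤ t * x ^ 9 := by
          rw [div_le_iff₀ (by positivity)] at htx
          calc x ^ 7 = 1 * x ^ 7 := (one_mul _).symm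
            _ ≤ (t * x ^ 2) * x ^ 7 := mul_le_mul_of_nonneg_right htx (by positivity)
            _ = t * x ^ 9 := by ring
        exact h1.trans h2
      have hlog := log_le hN0 hk10 hk2
      rw [← hx] at hlog
      have := rest_aux (h := h) (σ := σ) (q := q) (C := C) (ε := ε) (x := x) (p := p)
        (a := (allB (K * U) (n - 1) K (3 * k) k).card) (n := n) (M := M) (e := 3 * k) (k := k)
        hh hq hC hε0 hεσ hx1 rfl hk10 hk1' hlog hall hnx hMu hpl c6 c7 hσ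
      rw [← hx]
      linarith
  · rw [h3k, div_mul_cancel₀ _ (by positivity)]

end Pool.Agent.CutSeq
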