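import Pool.Agent.CutSeq.SoftFin
import Pool.Agent.CutSeq.SoftNum
import Pool.Agent.CutSeq.SoftMS

/-! Target (A): soft concentration of the density before mixing. -/

set_option autoImplicit false

namespace Pool.Agent.CutSeq

open Finset

/-- (A) before mixing the density is rarely exponentially large in the square of the size -/
theorem soft (h σ q C : ℝ) (hh : 0 < h) (hh1 : h < 1) (hσ : 0 < σ) (hq : 0 < q) (hC : 0 < C) :
    ∃ N₀ : ℕ, ∀ N ≥ N₀, ∀ n ≤ N, ∀ t : ℝ, 0 ≤ t → t ≤ C * N → dd n t ≤ 1 - h →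
      ∑ x : Un n, (if Real.exp (σ * (N : ℝ) ^ 2) ≤ ct n t x * (Fintype.card (Un n) : ℝ)
        then ct n t x else 0) ≤ q := by
  obtain ⟨τ, hτ, H⟩ := soft_num h σ q C hh hh1 hσ hq hC
  obtain ⟨J₀, hJ₀⟩ := multiscale τ hτ
  obtain ⟨N₀, hN₀⟩ := H J₀
  refine ⟨N₀, fun N hN n hn t ht htC hd => ?_⟩
  have hct : ∀ x, 0 ≤ ct n t x := fun x => by rw [ct_eq_tr]; exact tr_nonneg n ht _ _
  have hsum : ∑ x, ct n t x = 1 := by
    have := tr_sum n t 0
    simpa only [ct_eq_tr] using this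
  have hle1 : ∀ x, ct n t x ≤ 1 := fun x => by
    rw [← hsum]
    exact Finset.single_le_sum (fun y _ => hct y) (Finset.mem_univ x)
  by_cases hc : Real.exp (σ * (N : ℝ) ^ 2) ≤ (Fintype.card (Un n) : ℝ)
  · obtain ⟨V, δ, A, p, B, K, U, e, J, M, hP, hJ, hA, hcard, hV⟩ := hN₀ N hN n hn t ht htC hd hc
    refine soft_fin hh hh1 hP hd fun X hX => ?_
    have hp0 : 0 ≤ p := hP.hp.le
    have hp1 : p ≤ 1 := by linarith [hP.hp1]
    refine le_trans ?_ hV
    refine hJ₀ (sw p) (sw_nonneg hp0 hp1) (sw_sum p) J hJ (fun j => bx K e j)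
      (fun j _ i i' h => bx_nested j i i' h) (2 ^ e) A (by positivity) hA (fun j hj => ?_) X ?_
    · refine le_trans ?_ (hcard j hj)
      exact_mod_cast card_bx (K * U) B K e j hP.hK
    · intro j hj c ω ω' h
      exact hX j hj c ω ω' h
  · have h0 : ∑ x : Un n, (if Real.exp (σ * (N : ℝ) ^ 2) ≤ ct n t x * (Fintype.card (Un n) : ℝ)
        then ct n t x else 0) = 0 := by
      refine Finset.sum_eq_zero fun x _ => ?_
      rw [if_neg]
      intro h
      apply hc
      refine h.trans ?_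
      have h1 : (0 : ℝ) ≤ (Fintype.card (Un n) : ℝ) := by positivity
      nlinarith [hle1 x]
    rw [h0]
    exact hq.le

end Pool.Agent.CutSeq
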