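import Pool.Agent.CutSeq.SoftDefs

/-! Row A5b: boxes and the box distance to a set. -/

set_option autoImplicit false

namespace Pool.Agent.CutSeq

open Finset

/-- index of the box of scale `j` of a cell: `K * 2 ^ (e - j)` slots and `2 ^ (e - j)` bonds -/
def bx {S B : ℕ} (K e j : ℕ) (i : Fin S × Fin B) : ℕ × ℕ :=
  (i.1.val / (K * 2 ^ (e - j)), i.2.val / 2 ^ (e - j))

/-- boxes: scale and index -/
abbrev Bx := ℕ × ℕ × ℕ

/-- all boxes of scales `0, …, J` which meet the rectangle -/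
def allB (S B K e J : ℕ) : Finset Bx :=
  (range (J + 1)).biUnion fun j => (univ.image fun i : Fin S × Fin B => bx K e j i).image
    fun c => (j, c)

/-- total side of a family -/
def bsize (e : ℕ) (F : Finset Bx) : ℕ := ∑ q ∈ F, 2 ^ (e - q.1)

/-- cells covered by a family -/
def bcells (S B K e : ℕ) (F : Finset Bx) : Finset (Fin S × Fin B) :=
  univ.filter fun i => ∃ q ∈ F, bx K e q.1 i = q.2

theorem bx_nested {S B K e : ℕ} (j : ℕ) (i i' : Fin S × Fin B)
    (h : bx K e (j + 1) i = bx K e (j + 1) i') : bx K e j i = bx K e j i' := by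
  by_cases hj : j < e
  · have e1 : 2 ^ (e - j) = 2 ^ (e - (j + 1)) * 2 := by
      rw [← pow_succ]
      congr 1
      omega
    simp only [bx, Prod.mk.injEq] at h ⊢
    have d : ∀ a m : ℕ, a / (m * 2) = a / m / 2 := fun a m => (Nat.div_div_eq_div_mul a m 2).symm
    rw [e1, ← mul_assoc, d, d, d, d, h.1, h.2]
    exact ⟨rfl, rfl⟩
  · have e1 : e - j = e - (j + 1) := by omega
    simp only [bx] at h ⊢
    rw [e1]
    exact h

theorem card_bx (S B K e j : ℕ) (hK : 0 < K) :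
    (univ.image fun i : Fin S × Fin B => bx K e j i).card
      ≤ (S / (K * 2 ^ (e - j)) + 1) * (B / 2 ^ (e - j) + 1) := by
  have _ := hK
  have hsub : (univ.image fun i : Fin S × Fin B => bx K e j i)
      ⊆ range (S / (K * 2 ^ (e - j)) + 1) ×ˢ range (B / 2 ^ (e - j) + 1) := by
    intro c hc
    obtain ⟨i, -, rfl⟩ := Finset.mem_image.mp hc
    rw [Finset.mem_product, Finset.mem_range, Finset.mem_range]
    exact ⟨Nat.lt_succ_of_le (Nat.div_le_div_right i.1.isLt.le),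
      Nat.lt_succ_of_le (Nat.div_le_div_right i.2.isLt.le)⟩
  refine (Finset.card_le_card hsub).trans ?_
  rw [Finset.card_product, Finset.card_range, Finset.card_range]

namespace BoxD

variable {S B : ℕ}

theorem mem_allB {K e J j : ℕ} (hj : j ≤ J) (i : Fin S × Fin B) :
    ((j, bx K e j i) : Bx) ∈ allB S B K e J := by
  unfold allB
  rw [Finset.mem_biUnion]
  refine ⟨j, Finset.mem_range.mpr (Nat.lt_succ_of_le hj), ?_⟩
  exact Finset.mem_image.mpr ⟨_, Finset.mem_image.mpr ⟨i, Finset.mem_univ _, rfl⟩, rfl⟩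

theorem mem_bcells {K e : ℕ} {F : Finset Bx} {i : Fin S × Fin B} :
    i ∈ bcells S B K e F ↔ ∃ q ∈ F, bx K e q.1 i = q.2 := by
  unfold bcells
  simp

open Classical in
/-- admissible families -/
noncomputable def good (K e J : ℕ) (T : Set (Sl S B)) (ω : Sl S B) : Finset (Finset Bx) :=
  (allB S B K e J).powerset.filter fun F =>
    ∃ ω' ∈ T, ∀ i, i ∉ bcells S B K e F → ω i = ω' i

theorem mem_good {K e J : ℕ} {T : Set (Sl S B)} {ω : Sl S B} {F : Finset Bx} :
    F ∈ good K e J T ω ↔ F ⊆ allB S B K e J ∧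
      ∃ ω' ∈ T, ∀ i, i ∉ bcells S B K e F → ω i = ω' i := by
  classical
  unfold good
  rw [Finset.mem_filter, Finset.mem_powerset]

theorem good_nonempty (K e J : ℕ) (T : Set (Sl S B)) (hT : T.Nonempty) (ω : Sl S B) :
    (good K e J T ω).Nonempty := by
  obtain ⟨τ, hτ⟩ := hT
  refine ⟨allB S B K e J, mem_good.mpr ⟨Finset.Subset.refl _, τ, hτ, fun i hi => ?_⟩⟩
  exact absurd (mem_bcells.mpr ⟨_, mem_allB (Nat.zero_le J) i, rfl⟩) hi

/-- minimal total side -/
noncomputable def dist (K e J : ℕ) (T : Set (Sl S B)) (hT : T.Nonempty) (ω : Sl S B) : ℕ :=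
  (good K e J T ω).inf' (good_nonempty K e J T hT ω) (bsize e)

theorem dist_le {K e J : ℕ} {T : Set (Sl S B)} (hT : T.Nonempty) {ω : Sl S B} {F : Finset Bx}
    (h : F ∈ good K e J T ω) : dist K e J T hT ω ≤ bsize e F :=
  Finset.inf'_le _ h

theorem dist_step {K e J : ℕ} {T : Set (Sl S B)} (hT : T.Nonempty) {j : ℕ} (hj : j ≤ J)
    (c : ℕ × ℕ) (ω ω' : Sl S B) (h : ∀ i, bx K e j i ≠ c → ω i = ω' i) :
    dist K e J T hT ω' ≤ dist K e J T hT ω + 2 ^ (e - j) := by
  classical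
  obtain ⟨F, hF, hFe⟩ := Finset.exists_mem_eq_inf' (good_nonempty K e J T hT ω) (bsize e)
  have hd : dist K e J T hT ω = bsize e F := hFe
  by_cases hc : ∃ i : Fin S × Fin B, bx K e j i = c
  · obtain ⟨i₀, hi₀⟩ := hc
    obtain ⟨hsub, τ, hτ, hag⟩ := mem_good.mp hF
    have hgood : insert ((j, c) : Bx) F ∈ good K e J T ω' := by
      refine mem_good.mpr ⟨?_, τ, hτ, fun i hi => ?_⟩
      · intro q hq
        rcases Finset.mem_insert.mp hq with rfl | hq
        · rw [← hi₀]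
          exact mem_allB hj i₀
        · exact hsub hq
      · have h1 : bx K e j i ≠ c := fun hh =>
          hi (mem_bcells.mpr ⟨(j, c), Finset.mem_insert_self _ _, hh⟩)
        have h2 : i ∉ bcells S B K e F := fun hh => by
          obtain ⟨q, hq, hqi⟩ := mem_bcells.mp hh
          exact hi (mem_bcells.mpr ⟨q, Finset.mem_insert_of_mem hq, hqi⟩)
        rw [← h i h1]
        exact hag i h2
    refine (dist_le hT hgood).trans ?_
    rw [hd]
    unfold bsize
    by_cases hmem : ((j, c) : Bx) ∈ F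
    · rw [Finset.insert_eq_of_mem hmem]
      exact Nat.le_add_right _ _
    · rw [Finset.sum_insert hmem, Nat.add_comm]
  · have hEq : ω = ω' := by
      funext i
      exact h i fun hh => hc ⟨i, hh⟩
    rw [← hEq]
    exact Nat.le_add_right _ _

end BoxD

open BoxD in
/-- the box distance -/
theorem box_distance {S B : ℕ} (K e J : ℕ) (hJ : J ≤ e) (T : Set (Sl S B)) (hT : T.Nonempty) :
    ∃ X : Sl S B → ℝ, (∀ ω, 0 ≤ X ω) ∧ (∀ ω ∈ T, X ω = 0) ∧
      (∀ j ≤ J, ∀ c, ∀ ω ω' : Sl S B, (∀ i, bx K e j i ≠ c → ω i = ω' i) →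
        |X ω - X ω'| ≤ 2 ^ e / 2 ^ j) ∧
      (∀ ω, ∃ F ⊆ allB S B K e J, ∃ ω' ∈ T, (∀ i, i ∉ bcells S B K e F → ω i = ω' i) ∧
        (bsize e F : ℝ) ≤ X ω) := by
  refine ⟨fun ω => (dist K e J T hT ω : ℝ), fun ω => Nat.cast_nonneg _, fun ω hω => ?_,
    fun j hj c ω ω' h => ?_, fun ω => ?_⟩
  · have h1 : dist K e J T hT ω ≤ bsize e (∅ : Finset Bx) :=
      dist_le hT (mem_good.mpr ⟨Finset.empty_subset _, ω, hω, fun _ _ => rfl⟩)
    have h2 : bsize e (∅ : Finset Bx) = 0 := by simp [bsize]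
    rw [h2] at h1
    simp [Nat.le_zero.mp h1]
  · have e1 : (2 : ℝ) ^ e / 2 ^ j = ((2 ^ (e - j) : ℕ) : ℝ) := by
      rw [Nat.cast_pow, Nat.cast_ofNat, div_eq_iff (by positivity), ← pow_add]
      congr 1
      omega
    rw [e1, abs_le]
    have h1 : (dist K e J T hT ω' : ℝ) ≤ dist K e J T hT ω + ((2 ^ (e - j) : ℕ) : ℝ) := by
      exact_mod_cast dist_step hT hj c ω ω' h
    have h2 : (dist K e J T hT ω : ℝ) ≤ dist K e J T hT ω' + ((2 ^ (e - j) : ℕ) : ℝ) := by
      exact_mod_cast dist_step hT hj c ω' ω fun i hi => (h i hi).symm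
    constructor <;> linarith
  · obtain ⟨F, hF, hFe⟩ := Finset.exists_mem_eq_inf' (good_nonempty K e J T hT ω) (bsize e)
    obtain ⟨hsub, τ, hτ, hag⟩ := mem_good.mp hF
    refine ⟨F, hsub, τ, hτ, hag, ?_⟩
    have hd : dist K e J T hT ω = bsize e F := hFe
    show (bsize e F : ℝ) ≤ (dist K e J T hT ω : ℝ)
    rw [hd]

end Pool.Agent.CutSeq
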