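import Pool.Agent.CutSeq.SoftRank
import Pool.Agent.CutSeq.SoftBox

/-! Row A3b: several boxes. -/

set_option autoImplicit false

namespace Pool.Agent.CutSeq

open Finset

/-- slots of the window of the box `q` in which the bond just above the box rings in `ω` or `ω'` -/
def above {S B : ℕ} (K e : ℕ) (q : Bx) (ω ω' : Sl S B) : Finset (Fin S) :=
  univ.filter fun s => s.val / (K * 2 ^ (e - q.1)) = q.2.1 ∧
    ∃ b : Fin B, b.val = (q.2.2 + 1) * 2 ^ (e - q.1) ∧ (ω (s, b) ≠ none ∨ ω' (s, b) ≠ none)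

/-- the cell `(s, b)` is in the box `q` -/
def inBx (K e : ℕ) (q : Bx) (s b : ℕ) : Prop :=
  s / (K * 2 ^ (e - q.1)) = q.2.1 ∧ b / 2 ^ (e - q.1) = q.2.2

open Classical in
/-- several boxes, for coin fields; `m` marks the cells which may ring -/
theorem rk_list (K e S : ℕ) (hK : 0 < K) (m : ℕ → ℕ → Prop) (F : Finset Bx) :
    ∀ c c' : ℕ → ℕ → ZMod 2, (∀ s b, c s b ≠ 0 → s < S ∧ m s b) →
      (∀ s b, c' s b ≠ 0 → s < S ∧ m s b) →
      (∀ s b, (∀ q ∈ F, ¬ inBx K e q s b) → c s b = c' s b) →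
      Rk (∑ q ∈ F, (2 ^ (e - q.1) + ((range S).filter fun s =>
        s / (K * 2 ^ (e - q.1)) = q.2.1 ∧ m s ((q.2.2 + 1) * 2 ^ (e - q.1))).card))
        (fun k j => Ev c S k j - Ev c' S k j) := by
  classical
  induction F using Finset.induction_on with
  | empty =>
    intro c c' _ _ h
    have e1 : c = c' := funext fun s => funext fun b => h s b (by simp)
    subst e1
    rw [Finset.sum_empty]
    have e2 : (fun k j => Ev c S k j - Ev c S k j) = fun _ _ => (0 : ZMod 2) := by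
      funext k j
      exact sub_self _
    rw [e2]
    exact rk_zero
  | insert q F hq ih =>
    intro c c' hc hc' h
    let d : ℕ → ℕ → ZMod 2 := fun s b => if inBx K e q s b then c' s b else c s b
    have hd : ∀ s b, d s b ≠ 0 → s < S ∧ m s b := by
      intro s b h1
      change (if inBx K e q s b then c' s b else c s b) ≠ 0 at h1
      split_ifs at h1
      · exact hc' s b h1
      · exact hc s b h1
    have h2 := ih d c' hd hc' (fun s b hk => by
      change (if inBx K e q s b then c' s b else c s b) = c' s b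
      split_ifs with h3
      · rfl
      · refine h s b fun q' hq' => ?_
        rcases Finset.mem_insert.1 hq' with rfl | h4
        · exact h3
        · exact hk q' h4)
    have hp : 0 < 2 ^ (e - q.1) := by positivity
    have hKp : 0 < K * 2 ^ (e - q.1) := Nat.mul_pos hK hp
    have h3 := rk_box c d (q.2.2 * 2 ^ (e - q.1)) (2 ^ (e - q.1)) (q.2.1 * (K * 2 ^ (e - q.1)))
      ((q.2.1 + 1) * (K * 2 ^ (e - q.1))) S (by
        intro s b hk
        change c s b = if inBx K e q s b then c' s b else c s b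
        rw [if_neg]
        rintro ⟨h4, h5⟩
        apply hk
        rw [Nat.div_eq_iff hKp] at h4
        rw [Nat.div_eq_iff hp] at h5
        have e1 : (q.2.1 + 1) * (K * 2 ^ (e - q.1)) =
          q.2.1 * (K * 2 ^ (e - q.1)) + K * 2 ^ (e - q.1) := by ring
        refine ⟨h4.1, by omega, h5.1, by omega⟩)
    have e1 : q.2.2 * 2 ^ (e - q.1) + 2 ^ (e - q.1) = (q.2.2 + 1) * 2 ^ (e - q.1) := by ring
    rw [e1] at h3
    have h4 : ((Finset.Ico (q.2.1 * (K * 2 ^ (e - q.1)))
        ((q.2.1 + 1) * (K * 2 ^ (e - q.1)))).filter fun s =>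
          c s ((q.2.2 + 1) * 2 ^ (e - q.1)) ≠ 0).card ≤
        ((range S).filter fun s =>
          s / (K * 2 ^ (e - q.1)) = q.2.1 ∧ m s ((q.2.2 + 1) * 2 ^ (e - q.1))).card := by
      refine Finset.card_le_card fun s hs => ?_
      rw [Finset.mem_filter, Finset.mem_Ico] at hs
      rw [Finset.mem_filter, Finset.mem_range]
      obtain ⟨⟨h5, h6⟩, h7⟩ := hs
      obtain ⟨h8, h9⟩ := hc _ _ h7
      refine ⟨h8, ?_, h9⟩
      rw [Nat.div_eq_iff hKp]
      have e2 : (q.2.1 + 1) * (K * 2 ^ (e - q.1)) =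
          q.2.1 * (K * 2 ^ (e - q.1)) + K * 2 ^ (e - q.1) := by ring
      omega
    have h5 := (h3.mono (Nat.add_le_add_left h4 _)).add h2
    rw [Finset.sum_insert hq]
    convert h5 using 1
    funext k j
    ring

theorem rk_boxes {S B : ℕ} (K e : ℕ) (hK : 0 < K) (F : Finset Bx) (ω ω' : Sl S B)
    (h : ∀ i, i ∉ bcells S B K e F → ω i = ω' i) :
    Rk (∑ q ∈ F, (2 ^ (e - q.1) + (above K e q ω ω').card))
      (fun k j => Ev (cf ω) S k j - Ev (cf ω') S k j) := by
  classical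
  obtain ⟨m, hmd⟩ : ∃ m : ℕ → ℕ → Prop, ∀ s b, m s b ↔ ∃ (hs : s < S) (hb : b < B),
    ω (⟨s, hs⟩, ⟨b, hb⟩) ≠ none ∨ ω' (⟨s, hs⟩, ⟨b, hb⟩) ≠ none := ⟨_, fun _ _ => Iff.rfl⟩
  have hm : ∀ s b, cf ω s b ≠ 0 → s < S ∧ m s b := by
    intro s b h1
    unfold cf at h1
    split_ifs at h1 with h2
    · refine ⟨h2.1, (hmd s b).2 ⟨h2.1, h2.2, Or.inl fun h3 => h1 ?_⟩⟩
      rw [h3]
      rfl
    · exact absurd rfl h1
  have hm' : ∀ s b, cf ω' s b ≠ 0 → s < S ∧ m s b := by
    intro s b h1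
    unfold cf at h1
    split_ifs at h1 with h2
    · refine ⟨h2.1, (hmd s b).2 ⟨h2.1, h2.2, Or.inr fun h3 => h1 ?_⟩⟩
      rw [h3]
      rfl
    · exact absurd rfl h1
  have h1 := rk_list K e S hK m F (cf ω) (cf ω') hm hm' (by
    intro s b hk
    unfold cf
    split_ifs with h2
    · rw [h]
      intro h3
      unfold bcells at h3
      rw [Finset.mem_filter] at h3
      obtain ⟨-, q, hq, h4⟩ := h3
      apply hk q hq
      unfold bx at h4
      exact ⟨congrArg Prod.fst h4, congrArg Prod.snd h4⟩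
    · rfl)
  refine h1.mono (Finset.sum_le_sum fun q hq => Nat.add_le_add_left ?_ _)
  rw [← Finset.card_map Fin.valEmbedding (s := above K e q ω ω')]
  refine Finset.card_le_card fun s hs => ?_
  obtain ⟨h2, h3, h4⟩ := Finset.mem_filter.1 hs
  obtain ⟨h4, h5, h6⟩ := (hmd _ _).1 h4
  rw [Finset.mem_range] at h2
  rw [Finset.mem_map]
  refine ⟨⟨s, h2⟩, ?_, rfl⟩
  unfold above
  rw [Finset.mem_filter]
  exact ⟨Finset.mem_univ _, h3, ⟨_, h5⟩, rfl, h6⟩

end Pool.Agent.CutSeq
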