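import Pool.Agent.CutSeq.SoftTyp
import Pool.Agent.CutSeq.SoftBox
import Pool.Agent.CutSeq.SoftRank2

/-! Row A6, part 1 (helper96): typical configurations. -/

set_option autoImplicit false

namespace Pool.Agent.CutSeq

open Finset

/-- typical configurations: every bond has at most `3 * 2 ^ (e - j)` rings in every window -/
def Typ (S B K e J : ℕ) : Set (Sl S B) :=
  {ω | ∀ j ≤ J, ∀ (a : ℕ) (b : Fin B),
    (univ.filter fun s : Fin S => s.val / (K * 2 ^ (e - j)) = a ∧ ω (s, b) ≠ none).card
      ≤ 3 * 2 ^ (e - j)}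

theorem card_window (S : ℕ) {W : ℕ} (hW : 0 < W) (a : ℕ) :
    (univ.filter fun s : Fin S => s.val / W = a).card ≤ W := by
  have h : ((univ.filter fun s : Fin S => s.val / W = a).map Fin.valEmbedding) ⊆
      Finset.Ico (a * W) (a * W + W) := by
    intro x hx
    simp only [Finset.mem_map, Finset.mem_filter, Finset.mem_univ, true_and,
      Fin.valEmbedding_apply] at hx
    obtain ⟨s, hs, rfl⟩ := hx
    rw [Finset.mem_Ico]
    have h1 := Nat.div_add_mod s.val W
    have h2 := Nat.mod_lt s.val hW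
    rw [hs, mul_comm] at h1
    constructor
    · omega
    · omega
  have h2 := Finset.card_le_card h
  rw [Finset.card_map, Nat.card_Ico] at h2
  omega

/-- the number of bonds of a box -/
theorem card_bonds (B : ℕ) {W : ℕ} (hW : 0 < W) (a : ℕ) :
    (univ.filter fun b : Fin B => b.val / W = a).card ≤ W := card_window B hW a

/-- cells of one box -/
theorem box_cells {S B K e : ℕ} (hK : 0 < K) (q : Bx) :
    (univ.filter fun i : Fin S × Fin B => bx K e q.1 i = q.2).card
      ≤ K * 2 ^ (e - q.1) * 2 ^ (e - q.1) := by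
  have h : (univ.filter fun i : Fin S × Fin B => bx K e q.1 i = q.2) =
      (univ.filter fun s : Fin S => s.val / (K * 2 ^ (e - q.1)) = q.2.1) ×ˢ
      (univ.filter fun b : Fin B => b.val / (2 ^ (e - q.1)) = q.2.2) := by
    ext i
    simp only [Finset.mem_filter, Finset.mem_univ, true_and, Finset.mem_product, bx]
    rw [Prod.ext_iff]
  rw [h, Finset.card_product]
  exact Nat.mul_le_mul (card_window S (by positivity) _) (card_bonds B (by positivity) _)

/-- rings in one box -/
theorem box_rings {S B K e J : ℕ} {ω : Sl S B} (hω : ω ∈ Typ S B K e J) (q : Bx)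
    (hq : q.1 ≤ J) : (univ.filter fun i : Fin S × Fin B => bx K e q.1 i = q.2 ∧ ω i ≠ none).card
      ≤ 3 * 2 ^ (e - q.1) * 2 ^ (e - q.1) := by
  have h : (univ.filter fun i : Fin S × Fin B => bx K e q.1 i = q.2 ∧ ω i ≠ none) ⊆
      (univ.filter fun b : Fin B => b.val / (2 ^ (e - q.1)) = q.2.2).biUnion fun b =>
        (univ.filter fun s : Fin S => s.val / (K * 2 ^ (e - q.1)) = q.2.1 ∧ ω (s, b) ≠ none).image
          fun s => (s, b) := by
    intro i hi
    simp only [Finset.mem_filter, Finset.mem_univ, true_and, bx] at hi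
    simp only [Finset.mem_biUnion, Finset.mem_filter, Finset.mem_univ, true_and, Finset.mem_image]
    rw [Prod.ext_iff] at hi
    exact ⟨i.2, hi.1.2, i.1, ⟨hi.1.1, hi.2⟩, rfl⟩
  refine (Finset.card_le_card h).trans (Finset.card_biUnion_le.trans ?_)
  refine (Finset.sum_le_sum (g := fun _ => 3 * 2 ^ (e - q.1)) fun b _ =>
    Finset.card_image_le.trans (hω q.1 hq q.2.1 b)).trans ?_
  rw [Finset.sum_const, smul_eq_mul, mul_comm]
  exact Nat.mul_le_mul_left _ (card_bonds B (by positivity) _)

theorem sum_sq_le (e : ℕ) (F : Finset Bx) :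
    ∑ q ∈ F, 2 ^ (e - q.1) * 2 ^ (e - q.1) ≤ 2 ^ e * bsize e F := by
  unfold bsize
  rw [Finset.mul_sum]
  refine Finset.sum_le_sum fun q _ => ?_
  exact Nat.mul_le_mul_right _ (Nat.pow_le_pow_right (by norm_num) (Nat.sub_le _ _))

/-- cells of a family -/
theorem card_bcells {S B K e : ℕ} (hK : 0 < K) (F : Finset Bx) :
    (bcells S B K e F).card ≤ K * (2 ^ e * bsize e F) := by
  have h : bcells S B K e F ⊆ F.biUnion fun q =>
      univ.filter fun i : Fin S × Fin B => bx K e q.1 i = q.2 := by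
    intro i hi
    unfold bcells at hi
    simp only [Finset.mem_filter, Finset.mem_univ, true_and] at hi
    simp only [Finset.mem_biUnion, Finset.mem_filter, Finset.mem_univ, true_and]
    exact hi
  refine (Finset.card_le_card h).trans (Finset.card_biUnion_le.trans ?_)
  refine (Finset.sum_le_sum fun q _ => box_cells hK q).trans ?_
  refine le_trans (le_of_eq ?_) (Nat.mul_le_mul_left K (sum_sq_le e F))
  rw [Finset.mul_sum]
  exact Finset.sum_congr rfl fun q _ => by ring

/-- rings of a family -/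
theorem rings_bcells {S B K e J : ℕ} {ω : Sl S B} (hω : ω ∈ Typ S B K e J) (F : Finset Bx)
    (hF : F ⊆ allB S B K e J) :
    ((bcells S B K e F).filter fun i => ω i ≠ none).card ≤ 3 * (2 ^ e * bsize e F) := by
  have h : ((bcells S B K e F).filter fun i => ω i ≠ none) ⊆ F.biUnion fun q =>
      univ.filter fun i : Fin S × Fin B => bx K e q.1 i = q.2 ∧ ω i ≠ none := by
    intro i hi
    unfold bcells at hi
    simp only [Finset.mem_filter, Finset.mem_univ, true_and] at hi
    simp only [Finset.mem_biUnion, Finset.mem_filter, Finset.mem_univ, true_and]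
    obtain ⟨⟨q, hq, h1⟩, h2⟩ := hi
    exact ⟨q, hq, h1, h2⟩
  refine (Finset.card_le_card h).trans (Finset.card_biUnion_le.trans ?_)
  have hJ : ∀ q ∈ F, q.1 ≤ J := by
    intro q hq
    have := hF hq
    unfold allB at this
    simp only [Finset.mem_biUnion, Finset.mem_range, Finset.mem_image] at this
    obtain ⟨j, hj, c, _, rfl⟩ := this
    simp only
    omega
  refine (Finset.sum_le_sum fun q hq => box_rings hω q (hJ q hq)).trans ?_
  refine le_trans (le_of_eq ?_) (Nat.mul_le_mul_left 3 (sum_sq_le e F))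
  rw [Finset.mul_sum]
  exact Finset.sum_congr rfl fun q _ => by ring

/-- rings above the boxes -/
theorem rank_typ {S B K e J : ℕ} {ω ω' : Sl S B} (hω : ω ∈ Typ S B K e J)
    (hω' : ω' ∈ Typ S B K e J) (F : Finset Bx) (hF : F ⊆ allB S B K e J) :
    ∑ q ∈ F, (2 ^ (e - q.1) + (above K e q ω ω').card) ≤ 7 * bsize e F := by
  unfold bsize
  rw [Finset.mul_sum]
  refine Finset.sum_le_sum fun q hq => ?_
  have hJ : q.1 ≤ J := by
    have := hF hq
    unfold allB at this
    simp only [Finset.mem_biUnion, Finset.mem_range, Finset.mem_image] at this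
    obtain ⟨j, hj, c, _, rfl⟩ := this
    simp only
    omega
  have h : (above K e q ω ω').card ≤ 6 * 2 ^ (e - q.1) := by
    by_cases hb : (q.2.2 + 1) * 2 ^ (e - q.1) < B
    · have h1 : above K e q ω ω' ⊆
          (univ.filter fun s : Fin S => s.val / (K * 2 ^ (e - q.1)) = q.2.1 ∧
            ω (s, ⟨_, hb⟩) ≠ none) ∪
          (univ.filter fun s : Fin S => s.val / (K * 2 ^ (e - q.1)) = q.2.1 ∧
            ω' (s, ⟨_, hb⟩) ≠ none) := by
        intro s hs
        unfold above at hs
        simp only [Finset.mem_filter, Finset.mem_univ, true_and] at hs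
        obtain ⟨h1, b, h2, h3⟩ := hs
        have hbe : b = ⟨_, hb⟩ := Fin.ext h2
        subst hbe
        simp only [Finset.mem_union, Finset.mem_filter, Finset.mem_univ, true_and]
        rcases h3 with h3 | h3
        · exact Or.inl ⟨h1, h3⟩
        · exact Or.inr ⟨h1, h3⟩
      refine (Finset.card_le_card h1).trans ((Finset.card_union_le _ _).trans ?_)
      have a1 := hω q.1 hJ q.2.1 ⟨_, hb⟩
      have a2 := hω' q.1 hJ q.2.1 ⟨_, hb⟩
      omega
    · have h1 : above K e q ω ω' = ∅ := by
        unfold above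
        rw [Finset.filter_eq_empty_iff]
        rintro s - ⟨_, b, h2, _⟩
        have := b.isLt
        omega
      rw [h1]
      simp
  omega

/-- number of rings of a typical configuration -/
theorem rn_typ {S B K e J : ℕ} {ω : Sl S B} (hω : ω ∈ Typ S B K e J) :
    rn ω ≤ B * ((S / (K * 2 ^ (e - J)) + 1) * (3 * 2 ^ (e - J))) := by
  have h : (univ.filter fun i : Fin S × Fin B => ω i ≠ none) ⊆
      (univ : Finset (Fin B)).biUnion fun b =>
        (range (S / (K * 2 ^ (e - J)) + 1)).biUnion fun a =>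
          (univ.filter fun s : Fin S => s.val / (K * 2 ^ (e - J)) = a ∧ ω (s, b) ≠ none).image
            fun s => (s, b) := by
    intro i hi
    simp only [Finset.mem_filter, Finset.mem_univ, true_and] at hi
    simp only [Finset.mem_biUnion, Finset.mem_univ, true_and, Finset.mem_range, Finset.mem_image,
      Finset.mem_filter]
    refine ⟨i.2, i.1.val / (K * 2 ^ (e - J)), ?_, i.1, ⟨rfl, hi⟩, rfl⟩
    have := Nat.div_le_div_right (c := K * 2 ^ (e - J)) i.1.isLt.le
    omega
  unfold rn
  refine (Finset.card_le_card h).trans (Finset.card_biUnion_le.trans ?_)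
  refine (Finset.sum_le_sum (g := fun _ => (S / (K * 2 ^ (e - J)) + 1) * (3 * 2 ^ (e - J)))
    fun b _ => ?_).trans ?_
  · refine Finset.card_biUnion_le.trans ?_
    refine (Finset.sum_le_sum (g := fun _ => 3 * 2 ^ (e - J)) fun a _ =>
      Finset.card_image_le.trans (hω J le_rfl a b)).trans ?_
    rw [Finset.sum_const, Finset.card_range, smul_eq_mul]
  · rw [Finset.sum_const, Finset.card_univ, Fintype.card_fin, smul_eq_mul]

/-! #### probabilities -/

open Classical in
/-- probability of an event -/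
noncomputable def prw {ι S : Type} [Fintype ι] [DecidableEq ι] [Fintype S] (w : S → ℝ)
    (G : Set (ι → S)) : ℝ := ∑ ω, if ω ∈ G then pw w ω else 0

theorem sw_nonneg {p : ℝ} (hp : 0 ≤ p) (hp1 : p ≤ 1) (s : Option (ZMod 2)) : 0 ≤ sw p s := by
  cases s with
  | none => simp only [sw]; linarith
  | some _ => simp only [sw]; linarith

theorem sw_sum (p : ℝ) : ∑ s, sw p s = 1 := by
  rw [Fintype.sum_option]
  have : ∑ i : ZMod 2, sw p (some i) = p := by
    have h2 : (Finset.univ : Finset (ZMod 2)) = {0, 1} := by decide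
    rw [h2, Finset.sum_pair (by decide)]
    simp only [sw]
    ring
  rw [this]
  simp only [sw]
  ring

section prob

variable {ι S : Type} [Fintype ι] [DecidableEq ι] [Fintype S] {w : S → ℝ}

theorem pw_nonneg (hw : ∀ s, 0 ≤ w s) (ω : ι → S) : 0 ≤ pw w ω :=
  Finset.prod_nonneg fun _ _ => hw _

theorem pw_sum (hw1 : ∑ s, w s = 1) : ∑ ω : ι → S, pw w ω = 1 := by
  unfold pw
  rw [← Fintype.piFinset_univ, ← Finset.prod_univ_sum (fun _ => univ) (fun _ => w)]
  simp [hw1]

theorem prw_mono (hw : ∀ s, 0 ≤ w s) {G G' : Set (ι → S)} (h : G ⊆ G') : prw w G ≤ prw w G' := by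
  classical
  unfold prw
  refine Finset.sum_le_sum fun ω _ => ?_
  by_cases h1 : ω ∈ G
  · rw [if_pos h1, if_pos (h h1)]
  · rw [if_neg h1]
    split_ifs
    · exact pw_nonneg hw ω
    · exact le_rfl

theorem prw_union (hw : ∀ s, 0 ≤ w s) (G G' : Set (ι → S)) :
    prw w (G ∪ G') ≤ prw w G + prw w G' := by
  classical
  unfold prw
  rw [← Finset.sum_add_distrib]
  refine Finset.sum_le_sum fun ω _ => ?_
  have h0 := pw_nonneg hw ω
  by_cases h1 : ω ∈ G <;> by_cases h2 : ω ∈ G' <;> simp [h1, h2, h0]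

theorem prw_biUnion (hw : ∀ s, 0 ≤ w s) {κ : Type} (s : Finset κ) (G : κ → Set (ι → S)) :
    prw w {ω | ∃ a ∈ s, ω ∈ G a} ≤ ∑ a ∈ s, prw w (G a) := by
  classical
  induction s using Finset.induction_on with
  | empty =>
    have : {ω : ι → S | ∃ a ∈ (∅ : Finset κ), ω ∈ G a} = ∅ := by ext; simp
    rw [this]
    simp [prw]
  | insert a s ha ih =>
    rw [Finset.sum_insert ha]
    have : {ω | ∃ b ∈ insert a s, ω ∈ G b} = G a ∪ {ω | ∃ b ∈ s, ω ∈ G b} := by
      ext ω; simp
    rw [this]
    exact (prw_union hw _ _).trans (by linarith)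

end prob

/-- atypical configurations are rare -/
theorem prob_typ {S B K e J : ℕ} {p : ℝ} (hK : 0 < K) (hp : 0 ≤ p) (hp1 : p ≤ 1)
    (hpK : p * K ≤ 1) : prw (sw p) (Typ S B K e J)ᶜ ≤
      ((J + 1 : ℕ) : ℝ) * ((S + 1 : ℕ) : ℝ) * (B : ℝ) * Real.exp (-(2 ^ (e - J) : ℕ)) := by
  classical
  have h1 : (Typ S B K e J)ᶜ ⊆ {ω : Sl S B | ∃ x ∈ (range (J + 1) ×ˢ range (S + 1)) ×ˢ
      (univ : Finset (Fin B)), ω ∈ {ω : Sl S B | 3 * ((2 ^ (e - x.1.1) : ℕ) : ℝ) <
        (((univ.filter fun i : Fin S × Fin B => i.1.val / (K * 2 ^ (e - x.1.1)) = x.1.2 ∧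
          i.2 = x.2).filter fun i => ω i ≠ none).card : ℝ)}} := by
    intro ω hω
    simp only [Typ, Set.mem_compl_iff, Set.mem_ofPred_eq] at hω
    push Not at hω
    obtain ⟨j, hj, a, b, hab⟩ := hω
    have hcard : (univ.filter fun s : Fin S => s.val / (K * 2 ^ (e - j)) = a ∧
        ω (s, b) ≠ none).card = ((univ.filter fun i : Fin S × Fin B =>
          i.1.val / (K * 2 ^ (e - j)) = a ∧ i.2 = b).filter fun i => ω i ≠ none).card := by
      refine Finset.card_bij (fun s _ => (s, b)) ?_ ?_ ?_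
      · intro s hs
        simp only [Finset.mem_filter, Finset.mem_univ, true_and] at hs
        rw [Finset.mem_filter, Finset.mem_filter]
        exact ⟨⟨Finset.mem_univ _, hs.1, rfl⟩, hs.2⟩
      · intro s _ s' _ h
        exact (Prod.ext_iff.1 h).1
      · rintro ⟨s, b'⟩ hi
        simp only [Finset.mem_filter, Finset.mem_univ, true_and] at hi
        obtain ⟨⟨h1, rfl⟩, h3⟩ := hi
        exact ⟨s, by rw [Finset.mem_filter]; exact ⟨Finset.mem_univ _, h1, h3⟩, rfl⟩
    rw [hcard] at hab
    have ha : a < S + 1 := by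
      by_contra hcon
      have : (univ.filter fun s : Fin S => s.val / (K * 2 ^ (e - j)) = a ∧
        ω (s, b) ≠ none) = ∅ := by
        rw [Finset.filter_eq_empty_iff]
        rintro s - ⟨h1, _⟩
        have := Nat.div_le_self s.val (K * 2 ^ (e - j))
        have := s.isLt
        omega
      rw [← hcard, this] at hab
      simp at hab
    refine ⟨((j, a), b), ?_, ?_⟩
    · simp only [Finset.mem_product, Finset.mem_range, Finset.mem_univ, and_true]
      exact ⟨by omega, ha⟩
    · simp only [Set.mem_ofPred_eq]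
      exact_mod_cast hab
  refine (prw_mono (sw_nonneg hp hp1) h1).trans ((prw_biUnion (sw_nonneg hp hp1) _ _).trans ?_)
  have h2 : ∀ x ∈ (range (J + 1) ×ˢ range (S + 1)) ×ˢ (univ : Finset (Fin B)),
      prw (sw p) {ω : Sl S B | 3 * ((2 ^ (e - x.1.1) : ℕ) : ℝ) <
        (((univ.filter fun i : Fin S × Fin B => i.1.val / (K * 2 ^ (e - x.1.1)) = x.1.2 ∧
          i.2 = x.2).filter fun i => ω i ≠ none).card : ℝ)} ≤ Real.exp (-(2 ^ (e - J) : ℕ)) := by
    intro x hx
    simp only [Finset.mem_product, Finset.mem_range, Finset.mem_univ, and_true] at hx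
    have hc : (univ.filter fun i : Fin S × Fin B => i.1.val / (K * 2 ^ (e - x.1.1)) = x.1.2 ∧
          i.2 = x.2).card ≤ K * 2 ^ (e - x.1.1) := by
      have h3 : (univ.filter fun i : Fin S × Fin B => i.1.val / (K * 2 ^ (e - x.1.1)) = x.1.2 ∧
          i.2 = x.2) ⊆ (univ.filter fun s : Fin S => s.val / (K * 2 ^ (e - x.1.1)) = x.1.2).image
            fun s => (s, x.2) := by
        rintro ⟨s, b⟩ hi
        simp only [Finset.mem_filter, Finset.mem_univ, true_and, Finset.mem_image] at hi ⊢
        exact ⟨s, hi.1, Prod.ext rfl hi.2.symm⟩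
      exact (Finset.card_le_card h3).trans (Finset.card_image_le.trans
        (card_window S (by positivity) _))
    have h4 := chernoff hp hp1 (univ.filter fun i : Fin S × Fin B =>
      i.1.val / (K * 2 ^ (e - x.1.1)) = x.1.2 ∧ i.2 = x.2) ((2 ^ (e - x.1.1) : ℕ) : ℝ) ?_
    · refine le_trans (le_of_eq ?_) (h4.trans (Real.exp_le_exp.2 (neg_le_neg ?_)))
      · rfl
      · exact_mod_cast Nat.pow_le_pow_right (by norm_num) (by omega)
    · have h5 : ((univ.filter fun i : Fin S × Fin B => i.1.val / (K * 2 ^ (e - x.1.1)) = x.1.2 ∧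
          i.2 = x.2).card : ℝ) ≤ (K : ℝ) * ((2 ^ (e - x.1.1) : ℕ) : ℝ) := by exact_mod_cast hc
      calc p * _ ≤ p * ((K : ℝ) * ((2 ^ (e - x.1.1) : ℕ) : ℝ)) :=
            mul_le_mul_of_nonneg_left h5 hp
        _ = (p * K) * ((2 ^ (e - x.1.1) : ℕ) : ℝ) := by ring
        _ ≤ 1 * ((2 ^ (e - x.1.1) : ℕ) : ℝ) := mul_le_mul_of_nonneg_right hpK (by positivity)
        _ = _ := one_mul _
  refine (Finset.sum_le_sum h2).trans ?_
  rw [Finset.sum_const, Finset.card_product, Finset.card_product, Finset.card_range,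
    Finset.card_range, Finset.card_univ, Fintype.card_fin, nsmul_eq_mul]
  push_cast
  exact le_rfl

end Pool.Agent.CutSeq
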