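import Pool.Agent.CutSeq.SoftDefs

/-! Row A5a: counting by transport (replace a piece of the configuration). -/

set_option autoImplicit false

namespace Pool.Agent.CutSeq

open Finset

open Classical in
/-- the total weight of the changes inside `A` is one -/
theorem sum_off {ι S : Type} [Fintype ι] [DecidableEq ι] [Fintype S] (w : S → ℝ)
    (hw1 : ∑ s, w s = 1) (A : Finset ι) (ω' : ι → S) :
    (∑ ω : ι → S, if ∀ i, i ∉ A → ω i = ω' i then ∏ i ∈ A, w (ω i) else 0) = 1 := by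
  have h1 : ∀ ω : ι → S, (if ∀ i, i ∉ A → ω i = ω' i then ∏ i ∈ A, w (ω i) else 0)
      = ∏ i, if i ∈ A then w (ω i) else if ω i = ω' i then 1 else 0 := by
    intro ω
    rw [← Finset.prod_mul_prod_compl A]
    have e1 : ∏ i ∈ A, (if i ∈ A then w (ω i) else if ω i = ω' i then 1 else 0)
        = ∏ i ∈ A, w (ω i) := by
      apply Finset.prod_congr rfl
      intro i hi
      rw [if_pos hi]
    have e2 : ∏ i ∈ Aᶜ, (if i ∈ A then w (ω i) else if ω i = ω' i then 1 else 0)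
        = ∏ i ∈ Aᶜ, if ω i = ω' i then (1 : ℝ) else 0 := by
      apply Finset.prod_congr rfl
      intro i hi
      rw [if_neg (Finset.mem_compl.mp hi)]
    rw [e1, e2]
    by_cases h : ∀ i, i ∉ A → ω i = ω' i
    · rw [if_pos h, Finset.prod_eq_one (s := Aᶜ), mul_one]
      intro i hi
      rw [if_pos (h i (Finset.mem_compl.mp hi))]
    · rw [if_neg h]
      push Not at h
      obtain ⟨i, hi, hne⟩ := h
      rw [Finset.prod_eq_zero (i := i) (Finset.mem_compl.mpr hi) (if_neg hne), mul_zero]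
  rw [Finset.sum_congr rfl fun ω _ => h1 ω]
  have h2 := Finset.prod_univ_sum (fun _ : ι => (univ : Finset S))
    (fun i s => if i ∈ A then w s else if s = ω' i then (1 : ℝ) else 0)
  rw [Fintype.piFinset_univ] at h2
  rw [← h2]
  apply Finset.prod_eq_one
  intro i _
  by_cases hi : i ∈ A
  · simp only [if_pos hi]
    exact hw1
  · simp only [if_neg hi]
    rw [Finset.sum_ite_eq']
    simp

theorem pw_nonneg' {ι S : Type} [Fintype ι] (w : S → ℝ) (hw0 : ∀ s, 0 ≤ w s) (ω : ι → S) :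
    0 ≤ pw w ω := Finset.prod_nonneg fun _ _ => hw0 _

open Classical in
/-- the transport kernel -/
noncomputable def ctk {ι S β : Type} [Fintype ι] (w : S → ℝ) (T : Set (ι → S)) (φ : (ι → S) → β)
    (Rx : Finset β) (A : Finset ι) (ω ω' : ι → S) : ℝ :=
  if ω' ∈ T ∧ φ ω' ∈ Rx then pw w ω' *
    (if ∀ i, i ∉ A → ω i = ω' i then ∏ i ∈ A, w (ω i) else 0) else 0

theorem ctk_nonneg {ι S β : Type} [Fintype ι] (w : S → ℝ) (hw0 : ∀ s, 0 ≤ w s)
    (T : Set (ι → S)) (φ : (ι → S) → β) (Rx : Finset β) (A : Finset ι) (ω ω' : ι → S) :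
    0 ≤ ctk w T φ Rx A ω ω' := by
  unfold ctk
  split_ifs
  · exact mul_nonneg (pw_nonneg' w hw0 ω') (Finset.prod_nonneg fun _ _ => hw0 _)
  · rw [mul_zero]
  · exact le_rfl

theorem ctk_of {ι S β : Type} [Fintype ι] (w : S → ℝ)
    (T : Set (ι → S)) (φ : (ι → S) → β) (Rx : Finset β) (A : Finset ι) (ω ω' : ι → S)
    (h1 : ω' ∈ T) (h2 : φ ω' ∈ Rx) (h3 : ∀ i, i ∉ A → ω i = ω' i) :
    ctk w T φ Rx A ω ω' = pw w ω' * ∏ i ∈ A, w (ω i) := by
  unfold ctk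
  rw [if_pos ⟨h1, h2⟩, if_pos h3]

open Classical in
theorem ctk_sum {ι S β : Type} [Fintype ι] [DecidableEq ι] [Fintype S] (w : S → ℝ)
    (hw1 : ∑ s, w s = 1) (T : Set (ι → S)) (φ : (ι → S) → β) (Rx : Finset β) (A : Finset ι)
    (ω' : ι → S) :
    ∑ ω, ctk w T φ Rx A ω ω' = if ω' ∈ T ∧ φ ω' ∈ Rx then pw w ω' else 0 := by
  by_cases h1 : ω' ∈ T ∧ φ ω' ∈ Rx
  · rw [if_pos h1]
    have h2 : ∀ ω : ι → S, ctk w T φ Rx A ω ω'
        = pw w ω' * (if ∀ i, i ∉ A → ω i = ω' i then ∏ i ∈ A, w (ω i) else 0) := by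
      intro ω
      unfold ctk
      rw [if_pos h1]
      by_cases h3 : ∀ i, i ∉ A → ω i = ω' i
      · rw [if_pos h3, if_pos h3]
      · rw [if_neg h3, if_neg h3]
    rw [Finset.sum_congr rfl fun ω _ => h2 ω, ← Finset.mul_sum, sum_off w hw1 A ω', mul_one]
  · rw [if_neg h1]
    apply Finset.sum_eq_zero
    intro ω _
    unfold ctk
    rw [if_neg h1]

open Classical in
theorem sum_fib {Ω β : Type} [Fintype Ω] (T : Set Ω) (φ : Ω → β) (Rx : Finset β) (f : Ω → ℝ) :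
    (∑ ω', if ω' ∈ T ∧ φ ω' ∈ Rx then f ω' else 0)
      = ∑ x' ∈ Rx, ∑ ω, if ω ∈ T ∧ φ ω = x' then f ω else 0 := by
  rw [Finset.sum_comm]
  apply Finset.sum_congr rfl
  intro ω' _
  by_cases hT : ω' ∈ T
  · by_cases hR : φ ω' ∈ Rx
    · rw [if_pos ⟨hT, hR⟩, Finset.sum_eq_single (φ ω')]
      · rw [if_pos ⟨hT, rfl⟩]
      · intro b _ hb
        rw [if_neg fun e => hb e.2.symm]
      · intro hb
        exact absurd hR hb
    · rw [if_neg fun e => hR e.2, Finset.sum_eq_zero]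
      intro b hb
      rw [if_neg fun e => hR (by rw [e.2]; exact hb)]
  · rw [if_neg fun e => hT e.1, Finset.sum_eq_zero]
    intro b _
    rw [if_neg fun e => hT e.1]

theorem pw_le_off {ι S : Type} [Fintype ι] [DecidableEq ι] (w : S → ℝ) (hw0 : ∀ s, 0 ≤ w s)
    (m : ℝ) (A : Finset ι) (ω ω' : ι → S) (hoff : ∀ i, i ∉ A → ω i = ω' i)
    (hmA : m ≤ ∏ i ∈ A, w (ω' i)) : m * pw w ω ≤ pw w ω' * ∏ i ∈ A, w (ω i) := by
  unfold pw
  rw [← Finset.prod_mul_prod_compl A (fun i => w (ω i)),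
    ← Finset.prod_mul_prod_compl A (fun i => w (ω' i))]
  have e : ∏ i ∈ Aᶜ, w (ω i) = ∏ i ∈ Aᶜ, w (ω' i) := by
    apply Finset.prod_congr rfl
    intro i hi
    rw [hoff i (Finset.mem_compl.mp hi)]
  rw [e]
  have h1 : 0 ≤ ∏ i ∈ A, w (ω i) := Finset.prod_nonneg fun _ _ => hw0 _
  have h2 : 0 ≤ ∏ i ∈ Aᶜ, w (ω' i) := Finset.prod_nonneg fun _ _ => hw0 _
  have h3 := mul_le_mul_of_nonneg_right hmA (mul_nonneg h1 h2)
  calc m * ((∏ i ∈ A, w (ω i)) * ∏ i ∈ Aᶜ, w (ω' i))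
      ≤ (∏ i ∈ A, w (ω' i)) * ((∏ i ∈ A, w (ω i)) * ∏ i ∈ Aᶜ, w (ω' i)) := h3
    _ = _ := by ring

open Classical in
/-- if every configuration of `GG` becomes a configuration of `T` by changing the cells of a set of
the list `Φ`, the new piece having weight at least `m`, and the value `φ` changes within `R`, then
the law of `φ` on `GG` is bounded by the law of `φ` on `T` -/
theorem count_transport {ι S β : Type} [Fintype ι] [DecidableEq ι] [Fintype S] (w : S → ℝ)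
    (hw0 : ∀ s, 0 ≤ w s) (hw1 : ∑ s, w s = 1) (GG T : Set (ι → S)) (Φ : Finset (Finset ι))
    (φ : (ι → S) → β) (R : β → Finset β) (m : ℝ) (hm : 0 < m)
    (h : ∀ ω ∈ GG, ∃ A ∈ Φ, ∃ ω' ∈ T, (∀ i, i ∉ A → ω i = ω' i) ∧ φ ω' ∈ R (φ ω) ∧
      m ≤ ∏ i ∈ A, w (ω' i)) (x : β) :
    (∑ ω, if ω ∈ GG ∧ φ ω = x then pw w ω else 0)
      ≤ (Φ.card : ℝ) / m * ∑ x' ∈ R x, ∑ ω, if ω ∈ T ∧ φ ω = x' then pw w ω else 0 := by
  have hnn := ctk_nonneg w hw0 T φ (R x)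
  have hone : ∀ ω : ι → S, m * (if ω ∈ GG ∧ φ ω = x then pw w ω else 0)
      ≤ ∑ A ∈ Φ, ∑ ω', ctk w T φ (R x) A ω ω' := by
    intro ω
    by_cases hω : ω ∈ GG ∧ φ ω = x
    · rw [if_pos hω]
      obtain ⟨A, hA, ω', hT, hoff, hR, hmA⟩ := h ω hω.1
      rw [hω.2] at hR
      have s1 : m * pw w ω ≤ ctk w T φ (R x) A ω ω' := by
        rw [ctk_of w T φ (R x) A ω ω' hT hR hoff]
        exact pw_le_off w hw0 m A ω ω' hoff hmA
      have s2 : ctk w T φ (R x) A ω ω' ≤ ∑ ω', ctk w T φ (R x) A ω ω' :=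
        Finset.single_le_sum (f := fun ω' => ctk w T φ (R x) A ω ω')
          (fun ω' _ => hnn A ω ω') (Finset.mem_univ ω')
      have s3 : ∑ ω', ctk w T φ (R x) A ω ω' ≤ ∑ A ∈ Φ, ∑ ω', ctk w T φ (R x) A ω ω' :=
        Finset.single_le_sum (f := fun A => ∑ ω', ctk w T φ (R x) A ω ω')
          (fun A _ => Finset.sum_nonneg fun ω' _ => hnn A ω ω') hA
      exact s1.trans (s2.trans s3)
    · rw [if_neg hω, mul_zero]
      exact Finset.sum_nonneg fun A _ => Finset.sum_nonneg fun ω' _ => hnn A ω ω'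
  have hswap : ∑ ω, ∑ A ∈ Φ, ∑ ω', ctk w T φ (R x) A ω ω'
      = (Φ.card : ℝ) * ∑ x' ∈ R x, ∑ ω, if ω ∈ T ∧ φ ω = x' then pw w ω else 0 := by
    rw [Finset.sum_comm]
    have e1 : ∀ A ∈ Φ, ∑ ω, ∑ ω', ctk w T φ (R x) A ω ω'
        = ∑ x' ∈ R x, ∑ ω, if ω ∈ T ∧ φ ω = x' then pw w ω else 0 := by
      intro A _
      rw [Finset.sum_comm, ← sum_fib T φ (R x) (pw w)]
      exact Finset.sum_congr rfl fun ω' _ => ctk_sum w hw1 T φ (R x) A ω'
    rw [Finset.sum_congr rfl e1, Finset.sum_const, nsmul_eq_mul]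
  have hsum := Finset.sum_le_sum (s := (univ : Finset (ι → S))) fun ω _ => hone ω
  rw [hswap, ← Finset.mul_sum] at hsum
  rw [div_mul_eq_mul_div, le_div_iff₀ hm, mul_comm _ m]
  exact hsum

end Pool.Agent.CutSeq
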