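import Pool.Agent.CutSeq.Soft

/-! Target (A): definitions (product weights, slot model, sums of rank one terms). -/

set_option autoImplicit false

namespace Pool.Agent.CutSeq

open Finset

/-! #### product spaces -/

/-- product weight -/
noncomputable def pw {ι S : Type} [Fintype ι] (w : S → ℝ) (ω : ι → S) : ℝ := ∏ i, w (ω i)

/-- expectation -/
noncomputable def ex {ι S : Type} [Fintype ι] [DecidableEq ι] [Fintype S] (w : S → ℝ)
    (f : (ι → S) → ℝ) : ℝ := ∑ ω, pw w ω * f ω

/-! #### the slot model -/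

/-- weights of a cell: no ring; ring with coin -/
noncomputable def sw (p : ℝ) : Option (ZMod 2) → ℝ
  | none => 1 - p
  | some _ => p / 2

/-- slot configurations: cells are (slot, bond) -/
abbrev Sl (S B : ℕ) := Fin S × Fin B → Option (ZMod 2)

/-- coin field of a configuration -/
def cf {S B : ℕ} (ω : Sl S B) (s b : ℕ) : ZMod 2 :=
  if h : s < S ∧ b < B then (ω (⟨s, h.1⟩, ⟨b, h.2⟩)).getD 0 else 0

/-- array driven by a coin field (all bonds of a slot act at the same time) -/
def Ev (c : ℕ → ℕ → ZMod 2) : ℕ → ℕ → ℕ → ZMod 2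
  | 0, k, j => if k = j then 1 else 0
  | s + 1, k, j => Ev c s k j + if k = 0 then 0 else c s (k - 1) * Ev c s (k - 1) j

/-- the first `n` rows after all slots -/
def sm {S B : ℕ} (ω : Sl S B) (n : ℕ) : Un n := fun k j => Ev (cf ω) S k.val j.val

/-- number of rings -/
def rn {S B : ℕ} (ω : Sl S B) : ℕ := (univ.filter fun i => ω i ≠ none).card

/-- no two rings in the same slot -/
def nocol {S B : ℕ} (ω : Sl S B) : Prop :=
  ∀ (s : Fin S) (b b' : Fin B), ω (s, b) ≠ none → ω (s, b') ≠ none → b = b'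

/-! #### sums of rank one terms -/

/-- sum of `r` rank one terms -/
def Rk (r : ℕ) (D : ℕ → ℕ → ZMod 2) : Prop :=
  ∃ u v : Fin r → ℕ → ZMod 2, ∀ k j, D k j = ∑ a, u a k * v a j

/-- arrays which differ by a sum of `r` rank one terms -/
def RkU (r : ℕ) {n : ℕ} (x x' : Un n) : Prop :=
  ∃ D, Rk r D ∧ ∀ (k : Fin n) (j : Fin k.val), x k j - x' k j = D k.val j.val

end Pool.Agent.CutSeq
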