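import Pool.Agent.CutSeq.SoftBox

/-! Row A6: the parameters of the soft concentration. -/

set_option autoImplicit false

namespace Pool.Agent.CutSeq

open Finset

/-- numerical hypotheses: `n = B + 1` levels, `S = K * U` slots, `p * S = t`, sides
`2 ^ e, …, 2 ^ (e - J)`, radius `M` -/
structure Par (h σ q V δ : ℝ) (N n B K U e J M : ℕ) (p t : ℝ) : Prop where
  hB : 0 < B
  hn : n = B + 1
  hnN : n ≤ N
  hK : 0 < K
  hU : 0 < U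
  hJe : J ≤ e
  hp : 0 < p
  hp1 : p ≤ 1 / 2
  hpK : p * K ≤ 1
  hpt : p * ((K * U : ℕ) : ℝ) = t
  hM : 0 < M
  /-- collisions -/
  col : ((K * U : ℕ) : ℝ) * B ^ 2 * p ^ 2 ≤ δ
  /-- atypical configurations -/
  typ : ((J + 1 : ℕ) : ℝ) * ((K * U + 1 : ℕ) : ℝ) * (B : ℝ) * Real.exp (-(2 ^ (e - J) : ℕ)) ≤ δ
  hδ : 7 * δ ≤ h / 6
  hδ' : δ ≤ 1 / 4
  /-- total number of rings -/
  lm : p * ((B * ((K * U / (K * 2 ^ (e - J)) + 1) * (3 * 2 ^ (e - J))) : ℕ) : ℝ) ≤ 1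
  /-- variance -/
  hV : 12 * V ≤ h * M ^ 2
  hV' : 4 * V ≤ q / 2 * M ^ 2
  /-- the rest -/
  rest : 7 * δ + 2 ^ (allB (K * U) B K e J).card * 2 ^ (14 * n * M) /
      ((p / 2) ^ (3 * (2 ^ e * M)) * Real.exp (-(2 * (2 ^ e * M : ℕ)))) *
      (Real.exp 1 * (2 / h)) * Real.exp (-(σ * (N : ℝ) ^ 2)) ≤ q / 2

end Pool.Agent.CutSeq
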