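import Pool.Agent.CutSeq.SoftDefs
import Pool.Agent.CutSeq.Bridge

/-! Row A2: the slot model and the continuous time law. -/

set_option autoImplicit false
set_option linter.unusedSectionVars false
set_option linter.unusedVariables false

namespace Pool.Agent.CutSeq

open Finset

variable {S B n : ℕ} {p : ℝ}

namespace Slt

/-! #### one slot -/

/-- at most one ring -/
def one (η : Fin B → Option (ZMod 2)) : Prop := ∀ b b', η b ≠ none → η b' ≠ none → b = b'

/-- one ring -/
def sg (b : Fin B) (ξ : ZMod 2) : Fin B → Option (ZMod 2) :=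
  Function.update (fun _ => none) b (some ξ)

theorem sg_same (b : Fin B) (ξ : ZMod 2) : sg b ξ b = some ξ := by
  unfold sg
  exact Function.update_self b _ _

theorem sg_ne {b b' : Fin B} (ξ : ZMod 2) (h : b' ≠ b) : sg b ξ b' = none := by
  unfold sg
  exact Function.update_of_ne h _ _

/-- number of rings in a slot -/
def rs (η : Fin B → Option (ZMod 2)) : ℕ := (univ.filter fun b => η b ≠ none).card

theorem rs_none : rs (fun _ : Fin B => none) = 0 := by
  unfold rs
  simp

theorem rs_sg (b : Fin B) (ξ : ZMod 2) : rs (sg b ξ) = 1 := by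
  unfold rs
  rw [card_eq_one]
  refine ⟨b, ?_⟩
  ext b'
  rw [mem_filter, mem_singleton]
  constructor
  · rintro ⟨_, h⟩
    by_contra hne
    exact h (sg_ne ξ hne)
  · rintro rfl
    exact ⟨mem_univ _, by rw [sg_same]; exact Option.some_ne_none ξ⟩

open Classical in
theorem sum_one (h : (Fin B → Option (ZMod 2)) → ℝ) :
    ∑ η, (if one η then h η else 0)
      = h (fun _ => none) + ∑ b : Fin B, ∑ ξ : ZMod 2, h (sg b ξ) := by
  rw [← sum_filter]
  have he : (univ.filter fun η : Fin B → Option (ZMod 2) => one η)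
      = insert (fun _ => none) (univ.image fun q : Fin B × ZMod 2 => sg q.1 q.2) := by
    ext η
    rw [mem_filter, mem_insert, mem_image]
    constructor
    · rintro ⟨_, h1⟩
      by_cases h2 : ∀ b, η b = none
      · exact Or.inl (funext h2)
      · push Not at h2
        obtain ⟨b, hb⟩ := h2
        obtain ⟨ξ, hξ⟩ := Option.ne_none_iff_exists'.1 hb
        refine Or.inr ⟨(b, ξ), mem_univ _, ?_⟩
        funext b'
        by_cases hbb : b' = b
        · rw [hbb, sg_same, hξ]
        · rw [sg_ne ξ hbb]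
          by_contra h3
          exact hbb (h1 b' b (fun h4 => h3 h4.symm) hb)
    · rintro (rfl | ⟨⟨b, ξ⟩, _, rfl⟩)
      · exact ⟨mem_univ _, fun b b' h1 => absurd rfl h1⟩
      · refine ⟨mem_univ _, fun b1 b2 h1 h2 => ?_⟩
        have e1 : b1 = b := by
          by_contra h3
          exact h1 (sg_ne ξ h3)
        have e2 : b2 = b := by
          by_contra h3
          exact h2 (sg_ne ξ h3)
        rw [e1, e2]
  rw [he, sum_insert, sum_image]
  · rw [Fintype.sum_prod_type]
  · rintro ⟨b, ξ⟩ _ ⟨b', ξ'⟩ _ h1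
    simp only at h1
    have e1 : b' = b := by
      by_contra h3
      have := congrFun h1 b'
      rw [sg_ne ξ h3, sg_same] at this
      exact Option.some_ne_none _ this.symm
    subst e1
    have := congrFun h1 b'
    rw [sg_same, sg_same] at this
    rw [Option.some.inj this]
  · rw [mem_image]
    rintro ⟨⟨b, ξ⟩, _, h1⟩
    have := congrFun h1 b
    simp only [sg_same] at this
    exact Option.some_ne_none _ this

theorem prod_none : ∏ b : Fin B, sw p ((fun _ : Fin B => (none : Option (ZMod 2))) b)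
    = (1 - p) ^ B := by
  simp [sw]

theorem prod_sg (b : Fin B) (ξ : ZMod 2) :
    ∏ b' : Fin B, sw p (sg b ξ b') = p / 2 * (1 - p) ^ (B - 1) := by
  rw [← mul_prod_erase univ _ (mem_univ b), sg_same]
  congr 1
  rw [prod_congr rfl (g := fun _ => 1 - p)]
  · rw [prod_const, card_erase_of_mem (mem_univ b), card_univ, Fintype.card_fin]
  · intro b' hb'
    rw [sg_ne ξ (ne_of_mem_erase hb')]
    rfl

/-! #### adding a slot -/

/-- add a slot -/
def jn (a : Sl S B) (η : Fin B → Option (ZMod 2)) : Sl (S + 1) B :=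
  fun i => Fin.snoc (α := fun _ => Option (ZMod 2)) (fun s => a (s, i.2)) (η i.2) i.1

theorem jn_cast (a : Sl S B) (η : Fin B → Option (ZMod 2)) (s : Fin S) (b : Fin B) :
    jn a η (s.castSucc, b) = a (s, b) := by
  unfold jn
  exact Fin.snoc_castSucc _ _ _

theorem jn_last (a : Sl S B) (η : Fin B → Option (ZMod 2)) (b : Fin B) :
    jn a η (Fin.last S, b) = η b := by
  unfold jn
  exact Fin.snoc_last _ _

/-- the last slot and the others -/
def jnE (S B : ℕ) : Sl S B × (Fin B → Option (ZMod 2)) ≃ Sl (S + 1) B where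
  toFun q := jn q.1 q.2
  invFun ω := (fun i => ω (i.1.castSucc, i.2), fun b => ω (Fin.last S, b))
  left_inv := by
    rintro ⟨a, η⟩
    simp only [jn_cast, jn_last]
  right_inv := by
    intro ω
    funext i
    obtain ⟨s, b⟩ := i
    refine Fin.lastCases ?_ (fun s => ?_) s
    · exact jn_last _ _ b
    · exact jn_cast _ _ s b

theorem pw_jn (a : Sl S B) (η : Fin B → Option (ZMod 2)) :
    pw (sw p) (jn a η) = pw (sw p) a * ∏ b, sw p (η b) := by
  unfold pw
  rw [Fintype.prod_prod_type, Fintype.prod_prod_type, Fin.prod_univ_castSucc]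
  simp only [jn_cast, jn_last]

theorem nocol_jn (a : Sl S B) (η : Fin B → Option (ZMod 2)) :
    nocol (jn a η) ↔ nocol a ∧ one η := by
  unfold nocol one
  rw [Fin.forall_fin_succ']
  simp only [jn_cast, jn_last]

theorem rn_jn (a : Sl S B) (η : Fin B → Option (ZMod 2)) : rn (jn a η) = rn a + rs η := by
  unfold rn rs
  rw [card_filter, card_filter, card_filter, Fintype.sum_prod_type, Fintype.sum_prod_type,
    Fin.sum_univ_castSucc]
  simp only [jn_cast, jn_last]

theorem Ev_congr {c c' : ℕ → ℕ → ZMod 2} (s : ℕ) (h : ∀ s' < s, ∀ b, c s' b = c' s' b) :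
    Ev c s = Ev c' s := by
  induction s with
  | zero => rfl
  | succ s ih =>
      funext k j
      simp only [Ev]
      rw [ih fun s' hs' => h s' (by omega), h s (by omega)]

theorem Ev_upper (c : ℕ → ℕ → ZMod 2) (s : ℕ) : ∀ k j, k < j → Ev c s k j = 0 := by
  induction s with
  | zero =>
      intro k j h
      simp only [Ev]
      rw [if_neg (by omega)]
  | succ s ih =>
      intro k j h
      simp only [Ev]
      rw [ih k j h]
      by_cases hk : k = 0
      · rw [if_pos hk, add_zero]
      · rw [if_neg hk, ih (k - 1) j (by omega), mul_zero, add_zero]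

theorem Ev_diag (c : ℕ → ℕ → ZMod 2) (s : ℕ) : ∀ k, Ev c s k k = 1 := by
  induction s with
  | zero =>
      intro k
      simp only [Ev]
      rw [if_pos trivial]
  | succ s ih =>
      intro k
      simp only [Ev]
      rw [ih k]
      by_cases hk : k = 0
      · rw [if_pos hk, add_zero]
      · rw [if_neg hk, Ev_upper c s (k - 1) k (by omega), mul_zero, add_zero]

theorem cf_jn_lt (a : Sl S B) (η : Fin B → Option (ZMod 2)) (s : ℕ) (hs : s < S) (b : ℕ) :
    cf (jn a η) s b = cf a s b := by
  unfold cf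
  by_cases hb : b < B
  · rw [dif_pos ⟨by omega, hb⟩, dif_pos ⟨hs, hb⟩]
    have : (⟨s, by omega⟩ : Fin (S + 1)) = (⟨s, hs⟩ : Fin S).castSucc := rfl
    rw [this, jn_cast]
  · rw [dif_neg fun h => hb h.2, dif_neg fun h => hb h.2]

theorem cf_jn_last (a : Sl S B) (η : Fin B → Option (ZMod 2)) (b : ℕ) :
    cf (jn a η) S b = if h : b < B then (η ⟨b, h⟩).getD 0 else 0 := by
  unfold cf
  by_cases hb : b < B
  · rw [dif_pos ⟨by omega, hb⟩, dif_pos hb]
    have : (⟨S, by omega⟩ : Fin (S + 1)) = Fin.last S := rfl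
    rw [this, jn_last]
  · rw [dif_neg fun h => hb h.2, dif_neg hb]

theorem Ev_jn (a : Sl S B) (η : Fin B → Option (ZMod 2)) (k j : ℕ) :
    Ev (cf (jn a η)) (S + 1) k j = Ev (cf a) S k j + if k = 0 then 0 else
      (if h : k - 1 < B then (η ⟨k - 1, h⟩).getD 0 else 0) * Ev (cf a) S (k - 1) j := by
  simp only [Ev]
  rw [Ev_congr S (fun s hs b => cf_jn_lt a η s hs b), cf_jn_last]

theorem sm_jn_none (a : Sl S B) : sm (jn a fun _ => none) n = sm a n := by
  funext k j
  unfold sm
  rw [Ev_jn]
  simp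

theorem en_sm (a : Sl S B) (k j : ℕ) (h : k < n) (h' : j < k) :
    Brg.en (sm a n) k j = Ev (cf a) S k j := by
  rw [Brg.en_mk _ k j h h']
  rfl

theorem cf_sg (b : Fin B) (ξ : ZMod 2) (b' : ℕ) :
    (if h : b' < B then (sg b ξ ⟨b', h⟩).getD 0 else 0) = if b' = b.val then ξ else 0 := by
  by_cases hb : b' < B
  · rw [dif_pos hb]
    by_cases hbb : b' = b.val
    · have : (⟨b', hb⟩ : Fin B) = b := Fin.ext hbb
      rw [this, sg_same, if_pos hbb]
      rfl
    · rw [sg_ne ξ (fun h => hbb (congrArg Fin.val h)), if_neg hbb]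
      rfl
  · rw [dif_neg hb, if_neg]
    have := b.isLt
    omega

theorem sm_jn_zero (a : Sl S B) (b : Fin B) : sm (jn a (sg b 0)) n = sm a n := by
  funext k j
  unfold sm
  rw [Ev_jn, cf_sg]
  simp

theorem sm_jn_one (a : Sl S B) (b : Fin B) : sm (jn a (sg b 1)) n = Brg.ro b.val (sm a n) := by
  apply Brg.en_ext
  intro k j h' h
  rw [en_sm _ k j h h', Brg.en_ro _ _ k j h h', en_sm _ k j h h', Ev_jn, cf_sg]
  congr 1
  by_cases hk : k = b.val + 1
  · rw [if_neg (by omega), if_pos (by omega), one_mul, if_pos hk]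
    have hk1 : k - 1 = b.val := by omega
    rw [hk1]
    by_cases hj : j = b.val
    · rw [if_pos hj, hj, Ev_diag]
    · rw [if_neg hj, en_sm _ _ j (by omega) (by omega)]
  · rw [if_neg hk]
    by_cases hk0 : k = 0
    · rw [if_pos hk0]
    · rw [if_neg hk0, if_neg (by omega), zero_mul]

/-! #### the recursion -/

/-- one letter on functions -/
noncomputable def Tg (B : ℕ) (g : Un n → ℝ) (z : Un n) : ℝ :=
  ∑ b ∈ range B, (g z + g (Brg.ro b z))

open Classical in
/-- restricted expectation -/
noncomputable def ZZ (p : ℝ) (S B L : ℕ) (g : Un n → ℝ) : ℝ :=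
  ∑ ω : Sl S B, if nocol ω ∧ rn ω = L then pw (sw p) ω * g (sm ω n) else 0

open Classical in
theorem ZZ_rec (L : ℕ) (g : Un n → ℝ) :
    ZZ p (S + 1) B L g = (1 - p) ^ B * ZZ p S B L g + p / 2 * (1 - p) ^ (B - 1) *
      ∑ a : Sl S B, if nocol a ∧ rn a + 1 = L then pw (sw p) a * Tg B g (sm a n) else 0 := by
  unfold ZZ
  rw [← (jnE S B).sum_comp, Fintype.sum_prod_type, mul_sum, mul_sum, ← sum_add_distrib]
  refine sum_congr rfl fun a _ => ?_
  have h1 : ∀ η : Fin B → Option (ZMod 2),
      (if nocol ((jnE S B) (a, η)) ∧ rn ((jnE S B) (a, η)) = L then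
        pw (sw p) ((jnE S B) (a, η)) * g (sm ((jnE S B) (a, η)) n) else 0)
      = if one η then (if nocol a ∧ rn a + rs η = L then
        pw (sw p) a * (∏ b, sw p (η b)) * g (sm (jn a η) n) else 0) else 0 := by
    intro η
    change (if nocol (jn a η) ∧ rn (jn a η) = L then
        pw (sw p) (jn a η) * g (sm (jn a η) n) else 0) = _
    rw [pw_jn, rn_jn]
    by_cases h2 : nocol a
    · by_cases h3 : one η
      · rw [if_pos h3]
        exact if_congr (by rw [nocol_jn]; tauto) rfl rfl
      · rw [if_neg h3, if_neg]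
        rw [nocol_jn]
        tauto
    · have h3 : ¬(nocol (jn a η) ∧ rn a + rs η = L) := by
        rw [nocol_jn]
        tauto
      rw [if_neg h3]
      by_cases h4 : one η
      · rw [if_pos h4, if_neg (by tauto)]
      · rw [if_neg h4]
  rw [sum_congr rfl fun η _ => h1 η, sum_one, rs_none, add_zero, prod_none, sm_jn_none]
  congr 1
  · split_ifs <;> ring
  · simp only [rs_sg, prod_sg]
    rw [mul_ite, mul_zero]
    by_cases h2 : nocol a ∧ rn a + 1 = L
    · rw [if_pos h2]
      simp only [if_pos h2]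
      unfold Tg
      rw [← Fin.sum_univ_eq_sum_range (fun b => g (sm a n) + g (Brg.ro b (sm a n))) B, mul_sum,
        mul_sum]
      refine sum_congr rfl fun b _ => ?_
      rw [show (univ : Finset (ZMod 2)) = {0, 1} from by decide, sum_pair (by decide),
        sm_jn_zero, sm_jn_one]
      ring
    · rw [if_neg h2]
      simp only [if_neg h2, sum_const_zero]

/-- average over words -/
noncomputable def AW (B L : ℕ) (g : Un n → ℝ) : ℝ := ∑ x, lw B L n x * g x

theorem AW_eq (B L : ℕ) (g : Un n → ℝ) :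
    AW B L g = 1 / ((B : ℝ) * 2) ^ L * ∑ ω : Wd B L, g (mm (ext ω) L n) := by
  unfold AW lw
  rw [Brg.sum_mass_mul, mul_sum]
  exact sum_congr rfl fun ω _ => by rw [Brg.uw_eq]

theorem AW_zero (B : ℕ) (g : Un n → ℝ) : AW B 0 g = g 0 := by
  rw [AW_eq]
  have : (univ : Finset (Wd B 0)) = {default} := by
    ext ω
    simp [Subsingleton.elim ω default]
  rw [this, sum_singleton, Brg.mm_zero]
  simp

theorem AW_succ (hB : 0 < B) (L : ℕ) (g : Un n → ℝ) :
    AW B L (Tg B g) = (B : ℝ) * 2 * AW B (L + 1) g := by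
  rw [AW_eq, AW_eq, Brg.step]
  have : (0 : ℝ) < B := by exact_mod_cast hB
  unfold Tg
  rw [pow_succ]
  field_simp

theorem ZZ_eq (hB : 0 < B) (S : ℕ) : ∀ (L : ℕ) (g : Un n → ℝ),
    ZZ p S B L g = (S.choose L : ℝ) * (B * p) ^ L * (1 - p) ^ (B * S - L) * AW B L g := by
  classical
  induction S with
  | zero =>
      intro L g
      have hu : (univ : Finset (Sl 0 B)) = {fun i => i.1.elim0} := by
        ext ω
        simp only [mem_univ, mem_singleton, true_iff]
        funext i
        exact i.1.elim0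
      have h1 : nocol (fun i => i.1.elim0 : Sl 0 B) := fun s => s.elim0
      have h2 : rn (fun i => i.1.elim0 : Sl 0 B) = 0 := by
        unfold rn
        rw [card_eq_zero, filter_eq_empty_iff]
        intro i _
        exact i.1.elim0
      have h3 : pw (sw p) (fun i => i.1.elim0 : Sl 0 B) = 1 := by
        unfold pw
        exact prod_eq_one fun i _ => i.1.elim0
      have h4 : sm (fun i => i.1.elim0 : Sl 0 B) n = 0 := by
        funext k j
        change (if k.val = j.val then (1 : ZMod 2) else 0) = 0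
        rw [if_neg (by have := j.isLt; omega)]
      unfold ZZ
      rw [hu, sum_singleton, h2, h3, h4]
      cases L with
      | zero =>
          rw [if_pos ⟨h1, rfl⟩, AW_zero]
          simp
      | succ L =>
          rw [if_neg (by rintro ⟨_, h⟩; omega)]
          simp
  | succ S ih =>
      intro L g
      have hB' : (0 : ℝ) < B := by exact_mod_cast hB
      rw [ZZ_rec, ih L g]
      cases L with
      | zero =>
          have h1 : ∀ a : Sl S B, (if nocol a ∧ rn a + 1 = 0 then
              pw (sw p) a * Tg B g (sm a n) else 0) = 0 := fun a => if_neg (by rintro ⟨_, h⟩; omega)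
          rw [sum_congr rfl fun a _ => h1 a, sum_const_zero, mul_zero, add_zero]
          simp only [Nat.choose_zero_right, pow_zero, Nat.sub_zero, Nat.cast_one, one_mul]
          rw [Nat.mul_succ, pow_add]
          ring
      | succ L =>
          have h1 : (∑ a : Sl S B, if nocol a ∧ rn a + 1 = L + 1 then
              pw (sw p) a * Tg B g (sm a n) else 0) = ZZ p S B L (Tg B g) := by
            unfold ZZ
            exact sum_congr rfl fun a _ => if_congr (by simp) rfl rfl
          rw [h1, ih L (Tg B g), AW_succ hB, Nat.choose_succ_succ]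
          push_cast
          by_cases hL : S < L
          · rw [Nat.choose_eq_zero_of_lt hL, Nat.choose_eq_zero_of_lt (by omega : S < L + 1)]
            simp
          · have e2 : (1 - p) ^ (B - 1) * (1 - p) ^ (B * S - L) = (1 - p) ^ (B * (S + 1) - (L + 1)) := by
              rw [← pow_add]
              congr 1
              have : L ≤ B * S := (not_lt.1 hL).trans (Nat.le_mul_of_pos_left S hB)
              rw [Nat.mul_succ]
              omega
            rcases (not_lt.1 hL).lt_or_eq with hL1 | hL1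
            · have e1 : (1 - p) ^ B * (1 - p) ^ (B * S - (L + 1))
                  = (1 - p) ^ (B * (S + 1) - (L + 1)) := by
                rw [← pow_add]
                congr 1
                have : S ≤ B * S := Nat.le_mul_of_pos_left S hB
                rw [Nat.mul_succ]
                omega
              rw [← e1] at e2 ⊢
              linear_combination (p / 2 * ((S.choose L : ℝ) * (B * p) ^ L * (B * 2 * AW B (L + 1) g))) * e2
            · rw [hL1, Nat.choose_eq_zero_of_lt (by omega : S < S + 1), Nat.choose_self]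
              rw [hL1] at e2
              rw [← e2]
              ring

end Slt

open Classical in
/-- without collisions the slot model is the letter model (Pascal recursion in `S`) -/
theorem slot_law (hB : 0 < B) (hn : n ≤ B + 1) (L : ℕ) (x : Un n) :
    (∑ ω : Sl S B, if nocol ω ∧ rn ω = L ∧ sm ω n = x then pw (sw p) ω else 0)
      = (S.choose L : ℝ) * (B * p) ^ L * (1 - p) ^ (B * S - L) * lw B L n x := by
  have h := Slt.ZZ_eq (n := n) (p := p) hB S L (fun z => if z = x then 1 else 0)
  have h1 : Slt.AW B L (fun z : Un n => if z = x then (1 : ℝ) else 0) = lw B L n x := by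
    unfold Slt.AW
    rw [sum_eq_single x]
    · simp only [if_true, mul_one]
    · intro y _ hy
      simp only [if_neg hy, mul_zero]
    · intro hx
      exact absurd (mem_univ x) hx
  rw [h1] at h
  rw [← h]
  unfold Slt.ZZ
  refine sum_congr rfl fun ω _ => ?_
  simp only
  by_cases h2 : nocol ω ∧ rn ω = L
  · rw [if_pos h2]
    by_cases h3 : sm ω n = x
    · rw [if_pos h3, if_pos ⟨h2.1, h2.2, h3⟩, mul_one]
    · rw [if_neg h3, if_neg (by tauto), mul_zero]
  · rw [if_neg h2, if_neg (by tauto)]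

namespace Slt

/-- the weight of the number of rings -/
noncomputable def qq (p : ℝ) (S B L : ℕ) : ℝ :=
  (S.choose L : ℝ) * (B * p) ^ L * (1 - p) ^ (B * S - L)

theorem qq_nonneg (hp : 0 ≤ p) (hp1 : p < 1) (L : ℕ) : 0 ≤ qq p S B L := by
  unfold qq
  have : 0 ≤ 1 - p := by linarith
  positivity

theorem qq_le (hB : 0 < B) (hp : 0 ≤ p) (hp1 : p < 1) (L : ℕ) :
    qq p S B L ≤ Real.exp (p * L) * pois (B * (p * S)) L := by
  by_cases hL : S < L
  · unfold qq
    rw [Nat.choose_eq_zero_of_lt hL]
    have := pois_nonneg (x := (B : ℝ) * (p * S)) (by positivity) L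
    simp only [Nat.cast_zero, zero_mul]
    positivity
  · have hLS : L ≤ B * S := (not_lt.1 hL).trans (Nat.le_mul_of_pos_left S hB)
    have h1 : (S.choose L : ℝ) ≤ (S : ℝ) ^ L / (L.factorial : ℝ) := Nat.choose_le_pow_div L S
    have h2 : (1 - p) ^ (B * S - L) ≤ Real.exp (-(p * ((B * S : ℕ) - (L : ℕ) : ℝ))) := by
      have h3 : 1 - p ≤ Real.exp (-p) := by
        have := Real.add_one_le_exp (-p)
        linarith
      refine (pow_le_pow_left₀ (by linarith) h3 _).trans ?_
      rw [← Real.exp_nat_mul, Nat.cast_sub hLS]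
      apply le_of_eq
      congr 1
      ring
    have h4 : Real.exp (-(p * ((B * S : ℕ) - (L : ℕ) : ℝ)))
        = Real.exp (p * L) * Real.exp (-(B * (p * S))) := by
      rw [← Real.exp_add]
      congr 1
      push_cast
      ring
    rw [h4] at h2
    unfold qq pois
    have h5 : (S.choose L : ℝ) * (B * p) ^ L * (1 - p) ^ (B * S - L)
        ≤ (S : ℝ) ^ L / (L.factorial : ℝ) * (B * p) ^ L
          * (Real.exp (p * L) * Real.exp (-(B * (p * S)))) := by
      refine mul_le_mul (mul_le_mul_of_nonneg_right h1 (by positivity)) h2 ?_ (by positivity)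
      have : 0 ≤ 1 - p := by linarith
      positivity
    refine h5.trans_eq ?_
    rw [mul_pow, mul_pow, mul_pow]
    ring

end Slt

open Classical in
/-- upper bound by the continuous time law -/
theorem slot_up (hB : 0 < B) (hn : n ≤ B + 1) (hp : 0 ≤ p) (hp1 : p < 1) (Lm : ℕ) (x : Un n) :
    (∑ ω : Sl S B, if nocol ω ∧ rn ω ≤ Lm ∧ sm ω n = x then pw (sw p) ω else 0)
      ≤ Real.exp (p * Lm) * ct n (p * S) x := by
  have h1 : (∑ ω : Sl S B, if nocol ω ∧ rn ω ≤ Lm ∧ sm ω n = x then pw (sw p) ω else 0)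
      = ∑ L ∈ range (Lm + 1), ∑ ω : Sl S B,
          if nocol ω ∧ rn ω = L ∧ sm ω n = x then pw (sw p) ω else 0 := by
    rw [sum_comm]
    refine sum_congr rfl fun ω _ => ?_
    by_cases h2 : nocol ω ∧ sm ω n = x
    · by_cases h3 : rn ω ≤ Lm
      · rw [if_pos ⟨h2.1, h3, h2.2⟩, sum_eq_single (rn ω)]
        · rw [if_pos ⟨h2.1, rfl, h2.2⟩]
        · intro L _ hL
          rw [if_neg (by rintro ⟨_, h, _⟩; exact hL h.symm)]
        · intro h
          exact absurd (mem_range.2 (by omega)) h
      · rw [if_neg (by tauto)]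
        symm
        refine sum_eq_zero fun L hL => if_neg ?_
        rintro ⟨_, h, _⟩
        rw [mem_range] at hL
        omega
    · rw [if_neg (by tauto)]
      symm
      exact sum_eq_zero fun L _ => if_neg (by tauto)
  rw [h1]
  have hlw : ∀ L, 0 ≤ lw B L n x := by
    intro L
    unfold lw
    rw [Brg.mass_eq]
    refine sum_nonneg fun ω _ => ?_
    split_ifs
    · unfold uw
      positivity
    · exact le_rfl
  have h2 : ∀ L ∈ range (Lm + 1), (∑ ω : Sl S B,
      if nocol ω ∧ rn ω = L ∧ sm ω n = x then pw (sw p) ω else 0)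
      ≤ Real.exp (p * Lm) * (pois (B * (p * S)) L * lw B L n x) := by
    intro L hL
    rw [slot_law hB hn L x]
    rw [mem_range] at hL
    have h3 := Slt.qq_le (S := S) hB hp hp1 L
    unfold Slt.qq at h3
    have h4 : Real.exp (p * L) ≤ Real.exp (p * Lm) := by
      apply Real.exp_le_exp.2
      have : (L : ℝ) ≤ Lm := by exact_mod_cast (by omega : L ≤ Lm)
      exact mul_le_mul_of_nonneg_left this hp
    have h5 := pois_nonneg (x := (B : ℝ) * (p * S)) (by positivity) L
    calc (S.choose L : ℝ) * (B * p) ^ L * (1 - p) ^ (B * S - L) * lw B L n x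
        ≤ Real.exp (p * L) * pois (B * (p * S)) L * lw B L n x :=
          mul_le_mul_of_nonneg_right h3 (hlw L)
      _ ≤ Real.exp (p * Lm) * pois (B * (p * S)) L * lw B L n x :=
          mul_le_mul_of_nonneg_right (mul_le_mul_of_nonneg_right h4 h5) (hlw L)
      _ = Real.exp (p * Lm) * (pois (B * (p * S)) L * lw B L n x) := by ring
  refine (sum_le_sum h2).trans ?_
  rw [← mul_sum]
  refine mul_le_mul_of_nonneg_left ?_ (Real.exp_pos _).le
  refine sum_le_hasSum _ (fun L _ => ?_) (ct_hasSum B n hB hn (by positivity) x)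
  exact mul_nonneg (pois_nonneg (by positivity) L) (hlw L)

namespace Slt

/-- total weight of the configurations without collisions -/
theorem sum_qq (hB : 0 < B) (p : ℝ) (S : ℕ) :
    ∑ L ∈ range (S + 1), qq p S B L = ((1 - p) ^ B + B * p * (1 - p) ^ (B - 1)) ^ S := by
  rw [add_comm ((1 - p) ^ B), add_pow]
  refine sum_congr rfl fun L hL => ?_
  rw [mem_range] at hL
  unfold qq
  have hLS : L ≤ B * S := (by omega : L ≤ S).trans (Nat.le_mul_of_pos_left S hB)
  have e : (1 - p) ^ (B * S - L) = (1 - p) ^ ((B - 1) * L) * (1 - p) ^ (B * (S - L)) := by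
    rw [← pow_add]
    congr 1
    obtain ⟨B', rfl⟩ : ∃ B', B = B' + 1 := ⟨B - 1, by omega⟩
    obtain ⟨r, rfl⟩ : ∃ r, S = L + r := ⟨S - L, by omega⟩
    simp only [Nat.add_sub_cancel, Nat.add_sub_cancel_left]
    rw [Nat.sub_eq_iff_eq_add (by omega)]
    ring
  rw [e, pow_mul, pow_mul, mul_pow (B * p : ℝ)]
  ring

theorem sum_qq_ge (hB : 0 < B) (hp : 0 ≤ p) (hp1 : p < 1) :
    1 - (S : ℝ) * B ^ 2 * p ^ 2 ≤ ∑ L ∈ range (S + 1), qq p S B L := by
  rw [sum_qq hB]
  have hB1 : (1 : ℝ) ≤ B := by exact_mod_cast hB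
  have hcast : ((B - 1 : ℕ) : ℝ) = (B : ℝ) - 1 := by
    rw [Nat.cast_sub hB, Nat.cast_one]
  have h1 : 1 + ((B - 1 : ℕ) : ℝ) * (-p) ≤ (1 + (-p)) ^ (B - 1) :=
    one_add_mul_le_pow (by linarith) _
  have e : (1 - p) ^ B + B * p * (1 - p) ^ (B - 1)
      = (1 + (-p)) ^ (B - 1) * (1 + ((B : ℝ) - 1) * p) := by
    obtain ⟨B', rfl⟩ : ∃ B', B = B' + 1 := ⟨B - 1, by omega⟩
    rw [Nat.add_sub_cancel, pow_succ]
    push_cast
    ring
  have h2 : 1 - (B : ℝ) ^ 2 * p ^ 2 ≤ (1 - p) ^ B + B * p * (1 - p) ^ (B - 1) := by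
    rw [e]
    have h3 : (0 : ℝ) ≤ 1 + ((B : ℝ) - 1) * p := by nlinarith
    have h4 := mul_le_mul_of_nonneg_right h1 h3
    refine le_trans ?_ h4
    rw [hcast]
    have : (0 : ℝ) ≤ p ^ 2 := by positivity
    nlinarith
  have h5 : 1 + (S : ℝ) * (((1 - p) ^ B + B * p * (1 - p) ^ (B - 1)) - 1)
      ≤ (1 + (((1 - p) ^ B + B * p * (1 - p) ^ (B - 1)) - 1)) ^ S := by
    apply one_add_mul_le_pow
    have h6 : 0 ≤ (1 - p) ^ B + B * p * (1 - p) ^ (B - 1) := by
      have : 0 ≤ 1 - p := by linarith
      positivity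
    linarith
  rw [add_sub_cancel] at h5
  refine le_trans ?_ h5
  have h7 : (S : ℝ) * (1 - (B : ℝ) ^ 2 * p ^ 2)
      ≤ S * ((1 - p) ^ B + B * p * (1 - p) ^ (B - 1)) :=
    mul_le_mul_of_nonneg_left h2 (by positivity)
  linarith

open Classical in
/-- expectation without collisions as a sum over the number of rings -/
theorem sum_nocol (hB : 0 < B) (g : Un n → ℝ) :
    (∑ ω : Sl S B, if nocol ω then pw (sw p) ω * g (sm ω n) else 0)
      = ∑ L ∈ range (B * S + 1), qq p S B L * AW B L g := by
  have h1 : ∀ ω : Sl S B, (if nocol ω then pw (sw p) ω * g (sm ω n) else 0)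
      = ∑ L ∈ range (B * S + 1),
        if nocol ω ∧ rn ω = L then pw (sw p) ω * g (sm ω n) else 0 := by
    intro ω
    by_cases h2 : nocol ω
    · rw [if_pos h2, sum_eq_single (rn ω)]
      · rw [if_pos ⟨h2, rfl⟩]
      · intro L _ hL
        rw [if_neg (by rintro ⟨_, h⟩; exact hL h.symm)]
      · intro h
        refine absurd (mem_range.2 ?_) h
        have h3 : rn ω ≤ (univ : Finset (Fin S × Fin B)).card := card_filter_le _ _
        rw [card_univ, Fintype.card_prod, Fintype.card_fin, Fintype.card_fin, mul_comm] at h3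
        omega
    · rw [if_neg h2]
      symm
      exact sum_eq_zero fun L _ => if_neg (by tauto)
  rw [sum_congr rfl fun ω _ => h1 ω, sum_comm]
  refine sum_congr rfl fun L _ => ?_
  have h2 := ZZ_eq (n := n) (p := p) hB S L g
  unfold ZZ at h2
  rw [h2]
  unfold qq
  ring

theorem lw_nonneg (L : ℕ) (x : Un n) : 0 ≤ lw B L n x := by
  classical
  unfold lw
  rw [Brg.mass_eq]
  refine sum_nonneg fun ω _ => ?_
  split_ifs
  · unfold uw
    positivity
  · exact le_rfl

theorem AW_nonneg (g : Un n → ℝ) (hg0 : ∀ x, 0 ≤ g x) (L : ℕ) : 0 ≤ AW B L g :=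
  sum_nonneg fun x _ => mul_nonneg (lw_nonneg L x) (hg0 x)

theorem AW_le (hB : 0 < B) (g : Un n → ℝ) (hg1 : ∀ x, g x ≤ 1) (L : ℕ) : AW B L g ≤ 1 := by
  rw [← lw_sum B L n hB]
  exact sum_le_sum fun x _ => mul_le_of_le_one_right (lw_nonneg L x) (hg1 x)

theorem ct_AW (hB : 0 < B) (hn : n ≤ B + 1) {t : ℝ} (ht : 0 ≤ t) (g : Un n → ℝ) :
    HasSum (fun L : ℕ => pois (B * t) L * AW B L g) (∑ x, ct n t x * g x) := by
  have h := hasSum_sum (s := univ) fun (x : Un n) _ =>
    (ct_hasSum B n hB hn ht x).mul_right (g x)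
  refine h.congr_fun ?_ |> fun h' => h'
  intro L
  unfold AW
  rw [mul_sum]
  exact sum_congr rfl fun x _ => by ring

/-- exponential moment of the Poisson law -/
theorem pois_exp (x p : ℝ) : HasSum (fun L : ℕ => Real.exp (p * L) * pois x L)
    (Real.exp (x * (Real.exp p - 1))) := by
  have h := (pois_hasSum (x * Real.exp p)).mul_left (Real.exp (x * (Real.exp p - 1)))
  rw [mul_one] at h
  refine h.congr_fun ?_ |> fun h' => h'
  intro L
  unfold pois
  have e1 : Real.exp (p * L) = Real.exp p ^ L := by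
    rw [mul_comm, Real.exp_nat_mul]
  have e2 : Real.exp (x * (Real.exp p - 1)) * Real.exp (-(x * Real.exp p)) = Real.exp (-x) := by
    rw [← Real.exp_add]
    congr 1
    ring
  rw [e1, ← e2, mul_pow]
  ring

end Slt

open Classical in
/-- total variation: the continuous time law is almost dominated by the slot model -/
theorem slot_low (hB : 0 < B) (hn : n ≤ B + 1) (hp : 0 ≤ p) (hp1 : p < 1)
    (hs : (S : ℝ) * B ^ 2 * p ^ 2 ≤ 1 / 4) (g : Un n → ℝ) (hg0 : ∀ x, 0 ≤ g x)
    (hg1 : ∀ x, g x ≤ 1) :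
    ∑ x, ct n (p * S) x * g x
      ≤ (∑ ω : Sl S B, if nocol ω then pw (sw p) ω * g (sm ω n) else 0)
        + 6 * ((S : ℝ) * B ^ 2 * p ^ 2) := by
  set δ : ℝ := (S : ℝ) * B ^ 2 * p ^ 2 with hδ
  have hδ0 : 0 ≤ δ := by positivity
  have hB1 : (1 : ℝ) ≤ B := by exact_mod_cast hB
  set lam : ℝ := B * (p * S) with hlam
  have hlam0 : 0 ≤ lam := by positivity
  have hct := Slt.ct_AW hB hn (t := p * S) (by positivity) g
  -- pointwise: P A ≤ Q A + (P - Q) + (e^(pL) - 1) P
  have hA0 : ∀ L, 0 ≤ Slt.AW B L g := Slt.AW_nonneg g hg0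
  have hA1 : ∀ L, Slt.AW B L g ≤ 1 := Slt.AW_le hB g hg1
  have hQ : ∀ L, L ∉ range (B * S + 1) → Slt.qq p S B L = 0 := by
    intro L hL
    rw [mem_range] at hL
    unfold Slt.qq
    have : S < L := by
      have : S ≤ B * S := Nat.le_mul_of_pos_left S hB
      omega
    rw [Nat.choose_eq_zero_of_lt this]
    simp
  have hQA : HasSum (fun L => Slt.qq p S B L * Slt.AW B L g)
      (∑ L ∈ range (B * S + 1), Slt.qq p S B L * Slt.AW B L g) :=
    hasSum_sum_of_ne_finset_zero fun L hL => by rw [hQ L hL, zero_mul]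
  have hQ1 : HasSum (fun L => Slt.qq p S B L) (∑ L ∈ range (S + 1), Slt.qq p S B L) := by
    refine hasSum_sum_of_ne_finset_zero fun L hL => ?_
    rw [mem_range] at hL
    unfold Slt.qq
    rw [Nat.choose_eq_zero_of_lt (by omega : S < L)]
    simp
  have hP1 := pois_hasSum lam
  have hPe := Slt.pois_exp lam p
  have hpt : ∀ L : ℕ, pois lam L * Slt.AW B L g ≤ Slt.qq p S B L * Slt.AW B L g
      + (pois lam L - Slt.qq p S B L) + (Real.exp (p * L) * pois lam L - pois lam L) := by
    intro L
    have h1 := Slt.qq_le (S := S) hB hp hp1 L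
    rw [← hlam] at h1
    have h2 : pois lam L ≤ Real.exp (p * L) * pois lam L := by
      have h3 : (1 : ℝ) ≤ Real.exp (p * L) := Real.one_le_exp (by positivity)
      exact le_mul_of_one_le_left (pois_nonneg hlam0 L) h3
    have h4 := hA0 L
    have h5 := hA1 L
    rcases le_total (Slt.qq p S B L) (pois lam L) with h6 | h6
    · nlinarith
    · nlinarith
  have hsum := hasSum_le hpt hct ((hQA.add (hP1.sub hQ1)).add (hPe.sub hP1))
  rw [← Slt.sum_nocol hB g] at hsum
  have hge := Slt.sum_qq_ge (S := S) hB hp hp1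
  rw [← hδ] at hge
  have hexp : Real.exp (lam * (Real.exp p - 1)) - 1 ≤ 4 * δ := by
    have h1 : Real.exp p - 1 ≤ 2 * p := by
      have h2 := Real.abs_exp_sub_one_sub_id_le (x := p) (by rw [abs_of_nonneg hp]; exact hp1.le)
      have h3 := (abs_le.1 h2).2
      nlinarith
    have h4 : lam * (Real.exp p - 1) ≤ 2 * δ := by
      have h5 : lam * (Real.exp p - 1) ≤ lam * (2 * p) := mul_le_mul_of_nonneg_left h1 hlam0
      refine h5.trans ?_
      rw [hlam, hδ]
      have h6 : (0 : ℝ) ≤ S * p ^ 2 * B := by positivity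
      nlinarith
    have h7 : 0 ≤ lam * (Real.exp p - 1) :=
      mul_nonneg hlam0 (by have := Real.one_le_exp hp; linarith)
    have h8 : Real.exp (lam * (Real.exp p - 1)) ≤ Real.exp (2 * δ) := Real.exp_le_exp.2 h4
    have h9 : Real.exp (2 * δ) - 1 ≤ 4 * δ := by
      have h10 : 2 * δ ≤ 1 / 2 := by linarith
      have h11 := Real.abs_exp_sub_one_sub_id_le (x := 2 * δ)
        (by rw [abs_of_nonneg (by linarith)]; linarith)
      have h12 := (abs_le.1 h11).2
      nlinarith
    linarith
  linarith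

end Pool.Agent.CutSeq
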