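import Pool.Agent.CutSeq.SoftAsm1
import Pool.Agent.CutSeq.SoftCount
import Pool.Agent.CutSeq.SoftSlot
import Pool.Agent.CutSeq.SoftPar
import Pool.Agent.CutSeq.SoftLow

/-! Row A6, part 2 (helper96): the inequality with all parameters. -/

set_option autoImplicit false

namespace Pool.Agent.CutSeq

open Finset

section

variable {ι S : Type} [Fintype ι] [DecidableEq ι] [Fintype S] {w : S → ℝ}

open Classical in
/-- Chebyshev in two steps: `X = 0` on a set of mass at least `a` -/
theorem cheb (hw : ∀ s, 0 ≤ w s) {X : (ι → S) → ℝ} {V a m : ℝ} (ha : 0 < a) (hm : 0 < m)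
    (hX : ∀ ω, 0 ≤ X ω) (hV : ex w (fun ω => (X ω - ex w X) ^ 2) ≤ V) {T : Set (ι → S)}
    (hT : ∀ ω ∈ T, X ω = 0) (hTa : a ≤ prw w T) (hVa : 4 * V ≤ a * m ^ 2) :
    prw w {ω | m < X ω} * m ^ 2 ≤ 4 * V := by
  set μ := ex w X with hμ
  have hμ0 : 0 ≤ μ := Finset.sum_nonneg fun ω _ => mul_nonneg (pw_nonneg hw ω) (hX ω)
  have h1 : a * μ ^ 2 ≤ V := by
    refine le_trans ?_ hV
    unfold ex
    calc a * μ ^ 2 ≤ prw w T * μ ^ 2 := mul_le_mul_of_nonneg_right hTa (sq_nonneg _)
      _ = ∑ ω, (if ω ∈ T then pw w ω else 0) * μ ^ 2 := by unfold prw; rw [Finset.sum_mul]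
      _ ≤ _ := by
        refine Finset.sum_le_sum fun ω _ => ?_
        split_ifs with h
        · refine mul_le_mul_of_nonneg_left (le_of_eq ?_) (pw_nonneg hw ω)
          change μ ^ 2 = (X ω - μ) ^ 2
          rw [hT ω h]
          ring
        · rw [zero_mul]
          exact mul_nonneg (pw_nonneg hw ω) (sq_nonneg _)
  have h2 : μ ≤ m / 2 := by
    have h3 : a * (4 * μ ^ 2) ≤ a * m ^ 2 := by linarith
    have h4 : 4 * μ ^ 2 ≤ m ^ 2 := le_of_mul_le_mul_left h3 ha
    have h5 : (2 * μ) ^ 2 ≤ m ^ 2 := by linarith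
    nlinarith
  have h3 : prw w {ω | m < X ω} * (m ^ 2 / 4) ≤ V := by
    refine le_trans ?_ hV
    unfold ex
    calc prw w {ω | m < X ω} * (m ^ 2 / 4)
        = ∑ ω, (if ω ∈ {ω | m < X ω} then pw w ω else 0) * (m ^ 2 / 4) := by
          unfold prw; rw [Finset.sum_mul]
      _ ≤ _ := by
        refine Finset.sum_le_sum fun ω _ => ?_
        split_ifs with h
        · refine mul_le_mul_of_nonneg_left ?_ (pw_nonneg hw ω)
          have h7 : m < X ω := h
          change m ^ 2 / 4 ≤ (X ω - μ) ^ 2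
          nlinarith
        · rw [zero_mul]
          exact mul_nonneg (pw_nonneg hw ω) (sq_nonneg _)
  linarith

end

open Classical in
theorem soft_fin {h σ q V δ : ℝ} {N n B K U e J M : ℕ} {p t : ℝ} (hh : 0 < h) (hh1 : h < 1)
    (hP : Par h σ q V δ N n B K U e J M p t) (hd : dd n t ≤ 1 - h)
    (hms : ∀ X : Sl (K * U) B → ℝ,
      (∀ j ≤ J, ∀ c, ∀ ω ω' : Sl (K * U) B, (∀ i, bx K e j i ≠ c → ω i = ω' i) →
        |X ω - X ω'| ≤ 2 ^ e / 2 ^ j) →
      ex (sw p) (fun ω => (X ω - ex (sw p) X) ^ 2) ≤ V) :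
    ∑ x : Un n, (if Real.exp (σ * (N : ℝ) ^ 2) ≤ ct n t x * (Fintype.card (Un n) : ℝ)
      then ct n t x else 0) ≤ q := by
  obtain ⟨hB, hn, hnN, hK, hU, hJe, hp, hp1, hpK, hpt, hM, hcol, htyp, hδ, hδ', hlm, hV, hV',
    hrest⟩ := hP
  set S := K * U with hS
  have ht0 : 0 ≤ t := by rw [← hpt]; positivity
  have hp1' : p ≤ 1 := by linarith
  have hp1'' : p < 1 := by linarith
  have hw : ∀ s, 0 ≤ sw p s := sw_nonneg hp.le hp1'
  have hM' : (0 : ℝ) < M := by exact_mod_cast hM
  have hcard : (0 : ℝ) < (Fintype.card (Un n) : ℝ) := by exact_mod_cast Fintype.card_pos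
  have hnB : n ≤ B + 1 := hn.le
  have hcol' : 6 * ((S : ℝ) * B ^ 2 * p ^ 2) ≤ 6 * δ := by linarith
  have hcol4 : (S : ℝ) * B ^ 2 * p ^ 2 ≤ 1 / 4 := hcol.trans hδ'
  have hct : ∀ x, 0 ≤ ct n t x := fun x => by rw [ct_eq_tr]; exact tr_nonneg n ht0 _ _
  have hTyp : prw (sw p) (Typ S B K e J)ᶜ ≤ δ :=
    (prob_typ hK hp.le hp1' hpK).trans htyp
  -- the set `T`
  let T : Set (Sl S B) := {ω | nocol ω ∧ ω ∈ Typ S B K e J ∧
    ct n t (sm ω n) * (Fintype.card (Un n) : ℝ) ≤ 2 / h}
  have hT : h / 3 ≤ prw (sw p) T := by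
    let g : Un n → ℝ := fun x => if ct n t x * (Fintype.card (Un n) : ℝ) ≤ 2 / h then 1 else 0
    have h1 := half_mass n t h ht0 hh hd
    have h2 := slot_low (S := S) (B := B) (n := n) (p := p) hB hnB hp.le hp1'' hcol4 g
      (fun x => by simp only [g]; split_ifs <;> norm_num)
      (fun x => by simp only [g]; split_ifs <;> norm_num)
    rw [hpt] at h2
    have h3 : ∑ x, ct n t x * g x = ∑ x : Un n,
        (if ct n t x * (Fintype.card (Un n) : ℝ) ≤ 2 / h then ct n t x else 0) := by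
      refine Finset.sum_congr rfl fun x _ => ?_
      simp only [g]
      split_ifs <;> simp
    have h4 : (∑ ω : Sl S B, if nocol ω then pw (sw p) ω * g (sm ω n) else 0) ≤
        prw (sw p) (T ∪ (Typ S B K e J)ᶜ) := by
      unfold prw
      refine Finset.sum_le_sum fun ω _ => ?_
      have h0 := pw_nonneg hw ω
      by_cases h5 : nocol ω
      · rw [if_pos h5]
        simp only [g]
        by_cases h6 : ct n t (sm ω n) * (Fintype.card (Un n) : ℝ) ≤ 2 / h
        · rw [if_pos h6, mul_one, if_pos]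
          by_cases h7 : ω ∈ Typ S B K e J
          · exact Or.inl ⟨h5, h7, h6⟩
          · exact Or.inr h7
        · rw [if_neg h6, mul_zero]
          split_ifs
          · exact h0
          · exact le_rfl
      · rw [if_neg h5]
        split_ifs
        · exact h0
        · exact le_rfl
    have h5 := prw_union hw T (Typ S B K e J)ᶜ
    rw [h3] at h2
    linarith
  have hTne : T.Nonempty := by
    by_contra hne
    rw [Set.not_nonempty_iff_eq_empty] at hne
    rw [hne] at hT
    simp [prw] at hT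
    linarith
  obtain ⟨X, hX0, hXT, hXL, hXF⟩ := box_distance (S := S) (B := B) K e J hJe T hTne
  have hVar := hms X hXL
  have hfar : prw (sw p) {ω | (M : ℝ) < X ω} ≤ q / 2 := by
    have h1 := cheb (m := (M : ℝ)) (a := h / 3) hw (by linarith) hM' hX0 hVar hXT hT (by linarith)
    have h2 : prw (sw p) {ω | (M : ℝ) < X ω} * (M : ℝ) ^ 2 ≤ q / 2 * (M : ℝ) ^ 2 := h1.trans hV'
    exact le_of_mul_le_mul_right h2 (by positivity)
  -- the set `GG`
  let GG : Set (Sl S B) := {ω | ω ∈ Typ S B K e J ∧ X ω ≤ M}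
  set m : ℝ := (p / 2) ^ (3 * (2 ^ e * M)) * Real.exp (-(2 * (2 ^ e * M : ℕ))) with hm
  have hm0 : 0 < m := by positivity
  let Φ : Finset (Finset (Fin S × Fin B)) := (allB S B K e J).powerset.image (bcells S B K e)
  have hΦ : (Φ.card : ℝ) ≤ 2 ^ (allB S B K e J).card := by
    have h1 : Φ.card ≤ 2 ^ (allB S B K e J).card := by
      refine Finset.card_image_le.trans (le_of_eq ?_)
      rw [Finset.card_powerset]
    exact_mod_cast h1
  let R : Un n → Finset (Un n) := fun x => univ.filter fun x' : Un n => RkU (7 * M) x x'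
  have hR : ∀ x, ((R x).card : ℝ) ≤ 2 ^ (14 * n * M) := by
    intro x
    have h1 := card_rk n (7 * M) x
    have h2 : 2 * n * (7 * M) = 14 * n * M := by ring
    rw [h2] at h1
    exact_mod_cast h1
  have hcount := count_transport (sw p) hw (sw_sum p) GG T Φ (fun ω => sm ω n) R m hm0 (by
    rintro ω ⟨hω1, hω2⟩
    obtain ⟨F, hF, ω', hω', hoff, hsize⟩ := hXF ω
    have hsz : bsize e F ≤ M := by exact_mod_cast hsize.trans hω2
    refine ⟨bcells S B K e F, Finset.mem_image.2 ⟨F, Finset.mem_powerset.2 hF, rfl⟩, ω', hω', hoff,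
      ?_, ?_⟩
    · simp only [R, Finset.mem_filter, Finset.mem_univ, true_and]
      refine ⟨_, (rk_boxes K e hK F ω ω' hoff).mono ((rank_typ hω1 hω'.2.1 F hF).trans
        (Nat.mul_le_mul_left 7 hsz)), fun k j => rfl⟩
    · refine le_trans ?_ (piece_weight hp hp1 (bcells S B K e F) ω')
      rw [hm]
      refine mul_le_mul ?_ ?_ (Real.exp_pos _).le (by positivity)
      · refine pow_le_pow_of_le_one (by positivity) (by linarith) ?_
        exact (rings_bcells hω'.2.1 F hF).trans
          (Nat.mul_le_mul_left 3 (Nat.mul_le_mul_left _ hsz))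
      · refine Real.exp_le_exp.2 (neg_le_neg ?_)
        have h1 : ((bcells S B K e F).card : ℝ) ≤ (K : ℝ) * ((2 ^ e * M : ℕ) : ℝ) := by
          exact_mod_cast (card_bcells hK F).trans
            (Nat.mul_le_mul_left K (Nat.mul_le_mul_left _ hsz))
        calc 2 * p * ((bcells S B K e F).card : ℝ) ≤ 2 * p * ((K : ℝ) * ((2 ^ e * M : ℕ) : ℝ)) :=
              mul_le_mul_of_nonneg_left h1 (by positivity)
          _ = 2 * ((p * K) * ((2 ^ e * M : ℕ) : ℝ)) := by ring
          _ ≤ 2 * (1 * ((2 ^ e * M : ℕ) : ℝ)) := by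
              refine mul_le_mul_of_nonneg_left ?_ (by norm_num)
              exact mul_le_mul_of_nonneg_right hpK (by positivity)
          _ = _ := by rw [one_mul])
  -- the bound for `T`
  have hTx : ∀ x' : Un n, (∑ ω, if ω ∈ T ∧ sm ω n = x' then pw (sw p) ω else 0) ≤
      Real.exp 1 * (2 / h) / (Fintype.card (Un n) : ℝ) := by
    intro x'
    by_cases hx : ct n t x' * (Fintype.card (Un n) : ℝ) ≤ 2 / h
    · have h1 := slot_up (S := S) (B := B) (n := n) (p := p) hB hnB hp.le hp1''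
        (B * ((S / (K * 2 ^ (e - J)) + 1) * (3 * 2 ^ (e - J)))) x'
      rw [hpt] at h1
      refine le_trans ?_ (h1.trans ?_)
      · refine Finset.sum_le_sum fun ω _ => ?_
        by_cases h2 : ω ∈ T ∧ sm ω n = x'
        · rw [if_pos h2, if_pos ⟨h2.1.1, rn_typ h2.1.2.1, h2.2⟩]
        · rw [if_neg h2]
          split_ifs
          · exact pw_nonneg hw ω
          · exact le_rfl
      · have h2 : ct n t x' ≤ 2 / h / (Fintype.card (Un n) : ℝ) := by
          rw [le_div_iff₀ hcard]; exact hx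
        rw [mul_div_assoc]
        refine mul_le_mul (Real.exp_le_exp.2 hlm) ?_ (hct x') (Real.exp_pos _).le
        exact h2
    · have h1 : (∑ ω, if ω ∈ T ∧ sm ω n = x' then pw (sw p) ω else 0) = 0 := by
        refine Finset.sum_eq_zero fun ω _ => ?_
        rw [if_neg]
        rintro ⟨h2, h3⟩
        have h4 := h2.2.2
        rw [h3] at h4
        exact hx h4
      rw [h1]
      positivity
  have hGGx : ∀ x : Un n, (∑ ω, if ω ∈ GG ∧ sm ω n = x then pw (sw p) ω else 0) ≤
      2 ^ (allB S B K e J).card / m * (2 ^ (14 * n * M) *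
        (Real.exp 1 * (2 / h) / (Fintype.card (Un n) : ℝ))) := by
    intro x
    refine le_trans (le_of_eq ?_) ((hcount x).trans ?_)
    · refine Finset.sum_congr rfl fun ω _ => ?_
      congr
    refine mul_le_mul (div_le_div_of_nonneg_right hΦ hm0.le) ?_ ?_ (by positivity)
    · refine (Finset.sum_le_sum fun x' _ => (le_of_eq ?_).trans (hTx x')).trans ?_
      · refine Finset.sum_congr rfl fun ω _ => ?_
        congr
      rw [Finset.sum_const, nsmul_eq_mul]
      exact mul_le_mul_of_nonneg_right (hR x) (by positivity)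
    · refine Finset.sum_nonneg fun x' _ => Finset.sum_nonneg fun ω _ => ?_
      split_ifs
      · exact pw_nonneg hw ω
      · exact le_rfl
  -- the final estimate
  let g : Un n → ℝ := fun x =>
    if Real.exp (σ * (N : ℝ) ^ 2) ≤ ct n t x * (Fintype.card (Un n) : ℝ) then 1 else 0
  have hg0 : ∀ x, 0 ≤ g x := fun x => by simp only [g]; split_ifs <;> norm_num
  have hg1 : ∀ x, g x ≤ 1 := fun x => by simp only [g]; split_ifs <;> norm_num
  have h2 := slot_low (S := S) (B := B) (n := n) (p := p) hB hnB hp.le hp1'' hcol4 g hg0 hg1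
  rw [hpt] at h2
  have h3 : ∑ x, ct n t x * g x = ∑ x : Un n,
      (if Real.exp (σ * (N : ℝ) ^ 2) ≤ ct n t x * (Fintype.card (Un n) : ℝ)
        then ct n t x else 0) := by
    refine Finset.sum_congr rfl fun x _ => ?_
    simp only [g]
    split_ifs <;> simp
  rw [← h3]
  refine h2.trans ?_
  have h4 : (∑ ω : Sl S B, if nocol ω then pw (sw p) ω * g (sm ω n) else 0) ≤
      prw (sw p) (Typ S B K e J)ᶜ + prw (sw p) {ω | (M : ℝ) < X ω} +
        ∑ ω, (if ω ∈ GG then pw (sw p) ω * g (sm ω n) else 0) := by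
    unfold prw
    rw [← Finset.sum_add_distrib, ← Finset.sum_add_distrib]
    refine Finset.sum_le_sum fun ω _ => ?_
    have h0 := pw_nonneg hw ω
    have h1 : pw (sw p) ω * g (sm ω n) ≤ pw (sw p) ω := by
      have := mul_le_mul_of_nonneg_left (hg1 (sm ω n)) h0
      linarith
    have h1' : 0 ≤ pw (sw p) ω * g (sm ω n) := mul_nonneg h0 (hg0 _)
    have h5 : (if nocol ω then pw (sw p) ω * g (sm ω n) else 0) ≤ pw (sw p) ω * g (sm ω n) := by
      split_ifs
      · exact le_rfl
      · exact h1'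
    refine h5.trans ?_
    by_cases h6 : ω ∈ Typ S B K e J
    · by_cases h7 : (M : ℝ) < X ω
      · rw [if_neg (by simpa using h6), if_pos (show ω ∈ {ω | (M : ℝ) < X ω} from h7)]
        split_ifs <;> linarith
      · rw [if_pos (show ω ∈ GG from ⟨h6, not_lt.1 h7⟩)]
        split_ifs <;> linarith
    · rw [if_pos (by simpa using h6)]
      split_ifs <;> linarith
  have h5 : ∑ ω, (if ω ∈ GG then pw (sw p) ω * g (sm ω n) else 0) =
      ∑ x : Un n, g x * ∑ ω, (if ω ∈ GG ∧ sm ω n = x then pw (sw p) ω else 0) := by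
    simp_rw [Finset.mul_sum]
    rw [Finset.sum_comm]
    refine Finset.sum_congr rfl fun ω _ => ?_
    rw [Finset.sum_eq_single (sm ω n)]
    · by_cases h6 : ω ∈ GG
      · simp [h6, mul_comm]
      · simp [h6]
    · intro x _ hx
      rw [if_neg (fun h => hx h.2.symm), mul_zero]
    · intro h6
      exact absurd (Finset.mem_univ _) h6
  have h6 : ∑ x : Un n, g x * ∑ ω, (if ω ∈ GG ∧ sm ω n = x then pw (sw p) ω else 0) ≤
      (Fintype.card (Un n) : ℝ) / Real.exp (σ * (N : ℝ) ^ 2) *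
      (2 ^ (allB S B K e J).card / m * (2 ^ (14 * n * M) *
        (Real.exp 1 * (2 / h) / (Fintype.card (Un n) : ℝ)))) := by
    refine (Finset.sum_le_sum fun x _ => mul_le_mul_of_nonneg_left (hGGx x) (hg0 x)).trans ?_
    rw [← Finset.sum_mul]
    refine mul_le_mul_of_nonneg_right ?_ (by positivity)
    have h7 := few_large n t (Real.exp (σ * (N : ℝ) ^ 2)) ht0 (Real.exp_pos _)
    refine le_trans (le_of_eq ?_) h7
    simp only [g]
    rw [Finset.sum_ite, Finset.sum_const_zero, add_zero, Finset.sum_const, nsmul_eq_mul, mul_one]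
  have h7 : (Fintype.card (Un n) : ℝ) / Real.exp (σ * (N : ℝ) ^ 2) *
      (2 ^ (allB S B K e J).card / m * (2 ^ (14 * n * M) *
        (Real.exp 1 * (2 / h) / (Fintype.card (Un n) : ℝ)))) =
      2 ^ (allB S B K e J).card * 2 ^ (14 * n * M) / m *
      (Real.exp 1 * (2 / h)) * Real.exp (-(σ * (N : ℝ) ^ 2)) := by
    rw [Real.exp_neg]
    field_simp
  rw [h7] at h6
  rw [h5] at h4
  linarith

end Pool.Agent.CutSeq
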