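import Pool.Agent.CutSeq.SoftDefs

/-! Row A3: changing a box changes the array by few rank one terms. -/

set_option autoImplicit false

namespace Pool.Agent.CutSeq

open Finset

theorem Rk.mono {r r' : ℕ} {D : ℕ → ℕ → ZMod 2} (h : Rk r D) (hr : r ≤ r') : Rk r' D := by
  obtain ⟨d, rfl⟩ := Nat.exists_eq_add_of_le hr
  obtain ⟨u, v, h⟩ := h
  refine ⟨Fin.append u fun _ _ => 0, Fin.append v fun _ _ => 0, fun k j => ?_⟩
  rw [Fin.sum_univ_add, h k j]
  simp only [Fin.append_left, Fin.append_right, mul_zero, Finset.sum_const_zero, add_zero]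

theorem Rk.add {r r' : ℕ} {D D' : ℕ → ℕ → ZMod 2} (h : Rk r D) (h' : Rk r' D') :
    Rk (r + r') (fun k j => D k j + D' k j) := by
  obtain ⟨u, v, h⟩ := h
  obtain ⟨u', v', h'⟩ := h'
  refine ⟨Fin.append u u', Fin.append v v', fun k j => ?_⟩
  change D k j + D' k j = _
  rw [Fin.sum_univ_add, h k j, h' k j]
  simp only [Fin.append_left, Fin.append_right]

theorem rk_zero : Rk 0 (fun _ _ => 0) :=
  ⟨fun i => i.elim0, fun i => i.elim0, fun k j => by simp⟩

section rows

variable {c c' : ℕ → ℕ → ZMod 2} {s0 s1 b l S : ℕ}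

lemma ev_low (c : ℕ → ℕ → ZMod 2) (s : ℕ) : Ev c (s + 1) 0 = Ev c s 0 := by
  funext j
  change Ev c s 0 j + (if (0 : ℕ) = 0 then (0 : ZMod 2) else _) = _
  rw [if_pos rfl, add_zero]

lemma ev_succ (c : ℕ → ℕ → ZMod 2) (s k : ℕ) :
    Ev c (s + 1) (k + 1) = Ev c s (k + 1) + c s k • Ev c s k := by
  funext j
  change Ev c s (k + 1) j + (if k + 1 = 0 then (0 : ZMod 2) else
    c s (k + 1 - 1) * Ev c s (k + 1 - 1) j) = _
  rw [if_neg (Nat.succ_ne_zero k)]
  rfl

/-- agreement off the box up to the slot `S` -/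
def OffBox (c c' : ℕ → ℕ → ZMod 2) (s0 s1 b l S : ℕ) : Prop :=
  ∀ s k, s < S → ¬ (s0 ≤ s ∧ s < s1 ∧ b ≤ k ∧ k < b + l) → c s k = c' s k

lemma agree_before (h : OffBox c c' s0 s1 b l S) :
    ∀ s ≤ s0, s ≤ S → ∀ k, Ev c s k = Ev c' s k := by
  intro s
  induction s with
  | zero => exact fun _ _ k => rfl
  | succ s ih =>
    intro hs hS k
    cases k with
    | zero => rw [ev_low, ev_low, ih (by omega) (by omega) 0]
    | succ k =>
      rw [ev_succ, ev_succ, ih (by omega) (by omega) (k + 1), ih (by omega) (by omega) k,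
        h s k (by omega) (by omega)]

lemma agree_low (h : OffBox c c' s0 s1 b l S) :
    ∀ s, s ≤ S → ∀ k ≤ b, Ev c s k = Ev c' s k := by
  intro s
  induction s with
  | zero => exact fun _ k _ => rfl
  | succ s ih =>
    intro hS k hk
    cases k with
    | zero => rw [ev_low, ev_low, ih (by omega) 0 (by omega)]
    | succ k =>
      rw [ev_succ, ev_succ, ih (by omega) (k + 1) hk, ih (by omega) k (by omega),
        h s k (by omega) (by omega)]

/-- A subspace which contains the differences of the rows of the box at the end of the window, and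
the differences of its last row at the rings of the bond above the box in the window, contains all
later differences. -/
theorem diff_mem (h : OffBox c c' s0 s1 b l S) (h01 : s0 ≤ s1) (h1S : s1 ≤ S)
    (W : Submodule (ZMod 2) (ℕ → ZMod 2))
    (hend : ∀ j, 1 ≤ j → j ≤ l → Ev c s1 (b + j) - Ev c' s1 (b + j) ∈ W)
    (hring : ∀ s, s0 ≤ s → s < s1 → c s (b + l) ≠ 0 → Ev c s (b + l) - Ev c' s (b + l) ∈ W) :
    ∀ s, s1 ≤ s → s ≤ S → ∀ k, Ev c s k - Ev c' s k ∈ W := by
  have up : ∀ s, s0 ≤ s → s ≤ s1 → ∀ k, b + l < k → Ev c s k - Ev c' s k ∈ W := by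
    intro s hs
    induction s, hs using Nat.le_induction with
    | base =>
      intro _ k _
      rw [agree_before h s0 le_rfl (by omega) k, sub_self]
      exact W.zero_mem
    | succ s hs ih =>
      intro hs1 k hk
      obtain ⟨k, rfl⟩ : ∃ k', k = k' + 1 := ⟨k - 1, by omega⟩
      rw [ev_succ, ev_succ, ← h s k (by omega) (by omega)]
      have e : Ev c s (k + 1) + c s k • Ev c s k - (Ev c' s (k + 1) + c s k • Ev c' s k) =
          (Ev c s (k + 1) - Ev c' s (k + 1)) + c s k • (Ev c s k - Ev c' s k) := by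
        rw [smul_sub]
        abel
      rw [e]
      refine W.add_mem (ih (by omega) (k + 1) (by omega)) ?_
      rcases Nat.lt_or_ge (b + l) k with h1 | h1
      · exact W.smul_mem _ (ih (by omega) k h1)
      · obtain rfl : k = b + l := by omega
        by_cases hc : c s (b + l) = 0
        · rw [hc, zero_smul]
          exact W.zero_mem
        · exact W.smul_mem _ (hring s hs (by omega) hc)
  intro s hs
  induction s, hs using Nat.le_induction with
  | base =>
    intro _ k
    rcases Nat.lt_or_ge b k with h1 | h1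
    · rcases Nat.lt_or_ge (b + l) k with h2 | h2
      · exact up s1 h01 le_rfl k h2
      · obtain ⟨j, rfl⟩ : ∃ j, k = b + j := ⟨k - b, by omega⟩
        exact hend j (by omega) (by omega)
    · rw [agree_low h s1 h1S k h1, sub_self]
      exact W.zero_mem
  | succ s hs ih =>
    intro hS k
    cases k with
    | zero => rw [ev_low, ev_low]; exact ih (by omega) 0
    | succ k =>
      rw [ev_succ, ev_succ, ← h s k (by omega) (by omega)]
      have e : Ev c s (k + 1) + c s k • Ev c s k - (Ev c' s (k + 1) + c s k • Ev c' s k) =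
          (Ev c s (k + 1) - Ev c' s (k + 1)) + c s k • (Ev c s k - Ev c' s k) := by
        rw [smul_sub]
        abel
      rw [e]
      exact W.add_mem (ih (by omega) (k + 1)) (W.smul_mem _ (ih (by omega) k))

/-- All later differences are in the span of `l` and (number of rings) vectors. -/
theorem rk_span (h : OffBox c c' s0 s1 b l S) (h01 : s0 ≤ s1) (h1S : s1 ≤ S) :
    Rk (l + ((Ico s0 s1).filter fun s => c s (b + l) ≠ 0).card)
      (fun k j => Ev c S k j - Ev c' S k j) := by
  classical
  set F : Finset ℕ := (Ico s0 s1).filter fun s => c s (b + l) ≠ 0 with hF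
  have e : Fin F.card ≃ F := (Fintype.equivFinOfCardEq (by rw [Fintype.card_coe])).symm
  let v : Fin (l + F.card) → ℕ → ZMod 2 :=
    Fin.append (fun j : Fin l => Ev c s1 (b + (j.val + 1)) - Ev c' s1 (b + (j.val + 1)))
      (fun i => Ev c (e i).1 (b + l) - Ev c' (e i).1 (b + l))
  have key : ∀ k, Ev c S k - Ev c' S k ∈ Submodule.span (ZMod 2) (Set.range v) := by
    refine fun k => diff_mem h h01 h1S _ (fun j h1 h2 => ?_) (fun s h1 h2 h3 => ?_) S h1S le_rfl k
    · refine Submodule.subset_span ⟨Fin.castAdd _ ⟨j - 1, by omega⟩, ?_⟩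
      change Fin.append _ _ _ = _
      rw [Fin.append_left]
      have e1 : j - 1 + 1 = j := by omega
      simp only [e1]
    · have hs : s ∈ F := by
        rw [hF, Finset.mem_filter, Finset.mem_Ico]
        exact ⟨⟨h1, h2⟩, h3⟩
      refine Submodule.subset_span ⟨Fin.natAdd _ (e.symm ⟨s, hs⟩), ?_⟩
      change Fin.append _ _ _ = _
      rw [Fin.append_right, e.apply_symm_apply]
  have key2 : ∀ k, ∃ a : Fin (l + F.card) → ZMod 2, ∑ i, a i • v i = Ev c S k - Ev c' S k :=
    fun k => (Submodule.mem_span_range_iff_exists_fun (ZMod 2)).1 (key k)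
  choose a ha using key2
  refine ⟨fun i k => a k i, v, fun k j => ?_⟩
  have h1 := congrFun (ha k) j
  rw [Finset.sum_apply, Pi.sub_apply] at h1
  simp only [Pi.smul_apply, smul_eq_mul] at h1
  exact h1.symm

end rows

/-- two coin fields which differ only in the box of bonds `[i, i + l)` and slots `[s₁, s₂)`: the
arrays differ by `l` plus (number of ones of the bond `i + l` in the window) rank one terms -/
theorem rk_box (c c' : ℕ → ℕ → ZMod 2) (i l s₁ s₂ S : ℕ)
    (h : ∀ s b, ¬ (s₁ ≤ s ∧ s < s₂ ∧ i ≤ b ∧ b < i + l) → c s b = c' s b) :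
    Rk (l + ((Finset.Ico s₁ s₂).filter fun s => c s (i + l) ≠ 0).card)
      (fun k j => Ev c S k j - Ev c' S k j) := by
  classical
  have h1 : OffBox c c' (min s₁ (min s₂ S)) (min s₂ S) i l S := by
    intro s k hs hk
    exact h s k (by omega)
  refine (rk_span h1 (by omega) (by omega)).mono (Nat.add_le_add_left ?_ _)
  refine Finset.card_le_card fun s hs => ?_
  rw [Finset.mem_filter, Finset.mem_Ico] at hs ⊢
  exact ⟨⟨by omega, by omega⟩, hs.2⟩

open Classical in
/-- number of arrays which differ from a given one by `r` rank one terms -/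
theorem card_rk (n r : ℕ) (x : Un n) :
    (univ.filter fun x' : Un n => RkU r x x').card ≤ 2 ^ (2 * n * r) := by
  let f : (Fin r → Fin n → ZMod 2) × (Fin r → Fin n → ZMod 2) → Un n :=
    fun p k j => x k j - ∑ a, p.1 a k * p.2 a ⟨j.val, j.isLt.trans k.isLt⟩
  have h1 : (univ.filter fun x' : Un n => RkU r x x') ⊆ univ.image f := by
    intro x' hx'
    rw [Finset.mem_filter] at hx'
    obtain ⟨-, D, ⟨u, v, huv⟩, hD⟩ := hx'
    rw [Finset.mem_image]
    refine ⟨(fun a k => u a k.val, fun a k => v a k.val), Finset.mem_univ _, ?_⟩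
    funext k j
    change x k j - ∑ a, u a k.val * v a j.val = x' k j
    rw [← huv, ← hD k j]
    ring
  refine (Finset.card_le_card h1).trans (Finset.card_image_le.trans (le_of_eq ?_))
  rw [Finset.card_univ, Fintype.card_prod]
  simp only [Fintype.card_fun, ZMod.card, Fintype.card_fin]
  rw [← pow_mul, ← pow_add]
  congr 1
  ring

end Pool.Agent.CutSeq
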