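import Pool.Agent.CutSeq.SoftDefs

/-! Row A4: few rings, and the weight of a piece of a typical configuration. -/

set_option autoImplicit false

namespace Pool.Agent.CutSeq

open Finset

variable {ι : Type} [Fintype ι] [DecidableEq ι] {p : ℝ}

/-- product formula -/
theorem Typ.sum_prod {ι S : Type} [Fintype ι] [DecidableEq ι] [Fintype S] (f : ι → S → ℝ) :
    ∑ ω : ι → S, ∏ i, f i (ω i) = ∏ i, ∑ s, f i s := by
  rw [Finset.prod_univ_sum, Fintype.piFinset_univ]

theorem Typ.sw_nonneg (hp : 0 ≤ p) (hp1 : p ≤ 1) (s : Option (ZMod 2)) : 0 ≤ sw p s := by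
  rcases s with _ | s
  · exact sub_nonneg.2 hp1
  · exact div_nonneg hp zero_le_two

omit [DecidableEq ι] in
theorem Typ.pw_nonneg (hp : 0 ≤ p) (hp1 : p ≤ 1) (ω : ι → Option (ZMod 2)) : 0 ≤ pw (sw p) ω :=
  Finset.prod_nonneg fun _ _ => Typ.sw_nonneg hp hp1 _

/-- sum over the states of a cell -/
theorem Typ.sum_cell (f : Option (ZMod 2) → ℝ) : ∑ s, f s = f none + (f (some 0) + f (some 1)) := by
  rw [Fintype.sum_option]
  congr 1
  exact Fin.sum_univ_two (fun i : Fin 2 => f (some (i : ZMod 2)))

theorem Typ.sw_sum (p : ℝ) : ∑ s, sw p s = 1 := by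
  rw [Typ.sum_cell]
  simp only [sw]
  ring

open Classical in
/-- Chernoff bound for the number of rings in a set of cells -/
theorem chernoff (hp : 0 ≤ p) (hp1 : p ≤ 1) (A : Finset ι) (l : ℝ) (h : p * A.card ≤ l) :
    (∑ ω : ι → Option (ZMod 2), if 3 * l < ((A.filter fun i => ω i ≠ none).card : ℝ)
      then pw (sw p) ω else 0) ≤ Real.exp (-l) := by
  have hl : 0 ≤ l := le_trans (mul_nonneg hp (Nat.cast_nonneg _)) h
  set E : ℝ := Real.exp 1 with hE
  have hE0 : 0 < E := Real.exp_pos 1
  have hE1 : 1 ≤ E := Real.one_le_exp zero_le_one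
  have hE3 : E ≤ 3 := by
    have := Real.exp_one_lt_d9
    rw [hE]; linarith
  -- exponential moment
  have hmom : ∑ ω : ι → Option (ZMod 2), pw (sw p) ω * E ^ (A.filter fun i => ω i ≠ none).card
      ≤ Real.exp (l * (E - 1)) := by
    have h1 : ∀ ω : ι → Option (ZMod 2), pw (sw p) ω * E ^ (A.filter fun i => ω i ≠ none).card
        = ∏ i, (sw p (ω i) * (if i ∈ A then (if ω i ≠ none then E else 1) else 1)) := by
      intro ω
      rw [Finset.prod_mul_distrib, pw]
      congr 1
      rw [Finset.prod_ite_mem, Finset.univ_inter, Finset.prod_ite, Finset.prod_const, Finset.prod_const_one,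
        mul_one]
    rw [Finset.sum_congr rfl fun ω _ => h1 ω,
      Typ.sum_prod (fun i s => sw p s * (if i ∈ A then (if s ≠ none then E else 1) else 1))]
    have h2 : ∀ i : ι, ∑ s, sw p s * (if i ∈ A then (if s ≠ none then E else 1) else 1)
        = if i ∈ A then 1 + p * (E - 1) else 1 := by
      intro i
      rw [Typ.sum_cell]
      by_cases hi : i ∈ A
      · simp only [if_pos hi, sw, ne_eq, not_true_eq_false, if_false, reduceCtorEq, not_false_eq_true, if_true]
        ring
      · simp only [if_neg hi, sw]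
        ring
    rw [Finset.prod_congr rfl fun i _ => h2 i, Finset.prod_ite_mem, Finset.univ_inter, Finset.prod_const]
    have h3 : 1 + p * (E - 1) ≤ Real.exp (p * (E - 1)) := by
      have := Real.add_one_le_exp (p * (E - 1))
      linarith
    calc (1 + p * (E - 1)) ^ A.card ≤ Real.exp (p * (E - 1)) ^ A.card :=
          pow_le_pow_left₀ (by nlinarith) h3 _
      _ = Real.exp (A.card * (p * (E - 1))) := (Real.exp_nat_mul _ _).symm
      _ ≤ Real.exp (l * (E - 1)) := by
          apply Real.exp_le_exp.2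
          have : (A.card : ℝ) * (p * (E - 1)) = (p * A.card) * (E - 1) := by ring
          rw [this]
          exact mul_le_mul_of_nonneg_right h (by linarith)
  -- Markov
  have hmk : (∑ ω : ι → Option (ZMod 2), if 3 * l < ((A.filter fun i => ω i ≠ none).card : ℝ)
      then pw (sw p) ω else 0) ≤ Real.exp (-(3 * l)) *
        ∑ ω : ι → Option (ZMod 2), pw (sw p) ω * E ^ (A.filter fun i => ω i ≠ none).card := by
    rw [Finset.mul_sum]
    refine Finset.sum_le_sum fun ω _ => ?_
    have hw := Typ.pw_nonneg hp hp1 ω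
    have hEk : E ^ (A.filter fun i => ω i ≠ none).card
        = Real.exp ((A.filter fun i => ω i ≠ none).card : ℝ) := by
      rw [hE, ← Real.exp_nat_mul, mul_one]
    split_ifs with hc
    · have h4 : 1 ≤ Real.exp (-(3 * l)) * E ^ (A.filter fun i => ω i ≠ none).card := by
        rw [hEk, ← Real.exp_add]
        exact Real.one_le_exp (by linarith)
      calc pw (sw p) ω = pw (sw p) ω * 1 := (mul_one _).symm
        _ ≤ pw (sw p) ω * (Real.exp (-(3 * l)) * E ^ (A.filter fun i => ω i ≠ none).card) :=
            mul_le_mul_of_nonneg_left h4 hw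
        _ = _ := by ring
    · exact mul_nonneg (Real.exp_pos _).le (mul_nonneg hw (pow_nonneg hE0.le _))
  refine hmk.trans ((mul_le_mul_of_nonneg_left hmom (Real.exp_pos _).le).trans ?_)
  rw [← Real.exp_add]
  apply Real.exp_le_exp.2
  nlinarith

omit [Fintype ι] [DecidableEq ι] in
/-- the weight of a piece of a configuration -/
theorem piece_weight (hp : 0 < p) (hp1 : p ≤ 1 / 2) (A : Finset ι) (ω : ι → Option (ZMod 2)) :
    (p / 2) ^ (A.filter fun i => ω i ≠ none).card * Real.exp (-(2 * p * A.card))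
      ≤ ∏ i ∈ A, sw p (ω i) := by
  have h1 : (p / 2) ^ (A.filter fun i => ω i ≠ none).card * Real.exp (-(2 * p * A.card))
      = ∏ i ∈ A, ((if ω i ≠ none then p / 2 else 1) * Real.exp (-(2 * p))) := by
    rw [Finset.prod_mul_distrib, Finset.prod_ite, Finset.prod_const, Finset.prod_const_one, mul_one,
      Finset.prod_const, ← Real.exp_nat_mul]
    congr 2
    ring
  rw [h1]
  have he : Real.exp (-(2 * p)) ≤ 1 - p := by
    have h2 := Real.one_sub_inv_le_log_of_pos (show (0 : ℝ) < 1 - p by linarith)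
    have h3 : -(2 * p) ≤ 1 - (1 - p)⁻¹ := by
      have h4 : (1 - p)⁻¹ ≤ 1 + 2 * p := by
        rw [inv_le_comm₀ (by linarith) (by linarith), inv_eq_one_div, div_le_iff₀ (by linarith)]
        nlinarith
      linarith
    calc Real.exp (-(2 * p)) ≤ Real.exp (Real.log (1 - p)) := Real.exp_le_exp.2 (h3.trans h2)
      _ = 1 - p := Real.exp_log (by linarith)
  have he1 : Real.exp (-(2 * p)) ≤ 1 := Real.exp_le_one_iff.2 (by linarith)
  refine Finset.prod_le_prod (fun i _ => mul_nonneg (by split_ifs <;> linarith) (Real.exp_pos _).le)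
    fun i _ => ?_
  rcases hω : ω i with _ | s
  · simpa [sw] using he
  · simp only [ne_eq, reduceCtorEq, not_false_eq_true, if_true, sw]
    nlinarith [Real.exp_pos (-(2 * p))]

end Pool.Agent.CutSeq
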