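import Mathlib

/-! Row SQN: from windows to a sequence with bounded ratios, abstract form. -/

set_option autoImplicit false

namespace Pool.Agent.CutSeq

open Filter Topology

theorem seq_abs (T : ℕ → ℝ → ℝ) (c : ℝ) (hc : 0 < c)
    (hanti : ∀ n (ε ε' : ℝ), 0 < ε → ε ≤ ε' → ε' < 1 → T n ε' ≤ T n ε)
    (hpos : ∀ ε : ℝ, 0 < ε → ε < 1 → ∀ᶠ n : ℕ in atTop, c * (n : ℝ) ≤ T n ε)
    (ρ₀ : ℝ) (hρ₀ : 1 < ρ₀)
    (h : ∀ ρ : ℝ, ρ₀ < ρ → ∀ ε : ℝ, 0 < ε → ε < 1 → ∀ δ : ℝ, 0 < δ → ∀ᶠ M : ℕ in atTop,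
      ∃ N : ℕ, M ≤ N ∧ (N : ℝ) ≤ ρ * M ∧ T N ε ≤ (1 + δ) * T N (1 - ε))
    (ρ : ℝ) (hρ : ρ₀ < ρ) :
    ∃ n : ℕ → ℕ, StrictMono n ∧ (∀ k, (n (k + 1) : ℝ) ≤ ρ * n k) ∧
      ∀ ε : ℝ, 0 < ε → ε < 1 → Tendsto (fun k => T (n k) ε / T (n k) (1 - ε)) atTop (𝓝 1) := by
  have _ := hρ₀
  classical
  obtain ⟨ρ₁, h1, h2⟩ : ∃ ρ₁, ρ₀ < ρ₁ ∧ ρ₁ < ρ := exists_between hρ
  have hε : ∀ m : ℕ, (0 : ℝ) < 1 / ((m : ℝ) + 2) ∧ 1 / ((m : ℝ) + 2) < 1 := by
    intro m
    have hm : (0 : ℝ) ≤ m := Nat.cast_nonneg m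
    refine ⟨by positivity, ?_⟩
    rw [div_lt_one (by positivity)]
    linarith
  have hδ : ∀ m : ℕ, (0 : ℝ) < 1 / ((m : ℝ) + 1) := by
    intro m
    positivity
  have hP : ∀ m : ℕ, ∃ M₀ : ℕ, ∀ M ≥ M₀, ∃ N : ℕ, M ≤ N ∧ (N : ℝ) ≤ ρ₁ * M ∧
      T N (1 / ((m : ℝ) + 2)) ≤ (1 + 1 / ((m : ℝ) + 1)) * T N (1 - 1 / ((m : ℝ) + 2)) :=
    fun m => eventually_atTop.1 (h ρ₁ h1 _ (hε m).1 (hε m).2 _ (hδ m))
  choose Mf hMf using hP
  -- the level
  set g : ℕ → ℕ := fun M => Nat.findGreatest (fun m => Mf m ≤ M) M with hg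
  have hgs : ∀ M, Mf 0 ≤ M → Mf (g M) ≤ M := by
    intro M hM
    exact Nat.findGreatest_spec (P := fun m => Mf m ≤ M) (Nat.zero_le M) hM
  have hgt : ∀ m M, m ≤ M → Mf m ≤ M → m ≤ g M := by
    intro m M h3 h4
    exact Nat.le_findGreatest h3 h4
  have hstep : ∀ M : ℕ, ∃ N : ℕ, Mf 0 ≤ M → (M ≤ N ∧ (N : ℝ) ≤ ρ₁ * M ∧
      T N (1 / ((g M : ℝ) + 2)) ≤ (1 + 1 / ((g M : ℝ) + 1)) * T N (1 - 1 / ((g M : ℝ) + 2))) := by
    intro M
    by_cases hM : Mf 0 ≤ M
    · obtain ⟨N, hN⟩ := hMf (g M) M (hgs M hM)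
      exact ⟨N, fun _ => hN⟩
    · exact ⟨0, fun h => absurd h hM⟩
  choose nx hnx using hstep
  set a : ℕ := max (Mf 0) ⌈ρ₁ / (ρ - ρ₁)⌉₊ with ha
  set n : ℕ → ℕ := fun k => Nat.rec a (fun _ x => nx (x + 1)) k with hn
  have hns : ∀ k, n (k + 1) = nx (n k + 1) := fun k => rfl
  have hna : ∀ k, a ≤ n k := by
    intro k
    induction k with
    | zero => exact le_rfl
    | succ k ih =>
        rw [hns]
        have := (hnx (n k + 1) (by have := le_max_left (Mf 0) ⌈ρ₁ / (ρ - ρ₁)⌉₊; omega)).1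
        omega
  have hM0 : ∀ k, Mf 0 ≤ n k + 1 := by
    intro k
    have := hna k
    have := le_max_left (Mf 0) ⌈ρ₁ / (ρ - ρ₁)⌉₊
    omega
  have hspec : ∀ k, n k + 1 ≤ n (k + 1) ∧ (n (k + 1) : ℝ) ≤ ρ₁ * ((n k + 1 : ℕ) : ℝ) ∧
      T (n (k + 1)) (1 / ((g (n k + 1) : ℝ) + 2))
        ≤ (1 + 1 / ((g (n k + 1) : ℝ) + 1)) * T (n (k + 1)) (1 - 1 / ((g (n k + 1) : ℝ) + 2)) := by
    intro k
    rw [hns]
    exact hnx (n k + 1) (hM0 k)
  have hmono : StrictMono n := strictMono_nat_of_lt_succ fun k => by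
    have := (hspec k).1
    omega
  have hkn : ∀ k, k ≤ n k := hmono.id_le
  refine ⟨n, hmono, ?_, ?_⟩
  · intro k
    have h3 := (hspec k).2.1
    have h4 : ρ₁ / (ρ - ρ₁) ≤ n k := by
      have h5 : ⌈ρ₁ / (ρ - ρ₁)⌉₊ ≤ n k := le_trans (le_max_right _ _) (hna k)
      exact (Nat.le_ceil _).trans (by exact_mod_cast h5)
    rw [div_le_iff₀ (by linarith)] at h4
    push_cast at h3
    linarith
  · -- the ratio for small values
    have hsmall : ∀ ε : ℝ, 0 < ε → ε ≤ 1 / 2 →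
        Tendsto (fun k => T (n k) ε / T (n k) (1 - ε)) atTop (𝓝 1) := by
      intro ε he0 he1
      have hntop : Tendsto n atTop atTop := hmono.tendsto_atTop
      have hp : ∀ᶠ k in atTop, 0 < T (n k) (1 - ε) := by
        have h3 := hntop.eventually (hpos (1 - ε) (by linarith) (by linarith))
        filter_upwards [h3, eventually_ge_atTop 1] with k hk hk1
        have h4 : (1 : ℝ) ≤ n k := by exact_mod_cast hk1.trans (hkn k)
        have : 0 < c * (n k : ℝ) := by positivity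
        linarith
      rw [Metric.tendsto_atTop]
      intro η hη
      obtain ⟨m₁, hm₁⟩ := exists_nat_one_div_lt hη
      obtain ⟨m₂, hm₂⟩ := exists_nat_one_div_lt he0
      set m := max m₁ m₂ with hm
      obtain ⟨K, hK⟩ := eventually_atTop.1 hp
      refine ⟨max K (max m (Mf m)) + 1, fun k hk => ?_⟩
      obtain ⟨j, rfl⟩ : ∃ j, k = j + 1 := ⟨k - 1, by omega⟩
      have hjn := hkn j
      have hlev : m ≤ g (n j + 1) := by
        apply hgt
        · have := le_max_left m (Mf m)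
          have := le_max_right K (max m (Mf m))
          omega
        · have := le_max_right m (Mf m)
          have := le_max_right K (max m (Mf m))
          omega
      have hlevR : (m : ℝ) ≤ (g (n j + 1) : ℝ) := by exact_mod_cast hlev
      have hT := hK (j + 1) (by have := le_max_left K (max m (Mf m)); omega)
      have hlow : T (n (j + 1)) (1 - ε) ≤ T (n (j + 1)) ε :=
        hanti _ ε (1 - ε) he0 (by linarith) (by linarith)
      have hm2 : (m₂ : ℝ) ≤ m := by exact_mod_cast le_max_right m₁ m₂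
      have hm1 : (m₁ : ℝ) ≤ m := by exact_mod_cast le_max_left m₁ m₂
      have hm10 : (0 : ℝ) ≤ m₁ := Nat.cast_nonneg _
      have hm20 : (0 : ℝ) ≤ m₂ := Nat.cast_nonneg _
      have hle : 1 / ((g (n j + 1) : ℝ) + 2) ≤ ε := by
        refine le_trans ?_ hm₂.le
        apply one_div_le_one_div_of_le (by positivity)
        linarith
      have hd : 1 / ((g (n j + 1) : ℝ) + 1) < η := by
        refine lt_of_le_of_lt ?_ hm₁
        apply one_div_le_one_div_of_le (by positivity)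
        linarith
      have e1 : T (n (j + 1)) ε ≤ T (n (j + 1)) (1 / ((g (n j + 1) : ℝ) + 2)) :=
        hanti _ _ _ (hε _).1 hle (by linarith)
      have e2 : T (n (j + 1)) (1 - 1 / ((g (n j + 1) : ℝ) + 2)) ≤ T (n (j + 1)) (1 - ε) :=
        hanti _ _ _ (by linarith) (by linarith) (by linarith [(hε (g (n j + 1))).1])
      have e3 : T (n (j + 1)) ε ≤ (1 + 1 / ((g (n j + 1) : ℝ) + 1)) * T (n (j + 1)) (1 - ε) := by
        refine e1.trans ((hspec j).2.2.trans ?_)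
        apply mul_le_mul_of_nonneg_left e2
        have := hδ (g (n j + 1))
        linarith
      rw [Real.dist_eq, abs_lt]
      constructor
      · have : 1 ≤ T (n (j + 1)) ε / T (n (j + 1)) (1 - ε) := by
          rw [le_div_iff₀ hT]
          linarith
        linarith
      · have : T (n (j + 1)) ε / T (n (j + 1)) (1 - ε) ≤ 1 + 1 / ((g (n j + 1) : ℝ) + 1) := by
          rw [div_le_iff₀ hT]
          exact e3
        linarith
    intro ε he0 he1
    by_cases hh : ε ≤ 1 / 2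
    · exact hsmall ε he0 hh
    · push Not at hh
      have h3 := hsmall (1 - ε) (by linarith) (by linarith)
      have h4 := h3.inv₀ one_ne_zero
      rw [inv_one] at h4
      refine h4.congr fun k => ?_
      rw [inv_div]
      congr 2
      ring

end Pool.Agent.CutSeq
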