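import Pool.Agent.CutSeq.StageLem

/-! Row STAGE. -/

set_option autoImplicit false

namespace Pool.Agent.CutSeq

open Finset

/-- the forward bound for the block of the stage -/
theorem par_fwd (θ Cf u₃ ε : ℝ) (hθ : 0 < θ) (hCf : 1 ≤ Cf) (N B c k g S ℓ : ℕ) (hN1 : 1 ≤ N)
    (hB : B = 4 * N) (hBpos : 0 < B) (hS : S = 4 * N * (c * k)) (hSr : (S : ℝ) = B * (c * k))
    (hg4N : 2 ^ g ≤ 4 * N) (hcθ : 7 ≤ θ * c) (hck : c * k ≤ N) (hℓN : ℓ ≤ N)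
    (hℓle : (ℓ : ℝ) ≤ u₃ * (c * k : ℕ)) (hk : ε * N ≤ k)
    (hKe : 320 * 4 ^ 8 * Cf * (N : ℝ) ^ 10 ≤ Real.exp (ε * N))
    (hfwd : ∀ (B : ℕ), 0 < B → ∀ s : ℝ, 0 ≤ s → ∀ S ℓ X : ℕ, (ℓ : ℝ) ≤ u₃ * s →
      ∀ z : V (B + 1), z ≠ 0 → tp z + ℓ + X ≤ B →
        pois (B * s) S * pr (uw B S) {ω | tp (act (mm (ext ω) S (B + 1)) z) < tp z + ℓ}
          ≤ Cf * (Real.exp (-(θ * s)) + Real.exp (-(θ * X)))) :
    ∀ z : V (B + 1), z ≠ 0 → tp z ≤ 2 * N →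
      pr (uw B S) {ω | tp (act (mm (ext ω) S (B + 1)) z) < tp z + ℓ}
        ≤ (1 / 2) ^ (5 * k + 3 + 8 * g) := by
  intro z hz hzN
  have h1 := hfwd B hBpos (c * k : ℕ) (by positivity) S ℓ N hℓle z hz (by omega)
  have h2 : (B : ℝ) * ((c * k : ℕ) : ℝ) = (S : ℝ) := by
    rw [hSr]
    push_cast
    ring
  rw [h2] at h1
  have h3 := pois_mode S
  have h4 : (0 : ℝ) < 1 / (4 * (S : ℝ) + 4) := by positivity
  exact pF_bound θ Cf hθ hCf N k g c S hN1 hg4N hcθ hck hS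
    (le_trans hKe (Real.exp_le_exp.2 hk)) _ (pois S S)
    (lt_of_lt_of_le h4 h3) h3 (Evt.pr_nonneg _ _ Evt.uw_nonneg) h1

/-- one stage with the parameters fixed -/
theorem stage_fixed (u u₂ u₃ θ Cf μ CL C K : ℝ) (c N : ℕ) (hu0 : 0 < u) (hu2 : u < u₂)
    (hu23 : u₂ < u₃) (hθ : 0 < θ) (hCf : 1 ≤ Cf) (hμ0 : 0 < μ)
    (hμ : Real.exp μ - 1 ≤ u₂ / u * μ) (hCL : 1 ≤ CL) (hcr : (1 : ℝ) ≤ c) (hcθ : 7 ≤ θ * c)
    (hc10 : 10 ≤ (u₃ - u₂) * c)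
    (hfwd : ∀ (B : ℕ), 0 < B → ∀ s : ℝ, 0 ≤ s → ∀ S ℓ X : ℕ, (ℓ : ℝ) ≤ u₃ * s →
      ∀ z : V (B + 1), z ≠ 0 → tp z + ℓ + X ≤ B →
        pois (B * s) S * pr (uw B S) {ω | tp (act (mm (ext ω) S (B + 1)) z) < tp z + ℓ}
          ≤ Cf * (Real.exp (-(θ * s)) + Real.exp (-(θ * X))))
    (hC20 : 20 ≤ C) (hC2 : 2 * c * (3 + 15 / μ) ≤ C) (hC48 : 48 * CL ≤ C)
    (hC61 : 16 * (2 * CL) * (61 + 2 / (u₂ * c)) ≤ C) (hC2c : 2 * c ≤ C) (hC4c : 4 * u₃ * c ≤ C)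
    (hK40 : 40 ≤ K) (hKCf : 320 * 4 ^ 8 * Cf ≤ K)
    (hK1 : 16 * (2 * CL) * (61 + 2 / (u₂ * c)) * (48 * CL) ≤ K)
    (hK2 : 16 * (2 * CL) * (88 + 2 / (u₂ * c)) ≤ K) (hK3 : 480 * (2 * CL) ≤ K) (hK4 : 6 * CL ≤ K)
    (ε : ℝ) (hN1 : 1 ≤ N) (hK7 : K ≤ ε ^ 7 * N) (hK3' : K ≤ ε ^ 3 * Real.sqrt N)
    (hKg : K * (Nat.clog 2 (2 * N) : ℝ) ≤ ε * N) (hKe : K * (N : ℝ) ^ 10 ≤ Real.exp (ε * N))
    (hlog : 1 + 2 * Real.log (2 * N) ≤ N) (hKεN : K ≤ ε * N) (hε : 0 < ε) (hεC : ε ≤ 1 / C)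
    (B L : ℕ) (hB : B = 4 * N) (hL : (L : ℝ) ≤ CL * N * B) (Λ : ℕ → ℝ) (hΛ0 : 0 < Λ 0)
    (hΛ : ∀ n, Λ n + B / u ≤ Λ (n + 1)) (r : ℝ) (y : ℕ) (D q : ℝ) (G : ℕ → ℕ → Set (Wd B L))
    (hr : 0 ≤ r) (hq : 0 ≤ q) (hD : Real.sqrt N ≤ D) (hqN : q * N ≤ D * ε ^ 3 / C)
    (hFam : Fam B L Λ r y (2 * N) D q G) :
    ∃ G' : ℕ → ℕ → Set (Wd B L), Fam B L Λ (r + C * ε * N * B) (y + ⌈C * ε * N⌉₊) (2 * N)
          (D / 2) (q + C * D / (N ^ 2 * ε ^ 4) + 1 / N) G' := by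
  have hC0 : 0 < C := by linarith
  have hNr : (1 : ℝ) ≤ N := by exact_mod_cast hN1
  have hε1 : ε ≤ 1 := hεC.trans (by rw [div_le_one hC0]; linarith)
  have h40 : 40 ≤ ε * N := hK40.trans hKεN
  have hCε : C * ε ≤ 1 := by
    have := mul_le_mul_of_nonneg_left hεC hC0.le
    rwa [mul_one_div_cancel hC0.ne'] at this
  have hcε : 2 * c * ε ≤ 1 := (mul_le_mul_of_nonneg_right hC2c hε.le).trans hCε
  have hu3c : 4 * u₃ * c * ε ≤ 1 := (mul_le_mul_of_nonneg_right hC4c hε.le).trans hCε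
  have hu20 : 0 < u₂ := hu0.trans hu2
  obtain ⟨hkge, hkle, hk40, hmle, hm1, hmN, hkm, hεN'⟩ :=
    par_basic N ε hNr hε hε1 h40 (hK40.trans hK7) ⌈ε * N⌉₊ ⌈4 / ε⌉₊ rfl rfl
  generalize ⌈ε * N⌉₊ = k at hkge hkle hk40 hkm
  generalize ⌈4 / ε⌉₊ = m at hmle hm1 hmN hkm
  have hgN : 2 * N ≤ 2 ^ Nat.clog 2 (2 * N) := le_clog N
  have hg4N : 2 ^ Nat.clog 2 (2 * N) ≤ 4 * N := clog_pow_le N hN1
  have hg1 : 1 ≤ Nat.clog 2 (2 * N) := Nat.clog_pos (by norm_num) (by omega)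
  have hg40 : 40 * (Nat.clog 2 (2 * N) : ℝ) ≤ ε * N :=
    le_trans (mul_le_mul_of_nonneg_right hK40 (by positivity)) hKg
  generalize Nat.clog 2 (2 * N) = g at hgN hg4N hg1 hg40 hKg
  obtain ⟨hckN, hℓle, hℓN, hden, hℓ2, hden0⟩ := par_block N c k g ⌊u₃ * (c * k : ℕ)⌋₊ ε u₂ u₃ hNr hε
    hu20 hu23 hcr hc10 hcε hu3c hkle hk40 (hg40.trans hkge) rfl
  generalize ⌊u₃ * (c * k : ℕ)⌋₊ = ℓ at hℓle hℓN hden hℓ2 hden0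
  have hkpos : 0 < k := by
    have : (0 : ℝ) < k := by linarith
    exact_mod_cast this
  have hBr : (B : ℝ) = 4 * N := by rw [hB]; push_cast; ring
  have hBpos : 0 < B := by omega
  have hcpos : 0 < c := by
    have : (0 : ℝ) < c := by linarith
    exact_mod_cast this
  have hckpos : 0 < c * k := Nat.mul_pos hcpos hkpos
  obtain ⟨S, hS⟩ : ∃ S, S = 4 * N * (c * k) := ⟨_, rfl⟩
  have hSr : (S : ℝ) = B * (c * k) := by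
    rw [hS, hBr]
    push_cast
    ring
  have hSpos : 0 < S := by
    rw [hS]
    exact Nat.mul_pos (by omega) hckpos
  have hF := par_fwd θ Cf u₃ ε hθ hCf N B c k g S ℓ hN1 hB hBpos hS hSr hg4N hcθ hckN hℓN hℓle hkge
    (le_trans (mul_le_mul_of_nonneg_right hKCf (by positivity)) hKe) hfwd
  obtain ⟨hIL, hLI, hIle, hI1⟩ := par_times N B L S (L / S) c k CL ε hCL hNr hε hε1 hBpos hSr hSpos
    hcr hkge hL rfl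
  generalize L / S = I at hIL hLI hIle hI1
  have hD1 : 1 ≤ D := le_trans (Real.one_le_sqrt.2 hNr) hD
  have hq'le := loss_bound CL ε N k g I D q hCL hN1 hε hε1 hkge hgN hD1 hIle (hK4.trans hK7)
  have hq'0 : 0 ≤ q + I * (((2 * N : ℕ) : ℝ) / k + 1) * (8 / k * ((D + 1) / k
      + (1 / 2) ^ (4 * g) * ((2 * N : ℕ) : ℝ)) + (1 / 2) ^ (4 * g)) := by
    have hD0 : 0 ≤ D := by linarith
    positivity
  obtain ⟨q', hq'⟩ : ∃ q', q' = q + I * (((2 * N : ℕ) : ℝ) / k + 1) * (8 / k * ((D + 1) / k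
      + (1 / 2) ^ (4 * g) * ((2 * N : ℕ) : ℝ)) + (1 / 2) ^ (4 * g)) := ⟨_, rfl⟩
  rw [← hq'] at hq'le hq'0
  obtain ⟨hpc4, hpμ⟩ := par_rate N c k g ℓ S B ε u u₂ μ _ hu0 hu20 hNr hε hcr hkge hden rfl hμ hμ0
    hBpos hSr
  have hc40 : 0 ≤ 2 / (u₂ * (c : ℝ)) := by positivity
  have hE := errT_le N k g ℓ m ε _ q' D (by
      have : (2 : ℝ) ≤ N := by linarith
      exact_mod_cast this) hε hε1 hkge hgN hmle (by
      have : (m : ℝ) ≤ ((2 * N : ℕ) : ℝ) := by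
        push_cast
        linarith
      exact_mod_cast this) (by omega) hq'0 hD1 hlog (by
      have : 0 ≤ u₂ * ((c : ℝ) * k) := by positivity
      linarith) hpc4 hc40
  have hqN' : q * N * (16 * (2 * CL) * (61 + 2 / (u₂ * c))) ≤ D * ε ^ 3 := by
    have h2 : q * N * (16 * (2 * CL) * (61 + 2 / (u₂ * c))) ≤ q * N * C :=
      mul_le_mul_of_nonneg_left hC61 (by positivity)
    rw [le_div_iff₀ hC0] at hqN
    exact h2.trans hqN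
  have hTot := err_total (2 * CL) (2 / (u₂ * c)) (48 * CL) ε N q q' D (I + 1)
    (errSum (2 * N) k m g ℓ k (4 * g) (3 * m + 20 * g) D q' ((1 / 2) ^ (5 * k + 3 + 8 * g)))
    (by positivity) hc40 (by positivity) hε hε1 (by linarith) hq hD (by positivity) hI1 hE hq'le
    hq'0 hqN' (hK1.trans hK7) (hK2.trans hK3') (hK3.trans hK7)
  obtain ⟨hrB, hyB⟩ := par_end N c k g m S B ε μ C hε hμ0 h40 hkle hg40 hmN hSr hC20 hC2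
  have hcore := stage_core hBpos hΛ0 hu0 hΛ hr (zero_le_one.trans hD1) hFam S I k m g ℓ k
    (4 * g) (3 * m + 20 * g) (k + 4 * g) (7 * k + 40 * g + 3 * m + 5) ((1 / 2) ^ (4 * g))
    ((1 / 2) ^ (5 * k + 3 + 8 * g)) μ q' (D / 2) (2 + 15 / μ) hSpos hIL hLI hkpos hm1 (by omega)
    hkm hgN hg1 rfl (by omega) (by positivity) hF hℓ2 hkpos le_rfl (by omega)
    (by omega) hq'.ge hμ0.le hpμ (by positivity) (exp_part D μ hμ0 hD1 _ hTot)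
  refine ⟨_, hcore.weaken ?_ ?_ ?_ le_rfl ?_⟩
  · apply monotone_nat_of_le_succ
    intro n
    have hBr0 : (0 : ℝ) ≤ B / u := by positivity
    exact (le_add_of_nonneg_right hBr0).trans (hΛ n)
  · rw [add_assoc]
    exact add_le_add le_rfl hrB
  · exact Nat.add_le_add_left hyB y
  · refine le_trans hq'le ?_
    have h1 : 48 * CL * D / ((N : ℝ) ^ 2 * ε ^ 4) ≤ C * D / ((N : ℝ) ^ 2 * ε ^ 4) := by
      apply div_le_div_of_nonneg_right _ (by positivity)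
      exact mul_le_mul_of_nonneg_right hC48 (by linarith)
    exact add_le_add (add_le_add le_rfl h1) le_rfl

/-- the stage lemma -/
theorem stage (u : ℝ) (hu0 : 0 < u) (hu : u < Pool.Agent.UTM.Es.vv) (CL : ℝ) (hCL : 1 ≤ CL) :
    ∃ C : ℝ, 1 ≤ C ∧ ∃ N₀ : ℕ, ∀ N ≥ N₀, ∀ (B L : ℕ), B = 4 * N → (L : ℝ) ≤ CL * N * B →
      ∀ Λ : ℕ → ℝ, 0 < Λ 0 → (∀ n, Λ n + B / u ≤ Λ (n + 1)) →
      ∀ (r : ℝ) (y : ℕ) (D q ε : ℝ) (G : ℕ → ℕ → Set (Wd B L)), 0 ≤ r → 0 ≤ q →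
        (N : ℝ) ^ (-(1 / 16) : ℝ) ≤ ε → ε ≤ 1 / C → Real.sqrt N ≤ D → q * N ≤ D * ε ^ 3 / C →
        Fam B L Λ r y (2 * N) D q G →
        ∃ G' : ℕ → ℕ → Set (Wd B L), Fam B L Λ (r + C * ε * N * B) (y + ⌈C * ε * N⌉₊) (2 * N)
          (D / 2) (q + C * D / (N ^ 2 * ε ^ 4) + 1 / N) G' := by
  obtain ⟨u₂, hu2, hu2v⟩ := exists_between hu
  obtain ⟨u₃, hu23, hu3v⟩ := exists_between hu2v
  have hu20 : 0 < u₂ := by linarith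
  have hu30 : 0 < u₃ := by linarith
  obtain ⟨θ, Cf, hθ, hCf, hfwd⟩ := forward u₃ hu3v
  obtain ⟨μ, hμ0, hμ⟩ := exists_mu u u₂ hu0 hu2
  obtain ⟨c, hc⟩ : ∃ c, c = ⌈7 / θ⌉₊ + ⌈10 / (u₃ - u₂)⌉₊ + 1 := ⟨_, rfl⟩
  have hd23 : 0 < u₃ - u₂ := by linarith
  have hcr : (1 : ℝ) ≤ c := by exact_mod_cast (by omega : 1 ≤ c)
  have hcθ : 7 ≤ θ * c := by
    have h1 : 7 / θ ≤ (⌈7 / θ⌉₊ : ℝ) := Nat.le_ceil _
    have h2 : (⌈7 / θ⌉₊ : ℝ) ≤ c := by exact_mod_cast (by omega : ⌈7 / θ⌉₊ ≤ c)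
    have h3 : 7 / θ ≤ c := h1.trans h2
    rw [div_le_iff₀ hθ] at h3
    linarith
  have hc10 : 10 ≤ (u₃ - u₂) * c := by
    have h1 : 10 / (u₃ - u₂) ≤ (⌈10 / (u₃ - u₂)⌉₊ : ℝ) := Nat.le_ceil _
    have h2 : (⌈10 / (u₃ - u₂)⌉₊ : ℝ) ≤ c := by
      exact_mod_cast (by omega : ⌈10 / (u₃ - u₂)⌉₊ ≤ c)
    have h3 : 10 / (u₃ - u₂) ≤ c := h1.trans h2
    rw [div_le_iff₀ hd23] at h3
    linarith
  have p1 : 0 ≤ 2 * (c : ℝ) * (3 + 15 / μ) := by positivity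
  have p2 : 0 ≤ 48 * CL := by positivity
  have p3 : 0 ≤ 16 * (2 * CL) * (61 + 2 / (u₂ * (c : ℝ))) := by positivity
  have p4 : 0 ≤ 2 * (c : ℝ) := by positivity
  have p5 : 0 ≤ 4 * u₃ * (c : ℝ) := by positivity
  have p6 : 0 ≤ 320 * 4 ^ 8 * Cf := by positivity
  have p7 : 0 ≤ 16 * (2 * CL) * (61 + 2 / (u₂ * (c : ℝ))) * (48 * CL) := by positivity
  have p8 : 0 ≤ 16 * (2 * CL) * (88 + 2 / (u₂ * (c : ℝ))) := by positivity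
  have p9 : 0 ≤ 480 * (2 * CL) := by positivity
  have p10 : 0 ≤ 6 * CL := by positivity
  obtain ⟨N₀, hN₀⟩ := asym (40 + 320 * 4 ^ 8 * Cf + 16 * (2 * CL) * (61 + 2 / (u₂ * c)) * (48 * CL)
    + 16 * (2 * CL) * (88 + 2 / (u₂ * c)) + 480 * (2 * CL) + 6 * CL)
  refine ⟨20 + 2 * c * (3 + 15 / μ) + 48 * CL + 16 * (2 * CL) * (61 + 2 / (u₂ * c)) + 2 * c
    + 4 * u₃ * c, by linarith, N₀, ?_⟩
  intro N hN B L hB hL Λ hΛ0 hΛ r y D q ε G hr hq hεN16 hεC hD hqN hFam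
  have hε1 : ε ≤ 1 := hεC.trans (by
    rw [div_le_one (by linarith)]
    linarith)
  obtain ⟨hN1, hKN, hK7, hK3, hKg, hKe, hlog, hKεN⟩ := hN₀ N hN ε hεN16 hε1
  have hε : 0 < ε := by
    have h1 : (0 : ℝ) < N := by exact_mod_cast hN1
    exact lt_of_lt_of_le (Real.rpow_pos_of_pos h1 _) hεN16
  refine stage_fixed u u₂ u₃ θ Cf μ CL _ _ c N hu0 hu2 hu23 hθ hCf hμ0 hμ hCL hcr hcθ hc10 hfwd
    ?_ ?_ ?_ ?_ ?_ ?_ ?_ ?_ ?_ ?_ ?_ ?_ ε hN1 hK7 hK3 hKg hKe hlog hKεN hε hεC B L hB hL Λ hΛ0 hΛ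
    r y D q G hr hq hD hqN hFam
  all_goals linarith

end Pool.Agent.CutSeq
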