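import Mathlib

/-! Row STAGE, asymptotics of the parameters. -/

set_option autoImplicit false

namespace Pool.Agent.CutSeq

open Filter

theorem clog_le (N : ℕ) (hN : 1 ≤ N) :
    (Nat.clog 2 (2 * N) : ℝ) ≤ 2 + 2 * Real.log N := by
  have h1 : 1 < 2 * N := by omega
  have hpos : 0 < Nat.clog 2 (2 * N) := Nat.clog_pos (by norm_num) (by omega)
  have h2 : 2 ^ (Nat.clog 2 (2 * N)).pred < 2 * N := Nat.pow_pred_clog_lt_self (by norm_num) h1
  obtain ⟨j, hj⟩ : ∃ j, Nat.clog 2 (2 * N) = j + 1 := ⟨_, (Nat.succ_pred_eq_of_pos hpos).symm⟩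
  rw [hj, Nat.pred_succ] at h2
  rw [hj]
  have h3 : ((2 : ℝ)) ^ j < 2 * N := by exact_mod_cast h2
  have hNr : (1 : ℝ) ≤ N := by exact_mod_cast hN
  have h4 : (j : ℝ) * Real.log 2 ≤ Real.log 2 + Real.log N := by
    have := Real.log_lt_log (by positivity) h3
    rw [Real.log_pow, Real.log_mul (by norm_num) (by positivity)] at this
    exact this.le
  have h5 : (1 / 2 : ℝ) < Real.log 2 := by
    have := Real.log_two_gt_d9
    linarith
  have h6 : 0 ≤ Real.log N := Real.log_nonneg hNr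
  push_cast
  nlinarith

theorem le_clog (N : ℕ) : 2 * N ≤ 2 ^ Nat.clog 2 (2 * N) := Nat.le_pow_clog (by norm_num) _

theorem clog_pow_le (N : ℕ) (hN : 1 ≤ N) : 2 ^ Nat.clog 2 (2 * N) ≤ 4 * N := by
  have h1 : 1 < 2 * N := by omega
  have hpos : 0 < Nat.clog 2 (2 * N) := Nat.clog_pos (by norm_num) (by omega)
  have h2 : 2 ^ (Nat.clog 2 (2 * N)).pred < 2 * N := Nat.pow_pred_clog_lt_self (by norm_num) h1
  obtain ⟨j, hj⟩ : ∃ j, Nat.clog 2 (2 * N) = j + 1 := ⟨_, (Nat.succ_pred_eq_of_pos hpos).symm⟩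
  rw [hj, Nat.pred_succ] at h2
  rw [hj, pow_succ]
  omega

theorem asym (K : ℝ) : ∃ N₀ : ℕ, ∀ N ≥ N₀, ∀ ε : ℝ, (N : ℝ) ^ (-(1 / 16) : ℝ) ≤ ε → ε ≤ 1 →
    1 ≤ N ∧ K ≤ N ∧ K ≤ ε ^ 7 * N ∧ K ≤ ε ^ 3 * Real.sqrt N ∧
      K * (Nat.clog 2 (2 * N) : ℝ) ≤ ε * N ∧ K * (N : ℝ) ^ 10 ≤ Real.exp (ε * N) ∧
      1 + 2 * Real.log (2 * N) ≤ N ∧ K ≤ ε * N := by
  have hR : Tendsto (fun N : ℕ => (N : ℝ) ^ (1 / 16 : ℝ)) atTop atTop :=
    (tendsto_rpow_atTop (by norm_num)).comp tendsto_natCast_atTop_atTop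
  have hsq : Tendsto (fun N : ℕ => Real.sqrt N) atTop atTop :=
    Real.tendsto_sqrt_atTop.comp tendsto_natCast_atTop_atTop
  have hexp : ∀ᶠ N : ℕ in atTop, (|K| + 1) * (Real.sqrt N) ^ 20 ≤ Real.exp (Real.sqrt N) := by
    have h1 := (Real.tendsto_pow_mul_exp_neg_atTop_nhds_zero 20).comp hsq
    have h2 : ∀ᶠ N : ℕ in atTop, (Real.sqrt N) ^ 20 * Real.exp (-Real.sqrt N) < 1 / (|K| + 1) := by
      have := h1.eventually (gt_mem_nhds (show (0 : ℝ) < 1 / (|K| + 1) by positivity))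
      exact this
    filter_upwards [h2] with N hN
    rw [Real.exp_neg, lt_div_iff₀ (by positivity)] at hN
    have h3 : 0 < Real.exp (Real.sqrt N) := Real.exp_pos _
    have h4 : (Real.sqrt N) ^ 20 * (Real.exp (Real.sqrt N))⁻¹ * (|K| + 1)
        = ((|K| + 1) * (Real.sqrt N) ^ 20) / Real.exp (Real.sqrt N) := by
      rw [div_eq_mul_inv]
      ring
    rw [h4, div_lt_one h3] at hN
    exact hN.le
  have hlog : ∀ᶠ N : ℕ in atTop, 1 + 2 * Real.log (2 * N) ≤ N := by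
    have h1 : Tendsto (fun N : ℕ => (2 : ℝ) * N) atTop atTop :=
      Tendsto.const_mul_atTop (by norm_num) tendsto_natCast_atTop_atTop
    have h2 := (Real.isLittleO_log_id_atTop.comp_tendsto h1).bound
      (show (0 : ℝ) < 1 / 8 by norm_num)
    filter_upwards [h2, eventually_ge_atTop 2] with N hN hN2
    have hNr : (2 : ℝ) ≤ N := by exact_mod_cast hN2
    simp only [Function.comp, id, Real.norm_eq_abs] at hN
    have h3 : Real.log (2 * N) ≤ 1 / 8 * (2 * N) := by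
      refine le_trans (le_abs_self _) (le_trans hN ?_)
      rw [abs_of_nonneg (by positivity)]
    linarith
  have hbig := hR.eventually_ge_atTop (|K| * 100 + 100)
  have hall := hexp.and (hlog.and (hbig.and (eventually_ge_atTop 1)))
  obtain ⟨N₀, hN₀⟩ := eventually_atTop.1 hall
  refine ⟨N₀, fun N hN ε hε hε1 => ?_⟩
  obtain ⟨hA, hB, hC, hD⟩ := hN₀ N hN
  have hNr : (1 : ℝ) ≤ N := by exact_mod_cast hD
  have hN0 : (0 : ℝ) ≤ N := by linarith
  set R : ℝ := (N : ℝ) ^ (1 / 16 : ℝ) with hRdef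
  have hR16 : R ^ 16 = N := by
    rw [hRdef, ← Real.rpow_natCast, ← Real.rpow_mul hN0]
    norm_num
  have hRpos : 0 < R := by
    have := abs_nonneg K
    linarith
  have hR100 : 100 ≤ R := by
    have := abs_nonneg K
    linarith
  have hRK : |K| ≤ R := by
    have := abs_nonneg K
    linarith
  have hεR : 1 ≤ ε * R := by
    have h1 : (N : ℝ) ^ (-(1 / 16) : ℝ) = R⁻¹ := by
      rw [hRdef, ← Real.rpow_neg hN0]
    rw [h1] at hε
    have := mul_le_mul_of_nonneg_right hε hRpos.le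
    rwa [inv_mul_cancel₀ hRpos.ne'] at this
  have hεpos : 0 < ε := by
    by_contra h0
    have := mul_nonpos_of_nonpos_of_nonneg (not_lt.1 h0) hRpos.le
    linarith
  have hR1 : 1 ≤ R := by linarith
  have hsqrt : Real.sqrt N = R ^ 8 := by
    rw [← hR16, show R ^ 16 = (R ^ 8) ^ 2 by ring]
    exact Real.sqrt_sq (by positivity)
  have hKle := le_abs_self K
  have hpow : ∀ n : ℕ, 1 ≤ n → R ≤ R ^ n := fun n hn => by
    calc R = R ^ 1 := (pow_one R).symm
      _ ≤ R ^ n := pow_le_pow_right₀ hR1 hn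
  have hεRp : ∀ n : ℕ, 1 ≤ (ε * R) ^ n := fun n => one_le_pow₀ hεR
  have hlogR : Real.log N ≤ 16 * R := by
    rw [← hR16, Real.log_pow]
    have := Real.log_le_sub_one_of_pos hRpos
    push_cast
    linarith
  have hεN : R ^ 15 ≤ ε * N := by
    rw [← hR16]
    have := mul_le_mul_of_nonneg_right hεR (pow_nonneg hRpos.le 15)
    calc R ^ 15 = 1 * R ^ 15 := (one_mul _).symm
      _ ≤ ε * R * R ^ 15 := this
      _ = ε * R ^ 16 := by ring
  refine ⟨hD, ?_, ?_, ?_, ?_, ?_, hB, ?_⟩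
  · have h1 := hpow 16 (by norm_num)
    rw [hR16] at h1
    linarith
  · have h1 : ε ^ 7 * N = (ε * R) ^ 7 * R ^ 9 := by
      rw [← hR16]; ring
    rw [h1]
    have h2 := mul_le_mul_of_nonneg_right (hεRp 7) (pow_nonneg hRpos.le 9)
    have h3 := hpow 9 (by norm_num)
    linarith
  · have h1 : ε ^ 3 * Real.sqrt N = (ε * R) ^ 3 * R ^ 5 := by
      rw [hsqrt]; ring
    rw [h1]
    have h2 := mul_le_mul_of_nonneg_right (hεRp 3) (pow_nonneg hRpos.le 5)
    have h3 := hpow 5 (by norm_num)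
    linarith
  · have h1 := clog_le N hD
    have h2 : (Nat.clog 2 (2 * N) : ℝ) ≤ 34 * R := by linarith
    have h3 : K * (Nat.clog 2 (2 * N) : ℝ) ≤ |K| * (34 * R) := by
      refine le_trans (mul_le_mul_of_nonneg_right hKle (by positivity)) ?_
      exact mul_le_mul_of_nonneg_left h2 (abs_nonneg K)
    have h4 : |K| * (34 * R) ≤ R * R * R := by nlinarith [abs_nonneg K]
    have h5 : R * R * R ≤ R ^ 15 := by
      calc R * R * R = R ^ 3 := by ring
        _ ≤ R ^ 15 := pow_le_pow_right₀ hR1 (by norm_num)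
    linarith
  · have h1 : (N : ℝ) ^ 10 = (Real.sqrt N) ^ 20 := by
      rw [show (Real.sqrt N) ^ 20 = ((Real.sqrt N) ^ 2) ^ 10 by ring, Real.sq_sqrt hN0]
    rw [h1]
    have h2 : K * (Real.sqrt N) ^ 20 ≤ (|K| + 1) * (Real.sqrt N) ^ 20 :=
      mul_le_mul_of_nonneg_right (by linarith) (by positivity)
    refine le_trans h2 (le_trans hA (Real.exp_le_exp.2 ?_))
    rw [hsqrt]
    exact le_trans (pow_le_pow_right₀ hR1 (by norm_num)) hεN
  · have h3 := hpow 15 (by norm_num)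
    linarith

end Pool.Agent.CutSeq
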