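import Pool.Agent.CutSeq.SchDefs

/-! Row SUMS: nonnegativity of the correlation terms, and the sums of the errors of the scheme. -/

set_option autoImplicit false

namespace Pool.Agent.CutSeq

open Finset

namespace Sm

section Mass

variable {Ω A B : Type*} [Fintype Ω]

theorem mass_nonneg (w : Ω → ℝ) (hw : ∀ ω, 0 ≤ w ω) (X : Ω → A) (a : A) : 0 ≤ mass w X a := by
  unfold mass
  refine sum_nonneg fun ω _ => ?_
  split_ifs
  · exact hw ω
  · exact le_rfl

theorem mass_pos (w : Ω → ℝ) (hw : ∀ ω, 0 ≤ w ω) (X : Ω → A) (ω : Ω) (h : w ω ≠ 0) :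
    0 < mass w X (X ω) := by
  unfold mass
  refine sum_pos' (fun ω _ => ?_) ⟨ω, mem_univ _, ?_⟩
  · split_ifs
    · exact hw ω
    · exact le_rfl
  · rw [if_pos rfl]
    exact lt_of_le_of_ne (hw ω) (Ne.symm h)

theorem sum_mass [DecidableEq A] (w : Ω → ℝ) (Z : Ω → A) (G : A → ℝ) :
    ∑ ω, w ω * G (Z ω) = ∑ z ∈ univ.image Z, mass w Z z * G z := by
  rw [← sum_fiberwise_of_maps_to (s := univ) (t := univ.image Z) (g := Z)
    (fun x _ => mem_image_of_mem _ (mem_univ x))]
  refine sum_congr rfl fun z _ => ?_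
  unfold mass
  rw [sum_mul, sum_filter]
  refine sum_congr rfl fun ω _ => ?_
  by_cases h : Z ω = z
  · simp [h]
  · simp [h]

theorem tot_eq_sum_mass [DecidableEq A] (w : Ω → ℝ) (Z : Ω → A) :
    tot w = ∑ z ∈ univ.image Z, mass w Z z := by
  have := sum_mass w Z (fun _ => 1)
  simpa [tot] using this

/-- Gibbs inequality -/
theorem gibbs [Fintype A] (w : Ω → ℝ) (hw : ∀ ω, 0 ≤ w ω) (X : Ω → A) (Y : Ω → B)
    (ψ : A → B → ℝ) (hψ : ∀ a y, 0 ≤ ψ a y) (hs : ∀ y, ∑ a, ψ a y ≤ 1)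
    (hpos : ∀ ω, w ω ≠ 0 → 0 < ψ (X ω) (Y ω)) :
    ∑ ω, w ω * Real.log (ψ (X ω) (Y ω) * mass w Y (Y ω)
      / mass w (fun ω => (X ω, Y ω)) (X ω, Y ω)) ≤ 0 := by
  classical
  have h1 : ∀ ω, w ω * Real.log (ψ (X ω) (Y ω) * mass w Y (Y ω)
      / mass w (fun ω => (X ω, Y ω)) (X ω, Y ω)) ≤ w ω * (ψ (X ω) (Y ω) * mass w Y (Y ω)
      / mass w (fun ω => (X ω, Y ω)) (X ω, Y ω)) - w ω := by
    intro ω
    by_cases h : w ω = 0
    · simp [h]
    · have hp : 0 < ψ (X ω) (Y ω) * mass w Y (Y ω)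
          / mass w (fun ω => (X ω, Y ω)) (X ω, Y ω) :=
        div_pos (mul_pos (hpos ω h) (mass_pos w hw Y ω h))
          (mass_pos w hw (fun ω => (X ω, Y ω)) ω h)
      have := mul_le_mul_of_nonneg_left (Real.log_le_sub_one_of_pos hp) (hw ω)
      linarith
  have h2 : ∑ ω, w ω * (ψ (X ω) (Y ω) * mass w Y (Y ω)
      / mass w (fun ω => (X ω, Y ω)) (X ω, Y ω)) ≤ tot w := by
    rw [sum_mass w (fun ω => (X ω, Y ω)) (fun z => ψ z.1 z.2 * mass w Y z.2
      / mass w (fun ω => (X ω, Y ω)) z)]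
    calc ∑ z ∈ univ.image (fun ω => (X ω, Y ω)), mass w (fun ω => (X ω, Y ω)) z
          * (ψ z.1 z.2 * mass w Y z.2 / mass w (fun ω => (X ω, Y ω)) z)
        ≤ ∑ z ∈ univ.image (fun ω => (X ω, Y ω)), ψ z.1 z.2 * mass w Y z.2 := by
          refine sum_le_sum fun z _ => ?_
          by_cases hz : mass w (fun ω => (X ω, Y ω)) z = 0
          · rw [hz, zero_mul]
            exact mul_nonneg (hψ _ _) (mass_nonneg w hw Y _)
          · rw [mul_div_cancel₀ _ hz]
      _ ≤ ∑ z ∈ (univ : Finset A) ×ˢ univ.image Y, ψ z.1 z.2 * mass w Y z.2 := by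
          refine sum_le_sum_of_subset_of_nonneg ?_ ?_
          · intro z hz
            obtain ⟨ω, _, rfl⟩ := mem_image.1 hz
            exact mem_product.2 ⟨mem_univ _, mem_image_of_mem _ (mem_univ _)⟩
          · intro z _ _
            exact mul_nonneg (hψ _ _) (mass_nonneg w hw Y _)
      _ = ∑ y ∈ univ.image Y, (∑ a, ψ a y) * mass w Y y := by
          rw [sum_product_right]
          exact sum_congr rfl fun y _ => by rw [sum_mul]
      _ ≤ ∑ y ∈ univ.image Y, mass w Y y := by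
          refine sum_le_sum fun y _ => ?_
          have := mul_le_mul_of_nonneg_right (hs y) (mass_nonneg w hw Y y)
          linarith
      _ = tot w := (tot_eq_sum_mass w Y).symm
  calc _ ≤ ∑ ω, (w ω * (ψ (X ω) (Y ω) * mass w Y (Y ω)
      / mass w (fun ω => (X ω, Y ω)) (X ω, Y ω)) - w ω) := sum_le_sum fun ω _ => h1 ω
    _ = ∑ ω, w ω * (ψ (X ω) (Y ω) * mass w Y (Y ω)
      / mass w (fun ω => (X ω, Y ω)) (X ω, Y ω)) - tot w := by rw [sum_sub_distrib, tot]
    _ ≤ 0 := by linarith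

end Mass

variable {n : ℕ}

theorem uT_nonneg (T : Submodule (ZMod 2) (V n)) (x : V n) : 0 ≤ uT T x := by
  unfold uT
  split_ifs
  · positivity
  · exact le_rfl

theorem card_T_pos (T : Submodule (ZMod 2) (V n)) : (0 : ℝ) < (Nat.card T : ℝ) := by
  have : 0 < Nat.card T := Nat.card_pos
  exact_mod_cast this

theorem uT_pos (T : Submodule (ZMod 2) (V n)) (x : V n) (h : x ∈ T) : 0 < uT T x := by
  unfold uT
  rw [if_pos h]
  exact one_div_pos.2 (card_T_pos T)

theorem uT_eq_zero (T : Submodule (ZMod 2) (V n)) (x : V n) (h : x ∉ T) : uT T x = 0 := by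
  unfold uT
  rw [if_neg h]

theorem sum_uT (T : Submodule (ZMod 2) (V n)) : ∑ x, uT T x = 1 := by
  classical
  have h : ∑ x, uT T x = ∑ x ∈ univ.filter (fun x => x ∈ T), 1 / (Nat.card T : ℝ) := by
    rw [sum_filter]
    exact sum_congr rfl fun x _ => by unfold uT; congr
  have h2 : (univ.filter (fun x => x ∈ T)).card = Nat.card T := by
    rw [Nat.card_eq_fintype_card, Fintype.card_subtype]
  rw [h, sum_const, h2, nsmul_eq_mul, mul_one_div_cancel (ne_of_gt (card_T_pos T))]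

/-- products of sums -/
theorem sum_prod_fun {m : ℕ} (g : Fin m → V n → ℝ) :
    ∑ x : Fin m → V n, ∏ i, g i (x i) = ∏ i, ∑ x, g i x := by
  rw [Finset.prod_univ_sum, Fintype.piFinset_univ]

theorem sum_sib_one (T : Submodule (ZMod 2) (V n)) (m : ℕ) :
    ∑ x : Fin m → V n, ∏ i, uT T (x i) = 1 := by
  rw [sum_prod_fun (fun _ => uT T)]
  simp [sum_uT]

/-- marginals of the siblings -/
theorem sum_sib_coord (T : Submodule (ZMod 2) (V n)) {m : ℕ} (j : Fin m) (g : V n → ℝ) :
    ∑ x : Fin m → V n, (∏ i, uT T (x i)) * g (x j) = ∑ x, uT T x * g x := by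
  classical
  have h1 : ∀ x : Fin m → V n, (∏ i, uT T (x i)) * g (x j)
      = ∏ i, (uT T (x i) * if i = j then g (x i) else 1) := by
    intro x
    rw [prod_mul_distrib]
    congr 1
    rw [prod_ite_eq' univ j (fun i => g (x i)), if_pos (mem_univ j)]
  simp_rw [h1]
  rw [sum_prod_fun (fun i x => uT T x * if i = j then g x else 1)]
  rw [prod_eq_single j]
  · simp
  · intro i _ hij
    simp [hij, sum_uT]
  · intro h
    exact absurd (mem_univ j) h

section Dens

variable {Ω B : Type*} [Fintype Ω]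

open Classical in
/-- unnormalised joint density of the siblings -/
noncomputable def FF (w : Ω → ℝ) (T : Ω → Submodule (ZMod 2) (V n)) (Y : Ω → B) (m : ℕ)
    (x : Fin m → V n) (y : B) : ℝ :=
  ∑ ω, if Y ω = y then w ω * ∏ i, uT (T ω) (x i) else 0

open Classical in
/-- unnormalised density of one sibling -/
noncomputable def F1 (w : Ω → ℝ) (T : Ω → Submodule (ZMod 2) (V n)) (Y : Ω → B)
    (x : V n) (y : B) : ℝ :=
  ∑ ω, if Y ω = y then w ω * uT (T ω) x else 0

theorem mass_sib (w : Ω → ℝ) (T : Ω → Submodule (ZMod 2) (V n)) (Y : Ω → B) (m : ℕ)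
    (x : Fin m → V n) (y : B) :
    mass (sib w T m) (fun p => (p.2, Y p.1)) (x, y) = FF w T Y m x y := by
  classical
  unfold mass FF sib
  rw [Fintype.sum_prod_type]
  refine sum_congr rfl fun ω _ => ?_
  rw [sum_eq_single x]
  · by_cases h : Y ω = y
    · simp [h]
    · simp [h]
  · intro x' _ hx'
    rw [if_neg]
    intro h
    exact hx' (Prod.ext_iff.1 h).1
  · intro h
    exact absurd (mem_univ _) h

theorem mass_sib_fst (w : Ω → ℝ) (T : Ω → Submodule (ZMod 2) (V n)) (Y : Ω → B) (m : ℕ)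
    (y : B) : mass (sib w T m) (fun p => Y p.1) y = mass w Y y := by
  classical
  unfold mass sib
  rw [Fintype.sum_prod_type]
  refine sum_congr rfl fun ω _ => ?_
  by_cases h : Y ω = y
  · simp only [h, if_true]
    rw [← mul_sum, sum_sib_one, mul_one]
  · simp [h]

theorem FF_one (w : Ω → ℝ) (T : Ω → Submodule (ZMod 2) (V n)) (Y : Ω → B)
    (x : Fin 1 → V n) (y : B) : FF w T Y 1 x y = F1 w T Y (x 0) y := by
  classical
  unfold FF F1
  refine sum_congr rfl fun ω _ => ?_
  simp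

/-- the entropy of one sibling -/
theorem KK_one (w : Ω → ℝ) (T : Ω → Submodule (ZMod 2) (V n)) (Y : Ω → B) :
    KK (sib w T 1) (fun p => p.2) (fun p => Y p.1)
      = ∑ ω, w ω * ∑ x, uT (T ω) x * Real.log (2 ^ n * F1 w T Y x (Y ω) / mass w Y (Y ω)) := by
  classical
  unfold KK
  rw [Fintype.sum_prod_type]
  refine sum_congr rfl fun ω _ => ?_
  rw [← sum_sib_coord (T ω) (0 : Fin 1)
    (fun x => Real.log (2 ^ n * F1 w T Y x (Y ω) / mass w Y (Y ω))), mul_sum]
  refine sum_congr rfl fun x _ => ?_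
  rw [mass_sib, mass_sib_fst, FF_one]
  have hc : (Fintype.card (Fin 1 → V n) : ℝ) = 2 ^ n := by
    simp [ZMod.card]
  rw [hc]
  unfold sib
  ring

/-- the entropy of `m` siblings -/
theorem KK_many (w : Ω → ℝ) (T : Ω → Submodule (ZMod 2) (V n)) (Y : Ω → B) (m : ℕ) :
    KK (sib w T m) (fun p => p.2) (fun p => Y p.1)
      = ∑ ω, w ω * ∑ x : Fin m → V n, (∏ i, uT (T ω) (x i))
          * Real.log ((2 ^ n) ^ m * FF w T Y m x (Y ω) / mass w Y (Y ω)) := by
  classical
  unfold KK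
  rw [Fintype.sum_prod_type]
  refine sum_congr rfl fun ω _ => ?_
  rw [mul_sum]
  refine sum_congr rfl fun x _ => ?_
  rw [mass_sib, mass_sib_fst]
  have hc : (Fintype.card (Fin m → V n) : ℝ) = (2 ^ n) ^ m := by
    simp [ZMod.card]
  rw [hc]
  unfold sib
  ring

variable (w : Ω → ℝ) (T : Ω → Submodule (ZMod 2) (V n)) (Y : Ω → B)

/-- density of one sibling given `Y` -/
noncomputable def ff (x : V n) (y : B) : ℝ := F1 w T Y x y / mass w Y y

theorem F1_nonneg (hw : ∀ ω, 0 ≤ w ω) (x : V n) (y : B) : 0 ≤ F1 w T Y x y := by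
  unfold F1
  refine sum_nonneg fun ω _ => ?_
  split_ifs
  · exact mul_nonneg (hw ω) (uT_nonneg _ _)
  · exact le_rfl

theorem ff_nonneg (hw : ∀ ω, 0 ≤ w ω) (x : V n) (y : B) : 0 ≤ ff w T Y x y :=
  div_nonneg (F1_nonneg w T Y hw x y) (mass_nonneg w hw Y y)

theorem F1_pos (hw : ∀ ω, 0 ≤ w ω) (ω : Ω) (h : w ω ≠ 0) (x : V n) (hx : x ∈ T ω) :
    0 < F1 w T Y x (Y ω) := by
  unfold F1
  refine sum_pos' (fun ω' _ => ?_) ⟨ω, mem_univ _, ?_⟩
  · split_ifs
    · exact mul_nonneg (hw ω') (uT_nonneg _ _)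
    · exact le_rfl
  · rw [if_pos rfl]
    exact mul_pos (lt_of_le_of_ne (hw ω) (Ne.symm h)) (uT_pos _ _ hx)

theorem FF_pos (hw : ∀ ω, 0 ≤ w ω) (ω : Ω) (h : w ω ≠ 0) (m : ℕ) (x : Fin m → V n)
    (hx : ∀ i, x i ∈ T ω) : 0 < FF w T Y m x (Y ω) := by
  unfold FF
  refine sum_pos' (fun ω' _ => ?_) ⟨ω, mem_univ _, ?_⟩
  · split_ifs
    · exact mul_nonneg (hw ω') (prod_nonneg fun i _ => uT_nonneg _ _)
    · exact le_rfl
  · rw [if_pos rfl]
    exact mul_pos (lt_of_le_of_ne (hw ω) (Ne.symm h)) (prod_pos fun i _ => uT_pos _ _ (hx i))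

theorem ff_pos (hw : ∀ ω, 0 ≤ w ω) (ω : Ω) (h : w ω ≠ 0) (x : V n) (hx : x ∈ T ω) :
    0 < ff w T Y x (Y ω) :=
  div_pos (F1_pos w T Y hw ω h x hx) (mass_pos w hw Y ω h)

theorem sum_ff_le (y : B) : ∑ x, ff w T Y x y ≤ 1 := by
  classical
  unfold ff
  rw [← sum_div]
  have h2 : ∑ x, F1 w T Y x y = mass w Y y := by
    unfold F1 mass
    rw [sum_comm]
    refine sum_congr rfl fun ω _ => ?_
    by_cases h : Y ω = y
    · simp only [h, if_true]
      rw [← mul_sum, sum_uT, mul_one]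
    · simp [h]
  rw [h2]
  exact div_self_le_one _

/-- the entropy of `m` siblings is at least `m` times the entropy of one -/
theorem sib_super (hw : ∀ ω, 0 ≤ w ω) (m : ℕ) :
    m * KK (sib w T 1) (fun p => p.2) (fun p => Y p.1)
      ≤ KK (sib w T m) (fun p => p.2) (fun p => Y p.1) := by
  classical
  set ψ : (Fin m → V n) → B → ℝ := fun x y => ∏ i, ff w T Y (x i) y with hψ
  have hg := gibbs (sib w T m)
    (fun p => mul_nonneg (hw p.1) (prod_nonneg fun i _ => uT_nonneg _ _))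
    (fun p => p.2) (fun p => Y p.1) ψ
    (fun x y => prod_nonneg fun i _ => ff_nonneg w T Y hw _ _)
    (by
      intro y
      rw [hψ]
      simp only
      rw [sum_prod_fun (fun _ x => ff w T Y x y)]
      exact prod_le_one (fun _ _ => sum_nonneg fun x _ => ff_nonneg w T Y hw x y)
        (fun _ _ => sum_ff_le w T Y y))
    (by
      rintro ⟨ω, x⟩ hp
      have hw0 : w ω ≠ 0 := fun h => hp (by simp [sib, h])
      have hx : ∀ i, x i ∈ T ω := by
        intro i
        by_contra hi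
        exact hp (by
          have : ∏ i, uT (T ω) (x i) = 0 := prod_eq_zero (mem_univ i) (uT_eq_zero _ _ hi)
          simp [sib, this])
      exact prod_pos fun i _ => ff_pos w T Y hw ω hw0 _ (hx i))
  have key : m * KK (sib w T 1) (fun p => p.2) (fun p => Y p.1)
        - KK (sib w T m) (fun p => p.2) (fun p => Y p.1)
      = ∑ p, sib w T m p * Real.log (ψ p.2 (Y p.1) * mass (sib w T m) (fun p => Y p.1) (Y p.1)
          / mass (sib w T m) (fun p => (p.2, Y p.1)) (p.2, Y p.1)) := by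
    rw [KK_one, KK_many, mul_sum, Fintype.sum_prod_type, ← sum_sub_distrib]
    refine sum_congr rfl fun ω _ => ?_
    by_cases hω : w ω = 0
    · simp [hω, sib]
    set g : V n → ℝ := fun x => Real.log (2 ^ n * F1 w T Y x (Y ω) / mass w Y (Y ω)) with hgdef
    have e2 : (m : ℝ) * ∑ x, uT (T ω) x * g x
        = ∑ x : Fin m → V n, (∏ i, uT (T ω) (x i)) * ∑ j, g (x j) := by
      simp_rw [mul_sum]
      rw [sum_comm]
      simp_rw [sum_sib_coord (T ω) _ g]
      rw [sum_const, card_univ, Fintype.card_fin, nsmul_eq_mul, mul_sum]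
    have e4 : (m : ℝ) * (w ω * ∑ x, uT (T ω) x * g x)
        - w ω * ∑ x : Fin m → V n, (∏ i, uT (T ω) (x i))
          * Real.log ((2 ^ n) ^ m * FF w T Y m x (Y ω) / mass w Y (Y ω))
        = w ω * ∑ x : Fin m → V n, (∏ i, uT (T ω) (x i)) * (∑ j, g (x j)
          - Real.log ((2 ^ n) ^ m * FF w T Y m x (Y ω) / mass w Y (Y ω))) := by
      have : (m : ℝ) * (w ω * ∑ x, uT (T ω) x * g x)
          = w ω * ((m : ℝ) * ∑ x, uT (T ω) x * g x) := by ring
      rw [this, e2, ← mul_sub, ← sum_sub_distrib]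
      congr 1
      exact sum_congr rfl fun x _ => by ring
    rw [e4, mul_sum]
    refine sum_congr rfl fun x _ => ?_
    rw [mass_sib, mass_sib_fst]
    by_cases hx : ∀ i, x i ∈ T ω
    · have hμ : 0 < mass w Y (Y ω) := mass_pos w hw Y ω hω
      have hF : 0 < FF w T Y m x (Y ω) := FF_pos w T Y hw ω hω m x hx
      have hf : ∀ x ∈ T ω, 0 < ff w T Y x (Y ω) := fun x hx => ff_pos w T Y hw ω hω x hx
      have h2n : (0 : ℝ) < 2 ^ n := by positivity
      have hgx : ∀ x ∈ T ω, g x = Real.log (2 ^ n) + Real.log (ff w T Y x (Y ω)) := by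
        intro x hx
        have hq : 2 ^ n * F1 w T Y x (Y ω) / mass w Y (Y ω) = 2 ^ n * ff w T Y x (Y ω) :=
          mul_div_assoc _ _ _
        rw [← Real.log_mul (ne_of_gt h2n) (ne_of_gt (hf x hx)), ← hq]
      have hpow : Real.log (((2 : ℝ) ^ n) ^ m) = m * Real.log (2 ^ n) := Real.log_pow _ _
      have hprod : 0 < ∏ i, ff w T Y (x i) (Y ω) := prod_pos fun i _ => hf _ (hx i)
      rw [sum_congr rfl fun j _ => hgx (x j) (hx j), sum_add_distrib, sum_const,
        card_univ, Fintype.card_fin, nsmul_eq_mul,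
        Real.log_div (ne_of_gt (mul_pos (pow_pos h2n m) hF)) (ne_of_gt hμ),
        Real.log_mul (ne_of_gt (pow_pos h2n m)) (ne_of_gt hF), hpow, hψ]
      simp only
      rw [Real.log_div (ne_of_gt (mul_pos hprod hμ)) (ne_of_gt hF),
        Real.log_mul (ne_of_gt hprod) (ne_of_gt hμ),
        Real.log_prod (fun i _ => ne_of_gt (hf _ (hx i)))]
      unfold sib
      simp only
      ring
    · push Not at hx
      obtain ⟨i, hi⟩ := hx
      have h0 : ∏ i, uT (T ω) (x i) = 0 := prod_eq_zero (mem_univ i) (uT_eq_zero _ _ hi)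
      unfold sib
      simp only
      rw [h0]
      ring
  linarith

end Dens

end Sm

variable {B L : ℕ}

variable {O : ℕ → ℕ → Set (Wd B L)} {top : ℕ → ℕ} {S I : ℕ} {D q : ℝ}

/-- the correlation terms are nonnegative -/
theorem tcor_nonneg (h : Old O top S I D q) (hB : 0 < B) (hIL : I * S ≤ L) (k X : ℕ) (b : ℝ)
    (m i n : ℕ) (hi : i ≤ I) : 0 ≤ tcor O top S k X b m i n := by
  have hl : i * S ≤ L := (Nat.mul_le_mul_right S hi).trans hIL
  have h1 := KK_row_eq_sib n (i * S) hl (newEv O top S k X b i n) (newEv_lev h k X b i n hi)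
  have h2 := Sm.sib_super (ind (newEv O top S k X b i n) (uw B L))
    (fun ω => TT (ext ω) (i * S) n) (fun ω => mm (ext ω) (i * S) n)
    (Evt.ind_nonneg _ _ Evt.uw_nonneg) m
  have h3 : KK (sib (ind (newEv O top S k X b i n) (uw B L)) (fun ω => TT (ext ω) (i * S) n) 1)
      (fun p => p.2) (fun p => mm (ext p.1) (i * S) n)
      = KK (ind (newEv O top S k X b i n) (uw B L)) (fun ω => arr (ext ω) (i * S) n)
      (fun ω => mm (ext ω) (i * S) n) := h1
  rw [h3] at h2
  unfold tcor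
  linarith

namespace Sm

theorem pr_add_compl {Ω : Type*} [Fintype Ω] (w : Ω → ℝ) (G : Set Ω) :
    pr w G + pr w Gᶜ = tot w := by
  unfold pr tot ind
  rw [← sum_add_distrib]
  refine sum_congr rfl fun ω _ => ?_
  by_cases h : ω ∈ G
  · rw [Set.indicator_of_mem h, Set.indicator_of_notMem (Set.notMem_compl_iff.2 h), add_zero]
  · rw [Set.indicator_of_notMem h, Set.indicator_of_mem h, zero_add]

theorem one_sub_mas (h : Old O top S I D q) (hB : 0 < B) (k X : ℕ) (b q' : ℝ)
    (hq' : pr (uw B L) {ω | ∃ i ≤ I, ω ∉ newEv O top S k X b i (top i)} ≤ q')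
    (i n : ℕ) (hi : i ≤ I) : 1 - q' ≤ mas O top S k X b i n := by
  have h1 : newEv O top S k X b i (top i) ⊆ newEv O top S k X b i n := by
    rcases le_total n (top i) with hn | hn
    · exact newEv_anti h k X b i n (top i) hn
    · rw [newEv_const h k X b i n hn]
  have h2 : pr (uw B L) (newEv O top S k X b i (top i)) ≤ mas O top S k X b i n :=
    Evt.pr_mono _ Evt.uw_nonneg h1
  have h3 := pr_add_compl (uw B L) (newEv O top S k X b i (top i))
  have h4 : pr (uw B L) (newEv O top S k X b i (top i))ᶜ ≤ q' :=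
    le_trans (Evt.pr_mono (uw B L) Evt.uw_nonneg
      (G' := {ω | ∃ i ≤ I, ω ∉ newEv O top S k X b i (top i)}) (fun ω hω => ⟨i, hi, hω⟩)) hq'
  rw [tot_uw hB] at h3
  linarith

theorem mas_nonneg (k X : ℕ) (b : ℝ) (i n : ℕ) : 0 ≤ mas O top S k X b i n :=
  Evt.pr_nonneg _ _ Evt.uw_nonneg

theorem mas_le_one (hB : 0 < B) (k X : ℕ) (b : ℝ) (i n : ℕ) : mas O top S k X b i n ≤ 1 := by
  have := Evt.tot_ind_le (newEv O top S k X b i n) (uw B L) Evt.uw_nonneg
  rw [tot_uw hB] at this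
  exact this

theorem mas_anti (h : Old O top S I D q) (k X : ℕ) (b : ℝ) (i n n' : ℕ) (hn : n ≤ n') :
    mas O top S k X b i n' ≤ mas O top S k X b i n :=
  Evt.pr_mono _ Evt.uw_nonneg (newEv_anti h k X b i n n' hn)

end Sm

/-- sum of the correlation terms at one time; `q'` is the total loss of the new events -/
theorem sum_tcor (h : Old O top S I D q) (hB : 0 < B) (hIL : I * S ≤ L) (k X m N Y Lg J M : ℕ)
    (b q' : ℝ) (hq' : pr (uw B L) {ω | ∃ i ≤ I, ω ∉ newEv O top S k X b i (top i)} ≤ q')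
    (hY : 0 < Y) (i : ℕ) (hi : i ≤ I) (htop : top i ≤ N) (hM : M + J + (Y + Lg) ≤ top i) :
    ∑ n ∈ range M, tcor O top S k X b m i n
      ≤ (m : ℝ) * (m + 1) / 2 * ((D + 1) / Y + (1 / 2) ^ Lg * N + 2 * q' * (N * Real.log 2))
        + (N : ℝ) ^ 2 * m * Real.log 2 * (2 ^ m * (2 / 3) ^ J) := by
  classical
  have hl : i * S ≤ L := (Nat.mul_le_mul_right S hi).trans hIL
  have hlog : 0 ≤ Real.log 2 := Real.log_nonneg (by norm_num)
  have hq0 : 0 ≤ q' := le_trans (Evt.pr_nonneg _ _ Evt.uw_nonneg) hq'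
  set w : ℕ → Wd B L → ℝ := fun n => ind (newEv O top S k X b i n) (uw B L) with hw
  set T : (n : ℕ) → Wd B L → Submodule (ZMod 2) (V n) := fun n ω => TT (ext ω) (i * S) n with hT
  have hw0 : ∀ n ω, 0 ≤ w n ω := fun n ω => Evt.ind_nonneg _ _ Evt.uw_nonneg ω
  have hE : ∀ n, KK (sib (w n) (T n) 1) (fun p => p.2) (fun p => pre (arr (ext p.1) (i * S)) n)
      = KK (w n) (fun ω => arr (ext ω) (i * S) n) (fun ω => pre (arr (ext ω) (i * S)) n) :=
    fun n => KK_row_eq_sib n (i * S) hl (newEv O top S k X b i n) (newEv_lev h k X b i n hi)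
  have hD : 0 ≤ D := by
    have h1 := h.ent i 0 hi (Nat.zero_le _)
    have h2 : 0 ≤ K0 (ind (O i 0) (uw B L)) (fun ω => mm (ext ω) (i * S) 0) :=
      KK_nonneg _ (Evt.ind_nonneg _ _ Evt.uw_nonneg) _ _
    linarith
  have hEmax : ∀ n, 0 ≤ n → n < M + J →
      KK (w n) (fun ω => arr (ext ω) (i * S) n) (fun ω => pre (arr (ext ω) (i * S)) n)
        ≤ (D + 1) / Y + (1 / 2) ^ Lg * N + q' * (N * Real.log 2) := by
    intro n _ hn
    rw [← hE n]
    have hnt : n + (Y + Lg) ≤ top i := by omega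
    have hntop : n ≤ top i := by omega
    have hnN : (n : ℝ) ≤ N := by exact_mod_cast hntop.trans htop
    have h1 := sib_small h hB hIL (newEv O top S k X b i (top i)) i n Y Lg hi
      (newEv_old k X b i (top i)) hY hnt
    have hsub : newEv O top S k X b i (top i) ⊆ newEv O top S k X b i n :=
      newEv_anti h k X b i n (top i) hntop
    set w1 : Wd B L → ℝ := ind (newEv O top S k X b i (top i)) (uw B L) with hw1
    set w2 : Wd B L → ℝ := fun ω => w n ω - w1 ω with hw2
    have hw1n : ∀ ω, 0 ≤ w1 ω := Evt.ind_nonneg _ _ Evt.uw_nonneg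
    have hw2n : ∀ ω, 0 ≤ w2 ω := fun ω => sub_nonneg.2 (Evt.ind_mono hsub _ Evt.uw_nonneg ω)
    have hsplit : sib (w n) (T n) 1 = sib w1 (T n) 1 + sib w2 (T n) 1 := by
      funext p
      simp only [sib, Pi.add_apply, hw2]
      ring
    have hs1 : ∀ p, 0 ≤ sib w1 (T n) 1 p := fun p =>
      mul_nonneg (hw1n _) (prod_nonneg fun _ _ => Sm.uT_nonneg _ _)
    have hs2 : ∀ p, 0 ≤ sib w2 (T n) 1 p := fun p =>
      mul_nonneg (hw2n _) (prod_nonneg fun _ _ => Sm.uT_nonneg _ _)
    rw [hsplit]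
    have h2 := KK_add_le (sib w1 (T n) 1) (sib w2 (T n) 1) hs1 hs2 (fun p => p.2)
      (fun p => pre (arr (ext p.1) (i * S)) n)
    have h3 := KK_le (sib w2 (T n) 1) hs2 (fun p => p.2)
      (fun p => pre (arr (ext p.1) (i * S)) n)
    have h4 : tot (sib w2 (T n) 1) = tot w2 := by
      unfold tot sib
      rw [Fintype.sum_prod_type]
      refine sum_congr rfl fun ω _ => ?_
      simp only
      rw [← mul_sum, Sm.sum_sib_one, mul_one]
    have h5 : tot w2 ≤ q' := by
      have e1 : tot w2 = mas O top S k X b i n - mas O top S k X b i (top i) := by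
        unfold mas pr tot
        rw [← sum_sub_distrib]
      have e2 := Sm.one_sub_mas h hB k X b q' hq' i (top i) hi
      have e3 := Sm.mas_le_one (O := O) (top := top) (S := S) hB k X b i n
      rw [e1]
      linarith
    have h6 : Real.log (Fintype.card (Fin 1 → V n)) = n * Real.log 2 := by
      have : (Fintype.card (Fin 1 → V n) : ℝ) = 2 ^ n := by simp [ZMod.card]
      rw [this, Real.log_pow]
    rw [h4, h6] at h3
    have h7 : tot w2 * (n * Real.log 2) ≤ q' * (N * Real.log 2) := by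
      refine mul_le_mul h5 (mul_le_mul_of_nonneg_right hnN hlog) (by positivity) hq0
    have h8 : ((1 : ℝ) / 2) ^ Lg * n ≤ (1 / 2) ^ Lg * N :=
      mul_le_mul_of_nonneg_left hnN (by positivity)
    have h9 : KK (sib w1 (T n) 1) (fun p => p.2) (fun p => pre (arr (ext p.1) (i * S)) n)
        ≤ (D + 1) / Y + (1 / 2) ^ Lg * n := h1
    linarith
  have hS3 := sib_sum w hw0
    (fun n ω => Evt.ind_mono (newEv_anti h k X b i n (n + 1) (Nat.le_succ n)) _ Evt.uw_nonneg ω)
    (by
      have := Sm.mas_le_one (O := O) (top := top) (S := S) hB k X b i 0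
      exact this)
    T (fun ω => arr (ext ω) (i * S))
    (fun n j ω _ => row_mem_TT (ext ω) (i * S) n (n + j) (Nat.le_add_right n j)) hE 0 M m J N
    (Nat.zero_le _) (by omega) ((D + 1) / Y + (1 / 2) ^ Lg * N + q' * (N * Real.log 2))
    (by positivity) hEmax
  have hsum : ∑ n ∈ range M, tcor O top S k X b m i n
      = ∑ n ∈ Ico 0 M, (KK (sib (w n) (T n) m) (fun p => p.2)
          (fun p => pre (arr (ext p.1) (i * S)) n)
        - m * KK (w n) (fun ω => arr (ext ω) (i * S) n) (fun ω => pre (arr (ext ω) (i * S)) n)) := by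
    rw [range_eq_Ico]
    rfl
  rw [hsum]
  refine hS3.trans ?_
  have h10 : tot (w 0) - tot (w (M + J)) ≤ q' := by
    have e2 := Sm.one_sub_mas h hB k X b q' hq' i (M + J) hi
    have e3 := Sm.mas_le_one (O := O) (top := top) (S := S) hB k X b i 0
    have e4 : tot (w 0) = mas O top S k X b i 0 := rfl
    have e5 : tot (w (M + J)) = mas O top S k X b i (M + J) := rfl
    rw [e4, e5]
    linarith
  have h11 : (tot (w 0) - tot (w (M + J))) * (N * Real.log 2) ≤ q' * (N * Real.log 2) :=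
    mul_le_mul_of_nonneg_right h10 (by positivity)
  have h12 : (0 : ℝ) ≤ (m : ℝ) * (m + 1) / 2 := by positivity
  have h13 := mul_le_mul_of_nonneg_left (show
    ((D + 1) / Y + (1 / 2) ^ Lg * N + q' * (N * Real.log 2))
      + (tot (w 0) - tot (w (M + J))) * (N * Real.log 2)
      ≤ (D + 1) / Y + (1 / 2) ^ Lg * N + 2 * q' * (N * Real.log 2) by linarith) h12
  linarith

/-- sum of the level losses at one time -/
theorem sum_level (h : Old O top S I D q) (hB : 0 < B) (hIL : I * S ≤ L) (k X N M : ℕ)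
    (b q' : ℝ) (hq' : pr (uw B L) {ω | ∃ i ≤ I, ω ∉ newEv O top S k X b i (top i)} ≤ q')
    (hN : 2 ≤ N) (i : ℕ) (hi : i ≤ I) (hM : M ≤ N) :
    ∑ n ∈ range M, HH (mas O top S k X b i (n + 1))
        (mas O top S k X b i n - mas O top S k X b i (n + 1))
      ≤ q' * (1 + 2 * Real.log N) + 2 := by
  have hN2 : (2 : ℝ) ≤ N := by exact_mod_cast hN
  have hlog : 0 ≤ Real.log N := Real.log_nonneg (by linarith)
  have h1 : ∀ n ∈ range M, HH (mas O top S k X b i (n + 1))
        (mas O top S k X b i n - mas O top S k X b i (n + 1))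
      ≤ (mas O top S k X b i n - mas O top S k X b i (n + 1)) * (1 + 2 * Real.log N) + 2 / N := by
    intro n _
    refine HH_le _ _ N (Sm.mas_nonneg k X b i (n + 1))
      (sub_nonneg.2 (Sm.mas_anti h k X b i n (n + 1) (Nat.le_succ n))) ?_ hN2
    have := Sm.mas_le_one (O := O) (top := top) (S := S) hB k X b i n
    linarith
  refine (sum_le_sum h1).trans ?_
  rw [sum_add_distrib, ← sum_mul, sum_range_sub', sum_const, card_range, nsmul_eq_mul]
  have h2 : mas O top S k X b i 0 - mas O top S k X b i M ≤ q' := by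
    have e2 := Sm.one_sub_mas h hB k X b q' hq' i M hi
    have e3 := Sm.mas_le_one (O := O) (top := top) (S := S) hB k X b i 0
    linarith
  have h3 : (M : ℝ) * (2 / N) ≤ 2 := by
    have hMN : (M : ℝ) ≤ N := by exact_mod_cast hM
    rw [← mul_div_assoc, div_le_iff₀ (by linarith)]
    linarith
  have h4 := mul_le_mul_of_nonneg_right h2 (show (0 : ℝ) ≤ 1 + 2 * Real.log N by linarith)
  linarith

/-- time losses -/
theorem time_loss (h : Old O top S I D q) (hB : 0 < B) (hIL : I * S ≤ L) (k X N : ℕ)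
    (b q' : ℝ) (hq' : pr (uw B L) {ω | ∃ i ≤ I, ω ∉ newEv O top S k X b i (top i)} ≤ q')
    (hN : 2 ≤ N) (i n : ℕ) (hi : i + 1 ≤ I) (hn : n ≤ top (i + 1)) :
    HH (mas O top S k X b (i + 1) n) (mas O top S k X b i n - mas O top S k X b (i + 1) n)
      ≤ q' * (1 + 2 * Real.log N) + 2 / N := by
  have hN2 : (2 : ℝ) ≤ N := by exact_mod_cast hN
  have hlog : 0 ≤ Real.log N := Real.log_nonneg (by linarith)
  have h0 : mas O top S k X b (i + 1) n ≤ mas O top S k X b i n :=
    Evt.pr_mono _ Evt.uw_nonneg (newEv_time k X b i n)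
  have h1 := HH_le (mas O top S k X b (i + 1) n)
    (mas O top S k X b i n - mas O top S k X b (i + 1) n) N (Sm.mas_nonneg k X b (i + 1) n)
    (sub_nonneg.2 h0) (by
      have := Sm.mas_le_one (O := O) (top := top) (S := S) hB k X b i n
      linarith) hN2
  have h2 : mas O top S k X b i n - mas O top S k X b (i + 1) n ≤ q' := by
    have e2 := Sm.one_sub_mas h hB k X b q' hq' (i + 1) n hi
    have e3 := Sm.mas_le_one (O := O) (top := top) (S := S) hB k X b i n
    linarith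
  have h4 := mul_le_mul_of_nonneg_right h2 (show (0 : ℝ) ≤ 1 + 2 * Real.log N by linarith)
  linarith

end Pool.Agent.CutSeq
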