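import Pool.Agent.CutSeq.Fam
import Pool.Agent.CutSeq.Sch
import Pool.Agent.CutSeq.Sums
import Pool.Agent.CutSeq.Cmp

/-! Row STAGE, assembly: from the numerical hypotheses to the new family. -/

set_option autoImplicit false
set_option linter.unusedVariables false

namespace Pool.Agent.CutSeq

open Finset

/-- the bound for the sum over the levels of the errors at one grid time -/
noncomputable def errSum (Nm k m g ℓ Y Lg J : ℕ) (D q' pF : ℝ) : ℝ :=
  (q' * (1 + 2 * Real.log Nm) + 2)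
    + ((m : ℝ) * (m + 1) / 2 * ((D + 1) / Y + (1 / 2) ^ Lg * Nm + 2 * q' * (Nm * Real.log 2))
        + (Nm : ℝ) ^ 2 * m * Real.log 2 * (2 ^ m * (2 / 3) ^ J))
    + Nm * ((1 / 2) ^ Nm + 1 / ((ℓ : ℝ) - 2 * (2 * k + 1) - 4 * g) *
        ((q' * (1 + 2 * Real.log Nm) + 2 / Nm)
          + (ℓ : ℝ) * Nm * (2 * (1 / 2) ^ (4 * g)
                + 2 ^ (2 * (2 * k + 1)) * (1 / 2) ^ (4 * k + 2 + 4 * g)
                + 2 ^ (k + (4 * k + 2 + 4 * g) + 1) * pF) + 2 * (1 / 2) ^ (4 * g)))

lemma card_Un_zero : Fintype.card (Un 0) = 1 := by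
  have : Unique (Un 0) := Pi.uniqueOfIsEmpty _
  exact Fintype.card_unique

/-- the assembly of a stage -/
theorem stage_core {B L : ℕ} (hB : 0 < B) {Λ : ℕ → ℝ} (hΛ0 : 0 < Λ 0) {u : ℝ} (hu : 0 < u)
    (hΛ : ∀ n, Λ n + B / u ≤ Λ (n + 1)) {r : ℝ} (hr : 0 ≤ r) {y Nm : ℕ} {D q : ℝ} (hD : 0 ≤ D)
    {G : ℕ → ℕ → Set (Wd B L)} (hG : Fam B L Λ r y Nm D q G)
    (S I k m g ℓ Y Lg J X X2 : ℕ) (b pF μ q' D' C3 : ℝ) (hS : 0 < S) (hIL : I * S ≤ L)
    (hLI : L < (I + 1) * S) (hk : 0 < k) (hm : 1 ≤ m) (hN2 : 2 ≤ Nm) (hkm : 2 * Nm ≤ k * m)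
    (hg : Nm ≤ 2 ^ g) (hg1 : 1 ≤ g) (hb : b = (1 / 2) ^ (4 * g)) (hNB : Nm ≤ B) (hpF : 0 ≤ pF)
    (hF : ∀ z : V (B + 1), z ≠ 0 → tp z ≤ Nm →
      pr (uw B S) {ω | tp (act (mm (ext ω) S (B + 1)) z) < tp z + ℓ} ≤ pF)
    (hℓ : 2 * (2 * k + 1) + 4 * g < ℓ) (hY : 0 < Y) (hX : Y + Lg ≤ X)
    (hX2 : (4 * k + 2 + 4 * g) + 2 + 8 * g + k + X ≤ X2) (hX3 : 1 + J + (Y + Lg) ≤ X2)
    (hq' : q + I * (Nm / k + 1) * (8 / k * ((D + 1) / Y + (1 / 2) ^ Lg * Nm) + b) ≤ q')
    (hμ : 0 ≤ μ) (hpμ : 1 / ((ℓ : ℝ) - 2 * (2 * k + 1) - 4 * g) * (Real.exp μ - 1)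
      ≤ B / (u * S) * μ) (hC3 : 0 ≤ C3)
    (hD' : (D + 1) * Real.exp (-(μ * (C3 - 2))) + (I + 1) * errSum Nm k m g ℓ Y Lg J D q' pF ≤ D') :
    Fam B L Λ (r + C3 * S + S) (y + X2) Nm D' q'
      (fun n l => newEv (gridEv Λ r y Nm G S) (fun i => rtop Λ r y Nm (i * S)) S k X b (l / S) n) := by
  classical
  have hBu : 0 < (B : ℝ) / u := by
    have : (0 : ℝ) < B := by exact_mod_cast hB
    positivity
  have hmono : Monotone Λ := monotone_nat_of_le_succ fun n => by
    have := hΛ n
    linarith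
  have hS0 : (0 : ℝ) < S := by exact_mod_cast hS
  have hb0 : 0 ≤ b := by rw [hb]; positivity
  set top : ℕ → ℕ := fun i => rtop Λ r y Nm (i * S) with htopdef
  set O : ℕ → ℕ → Set (Wd B L) := gridEv Λ r y Nm G S with hO
  have hold : Old O top S I D q := hG.old hmono hB hD hIL
  have htopN : ∀ i, top i ≤ Nm := fun i => Nat.findGreatest_le Nm
  -- the lost probability
  have hloss : pr (uw B L) {ω | ∃ i ≤ I, ω ∉ newEv O top S k X b i (top i)} ≤ q' :=
    (newEv_loss hold hB hIL k X Y Lg Nm b hb0 hk hY hX (fun i _ => htopN i)).trans hq'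
  have hq'0 : 0 ≤ q' := (Evt.pr_nonneg _ _ Evt.uw_nonneg).trans hloss
  -- the constant `P`
  have hP1 : (1 : ℝ) ≤ (ℓ : ℝ) - 2 * (2 * k + 1) - 4 * g := by
    have : 2 * (2 * k + 1) + 4 * g + 1 ≤ ℓ := hℓ
    have h2 : ((2 * (2 * k + 1) + 4 * g + 1 : ℕ) : ℝ) ≤ ℓ := by exact_mod_cast this
    push_cast at h2
    linarith
  set P : ℝ := (ℓ : ℝ) - 2 * (2 * k + 1) - 4 * g with hP
  have hP0 : 0 < P := by linarith
  -- errors
  set Er0 : ℝ := (ℓ : ℝ) * Nm * (2 * (1 / 2) ^ (4 * g)
                + 2 ^ (2 * (2 * k + 1)) * (1 / 2) ^ (4 * k + 2 + 4 * g)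
                + 2 ^ (k + (4 * k + 2 + 4 * g) + 1) * pF) with hEr0
  have hEr00 : 0 ≤ Er0 := by positivity
  set HT : ℕ → ℕ → ℝ := fun i n => HH (mas O top S k X b i n)
    (mas O top S k X b (i - 1) n - mas O top S k X b i n) with hHT
  set HL : ℕ → ℕ → ℝ := fun i n => HH (mas O top S k X b i (n + 1))
    (mas O top S k X b i n - mas O top S k X b i (n + 1)) with hHL
  set e : ℕ → ℕ → ℝ := fun i n => if i ≤ I ∧ 1 ≤ i ∧ n + X2 ≤ top i then
    HL i n + tcor O top S k X b m i n + ((1 / 2) ^ Nm + 1 / P * (HT i n + Er0 + 2 * (1 / 2) ^ (4 * g)))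
    else 0 with he
  have hmas0 : ∀ i n, 0 ≤ mas O top S k X b i n := fun i n => Evt.pr_nonneg _ _ Evt.uw_nonneg
  have hHL0 : ∀ i n, 0 ≤ HL i n := by
    intro i n
    refine HH_nonneg _ _ (hmas0 _ _) (sub_nonneg.2 ?_)
    exact Evt.pr_mono _ Evt.uw_nonneg (newEv_anti hold k X b i n (n + 1) (Nat.le_succ n))
  have hHT0 : ∀ i n, 1 ≤ i → 0 ≤ HT i n := by
    intro i n hi
    refine HH_nonneg _ _ (hmas0 _ _) (sub_nonneg.2 ?_)
    obtain ⟨i', rfl⟩ : ∃ i', i = i' + 1 := ⟨i - 1, by omega⟩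
    exact Evt.pr_mono _ Evt.uw_nonneg (newEv_time k X b i' n)
  have he0 : ∀ i n, 0 ≤ e i n := by
    intro i n
    simp only [he]
    split
    · rename_i hc
      have h1 := hHL0 i n
      have h2 := tcor_nonneg hold hB hIL k X b m i n hc.1
      have h3 := hHT0 i n hc.2.1
      positivity
    · exact le_rfl
  -- sum of the errors at one time
  have hsum : ∀ i n, ∑ n' ∈ range n, e i n' ≤ errSum Nm k m g ℓ Y Lg J D q' pF := by
    intro i n
    have hES0 : 0 ≤ errSum Nm k m g ℓ Y Lg J D q' pF := by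
      have hlog : 0 ≤ Real.log Nm := Real.log_natCast_nonneg Nm
      have hlog2 : 0 ≤ Real.log 2 := Real.log_nonneg (by norm_num)
      unfold errSum
      rw [← hP, ← hEr0]
      positivity
    by_cases hi : i ≤ I ∧ 1 ≤ i ∧ X2 ≤ top i
    · obtain ⟨hiI, hi1, hXt⟩ := hi
      obtain ⟨M, hM⟩ : ∃ M, M = top i + 1 - X2 := ⟨_, rfl⟩
      have hMtop : M + J + (Y + Lg) ≤ top i := by omega
      have hMN : M ≤ Nm := by
        have := htopN i
        omega
      have h1 : ∑ n' ∈ range n, e i n' ≤ ∑ n' ∈ range M, (HL i n' + tcor O top S k X b m i n' +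
          ((1 / 2) ^ Nm + 1 / P * (HT i n' + Er0 + 2 * (1 / 2) ^ (4 * g)))) := by
        have h2 : ∑ n' ∈ range n, e i n' = ∑ n' ∈ (range n).filter (fun n' => n' < M), e i n' := by
          rw [Finset.sum_filter]
          refine Finset.sum_congr rfl fun n' _ => ?_
          by_cases hn' : n' < M
          · rw [if_pos hn']
          · rw [if_neg hn']
            simp only [he]
            rw [if_neg]
            rintro ⟨_, _, h3⟩
            omega
        rw [h2]
        refine (Finset.sum_le_sum_of_subset_of_nonneg (t := range M) ?_ fun n' _ _ => he0 i n').trans ?_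
        · intro n' hn'
          rw [Finset.mem_filter] at hn'
          exact Finset.mem_range.2 hn'.2
        · refine Finset.sum_le_sum fun n' hn' => ?_
          rw [Finset.mem_range] at hn'
          simp only [he]
          rw [if_pos ⟨hiI, hi1, by omega⟩]
      refine h1.trans ?_
      rw [Finset.sum_add_distrib, Finset.sum_add_distrib]
      have h3 : ∑ n' ∈ range M, HL i n' ≤ q' * (1 + 2 * Real.log Nm) + 2 :=
        sum_level hold hB hIL k X Nm M b q' hloss hN2 i hiI hMN
      have h4 := sum_tcor hold hB hIL k X m Nm Y Lg J M b q' hloss hY i hiI (htopN i) hMtop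
      have h5 : ∑ n' ∈ range M, ((1 / 2 : ℝ) ^ Nm + 1 / P * (HT i n' + Er0 + 2 * (1 / 2) ^ (4 * g))) ≤
          Nm * ((1 / 2) ^ Nm + 1 / P * ((q' * (1 + 2 * Real.log Nm) + 2 / Nm) + Er0 +
            2 * (1 / 2) ^ (4 * g))) := by
        have h6 : ∀ n' ∈ range M, ((1 / 2 : ℝ) ^ Nm + 1 / P * (HT i n' + Er0 + 2 * (1 / 2) ^ (4 * g))) ≤
            (1 / 2) ^ Nm + 1 / P * ((q' * (1 + 2 * Real.log Nm) + 2 / Nm) + Er0 +
            2 * (1 / 2) ^ (4 * g)) := by
          intro n' hn'
          rw [Finset.mem_range] at hn'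
          obtain ⟨i', rfl⟩ : ∃ i', i = i' + 1 := ⟨i - 1, by omega⟩
          have h7 : HT (i' + 1) n' ≤ q' * (1 + 2 * Real.log Nm) + 2 / Nm :=
            time_loss hold hB hIL k X Nm b q' hloss hN2 i' n' hiI (by omega)
          gcongr
        refine (Finset.sum_le_sum h6).trans ?_
        rw [Finset.sum_const, Finset.card_range, nsmul_eq_mul]
        refine mul_le_mul_of_nonneg_right (by exact_mod_cast hMN) ?_
        have hlog : 0 ≤ Real.log Nm := Real.log_natCast_nonneg Nm
        positivity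
      unfold errSum
      rw [← hP, ← hEr0]
      linarith
    · have : ∑ n' ∈ range n, e i n' = 0 := by
        refine Finset.sum_eq_zero fun n' _ => ?_
        simp only [he]
        rw [if_neg]
        rintro ⟨h1, h2, h3⟩
        exact hi ⟨h1, h2, by omega⟩
      rw [this]
      exact hES0
  -- the comparison
  set Λ' : ℕ → ℝ := fun n => (Λ (n + y + X2) + r) / S with hΛ'
  set v : ℕ → ℕ → ℝ := fun i n => if n ≤ top i then uu O top S k X b i n else 0 with hv
  have hΛnn : ∀ n, 0 ≤ Λ n := fun n => hΛ0.le.trans (hmono (Nat.zero_le n))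
  have hregion : ∀ i n : ℕ, n + y + X2 ≤ Nm → Λ' n ≤ (i : ℝ) → n + X2 ≤ top i := by
    intro i n hn hi
    refine le_rtop ⟨?_, by omega⟩
    simp only [hΛ'] at hi
    rw [div_le_iff₀ hS0] at hi
    rw [show n + X2 + y = n + y + X2 by ring]
    push_cast
    exact hi
  have hcmp := comparison v e Λ' (B / (u * S)) (1 / P) μ (D + 1) I (Nm - (y + X2)) he0
    (by
      intro i
      simp only [hv]
      rw [if_pos (Nat.zero_le _)]
      unfold uu
      refine (KK_le _ (Evt.ind_nonneg _ _ Evt.uw_nonneg) _ _).trans ?_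
      rw [card_Un_zero]
      simp)
    (by linarith)
    (by
      intro i n hi hn
      simp only [hv]
      split
      · rename_i hc
        exact newEv_ent hold hB hIL k X b i n hi hc
      · linarith)
    (by
      simp only [hΛ']
      have := hΛnn (0 + y + X2)
      positivity)
    (by
      intro n
      simp only [hΛ']
      have h1 := hΛ (n + y + X2)
      have h2 : (B : ℝ) / (u * S) = B / u / S := by rw [div_div]
      rw [h2, ← add_div]
      refine div_le_div_of_nonneg_right ?_ hS0.le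
      rw [show n + 1 + y + X2 = n + y + X2 + 1 by ring]
      linarith)
    (by positivity)
    (by positivity)
    (by
      rw [div_le_one hP0]
      exact hP1)
    hμ hpμ
    (by
      intro i n hi hn hΛi
      have hnm : n + y + X2 ≤ Nm := by omega
      have htop1 : n + X2 ≤ top i := hregion i n hnm hΛi
      have htop2 : top i ≤ top (i + 1) := hold.mono (Nat.le_succ i)
      have hi1 : 1 ≤ i := by
        by_contra hcon
        have hi0 : i = 0 := by omega
        subst hi0
        have h1 := hΛ0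
        have h2 : Λ 0 ≤ Λ (n + y + X2) := hmono (Nat.zero_le _)
        have h3 : 0 < Λ' n := by
          simp only [hΛ']
          have h0 : 0 < Λ (n + y + X2) := lt_of_lt_of_le h1 h2
          exact div_pos (by linarith) hS0
        have h4 : Λ' n ≤ ((0 : ℕ) : ℝ) := hΛi
        simp only [Nat.cast_zero] at h4
        linarith
      have hstep := scheme_step hold hB hIL k X m Nm g ℓ b pF hk hm hkm (by omega) hg hg1 hb hpF hℓ
        i n hi1 hi (by omega) (by omega) (by omega) (fun z hz hzt => hF z hz (by omega))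
      have hX1 : 1 ≤ X2 := by omega
      simp only [hv]
      rw [if_pos (by omega), if_pos (by omega), if_pos (by omega)]
      have hecase : e (i + 1) n = HL (i + 1) n + tcor O top S k X b m (i + 1) n +
          ((1 / 2) ^ Nm + 1 / P * (HT (i + 1) n + Er0 + 2 * (1 / 2) ^ (4 * g))) := by
        simp only [he]
        rw [if_pos ⟨hi, by omega, by omega⟩]
      rw [hecase]
      refine hstep.trans ?_
      rw [← hP]
      have h5 : (ℓ : ℝ) * n * (2 * (1 / 2) ^ (4 * g)
                + 2 ^ (2 * (2 * k + 1)) * (1 / 2) ^ (4 * k + 2 + 4 * g)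
                + 2 ^ (k + (4 * k + 2 + 4 * g) + 1) * pF) ≤ Er0 := by
        rw [hEr0]
        have h6 : (n : ℝ) ≤ Nm := by
          have : n ≤ Nm := by omega
          exact_mod_cast this
        gcongr
      have h7 : (i + 1) - 1 = i := Nat.add_sub_cancel i 1
      simp only [hHL, hHT, h7]
      have h8 : 1 / P * (HH (mas O top S k X b (i + 1) n)
                (mas O top S k X b i n - mas O top S k X b (i + 1) n)
              + (ℓ : ℝ) * n * (2 * (1 / 2) ^ (4 * g)
                + 2 ^ (2 * (2 * k + 1)) * (1 / 2) ^ (4 * k + 2 + 4 * g)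
                + 2 ^ (k + (4 * k + 2 + 4 * g) + 1) * pF) + 2 * (1 / 2) ^ (4 * g)) ≤
          1 / P * (HH (mas O top S k X b (i + 1) n)
                (mas O top S k X b i n - mas O top S k X b (i + 1) n)
              + Er0 + 2 * (1 / 2) ^ (4 * g)) := by
        refine mul_le_mul_of_nonneg_left ?_ (by positivity)
        linarith
      linarith)
  -- the new family
  refine Fam.of_grid hmono hB hS hIL hLI (newEv O top S k X b) D' q' (r + C3 * S) (y + X2)
    (Nat.le_add_right y X2) (by nlinarith) (fun i n hi => newEv_lev hold k X b i n hi)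
    (fun i n n' hn => newEv_anti hold k X b i n n' hn) hloss ?_
  intro i n hi hreg
  obtain ⟨h1, h2⟩ := hreg
  have hn : n ≤ Nm - (y + X2) := by omega
  have h3 := hcmp i n hi hn
  have h4 : C3 ≤ i - Λ' n := by
    simp only [hΛ']
    rw [le_sub_iff_add_le, ← le_sub_iff_add_le', div_le_iff₀ hS0]
    push_cast at h1
    rw [show n + (y + X2) = n + y + X2 by ring] at h1
    nlinarith
  have h5 : n + X2 ≤ top i := by
    refine hregion i n (by omega) ?_
    linarith
  have h6 : v i n = uu O top S k X b i n := by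
    simp only [hv]
    rw [if_pos (by omega)]
  rw [h6] at h3
  have h7 : (D + 1) * Real.exp (-(μ * (i - Λ' n - 2))) ≤ (D + 1) * Real.exp (-(μ * (C3 - 2))) := by
    refine mul_le_mul_of_nonneg_left ?_ (by linarith)
    refine Real.exp_le_exp.2 (neg_le_neg ?_)
    refine mul_le_mul_of_nonneg_left (by linarith) hμ
  have h8 : ∑ i' ∈ range (I + 1), ∑ n' ∈ range n, e i' n' ≤
      (I + 1) * errSum Nm k m g ℓ Y Lg J D q' pF := by
    refine (Finset.sum_le_sum fun i' _ => hsum i' n).trans ?_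
    rw [Finset.sum_const, Finset.card_range, nsmul_eq_mul]
    push_cast
    exact le_rfl
  show uu O top S k X b i n ≤ D'
  linarith

end Pool.Agent.CutSeq
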