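import Pool.Agent.CutSeq.StagePar

/-! Row STAGE, parameters, second part. -/

set_option autoImplicit false

namespace Pool.Agent.CutSeq

open Finset

/-- the numbers `k` and `m` -/
theorem par_basic (N : ℕ) (ε : ℝ) (hN : (1 : ℝ) ≤ N) (hε : 0 < ε) (hε1 : ε ≤ 1)
    (h40 : 40 ≤ ε * N) (h7 : 40 ≤ ε ^ 7 * N) (k m : ℕ) (hk : k = ⌈ε * N⌉₊) (hm : m = ⌈4 / ε⌉₊) :
    ε * N ≤ k ∧ (k : ℝ) ≤ 2 * (ε * N) ∧ 40 ≤ (k : ℝ) ∧ (m : ℝ) ≤ 5 / ε ∧ 1 ≤ m ∧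
      3 * (m : ℝ) ≤ ε * N ∧ 2 * (2 * N) ≤ k * m ∧ ε * N ≤ N := by
  have hkge : ε * N ≤ k := hk ▸ Nat.le_ceil _
  have hkle : (k : ℝ) ≤ 2 * (ε * N) := by
    have := Nat.ceil_lt_add_one (show (0 : ℝ) ≤ ε * N by linarith)
    rw [← hk] at this
    linarith
  have hmge : 4 / ε ≤ m := hm ▸ Nat.le_ceil _
  have h1ε : 1 ≤ 1 / ε := by
    rw [le_div_iff₀ hε]
    linarith
  have hmle : (m : ℝ) ≤ 5 / ε := by
    have h1 := Nat.ceil_lt_add_one (show (0 : ℝ) ≤ 4 / ε by positivity)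
    rw [← hm] at h1
    have h2 : 5 / ε = 4 / ε + 1 / ε := by ring
    linarith
  have hm1 : 1 ≤ m := by
    have h1 : (0 : ℝ) < m := lt_of_lt_of_le (by positivity) hmge
    exact_mod_cast h1
  have h15 : 15 / ε ≤ ε * N := by
    rw [div_le_iff₀ hε]
    have h1 : ε ^ 7 ≤ ε ^ 2 := pow_le_pow_of_le_one hε.le hε1 (by norm_num)
    have h2 := mul_le_mul_of_nonneg_right h1 (show (0 : ℝ) ≤ N by linarith)
    have h3 : ε * N * ε = ε ^ 2 * N := by ring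
    linarith
  have hmN : 3 * (m : ℝ) ≤ ε * N := by
    have : 3 * (5 / ε) = 15 / ε := by ring
    linarith
  have hεN' : ε * N ≤ N := by
    have := mul_le_mul_of_nonneg_right hε1 (show (0 : ℝ) ≤ N by linarith)
    linarith
  refine ⟨hkge, hkle, by linarith, hmle, hm1, hmN, ?_, hεN'⟩
  have h1 : (4 : ℝ) * N ≤ k * m := by
    have h2 : ε * N * (4 / ε) ≤ k * m := mul_le_mul hkge hmge (by positivity) (by positivity)
    have h3 : ε * N * (4 / ε) = 4 * N := by field_simp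
    linarith
  have h4 : ((2 * (2 * N) : ℕ) : ℝ) ≤ ((k * m : ℕ) : ℝ) := by
    push_cast
    linarith
  exact_mod_cast h4

/-- the block of letters -/
theorem par_block (N c k g ℓ : ℕ) (ε u₂ u₃ : ℝ) (hN : (1 : ℝ) ≤ N) (hε : 0 < ε)
    (hu20 : 0 < u₂) (hu23 : u₂ < u₃) (hc1 : (1 : ℝ) ≤ c) (hc10 : 10 ≤ (u₃ - u₂) * c)
    (hcε : 2 * c * ε ≤ 1) (hu3c : 4 * u₃ * c * ε ≤ 1)
    (hkle : (k : ℝ) ≤ 2 * (ε * N)) (hk40 : 40 ≤ (k : ℝ))
    (hg : 40 * (g : ℝ) ≤ k) (hℓ : ℓ = ⌊u₃ * (c * k : ℕ)⌋₊) :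
    c * k ≤ N ∧ (ℓ : ℝ) ≤ u₃ * (c * k : ℕ) ∧ ℓ ≤ N ∧
      u₂ * (c * k) + 1 ≤ (ℓ : ℝ) - 2 * (2 * k + 1) - 4 * g ∧ 2 * (2 * k + 1) + 4 * g < ℓ ∧
      0 < (ℓ : ℝ) - 2 * (2 * k + 1) - 4 * g := by
  have hN0 : (0 : ℝ) ≤ N := by linarith
  have hu30 : 0 < u₃ := by linarith
  have hckN : ((c * k : ℕ) : ℝ) ≤ N := by
    push_cast
    have h1 : (c : ℝ) * k ≤ c * (2 * (ε * N)) := mul_le_mul_of_nonneg_left hkle (by positivity)
    have h2 : c * (2 * (ε * N)) = 2 * c * ε * N := by ring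
    have h3 := mul_le_mul_of_nonneg_right hcε hN0
    linarith
  have hℓle : (ℓ : ℝ) ≤ u₃ * (c * k : ℕ) := hℓ ▸ Nat.floor_le (by positivity)
  have hℓge : u₃ * (c * k : ℕ) - 1 < ℓ := hℓ ▸ Nat.sub_one_lt_floor _
  have hℓN : (ℓ : ℝ) ≤ N := by
    refine le_trans hℓle ?_
    push_cast
    have h1 : u₃ * ((c : ℝ) * k) ≤ u₃ * (c * (2 * (ε * N))) := by
      apply mul_le_mul_of_nonneg_left _ hu30.le
      exact mul_le_mul_of_nonneg_left hkle (by positivity)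
    have h2 : u₃ * (c * (2 * (ε * N))) = 4 * u₃ * c * ε * N / 2 := by ring
    have h3 := mul_le_mul_of_nonneg_right hu3c hN0
    linarith
  have hden : u₂ * (c * k) + 1 ≤ (ℓ : ℝ) - 2 * (2 * k + 1) - 4 * g := by
    have h1 : u₃ * ((c : ℝ) * k) = u₂ * (c * k) + ((u₃ - u₂) * c) * k := by ring
    have h2 : 10 * (k : ℝ) ≤ ((u₃ - u₂) * c) * k :=
      mul_le_mul_of_nonneg_right hc10 (by positivity)
    push_cast at hℓge
    linarith
  have hden0 : 0 < (ℓ : ℝ) - 2 * (2 * k + 1) - 4 * g := by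
    have : 0 ≤ u₂ * ((c : ℝ) * k) := by positivity
    linarith
  refine ⟨by exact_mod_cast hckN, hℓle, by exact_mod_cast hℓN, hden, ?_, hden0⟩
  have h2 : ((2 * (2 * k + 1) + 4 * g : ℕ) : ℝ) < ((ℓ : ℕ) : ℝ) := by
    push_cast
    linarith
  exact_mod_cast h2

/-- the number of grid times -/
theorem par_times (N B L S I c k : ℕ) (CL ε : ℝ) (hCL : 1 ≤ CL) (hN : (1 : ℝ) ≤ N) (hε : 0 < ε)
    (hε1 : ε ≤ 1) (hB : 0 < B) (hSr : (S : ℝ) = B * (c * k)) (hS : 0 < S) (hc1 : (1 : ℝ) ≤ c)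
    (hk : ε * N ≤ k) (hL : (L : ℝ) ≤ CL * N * B) (hI : I = L / S) :
    I * S ≤ L ∧ L < (I + 1) * S ∧ (I : ℝ) ≤ CL / ε ∧ (I : ℝ) + 1 ≤ 2 * CL / ε := by
  have hIL : I * S ≤ L := hI ▸ Nat.div_mul_le_self L S
  have hLI : L < (I + 1) * S := by
    rw [hI, mul_comm]
    exact Nat.lt_mul_div_succ L hS
  have hIle : (I : ℝ) ≤ CL / ε := by
    rw [le_div_iff₀ hε]
    have h1 : (I : ℝ) * S ≤ CL * N * B := by
      have h2 : ((I * S : ℕ) : ℝ) ≤ (L : ℝ) := by exact_mod_cast hIL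
      push_cast at h2
      linarith
    rw [hSr] at h1
    have hBr0 : (0 : ℝ) < B := by exact_mod_cast hB
    have h2 : (I : ℝ) * (c * k) ≤ CL * N := by
      have h3 : (I * (c * k)) * (B : ℝ) ≤ (CL * N) * B := by linarith
      exact le_of_mul_le_mul_right h3 hBr0
    have h3 : (I : ℝ) * (ε * N) ≤ I * (c * k) := by
      apply mul_le_mul_of_nonneg_left _ (by positivity)
      have := mul_le_mul_of_nonneg_right hc1 (show (0 : ℝ) ≤ k by positivity)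
      linarith
    have h4 : (I * ε) * (N : ℝ) ≤ CL * N := by linarith
    exact le_of_mul_le_mul_right h4 (by linarith)
  refine ⟨hIL, hLI, hIle, ?_⟩
  have h1 : 1 ≤ CL / ε := by
    rw [le_div_iff₀ hε]
    linarith
  have h2 : 2 * CL / ε = CL / ε + CL / ε := by ring
  linarith

theorem par_rate (N c k g ℓ S B : ℕ) (ε u u₂ μ c4 : ℝ) (hu0 : 0 < u) (hu20 : 0 < u₂)
    (hN : (1 : ℝ) ≤ N) (hε : 0 < ε) (hc1 : (1 : ℝ) ≤ c) (hk : ε * N ≤ k)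
    (hden : u₂ * (c * k) + 1 ≤ (ℓ : ℝ) - 2 * (2 * k + 1) - 4 * g) (hc4 : c4 = 2 / (u₂ * c))
    (hμ : Real.exp μ - 1 ≤ u₂ / u * μ) (hμ0 : 0 < μ) (hB : 0 < B)
    (hSr : (S : ℝ) = B * (c * k)) :
    1 / ((ℓ : ℝ) - 2 * (2 * k + 1) - 4 * g) * (2 * N) ≤ c4 / ε ∧
      1 / ((ℓ : ℝ) - 2 * (2 * k + 1) - 4 * g) * (Real.exp μ - 1) ≤ B / (u * S) * μ := by
  have hN0 : (0 : ℝ) < N := by linarith
  have hεN0 : 0 < ε * N := by positivity
  have hk0 : (0 : ℝ) < k := by linarith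
  have hc0 : (0 : ℝ) < c := by linarith
  constructor
  · have h1 : u₂ * (c * (ε * N)) ≤ (ℓ : ℝ) - 2 * (2 * k + 1) - 4 * g := by
      have h2 : u₂ * (c * (ε * N)) ≤ u₂ * (c * k) := by
        apply mul_le_mul_of_nonneg_left _ hu20.le
        exact mul_le_mul_of_nonneg_left hk hc0.le
      linarith
    have h2 : 1 / ((ℓ : ℝ) - 2 * (2 * k + 1) - 4 * g) ≤ 1 / (u₂ * (c * (ε * N))) :=
      one_div_le_one_div_of_le (by positivity) h1
    refine le_trans (mul_le_mul_of_nonneg_right h2 (by positivity)) (le_of_eq ?_)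
    rw [hc4]
    field_simp
  · have h0 : 0 ≤ Real.exp μ - 1 := by
      have := Real.add_one_le_exp μ
      linarith
    have h2 : 1 / ((ℓ : ℝ) - 2 * (2 * k + 1) - 4 * g) ≤ 1 / (u₂ * (c * k)) :=
      one_div_le_one_div_of_le (by positivity) (by linarith)
    have hBr0 : (0 : ℝ) < B := by exact_mod_cast hB
    refine le_trans (mul_le_mul h2 hμ h0 (by positivity)) (le_of_eq ?_)
    rw [hSr]
    field_simp

theorem par_end (N c k g m S B : ℕ) (ε μ C : ℝ) (hε : 0 < ε) (hμ0 : 0 < μ)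
    (h40 : 40 ≤ ε * N) (hkle : (k : ℝ) ≤ 2 * (ε * N)) (hg : 40 * (g : ℝ) ≤ ε * N)
    (hm : 3 * (m : ℝ) ≤ ε * N) (hSr : (S : ℝ) = B * (c * k)) (hC20 : 20 ≤ C)
    (hC2 : 2 * c * (3 + 15 / μ) ≤ C) :
    (2 + 15 / μ) * S + S ≤ C * ε * N * B ∧ 7 * k + 40 * g + 3 * m + 5 ≤ ⌈C * ε * N⌉₊ := by
  have hεN0 : 0 ≤ ε * N := by linarith
  constructor
  · have h1 : (S : ℝ) ≤ 2 * c * ε * N * B := by
      rw [hSr]
      have h2 : (c : ℝ) * k ≤ c * (2 * (ε * N)) := mul_le_mul_of_nonneg_left hkle (by positivity)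
      have h3 := mul_le_mul_of_nonneg_left h2 (show (0 : ℝ) ≤ B by positivity)
      have h4 : (B : ℝ) * (c * (2 * (ε * N))) = 2 * c * ε * N * B := by ring
      linarith
    have h5 : (2 + 15 / μ) * S + S ≤ (3 + 15 / μ) * (2 * c * ε * N * B) := by
      have h6 : (2 + 15 / μ) * (S : ℝ) + S = (3 + 15 / μ) * S := by ring
      rw [h6]
      exact mul_le_mul_of_nonneg_left h1 (by positivity)
    have h7 : (3 + 15 / μ) * (2 * c * ε * N * B) = (2 * c * (3 + 15 / μ)) * (ε * N * B) := by ring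
    have h8 : (2 * c * (3 + 15 / μ)) * (ε * N * B) ≤ C * (ε * N * B) :=
      mul_le_mul_of_nonneg_right hC2 (by positivity)
    have h9 : C * (ε * N * B) = C * ε * N * B := by ring
    linarith
  · have h1 : ((7 * k + 40 * g + 3 * m + 5 : ℕ) : ℝ) ≤ C * ε * N := by
      push_cast
      have h2 : 20 * (ε * N) ≤ C * (ε * N) := mul_le_mul_of_nonneg_right hC20 hεN0
      have h3 : C * (ε * N) = C * ε * N := by ring
      linarith
    have h4 : ((7 * k + 40 * g + 3 * m + 5 : ℕ) : ℝ) ≤ (⌈C * ε * N⌉₊ : ℝ) :=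
      h1.trans (Nat.le_ceil _)
    exact_mod_cast h4

theorem exp_part (D μ : ℝ) (hμ0 : 0 < μ) (hD : 1 ≤ D) (E : ℝ) (hE : E ≤ D / 4) :
    (D + 1) * Real.exp (-(μ * (2 + 15 / μ - 2))) + E ≤ D / 2 := by
  have h1 : μ * (2 + 15 / μ - 2) = 15 := by field_simp; ring
  rw [h1]
  have h2 : Real.exp (-15) ≤ 1 / 16 := by
    rw [Real.exp_neg, ← one_div]
    apply one_div_le_one_div_of_le (by norm_num)
    have := Real.add_one_le_exp (15 : ℝ)
    linarith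
  have h3 : (D + 1) * Real.exp (-15) ≤ (D + 1) * (1 / 16) :=
    mul_le_mul_of_nonneg_left h2 (by linarith)
  linarith

end Pool.Agent.CutSeq
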