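import Pool.Agent.CutSeq.StageCore
import Pool.Agent.CutSeq.StageAsym

/-! Row STAGE, numerical bounds. -/

set_option autoImplicit false

namespace Pool.Agent.CutSeq

open Finset

theorem half_pow_bound (N g : ℕ) (hN : 1 ≤ N) (hg : 2 * N ≤ 2 ^ g) :
    (1 / 2 : ℝ) ^ (4 * g) * (2 * N) ^ 4 ≤ 1 := by
  have h1 : ((2 * N : ℕ) : ℝ) ≤ ((2 ^ g : ℕ) : ℝ) := by exact_mod_cast hg
  push_cast at h1
  have h2 : (2 * (N : ℝ)) ^ 4 ≤ (2 ^ g) ^ 4 := pow_le_pow_left₀ (by positivity) h1 4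
  have h3 : (1 / 2 : ℝ) ^ (4 * g) * (2 ^ g) ^ 4 = 1 := by
    rw [← pow_mul, mul_comm g 4, ← mul_pow]
    norm_num
  calc (1 / 2 : ℝ) ^ (4 * g) * (2 * N) ^ 4 ≤ (1 / 2 : ℝ) ^ (4 * g) * (2 ^ g) ^ 4 :=
        mul_le_mul_of_nonneg_left h2 (by positivity)
    _ = 1 := h3

/-- bound for the errors at one time -/
theorem errT_le (N k g ℓ m : ℕ) (ε c4 q' D : ℝ) (hN : 2 ≤ N) (hε : 0 < ε) (hε1 : ε ≤ 1)
    (hk : ε * N ≤ k) (hg : 2 * N ≤ 2 ^ g) (hm : (m : ℝ) ≤ 5 / ε) (hmN : m ≤ 2 * N)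
    (hℓ : ℓ ≤ 2 * N) (hq' : 0 ≤ q') (hD : 1 ≤ D) (hlog : 1 + 2 * Real.log (2 * N) ≤ N)
    (hden : 1 ≤ (ℓ : ℝ) - 2 * (2 * k + 1) - 4 * g)
    (hc4 : 1 / ((ℓ : ℝ) - 2 * (2 * k + 1) - 4 * g) * (2 * N) ≤ c4 / ε) (hc40 : 0 ≤ c4) :
    errSum (2 * N) k m g ℓ k (4 * g) (3 * m + 20 * g) D q' ((1 / 2) ^ (5 * k + 3 + 8 * g))
      ≤ 1 / ε ^ 2 * ((61 + c4) * (q' * N) + 30 * D / (ε * N) + 27) := by
  have hNr : (2 : ℝ) ≤ N := by exact_mod_cast hN
  have hx := half_pow_bound N g (by omega) hg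
  set x : ℝ := (1 / 2 : ℝ) ^ (4 * g) with hxdef
  have hx0 : 0 ≤ x := by positivity
  have hden0 : 0 < (ℓ : ℝ) - 2 * (2 * k + 1) - 4 * g := by linarith
  set p : ℝ := 1 / ((ℓ : ℝ) - 2 * (2 * k + 1) - 4 * g) with hp
  have hp0 : 0 ≤ p := by positivity
  have hp1 : p ≤ 1 := by
    rw [hp, div_le_one hden0]
    exact hden
  set lg : ℝ := 1 + 2 * Real.log (2 * N) with hlg
  have hlg0 : 0 ≤ lg := by
    have := Real.log_nonneg (show (1 : ℝ) ≤ 2 * N by linarith)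
    rw [hlg]
    linarith
  have hqlg : q' * lg ≤ q' * N := mul_le_mul_of_nonneg_left hlog hq'
  have hqN : 0 ≤ q' * N := by positivity
  have hlog2 : Real.log 2 ≤ 1 := by
    have := Real.log_two_lt_d9
    linarith
  have hlog20 : 0 ≤ Real.log 2 := Real.log_nonneg (by norm_num)
  -- the constant part
  have hpow1 : (2 : ℝ) ^ (2 * (2 * k + 1)) * (1 / 2) ^ (4 * k + 2 + 4 * g) = x := by
    rw [show 4 * k + 2 + 4 * g = 2 * (2 * k + 1) + 4 * g by ring, pow_add, ← mul_assoc, ← mul_pow]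
    norm_num [hxdef]
  have hpow2 : (2 : ℝ) ^ (k + (4 * k + 2 + 4 * g) + 1) * (1 / 2) ^ (5 * k + 3 + 8 * g) = x := by
    rw [show 5 * k + 3 + 8 * g = (k + (4 * k + 2 + 4 * g) + 1) + 4 * g by ring, pow_add (1 / 2 : ℝ),
      ← mul_assoc, ← mul_pow]
    norm_num [hxdef]
  have hx1 : x * (2 * N) ≤ 1 := by
    have h1 : (1 : ℝ) ≤ (2 * N) ^ 3 := one_le_pow₀ (by linarith)
    have h2 : x * (2 * N) * 1 ≤ x * (2 * N) * (2 * N) ^ 3 :=
      mul_le_mul_of_nonneg_left h1 (by positivity)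
    nlinarith
  have hx2 : x * (2 * N) ^ 3 * 4 ≤ 1 := by
    have h1 : (4 : ℝ) ≤ 2 * N := by linarith
    have h2 : x * (2 * N) ^ 3 * 4 ≤ x * (2 * N) ^ 3 * (2 * N) :=
      mul_le_mul_of_nonneg_left h1 (by positivity)
    nlinarith
  have hhalf : ((2 * N : ℕ) : ℝ) * (1 / 2) ^ (2 * N) ≤ 1 := by
    have h1 : ((2 * N : ℕ) : ℝ) ≤ 2 ^ (2 * N) := by exact_mod_cast (Nat.lt_two_pow_self).le
    calc ((2 * N : ℕ) : ℝ) * (1 / 2) ^ (2 * N) ≤ 2 ^ (2 * N) * (1 / 2) ^ (2 * N) :=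
          mul_le_mul_of_nonneg_right h1 (by positivity)
      _ = 1 := by rw [← mul_pow]; norm_num
  have hℓr : (ℓ : ℝ) ≤ 2 * N := by exact_mod_cast hℓ
  have hc0 : ((2 * N : ℕ) : ℝ) * ((1 / 2) ^ (2 * N) + p * ((q' * lg + 2 / ((2 * N : ℕ) : ℝ))
        + (ℓ : ℝ) * ((2 * N : ℕ) : ℝ) * (2 * x + x + x) + 2 * x))
      ≤ c4 / ε * (q' * N) + 5 := by
    push_cast
    have e1 : 2 * (N : ℝ) * ((1 / 2) ^ (2 * N) + p * (q' * lg + 2 / (2 * N)
        + ℓ * (2 * N) * (2 * x + x + x) + 2 * x))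
        = ((2 * N : ℕ) : ℝ) * (1 / 2) ^ (2 * N) + (p * (2 * N)) * (q' * lg) + p * 2
          + p * (ℓ * (2 * N) ^ 2 * x * 4) + p * (x * (2 * N) * 2) := by
      push_cast
      field_simp
      ring
    rw [e1]
    have h2 : (p * (2 * N)) * (q' * lg) ≤ c4 / ε * (q' * N) := by
      refine le_trans (mul_le_mul_of_nonneg_right hc4 (by positivity)) ?_
      exact mul_le_mul_of_nonneg_left hqlg (by positivity)
    have h3 : (ℓ : ℝ) * (2 * N) ^ 2 * x * 4 ≤ 1 := by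
      have : (ℓ : ℝ) * (2 * N) ^ 2 * x * 4 ≤ (2 * N) * (2 * N) ^ 2 * x * 4 := by
        have := mul_le_mul_of_nonneg_right hℓr (show (0 : ℝ) ≤ (2 * N) ^ 2 * x * 4 by positivity)
        linarith
      linarith
    have h4 : p * (ℓ * (2 * N) ^ 2 * x * 4) ≤ 1 := by
      have := mul_le_mul hp1 h3 (by positivity) (by norm_num)
      linarith
    have h5 : x * (2 * N) * 2 ≤ 1 := by
      have h6 : (1 : ℝ) ≤ (2 * N) ^ 2 := one_le_pow₀ (by linarith)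
      have h7 : x * (2 * N) * 1 ≤ x * (2 * N) * (2 * N) ^ 2 :=
        mul_le_mul_of_nonneg_left h6 (by positivity)
      nlinarith
    have h8 : p * (x * (2 * N) * 2) ≤ 1 := by
      have := mul_le_mul hp1 h5 (by positivity) (by norm_num)
      linarith
    linarith
  -- the siblings
  have hmr0 : (0 : ℝ) ≤ m := by positivity
  have h1ε : 1 ≤ 1 / ε := by
    rw [le_div_iff₀ hε]
    linarith
  have hmm : (m : ℝ) * (m + 1) / 2 ≤ 15 / ε ^ 2 := by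
    have h1 : (m : ℝ) + 1 ≤ 6 / ε := by
      have : (6 : ℝ) / ε = 5 / ε + 1 / ε := by ring
      linarith
    have h2 : (m : ℝ) * (m + 1) ≤ 5 / ε * (6 / ε) := mul_le_mul hm h1 (by positivity) (by positivity)
    have h3 : 5 / ε * (6 / ε) = 2 * (15 / ε ^ 2) := by
      field_simp
      ring
    linarith
  have hεN : 0 < ε * N := by positivity
  have hkr : (0 : ℝ) < k := lt_of_lt_of_le hεN hk
  have hDk : (D + 1) / k ≤ 2 * D / (ε * N) := by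
    rw [div_le_div_iff₀ hkr hεN]
    have : (D + 1) * (ε * N) ≤ 2 * D * (ε * N) := mul_le_mul_of_nonneg_right (by linarith) hεN.le
    have h2 : 2 * D * (ε * N) ≤ 2 * D * k := mul_le_mul_of_nonneg_left hk (by linarith)
    linarith
  have hsib : (m : ℝ) * (m + 1) / 2 * ((D + 1) / k + x * ((2 * N : ℕ) : ℝ)
      + 2 * q' * (((2 * N : ℕ) : ℝ) * Real.log 2))
      ≤ 15 / ε ^ 2 * (2 * D / (ε * N) + 1 + 4 * (q' * N)) := by
    push_cast
    have h1 : 2 * q' * (2 * N * Real.log 2) ≤ 4 * (q' * N) := by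
      have := mul_le_mul_of_nonneg_left hlog2 (show (0 : ℝ) ≤ 4 * (q' * N) by positivity)
      linarith
    have h0 : 0 ≤ (D + 1) / k := by positivity
    apply mul_le_mul hmm _ (by positivity) (by positivity)
    linarith
  have hsm : ((2 * N : ℕ) : ℝ) ^ 2 * m * Real.log 2 * (2 ^ m * (2 / 3) ^ (3 * m + 20 * g)) ≤ 1 := by
    have h1 : (2 : ℝ) ^ m * (2 / 3) ^ (3 * m + 20 * g) ≤ x := by
      rw [pow_add, ← mul_assoc, pow_mul, ← mul_pow, pow_mul (2 / 3 : ℝ) 20 g, hxdef,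
        pow_mul (1 / 2 : ℝ) 4 g]
      have h2 : ((2 : ℝ) * (2 / 3) ^ 3) ^ m ≤ 1 := pow_le_one₀ (by norm_num) (by norm_num)
      have h3 : ((2 / 3 : ℝ) ^ 20) ^ g ≤ ((1 / 2) ^ 4) ^ g :=
        pow_le_pow_left₀ (by norm_num) (by norm_num) g
      calc ((2 : ℝ) * (2 / 3) ^ 3) ^ m * ((2 / 3 : ℝ) ^ 20) ^ g
          ≤ 1 * ((1 / 2) ^ 4) ^ g := mul_le_mul h2 h3 (by positivity) (by norm_num)
        _ = ((1 / 2) ^ 4) ^ g := one_mul _
    have h4 : (m : ℝ) * Real.log 2 ≤ 2 * N := by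
      have h5 : (m : ℝ) ≤ 2 * N := by exact_mod_cast hmN
      calc (m : ℝ) * Real.log 2 ≤ m * 1 := mul_le_mul_of_nonneg_left hlog2 hmr0
        _ ≤ 2 * N := by linarith
    push_cast
    have h6 : (2 * (N : ℝ)) ^ 2 * m * Real.log 2 * (2 ^ m * (2 / 3) ^ (3 * m + 20 * g))
        ≤ (2 * N) ^ 2 * (2 * N) * x := by
      have h7 : (2 * (N : ℝ)) ^ 2 * m * Real.log 2 ≤ (2 * N) ^ 2 * (2 * N) := by
        rw [mul_assoc]
        exact mul_le_mul_of_nonneg_left h4 (by positivity)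
      exact mul_le_mul h7 h1 (by positivity) (by positivity)
    nlinarith
  -- total
  unfold errSum
  rw [hpow1, hpow2, ← hxdef, ← hp]
  have hcast : (((2 * N : ℕ) : ℝ)) = 2 * N := by push_cast; ring
  have hlgc : 1 + 2 * Real.log ((2 * N : ℕ) : ℝ) = lg := by rw [hcast]
  rw [hlgc]
  have hε2 : 1 ≤ 1 / ε ^ 2 := by
    rw [le_div_iff₀ (by positivity)]
    have := pow_le_one₀ hε.le hε1 (n := 2)
    linarith
  have hεε : 1 / ε ≤ 1 / ε ^ 2 := by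
    rw [div_le_div_iff₀ hε (by positivity)]
    nlinarith
  have h9 : c4 / ε * (q' * N) ≤ 1 / ε ^ 2 * (c4 * (q' * N)) := by
    have h10 : c4 / ε * (q' * N) = 1 / ε * (c4 * (q' * N)) := by ring
    rw [h10]
    exact mul_le_mul_of_nonneg_right hεε (by positivity)
  have h11 : q' * N ≤ 1 / ε ^ 2 * (q' * N) := by
    have := mul_le_mul_of_nonneg_right hε2 hqN
    linarith
  have h12 : (8 : ℝ) ≤ 1 / ε ^ 2 * 8 := by linarith
  have h13 : 15 / ε ^ 2 * (2 * D / (ε * N) + 1 + 4 * (q' * N))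
      = 1 / ε ^ 2 * (30 * D / (ε * N) + 15 + 60 * (q' * N)) := by ring
  have h14 : 1 / ε ^ 2 * ((61 + c4) * (q' * N) + 30 * D / (ε * N) + 27)
      = 1 / ε ^ 2 * (q' * N) + 1 / ε ^ 2 * (30 * D / (ε * N) + 15 + 60 * (q' * N))
        + 1 / ε ^ 2 * (c4 * (q' * N)) + 1 / ε ^ 2 * 12 := by ring
  have h15 : (0 : ℝ) ≤ 1 / ε ^ 2 := by positivity
  rw [h14]
  linarith

/-- the sum of all errors -/
theorem err_total (a c4 C1 ε N q q' D I1 E : ℝ) (ha : 0 ≤ a) (hc4 : 0 ≤ c4)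
    (hC1 : 0 ≤ C1) (hε : 0 < ε) (hε1 : ε ≤ 1) (hN : 0 < N) (hq : 0 ≤ q) (hD : Real.sqrt N ≤ D)
    (hI0 : 0 ≤ I1) (hI : I1 ≤ a / ε)
    (hE : E ≤ 1 / ε ^ 2 * ((61 + c4) * (q' * N) + 30 * D / (ε * N) + 27))
    (hq' : q' ≤ q + C1 * D / (N ^ 2 * ε ^ 4) + 1 / N) (hq'0 : 0 ≤ q')
    (h1 : q * N * (16 * a * (61 + c4)) ≤ D * ε ^ 3)
    (h2 : 16 * a * (61 + c4) * C1 ≤ ε ^ 7 * N)
    (h3 : 16 * a * (88 + c4) ≤ ε ^ 3 * Real.sqrt N)
    (h4 : 480 * a ≤ ε ^ 7 * N) :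
    I1 * E ≤ D / 4 := by
  have hsq : 0 ≤ Real.sqrt N := Real.sqrt_nonneg _
  have hD0 : 0 ≤ D := le_trans hsq hD
  have hε7 : ε ^ 7 ≤ ε ^ 4 := pow_le_pow_of_le_one hε.le hε1 (by norm_num)
  have hE' : 0 ≤ 1 / ε ^ 2 * ((61 + c4) * (q' * N) + 30 * D / (ε * N) + 27) := by positivity
  have hstep : I1 * E ≤ a / ε * (1 / ε ^ 2 * ((61 + c4) * (q' * N) + 30 * D / (ε * N) + 27)) := by
    refine le_trans (mul_le_mul_of_nonneg_left hE hI0) ?_
    exact mul_le_mul_of_nonneg_right hI hE'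
  refine le_trans hstep ?_
  have hq'N : q' * N ≤ q * N + C1 * D / (N * ε ^ 4) + 1 := by
    have := mul_le_mul_of_nonneg_right hq' hN.le
    refine le_trans this (le_of_eq ?_)
    field_simp
  have hexp : a / ε * (1 / ε ^ 2 * ((61 + c4) * (q' * N) + 30 * D / (ε * N) + 27))
      ≤ a / ε * (1 / ε ^ 2 * ((61 + c4) * (q * N + C1 * D / (N * ε ^ 4) + 1)
        + 30 * D / (ε * N) + 27)) := by
    apply mul_le_mul_of_nonneg_left _ (by positivity)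
    apply mul_le_mul_of_nonneg_left _ (by positivity)
    have := mul_le_mul_of_nonneg_left hq'N (show (0 : ℝ) ≤ 61 + c4 by linarith)
    linarith
  refine le_trans hexp ?_
  have hid : a / ε * (1 / ε ^ 2 * ((61 + c4) * (q * N + C1 * D / (N * ε ^ 4) + 1)
        + 30 * D / (ε * N) + 27))
      = (q * N * (16 * a * (61 + c4))) / ε ^ 3 / 16 + (16 * a * (61 + c4) * C1) * D / (ε ^ 7 * N) / 16
        + 480 * a * D / (ε ^ 4 * N) / 16 + (16 * a * (88 + c4)) / ε ^ 3 / 16 := by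
    field_simp
    ring
  rw [hid]
  have t1 : (q * N * (16 * a * (61 + c4))) / ε ^ 3 ≤ D := by
    rw [div_le_iff₀ (by positivity)]
    exact h1
  have t2 : (16 * a * (61 + c4) * C1) * D / (ε ^ 7 * N) ≤ D := by
    rw [div_le_iff₀ (by positivity)]
    have := mul_le_mul_of_nonneg_right h2 hD0
    linarith
  have t3 : 480 * a * D / (ε ^ 4 * N) ≤ D := by
    rw [div_le_iff₀ (by positivity)]
    have h5 : 480 * a ≤ ε ^ 4 * N := by
      have := mul_le_mul_of_nonneg_right hε7 hN.le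
      linarith
    have := mul_le_mul_of_nonneg_right h5 hD0
    linarith
  have t4 : (16 * a * (88 + c4)) / ε ^ 3 ≤ D := by
    rw [div_le_iff₀ (by positivity)]
    have := mul_le_mul_of_nonneg_left hD (show (0 : ℝ) ≤ ε ^ 3 by positivity)
    linarith
  linarith

end Pool.Agent.CutSeq
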