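import Pool.Agent.CutSeq.StageNum
import Pool.Agent.CutSeq.Fwd
import Pool.Agent.CutSeq.Poi

/-! Row STAGE, parameters: the forward bound, the lost probability, the choice of `mu`. -/

set_option autoImplicit false

namespace Pool.Agent.CutSeq

open Finset

/-- a family may be weakened -/
theorem Fam.weaken {B L : ℕ} {Λ : ℕ → ℝ} (hΛ : Monotone Λ) {r r' : ℝ} {y y' Nmax : ℕ}
    {D D' q q' : ℝ} {G : ℕ → ℕ → Set (Wd B L)} (h : Fam B L Λ r y Nmax D q G) (hr : r ≤ r')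
    (hy : y ≤ y') (hD : D ≤ D') (hq : q ≤ q') : Fam B L Λ r' y' Nmax D' q' G := by
  have hreg : ∀ n l, Reg Λ r' y' Nmax n l → Reg Λ r y Nmax n l := by
    rintro n l ⟨h1, h2⟩
    refine ⟨?_, by omega⟩
    have := hΛ (show n + y ≤ n + y' by omega)
    linarith
  exact
    { lev := h.lev
      anti := h.anti
      loss := by
        refine le_trans (le_trans (Evt.pr_mono _ Evt.uw_nonneg ?_) h.loss) hq
        rintro ω ⟨n, l, hl, hr, hω⟩
        exact ⟨n, l, hl, hreg n l hr, hω⟩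
      ent := fun n l hl hr => le_trans (h.ent n l hl (hreg n l hr)) hD }

/-- the choice of the exponent -/
theorem exists_mu (u u₂ : ℝ) (hu : 0 < u) (h : u < u₂) :
    ∃ μ : ℝ, 0 < μ ∧ Real.exp μ - 1 ≤ u₂ / u * μ := by
  have h1 : 0 < u₂ / u - 1 := by
    rw [sub_pos, lt_div_iff₀ hu]
    linarith
  refine ⟨min 1 (u₂ / u - 1), lt_min one_pos h1, ?_⟩
  set μ := min 1 (u₂ / u - 1) with hμ
  have hμ0 : 0 < μ := lt_min one_pos h1
  have hμ1 : μ ≤ 1 := min_le_left _ _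
  have hμ2 : μ ≤ u₂ / u - 1 := min_le_right _ _
  have h2 := Real.abs_exp_sub_one_sub_id_le (x := μ) (by rw [abs_of_pos hμ0]; exact hμ1)
  have h3 := le_abs_self (Real.exp μ - 1 - μ)
  have h4 : Real.exp μ - 1 ≤ μ * (1 + μ) := by nlinarith
  have h5 : μ * (1 + μ) ≤ μ * (u₂ / u) := mul_le_mul_of_nonneg_left (by linarith) hμ0.le
  linarith

/-- the numerical form of the forward bound -/
theorem pF_bound (θ Cf : ℝ) (hθ : 0 < θ) (hCf : 1 ≤ Cf) (N k g c S : ℕ) (hN : 1 ≤ N)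
    (hg : 2 ^ g ≤ 4 * N) (hc : 7 ≤ θ * c) (hck : c * k ≤ N) (hS : S = 4 * N * (c * k))
    (hK : 320 * 4 ^ 8 * Cf * (N : ℝ) ^ 10 ≤ Real.exp k) (P x : ℝ) (hx0 : 0 < x)
    (hx : 1 / (4 * (S : ℝ) + 4) ≤ x) (hP0 : 0 ≤ P)
    (hP : x * P ≤ Cf * (Real.exp (-(θ * (c * k : ℕ))) + Real.exp (-(θ * N)))) :
    P ≤ (1 / 2) ^ (5 * k + 3 + 8 * g) := by
  have hNr : (1 : ℝ) ≤ N := by exact_mod_cast hN
  have hckr : ((c * k : ℕ) : ℝ) ≤ N := by exact_mod_cast hck
  have hSr : (S : ℝ) ≤ 4 * N * N := by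
    rw [hS]
    push_cast
    push_cast at hckr
    have := mul_le_mul_of_nonneg_left hckr (show (0 : ℝ) ≤ 4 * N by positivity)
    linarith
  have hS4 : 4 * (S : ℝ) + 4 ≤ 20 * (N : ℝ) ^ 2 := by nlinarith
  have hS0 : (0 : ℝ) < 4 * S + 4 := by positivity
  have he1 : Real.exp (-(θ * N)) ≤ Real.exp (-(θ * (c * k : ℕ))) := by
    apply Real.exp_le_exp.2
    have := mul_le_mul_of_nonneg_left hckr hθ.le
    linarith
  have he2 : Real.exp (-(θ * (c * k : ℕ))) ≤ Real.exp (-(7 * k)) := by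
    apply Real.exp_le_exp.2
    have := mul_le_mul_of_nonneg_right hc (show (0 : ℝ) ≤ k by positivity)
    push_cast
    linarith
  have hP1 : P ≤ (4 * S + 4) * (Cf * (2 * Real.exp (-(7 * k)))) := by
    have h1 : x * P ≤ Cf * (2 * Real.exp (-(7 * k))) := by
      refine le_trans hP (mul_le_mul_of_nonneg_left ?_ (by linarith))
      linarith
    have h2 : 1 / (4 * (S : ℝ) + 4) * P ≤ Cf * (2 * Real.exp (-(7 * k))) :=
      le_trans (mul_le_mul_of_nonneg_right hx hP0) h1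
    rw [one_div, inv_mul_le_iff₀ hS0] at h2
    exact h2
  have hP2 : P ≤ 20 * (N : ℝ) ^ 2 * (Cf * (2 * Real.exp (-(7 * k)))) := by
    refine le_trans hP1 (mul_le_mul_of_nonneg_right hS4 ?_)
    have := Real.exp_pos (-(7 * (k : ℝ)))
    positivity
  -- multiply by the power of two
  have hpow : (2 : ℝ) ^ (5 * k + 3 + 8 * g) ≤ Real.exp (4 * k) * 8 * (4 * N) ^ 8 := by
    rw [pow_add, pow_add, pow_mul, mul_comm 8 g, pow_mul]
    have h1 : ((2 : ℝ) ^ 5) ^ k ≤ Real.exp (4 * k) := by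
      have h2 : (2 : ℝ) ^ 5 ≤ Real.exp 4 := by
        have h3 : (2.7 : ℝ) ≤ Real.exp 1 := by
          have := Real.exp_one_gt_d9
          linarith
        have h4 : Real.exp 4 = Real.exp 1 ^ 4 := by
          rw [← Real.exp_nat_mul]
          norm_num
        rw [h4]
        calc (2 : ℝ) ^ 5 ≤ 2.7 ^ 4 := by norm_num
          _ ≤ Real.exp 1 ^ 4 := pow_le_pow_left₀ (by norm_num) h3 4
      have h5 : Real.exp (4 * k) = Real.exp 4 ^ k := by
        rw [← Real.exp_nat_mul]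
        ring_nf
      rw [h5]
      exact pow_le_pow_left₀ (by norm_num) h2 k
    have h6 : ((2 : ℝ) ^ g) ^ 8 ≤ (4 * N) ^ 8 := by
      have h7 : ((2 ^ g : ℕ) : ℝ) ≤ ((4 * N : ℕ) : ℝ) := by exact_mod_cast hg
      push_cast at h7
      exact pow_le_pow_left₀ (by positivity) h7 8
    calc ((2 : ℝ) ^ 5) ^ k * 2 ^ 3 * (2 ^ g) ^ 8 ≤ Real.exp (4 * k) * 2 ^ 3 * (4 * N) ^ 8 := by
          apply mul_le_mul _ h6 (by positivity) (by positivity)
          exact mul_le_mul_of_nonneg_right h1 (by norm_num)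
      _ = Real.exp (4 * k) * 8 * (4 * N) ^ 8 := by norm_num
  have hfin : P * 2 ^ (5 * k + 3 + 8 * g) ≤ 1 := by
    have h1 : P * 2 ^ (5 * k + 3 + 8 * g)
        ≤ 20 * (N : ℝ) ^ 2 * (Cf * (2 * Real.exp (-(7 * k)))) * (Real.exp (4 * k) * 8 * (4 * N) ^ 8) := by
      apply mul_le_mul hP2 hpow (by positivity)
      have := Real.exp_pos (-(7 * (k : ℝ)))
      positivity
    refine le_trans h1 ?_
    have h2 : 20 * (N : ℝ) ^ 2 * (Cf * (2 * Real.exp (-(7 * k)))) * (Real.exp (4 * k) * 8 * (4 * N) ^ 8)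
        = (320 * 4 ^ 8 * Cf * (N : ℝ) ^ 10) * (Real.exp (-(7 * k)) * Real.exp (4 * k)) := by ring
    rw [h2, ← Real.exp_add]
    have h3 : Real.exp (-(7 * (k : ℝ)) + 4 * k) ≤ Real.exp (-k) := by
      apply Real.exp_le_exp.2
      have : (0 : ℝ) ≤ k := by positivity
      linarith
    calc (320 * 4 ^ 8 * Cf * (N : ℝ) ^ 10) * Real.exp (-(7 * (k : ℝ)) + 4 * k)
        ≤ Real.exp k * Real.exp (-k) :=
          mul_le_mul hK h3 (Real.exp_pos _).le (Real.exp_pos _).le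
      _ = 1 := by rw [← Real.exp_add]; simp
  rw [one_div, inv_pow, ← one_div, le_div_iff₀ (by positivity)]
  exact hfin

/-- the lost probability -/
theorem loss_bound (CL ε : ℝ) (N k g I : ℕ) (D q : ℝ) (hCL : 1 ≤ CL) (hN : 1 ≤ N) (hε : 0 < ε)
    (hε1 : ε ≤ 1) (hk : ε * N ≤ k) (hg : 2 * N ≤ 2 ^ g) (hD : 1 ≤ D) (hI : (I : ℝ) ≤ CL / ε)
    (h6 : 6 * CL ≤ ε ^ 7 * N) :
    q + I * (((2 * N : ℕ) : ℝ) / k + 1) * (8 / k * ((D + 1) / k
      + (1 / 2) ^ (4 * g) * ((2 * N : ℕ) : ℝ)) + (1 / 2) ^ (4 * g))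
      ≤ q + 48 * CL * D / ((N : ℝ) ^ 2 * ε ^ 4) + 1 / N := by
  have hNr : (1 : ℝ) ≤ N := by exact_mod_cast hN
  have hx := half_pow_bound N g hN hg
  set x : ℝ := (1 / 2 : ℝ) ^ (4 * g) with hxdef
  have hx0 : 0 ≤ x := by positivity
  have hεN : 0 < ε * N := by positivity
  have hkr : (0 : ℝ) < k := lt_of_lt_of_le hεN hk
  have h1 : ((2 * N : ℕ) : ℝ) / k + 1 ≤ 3 / ε := by
    have h2 : ((2 * N : ℕ) : ℝ) / k ≤ 2 / ε := by
      rw [div_le_div_iff₀ hkr hε]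
      push_cast
      linarith
    have h3 : 1 ≤ 1 / ε := by
      rw [le_div_iff₀ hε]
      linarith
    have h4 : 3 / ε = 2 / ε + 1 / ε := by ring
    linarith
  have h8k : 8 / (k : ℝ) ≤ 8 / (ε * N) := div_le_div_of_nonneg_left (by norm_num) hεN hk
  have hDk : (D + 1) / k ≤ 2 * D / (ε * N) := by
    rw [div_le_div_iff₀ hkr hεN]
    have : (D + 1) * (ε * N) ≤ 2 * D * (ε * N) := mul_le_mul_of_nonneg_right (by linarith) hεN.le
    have h2 : 2 * D * (ε * N) ≤ 2 * D * k := mul_le_mul_of_nonneg_left hk (by linarith)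
    linarith
  have hx2N : x * ((2 * N : ℕ) : ℝ) ≤ 1 / (N : ℝ) ^ 3 := by
    rw [le_div_iff₀ (by positivity)]
    push_cast
    have : x * (2 * N) * (N : ℝ) ^ 3 ≤ x * (2 * N) ^ 4 := by
      have h2 : 0 ≤ x * (N : ℝ) ^ 4 := by positivity
      nlinarith
    linarith
  have hx4 : x ≤ 1 / (N : ℝ) ^ 4 := by
    rw [le_div_iff₀ (by positivity)]
    have : x * (N : ℝ) ^ 4 ≤ x * (2 * N) ^ 4 := by
      have h2 : 0 ≤ x * (N : ℝ) ^ 4 := by positivity
      nlinarith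
    linarith
  have hD0 : 0 ≤ D := by linarith
  have hin : 8 / (k : ℝ) * ((D + 1) / k + x * ((2 * N : ℕ) : ℝ)) + x
      ≤ 8 / (ε * N) * (2 * D / (ε * N) + 1 / (N : ℝ) ^ 3) + 1 / (N : ℝ) ^ 4 := by
    have h0 : 0 ≤ (D + 1) / (k : ℝ) := by positivity
    have := mul_le_mul h8k (add_le_add hDk hx2N) (by positivity) (by positivity)
    linarith
  have hI0 : (0 : ℝ) ≤ I := by positivity
  have hprod : I * (((2 * N : ℕ) : ℝ) / k + 1) ≤ CL / ε * (3 / ε) :=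
    mul_le_mul hI h1 (by positivity) (by positivity)
  have hin0 : 0 ≤ 8 / (k : ℝ) * ((D + 1) / k + x * ((2 * N : ℕ) : ℝ)) + x := by positivity
  have htot := mul_le_mul hprod hin hin0 (by positivity)
  have hid : CL / ε * (3 / ε) * (8 / (ε * N) * (2 * D / (ε * N) + 1 / (N : ℝ) ^ 3)
      + 1 / (N : ℝ) ^ 4)
      = 48 * CL * D / ((N : ℝ) ^ 2 * ε ^ 4) + (24 * CL / ε ^ 3 + 3 * CL / ε ^ 2) / (N : ℝ) ^ 4 := by
    field_simp
    ring
  rw [hid] at htot
  have hlast : (24 * CL / ε ^ 3 + 3 * CL / ε ^ 2) / (N : ℝ) ^ 4 ≤ 1 / N := by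
    rw [div_le_div_iff₀ (by positivity) (by positivity)]
    have h9 : 6 * CL / ε ^ 3 ≤ N := by
      rw [div_le_iff₀ (by positivity)]
      have h10 : ε ^ 7 ≤ ε ^ 3 := pow_le_pow_of_le_one hε.le hε1 (by norm_num)
      have := mul_le_mul_of_nonneg_right h10 (show (0 : ℝ) ≤ N by positivity)
      linarith
    have h11 : 3 * CL / ε ^ 2 ≤ 3 * CL / ε ^ 3 := by
      apply div_le_div_of_nonneg_left (by positivity) (by positivity)
      exact pow_le_pow_of_le_one hε.le hε1 (by norm_num)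
    have h12 : 24 * CL / ε ^ 3 + 3 * CL / ε ^ 2 ≤ 6 * N := by
      have e1 : 24 * CL / ε ^ 3 = 4 * (6 * CL / ε ^ 3) := by ring
      have e2 : 3 * CL / ε ^ 3 = 1 / 2 * (6 * CL / ε ^ 3) := by ring
      linarith
    have h13 : (6 : ℝ) ≤ N := by
      have h14 : 6 * CL ≤ N := by
        have h15 : ε ^ 7 ≤ 1 := pow_le_one₀ hε.le hε1
        have := mul_le_mul_of_nonneg_right h15 (show (0 : ℝ) ≤ N by positivity)
        linarith
      linarith
    have h16 : (24 * CL / ε ^ 3 + 3 * CL / ε ^ 2) * N ≤ 6 * N * N :=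
      mul_le_mul_of_nonneg_right h12 (by positivity)
    have h17 : (6 * (N : ℝ)) * N ≤ 1 * (N : ℝ) ^ 4 := by
      have h18 : (6 : ℝ) * (N * N) ≤ N * (N * N) := mul_le_mul_of_nonneg_right h13 (by positivity)
      have h19 : (N : ℝ) * (N * N) * 1 ≤ N * (N * N) * N :=
        mul_le_mul_of_nonneg_left hNr (by positivity)
      nlinarith
    linarith
  linarith

end Pool.Agent.CutSeq
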