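import Pool.Agent.CutSeq.SoftA
import Pool.Agent.CutSeq.Bridge
import Pool.Agent.CutSeq.Fam

/-! Row START. -/

set_option autoImplicit false

namespace Pool.Agent.CutSeq

open Finset

namespace Strt

/-! #### truncation of arrays -/

/-- the first `n` rows of an array with `m` rows -/
def tru {n m : ℕ} (h : n ≤ m) (x : Un m) : Un n := fun k => x ⟨k.val, lt_of_lt_of_le k.isLt h⟩

lemma mm_tru (α : Seq) (l : ℕ) {n m : ℕ} (h : n ≤ m) : mm α l n = tru h (mm α l m) := rfl

/-- truncation as a homomorphism of additive groups -/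
def truHom {n m : ℕ} (h : n ≤ m) : Un m →+ Un n where
  toFun := tru h
  map_zero' := rfl
  map_add' _ _ := rfl

lemma tru_surjective {n m : ℕ} (h : n ≤ m) : Function.Surjective (tru h) := by
  intro y
  refine ⟨fun k => if hk : k.val < n then y ⟨k.val, hk⟩ else 0, ?_⟩
  funext k
  simp [tru]

lemma tru_card {n m : ℕ} (h : n ≤ m) (y : Un n) :
    (univ.filter fun x : Un m => tru h x = y).card * Fintype.card (Un n)
      = Fintype.card (Un m) := by
  classical
  have h1 := Finset.card_eq_sum_card_fiberwise (f := tru h) (s := (univ : Finset (Un m)))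
    (t := (univ : Finset (Un n))) (fun _ _ => by simp)
  have h2 : ∀ y' : Un n, (univ.filter fun x : Un m => tru h x = y').card
      = (univ.filter fun x : Un m => tru h x = y).card := by
    intro y'
    exact AddMonoidHom.card_fiber_eq_of_mem_range (truHom h) (tru_surjective h y')
      (tru_surjective h y)
  rw [← Finset.card_univ (α := Un m), h1, Finset.sum_congr rfl (fun y' _ => h2 y'),
    Finset.sum_const, Finset.card_univ, smul_eq_mul, mul_comm]

/-! #### laws -/

variable {B L : ℕ}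

lemma ind_univ {Ω : Type*} (w : Ω → ℝ) : ind Set.univ w = w := Set.indicator_univ w

lemma mm_zero (α : Seq) (n : ℕ) : mm α 0 n = 0 := by
  funext k j
  have : ¬ (k.val = j.val) := by
    have := j.isLt
    omega
  simp [mm, pre, arr, row, Mst, this]

lemma mulU_zero {n : ℕ} (g : Un n) : mulU g 0 = g := by
  funext k j
  simp [mulU]

lemma mass_const_of {Ω A : Type*} [Fintype Ω] [DecidableEq A] (w : Ω → ℝ) (X : Ω → A) (a b : A)
    (h : ∀ ω, X ω = a) : mass w X b = if a = b then tot w else 0 := by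
  unfold mass tot
  by_cases hab : a = b
  · simp [h, hab]
  · simp [h, hab]

/-- the law of the array does not depend on the length of the word -/
lemma mass_law (hB : 0 < B) {l n : ℕ} (hl : l ≤ L) (x : Un n) :
    mass (uw B L) (fun ω => mm (ext ω) l n) x = lw B l n x := by
  classical
  have h1 := mass_past (B := B) (L := L) (n := n) (l := 0) (j := l) (by omega) Set.univ
    (fun _ _ _ => Iff.rfl) x
  rw [ind_univ, zero_add] at h1
  rw [h1]
  have h2 : ∀ y : Un n, mass (uw B L) (fun ω => mm (ext ω) 0 n) y = if (0 : Un n) = y then 1 else 0 := by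
    intro y
    rw [mass_const_of (uw B L) (fun ω => mm (ext ω) 0 n) 0 y (fun ω => mm_zero _ n), tot_uw hB]
  have h3 : ∀ g : Un n, (∑ y : Un n, if mulU g y = x then
      lw B l n g * mass (uw B L) (fun ω => mm (ext ω) 0 n) y else 0) = if g = x then lw B l n g else 0 := by
    intro g
    rw [Finset.sum_eq_single (0 : Un n)]
    · rw [mulU_zero, h2 0]
      simp
    · intro y _ hy
      rw [h2 y, if_neg (Ne.symm hy)]
      simp
    · intro h
      exact absurd (mem_univ _) h
  rw [Finset.sum_congr rfl (fun g _ => h3 g)]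
  simp

lemma lw_nonneg (B L n : ℕ) (x : Un n) : 0 ≤ lw B L n x :=
  mass_nonneg _ Evt.uw_nonneg _ _

/-- the letters after the past keep the bound for the density -/
lemma sup_past (hB : 0 < B) {l j n : ℕ} (hlj : l + j ≤ L) (G : Set (Wd B L)) (hG : Past l G)
    (M : ℝ) (h : ∀ y : Un n, mass (ind G (uw B L)) (fun ω => mm (ext ω) l n) y ≤ M) (x : Un n) :
    mass (ind G (uw B L)) (fun ω => mm (ext ω) (l + j) n) x ≤ M := by
  classical
  rw [mass_past hlj G hG x]
  have h1 : ∀ g : Un n, (∑ y : Un n, if mulU g y = x then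
      lw B j n g * mass (ind G (uw B L)) (fun ω => mm (ext ω) l n) y else 0) ≤ lw B j n g * M := by
    intro g
    obtain ⟨y₀, hy₀⟩ := (mulU_bijective g).2 x
    rw [Finset.sum_eq_single y₀]
    · rw [if_pos hy₀]
      exact mul_le_mul_of_nonneg_left (h y₀) (lw_nonneg _ _ _ _)
    · intro y _ hy
      rw [if_neg]
      intro h'
      exact hy ((mulU_bijective g).1 (h'.trans hy₀.symm))
    · intro h'
      exact absurd (mem_univ _) h'
  refine (Finset.sum_le_sum fun g _ => h1 g).trans ?_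
  rw [← Finset.sum_mul, lw_sum B j n hB, one_mul]

/-- a bound for the density bounds the entropy -/
lemma K0_le_sup {Ω A : Type*} [Fintype Ω] [Fintype A] (w : Ω → ℝ) (hw : ∀ ω, 0 ≤ w ω)
    (htot : tot w ≤ 1) (X : Ω → A) (R : ℝ) (hR : 1 ≤ R)
    (h : ∀ a, (Fintype.card A : ℝ) * mass w X a ≤ R) : K0 w X ≤ Real.log R + 1 := by
  rw [K0_eq]
  have hlR : 0 ≤ Real.log R := Real.log_nonneg hR
  have h1 : ∀ ω, w ω * Real.log (Fintype.card A * mass w X (X ω) / tot w) ≤
      w ω * (Real.log R + Real.log (1 / tot w)) := by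
    intro ω
    by_cases hz : w ω = 0
    · simp [hz]
    · have hp : 0 < w ω := lt_of_le_of_ne (hw ω) (Ne.symm hz)
      have ht : 0 < tot w := lt_of_lt_of_le hp (le_tot w hw ω)
      have hm := mass_pos w hw X hz
      have hA : (0 : ℝ) < Fintype.card A := by
        have : Nonempty A := ⟨X ω⟩
        exact_mod_cast Fintype.card_pos
      refine mul_le_mul_of_nonneg_left ?_ hp.le
      rw [← Real.log_mul (by positivity) (by positivity)]
      refine Real.log_le_log (by positivity) ?_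
      rw [mul_one_div]
      gcongr
      exact h _
  refine (Finset.sum_le_sum fun ω _ => h1 ω).trans ?_
  rw [← Finset.sum_mul]
  change tot w * (Real.log R + Real.log (1 / tot w)) ≤ _
  have ht0 : 0 ≤ tot w := tot_nonneg w hw
  have h2 : tot w * Real.log R ≤ Real.log R := by
    calc tot w * Real.log R ≤ 1 * Real.log R := mul_le_mul_of_nonneg_right htot hlR
      _ = Real.log R := one_mul _
  have h3 : tot w * Real.log (1 / tot w) ≤ 1 := by
    rcases eq_or_lt_of_le ht0 with h0 | h0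
    · rw [← h0]
      simp
    · have h4 := Real.log_le_sub_one_of_pos (x := 1 / tot w) (by positivity)
      calc tot w * Real.log (1 / tot w) ≤ tot w * (1 / tot w - 1) :=
            mul_le_mul_of_nonneg_left h4 h0.le
        _ = 1 - tot w := by field_simp
        _ ≤ 1 := by linarith
  linarith

lemma pr_mass {Ω A : Type*} [Fintype Ω] [Fintype A] (w : Ω → ℝ) (X : Ω → A) (bad : Set A)
    [DecidablePred (· ∈ bad)] :
    pr w {ω | X ω ∈ bad} = ∑ x, if x ∈ bad then mass w X x else 0 := by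
  classical
  have h1 := sum_eq_sum_mass w X (univ : Finset A) (fun _ _ => mem_univ _)
    (fun x => if x ∈ bad then (1 : ℝ) else 0)
  unfold pr tot
  refine Eq.trans ?_ (h1.trans ?_)
  · refine Finset.sum_congr rfl fun ω _ => ?_
    unfold ind
    rw [Set.indicator_apply]
    by_cases h : X ω ∈ bad
    · simp [h]
    · simp [h]
  · refine Finset.sum_congr rfl fun x _ => ?_
    by_cases h : x ∈ bad <;> simp [h]

lemma cp_nonneg (n l : ℕ) (E : Set (Wd B L)) (ω : Wd B L) : 0 ≤ cp n l E ω :=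
  div_nonneg (Evt.pr_nonneg _ _ Evt.uw_nonneg) (Evt.pr_nonneg _ _ Evt.uw_nonneg)

/-- on the event that the conditional probability of `E` is at least one half the law has at most
twice the weight of the law on `E` -/
lemma mass_cp (hB : 0 < B) (n l : ℕ) (E G : Set (Wd B L)) (hG : ∀ ω ∈ G, 1 / 2 ≤ cp n l E ω)
    (y : Un n) :
    mass (ind G (uw B L)) (fun ω => mm (ext ω) l n) y
      ≤ 2 * mass (ind E (uw B L)) (fun ω => mm (ext ω) l n) y := by
  classical
  set f : Wd B L → ℝ := fun ω => if mm (ext ω) l n = y then uw B L ω else 0 with hf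
  have h1 := cp_integral n l hB E f (by
    intro ω ω' h
    simp only [hf, h.mm_eq, uw])
  have h2 : tot (ind E f) = mass (ind E (uw B L)) (fun ω => mm (ext ω) l n) y := by
    unfold tot mass
    refine Finset.sum_congr rfl fun ω _ => ?_
    simp only [ind, Set.indicator_apply, hf]
    split_ifs <;> rfl
  rw [← h2, ← h1, Finset.mul_sum]
  unfold mass
  refine Finset.sum_le_sum fun ω _ => ?_
  simp only [ind, Set.indicator_apply, hf]
  have hc := cp_nonneg n l E ω
  have hu := Evt.uw_nonneg (B := B) (L := L) ω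
  by_cases hm : mm (ext ω) l n = y
  · by_cases hg : ω ∈ G
    · simp only [hm, hg, if_true]
      have := hG ω hg
      nlinarith
    · simp only [hm, hg, if_true, if_false]
      positivity
  · simp only [hm, if_false, zero_mul, mul_zero, le_refl]

/-- a bound for the density of many rows gives the same bound for fewer rows -/
lemma mass_tru (hB : 0 < B) {n m l : ℕ} (h : n ≤ m) (hl : l ≤ L) (bad : Set (Un m)) (R : ℝ)
    (hR : ∀ x ∉ bad, lw B l m x * (Fintype.card (Un m) : ℝ) ≤ R) (hR0 : 0 ≤ R) (y : Un n) :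
    (Fintype.card (Un n) : ℝ) * mass (ind {ω | mm (ext ω) l m ∉ bad} (uw B L))
      (fun ω => mm (ext ω) l n) y ≤ R := by
  classical
  have h1 := sum_eq_sum_mass (uw B L) (fun ω => mm (ext ω) l m) (univ : Finset (Un m))
    (fun _ _ => mem_univ _) (fun x => if x ∉ bad ∧ tru h x = y then (1 : ℝ) else 0)
  have h2 : mass (ind {ω | mm (ext ω) l m ∉ bad} (uw B L)) (fun ω => mm (ext ω) l n) y =
      ∑ x : Un m, mass (uw B L) (fun ω => mm (ext ω) l m) x *
        (if x ∉ bad ∧ tru h x = y then (1 : ℝ) else 0) := by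
    rw [← h1]
    unfold mass
    refine Finset.sum_congr rfl fun ω _ => ?_
    beta_reduce
    rw [mm_tru (ext ω) l h]
    simp only [ind, Set.indicator_apply, Set.mem_ofPred_eq]
    by_cases h3 : mm (ext ω) l m ∉ bad
    · by_cases h4 : tru h (mm (ext ω) l m) = y
      · simp [h3, h4]
      · simp [h4]
    · by_cases h4 : tru h (mm (ext ω) l m) = y
      · simp [h3]
      · simp [h4]
  have hcm : (0 : ℝ) < Fintype.card (Un m) := by exact_mod_cast Fintype.card_pos
  have hcn : (0 : ℝ) < Fintype.card (Un n) := by exact_mod_cast Fintype.card_pos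
  have h3 : ∑ x : Un m, mass (uw B L) (fun ω => mm (ext ω) l m) x *
        (if x ∉ bad ∧ tru h x = y then (1 : ℝ) else 0) ≤
      ∑ x : Un m, if tru h x = y then R / (Fintype.card (Un m) : ℝ) else 0 := by
    refine Finset.sum_le_sum fun x _ => ?_
    by_cases h5 : tru h x = y
    · by_cases h4 : x ∉ bad
      · rw [if_pos ⟨h4, h5⟩, if_pos h5, mul_one, mass_law hB hl, le_div_iff₀ hcm]
        exact hR x h4
      · rw [if_neg (fun h' => h4 h'.1), if_pos h5, mul_zero]
        positivity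
    · rw [if_neg (fun h' => h5 h'.2), if_neg h5, mul_zero]
  have h4 : (∑ x : Un m, if tru h x = y then R / (Fintype.card (Un m) : ℝ) else 0) =
      R / (Fintype.card (Un n) : ℝ) := by
    rw [← Finset.sum_filter, Finset.sum_const, nsmul_eq_mul]
    have h5 := tru_card h y
    have h6 : ((univ.filter fun x : Un m => tru h x = y).card : ℝ) * (Fintype.card (Un n) : ℝ)
        = (Fintype.card (Un m) : ℝ) := by exact_mod_cast h5
    rw [← h6]
    have h7 : ((univ.filter fun x : Un m => tru h x = y).card : ℝ) ≠ 0 := by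
      intro h8
      rw [h8, zero_mul] at h6
      exact hcm.ne h6
    field_simp
  rw [h2]
  calc (Fintype.card (Un n) : ℝ) * _ ≤ (Fintype.card (Un n) : ℝ) * (R / (Fintype.card (Un n) : ℝ)) :=
        mul_le_mul_of_nonneg_left (h3.trans h4.le) hcn.le
    _ = R := by field_simp

/-! #### the choice of the times -/

/-- a good number of letters for one level -/
lemma level_pick {B n : ℕ} (hB : 0 < B) (hn : n ≤ B + 1) {t W q R : ℝ} (ht : 0 ≤ t) (hW : 1 ≤ W)
    (hxW : 8 * (B * t) ≤ W ^ 2) (hq : 0 < q)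
    (h : ∑ x : Un n, (if R ≤ ct n t x * (Fintype.card (Un n) : ℝ) then ct n t x else 0) ≤ q) :
    ∃ (S : ℕ) (bad : Set (Un n)), |(S : ℝ) - B * t| ≤ W ∧
      (∀ L, S ≤ L → pr (uw B L) {ω | mm (ext ω) S n ∈ bad} ≤ 4 * q) ∧
      ∀ x ∉ bad, lw B S n x * (Fintype.card (Un n) : ℝ) ≤ 12 * W * R := by
  classical
  set bad : Set (Un n) := {x | R ≤ ct n t x * (Fintype.card (Un n) : ℝ)} with hbad
  have hBt : (0 : ℝ) ≤ B * t := by positivity
  obtain ⟨S, hS1, hS2, hS3⟩ := pois_pick (x := B * t) (W := W) (q := q) hBt hW hxW hq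
    (fun S => ∑ x : Un n, if x ∈ bad then lw B S n x else 0)
    (fun S => Finset.sum_nonneg fun x _ => by
      split
      · exact lw_nonneg _ _ _ _
      · exact le_rfl)
    (by
      intro s
      have h1 : ∑ S ∈ s, pois (B * t) S * ∑ x : Un n, (if x ∈ bad then lw B S n x else 0) =
          ∑ x : Un n, if x ∈ bad then ∑ S ∈ s, pois (B * t) S * lw B S n x else 0 := by
        simp only [Finset.mul_sum]
        rw [Finset.sum_comm]
        refine Finset.sum_congr rfl fun x _ => ?_
        by_cases hx : x ∈ bad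
        · simp [hx]
        · simp [hx]
      rw [h1]
      refine le_trans (Finset.sum_le_sum fun x _ => ?_) h
      by_cases hx : x ∈ bad
      · rw [if_pos hx, if_pos (show R ≤ ct n t x * (Fintype.card (Un n) : ℝ) from hx)]
        exact sum_le_hasSum s (fun S _ => mul_nonneg (pois_nonneg hBt S) (lw_nonneg _ _ _ _))
          (ct_hasSum B n hB hn ht x)
      · rw [if_neg hx, if_neg (show ¬ R ≤ ct n t x * (Fintype.card (Un n) : ℝ) from hx)])
  refine ⟨S, bad, hS1, ?_, ?_⟩
  · intro L hL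
    rw [pr_mass]
    refine le_trans (le_of_eq ?_) hS3
    refine Finset.sum_congr rfl fun x _ => ?_
    rw [mass_law hB hL]
  · intro x hx
    have h2 : pois (B * t) S * lw B S n x ≤ ct n t x :=
      le_hasSum (ct_hasSum B n hB hn ht x) S
        (fun S _ => mul_nonneg (pois_nonneg hBt S) (lw_nonneg _ _ _ _))
    have h3 : ct n t x * (Fintype.card (Un n) : ℝ) ≤ R := (not_le.1 hx).le
    have h4 : 1 / (12 * W) * lw B S n x ≤ ct n t x :=
      (mul_le_mul_of_nonneg_right hS2 (lw_nonneg _ _ _ _)).trans h2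
    have hc : (0 : ℝ) ≤ Fintype.card (Un n) := by positivity
    have hWp : 0 < W := by linarith
    have h5 : lw B S n x ≤ 12 * W * ct n t x := by
      have := mul_le_mul_of_nonneg_left h4 (show (0 : ℝ) ≤ 12 * W by positivity)
      have e : 12 * W * (1 / (12 * W) * lw B S n x) = lw B S n x := by
        field_simp
      rw [e] at this
      exact this
    calc lw B S n x * (Fintype.card (Un n) : ℝ) ≤ 12 * W * ct n t x * (Fintype.card (Un n) : ℝ) :=
          mul_le_mul_of_nonneg_right h5 hc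
      _ = 12 * W * (ct n t x * (Fintype.card (Un n) : ℝ)) := by ring
      _ ≤ 12 * W * R := mul_le_mul_of_nonneg_left h3 (by positivity)

/-! #### the function of the levels -/

/-- smallest function above `T` with increments at least `δ` -/
noncomputable def lam (T : ℕ → ℝ) (δ : ℝ) : ℕ → ℝ
  | 0 => T 0
  | n + 1 => max (lam T δ n + δ) (T (n + 1))

lemma le_lam (T : ℕ → ℝ) (δ : ℝ) (n : ℕ) : T n ≤ lam T δ n := by
  cases n with
  | zero => exact le_rfl
  | succ n => exact le_max_right _ _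

lemma lam_step (T : ℕ → ℝ) (δ : ℝ) (n : ℕ) : lam T δ n + δ ≤ lam T δ (n + 1) := le_max_left _ _

lemma lam_ex (T : ℕ → ℝ) (δ : ℝ) (n : ℕ) :
    ∃ n' ≤ n, lam T δ n = T n' + ((n : ℝ) - n') * δ := by
  induction n with
  | zero => exact ⟨0, le_rfl, by simp [lam]⟩
  | succ n ih =>
    obtain ⟨n', h1, h2⟩ := ih
    rcases le_total (lam T δ n + δ) (T (n + 1)) with h | h
    · exact ⟨n + 1, le_rfl, by
        simp only [lam]
        rw [max_eq_right h]
        simp⟩
    · refine ⟨n', by omega, ?_⟩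
      simp only [lam]
      rw [max_eq_left h, h2]
      push_cast
      ring

/-- the events of the first stage -/
def stEv {B L g : ℕ} (cm : ℕ) (S : ℕ → ℕ) (bad : (c : ℕ) → Set (Un (c * g))) (n l : ℕ) :
    Set (Wd B L) :=
  {ω | ∀ c ≤ cm, S c ≤ l → ∀ n'' ≤ n, n'' ≤ c * g →
    1 / 2 ≤ cp n'' (S c) {ω' : Wd B L | mm (ext ω') (S c) (c * g) ∉ bad c} ω}

lemma core {B L N g cm : ℕ} (hB : 0 < B) (u : ℝ) (hg : 0 < g) (hcm : 2 * N < cm * g + 1)
    (q R : ℝ) (hq : 0 ≤ q) (hR : 1 ≤ R) (S : ℕ → ℕ) (bad : (c : ℕ) → Set (Un (c * g)))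
    (h2 : ∀ c ≤ cm, ∀ L, S c ≤ L →
      pr (uw B L) {ω | mm (ext ω) (S c) (c * g) ∈ bad c} ≤ 4 * q)
    (h3 : ∀ c ≤ cm, ∀ x ∉ bad c, lw B (S c) (c * g) x * (Fintype.card (Un (c * g)) : ℝ) ≤ R) :
    Fam B L (lam (fun n => 1 + (S ((n + g - 1) / g) : ℝ)) (B / u)) 0 0 (2 * N)
      (Real.log (2 * R) + 1) ((cm + 1) * (8 * q)) (stEv cm S bad) := by
  refine ⟨?_, ?_, ?_, ?_⟩
  · intro n l _ ω ω' hs
    constructor
    · intro h c hc hcl n'' hn hn2
      rw [← cp_congr n'' (S c) _ (hs.mono hn hcl)]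
      exact h c hc hcl n'' hn hn2
    · intro h c hc hcl n'' hn hn2
      rw [cp_congr n'' (S c) _ (hs.mono hn hcl)]
      exact h c hc hcl n'' hn hn2
  · intro l n n' h ω hω c hc hcl n'' hn hn2
    exact hω c hc hcl n'' (hn.trans h) hn2
  · set Bd : ℕ → Set (Wd B L) := fun c => {ω | S c ≤ L ∧ ∃ n'' ≤ c * g,
      1 / 2 ≤ cp n'' (S c) {ω' : Wd B L | mm (ext ω') (S c) (c * g) ∉ bad c}ᶜ ω} with hBd
    have h4 := Evt.pr_biUnion_le (uw B L) Evt.uw_nonneg (range (cm + 1)) Bd (8 * q) (by
      intro c hc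
      have hc' : c ≤ cm := by
        have := mem_range.1 hc
        omega
      by_cases hS : S c ≤ L
      · have h5 := doob (S c) (c * g) hB
          {ω' : Wd B L | mm (ext ω') (S c) (c * g) ∉ bad c}ᶜ (1 / 2) (by norm_num)
        have h6 : ({ω' : Wd B L | mm (ext ω') (S c) (c * g) ∉ bad c}ᶜ) =
            {ω | mm (ext ω) (S c) (c * g) ∈ bad c} := by
          ext ω
          simp
        have h7 := h2 c hc' L hS
        rw [← h6] at h7
        have h8 : pr (uw B L) (Bd c) ≤ pr (uw B L) {ω | ∃ n'' ≤ c * g, 1 / 2 ≤ cp n'' (S c)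
            {ω' : Wd B L | mm (ext ω') (S c) (c * g) ∉ bad c}ᶜ ω} :=
          Evt.pr_mono _ Evt.uw_nonneg fun ω hω => hω.2
        linarith
      · have h5 : Bd c = ∅ := by
          ext ω
          simp [hBd, hS]
        rw [h5]
        have h6 : pr (uw B L) (∅ : Set (Wd B L)) = 0 := by
          simp [pr, tot, ind]
        rw [h6]
        positivity)
    rw [card_range] at h4
    push_cast at h4
    refine le_trans (Evt.pr_mono _ Evt.uw_nonneg ?_) h4
    rintro ω ⟨n, l, hl, -, hω⟩
    have h5 : ∃ c ≤ cm, S c ≤ l ∧ ∃ n'' ≤ n, n'' ≤ c * g ∧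
        ¬ (1 / 2 ≤ cp n'' (S c) {ω' : Wd B L | mm (ext ω') (S c) (c * g) ∉ bad c} ω) := by
      by_contra hcon
      apply hω
      intro c hc hcl n'' hn hn2
      by_contra h9
      exact hcon ⟨c, hc, hcl, n'', hn, hn2, h9⟩
    obtain ⟨c, hc, hcl, n'', hn, hn2, h9⟩ := h5
    refine ⟨c, mem_range.2 (by omega), hcl.trans hl, n'', hn2, ?_⟩
    rw [cp_compl n'' (S c) hB]
    push Not at h9
    linarith
  · intro n l hl hreg
    obtain ⟨hr1, hr2⟩ := hreg
    rw [add_zero, add_zero] at hr1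
    rw [add_zero] at hr2
    set c := (n + g - 1) / g with hc
    have hnc : n ≤ c * g := by
      have h1 := Nat.div_add_mod (n + g - 1) g
      have h2 := Nat.mod_lt (n + g - 1) hg
      rw [← hc, mul_comm] at h1
      omega
    have hcc : c ≤ cm := by
      by_contra hcon
      push Not at hcon
      have h1 : (cm + 1) * g ≤ c * g := Nat.mul_le_mul_right g hcon
      have h2 : c * g ≤ n + g - 1 := Nat.div_mul_le_self _ _
      have h3 : (cm + 1) * g = cm * g + g := by ring
      omega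
    have hSl : S c ≤ l := by
      have h1 := le_lam (fun n => 1 + (S ((n + g - 1) / g) : ℝ)) (B / u) n
      have h2 : (S c : ℝ) ≤ l := by
        have : 1 + (S c : ℝ) ≤ l := h1.trans hr1
        linarith
      exact_mod_cast h2
    set E : Set (Wd B L) := {ω' : Wd B L | mm (ext ω') (S c) (c * g) ∉ bad c} with hE
    set G' : Set (Wd B L) := {ω | 1 / 2 ≤ cp n (S c) E ω} with hG'
    have hlev : Lev n (S c) G' := by
      intro ω ω' hs
      simp only [hG', Set.mem_ofPred_eq, cp_congr n (S c) E hs]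
    have hsub : stEv cm S bad n l ⊆ G' := fun ω hω => hω c hcc hSl n le_rfl hnc
    have hcn : (0 : ℝ) < Fintype.card (Un n) := by exact_mod_cast Fintype.card_pos
    have hM : ∀ y : Un n, mass (ind G' (uw B L)) (fun ω => mm (ext ω) (S c) n) y ≤
        2 * R / (Fintype.card (Un n) : ℝ) := by
      intro y
      have h4 := mass_cp hB n (S c) E G' (fun ω hω => hω) y
      have h5 := mass_tru hB hnc (hSl.trans hl) (bad c) R (h3 c hcc) (by linarith) y
      rw [le_div_iff₀ hcn]
      have h6 : mass (ind E (uw B L)) (fun ω => mm (ext ω) (S c) n) y *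
          (Fintype.card (Un n) : ℝ) ≤ R := by
        rw [mul_comm]
        exact h5
      nlinarith
    have hM2 : ∀ x : Un n, mass (ind G' (uw B L)) (fun ω => mm (ext ω) l n) x ≤
        2 * R / (Fintype.card (Un n) : ℝ) := by
      intro x
      have h4 := sup_past (l := S c) (j := l - S c) (n := n) hB (by omega) G' hlev.past _ hM x
      rwa [show S c + (l - S c) = l by omega] at h4
    refine K0_le_sup _ (Evt.ind_nonneg _ _ Evt.uw_nonneg) ?_ _ (2 * R) (by linarith) ?_
    · exact (Evt.tot_ind_le _ _ Evt.uw_nonneg).trans (tot_uw hB).le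
    · intro x
      have h4 : mass (ind (stEv cm S bad n l) (uw B L)) (fun ω => mm (ext ω) l n) x ≤
          mass (ind G' (uw B L)) (fun ω => mm (ext ω) l n) x :=
        mass_le_mass _ _ (fun ω => Evt.ind_mono hsub _ Evt.uw_nonneg ω) _ _
      have h5 := h4.trans (hM2 x)
      rw [le_div_iff₀ hcn] at h5
      linarith

end Strt

open Strt in
theorem start (u : ℝ) (hu0 : 0 < u) (C CL h d s₀ q₀ : ℝ) (hC : 0 < C) (hCL : 1 ≤ CL) (hh : 0 < h)
    (hh1 : h < 1) (hd : 0 < d) (hs₀ : 0 < s₀) (hq₀ : 0 < q₀) :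
    ∃ N₀ : ℕ, ∀ N ≥ N₀, ∀ (B L : ℕ), B = 4 * N → (L : ℝ) ≤ CL * N * B →
      ∀ a : ℕ → ℝ, (∀ n ≤ 3 * N, 0 ≤ a n ∧ a n ≤ C * N ∧ dd n (a n) ≤ 1 - h) →
        ∃ Λ : ℕ → ℝ, 0 < Λ 0 ∧ (∀ n, Λ n + B / u ≤ Λ (n + 1)) ∧
          (∀ n ≤ 2 * N, ∀ τ : ℝ, (∀ n' : ℕ, (n' : ℝ) ≤ n + d * N →
              a n' + ((n : ℝ) + d * N - n') / u ≤ τ) → Λ n ≤ B * (τ + d * N)) ∧
          ∃ G : ℕ → ℕ → Set (Wd B L), Fam B L Λ 0 0 (2 * N) (s₀ * N ^ 2) q₀ G := by
  -- constants
  set d₁ : ℝ := min d 1 with hd₁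
  have hd₁0 : 0 < d₁ := lt_min hd one_pos
  have hd₁1 : d₁ ≤ 1 := min_le_right _ _
  have hd₁d : d₁ ≤ d := min_le_left _ _
  set q : ℝ := q₀ / (8 * (16 / d₁ + 3)) with hq
  have hq0 : 0 < q := by positivity
  obtain ⟨N₁, hN₁⟩ := soft h (s₀ / 18) q C hh hh1 (by positivity) hq0 hC
  refine ⟨max N₁ (max (Nat.ceil (8 / d₁)) (max (Nat.ceil ((1 + 3 * (1 + C)) / (4 * d)))
    (Nat.ceil (2 * (72 * (1 + C) + 1) / s₀)))) + 1, ?_⟩
  intro N hN B L hBN _ a ha
  have hN1 : N₁ ≤ 3 * N := by
    have := le_max_left N₁ (max (Nat.ceil (8 / d₁)) (max (Nat.ceil ((1 + 3 * (1 + C)) / (4 * d)))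
      (Nat.ceil (2 * (72 * (1 + C) + 1) / s₀))))
    omega
  have hN0 : 1 ≤ N := by omega
  have hNR : (1 : ℝ) ≤ N := by exact_mod_cast hN0
  have hN2 : 8 / d₁ ≤ N := by
    have h1 : Nat.ceil (8 / d₁) ≤ N := by omega
    exact (Nat.le_ceil _).trans (by exact_mod_cast h1)
  have hN3 : (1 + 3 * (1 + C)) / (4 * d) ≤ N := by
    have h1 : Nat.ceil ((1 + 3 * (1 + C)) / (4 * d)) ≤ N := by omega
    exact (Nat.le_ceil _).trans (by exact_mod_cast h1)
  have hN4 : 2 * (72 * (1 + C) + 1) / s₀ ≤ N := by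
    have h1 : Nat.ceil (2 * (72 * (1 + C) + 1) / s₀) ≤ N := by omega
    exact (Nat.le_ceil _).trans (by exact_mod_cast h1)
  have hB : 0 < B := by omega
  have hBR : (B : ℝ) = 4 * N := by
    rw [hBN]
    push_cast
    ring
  -- the grid
  set g : ℕ := Nat.ceil (d₁ * N / 8) with hg
  have hdN : 8 ≤ d₁ * N := by
    rw [div_le_iff₀ hd₁0] at hN2
    linarith
  have hg0 : 0 < g := Nat.ceil_pos.2 (by positivity)
  have hg1 : d₁ * N / 8 ≤ g := Nat.le_ceil _
  have hg2 : (g : ℝ) < d₁ * N / 8 + 1 := Nat.ceil_lt_add_one (by positivity)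
  have hg3 : (g : ℝ) ≤ d₁ * N / 4 := by linarith
  have hgN : g ≤ N := by
    have : (g : ℝ) ≤ N := by nlinarith
    exact_mod_cast this
  set cm : ℕ := (2 * N + g - 1) / g with hcm
  have hcm1 : 2 * N < cm * g + 1 := by
    have h1 := Nat.div_add_mod (2 * N + g - 1) g
    have h2 := Nat.mod_lt (2 * N + g - 1) hg0
    rw [← hcm, mul_comm] at h1
    omega
  have hcm2 : cm * g ≤ 2 * N + g - 1 := Nat.div_mul_le_self _ _
  have hcm3 : ((cm : ℝ) + 1) ≤ 16 / d₁ + 3 := by
    have h1 : (cm : ℝ) * g ≤ 2 * N + g := by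
      have : cm * g ≤ 2 * N + g := by omega
      exact_mod_cast this
    have hgR : (0 : ℝ) < g := by exact_mod_cast hg0
    have h2 : (cm : ℝ) ≤ 2 * N / g + 1 := by
      rw [← sub_le_iff_le_add, le_div_iff₀ hgR]
      linarith
    have h3 : 2 * (N : ℝ) / g ≤ 16 / d₁ := by
      rw [div_le_div_iff₀ hgR hd₁0]
      linarith
    linarith
  -- the window
  set W : ℝ := 3 * (1 + C) * N with hW
  have hW1 : 1 ≤ W := by
    have h1 : (0 : ℝ) ≤ C * N := by positivity
    have h2 : W = 3 * N + 3 * (C * N) := by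
      rw [hW]
      ring
    rw [h2]
    linarith
  set R : ℝ := Real.exp (s₀ / 18 * ((3 * N : ℕ) : ℝ) ^ 2) with hR
  have hR1 : 1 ≤ R := Real.one_le_exp (by positivity)
  have hpick : ∀ c : ℕ, ∃ (S : ℕ) (bad : Set (Un (c * g))), c ≤ cm →
      |(S : ℝ) - B * a (c * g)| ≤ W ∧
      (∀ L, S ≤ L → pr (uw B L) {ω | mm (ext ω) S (c * g) ∈ bad} ≤ 4 * q) ∧
      ∀ x ∉ bad, lw B S (c * g) x * (Fintype.card (Un (c * g)) : ℝ) ≤ 12 * W * R := by
    intro c
    by_cases hc : c ≤ cm
    · have hcg : c * g ≤ 3 * N := by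
        have : c * g ≤ cm * g := Nat.mul_le_mul_right g hc
        omega
      obtain ⟨ha1, ha2, ha3⟩ := ha (c * g) hcg
      have h1 := hN₁ (3 * N) hN1 (c * g) hcg (a (c * g)) ha1 (by
        push_cast
        have : (0 : ℝ) ≤ C * N := by positivity
        linarith) ha3
      have h2 : 8 * ((B : ℝ) * a (c * g)) ≤ W ^ 2 := by
        have h3 : 8 * ((B : ℝ) * a (c * g)) ≤ 32 * C * N ^ 2 := by
          rw [hBR]
          have : (N : ℝ) * a (c * g) ≤ N * (C * N) := mul_le_mul_of_nonneg_left ha2 (by positivity)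
          nlinarith
        have h4 : W ^ 2 = 9 * (1 + C) ^ 2 * N ^ 2 := by
          rw [hW]
          ring
        have h5 : 32 * C ≤ 9 * (1 + C) ^ 2 := by nlinarith [sq_nonneg (1 - C)]
        rw [h4]
        exact h3.trans (mul_le_mul_of_nonneg_right h5 (by positivity))
      obtain ⟨S, bad, h3, h4, h5⟩ := level_pick (B := B) (n := c * g) hB (by omega) ha1 hW1 h2 hq0 h1
      exact ⟨S, bad, fun _ => ⟨h3, h4, h5⟩⟩
    · exact ⟨0, ∅, fun h => absurd h hc⟩
  choose S bad hS using hpick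
  have hfam := core (L := L) (N := N) (g := g) (cm := cm) hB u hg0 hcm1 q (12 * W * R) hq0.le
    (by nlinarith) S bad (fun c hc => (hS c hc).2.1) (fun c hc => (hS c hc).2.2)
  refine ⟨lam (fun n => 1 + (S ((n + g - 1) / g) : ℝ)) (B / u), ?_, ?_, ?_, stEv cm S bad, ?_⟩
  · simp only [lam]
    positivity
  · intro n
    exact lam_step _ _ n
  · intro n hn τ hτ
    obtain ⟨n', hn', hlam⟩ := lam_ex (fun n => 1 + (S ((n + g - 1) / g) : ℝ)) (B / u) n
    rw [hlam]
    set c := (n' + g - 1) / g with hc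
    have h1 : n' ≤ c * g := by
      have h1 := Nat.div_add_mod (n' + g - 1) g
      have h2 := Nat.mod_lt (n' + g - 1) hg0
      rw [← hc, mul_comm] at h1
      omega
    have h2 : c * g ≤ n' + g - 1 := Nat.div_mul_le_self _ _
    have hcc : c ≤ cm := by
      by_contra hcon
      push Not at hcon
      have h1 : (cm + 1) * g ≤ c * g := Nat.mul_le_mul_right g hcon
      have h3 : (cm + 1) * g = cm * g + g := by ring
      omega
    have h3 := (hS c hcc).1
    have h4 : (S c : ℝ) ≤ B * a (c * g) + W := by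
      have := (abs_le.1 h3).2
      linarith
    have h2R : ((c * g : ℕ) : ℝ) ≤ n' + g := by
      have : c * g ≤ n' + g := by omega
      exact_mod_cast this
    have hn'R : (n' : ℝ) ≤ n := by exact_mod_cast hn'
    have hgd : (g : ℝ) ≤ d * N := by
      have h5 : d₁ * N ≤ d * N := mul_le_mul_of_nonneg_right hd₁d (by positivity)
      linarith
    have h5 := hτ (c * g) (by linarith)
    have h6 : ((n : ℝ) - n') / u ≤ ((n : ℝ) + d * N - ((c * g : ℕ) : ℝ)) / u :=
      div_le_div_of_nonneg_right (by linarith) hu0.le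
    have h7 : ((n : ℝ) - n') * (B / u) ≤ B * (((n : ℝ) + d * N - ((c * g : ℕ) : ℝ)) / u) := by
      calc ((n : ℝ) - n') * (B / u) = B * (((n : ℝ) - n') / u) := by ring
        _ ≤ _ := mul_le_mul_of_nonneg_left h6 (by positivity)
    have h8 : B * (a (c * g) + ((n : ℝ) + d * N - ((c * g : ℕ) : ℝ)) / u) ≤ B * τ :=
      mul_le_mul_of_nonneg_left h5 (by positivity)
    have h9 : 1 + W ≤ B * (d * N) := by
      rw [div_le_iff₀ (by positivity)] at hN3
      have h10 : 1 + W ≤ (1 + 3 * (1 + C)) * N := by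
        rw [hW]
        nlinarith
      have h11 : (1 + 3 * (1 + C)) * N ≤ (N * (4 * d)) * N :=
        mul_le_mul_of_nonneg_right hN3 (by positivity)
      rw [hBR]
      nlinarith
    have h12 : (B : ℝ) * (τ + d * N) = B * τ + B * (d * N) := by ring
    rw [h12]
    have h13 : (B : ℝ) * (a (c * g) + ((n : ℝ) + d * N - ((c * g : ℕ) : ℝ)) / u) =
      B * a (c * g) + B * (((n : ℝ) + d * N - ((c * g : ℕ) : ℝ)) / u) := by ring
    rw [h13] at h8
    linarith
  · refine ⟨hfam.lev, hfam.anti, hfam.loss.trans ?_, fun n l hl hr => (hfam.ent n l hl hr).trans ?_⟩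
    · have h1 : ((cm : ℝ) + 1) * (8 * q) ≤ (16 / d₁ + 3) * (8 * q) :=
        mul_le_mul_of_nonneg_right hcm3 (by positivity)
      refine h1.trans (le_of_eq ?_)
      rw [hq]
      have : 16 / d₁ + 3 ≠ 0 := by positivity
      field_simp
    · have hWp : 0 < W := by linarith
      have hRp : 0 < R := by linarith
      have h1 : Real.log (2 * (12 * W * R)) = Real.log (24 * W) + s₀ / 18 * ((3 * N : ℕ) : ℝ) ^ 2 := by
        rw [show 2 * (12 * W * R) = 24 * W * R by ring, Real.log_mul (by positivity) (by positivity),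
          hR, Real.log_exp]
      have h2 : Real.log (24 * W) ≤ 24 * W := (Real.log_le_sub_one_of_pos (by positivity)).trans
        (by linarith)
      have h3 : s₀ / 18 * ((3 * N : ℕ) : ℝ) ^ 2 = s₀ / 2 * N ^ 2 := by
        push_cast
        ring
      rw [h1, h3]
      rw [div_le_iff₀ hs₀] at hN4
      have h4 : 24 * W + 1 ≤ (72 * (1 + C) + 1) * N := by
        rw [hW]
        nlinarith
      have h5 : 2 * (72 * (1 + C) + 1) * N ≤ N * s₀ * N := mul_le_mul_of_nonneg_right hN4 (by positivity)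
      nlinarith

end Pool.Agent.CutSeq
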