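import Pool.Agent.CutSeq.Iter
import Pool.Agent.CutSeq.Start
import Pool.Agent.CutSeq.Fin

/-! Row THB: Theorem B for `dd`. -/

set_option autoImplicit false

namespace Pool.Agent.CutSeq

open Finset Filter Topology

/-- Theorem B at one value of the bound -/
theorem thmB_aux (u : ℝ) (hu0 : 0 < u) (hu : u < Pool.Agent.UTM.Es.vv) (C d h e : ℝ) (hC : 0 < C)
    (hd : 0 < d) (hd1 : d ≤ 1) (hh : 0 < h) (hh1 : h < 1) (he : 0 < e) (C' : ℝ) (hC' : 1 ≤ C') :
    ∃ N₀ : ℕ, ∀ N ≥ N₀, ∀ a : ℕ → ℝ, (∀ n ≤ 3 * N, 0 ≤ a n ∧ a n ≤ C * N ∧ dd n (a n) ≤ 1 - h) →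
      ∀ τ : ℝ, 0 ≤ τ → τ ≤ C' * N →
        (∀ n' : ℕ, (n' : ℝ) ≤ (1 + d) * N → a n' + ((1 + d) * N - n') / u ≤ τ) →
        dd N (τ + d * N) ≤ e := by
  obtain ⟨c, hc0, hc⟩ := gap
  -- constants
  set e₀ : ℝ := (min (c * d / 2) (e / 8)) ^ 2 with he₀
  have hm0 : 0 < min (c * d / 2) (e / 8) := lt_min (by positivity) (by positivity)
  set ρ : ℝ := min (c * d / 2) (e / 8) with hρ
  have he₀0 : 0 < e₀ := by rw [he₀]; positivity
  have hd16 : 0 < d / 16 := by positivity
  obtain ⟨s₀, hs₀, q₀, hq₀, N₁, hiter⟩ := iteration u hu0 hu (C' + 2) (by linarith) e₀ (d / 16)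
    (e / 4) he₀0 hd16 (by positivity)
  obtain ⟨N₂, hstart⟩ := start u hu0 C (C' + 2) h (d / 16) s₀ q₀ hC (by linarith) hh hh1 hd16 hs₀ hq₀
  -- limits
  have hlim1 : ∀ᶠ N : ℕ in atTop, 4 * (C' + 1) / (d ^ 2 * (N : ℝ) ^ 2) ≤ e / 8 := by
    have h1 : Tendsto (fun N : ℕ => 4 * (C' + 1) / (d ^ 2 * (N : ℝ) ^ 2)) atTop (𝓝 0) := by
      apply Tendsto.div_atTop tendsto_const_nhds
      apply Tendsto.const_mul_atTop (by positivity)
      exact (tendsto_pow_atTop (by norm_num)).comp tendsto_natCast_atTop_atTop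
    exact h1.eventually_le_const (by positivity)
  have hlim2 : ∀ᶠ N : ℕ in atTop, 1 / (ρ * (N : ℝ)) ≤ e / 8 := by
    have h1 : Tendsto (fun N : ℕ => 1 / (ρ * (N : ℝ))) atTop (𝓝 0) := by
      apply Tendsto.div_atTop tendsto_const_nhds
      exact Tendsto.const_mul_atTop (by positivity) tendsto_natCast_atTop_atTop
    exact h1.eventually_le_const (by positivity)
  have hlim3 : ∀ᶠ N : ℕ in atTop, Real.exp (-(c * d / 4 * (N : ℝ))) ≤ e / 8 := by
    have h1 : Tendsto (fun N : ℕ => Real.exp (-(c * d / 4 * (N : ℝ)))) atTop (𝓝 0) := by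
      apply Real.tendsto_exp_neg_atTop_nhds_zero.comp
      exact Tendsto.const_mul_atTop (by positivity) tendsto_natCast_atTop_atTop
    exact h1.eventually_le_const (by positivity)
  have hlim4 : ∀ᶠ N : ℕ in atTop, 2 / d ≤ (N : ℝ) :=
    tendsto_natCast_atTop_atTop.eventually_ge_atTop _
  obtain ⟨N₃, hN₃⟩ := eventually_atTop.1 (hlim1.and (hlim2.and (hlim3.and hlim4)))
  refine ⟨max (max N₁ N₂) (max N₃ 1), ?_⟩
  intro N hN a ha τ hτ0 hτC hτ
  have hNN₁ : N₁ ≤ N := le_trans (le_trans (le_max_left _ _) (le_max_left _ _)) hN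
  have hNN₂ : N₂ ≤ N := le_trans (le_trans (le_max_right _ _) (le_max_left _ _)) hN
  have hNN₃ : N₃ ≤ N := le_trans (le_trans (le_max_left _ _) (le_max_right _ _)) hN
  have hN1 : 1 ≤ N := le_trans (le_trans (le_max_right _ _) (le_max_right _ _)) hN
  obtain ⟨hl1, hl2, hl3, hl4⟩ := hN₃ N hNN₃
  have hNR : (1 : ℝ) ≤ N := by exact_mod_cast hN1
  have hNpos : (0 : ℝ) < N := by linarith
  have hdN : 2 ≤ d * N := by
    rw [div_le_iff₀ hd] at hl4
    linarith
  -- the system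
  set B : ℕ := 4 * N with hBdef
  have hBR : (B : ℝ) = 4 * N := by rw [hBdef]; push_cast; ring
  have hB0 : 0 < B := by omega
  have hBR0 : (0 : ℝ) < B := by exact_mod_cast hB0
  set L : ℕ := ⌈(B : ℝ) * (τ + d / 8 * N)⌉₊ with hL
  have hLle : (L : ℝ) ≤ (C' + 2) * N * B := by
    have h1 : (L : ℝ) < B * (τ + d / 8 * N) + 1 := Nat.ceil_lt_add_one (by positivity)
    have h2 : (B : ℝ) * (τ + d / 8 * N) ≤ B * (C' * N + 1 / 8 * N) := by
      apply mul_le_mul_of_nonneg_left _ hBR0.le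
      have : d / 8 * N ≤ 1 / 8 * N := by
        apply mul_le_mul_of_nonneg_right _ hNpos.le
        linarith
      linarith
    have h3 : (1 : ℝ) ≤ B * N := by
      have : (1 : ℝ) ≤ B := by exact_mod_cast hB0
      nlinarith
    nlinarith
  obtain ⟨Λ, hΛ0, hΛ, hΛle, G, hG⟩ := hstart N hNN₂ B L hBdef hLle a ha
  obtain ⟨r, y, q, G', hr0, hr, hy, hq, hG'⟩ := hiter N hNN₁ B L hBdef hLle Λ hΛ0 hΛ G hG
  -- the final time in letters
  have hyR : (y : ℝ) ≤ d / 16 * N := hy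
  have hyN : y ≤ N := by
    have : (y : ℝ) ≤ N := by nlinarith
    exact_mod_cast this
  have hΛN : Λ (N + y) ≤ B * (τ + d / 16 * N) := by
    apply hΛle (N + y) (by omega) τ
    intro n' hn'
    push_cast at hn' ⊢
    have hle : (N : ℝ) + y + d / 16 * N ≤ (1 + d) * N := by nlinarith
    have h1 := hτ n' (le_trans hn' hle)
    have h2 : ((N : ℝ) + y + d / 16 * N - n') / u ≤ ((1 + d) * N - n') / u := by
      apply div_le_div_of_nonneg_right _ hu0.le
      linarith
    linarith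
  set l : ℕ := ⌈Λ (N + y) + r⌉₊ with hl
  have hΛmono : ∀ n, 0 < Λ n := by
    intro n
    induction n with
    | zero => exact hΛ0
    | succ n ih =>
        have := hΛ n
        have : 0 < (B : ℝ) / u := by positivity
        linarith [hΛ n]
  have hΛr : Λ (N + y) + r ≤ B * (τ + d / 8 * N) := by
    have : d / 16 * N * B + B * (τ + d / 16 * N) = B * (τ + d / 8 * N) := by ring
    linarith
  have hlL : l ≤ L := Nat.ceil_mono hΛr
  have hreg : Reg Λ r y (2 * N) N l := by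
    refine ⟨Nat.le_ceil _, by omega⟩
  have hK := hG'.ent N l hlL hreg
  have hloss : pr (uw B L) (G' N l)ᶜ ≤ e / 4 := by
    refine le_trans ?_ (le_trans hG'.loss hq)
    unfold pr tot ind
    apply Finset.sum_le_sum
    intro ω _
    apply Set.indicator_le_indicator_of_subset
    · intro ω' hω'
      exact ⟨N, l, hlL, hreg, hω'⟩
    · intro ω'
      unfold uw
      positivity
  have hpast : Past l (G' N l) := (hG'.lev N l hlL).past
  have hfin := finish c hc B L N l hB0 (by omega) hlL (G' N l) hpast (e₀ * N) (e / 4) (ρ * N)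
    hK hloss (by positivity) (τ + d / 2 * N) (d / 2 * N) (by positivity) (by positivity)
  have hts : τ + d / 2 * N + d / 2 * N = τ + d * N := by ring
  rw [hts] at hfin
  refine le_trans hfin ?_
  -- the tail
  have htail : ∑ j ∈ range l, pois (B * (τ + d / 2 * N)) j ≤ e / 8 := by
    have hW : 0 < (B : ℝ) * (d / 4 * N) := by positivity
    have h1 := pois_tail (x := B * (τ + d / 2 * N)) (W := B * (d / 4 * N)) (by positivity) hW (range l)
      (by
        intro j hj
        have hj1 : j < l := Finset.mem_range.mp hj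
        have hj2 : (j : ℝ) < Λ (N + y) + r := by
          rw [hl] at hj1
          exact Nat.lt_ceil.mp hj1
        have hj3 : (j : ℝ) ≤ B * (τ + d / 8 * N) := by linarith
        rw [abs_sub_comm]
        apply le_trans _ (le_abs_self _)
        have h4 : (B : ℝ) * (d / 4 * N) + B * (τ + d / 8 * N) ≤ B * (τ + d / 2 * N) := by
          rw [← mul_add]
          apply mul_le_mul_of_nonneg_left _ hBR0.le
          have : 0 ≤ d * N := by positivity
          linarith
        linarith)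
    refine le_trans h1 (le_trans ?_ hl1)
    rw [div_le_div_iff₀ (by positivity) (by positivity)]
    have h5 : τ + d / 2 * N ≤ (C' + 1) * N := by nlinarith
    have h6 : (B : ℝ) * (τ + d / 2 * N) * (d ^ 2 * (N : ℝ) ^ 2)
        ≤ B * ((C' + 1) * N) * (d ^ 2 * (N : ℝ) ^ 2) := by
      apply mul_le_mul_of_nonneg_right _ (by positivity)
      exact mul_le_mul_of_nonneg_left h5 hBR0.le
    refine le_trans h6 ?_
    rw [hBR]
    have h7 : 4 * (C' + 1) * (4 * (N : ℝ) * (d / 4 * N)) ^ 2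
        = 4 * N * ((C' + 1) * N) * (d ^ 2 * (N : ℝ) ^ 2) := by ring
    rw [h7]
  -- truncation
  have htr : (e₀ * N + 1) / (ρ * N) ≤ e / 8 + e / 8 := by
    have h1 : (e₀ * N + 1) / (ρ * N) = ρ + 1 / (ρ * N) := by
      rw [he₀]
      field_simp
    rw [h1]
    have h2 : ρ ≤ e / 8 := min_le_right _ _
    linarith
  -- the exponential
  have hexp : Real.exp (ρ * N / 2 - c * (d / 2 * N)) ≤ e / 8 := by
    refine le_trans (Real.exp_le_exp.mpr ?_) hl3
    have h1 : ρ ≤ c * d / 2 := min_le_left _ _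
    have h2 : ρ * N ≤ c * d / 2 * N := mul_le_mul_of_nonneg_right h1 hNpos.le
    have : 0 ≤ c * d * N := by positivity
    linarith
  linarith

theorem thmB (u : ℝ) (hu0 : 0 < u) (hu : u < Pool.Agent.UTM.Es.vv) (C d h e : ℝ) (hC : 0 < C)
    (hd : 0 < d) (hd1 : d ≤ 1) (hh : 0 < h) (hh1 : h < 1) (he : 0 < e) :
    ∃ N₀ : ℕ, ∀ N ≥ N₀, ∀ a : ℕ → ℝ, (∀ n ≤ 3 * N, 0 ≤ a n ∧ a n ≤ C * N ∧ dd n (a n) ≤ 1 - h) →
      ∀ τ : ℝ, (∀ n' : ℕ, (n' : ℝ) ≤ (1 + d) * N → a n' + ((1 + d) * N - n') / u ≤ τ) →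
        dd N (τ + d * N) ≤ e := by
  obtain ⟨N₀, h⟩ := thmB_aux u hu0 hu C d h e hC hd hd1 hh hh1 he (C + 2 / u + 1)
    (by have : 0 < 2 / u := by positivity
        linarith)
  refine ⟨N₀, fun N hN a ha τ hτ => ?_⟩
  set τ₀ : ℝ := min τ ((C + 2 / u + 1) * N) with hτ₀
  have hNR : (0 : ℝ) ≤ N := Nat.cast_nonneg N
  have h0 : 0 ≤ τ := by
    have h1 := hτ 0 (by push_cast; positivity)
    have h2 := (ha 0 (by omega)).1
    have h3 : 0 ≤ ((1 + d) * (N : ℝ) - (0 : ℕ)) / u := by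
      push_cast
      rw [sub_zero]
      positivity
    linarith
  have hpos2 : 0 < 2 / u := by positivity
  have h1 : 0 ≤ τ₀ := le_min h0 (by positivity)
  have h2 := h N hN a ha τ₀ h1 (min_le_right _ _) (by
    intro n' hn'
    apply le_min (hτ n' hn')
    have hn3 : n' ≤ 3 * N := by
      have : (n' : ℝ) ≤ 3 * N := by nlinarith
      exact_mod_cast this
    have h3 := (ha n' hn3).2.1
    have h4 : ((1 + d) * (N : ℝ) - n') / u ≤ 2 / u * N := by
      rw [div_mul_eq_mul_div]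
      apply div_le_div_of_nonneg_right _ hu0.le
      have : (0 : ℝ) ≤ n' := Nat.cast_nonneg n'
      nlinarith
    have h5 : (C + 2 / u + 1) * (N : ℝ) = C * N + 2 / u * N + N := by ring
    linarith)
  refine le_trans (dd_antitone N (by positivity) ?_) h2
  have := min_le_left τ ((C + 2 / u + 1) * (N : ℝ))
  linarith

end Pool.Agent.CutSeq
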