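import Pool.Agent.CutSeq.Lists
import Pool.Agent.CutSeq.Tra0
import Pool.Agent.CutSeq.Back

/-! Row TRA, preparations for the transport inequality: the slab word, independence of past and slab,
tops, the exponential moment of the number of slow tops. -/

set_option autoImplicit false

namespace Pool.Agent.CutSeq

open Finset

section Slab

variable {B L : ℕ}

/-- the slab of a word -/
def trSl (l S : ℕ) (h : l + S ≤ L) (ω : Wd B L) : Wd B S := fun j =>
  ω ⟨l + j.val, by have := j.isLt; omega⟩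

/-- replace the slab -/
def trRe (l S : ℕ) (ω : Wd B L) (σ : Wd B S) : Wd B L := fun i =>
  if h : l ≤ i.val ∧ i.val < l + S then σ ⟨i.val - l, by omega⟩ else ω i

theorem tr_sl_re (l S : ℕ) (h : l + S ≤ L) (ω : Wd B L) (σ : Wd B S) :
    trSl l S h (trRe l S ω σ) = σ := by
  funext j
  have hj := j.isLt
  unfold trSl trRe
  have h1 : l ≤ l + j.val ∧ l + j.val < l + S := by omega
  simp only [h1, and_self, dif_pos]
  congr 1
  apply Fin.ext
  simp

theorem tr_re_re (l S : ℕ) (h : l + S ≤ L) (ω : Wd B L) (σ : Wd B S) :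
    trRe l S (trRe l S ω σ) (trSl l S h ω) = ω := by
  funext i
  unfold trSl
  by_cases h1 : l ≤ i.val ∧ i.val < l + S
  · simp only [trRe, h1, and_self, dif_pos]
    congr 1
    apply Fin.ext
    simp only
    omega
  · simp only [trRe, dif_neg h1]

theorem tr_ext_re (l S : ℕ) (ω : Wd B L) (σ : Wd B S) (i : ℕ) (hi : i < l) :
    ext (trRe l S ω σ) i = ext ω i := by
  unfold ext
  by_cases h : i < L
  · have h1 : ¬ (l ≤ i ∧ i < l + S) := by omega
    simp only [h, dif_pos, trRe, dif_neg h1]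
  · simp only [dif_neg h]

theorem tr_mm_shift (l S n : ℕ) (h : l + S ≤ L) (ω : Wd B L) :
    mm (shift (ext ω) l) S n = mm (ext (trSl l S h ω)) S n := by
  refine mm_congr' _ _ S n ?_
  intro i hi
  unfold shift ext trSl
  have h1 : l + i < L := by omega
  simp only [h1, hi, dif_pos]

/-- past and slab are independent -/
theorem tr_joint (hB : 0 < B) (l S : ℕ) (h : l + S ≤ L) (F : Wd B L → Wd B S → ℝ)
    (hF : ∀ ω ω' σ, (∀ i < l, ext ω i = ext ω' i) → F ω σ = F ω' σ) :
    ∑ ω, F ω (trSl l S h ω) = ∑ ω, ∑ σ, uw B S σ * F ω σ := by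
  classical
  have : NeZero B := ⟨hB.ne'⟩
  have hcard : (0 : ℝ) < (Fintype.card (Wd B S) : ℝ) := by
    have : 0 < Fintype.card (Wd B S) := Fintype.card_pos
    exact_mod_cast this
  let e : (Wd B L × Wd B S) ≃ (Wd B L × Wd B S) :=
    { toFun := fun p => (trRe l S p.1 p.2, trSl l S h p.1)
      invFun := fun p => (trRe l S p.1 p.2, trSl l S h p.1)
      left_inv := fun p => by
        simp only [tr_re_re, tr_sl_re]
      right_inv := fun p => by
        simp only [tr_re_re, tr_sl_re] }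
  have h1 : ∑ p : Wd B L × Wd B S, F p.1 (trSl l S h p.1)
      = ∑ p : Wd B L × Wd B S, F p.1 p.2 := by
    rw [← Equiv.sum_comp e (fun p => F p.1 (trSl l S h p.1))]
    refine Finset.sum_congr rfl fun p _ => ?_
    show F (trRe l S p.1 p.2) (trSl l S h (trRe l S p.1 p.2)) = F p.1 p.2
    rw [tr_sl_re]
    exact hF _ _ _ fun i hi => tr_ext_re l S p.1 p.2 i hi
  rw [Fintype.sum_prod_type, Fintype.sum_prod_type] at h1
  simp only [Finset.sum_const, Finset.card_univ, nsmul_eq_mul] at h1
  rw [← Finset.mul_sum] at h1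
  simp only [uw]
  simp only [← Finset.mul_sum]
  rw [one_div, eq_inv_mul_iff_mul_eq₀ hcard.ne']
  exact h1

end Slab

section Tops

theorem tr_add_self {n : ℕ} (a : V n) : a + a = 0 := by
  funext j
  rcases lv_zmod2_cases (a j) with h | h <;> simp [h, show (1 : ZMod 2) + 1 = 0 by decide]

theorem tr_tp_pad {n n' : ℕ} (h : n ≤ n') (z : V n) : tp (pad z : V n') = tp z := by
  apply le_antisymm
  · refine Bwd.tp_le_of _ _ ?_
    intro k hk
    unfold pad
    by_cases h1 : k.val < n
    · rw [dif_pos h1]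
      exact Bwd.eq_zero_of_tp_le z ⟨k.val, h1⟩ hk
    · rw [dif_neg h1]
  · refine Bwd.tp_le_of _ _ ?_
    intro k hk
    have h1 := Bwd.eq_zero_of_tp_le (pad z : V n') ⟨k.val, lt_of_lt_of_le k.isLt h⟩ hk
    unfold pad at h1
    simpa using h1

/-- an additive injection: the coordinates at the tops of the differences separate a set -/
theorem tr_count {n : ℕ} (f : V n → V n) (hadd : ∀ a b, f (a + b) = f a + f b)
    (hinj : Function.Injective f) (W T : Finset (V n))
    (hT : ∀ a ∈ W, ∀ a' ∈ W, a ≠ a' → a + a' ∈ T) :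
    W.card ≤ 2 ^ (T.image fun c => tp (f c)).card := by
  classical
  set 𝒯 : Finset ℕ := T.image fun c => tp (f c) with h𝒯
  have hf0 : f 0 = 0 := by
    have h1 := hadd 0 0
    rw [add_zero] at h1
    have h2 := tr_add_self (f 0)
    rw [h2] at h1
    exact h1
  have h1 : W.card ≤ (univ : Finset (𝒯 → ZMod 2)).card := by
    refine Finset.card_le_card_of_injOn
      (fun a => fun t : 𝒯 => if h : t.val - 1 < n then f a ⟨t.val - 1, h⟩ else 0)
      (fun _ _ => Finset.mem_univ _) ?_
    intro a ha a' ha' heq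
    by_contra hne
    have hc := hT a ha a' ha' hne
    have hc0 : a + a' ≠ 0 := by
      intro h0
      apply hne
      have h2 : a + a' + a' = a := by rw [add_assoc, tr_add_self, add_zero]
      rw [h0, zero_add] at h2
      exact h2.symm
    have hfc : f (a + a') ≠ 0 := by
      intro h0
      exact hc0 (hinj (h0.trans hf0.symm))
    obtain ⟨k, hk, hk'⟩ := Bwd.exists_top _ hfc
    have hmem : tp (f (a + a')) ∈ 𝒯 := Finset.mem_image_of_mem (fun c => tp (f c)) hc
    have h3 := congrFun heq ⟨tp (f (a + a')), hmem⟩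
    have h4 : tp (f (a + a')) - 1 < n := by
      have := k.isLt
      omega
    simp only [dif_pos h4] at h3
    have h5 : (⟨tp (f (a + a')) - 1, h4⟩ : Fin n) = k := by
      apply Fin.ext
      simp only
      omega
    rw [h5] at h3
    apply hk
    rw [hadd, Pi.add_apply, h3]
    rcases lv_zmod2_cases (f a' k) with h | h <;> simp [h, show (1 : ZMod 2) + 1 = 0 by decide]
  rw [Finset.card_univ, Fintype.card_fun, ZMod.card, Fintype.card_coe] at h1
  exact h1

end Tops

section Moment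

/-- `c` is slow for the slab `h` after which the array is `x'` -/
def trOK {n : ℕ} (ℓ : ℕ) (h x' : Un n) (c : V n) : Prop :=
  act x' c ≠ 0 ∧ ∃ c' : V n, act h c' = act x' c ∧ tp c' + ℓ ≤ tp (act x' c)

open Classical in
/-- number of tops of such vectors in a list -/
noncomputable def trN {n : ℕ} (ℓ : ℕ) (D : Finset (V n)) (h x' : Un n) : ℕ :=
  ((D.filter fun c => trOK ℓ h x' c).image fun c => tp (act x' c)).card

theorem tr_geo (r M : ℕ) (hr : 1 ≤ r) :
    ∑ e ∈ range M, ((1 / 2 : ℝ) ^ r) ^ (e + 1) ≤ 2 * (1 / 2) ^ r := by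
  have h1 : ∀ e ∈ range M, ((1 / 2 : ℝ) ^ r) ^ (e + 1) ≤ (1 / 2) ^ r * (1 / 2) ^ e := by
    intro e _
    rw [pow_succ, mul_comm]
    refine mul_le_mul_of_nonneg_left ?_ (by positivity)
    refine pow_le_pow_left₀ (by positivity) ?_ e
    calc (1 / 2 : ℝ) ^ r ≤ (1 / 2) ^ 1 := pow_le_pow_of_le_one (by norm_num) (by norm_num) hr
      _ = 1 / 2 := pow_one _
  refine (Finset.sum_le_sum h1).trans ?_
  rw [← Finset.mul_sum, mul_comm]
  refine mul_le_mul_of_nonneg_right ?_ (by positivity)
  exact sum_geometric_two_le M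

/-- exponential moment of the number of slow tops -/
theorem tr_moment {B S n : ℕ} (hB : 0 < B) (q c1 r ℓ : ℕ) (hr : 1 ≤ r) (hℓ : ℓ = q + 2 * c1 + r)
    (D : Finset (V n)) (hD : D.card ≤ 2 ^ (2 * c1)) (x' : Un n) :
    ∑ σ, uw B S σ * (2 : ℝ) ^ (q * trN ℓ D (mm (ext σ) S n) x') ≤ 1 + 2 * (1 / 2) ^ r := by
  classical
  -- admissible families
  set Adm : ℕ → Finset (Finset (V n)) := fun e => (D.powersetCard e).filter fun E =>
    (∀ c ∈ E, act x' c ≠ 0) ∧ Set.InjOn (fun c => tp (act x' c)) (E : Set (V n)) with hAdm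
  have hAcard : ∀ e, (Adm e).card ≤ (2 ^ (2 * c1)) ^ e := by
    intro e
    calc (Adm e).card ≤ (D.powersetCard e).card := Finset.card_le_card (Finset.filter_subset _ _)
      _ = D.card.choose e := Finset.card_powersetCard e D
      _ ≤ D.card ^ e := Nat.choose_le_pow _ _
      _ ≤ (2 ^ (2 * c1)) ^ e := Nat.pow_le_pow_left hD e
  have hprob : ∀ e, ∀ E ∈ Adm e, ∑ σ, uw B S σ * (if ∀ c ∈ E, trOK ℓ (mm (ext σ) S n) x' c
      then (1 : ℝ) else 0) ≤ (1 / 2) ^ (ℓ * e) := by
    intro e E hE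
    rw [hAdm, Finset.mem_filter, Finset.mem_powersetCard] at hE
    obtain ⟨⟨hED, hEc⟩, hE0, hEinj⟩ := hE
    have hb := backward_inv (B := B) (S := S) (ℓ := ℓ) hB
      (fun i : Fin E.card => act x' ((E.equivFin.symm i).val))
      (fun i => hE0 _ (E.equivFin.symm i).property)
      (by
        intro i j hij
        have h1 := hEinj (E.equivFin.symm i).property (E.equivFin.symm j).property hij
        exact E.equivFin.symm.injective (Subtype.ext h1))
    refine le_trans (le_trans ?_ hb) (by rw [hEc])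
    unfold pr tot
    refine Finset.sum_le_sum fun σ _ => ?_
    split_ifs with h1
    · rw [mul_one]
      have h2 : σ ∈ {ω : Wd B S | ∀ i : Fin E.card, ∃ c : V n, act (mm (ext ω) S n) c
          = act x' ((E.equivFin.symm i).val) ∧ tp c + ℓ ≤ tp (act x' ((E.equivFin.symm i).val))} :=
        fun i => (h1 _ (E.equivFin.symm i).property).2
      unfold ind
      rw [Set.indicator_of_mem h2]
    · rw [mul_zero]
      exact lv_ind_nonneg lv_uw_nonneg σ
  -- pointwise bound
  have hpt : ∀ h : Un n, (2 : ℝ) ^ (q * trN ℓ D h x') ≤ 1 + ∑ e ∈ range D.card,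
      ∑ E ∈ Adm (e + 1), (2 : ℝ) ^ (q * (e + 1)) * (if ∀ c ∈ E, trOK ℓ h x' c then (1 : ℝ) else 0) := by
    intro h
    have hnn : ∀ e ∈ range D.card, 0 ≤ ∑ E ∈ Adm (e + 1), (2 : ℝ) ^ (q * (e + 1))
        * (if ∀ c ∈ E, trOK ℓ h x' c then (1 : ℝ) else 0) := by
      intro e _
      refine Finset.sum_nonneg fun E _ => ?_
      split_ifs <;> positivity
    rcases Nat.eq_zero_or_pos (trN ℓ D h x') with h0 | h0
    · rw [h0, mul_zero, pow_zero]
      have := Finset.sum_nonneg hnn
      linarith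
    · obtain ⟨e, he⟩ : ∃ e, trN ℓ D h x' = e + 1 := ⟨trN ℓ D h x' - 1, by omega⟩
      -- a family of representatives
      set Df : Finset (V n) := D.filter fun c => trOK ℓ h x' c with hDf
      obtain ⟨E, hEs, hEi, hEn⟩ : ∃ E : Finset (V n), E ⊆ Df ∧
          Set.InjOn (fun c => tp (act x' c)) (E : Set (V n)) ∧ E.card = e + 1 := by
        have hsurj : Set.SurjOn (fun c => tp (act x' c)) (Df : Set (V n))
            ((Df.image fun c => tp (act x' c) : Finset ℕ) : Set ℕ) := by
          rw [Finset.coe_image]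
          exact Set.surjOn_image _ _
        obtain ⟨E, hE1, hE2, hE3⟩ := Finset.exists_subset_injOn_image_eq_of_surjOn _ _ hsurj
        refine ⟨E, by exact_mod_cast hE1, hE2, ?_⟩
        have h4 : (E.image fun c => tp (act x' c)).card = E.card := Finset.card_image_of_injOn hE2
        rw [← h4, hE3]
        exact he
      have hE1 : E.card ≤ D.card := Finset.card_le_card (hEs.trans (Finset.filter_subset _ _))
      have heD : e ∈ range D.card := by
        rw [Finset.mem_range]
        omega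
      have hEA : E ∈ Adm (e + 1) := by
        rw [hAdm, Finset.mem_filter, Finset.mem_powersetCard]
        refine ⟨⟨hEs.trans (Finset.filter_subset _ _), hEn⟩, ?_, hEi⟩
        intro c hc
        exact (Finset.mem_filter.mp (hEs hc)).2.1
      have h2 : (2 : ℝ) ^ (q * (e + 1)) ≤ ∑ E ∈ Adm (e + 1), (2 : ℝ) ^ (q * (e + 1))
          * (if ∀ c ∈ E, trOK ℓ h x' c then (1 : ℝ) else 0) := by
        have h3 : (2 : ℝ) ^ (q * (e + 1)) = (2 : ℝ) ^ (q * (e + 1))
            * (if ∀ c ∈ E, trOK ℓ h x' c then (1 : ℝ) else 0) := by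
          rw [if_pos (fun c hc => (Finset.mem_filter.mp (hEs hc)).2), mul_one]
        refine h3.le.trans ?_
        refine Finset.single_le_sum (f := fun E => (2 : ℝ) ^ (q * (e + 1))
            * (if ∀ c ∈ E, trOK ℓ h x' c then (1 : ℝ) else 0)) (fun E _ => ?_) hEA
        split_ifs <;> positivity
      rw [he]
      have h4 := Finset.single_le_sum hnn heD
      linarith
  -- sum
  calc ∑ σ, uw B S σ * (2 : ℝ) ^ (q * trN ℓ D (mm (ext σ) S n) x')
      ≤ ∑ σ, uw B S σ * (1 + ∑ e ∈ range D.card, ∑ E ∈ Adm (e + 1), (2 : ℝ) ^ (q * (e + 1))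
          * (if ∀ c ∈ E, trOK ℓ (mm (ext σ) S n) x' c then (1 : ℝ) else 0)) :=
        Finset.sum_le_sum fun σ _ => mul_le_mul_of_nonneg_left (hpt _) (lv_uw_nonneg σ)
    _ = tot (uw B S) + ∑ e ∈ range D.card, ∑ E ∈ Adm (e + 1), (2 : ℝ) ^ (q * (e + 1))
          * ∑ σ, uw B S σ * (if ∀ c ∈ E, trOK ℓ (mm (ext σ) S n) x' c then (1 : ℝ) else 0) := by
        simp only [mul_add, mul_one, Finset.sum_add_distrib, Finset.mul_sum]
        unfold tot
        congr 1
        rw [Finset.sum_comm]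
        refine Finset.sum_congr rfl fun e _ => ?_
        rw [Finset.sum_comm]
        refine Finset.sum_congr rfl fun E _ => ?_
        refine Finset.sum_congr rfl fun σ _ => ?_
        ring
    _ ≤ 1 + ∑ e ∈ range D.card, ((1 / 2 : ℝ) ^ r) ^ (e + 1) := by
        rw [tot_uw hB]
        refine add_le_add le_rfl (Finset.sum_le_sum fun e _ => ?_)
        have h5 : ∀ E ∈ Adm (e + 1), (2 : ℝ) ^ (q * (e + 1))
            * ∑ σ, uw B S σ * (if ∀ c ∈ E, trOK ℓ (mm (ext σ) S n) x' c then (1 : ℝ) else 0)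
            ≤ (2 : ℝ) ^ (q * (e + 1)) * (1 / 2) ^ (ℓ * (e + 1)) := fun E hE =>
          mul_le_mul_of_nonneg_left (hprob _ E hE) (by positivity)
        refine (Finset.sum_le_card_nsmul _ _ _ h5).trans ?_
        rw [nsmul_eq_mul]
        have h6 : ((Adm (e + 1)).card : ℝ) ≤ ((2 : ℝ) ^ (2 * c1)) ^ (e + 1) := by
          exact_mod_cast hAcard (e + 1)
        refine (mul_le_mul_of_nonneg_right h6 (by positivity)).trans (le_of_eq ?_)
        have h9 : (1 / 2 : ℝ) ^ (ℓ * (e + 1)) = (1 / 2) ^ (q * (e + 1))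
            * (1 / 2) ^ (2 * c1 * (e + 1)) * (1 / 2) ^ (r * (e + 1)) := by
          rw [hℓ, ← pow_add, ← pow_add]
          congr 1
          ring
        rw [h9, ← pow_mul, ← pow_mul]
        have h7 : (2 : ℝ) ^ (2 * c1 * (e + 1)) * (1 / 2) ^ (2 * c1 * (e + 1)) = 1 := by
          rw [← mul_pow]
          norm_num
        have h8 : (2 : ℝ) ^ (q * (e + 1)) * (1 / 2) ^ (q * (e + 1)) = 1 := by
          rw [← mul_pow]
          norm_num
        calc (2 : ℝ) ^ (2 * c1 * (e + 1)) * ((2 : ℝ) ^ (q * (e + 1)) * ((1 / 2) ^ (q * (e + 1))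
              * (1 / 2) ^ (2 * c1 * (e + 1)) * (1 / 2) ^ (r * (e + 1))))
            = ((2 : ℝ) ^ (2 * c1 * (e + 1)) * (1 / 2) ^ (2 * c1 * (e + 1)))
              * ((2 : ℝ) ^ (q * (e + 1)) * (1 / 2) ^ (q * (e + 1))) * (1 / 2) ^ (r * (e + 1)) := by
              ring
          _ = (1 / 2) ^ (r * (e + 1)) := by rw [h7, h8, one_mul, one_mul]
    _ ≤ 1 + 2 * (1 / 2) ^ r := add_le_add le_rfl (tr_geo r D.card hr)

end Moment

end Pool.Agent.CutSeq
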