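import Mathlib

/-! Row WIN: the window corollary, abstract form. -/

set_option autoImplicit false

namespace Pool.Agent.CutSeq

open Filter Topology

namespace Win

/-- regular points: every short window contains a point after which `a` does not jump -/
theorem exists_regular (a : ℕ → ℝ) (μ d1 d2 : ℝ) (hμ : 0 < μ) (hd1 : 0 < d1) (hd2 : 0 < d2) :
    ∃ d0 : ℝ, 0 < d0 ∧ ∀ d : ℝ, 0 < d → d ≤ d0 → ∀ M' : ℕ, 1 ≤ M' →
      (∀ n : ℕ, M' ≤ n → 7 * (n : ℝ) ≤ a n ∧ a n ≤ 2 * μ * n) →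
      ∃ N : ℕ, M' ≤ N ∧ (N : ℝ) ≤ (1 + d2) * M' ∧ a ⌊(1 + d) * (N : ℝ)⌋₊ ≤ (1 + d1) * a N := by
  obtain ⟨J, hJ⟩ := pow_unbounded_of_one_lt (2 * μ * (1 + d2) / 7)
    (show (1 : ℝ) < 1 + d1 by linarith)
  have hlog : 0 < Real.log (1 + d2) := Real.log_pos (by linarith)
  refine ⟨Real.log (1 + d2) / (J + 1), by positivity, ?_⟩
  intro d hd hd0 M' hM' hb
  by_contra hcon
  push Not at hcon
  have hM0 : (0 : ℝ) < M' := by exact_mod_cast hM'
  have hpow : ∀ j ≤ J, (1 + d) ^ j ≤ 1 + d2 := by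
    intro j hj
    calc (1 + d) ^ j ≤ (Real.exp d) ^ j :=
          pow_le_pow_left₀ (by linarith) (by linarith [Real.add_one_le_exp d]) j
      _ = Real.exp (j * d) := by rw [← Real.exp_nat_mul]
      _ ≤ Real.exp (Real.log (1 + d2)) := by
          apply Real.exp_le_exp.2
          have hj' : (j : ℝ) ≤ J + 1 := by
            have : (j : ℝ) ≤ J := by exact_mod_cast hj
            linarith
          calc (j : ℝ) * d ≤ (J + 1) * (Real.log (1 + d2) / (J + 1)) :=
                mul_le_mul hj' hd0 hd.le (by positivity)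
            _ = Real.log (1 + d2) := by field_simp
      _ = 1 + d2 := Real.exp_log (by linarith)
  have key : ∀ j ≤ J, ∃ s : ℕ, M' ≤ s ∧ (s : ℝ) ≤ (1 + d) ^ j * M' ∧
      (1 + d1) ^ j * a M' ≤ a s := by
    intro j
    induction j with
    | zero => exact fun _ => ⟨M', le_rfl, by simp, by simp⟩
    | succ j ih =>
      intro hj
      obtain ⟨s, h1, h2, h3⟩ := ih (by omega)
      have h4 := hcon s h1 (h2.trans (mul_le_mul_of_nonneg_right (hpow j (by omega)) hM0.le))
      have hs0 : (0 : ℝ) ≤ s := Nat.cast_nonneg s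
      refine ⟨⌊(1 + d) * (s : ℝ)⌋₊, ?_, ?_, ?_⟩
      · exact h1.trans (Nat.le_floor (by nlinarith))
      · calc (⌊(1 + d) * (s : ℝ)⌋₊ : ℝ) ≤ (1 + d) * s := Nat.floor_le (by positivity)
          _ ≤ (1 + d) * ((1 + d) ^ j * M') := by gcongr
          _ = (1 + d) ^ (j + 1) * M' := by ring
      · calc (1 + d1) ^ (j + 1) * a M' = (1 + d1) * ((1 + d1) ^ j * a M') := by ring
          _ ≤ (1 + d1) * a s := by gcongr
          _ ≤ a ⌊(1 + d) * (s : ℝ)⌋₊ := h4.le
  obtain ⟨s, h1, h2, h3⟩ := key J le_rfl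
  have h4 := (hb s h1).2
  have h5 := (hb M' le_rfl).1
  have h6 : (s : ℝ) ≤ (1 + d2) * M' := h2.trans (mul_le_mul_of_nonneg_right (hpow J le_rfl) hM0.le)
  have h7 : (1 + d1) ^ J * (7 * (M' : ℝ)) ≤ 2 * μ * ((1 + d2) * M') := by
    calc (1 + d1) ^ J * (7 * (M' : ℝ)) ≤ (1 + d1) ^ J * a M' := by gcongr
      _ ≤ a s := h3
      _ ≤ 2 * μ * s := h4
      _ ≤ 2 * μ * ((1 + d2) * M') := by gcongr
  have h8 : 2 * μ * (1 + d2) < 7 * (1 + d1) ^ J := by
    rw [div_lt_iff₀ (by norm_num)] at hJ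
    linarith
  have h9 := mul_lt_mul_of_pos_right h8 hM0
  linarith

/-- the numerical inequality of the last case -/
theorem final_ineq (μ ρ d y x : ℝ) (hμ : 7 ≤ μ) (hρ : 1 < ρ) (hd : 0 ≤ d) (hd1 : d ≤ 1)
    (hy7 : 7 ≤ y) (hyμ : (1 - d) * (μ / 2) ≤ y) (hx0 : 0 ≤ x) (hxy : x ≤ y) (e : ℝ) (he : 0 ≤ e)
    (hx : x ≤ μ / ρ + e) :
    x * (1 - 16 / 3 / μ) + 16 / 3
      ≤ max 1 (min 29 (16 + 26 / ρ) / 21) * y + e + (16 / 3 + μ) * d := by
  have hμ0 : 0 < μ := by linarith
  have hρ0 : 0 < ρ := by linarith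
  have hcμ : 16 / 3 / μ ≤ 1 := by
    rw [div_le_one hμ0]
    linarith
  have hcμ0 : 0 ≤ 16 / 3 / μ := by positivity
  have hy0 : 0 ≤ y := by linarith
  set t : ℝ := 1 / ρ with ht
  have ht0 : 0 < t := by positivity
  have ht1 : t < 1 := by
    rw [ht, div_lt_one hρ0]
    exact hρ
  have h26 : 26 / ρ = 26 * t := by rw [ht]; ring
  have hμρ : μ / ρ = μ * t := by rw [ht]; ring
  rw [hμρ] at hx
  -- first bound
  have hb1 : x * (1 - 16 / 3 / μ) + 16 / 3 ≤ 29 / 21 * y + 16 / 3 * d := by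
    have h1 : x * (1 - 16 / 3 / μ) ≤ y * (1 - 16 / 3 / μ) :=
      mul_le_mul_of_nonneg_right hxy (by linarith)
    have h2 : 1 - d ≤ y * (1 / 14 + 1 / μ) := by
      rcases le_total μ 14 with h | h
      · have h3 : 1 / 14 ≤ 1 / μ := one_div_le_one_div_of_le hμ0 h
        nlinarith
      · have h3 : (1 - d) * (μ / 2) * (1 / 14 + 1 / μ) ≤ y * (1 / 14 + 1 / μ) :=
          mul_le_mul_of_nonneg_right hyμ (by positivity)
        have h4 : (1 - d) * (μ / 2) * (1 / 14 + 1 / μ) = (1 - d) * (μ / 28 + 1 / 2) := by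
          field_simp
          ring
        have h5 : (1 - d) * 1 ≤ (1 - d) * (μ / 28 + 1 / 2) :=
          mul_le_mul_of_nonneg_left (by linarith) (by linarith)
        linarith
    have h6 : y * (1 - 16 / 3 / μ) = y - 16 / 3 * (y * (1 / 14 + 1 / μ)) + 8 / 21 * y := by
      field_simp
      ring
    rw [h6] at h1
    linarith
  -- second bound
  have hb2 : x * (1 - 16 / 3 / μ) + 16 / 3 ≤ (16 + 26 * t) / 21 * y + e + μ * d := by
    have h1 : x * (1 - 16 / 3 / μ) ≤ (μ * t + e) * (1 - 16 / 3 / μ) :=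
      mul_le_mul_of_nonneg_right hx (by linarith)
    have h2 : (μ * t + e) * (1 - 16 / 3 / μ) = μ * t - 16 / 3 * t + e - e * (16 / 3 / μ) := by
      field_simp
      ring
    have h3 : 0 ≤ e * (16 / 3 / μ) := by positivity
    have h4 : μ * t + 16 / 3 * (1 - t) ≤ (16 + 26 * t) / 21 * y + μ * d := by
      rcases le_total μ 14 with h | h
      · have h5 : (16 + 26 * t) / 21 * 7 ≤ (16 + 26 * t) / 21 * y :=
          mul_le_mul_of_nonneg_left hy7 (by positivity)
        have h6 : μ * t ≤ 14 * t := mul_le_mul_of_nonneg_right h ht0.le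
        have h7 : 0 ≤ μ * d := by positivity
        linarith
      · have h5 : (16 + 26 * t) / 21 * ((1 - d) * (μ / 2)) ≤ (16 + 26 * t) / 21 * y :=
          mul_le_mul_of_nonneg_left hyμ (by positivity)
        have h6 : (16 + 26 * t) / 21 * ((1 - d) * (μ / 2))
            = μ * (8 / 21 + 13 / 21 * t) - d * (μ * (8 / 21 + 13 / 21 * t)) := by ring
        have h7 : μ * (8 / 21 + 13 / 21 * t) ≤ μ :=
          mul_le_of_le_one_right hμ0.le (by linarith)
        have h8 : d * (μ * (8 / 21 + 13 / 21 * t)) ≤ d * μ := mul_le_mul_of_nonneg_left h7 hd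
        have h9 : 16 / 3 * (1 - t) ≤ 8 / 21 * μ * (1 - t) :=
          mul_le_mul_of_nonneg_right (by linarith) (by linarith)
        linarith
    linarith
  have hF : min 29 (16 + 26 / ρ) / 21 * y ≤ max 1 (min 29 (16 + 26 / ρ) / 21) * y :=
    mul_le_mul_of_nonneg_right (le_max_right _ _) hy0
  have hd' : 0 ≤ μ * d := by positivity
  have hd'' : 0 ≤ 16 / 3 * d := by positivity
  rcases min_cases (29 : ℝ) (16 + 26 / ρ) with ⟨h, _⟩ | ⟨h, _⟩
  · rw [h] at hF ⊢
    linarith
  · rw [h, h26] at hF ⊢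
    linarith

end Win

/-- `a` is the mixing time at a high level, `b` at a low level -/
theorem window_abs (a b : ℕ → ℝ) (μ : ℝ) (hμ : 7 ≤ μ) (hmono : Monotone a) (ha0 : ∀ n, 0 ≤ a n)
    (hlow7 : ∀ᶠ n : ℕ in atTop, 7 * (n : ℝ) ≤ a n)
    (hlow : ∀ δ : ℝ, 0 < δ → ∀ᶠ n : ℕ in atTop, (1 - δ) * (μ / 2) * n ≤ a n)
    (hup : ∀ δ : ℝ, 0 < δ → ∀ᶠ n : ℕ in atTop, a n ≤ (1 + δ) * μ * n)
    (hB : ∀ δ : ℝ, 0 < δ → ∀ᶠ N : ℕ in atTop, ∃ n' : ℕ, (n' : ℝ) ≤ (1 + δ) * N ∧
      b N ≤ a n' + 16 / 3 * ((N : ℝ) - n') + δ * N)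
    (ρ δ : ℝ) (hρ : 1 < ρ) (hδ : 0 < δ) :
    ∀ᶠ M : ℕ in atTop, ∃ N : ℕ, M ≤ N ∧ (N : ℝ) ≤ ρ * M ∧
      b N ≤ (max 1 (min 29 (16 + 26 / ρ) / 21) + δ) * a N := by
  -- reduction to `δ ≤ 1`
  wlog hδ1 : δ ≤ 1 generalizing δ with H
  · refine (H 1 one_pos le_rfl).mono ?_
    rintro M ⟨N, h1, h2, h3⟩
    refine ⟨N, h1, h2, h3.trans (mul_le_mul_of_nonneg_right ?_ (ha0 N))⟩
    linarith [not_le.1 hδ1]
  have hμ0 : 0 < μ := by linarith
  have hρ0 : 0 < ρ := by linarith
  set F : ℝ := max 1 (min 29 (16 + 26 / ρ) / 21) with hF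
  have hF1 : 1 ≤ F := le_max_left _ _
  have hF2 : F ≤ 29 / 21 := by
    refine max_le (by norm_num) ?_
    have : min 29 (16 + 26 / ρ) ≤ 29 := min_le_left _ _
    linarith
  -- parameters
  set d2 : ℝ := min (min 1 (δ / (4 * μ))) (ρ - 1) with hd2
  have hd2pos : 0 < d2 := lt_min (lt_min one_pos (by positivity)) (by linarith)
  have hd2one : d2 ≤ 1 := (min_le_left _ _).trans (min_le_left _ _)
  have hd2δ : d2 ≤ δ / (4 * μ) := (min_le_left _ _).trans (min_le_right _ _)
  have hd2ρ : d2 ≤ ρ - 1 := min_le_right _ _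
  obtain ⟨d0, hd0, hreg⟩ := Win.exists_regular a μ (δ / 2) d2 hμ0 (by positivity) hd2pos
  set d : ℝ := min (min d0 d2) (δ / 5) with hd
  have hdpos : 0 < d := lt_min (lt_min hd0 hd2pos) (by positivity)
  have hdd0 : d ≤ d0 := (min_le_left _ _).trans (min_le_left _ _)
  have hdd2 : d ≤ d2 := (min_le_left _ _).trans (min_le_right _ _)
  have hdδ : d ≤ δ / 5 := min_le_right _ _
  have hd1 : d ≤ 1 := hdd2.trans hd2one
  obtain ⟨n₀, hn₀⟩ := eventually_atTop.1
    (hlow7.and ((hlow d hdpos).and ((hup d hdpos).and (hB d hdpos))))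
  have hE : ∀ᶠ M : ℕ in atTop, max (1 / d2) (a n₀ / d) ≤ (M : ℝ) :=
    tendsto_natCast_atTop_atTop.eventually_ge_atTop _
  filter_upwards [hE, eventually_ge_atTop n₀, eventually_ge_atTop 1] with M hM1 hMn hMone
  by_contra hcon
  push Not at hcon
  have hM0 : (0 : ℝ) < M := by exact_mod_cast hMone
  have hMR : (1 : ℝ) ≤ M := by exact_mod_cast hMone
  -- the regular point
  set M2 : ℕ := ⌊ρ * M / (1 + d2)⌋₊ with hM2
  have hMM2 : M ≤ M2 := by
    refine Nat.le_floor ?_
    rw [le_div_iff₀ (by linarith)]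
    have : (M : ℝ) * (1 + d2) ≤ M * ρ := mul_le_mul_of_nonneg_left (by linarith) hM0.le
    linarith
  have hM2le : (M2 : ℝ) ≤ ρ * M / (1 + d2) := Nat.floor_le (by positivity)
  have hM2ge : ρ * M / (1 + d2) < M2 + 1 := Nat.lt_floor_add_one _
  obtain ⟨N, hN1, hN2, hN3⟩ := hreg d hdpos hdd0 M2 (hMone.trans hMM2) (by
    intro n hn
    have h1 := hn₀ n (hMn.trans (hMM2.trans hn))
    refine ⟨h1.1, h1.2.2.1.trans ?_⟩
    have : (0 : ℝ) ≤ n := Nat.cast_nonneg n
    have h2 : (1 + d) * μ ≤ 2 * μ := mul_le_mul_of_nonneg_right (by linarith) hμ0.le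
    exact mul_le_mul_of_nonneg_right h2 this)
  have hMN : M ≤ N := hMM2.trans hN1
  have hNρ : (N : ℝ) ≤ ρ * M := by
    refine hN2.trans ?_
    rw [le_div_iff₀ (by linarith)] at hM2le
    linarith
  have hN0 : (0 : ℝ) < N := lt_of_lt_of_le hM0 (by exact_mod_cast hMN)
  have hMNR : (M : ℝ) ≤ N := by exact_mod_cast hMN
  have hfac := hn₀ N (hMn.trans hMN)
  obtain ⟨haN7, haNμ, haNup, n'', hn1, hn2⟩ := hfac
  have hbN := hcon N hMN hNρ
  have hreg' : ∀ n : ℕ, (n : ℝ) ≤ (1 + d) * N → a n ≤ (1 + δ / 2) * a N := by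
    intro n hn
    exact (hmono (Nat.le_floor hn)).trans hN3
  have hκ : F + δ ≤ 3 := by linarith
  -- the maximum of `a n - c n`
  obtain ⟨ns, hns1, hns2⟩ := Finset.exists_max_image (Finset.range (N + 1))
    (fun n => a n - 16 / 3 * (n : ℝ)) ⟨0, Finset.mem_range.2 (Nat.succ_pos N)⟩
  have hnsN : ns ≤ N := Nat.lt_succ_iff.1 (Finset.mem_range.1 hns1)
  have hnsNR : (ns : ℝ) ≤ N := by exact_mod_cast hnsN
  have hmax : ∀ n : ℕ, n ≤ N → a n - 16 / 3 * (n : ℝ) ≤ a ns - 16 / 3 * (ns : ℝ) := fun n hn =>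
    hns2 n (Finset.mem_range.2 (Nat.lt_succ_iff.2 hn))
  rcases le_or_gt M ns with hcase | hcase
  · -- case 1: the maximum lies in the window
    have hfac' := hn₀ ns (hMn.trans hcase)
    obtain ⟨has7, -, -, m, hm1, hm2⟩ := hfac'
    have hbs := hcon ns hcase (hnsNR.trans hNρ)
    have hns0 : (0 : ℝ) < ns := lt_of_lt_of_le hM0 (by exact_mod_cast hcase)
    have hδa : δ * (7 * (ns : ℝ)) ≤ (F + δ - 1) * a ns := by
      have h1 : δ * (7 * (ns : ℝ)) ≤ δ * a ns := mul_le_mul_of_nonneg_left has7 hδ.le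
      have h2 : δ * a ns ≤ (F + δ - 1) * a ns :=
        mul_le_mul_of_nonneg_right (by linarith) (ha0 ns)
      linarith
    rcases le_or_gt m N with hmN | hmN
    · have h1 := hmax m hmN
      have h2 : d * (ns : ℝ) ≤ δ / 5 * ns := mul_le_mul_of_nonneg_right hdδ hns0.le
      have h12 : 0 < δ * (ns : ℝ) := by positivity
      linarith
    · have hmN' : (N : ℝ) < m := by exact_mod_cast hmN
      have h1 : a m ≤ (1 + δ / 2) * a N := hreg' m (hm1.trans (by
        exact mul_le_mul_of_nonneg_left hnsNR (by linarith)))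
      have h2 := hmax N le_rfl
      -- `N - ns ≤ d N`
      have h3 : (N : ℝ) - ns ≤ d * N := by
        have h4 : (N : ℝ) < (1 + d) * ns := lt_of_lt_of_le hmN' hm1
        have h5 : d * (ns : ℝ) ≤ d * N := mul_le_mul_of_nonneg_left hnsNR hdpos.le
        linarith
      have h5 : a N - 16 / 3 * (d * N) ≤ a ns := by linarith
      have h6 : (F + δ) * (a N - 16 / 3 * (d * N)) ≤ (F + δ) * a ns :=
        mul_le_mul_of_nonneg_left h5 (by linarith)
      have h7 : (F + δ) * a ns < (1 + δ / 2) * a N + d * N := by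
        have h8 : d * (ns : ℝ) ≤ d * N := mul_le_mul_of_nonneg_left hnsNR hdpos.le
        linarith
      have h9 : δ / 2 * (7 * (N : ℝ)) ≤ (F + δ - 1 - δ / 2) * a N := by
        have h1 : δ / 2 * (7 * (N : ℝ)) ≤ δ / 2 * a N := mul_le_mul_of_nonneg_left haN7 (by linarith)
        have h2 : δ / 2 * a N ≤ (F + δ - 1 - δ / 2) * a N :=
          mul_le_mul_of_nonneg_right (by linarith) (ha0 N)
        linarith
      have h10 : (F + δ) * (16 / 3 * (d * N)) ≤ 3 * (16 / 3 * (d * N)) :=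
        mul_le_mul_of_nonneg_right hκ (by positivity)
      have h11 : d * (N : ℝ) ≤ δ / 5 * N := mul_le_mul_of_nonneg_right hdδ hN0.le
      have h12 : 0 < δ * (N : ℝ) := by positivity
      linarith
  · -- case 2: the maximum lies before the window
    rcases lt_or_ge N n'' with hn | hn
    · have h1 := hreg' n'' hn1
      have hnR : (N : ℝ) < n'' := by exact_mod_cast hn
      have h9 : δ / 2 * (7 * (N : ℝ)) ≤ (F + δ - 1 - δ / 2) * a N := by
        have h1 : δ / 2 * (7 * (N : ℝ)) ≤ δ / 2 * a N := mul_le_mul_of_nonneg_left haN7 (by linarith)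
        have h2 : δ / 2 * a N ≤ (F + δ - 1 - δ / 2) * a N :=
          mul_le_mul_of_nonneg_right (by linarith) (ha0 N)
        linarith
      have h11 : d * (N : ℝ) ≤ δ / 5 * N := mul_le_mul_of_nonneg_right hdδ hN0.le
      have h12 : 0 < δ * (N : ℝ) := by positivity
      linarith
    · have h1 := hmax n'' hn
      -- the value at the maximum
      have hcoef : 0 ≤ 1 - 16 / 3 / ((1 + d) * μ) := by
        have : 16 / 3 / ((1 + d) * μ) ≤ 1 := by
          rw [div_le_one (by positivity)]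
          have : 0 ≤ d * μ := by positivity
          linarith
        linarith
      have hval : a ns - 16 / 3 * (ns : ℝ)
          ≤ a M * (1 - 16 / 3 / ((1 + d) * μ)) + d * N := by
        rcases le_or_gt n₀ ns with h | h
        · have h2 := (hn₀ ns h).2.2.1
          have h3 : a ns / ((1 + d) * μ) ≤ ns := by
            rw [div_le_iff₀ (by positivity)]
            linarith
          have h4 : a ns - 16 / 3 * (ns : ℝ) ≤ a ns * (1 - 16 / 3 / ((1 + d) * μ)) := by
            have h5 : a ns * (1 - 16 / 3 / ((1 + d) * μ))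
                = a ns - 16 / 3 * (a ns / ((1 + d) * μ)) := by ring
            rw [h5]
            linarith
          have h6 : a ns * (1 - 16 / 3 / ((1 + d) * μ)) ≤ a M * (1 - 16 / 3 / ((1 + d) * μ)) :=
            mul_le_mul_of_nonneg_right (hmono hcase.le) hcoef
          have h7 : 0 ≤ d * (N : ℝ) := by positivity
          linarith
        · have h2 : a ns ≤ a n₀ := hmono h.le
          have h3 : a n₀ / d ≤ N := ((le_max_right _ _).trans hM1).trans hMNR
          rw [div_le_iff₀ hdpos] at h3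
          have h4 : (0 : ℝ) ≤ 16 / 3 * (ns : ℝ) := by positivity
          have h5 : 0 ≤ a M * (1 - 16 / 3 / ((1 + d) * μ)) := mul_nonneg (ha0 M) hcoef
          linarith
      have hstar : (F + δ) * a N
          < a M * (1 - 16 / 3 / ((1 + d) * μ)) + (16 / 3 + 2 * d) * N := by
        linarith
      -- normalise by `N`
      set y : ℝ := a N / N with hy
      set x : ℝ := a M / N with hx
      have hyN : y * N = a N := div_mul_cancel₀ _ hN0.ne'
      have hxN : x * N = a M := div_mul_cancel₀ _ hN0.ne'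
      have hx0 : 0 ≤ x := div_nonneg (ha0 M) hN0.le
      have hxy : x ≤ y := div_le_div_of_nonneg_right (hmono hMN) hN0.le
      have hy7 : 7 ≤ y := by
        rw [hy, le_div_iff₀ hN0]
        exact haN7
      have hyμ : (1 - d) * (μ / 2) ≤ y := by
        rw [hy, le_div_iff₀ hN0]
        exact haNμ
      have hNd2 : 1 ≤ d2 * N := by
        have h3 : 1 / d2 ≤ N := ((le_max_left _ _).trans hM1).trans hMNR
        rw [div_le_iff₀ hd2pos] at h3
        linarith
      have hxup : x ≤ μ / ρ + 7 * μ * d2 := by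
        have h2 : a M ≤ (1 + d) * μ * M := (hn₀ M hMn).2.2.1
        have h3 : ρ * M ≤ (1 + d2) ^ 2 * N := by
          rw [div_lt_iff₀ (by linarith)] at hM2ge
          have h4 : (M2 : ℝ) ≤ N := by exact_mod_cast hN1
          have h5 : ((M2 : ℝ) + 1) * (1 + d2) ≤ (N + d2 * N) * (1 + d2) :=
            mul_le_mul_of_nonneg_right (by linarith) (by linarith)
          have h6 : ((N : ℝ) + d2 * N) * (1 + d2) = (1 + d2) ^ 2 * N := by ring
          linarith
        have h4 : x * ρ * N ≤ (1 + d2) ^ 3 * μ * N := by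
          calc x * ρ * N = ρ * a M := by rw [← hxN]; ring
            _ ≤ ρ * ((1 + d) * μ * M) := mul_le_mul_of_nonneg_left h2 hρ0.le
            _ = (1 + d) * μ * (ρ * M) := by ring
            _ ≤ (1 + d2) * μ * ((1 + d2) ^ 2 * N) := by
                refine mul_le_mul ?_ h3 (by positivity) (by positivity)
                exact mul_le_mul_of_nonneg_right (by linarith) hμ0.le
            _ = (1 + d2) ^ 3 * μ * N := by ring
        have h5 : x * ρ ≤ (1 + d2) ^ 3 * μ := le_of_mul_le_mul_right h4 hN0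
        have h6 : (1 + d2) ^ 3 ≤ 1 + 7 * d2 := by
          have e1 : d2 ^ 2 ≤ d2 := by
            rw [sq]
            exact mul_le_of_le_one_left hd2pos.le hd2one
          have e2 : d2 ^ 3 ≤ d2 := by
            have : d2 ^ 3 = d2 ^ 2 * d2 := by ring
            rw [this]
            exact mul_le_of_le_one_left hd2pos.le (e1.trans hd2one)
          have e3 : (1 + d2) ^ 3 = 1 + 3 * d2 + 3 * d2 ^ 2 + d2 ^ 3 := by ring
          linarith
        have h7 : x * ρ ≤ (1 + 7 * d2) * μ := h5.trans (mul_le_mul_of_nonneg_right h6 hμ0.le)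
        have h8 : x ≤ (1 + 7 * d2) * μ / ρ := by
          rw [le_div_iff₀ hρ0]
          exact h7
        have h9 : (1 + 7 * d2) * μ / ρ = μ / ρ + 7 * μ * d2 / ρ := by ring
        have h10 : 7 * μ * d2 / ρ ≤ 7 * μ * d2 := div_le_self (by positivity) hρ.le
        linarith
      have hfin := Win.final_ineq μ ρ d y x hμ hρ hdpos.le hd1 hy7 hyμ hx0 hxy (7 * μ * d2)
        (by positivity) hxup
      rw [← hF] at hfin
      -- compare
      have hstar' : (F + δ) * y < x * (1 - 16 / 3 / ((1 + d) * μ)) + (16 / 3 + 2 * d) := by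
        have h2 : ((F + δ) * y) * N < (x * (1 - 16 / 3 / ((1 + d) * μ)) + (16 / 3 + 2 * d)) * N := by
          calc ((F + δ) * y) * N = (F + δ) * (y * N) := by ring
            _ = (F + δ) * a N := by rw [hyN]
            _ < a M * (1 - 16 / 3 / ((1 + d) * μ)) + (16 / 3 + 2 * d) * N := hstar
            _ = (x * (1 - 16 / 3 / ((1 + d) * μ)) + (16 / 3 + 2 * d)) * N := by
                rw [← hxN]
                ring
        exact lt_of_mul_lt_mul_right h2 hN0.le
      have hcf : 16 / 3 / μ - d ≤ 16 / 3 / ((1 + d) * μ) := by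
        have h2 : 16 / 3 / ((1 + d) * μ) = 16 / 3 / μ - 16 / 3 / μ * (d / (1 + d)) := by
          field_simp
          ring
        rw [h2]
        have h3 : 16 / 3 / μ ≤ 1 := by
          rw [div_le_one hμ0]
          linarith
        have h4 : d / (1 + d) ≤ d := div_le_self hdpos.le (by linarith)
        have h5 : 16 / 3 / μ * (d / (1 + d)) ≤ 1 * d :=
          mul_le_mul h3 h4 (by positivity) (by norm_num)
        linarith
      have hx8 : x ≤ 8 * μ := by
        have h2 : μ / ρ ≤ μ := div_le_self hμ0.le hρ.le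
        have h3 : 7 * μ * d2 ≤ 7 * μ * 1 := mul_le_mul_of_nonneg_left hd2one (by positivity)
        linarith
      have h20 : x * (1 - 16 / 3 / ((1 + d) * μ)) ≤ x * (1 - 16 / 3 / μ) + 8 * μ * d := by
        have h2 : x * (1 - 16 / 3 / ((1 + d) * μ)) ≤ x * (1 - 16 / 3 / μ + d) :=
          mul_le_mul_of_nonneg_left (by linarith) hx0
        have h3 : x * d ≤ 8 * μ * d := mul_le_mul_of_nonneg_right hx8 hdpos.le
        linarith
      have h21 : δ * 7 ≤ δ * y := mul_le_mul_of_nonneg_left hy7 hδ.le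
      have h22 : 7 * δ < 7 * μ * d2 + (16 / 3 + μ) * d + 8 * μ * d + 2 * d := by
        have : (F + δ) * y = F * y + δ * y := by ring
        linarith
      have h23 : (16 / 3 + μ) * d + 8 * μ * d + 2 * d ≤ (16 / 3 + μ) * d2 + 8 * μ * d2 + 2 * d2 := by
        have h0 : (0 : ℝ) ≤ 16 / 3 + μ + 8 * μ + 2 := by positivity
        have := mul_le_mul_of_nonneg_left hdd2 h0
        linarith
      have h24 : μ * d2 ≤ δ / 4 := by
        rw [le_div_iff₀ (by positivity)] at hd2δ
        linarith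
      have h25 : 7 * d2 ≤ μ * d2 := mul_le_mul_of_nonneg_right hμ hd2pos.le
      have h26 : (16 / 3 + μ) * d2 + 8 * μ * d2 + 2 * d2 = 22 / 3 * d2 + 9 * (μ * d2) := by ring
      have h27 : 7 * μ * d2 = 7 * (μ * d2) := by ring
      linarith

end Pool.Agent.CutSeq
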